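import Pool.Agent.helper90.LX.SUCrit

namespace LX

open Polynomial

universe u

variable {k K : Type u} [Field k] [Field K] [Algebra k K]

open Topology in
/-- Approximation data for a given primitive element `z`, with the shape of the generator `y`. -/
theorem su_approx_z (W : ValuationSubring K) (E : IntermediateField k K) [FiniteDimensional E K]
    (hsep : Algebra.IsSeparable E K) (_hnt : ∃ c : K, c ≠ 0 ∧ W.valuation c < 1)
    (_harch : MulArchimedean W.ValueGroup) (hd : DenseF W E) (z : K)
    (hz : IntermediateField.adjoin E {z} = ⊤) (F : Finset K)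
    (hF : ∀ x ∈ F, x ≠ 0) :
    ∃ (y : K) (Ψ : K[X]) (th : K → K) (q : K → K[X]),
      W.valuation (y + 1) < 1 ∧ 1 + y + y ^ 2 * Ψ.eval y = 0 ∧
      (∀ j, Ψ.coeff j ∈ E ∧ W.valuation (Ψ.coeff j) < 1) ∧
      IntermediateField.adjoin k (insert y (E : Set K)) = ⊤ ∧
      (∀ x ∈ F, th x ∈ E ∧ th x ≠ 0 ∧ W.valuation (th x) = W.valuation x ∧
        (∀ j, (q x).coeff j ∈ E ∧ W.valuation ((q x).coeff j) < 1) ∧
        x = th x * (1 + (q x).eval y)) ∧
      (y = -1 ∨ ∃ t ∈ E, ∃ e ∈ E, y = (z - t) * e) := by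
  classical
  by_cases hzE : z ∈ E
  · have hE : ∀ x : K, x ∈ E := by
      intro x
      have h1 : IntermediateField.adjoin E {z} ≤ (⊥ : IntermediateField E K) := by
        rw [IntermediateField.adjoin_simple_le_iff, IntermediateField.mem_bot]
        exact ⟨⟨z, hzE⟩, rfl⟩
      have h2 : x ∈ (⊥ : IntermediateField E K) := by
        apply h1
        rw [hz]
        exact IntermediateField.mem_top
      rw [IntermediateField.mem_bot] at h2
      obtain ⟨e, rfl⟩ := h2
      exact e.2
    refine ⟨-1, 0, fun x => x, fun _ => 0, by simp, by simp, fun j => ⟨hE _, by simp⟩, ?_, ?_, Or.inl rfl⟩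
    · rw [eq_top_iff]
      intro x _
      exact IntermediateField.subset_adjoin _ _ (Set.mem_insert_of_mem _ (hE x))
    · intro x hx
      exact ⟨hE x, hF x hx, rfl, fun j => ⟨hE _, by simp⟩, by simp⟩
  -- approximations and polynomials
  have hth : ∀ x : K, ∃ e : K, x ≠ 0 → e ∈ E ∧ W.valuation (x - e) < W.valuation x := by
    intro x
    by_cases hx : x = 0
    · exact ⟨0, fun h => absurd hx h⟩
    · obtain ⟨e, h1, h2⟩ := hd x x hx
      exact ⟨e, fun _ => ⟨h1, h2⟩⟩
  choose th hth using hth
  have hzint : IsIntegral E z := Algebra.IsIntegral.isIntegral z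
  have hpol : ∀ x : K, ∃ P : E[X], aeval z P = x := by
    intro x
    have h1 : x ∈ IntermediateField.adjoin E {z} := by
      rw [hz]; exact IntermediateField.mem_top
    rw [← IntermediateField.mem_toSubalgebra,
      IntermediateField.adjoin_simple_toSubalgebra_of_isAlgebraic hzint.isAlgebraic,
      Algebra.adjoin_singleton_eq_range_aeval] at h1
    exact h1
  choose PP hPP using hpol
  -- the minimal polynomial
  set p : Polynomial E := minpoly E z with hp
  have hpirr : Irreducible p := minpoly.irreducible hzint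
  have hroot : aeval z p = 0 := minpoly.aeval E z
  have hder : aeval z (derivative p) ≠ 0 :=
    (Algebra.IsSeparable.isSeparable E z).aeval_derivative_ne_zero hroot
  have hnoroot : ∀ e : E, p.eval e ≠ 0 := by
    intro e he
    have hdeg : p.degree = 1 := Polynomial.degree_eq_one_of_irreducible_of_root hpirr he
    have : z ∈ (algebraMap E K).range := minpoly.mem_range_of_degree_eq_one E z hdeg
    obtain ⟨e', he'⟩ := this
    exact hzE (he' ▸ e'.2)
  -- the topology
  let _ : Valued K W.ValueGroup := Valued.mk' W.valuation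
  have hvv : ∀ x : K, (Valued.v x : W.ValueGroup) = W.valuation x := fun x => rfl
  have hnh : ∀ (w : K) (s : Set K), s ∈ 𝓝 w ↔
      ∃ c : K, c ≠ 0 ∧ ∀ t, W.valuation (t - w) < W.valuation c → t ∈ s := by
    intro w s
    rw [Valued.mem_nhds]
    constructor
    · rintro ⟨γ, hγ⟩
      obtain ⟨c, hc⟩ := W.valuation_surjective (MonoidWithZeroHom.ValueGroup₀.embedding γ.1)
      refine ⟨c, ?_, fun t ht => hγ ?_⟩
      · rintro rfl
        rw [map_zero] at hc
        have := (map_ne_zero (MonoidWithZeroHom.ValueGroup₀.embedding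
          (f := .ofClass (Valued.v : Valuation K W.ValueGroup)))).2 γ.ne_zero
        exact this hc.symm
      · change Valued.v.restrict (t - w) < γ.1
        rw [Valuation.restrict_lt_iff_lt_embedding]
        change W.valuation (t - w) < _
        rw [hc] at ht
        exact ht
    · rintro ⟨c, hc, h⟩
      refine ⟨Units.mk0 ((Valued.v : Valuation K W.ValueGroup).restrict c) ?_, fun t ht => h t ?_⟩
      · rw [Ne, Valuation.restrict_eq_zero_iff]
        exact (Valuation.ne_zero_iff _).2 hc
      · change Valued.v.restrict (t - w) < Valued.v.restrict c at ht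
        rw [Valuation.restrict_lt_iff] at ht
        exact ht
  have hlt : ∀ (w : K) (G : K → K), ContinuousAt G w → W.valuation (G w) < 1 →
      ∀ᶠ t in 𝓝 w, W.valuation (G t) < 1 := by
    intro w G hG h1
    have h0 : {t : K | W.valuation t < 1} ∈ 𝓝 (G w) := by
      refine (hnh _ _).2 ⟨1, one_ne_zero, fun t ht => ?_⟩
      change W.valuation t < 1
      rw [map_one] at ht
      have h2 : t = (t - G w) + G w := by ring
      rw [h2]
      exact (Valuation.map_add _ _ _).trans_lt (max_lt ht h1)
    exact hG h0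
  -- evaluations
  set A : E[X] → K → K := fun q w => (q.map (algebraMap E K)).eval w with hA
  have hAc : ∀ q, Continuous (A q) := fun q => (q.map (algebraMap E K)).continuous
  have hAz : ∀ q : E[X], A q z = aeval z q := by
    intro q
    change (q.map (algebraMap E K)).eval z = _
    rw [Polynomial.eval_map, aeval_def]
  have hAe : ∀ (q : E[X]) (e : E), A q (e : K) = ((q.eval e : E) : K) := by
    intro q e
    change (q.map (algebraMap E K)).eval (e : K) = _
    rw [Polynomial.eval_map]
    exact Polynomial.eval₂_at_apply (algebraMap E K) e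
  set Q : ℕ → E[X] := fun j => hasseDeriv j p with hQ
  have hQ0 : A (Q 0) z = 0 := by
    rw [hAz]
    simp only [hQ, hasseDeriv_zero', hroot]
  have hQ1 : A (Q 1) z ≠ 0 := by
    rw [hAz]
    simpa only [hQ, hasseDeriv_one'] using hder
  set N := p.natDegree with hN
  set P : K → E[X] := fun x => PP ((x - th x) / th x) with hP
  have hev : ∀ᶠ w in 𝓝 z, A (Q 1) w ≠ 0 ∧
      (∀ j ∈ Finset.range N, W.valuation (A (Q (j + 2)) w * A (Q 0) w ^ (j + 1) /
        A (Q 1) w ^ (j + 2)) < 1) ∧
      (∀ j ∈ Finset.range N, W.valuation (A (Q (j + 2)) w * (z - w) ^ (j + 1) / A (Q 1) w) < 1) ∧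
      (∀ x ∈ F, ∀ i ∈ Finset.range ((P x).natDegree + 1),
        W.valuation (A (hasseDeriv i (P x)) w * (A (Q 0) w / A (Q 1) w) ^ i) < 1) := by
    have e1 : ∀ᶠ w in 𝓝 z, A (Q 1) w ≠ 0 := ((hAc (Q 1)).continuousAt).eventually_ne hQ1
    have e2 : ∀ j ∈ Finset.range N, ∀ᶠ w in 𝓝 z,
        W.valuation (A (Q (j + 2)) w * A (Q 0) w ^ (j + 1) / A (Q 1) w ^ (j + 2)) < 1 := by
      intro j _
      have c1 : ContinuousAt (fun w => A (Q (j + 2)) w * A (Q 0) w ^ (j + 1) /
          A (Q 1) w ^ (j + 2)) z :=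
        ContinuousAt.div (ContinuousAt.mul (hAc _).continuousAt
          (ContinuousAt.pow (hAc _).continuousAt _)) (ContinuousAt.pow (hAc _).continuousAt _)
          (pow_ne_zero _ hQ1)
      refine hlt z (fun w => A (Q (j + 2)) w * A (Q 0) w ^ (j + 1) / A (Q 1) w ^ (j + 2)) c1 ?_
      have c2 : A (Q (j + 2)) z * A (Q 0) z ^ (j + 1) / A (Q 1) z ^ (j + 2) = 0 := by
        rw [hQ0, zero_pow (Nat.succ_ne_zero j), mul_zero, zero_div]
      change W.valuation (A (Q (j + 2)) z * A (Q 0) z ^ (j + 1) / A (Q 1) z ^ (j + 2)) < 1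
      rw [c2, map_zero]
      exact zero_lt_one
    have e3 : ∀ j ∈ Finset.range N, ∀ᶠ w in 𝓝 z,
        W.valuation (A (Q (j + 2)) w * (z - w) ^ (j + 1) / A (Q 1) w) < 1 := by
      intro j _
      have c1 : ContinuousAt (fun w => A (Q (j + 2)) w * (z - w) ^ (j + 1) / A (Q 1) w) z :=
        ContinuousAt.div (ContinuousAt.mul (hAc _).continuousAt
          (ContinuousAt.pow (ContinuousAt.sub continuousAt_const continuousAt_id) _))
          (hAc _).continuousAt hQ1
      refine hlt z (fun w => A (Q (j + 2)) w * (z - w) ^ (j + 1) / A (Q 1) w) c1 ?_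
      have c2 : A (Q (j + 2)) z * (z - z) ^ (j + 1) / A (Q 1) z = 0 := by
        rw [sub_self, zero_pow (Nat.succ_ne_zero j), mul_zero, zero_div]
      change W.valuation (A (Q (j + 2)) z * (z - z) ^ (j + 1) / A (Q 1) z) < 1
      rw [c2, map_zero]
      exact zero_lt_one
    have e4 : ∀ x ∈ F, ∀ i ∈ Finset.range ((P x).natDegree + 1), ∀ᶠ w in 𝓝 z,
        W.valuation (A (hasseDeriv i (P x)) w * (A (Q 0) w / A (Q 1) w) ^ i) < 1 := by
      intro x hx i _
      have c1 : ContinuousAt (fun w => A (hasseDeriv i (P x)) w *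
          (A (Q 0) w / A (Q 1) w) ^ i) z :=
        ContinuousAt.mul (hAc _).continuousAt (ContinuousAt.pow (ContinuousAt.div
          (hAc _).continuousAt (hAc _).continuousAt hQ1) _)
      refine hlt z (fun w => A (hasseDeriv i (P x)) w * (A (Q 0) w / A (Q 1) w) ^ i) c1 ?_
      change W.valuation (A (hasseDeriv i (P x)) z * (A (Q 0) z / A (Q 1) z) ^ i) < 1
      rw [hQ0, zero_div]
      rcases Nat.eq_zero_or_pos i with rfl | hi
      · rw [pow_zero, mul_one, hasseDeriv_zero', hAz]
        change W.valuation (aeval z (PP _)) < 1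
        rw [hPP]
        obtain ⟨h1, h2⟩ := hth x (hF x hx)
        have h3 : W.valuation (th x) = W.valuation x := by
          have h4 : W.valuation (th x - x) < W.valuation x := by
            rw [Valuation.map_sub_swap]
            exact h2
          exact Valuation.map_eq_of_sub_lt _ h4
        rw [map_div₀, h3]
        exact (div_lt_one₀ (zero_lt_iff.2 ((Valuation.ne_zero_iff _).2 (hF x hx)))).2 h2
      · rw [zero_pow (by omega), mul_zero, map_zero]
        exact zero_lt_one
    filter_upwards [e1, (Filter.eventually_all_finset _).2 e2, (Filter.eventually_all_finset _).2 e3,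
      (Filter.eventually_all_finset _).2 fun x hx => (Filter.eventually_all_finset _).2 (e4 x hx)]
      with w h1 h2 h3 h4
    exact ⟨h1, h2, h3, h4⟩
  obtain ⟨c, hc, hball⟩ := (hnh _ _).1 hev
  obtain ⟨e0, he0, hclose⟩ := hd z c hc
  obtain ⟨hne1, hcond1, hcond2, hcond3⟩ := hball e0 (by
    rw [Valuation.map_sub_swap]
    exact hclose)
  set z0 : E := ⟨e0, he0⟩ with hz0
  -- Taylor coefficients
  set τ : Polynomial E := taylor z0 p with hτ
  set t : ℕ → K := fun j => ((τ.coeff j : E) : K) with ht
  have htA : ∀ j, t j = A (Q j) e0 := by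
    intro j
    have h1 := hAe (hasseDeriv j p) z0
    rw [← Polynomial.taylor_coeff] at h1
    exact h1.symm
  have htE : ∀ j, t j ∈ E := fun j => (τ.coeff j).2
  have ht1 : t 1 ≠ 0 := by
    rw [htA]
    exact hne1
  have ht0 : t 0 ≠ 0 := by
    intro h
    apply hnoroot z0
    have h' : τ.coeff 0 = 0 := Subtype.ext h
    rw [hτ, Polynomial.taylor_coeff_zero] at h'
    exact h'
  set T : K := z - e0 with hT
  have hTne : T ≠ 0 := by
    intro h
    rw [hT, sub_eq_zero] at h
    exact hzE (h ▸ he0)
  -- Taylor expansion at z0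
  have htay : ∀ (q : E[X]) (M : ℕ), q.natDegree < M →
      aeval z q = ∑ j ∈ Finset.range M, A (hasseDeriv j q) e0 * T ^ j := by
    intro q M hM
    have h1 : ((taylor z0 q).map (algebraMap E K)).eval T = aeval z q := by
      rw [Polynomial.taylor_apply, Polynomial.map_comp, Polynomial.eval_comp]
      simp only [Polynomial.map_add, Polynomial.map_X, Polynomial.map_C, Polynomial.eval_add,
        Polynomial.eval_X, Polynomial.eval_C]
      rw [show T + algebraMap E K z0 = z from by
        change z - e0 + e0 = z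
        ring, Polynomial.eval_map, ← aeval_def]
    have h2 : ((taylor z0 q).map (algebraMap E K)).natDegree < M := by
      refine lt_of_le_of_lt Polynomial.natDegree_map_le ?_
      rwa [Polynomial.natDegree_taylor]
    rw [← h1, Polynomial.eval_eq_sum_range' h2]
    refine Finset.sum_congr rfl fun j _ => ?_
    rw [Polynomial.coeff_map, Polynomial.taylor_coeff]
    have h3 := hAe (hasseDeriv j q) z0
    rw [show A (hasseDeriv j q) e0 = A (hasseDeriv j q) (z0 : K) from rfl, h3]
    rfl
  -- the equation of T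
  have hsum : t 0 + t 1 * T + ∑ j ∈ Finset.range N, t (j + 2) * T ^ (j + 2) = 0 := by
    have h1 := htay p (N + 2) (by omega)
    rw [hroot, Finset.sum_range_succ', Finset.sum_range_succ'] at h1
    simp only [zero_add, pow_one, pow_zero, mul_one] at h1
    have h2 : ∀ j, A (hasseDeriv j p) e0 = t j := fun j => (htA j).symm
    simp only [h2] at h1
    rw [h1]
    change t 0 + t 1 * T + _ = (∑ j ∈ Finset.range N, t (j + 1 + 1) * T ^ (j + 1 + 1)) +
      t 1 * T + t 0
    ring
  -- valuations
  have hTn : 0 < W.valuation T := zero_lt_iff.2 ((Valuation.ne_zero_iff _).2 hTne)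
  have ht1n : 0 < W.valuation (t 1) := zero_lt_iff.2 ((Valuation.ne_zero_iff _).2 ht1)
  have hrest : W.valuation (t 0 + t 1 * T) < W.valuation (t 1 * T) := by
    have h1 : t 0 + t 1 * T = -∑ j ∈ Finset.range N, t (j + 2) * T ^ (j + 2) := by
      linear_combination hsum
    rw [h1, Valuation.map_neg]
    refine Valuation.map_sum_lt _ ((Valuation.ne_zero_iff _).2 (mul_ne_zero ht1 hTne))
      fun j hj => ?_
    have h2 := hcond2 j hj
    rw [← htA, ← htA, map_div₀, div_lt_one₀ ht1n] at h2
    rw [pow_succ T (j + 1), ← mul_assoc, map_mul _ _ T, map_mul _ (t 1)]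
    exact mul_lt_mul_of_pos_right h2 hTn
  have ht0v : W.valuation (t 0) = W.valuation (t 1 * T) := by
    have h1 : W.valuation (t 0) = W.valuation (-(t 1 * T)) := by
      apply Valuation.map_eq_of_sub_lt
      rw [sub_neg_eq_add, Valuation.map_neg]
      exact hrest
    rwa [Valuation.map_neg] at h1
  have ht0pos : 0 < W.valuation (t 0) := zero_lt_iff.2 ((Valuation.ne_zero_iff _).2 ht0)
  -- the new generator
  set y : K := T * t 1 / t 0 with hy
  have hTy : T = t 0 / t 1 * y := by
    rw [hy]
    field_simp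
  set Ψ : Polynomial K := ∑ j ∈ Finset.range N,
    Polynomial.monomial j (t (j + 2) * t 0 ^ (j + 1) / t 1 ^ (j + 2)) with hΨ
  have hΨc : ∀ j, Ψ.coeff j = if j < N then t (j + 2) * t 0 ^ (j + 1) / t 1 ^ (j + 2) else 0 := by
    intro j
    rw [hΨ, Polynomial.finsetSum_coeff]
    simp only [Polynomial.coeff_monomial]
    rw [Finset.sum_ite_eq' (Finset.range N) j]
    simp only [Finset.mem_range]
  set q : K → K[X] := fun x => ∑ j ∈ Finset.range ((P x).natDegree + 1),
    Polynomial.monomial j (A (hasseDeriv j (P x)) e0 * (t 0 / t 1) ^ j) with hq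
  have hqc : ∀ x j, (q x).coeff j = if j < (P x).natDegree + 1 then
      A (hasseDeriv j (P x)) e0 * (t 0 / t 1) ^ j else 0 := by
    intro x j
    change (∑ j ∈ Finset.range ((P x).natDegree + 1),
      Polynomial.monomial j (A (hasseDeriv j (P x)) e0 * (t 0 / t 1) ^ j)).coeff j = _
    rw [Polynomial.finsetSum_coeff]
    simp only [Polynomial.coeff_monomial]
    rw [Finset.sum_ite_eq' (Finset.range ((P x).natDegree + 1)) j]
    simp only [Finset.mem_range]
  refine ⟨y, Ψ, th, q, ?_, ?_, ?_, ?_, ?_, Or.inr ⟨e0, he0, t 1 / t 0,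
    div_mem (htE 1) (htE 0), by rw [hy, hT, mul_div_assoc]⟩⟩
  · have h1 : y + 1 = (t 0 + t 1 * T) / t 0 := by
      rw [hy]
      field_simp
      ring
    rw [h1, map_div₀, div_lt_one₀ ht0pos, ht0v]
    exact hrest
  · have h1 : y ^ 2 * Ψ.eval y = (∑ j ∈ Finset.range N, t (j + 2) * T ^ (j + 2)) / t 0 := by
      rw [hΨ, Polynomial.eval_finsetSum, Finset.mul_sum, Finset.sum_div]
      refine Finset.sum_congr rfl fun j _ => ?_
      rw [Polynomial.eval_monomial]
      have h3 : y = T * t 1 / t 0 := hy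
      have h4 : y ^ 2 * (t (j + 2) * t 0 ^ (j + 1) / t 1 ^ (j + 2) * y ^ j) =
          t (j + 2) * t 0 ^ (j + 1) / t 1 ^ (j + 2) * y ^ (j + 2) := by ring
      rw [h4, h3, div_pow, mul_pow, div_mul_div_comm, div_eq_div_iff
        (mul_ne_zero (pow_ne_zero _ ht1) (pow_ne_zero _ ht0)) ht0]
      ring
    rw [h1]
    have h2 : 1 + y + (∑ j ∈ Finset.range N, t (j + 2) * T ^ (j + 2)) / t 0 =
        (t 0 + t 1 * T + ∑ j ∈ Finset.range N, t (j + 2) * T ^ (j + 2)) / t 0 := by
      rw [hy]
      field_simp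
    rw [h2, hsum, zero_div]
  · intro j
    rw [hΨc]
    split_ifs with hj
    · refine ⟨div_mem (mul_mem (htE _) (pow_mem (htE _) _)) (pow_mem (htE _) _), ?_⟩
      have h2 := hcond1 j (Finset.mem_range.2 hj)
      rw [← htA, ← htA, ← htA] at h2
      exact h2
    · exact ⟨zero_mem _, by rw [map_zero]; exact zero_lt_one⟩
  · set L := IntermediateField.adjoin k (insert y (E : Set K)) with hL
    have hEL : ∀ e ∈ E, e ∈ L := fun e he =>
      IntermediateField.subset_adjoin _ _ (Set.mem_insert_of_mem _ he)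
    have hyL : y ∈ L := IntermediateField.subset_adjoin _ _ (Set.mem_insert _ _)
    have hzL : z ∈ L := by
      have h1 : z = e0 + t 0 / t 1 * y := by
        rw [← hTy, hT]
        ring
      rw [h1]
      exact add_mem (hEL _ he0) (mul_mem (div_mem (hEL _ (htE 0)) (hEL _ (htE 1))) hyL)
    rw [eq_top_iff]
    intro x _
    have h1 : IntermediateField.adjoin E {z} ≤ IntermediateField.extendScalars (F := E) (E := L)
        (fun e he => hEL e he) := by
      rw [IntermediateField.adjoin_simple_le_iff]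
      exact hzL
    have h2 : x ∈ IntermediateField.adjoin E {z} := by
      rw [hz]; exact IntermediateField.mem_top
    exact h1 h2
  · intro x hx
    obtain ⟨h1, h2⟩ := hth x (hF x hx)
    have h3 : W.valuation (th x) = W.valuation x := by
      have h4 : W.valuation (th x - x) < W.valuation x := by
        rw [Valuation.map_sub_swap]
        exact h2
      exact Valuation.map_eq_of_sub_lt _ h4
    have h5 : th x ≠ 0 := by
      intro h6
      rw [h6, map_zero] at h3
      exact (Valuation.ne_zero_iff _).2 (hF x hx) h3.symm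
    refine ⟨h1, h5, h3, fun j => ?_, ?_⟩
    · rw [hqc]
      split_ifs with hj
      · refine ⟨mul_mem ?_ (pow_mem (div_mem (htE _) (htE _)) _), ?_⟩
        · have h7 := hAe (hasseDeriv j (P x)) z0
          rw [show A (hasseDeriv j (P x)) e0 = A (hasseDeriv j (P x)) (z0 : K) from rfl, h7]
          exact SetLike.coe_mem _
        · have h8 := hcond3 x hx j (Finset.mem_range.2 hj)
          rw [← htA, ← htA] at h8
          exact h8
      · exact ⟨zero_mem _, by rw [map_zero]; exact zero_lt_one⟩
    · have h7 : (q x).eval y = (x - th x) / th x := by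
        rw [← hPP ((x - th x) / th x)]
        change (∑ j ∈ Finset.range ((P x).natDegree + 1),
          Polynomial.monomial j (A (hasseDeriv j (P x)) e0 * (t 0 / t 1) ^ j)).eval y =
            aeval z (P x)
        rw [htay (P x) ((P x).natDegree + 1) (Nat.lt_succ_self _), Polynomial.eval_finsetSum]
        refine Finset.sum_congr rfl fun j _ => ?_
        rw [Polynomial.eval_monomial, mul_assoc, ← mul_pow, ← hTy]
      rw [h7]
      field_simp
      ring

/-- Approximation data. `z` primitive for `K/E` (separable, `E` dense), `F` finite set of nonzero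
elements. There are `t ∈ E` (very close to `z`), `th x ∈ E`, and `y ∈ K` in Hensel form, such that
`x = th x (1 + q_x(y))`, `q_x ∈ E[Y]` with all coefficients of positive value, and
`1 + y + y² Ψ(y) = 0`, `Ψ ∈ E[Y]` with all coefficients of positive value, `K = E(y)`. -/
theorem su_approx (W : ValuationSubring K) (E : IntermediateField k K) [FiniteDimensional E K]
    (hsep : Algebra.IsSeparable E K) (hnt : ∃ c : K, c ≠ 0 ∧ W.valuation c < 1)
    (harch : MulArchimedean W.ValueGroup) (hd : DenseF W E) (F : Finset K)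
    (hF : ∀ x ∈ F, x ≠ 0) :
    ∃ (y : K) (Ψ : K[X]) (th : K → K) (q : K → K[X]),
      W.valuation (y + 1) < 1 ∧ 1 + y + y ^ 2 * Ψ.eval y = 0 ∧
      (∀ j, Ψ.coeff j ∈ E ∧ W.valuation (Ψ.coeff j) < 1) ∧
      IntermediateField.adjoin k (insert y (E : Set K)) = ⊤ ∧
      ∀ x ∈ F, th x ∈ E ∧ th x ≠ 0 ∧ W.valuation (th x) = W.valuation x ∧
        (∀ j, (q x).coeff j ∈ E ∧ W.valuation ((q x).coeff j) < 1) ∧
        x = th x * (1 + (q x).eval y) := by
  obtain ⟨z, hz⟩ := Field.exists_primitive_element E K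
  obtain ⟨y, Ψ, th, q, h1, h2, h3, h4, h5, _⟩ := su_approx_z W E hsep hnt harch hd z hz F hF
  exact ⟨y, Ψ, th, q, h1, h2, h3, h4, h5⟩

/-! ### the local ring of the centre inside `K` -/

theorem SUDense_mem_center (W : ValuationSubring K) (A : Subalgebra k K) (h : ∀ a ∈ A, a ∈ W)
    (a : A) : a ∈ LU.center W A h ↔ W.valuation (a : K) < 1 := by
  rw [LU.center, Ideal.mem_comap]
  exact W.valuation_lt_one_iff (LU.toV W A h a)

theorem SUDense_not_center (W : ValuationSubring K) (A : Subalgebra k K) (h : ∀ a ∈ A, a ∈ W)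
    (a : A) : a ∉ LU.center W A h ↔ W.valuation (a : K) = 1 := by
  rw [SUDense_mem_center, not_lt]
  have h1 : W.valuation (a : K) ≤ 1 := (W.valuation_le_one_iff _).2 (h a a.2)
  constructor
  · exact fun h2 => le_antisymm h1 h2
  · exact fun h2 => h2.ge

/-- fractions `N / D` with `D` outside of the centre -/
def SUDense_Loc (W : ValuationSubring K) (A : Subalgebra k K) (x : K) : Prop :=
  ∃ N D : A, W.valuation (D : K) = 1 ∧ x * (D : K) = (N : K)

theorem SUDense_Loc.of_mem {W : ValuationSubring K} {A : Subalgebra k K} {x : K} (hx : x ∈ A) :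
    SUDense_Loc W A x := ⟨⟨x, hx⟩, 1, by simp, by simp⟩

theorem SUDense_Loc.mul {W : ValuationSubring K} {A : Subalgebra k K} {x y : K}
    (hx : SUDense_Loc W A x) (hy : SUDense_Loc W A y) : SUDense_Loc W A (x * y) := by
  obtain ⟨N, D, h1, h2⟩ := hx
  obtain ⟨N', D', h1', h2'⟩ := hy
  refine ⟨N * N', D * D', ?_, ?_⟩
  · change W.valuation ((D : K) * (D' : K)) = 1
    rw [map_mul, h1, h1', one_mul]
  · change x * y * ((D : K) * (D' : K)) = (N : K) * (N' : K)
    rw [← h2, ← h2']
    ring

theorem SUDense_Loc.add {W : ValuationSubring K} {A : Subalgebra k K} {x y : K}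
    (hx : SUDense_Loc W A x) (hy : SUDense_Loc W A y) : SUDense_Loc W A (x + y) := by
  obtain ⟨N, D, h1, h2⟩ := hx
  obtain ⟨N', D', h1', h2'⟩ := hy
  refine ⟨N * D' + N' * D, D * D', ?_, ?_⟩
  · change W.valuation ((D : K) * (D' : K)) = 1
    rw [map_mul, h1, h1', one_mul]
  · change (x + y) * ((D : K) * (D' : K)) = (N : K) * (D' : K) + (N' : K) * (D : K)
    rw [← h2, ← h2']
    ring

theorem SUDense_Loc.sum {W : ValuationSubring K} {A : Subalgebra k K} {ι : Type*} (u : Finset ι)
    (f : ι → K) (hf : ∀ i ∈ u, SUDense_Loc W A (f i)) : SUDense_Loc W A (∑ i ∈ u, f i) := by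
  classical
  induction u using Finset.induction_on with
  | empty => simpa using SUDense_Loc.of_mem (W := W) A.zero_mem
  | insert a u ha ih =>
    rw [Finset.sum_insert ha]
    exact (hf a (Finset.mem_insert_self a u)).add
      (ih fun i hi => hf i (Finset.mem_insert_of_mem hi))

theorem SUDense_val_const (W : ValuationSubring K) (hW : ∀ c : k, algebraMap k K c ∈ W) {c : k}
    (hc : c ≠ 0) : W.valuation (algebraMap k K c) = 1 := by
  apply le_antisymm ((W.valuation_le_one_iff _).2 (hW c))
  have h1 : W.valuation (algebraMap k K c)⁻¹ ≤ 1 := by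
    rw [← map_inv₀]
    exact (W.valuation_le_one_iff _).2 (hW _)
  rw [map_inv₀] at h1
  have h2 : algebraMap k K c ≠ 0 := (_root_.map_ne_zero _).2 hc
  exact (inv_le_one₀ (zero_lt_iff.2 ((Valuation.ne_zero_iff _).2 h2))).1 h1

/-- values of polynomials in small elements -/
theorem SUDense_aeval (W : ValuationSubring K) (hW : ∀ c : k, algebraMap k K c ∈ W) {n : ℕ}
    {s : Fin n → K} (hs : ∀ i, W.valuation (s i) < 1) (D : MvPolynomial (Fin n) k) :
    W.valuation (MvPolynomial.aeval s D - algebraMap k K (MvPolynomial.constantCoeff D)) < 1 := by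
  induction D using MvPolynomial.induction_on with
  | C c => simp
  | add p q hp hq =>
    have h1 : MvPolynomial.aeval s (p + q) - algebraMap k K (MvPolynomial.constantCoeff (p + q)) =
        (MvPolynomial.aeval s p - algebraMap k K (MvPolynomial.constantCoeff p)) +
        (MvPolynomial.aeval s q - algebraMap k K (MvPolynomial.constantCoeff q)) := by
      rw [map_add, map_add, map_add]
      ring
    rw [h1]
    exact (Valuation.map_add _ _ _).trans_lt (max_lt hp hq)
  | mul_X p i hp =>
    have h1 : MvPolynomial.aeval s (p * MvPolynomial.X i) -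
        algebraMap k K (MvPolynomial.constantCoeff (p * MvPolynomial.X i)) =
        MvPolynomial.aeval s p * s i := by
      simp
    rw [h1, map_mul]
    have h2 : W.valuation (MvPolynomial.aeval s p) ≤ 1 := by
      have h3 : MvPolynomial.aeval s p =
          (MvPolynomial.aeval s p - algebraMap k K (MvPolynomial.constantCoeff p)) +
          algebraMap k K (MvPolynomial.constantCoeff p) := by ring
      rw [h3]
      exact (Valuation.map_add _ _ _).trans (max_le hp.le ((W.valuation_le_one_iff _).2 (hW _)))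
    exact (mul_le_of_le_one_left' h2).trans_lt (hs i)

theorem SUDense_unit (W : ValuationSubring K) (hW : ∀ c : k, algebraMap k K c ∈ W) {n : ℕ}
    {s : Fin n → K} (hs : ∀ i, W.valuation (s i) < 1) (D : MvPolynomial (Fin n) k)
    (hD : MvPolynomial.constantCoeff D ≠ 0) : W.valuation (MvPolynomial.aeval s D) = 1 := by
  rw [← SUDense_val_const W hW hD]
  apply Valuation.map_eq_of_sub_lt
  rw [SUDense_val_const W hW hD]
  exact SUDense_aeval W hW hs D

theorem SUDense_aeval_mem {A : Subalgebra k K} {n : ℕ} {s : Fin n → K} {s' : Fin n → A}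
    (h : ∀ i, (s' i : K) = s i) (D : MvPolynomial (Fin n) k) : MvPolynomial.aeval s D ∈ A := by
  have h1 : MvPolynomial.aeval s D = A.val (MvPolynomial.aeval s' D) := by
    rw [MvPolynomial.comp_aeval_apply]
    congr 2
    funext i
    exact (h i).symm
  rw [h1]
  exact (MvPolynomial.aeval s' D).2

/-- Strong local uniformization from density and monomialization. Apply `MonF` to the finite set of
nonzero elements among `th x`, coefficients of `Ψ` and of the `q x`; `su_crit`; then
`1 + q_x(y)` is a unit of the local ring; `su_enlarge` for `F ∩ W`. -/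
theorem strong_of_dense (W : ValuationSubring K) (hW : ∀ c : k, algebraMap k K c ∈ W) (n : ℕ)
    (hn : Algebra.trdeg k K = n) (E : IntermediateField k K) [FiniteDimensional E K]
    (hsep : Algebra.IsSeparable E K) (hnt : ∃ c : K, c ≠ 0 ∧ W.valuation c < 1)
    (harch : MulArchimedean W.ValueGroup) (hd : DenseF W E) (hmon : MonF W E n) :
    StrongUnif k W := by
  classical
  intro F hF
  obtain ⟨y, Ψ, th, q, hy1, heq, hΨ, hgen, hx⟩ := su_approx W E hsep hnt harch hd F hF
  -- the finite set of elements of `E`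
  set Z : Finset K := F.image th ∪ (Ψ.support.image Ψ.coeff ∪
    F.biUnion fun x => (q x).support.image (q x).coeff) with hZ
  have hZ1 : ∀ z ∈ Z, z ∈ E ∧ z ≠ 0 := by
    intro z hz
    rw [hZ, Finset.mem_union, Finset.mem_union] at hz
    rcases hz with hz | hz | hz
    · obtain ⟨x, hxF, rfl⟩ := Finset.mem_image.1 hz
      exact ⟨(hx x hxF).1, (hx x hxF).2.1⟩
    · obtain ⟨j, hj, rfl⟩ := Finset.mem_image.1 hz
      exact ⟨(hΨ j).1, Polynomial.mem_support_iff.1 hj⟩
    · obtain ⟨x, hxF, hz⟩ := Finset.mem_biUnion.1 hz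
      obtain ⟨j, hj, rfl⟩ := Finset.mem_image.1 hz
      exact ⟨((hx x hxF).2.2.2.1 j).1, Polynomial.mem_support_iff.1 hj⟩
  obtain ⟨s, hs, hsE, hmon'⟩ := hmon Z hZ1
  have hs1 : ∀ i, W.valuation (s i) < 1 := fun i => (hs i).2
  -- integral elements are fractions
  have hfrac : ∀ z ∈ Z, W.valuation z ≤ 1 → ∃ N D : MvPolynomial (Fin n) k,
      MvPolynomial.constantCoeff D ≠ 0 ∧
      z * MvPolynomial.aeval s D = MvPolynomial.aeval s N := by
    intro z hz hz1
    obtain ⟨a, N, D, _, h2, h3, h4⟩ := hmon' z hz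
    refine ⟨(∏ i, MvPolynomial.X i ^ (a i).toNat) * N, D, h2, ?_⟩
    rw [h3, map_mul, map_prod]
    congr 1
    refine Finset.prod_congr rfl fun i _ => ?_
    rw [map_pow, MvPolynomial.aeval_X]
    conv_lhs => rw [← Int.toNat_of_nonneg (h4 hz1 i)]
    rw [zpow_natCast]
  have hΨ' : ∀ j, ∃ N D : MvPolynomial (Fin n) k, MvPolynomial.constantCoeff D ≠ 0 ∧
      Ψ.coeff j * MvPolynomial.aeval s D = MvPolynomial.aeval s N := by
    intro j
    by_cases hj : Ψ.coeff j = 0
    · exact ⟨0, 1, by simp, by simp [hj]⟩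
    · refine hfrac _ ?_ (hΨ j).2.le
      rw [hZ, Finset.mem_union, Finset.mem_union]
      exact Or.inr (Or.inl (Finset.mem_image.2 ⟨j, Polynomial.mem_support_iff.2 hj, rfl⟩))
  have hgen' : IntermediateField.adjoin k (insert y (Set.range s)) = ⊤ := by
    rw [eq_top_iff, ← hgen, IntermediateField.adjoin_le_iff, Set.insert_subset_iff]
    refine ⟨IntermediateField.subset_adjoin _ _ (Set.mem_insert _ _), ?_⟩
    have h1 : IntermediateField.adjoin k (Set.range s) ≤
        IntermediateField.adjoin k (insert y (Set.range s)) :=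
      IntermediateField.adjoin.mono _ _ _ (Set.subset_insert _ _)
    rw [hsE] at h1
    exact h1
  have halg : Algebra.IsAlgebraic (IntermediateField.adjoin k (Set.range s)) K := by
    rw [hsE]
    exact Algebra.IsAlgebraic.of_finite E K
  obtain ⟨A, h, s', y', hs', hy', hfg, hfr, hreg, hdim, hspan⟩ :=
    su_crit W hW n hn s hs1 y hy1 hgen' halg Ψ hΨ' (fun j => (hΨ j).2) heq
  have hyA : y ∈ A := by
    rw [← hy']
    exact y'.2
  have hyv : W.valuation y = 1 := by
    have h1 : W.valuation y = W.valuation (-1 : K) := by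
      apply Valuation.map_eq_of_sub_lt
      rw [sub_neg_eq_add, Valuation.map_neg, map_one]
      exact hy1
    rw [h1, Valuation.map_neg, map_one]
  have hunit : ∀ D : MvPolynomial (Fin n) k, MvPolynomial.constantCoeff D ≠ 0 →
      W.valuation (MvPolynomial.aeval s D) = 1 := SUDense_unit W hW hs1
  have hmem : ∀ D : MvPolynomial (Fin n) k, MvPolynomial.aeval s D ∈ A :=
    SUDense_aeval_mem hs'
  have hloc : ∀ z ∈ Z, W.valuation z ≤ 1 → SUDense_Loc W A z := by
    intro z hz hz1
    obtain ⟨N, D, h1, h2⟩ := hfrac z hz hz1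
    exact ⟨⟨_, hmem N⟩, ⟨_, hmem D⟩, hunit D h1, h2⟩
  -- the units `1 + q_x(y)`
  have hq : ∀ x ∈ F, SUDense_Loc W A (1 + (q x).eval y) ∧
      W.valuation (1 + (q x).eval y) = 1 := by
    intro x hxF
    obtain ⟨_, _, _, h4, _⟩ := hx x hxF
    rw [Polynomial.eval_eq_sum, Polynomial.sum_def]
    constructor
    · refine (SUDense_Loc.of_mem A.one_mem).add (SUDense_Loc.sum _ _ fun j hj => ?_)
      refine SUDense_Loc.mul (hloc _ ?_ (h4 j).2.le) (SUDense_Loc.of_mem (pow_mem hyA _))
      rw [hZ, Finset.mem_union, Finset.mem_union]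
      exact Or.inr (Or.inr (Finset.mem_biUnion.2 ⟨x, hxF, Finset.mem_image.2 ⟨j, hj, rfl⟩⟩))
    · rw [← map_one W.valuation]
      apply Valuation.map_eq_of_sub_lt
      rw [add_sub_cancel_left, map_one]
      refine Valuation.map_sum_lt _ one_ne_zero fun j _ => ?_
      rw [map_mul, map_pow, hyv, one_pow, mul_one]
      exact (h4 j).2
  -- enlarge the chart
  have hF' : ∀ x ∈ F.filter (fun x => x ∈ W), ∃ N D : A, D ∉ LU.center W A h ∧
      x * (D : K) = (N : K) := by
    intro x hx'
    rw [Finset.mem_filter] at hx'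
    obtain ⟨hxF, hxW⟩ := hx'
    obtain ⟨_, _, h3, _, h5⟩ := hx x hxF
    have h6 : SUDense_Loc W A (th x) := by
      refine hloc _ ?_ ?_
      · rw [hZ, Finset.mem_union]
        exact Or.inl (Finset.mem_image.2 ⟨x, hxF, rfl⟩)
      · rw [h3]
        exact (W.valuation_le_one_iff _).2 hxW
    obtain ⟨N, D, h7, h8⟩ := h6.mul (hq x hxF).1
    rw [← h5] at h8
    exact ⟨N, D, (SUDense_not_center W A h D).2 h7, h8⟩
  obtain ⟨A', h', s'', hAA, hs'', hfg', hfr', hreg', hdim', hspan', hFA⟩ :=
    su_enlarge W A h hfg hfr n s' hreg hdim hspan (F.filter (fun x => x ∈ W)) hF'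
  refine ⟨A', h', n, s'', hfg', hfr', hreg', hdim', hspan',
    fun x hxF hxW => hFA x (Finset.mem_filter.2 ⟨hxF, hxW⟩), fun x hxF => ?_⟩
  obtain ⟨_, _, _, _, h5⟩ := hx x hxF
  obtain ⟨⟨N2, D2, h6, h7⟩, h8⟩ := hq x hxF
  have hthZ : th x ∈ Z := by
    rw [hZ, Finset.mem_union]
    exact Or.inl (Finset.mem_image.2 ⟨x, hxF, rfl⟩)
  obtain ⟨a, N, D, h1, h2, h3, _⟩ := hmon' (th x) hthZ
  have hN2 : W.valuation (N2 : K) = 1 := by
    rw [← h7, map_mul, h8, h6, one_mul]
  refine ⟨a, ⟨_, hAA (mul_mem (hmem N) N2.2)⟩, ⟨_, hAA (mul_mem (hmem D) D2.2)⟩, ?_, ?_, ?_⟩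
  · rw [SUDense_not_center]
    change W.valuation (MvPolynomial.aeval s N * (N2 : K)) = 1
    rw [map_mul, hunit N h1, hN2, one_mul]
  · rw [SUDense_not_center]
    change W.valuation (MvPolynomial.aeval s D * (D2 : K)) = 1
    rw [map_mul, hunit D h2, h6, one_mul]
  · change x * (MvPolynomial.aeval s D * (D2 : K)) =
      (∏ i, ((s'' i : A') : K) ^ a i) * (MvPolynomial.aeval s N * (N2 : K))
    have h9 : ∀ i, ((s'' i : A') : K) = s i := fun i => (hs'' i).trans (hs' i)
    simp only [h9]
    rw [← h7, ← mul_assoc _ (MvPolynomial.aeval s N), ← h3]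
    conv_lhs => rw [h5]
    ring

end LX
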