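import Pool.Agent.helper90.LX.RVLem

namespace LX

variable {k K : Type*} [Field k] [Field K] [Algebra k K]

/-- Sums with pairwise distinct values: if `s` is a nonempty finite set of indices, `g i ≠ 0` and the
values are pairwise distinct on `s`, then the sum is nonzero and its value is one of them. -/
theorem val_sum (V : RV k K) {ι : Type*} (s : Finset ι) (hs : s.Nonempty) (g : ι → K)
    (h0 : ∀ i ∈ s, g i ≠ 0) (hinj : ∀ i ∈ s, ∀ j ∈ s, V.v (g i) = V.v (g j) → i = j) :
    ∑ i ∈ s, g i ≠ 0 ∧ ∃ i ∈ s, V.v (∑ i ∈ s, g i) = V.v (g i) := by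
  classical
  obtain ⟨a, ha, hmin⟩ := Finset.exists_min_image s (fun i => V.v (g i)) hs
  have h1 : V.Gt (∑ i ∈ s.erase a, g i) (V.v (g a)) := by
    refine gt_sum _ _ fun i hi => ?_
    rw [Finset.mem_erase] at hi
    right
    refine lt_of_le_of_ne (hmin i hi.2) fun h => ?_
    exact hi.1 (hinj a ha i hi.2 h).symm
  rw [← Finset.add_sum_erase s g ha]
  exact ⟨add_ne (h0 a ha) h1, a, ha, v_add (h0 a ha) h1⟩

/-- The values of `k(S)` for a subring: if all nonzero values on the subalgebra `A` lie in `Γ`, so do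
the values on its field of fractions `adjoin k A`. -/
theorem val_adjoin (V : RV k K) (A : Subalgebra k K) (Γ : AddSubgroup ℝ)
    (hA : ∀ x ∈ A, x ≠ 0 → V.v x ∈ Γ) :
    ∀ x ∈ IntermediateField.adjoin k (A : Set K), x ≠ 0 → V.v x ∈ Γ := by
  intro x hx hx0
  rw [IntermediateField.mem_adjoin_iff_div] at hx
  obtain ⟨a, ha, b, hb, rfl⟩ := hx
  rw [Algebra.adjoin_eq] at ha hb
  have hb0 : b ≠ 0 := by
    rintro rfl
    simp at hx0
  have ha0 : a ≠ 0 := by
    rintro rfl
    simp at hx0
  rw [v_div ha0 hb0]
  exact Γ.sub_mem (hA a ha ha0) (hA b hb hb0)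

/-- Value groups in finite extensions. If `K` is algebraic of finite degree over the intermediate
field `E` and all values of `E` lie in a finitely generated subgroup `Γ` of `ℝ`, then the value group
of `K` is finitely generated. Proof: for `x ≠ 0` two terms of the minimal polynomial have the same
value, so `n v(x) ∈ Γ` for some `1 ≤ n ≤ N = [K:E]`, hence `N! v(x) ∈ Γ`; multiplication by `N!` is
injective on `ℝ`, and subgroups of finitely generated abelian groups are finitely generated. -/
theorem fg_of_finite (V : RV k K) (E : IntermediateField k K) [FiniteDimensional E K]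
    (Γ : AddSubgroup ℝ) (hΓ : Γ.FG) (hE : ∀ x ∈ E, x ≠ 0 → V.v x ∈ Γ) : V.grp.FG := by
  classical
  set N := Module.finrank E K with hN
  -- the multiple of a value
  have key : ∀ x : K, x ≠ 0 → (N.factorial : ℤ) • V.v x ∈ Γ := by
    intro x hx
    set P := minpoly E x with hP
    have hint : IsIntegral E x := IsIntegral.of_finite E x
    have hP0 : P ≠ 0 := minpoly.ne_zero hint
    have hdeg : P.natDegree ≤ N := minpoly.natDegree_le x
    have hsum : ∑ i ∈ P.support, (P.coeff i : K) * x ^ i = 0 := by
      have h1 := minpoly.aeval E x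
      rw [Polynomial.aeval_eq_sum_range, ← hP] at h1
      have h2 : ∑ i ∈ P.support, (P.coeff i : K) * x ^ i =
          ∑ i ∈ Finset.range (P.natDegree + 1), P.coeff i • x ^ i := by
        have h3 : P.support ⊆ Finset.range (P.natDegree + 1) := Polynomial.supp_subset_range_natDegree_succ
        refine Finset.sum_subset_zero_on_sdiff h3 ?_ ?_
        · intro i hi
          rw [Finset.mem_sdiff, Polynomial.mem_support_iff, not_not] at hi
          rw [hi.2, zero_smul]
        · intro i _
          rw [IntermediateField.smul_def, smul_eq_mul]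
      rw [h2]
      exact h1
    have hne : P.support.Nonempty := Polynomial.support_nonempty.2 hP0
    have hg0 : ∀ i ∈ P.support, (P.coeff i : K) * x ^ i ≠ 0 := by
      intro i hi
      have h1 := Polynomial.mem_support_iff.1 hi
      refine mul_ne_zero (fun h => h1 ?_) (pow_ne_zero _ hx)
      exact Subtype.ext h
    have hnot : ¬ ∀ i ∈ P.support, ∀ j ∈ P.support,
        V.v ((P.coeff i : K) * x ^ i) = V.v ((P.coeff j : K) * x ^ j) → i = j := fun h =>
      (val_sum V P.support hne (fun i => (P.coeff i : K) * x ^ i) hg0 h).1 hsum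
    push Not at hnot
    obtain ⟨i, hi, j, hj, hv, hij⟩ := hnot
    have hle : ∀ i ∈ P.support, i ≤ N := fun i hi =>
      (Polynomial.le_natDegree_of_mem_supp i hi).trans hdeg
    have hc : ∀ i ∈ P.support, (P.coeff i : K) ≠ 0 := fun i hi h =>
      Polynomial.mem_support_iff.1 hi (Subtype.ext h)
    -- wlog i < j
    have aux : ∀ i ∈ P.support, ∀ j ∈ P.support,
        V.v ((P.coeff i : K) * x ^ i) = V.v ((P.coeff j : K) * x ^ j) → i < j →
        (N.factorial : ℤ) • V.v x ∈ Γ := by
      intro i hi j hj hv hij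
      rw [V.map_mul _ _ (hc i hi) (pow_ne_zero _ hx), V.map_mul _ _ (hc j hj) (pow_ne_zero _ hx),
        v_pow hx, v_pow hx] at hv
      have h1 : ((j - i : ℕ) : ℤ) • V.v x ∈ Γ := by
        have h2 : ((j - i : ℕ) : ℤ) • V.v x = V.v (P.coeff i : K) - V.v (P.coeff j : K) := by
          rw [zsmul_eq_mul]
          push_cast [Nat.cast_sub hij.le]
          linarith
        rw [h2]
        exact Γ.sub_mem (hE _ (P.coeff i).2 (hc i hi)) (hE _ (P.coeff j).2 (hc j hj))
      have h2 : (j - i) ∣ N.factorial :=
        Nat.dvd_factorial (by omega) ((Nat.sub_le _ _).trans (hle j hj))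
      obtain ⟨q, hq⟩ := h2
      have h3 : (N.factorial : ℤ) • V.v x = (q : ℤ) • (((j - i : ℕ) : ℤ) • V.v x) := by
        rw [smul_smul, hq]
        push_cast
        ring_nf
      rw [h3]
      exact Γ.zsmul_mem h1 _
    rcases lt_or_gt_of_ne hij with h | h
    · exact aux i hi j hj hv h
    · exact aux j hj i hi hv.symm h
  -- finite generation
  have hfac : (N.factorial : ℤ) ≠ 0 := by exact_mod_cast N.factorial_ne_zero
  let Γ' : Submodule ℤ ℝ := AddSubgroup.toIntSubmodule Γ
  let G' : Submodule ℤ ℝ := AddSubgroup.toIntSubmodule V.grp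
  let f : ℝ →ₗ[ℤ] ℝ := LinearMap.lsmul ℤ ℝ (N.factorial : ℤ)
  have hf : Function.Injective f := by
    intro a b hab
    have h1 : (N.factorial : ℤ) • a = (N.factorial : ℤ) • b := hab
    exact smul_right_injective ℝ hfac h1
  have hΓ' : Γ'.FG := by
    rw [Submodule.fg_iff_addSubgroup_fg]
    exact hΓ
  have hno : IsNoetherian ℤ Γ' := isNoetherian_of_fg_of_noetherian Γ' hΓ'
  have hle : G'.map f ≤ Γ' := by
    rw [Submodule.map_le_iff_le_comap]
    intro s hs
    have hs' : s ∈ V.grp := hs
    obtain ⟨x, hx, rfl⟩ := exists_of_mem_grp hs'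
    exact key x hx
  have h1 : (G'.map f).FG := isNoetherian_submodule.1 hno _ hle
  have h2 : G'.FG := Submodule.fg_of_fg_map_injective f hf h1
  rw [Submodule.fg_iff_addSubgroup_fg] at h2
  exact h2

end LX
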