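import Mathlib

namespace LX

universe u

open IntermediateField.algebraAdjoinAdjoin in
/-- linear independence over `F` gives linear independence over `F(x)`, `x` algebraically independent
over `L` -/
theorem FgSub.indep {F L K : Type u} [Field F] [Field L] [Field K] [Algebra F L] [Algebra L K]
    [Algebra F K] [IsScalarTower F L K] {σ : Type u} (x : σ → K) (hx : AlgebraicIndependent L x)
    {ι : Type u} (l : ι → L) (hl : LinearIndependent F l) :
    LinearIndependent (IntermediateField.adjoin F (Set.range x)) (fun i => algebraMap L K (l i)) := by
  rw [← LinearIndependent.iff_fractionRing (R := Algebra.adjoin F (Set.range x))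
    (K := IntermediateField.adjoin F (Set.range x)), linearIndependent_iff']
  intro t a ha i hi
  have h0 : ∀ i, ∃ P : MvPolynomial σ F, MvPolynomial.aeval x P = (a i : K) := fun i => by
    have h1 : (a i : K) ∈ (MvPolynomial.aeval (R := F) x).range :=
      (Algebra.adjoin_range_eq_range_aeval F x).le (a i).2
    exact h1
  choose P hP using h0
  have hQ : MvPolynomial.aeval x
      (∑ i ∈ t, MvPolynomial.C (l i) * MvPolynomial.map (algebraMap F L) (P i)) = 0 := by
    rw [map_sum, ← ha]
    refine Finset.sum_congr rfl fun i _ => ?_
    rw [map_mul, ← MvPolynomial.algebraMap_eq, AlgHom.commutes,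
      MvPolynomial.aeval_map_algebraMap, hP, mul_comm]
    rfl
  have hQ0 := hx.eq_zero_of_aeval_eq_zero _ hQ
  have hP0 : P i = 0 := by
    ext m
    have h1 := congrArg (MvPolynomial.coeff m) hQ0
    rw [MvPolynomial.coeff_sum, MvPolynomial.coeff_zero] at h1
    have h2 : ∑ i ∈ t, (MvPolynomial.coeff m (P i)) • l i = 0 := by
      rw [← h1]
      refine Finset.sum_congr rfl fun i _ => ?_
      rw [MvPolynomial.coeff_C_mul, MvPolynomial.coeff_map, Algebra.smul_def, mul_comm]
    rw [MvPolynomial.coeff_zero]
    exact linearIndependent_iff'.1 hl t _ h2 i hi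
  apply Subtype.ext
  rw [← hP i, hP0, map_zero]
  rfl

theorem FgSub.core {F L K : Type u} [Field F] [Field L] [Field K] [Algebra F L] [Algebra L K]
    [Algebra F K] [IsScalarTower F L K] [Algebra.EssFiniteType F K] [Algebra.IsAlgebraic F L] :
    Module.Finite F L := by
  obtain ⟨s, hs⟩ := exists_isTranscendenceBasis L K
  obtain ⟨s0, hs0⟩ := exists_isTranscendenceBasis F L
  have he : IsEmpty s0 := hs0.isEmpty_iff_isAlgebraic.2 inferInstance
  have h1 := hs0.sumElim_comp hs
  have hal := h1.isAlgebraic_field
  have hr : Set.range (Sum.elim (Subtype.val : s → K) (algebraMap L K ∘ (Subtype.val : s0 → L))) =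
      Set.range (Subtype.val : s → K) := by
    rw [Set.Sum.elim_range, Set.range_eq_empty (algebraMap L K ∘ (Subtype.val : s0 → L)),
      Set.union_empty]
  rw [hr] at hal
  have h2 : Algebra.EssFiniteType (IntermediateField.adjoin F (Set.range (Subtype.val : s → K))) K :=
    Algebra.EssFiniteType.of_comp F _ K
  have h3 : Module.Finite (IntermediateField.adjoin F (Set.range (Subtype.val : s → K))) K :=
    Algebra.finite_of_essFiniteType_of_isAlgebraic
  have hrk : Module.rank F L ≤
      (Module.finrank (IntermediateField.adjoin F (Set.range (Subtype.val : s → K))) K : ℕ) :=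
    rank_le fun t ht => by
      have h4 := FgSub.indep (Subtype.val : s → K) hs.1 _ ht
      have h5 := h4.fintype_card_le_finrank
      rwa [Fintype.card_coe] at h5
  exact Module.rank_lt_aleph0_iff.1 (hrk.trans_lt (Cardinal.natCast_lt_aleph0))

variable {k K : Type u} [Field k] [Field K] [Algebra k K]

/-- Intermediate fields of finitely generated field extensions are finitely generated. Proof: `s`
transcendence basis of `L/k`, `F = k(s)`; `B` transcendence basis of `K/L`; `K` is algebraic and
finitely generated, hence finite over `F(B)`; `F`-linearly independent elements `l_i` of `L` are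
linearly independent over `F(B)` (clear denominators; `∑ C (l_i) * map P_i ∈ MvPolynomial B L` vanishes
at `B`, hence is zero, hence so are all coefficients of the `P_i`); so `[L : F] ≤ [K : F(B)]`. -/
theorem fg_sub [Algebra.EssFiniteType k K] (L : IntermediateField k K) :
    ∃ t : Set K, t.Finite ∧ IntermediateField.adjoin k t = L := by
  obtain ⟨s, hs⟩ := exists_isTranscendenceBasis k L
  have hfin : Finite s := by
    have h1 : AlgebraicIndependent k (fun y : s => ((y : L) : K)) :=
      hs.1.map' (f := L.val) L.val.injective
    exact finite_of_algebraicIndependent h1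
  have hal := hs.isAlgebraic_field
  have h2 : Algebra.EssFiniteType (IntermediateField.adjoin k (Set.range (Subtype.val : s → L))) K :=
    Algebra.EssFiniteType.of_comp k _ K
  have h3 : Module.Finite (IntermediateField.adjoin k (Set.range (Subtype.val : s → L))) L :=
    FgSub.core (K := K)
  have h4 : Algebra.EssFiniteType k
      (IntermediateField.adjoin k (Set.range (Subtype.val : s → L))) :=
    IntermediateField.essFiniteType_iff.2
      (IntermediateField.fg_adjoin_of_finite (Set.finite_range _))
  have h5 : Algebra.EssFiniteType k L :=
    Algebra.EssFiniteType.comp k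
      (IntermediateField.adjoin k (Set.range (Subtype.val : s → L))) L
  obtain ⟨t, ht⟩ := IntermediateField.essFiniteType_iff.1 h5
  exact ⟨t, t.finite_toSet, ht⟩

end LX
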