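import Pool.Agent.helper90.LX.SUDefs

namespace LX

open IsLocalRing

universe u

variable {k K : Type u} [Field k] [Field K] [Algebra k K]

section core

open LU

theorem SUCrit.core (V : ValuationSubring K)
    (hV : ∀ c : k, algebraMap k K c ∈ V) {ι : Type} (z : ι → K) (hz : ∀ i, z i ∈ V)
    {S B : Type u} [CommRing S] [CommRing B] [IsDomain B] [Algebra (MvPolynomial ι k) S]
    [IsLocalization.AtPrime S (PP V hV z hz)] (ev : S →+* V)
    (hev : ∀ f, ev (algebraMap _ S f) = evV V hV z hz f)
    (mk : S →+* B) (hmk : Function.Surjective mk) (evB : B →+* V)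
    (hevB : ∀ s, evB (mk s) = ev s)
    [Finite ι] (hgen : IntermediateField.adjoin k (Set.range z) = ⊤)
    {σ : Type} (U : σ → MvPolynomial ι k)
    (hU : AlgebraicIndependent k (fun i => MvPolynomial.aeval z (U i)))
    {r : ℕ} (F : Fin r → S) (hF : ∀ j, mk (F j) = 0)
    (halg : ∀ (E : Type u) [Field E] (φ : S →+* E), (∀ j, φ (F j) = 0) →
      (∀ s, φ s = 0 → ev s = 0) → ∀ i,
        AlgOver ((φ.comp (algebraMap (MvPolynomial ι k) S)).comp
          (MvPolynomial.aeval U : MvPolynomial σ k →ₐ[k] MvPolynomial ι k).toRingHom)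
          (φ (algebraMap (MvPolynomial ι k) S (MvPolynomial.X i)))) :
    ∃ hAV : ∀ a ∈ Algebra.adjoin k (Set.range z), a ∈ V,
      (Algebra.adjoin k (Set.range z)).FG ∧ IsFractionRing (Algebra.adjoin k (Set.range z)) K ∧
      Nonempty (B ≃+* Localization.AtPrime (center V (Algebra.adjoin k (Set.range z)) hAV)) := by
  let E := FractionRing B
  let φ : S →+* E := (algebraMap B E).comp mk
  have hφF : ∀ j, φ (F j) = 0 := by
    intro j
    simp [φ, hF j]
  have hφ0 : ∀ s, φ s = 0 → mk s = 0 := by
    intro s hs
    exact (IsFractionRing.injective B E) (by rw [map_zero]; exact hs)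
  have hφ : ∀ s, φ s = 0 → ev s = 0 := by
    intro s hs
    rw [← hevB, hφ0 s hs, map_zero]
  have halg' := halg E φ hφF hφ
  let U' : MvPolynomial σ k →+* MvPolynomial ι k :=
    (MvPolynomial.aeval U : MvPolynomial σ k →ₐ[k] MvPolynomial ι k).toRingHom
  let θ : MvPolynomial σ k →+* E := (φ.comp (algebraMap (MvPolynomial ι k) S)).comp U'
  -- everything is algebraic
  have hall : ∀ s : S, AlgOver θ (φ s) := by
    let _ := θ.toAlgebra
    intro s
    obtain ⟨f, g, rfl⟩ := IsLocalization.exists_mk'_eq (PP V hV z hz).primeCompl s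
    have hpoly : ∀ f : MvPolynomial ι k,
        IsAlgebraic (MvPolynomial σ k) (φ (algebraMap _ S f)) := by
      intro f
      induction f using MvPolynomial.induction_on with
      | C c =>
        have : φ (algebraMap (MvPolynomial ι k) S (MvPolynomial.C c)) =
            algebraMap (MvPolynomial σ k) E (MvPolynomial.C c) := by
          change _ = θ _
          simp [θ, U']
        rw [this]
        exact isAlgebraic_algebraMap _
      | add p q hp hq =>
        rw [map_add, map_add]
        exact hp.add hq
      | mul_X p i hp =>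
        rw [map_mul, map_mul]
        exact hp.mul (halg' i)
    have h1 : IsUnit (algebraMap _ S (g : MvPolynomial ι k)) :=
      IsLocalization.map_units _ g
    have h2 : IsLocalization.mk' S f g * algebraMap _ S (g : MvPolynomial ι k) =
      algebraMap _ S f := IsLocalization.mk'_spec _ _ _
    have h3 : φ (algebraMap _ S (g : MvPolynomial ι k)) ≠ 0 := (h1.map φ).ne_zero
    have h4 : φ (IsLocalization.mk' S f g) =
        φ (algebraMap _ S f) * (φ (algebraMap _ S (g : MvPolynomial ι k)))⁻¹ := by
      rw [eq_mul_inv_iff_mul_eq₀ h3, ← map_mul, h2]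
    rw [h4]
    exact (hpoly f).mul (hpoly g).inv
  have hinj : Function.Injective evB := by
    rw [injective_iff_map_eq_zero]
    intro b hb
    by_contra hne
    obtain ⟨s, rfl⟩ := hmk b
    have hne' : φ s ≠ 0 := fun h => hne (hφ0 s h)
    let _ := θ.toAlgebra
    obtain ⟨q, hq0, hq⟩ := IsAlgebraic.exists_nonzero_coeff_and_aeval_eq_zero (hall s)
      (mem_nonZeroDivisors_of_ne_zero hne')
    let θB : MvPolynomial σ k →+* B := (mk.comp (algebraMap (MvPolynomial ι k) S)).comp U'
    have e1 : (algebraMap B E) (Polynomial.eval₂ θB (mk s) q) = 0 := by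
      rw [Polynomial.hom_eval₂]
      exact hq
    have e2 : Polynomial.eval₂ θB (mk s) q = 0 :=
      (IsFractionRing.injective B E) (by rw [map_zero]; exact e1)
    have e3 := congrArg evB e2
    rw [Polynomial.hom_eval₂, map_zero, show evB (mk s) = 0 from hb, Polynomial.eval₂_at_zero] at e3
    have e4 : (evB.comp θB) (q.coeff 0) = evV V hV z hz (U' (q.coeff 0)) := by
      change evB (mk (algebraMap _ _ (U' (q.coeff 0)))) = _
      rw [hevB, hev]
    rw [e4] at e3
    have e5 := congrArg (fun v : V => (v : K)) e3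
    simp only [coe_evV] at e5
    have e6 : MvPolynomial.aeval (fun i => MvPolynomial.aeval z (U i)) (q.coeff 0) =
        MvPolynomial.aeval z (U' (q.coeff 0)) := by
      have : (MvPolynomial.aeval (fun i => MvPolynomial.aeval z (U i)) :
        MvPolynomial σ k →ₐ[k] K) = (MvPolynomial.aeval z).comp (MvPolynomial.aeval U) := by
        apply MvPolynomial.algHom_ext
        intro i
        simp
      rw [this]
      rfl
    rw [← e6] at e5
    apply hq0
    apply hU
    rw [map_zero]
    exact e5
  -- the chart
  let A : Subalgebra k K := Algebra.adjoin k (Set.range z)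
  have hAr : A = (MvPolynomial.aeval z : MvPolynomial ι k →ₐ[k] K).range :=
    Algebra.adjoin_range_eq_range_aeval k z
  have hAV : ∀ a ∈ A, a ∈ V := by
    intro a ha
    rw [hAr] at ha
    obtain ⟨f, rfl⟩ := ha
    have := (evV V hV z hz f).2
    rw [coe_evV] at this
    exact this
  refine ⟨hAV, ?_, ?_, ?_⟩
  · exact ⟨(Set.finite_range z).toFinset, by simp [A]⟩
  · refine IsFractionRing.of_field _ _ ?_
    intro x
    have hx : x ∈ IntermediateField.adjoin k (Set.range z) := by rw [hgen]; trivial
    obtain ⟨a, ha, b, hb, hab⟩ := IntermediateField.mem_adjoin_iff_div.1 hx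
    exact ⟨⟨a, ha⟩, ⟨b, hb⟩, hab⟩
  · let C : Subring V := evB.range
    have eBC : B ≃+* C := RingEquiv.ofBijective evB.rangeRestrict
      ⟨fun a b h => hinj (congrArg Subtype.val h), evB.rangeRestrict_surjective⟩
    have hmem : ∀ a : A, toV V A hAV a ∈ C := by
      rintro ⟨a, ha⟩
      have ha' := ha
      rw [hAr] at ha'
      obtain ⟨f, hf⟩ := ha'
      refine ⟨mk (algebraMap _ _ f), ?_⟩
      rw [hevB, hev]
      apply Subtype.ext
      rw [coe_evV]
      exact hf
    let _ : Algebra A C := ((toV V A hAV).codRestrict C hmem).toAlgebra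
    have halgAC : ∀ a : A, ((algebraMap A C a : C) : V) = toV V A hAV a := fun a => rfl
    have hlift : ∀ a : A, ∃ f : MvPolynomial ι k, evV V hV z hz f = toV V A hAV a := by
      rintro ⟨a, ha⟩
      have ha' := ha
      rw [hAr] at ha'
      obtain ⟨f, hf⟩ := ha'
      refine ⟨f, ?_⟩
      apply Subtype.ext
      rw [coe_evV]
      exact hf
    have hloc : IsLocalization (center V A hAV).primeCompl C := by
      refine ⟨⟨?_, ?_, ?_⟩⟩
      · rintro ⟨a, ha⟩
        obtain ⟨f, hf⟩ := hlift a
        have hfP : f ∈ (PP V hV z hz).primeCompl := by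
          intro h
          apply ha
          change toV V A hAV a ∈ maximalIdeal V
          rw [← hf]
          exact h
        have h1 : IsUnit (algebraMap _ S f) := IsLocalization.map_units S ⟨f, hfP⟩
        have h2 := (h1.map mk).map evB.rangeRestrict
        have h3 : algebraMap A C a = evB.rangeRestrict (mk (algebraMap _ S f)) := by
          apply Subtype.ext
          change toV V A hAV a = evB (mk (algebraMap _ S f))
          rw [hevB, hev, hf]
        rw [h3]
        exact h2
      · rintro ⟨c, b, rfl⟩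
        obtain ⟨s, rfl⟩ := hmk b
        obtain ⟨f, g, rfl⟩ := IsLocalization.exists_mk'_eq (PP V hV z hz).primeCompl s
        have hfA : ∀ f : MvPolynomial ι k, MvPolynomial.aeval z f ∈ A := by
          intro f; rw [hAr]; exact ⟨f, rfl⟩
        have hgc : (⟨_, hfA g⟩ : A) ∈ (center V A hAV).primeCompl := by
          intro h
          apply g.2
          change evV V hV z hz g ∈ maximalIdeal V
          have : evV V hV z hz g = toV V A hAV ⟨_, hfA g⟩ := by
            apply Subtype.ext
            rw [coe_evV]; rfl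
          rw [this]
          exact h
        refine ⟨(⟨_, hfA f⟩, ⟨_, hgc⟩), ?_⟩
        apply Subtype.ext
        apply Subtype.ext
        change ((evB (mk (IsLocalization.mk' S f g)) : V) : K) * MvPolynomial.aeval z (g : MvPolynomial ι k) =
          MvPolynomial.aeval z f
        rw [hevB, ← coe_evV V hV z hz, ← coe_evV V hV z hz, ← hev, ← hev]
        have h2 : IsLocalization.mk' S f g * algebraMap _ S (g : MvPolynomial ι k) =
          algebraMap _ S f := IsLocalization.mk'_spec _ _ _
        rw [← h2, map_mul]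
        rfl
      · intro a b hab
        refine ⟨1, ?_⟩
        have h1 : toV V A hAV a = toV V A hAV b := congrArg Subtype.val hab
        have h2 : ((toV V A hAV a : V) : K) = (toV V A hAV b : V) := by rw [h1]
        have h3 : a = b := Subtype.ext h2
        rw [h3]
    exact ⟨eBC.trans (IsLocalization.algEquiv (center V A hAV).primeCompl C
        (Localization.AtPrime (center V A hAV))).toRingEquiv⟩


end core

theorem SUCrit.height (k : Type*) [Field k] (ι : Type*) [Finite ι] :
    ∀ P : Ideal (MvPolynomial ι k), P.IsMaximal → P.height = (Nat.card ι : ℕ∞) := by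
  induction ι using Finite.induction_empty_option with
  | @of_equiv α β e ih =>
    intro P hP
    let f : MvPolynomial α k ≃+* MvPolynomial β k := (MvPolynomial.renameEquiv k e).toRingEquiv
    have h1 : (P.comap f).IsMaximal := Ideal.comap_isMaximal_of_equiv f
    have h2 := ih _ h1
    rw [← Nat.card_congr e, ← h2, f.height_comap P]
  | h_empty =>
    intro P hP
    have hf : IsField (MvPolynomial PEmpty k) :=
      (MvPolynomial.isEmptyRingEquiv k PEmpty).toMulEquiv.isField (Field.toIsField k)
    have hP0 : P = ⊥ := by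
      let _ := hf.toField
      rcases Ideal.eq_bot_or_top P with h | h
      · exact h
      · exact absurd h hP.ne_top
    rw [hP0]
    simp
  | @h_option α _ ih =>
    intro P hP
    let f : MvPolynomial (Option α) k ≃+* Polynomial (MvPolynomial α k) :=
      (MvPolynomial.optionEquivLeft k α).toRingEquiv
    let Q : Ideal (Polynomial (MvPolynomial α k)) := P.comap f.symm
    have h1 : Q.IsMaximal := Ideal.comap_isMaximal_of_equiv f.symm
    have h2 : (Q.comap (Polynomial.C)).IsMaximal :=
      Polynomial.isMaximal_comap_C_of_isJacobsonRing Q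
    have h3 := ih _ h2
    have h4 : Q.LiesOver (Q.comap (Polynomial.C)) := ⟨rfl⟩
    have h5 := Polynomial.height_eq_height_add_one (Q.comap (Polynomial.C)) Q
    have h6 : Q.height = P.height := f.symm.height_comap P
    rw [← h6, h5, h3]
    simp

namespace SUCritAux

section aux

open IsLocalRing LU

variable {k K : Type u} [Field k] [Field K] [Algebra k K] (V : ValuationSubring K)
  (hV : ∀ c : k, algebraMap k K c ∈ V) {ι : Type} (z : ι → K) (hz : ∀ i, z i ∈ V)
  (pt : ι → k)

/-- constants in the valuation ring -/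
noncomputable def cst : k →+* V := (algebraMap k K).codRestrict V.toSubring hV

lemma res_evV (hpt : ∀ i, residue V ⟨z i, hz i⟩ = residue V (cst V hV (pt i)))
    (f : MvPolynomial ι k) :
    residue V (evV V hV z hz f) = residue V (cst V hV (MvPolynomial.eval pt f)) := by
  have h : (residue V).comp (evV V hV z hz) =
      ((residue V).comp (cst V hV)).comp (MvPolynomial.eval pt) := by
    apply MvPolynomial.ringHom_ext
    · intro c
      simp [evV, cst]
    · intro i
      have := hpt i
      simp only [RingHom.comp_apply, MvPolynomial.eval_X]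
      rw [← this]
      simp [evV]
  exact congrArg (fun g => g f) h

lemma mem_PP (hpt : ∀ i, residue V ⟨z i, hz i⟩ = residue V (cst V hV (pt i)))
    (f : MvPolynomial ι k) : f ∈ PP V hV z hz ↔ MvPolynomial.eval pt f = 0 := by
  change evV V hV z hz f ∈ maximalIdeal V ↔ _
  rw [← residue_eq_zero_iff, res_evV V hV z hz pt hpt]
  exact map_eq_zero_iff ((residue V).comp (cst V hV)) ((residue V).comp (cst V hV)).injective

variable (v : ι → k)

/-- the tangent functional on polynomials -/
noncomputable def tan : MvPolynomial ι k →+* DualNumber k :=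
  MvPolynomial.eval₂Hom (TrivSqZeroExt.inlHom k k)
    (fun i => TrivSqZeroExt.inl (pt i) + TrivSqZeroExt.inr (v i))

lemma fst_tan (f : MvPolynomial ι k) : (tan pt v f).fst = MvPolynomial.eval pt f := by
  have h : (TrivSqZeroExt.fstHom k k k).toRingHom.comp (tan pt v) = MvPolynomial.eval pt := by
    apply MvPolynomial.ringHom_ext
    · intro c
      simp [tan]
    · intro i
      simp [tan]
  exact congrArg (fun g => g f) h

/-- the tangent functional on the local ring -/
noncomputable def tanS
    (hpt : ∀ i, residue V ⟨z i, hz i⟩ = residue V (cst V hV (pt i))) :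
    SS V hV z hz →+* DualNumber k :=
  IsLocalization.lift (M := (PP V hV z hz).primeCompl) (g := tan pt v) (by
    intro y
    rw [TrivSqZeroExt.isUnit_iff_isUnit_fst, fst_tan, isUnit_iff_ne_zero]
    intro h
    exact y.2 ((mem_PP V hV z hz pt hpt _).2 h))

lemma tanS_algebraMap
    (hpt : ∀ i, residue V ⟨z i, hz i⟩ = residue V (cst V hV (pt i))) (f : MvPolynomial ι k) :
    tanS V hV z hz pt v hpt (algebraMap _ _ f) = tan pt v f := IsLocalization.lift_eq _ _

lemma fst_tanS
    (hpt : ∀ i, residue V ⟨z i, hz i⟩ = residue V (cst V hV (pt i))) (s : SS V hV z hz)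
    (hs : evS V hV z hz s ∈ maximalIdeal V) : (tanS V hV z hz pt v hpt s).fst = 0 := by
  obtain ⟨f, g, rfl⟩ := IsLocalization.exists_mk'_eq (PP V hV z hz).primeCompl s
  have h2 : IsLocalization.mk' (SS V hV z hz) f g *
      algebraMap _ (SS V hV z hz) (g : MvPolynomial ι k) = algebraMap _ (SS V hV z hz) f :=
    IsLocalization.mk'_spec _ _ _
  have hf : f ∈ PP V hV z hz := by
    change evV V hV z hz f ∈ maximalIdeal V
    rw [← evS_algebraMap, ← h2, map_mul]
    exact Ideal.mul_mem_right _ _ hs
  have h3 := congrArg (fun s => (tanS V hV z hz pt v hpt s).fst) h2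
  simp only [map_mul, TrivSqZeroExt.fst_mul, tanS_algebraMap, fst_tan] at h3
  rw [(mem_PP V hV z hz pt hpt f).1 hf] at h3
  rcases mul_eq_zero.1 h3 with h4 | h4
  · exact h4
  · exact absurd ((mem_PP V hV z hz pt hpt _).2 h4) g.2

end aux

section aux2

variable {k K : Type u} [Field k] [Field K] [Algebra k K]

lemma algOver_of {σ E : Type*} [Field E] (θ : MvPolynomial σ k →+* E) (x : E)
    (P : Polynomial (MvPolynomial σ k)) (hP : P ≠ 0) (h : P.eval₂ θ x = 0) :
    LU.AlgOver θ x := by
  unfold LU.AlgOver
  let _ := θ.toAlgebra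
  exact ⟨P, hP, h⟩

lemma common_denom {n : ℕ} (s : Fin n → K) (Ψ : Polynomial K)
    (hΨ : ∀ j, ∃ N D : MvPolynomial (Fin n) k, MvPolynomial.constantCoeff D ≠ 0 ∧
      Ψ.coeff j * MvPolynomial.aeval s D = MvPolynomial.aeval s N) :
    ∃ (D : MvPolynomial (Fin n) k) (N : ℕ → MvPolynomial (Fin n) k),
      MvPolynomial.constantCoeff D ≠ 0 ∧ ∀ j ∈ Ψ.support,
        Ψ.coeff j * MvPolynomial.aeval s D = MvPolynomial.aeval s (N j) := by
  classical
  choose N D hD h using hΨ
  refine ⟨∏ j ∈ Ψ.support, D j, fun j => N j * ∏ l ∈ Ψ.support.erase j, D l, ?_, ?_⟩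
  · rw [map_prod]
    exact Finset.prod_ne_zero_iff.2 fun j _ => hD j
  · intro j hj
    rw [← Finset.mul_prod_erase _ _ hj, map_mul, map_mul, ← mul_assoc, h j]

end aux2


end SUCritAux

theorem SUCrit.span_eq (V : ValuationSubring K) (A : Subalgebra k K) (h : ∀ a ∈ A, a ∈ V)
    (n : ℕ) (s' : Fin n → A) (y' : A) (z' : Option (Fin n) → A) (hz1 : z' none = y')
    (hz2 : ∀ i, z' (some i) = s' i)
    (hA : ∀ a : A, ∃ f : MvPolynomial (Option (Fin n)) k, MvPolynomial.aeval z' f = a)
    (hs : ∀ i, s' i ∈ LU.center V A h)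
    (D : MvPolynomial (Fin n) k) (N : ℕ → MvPolynomial (Fin n) k) (u : Finset ℕ)
    (hD : MvPolynomial.constantCoeff D ≠ 0) (hN : ∀ j ∈ u, MvPolynomial.constantCoeff (N j) = 0)
    (heq : MvPolynomial.aeval s' D * (1 + y') +
      y' ^ 2 * ∑ j ∈ u, MvPolynomial.aeval s' (N j) * y' ^ j = 0) :
    Ideal.span (Set.range fun i => algebraMap A (Localization.AtPrime (LU.center V A h)) (s' i)) =
      maximalIdeal (Localization.AtPrime (LU.center V A h)) := by
  set L := Localization.AtPrime (LU.center V A h) with hL
  set J : Ideal L := Ideal.span (Set.range fun i => algebraMap A L (s' i)) with hJ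
  have hJm : J ≤ maximalIdeal L := by
    rw [hJ, Ideal.span_le]
    rintro _ ⟨i, rfl⟩
    exact (IsLocalization.AtPrime.to_map_mem_maximal_iff L (LU.center V A h) (s' i)).2 (hs i)
  let π : A →+* L ⧸ J := (Ideal.Quotient.mk J).comp (algebraMap A L)
  have hπ : ∀ a : A, π a = 0 ↔ algebraMap A L a ∈ J := fun a => Ideal.Quotient.eq_zero_iff_mem
  have hπs : ∀ i, π (s' i) = 0 := fun i => (hπ _).2 (Ideal.subset_span ⟨i, rfl⟩)
  have h1 : ∀ g : MvPolynomial (Fin n) k, π (MvPolynomial.aeval s' g) =
      π (algebraMap k A (MvPolynomial.constantCoeff g)) := by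
    intro g
    have : (π.comp (MvPolynomial.aeval s' : MvPolynomial (Fin n) k →ₐ[k] A).toRingHom) =
        ((π.comp (algebraMap k A)).comp MvPolynomial.constantCoeff) := by
      apply MvPolynomial.ringHom_ext
      · intro c
        simp
      · intro i
        simpa using hπs i
    exact congrArg (fun φ => φ g) this
  have hc : ∀ c : k, c ≠ 0 → IsUnit (algebraMap k A c) := fun c hc =>
    (isUnit_iff_ne_zero.2 hc).map _
  have h2 : π (1 + y') = 0 := by
    have e1 := congrArg π heq
    simp only [map_add, map_mul, map_sum, map_pow, map_zero] at e1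
    have e2 : ∑ j ∈ u, π (MvPolynomial.aeval s' (N j)) * π y' ^ j = 0 := by
      refine Finset.sum_eq_zero fun j hj => ?_
      rw [h1, hN j hj, map_zero, map_zero, zero_mul]
    rw [e2, mul_zero, add_zero, h1] at e1
    rw [map_add]
    exact (((hc _ hD).map π).mul_right_eq_zero).1 e1
  have h3 : π y' = π (algebraMap k A (-1)) := by
    have : π y' = π (1 + y') - π 1 := by rw [map_add]; ring
    rw [this, h2]
    simp
  let pt : Option (Fin n) → k := fun o => o.elim (-1) (fun _ => 0)
  have h4 : ∀ f : MvPolynomial (Option (Fin n)) k, π (MvPolynomial.aeval z' f) =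
      π (algebraMap k A (MvPolynomial.eval pt f)) := by
    intro f
    have : (π.comp (MvPolynomial.aeval z' : MvPolynomial (Option (Fin n)) k →ₐ[k] A).toRingHom) =
        ((π.comp (algebraMap k A)).comp (MvPolynomial.eval pt)) := by
      apply MvPolynomial.ringHom_ext
      · intro c
        simp
      · rintro (_ | i)
        · simpa [hz1, pt] using h3
        · simpa [hz2, pt] using hπs i
    exact congrArg (fun φ => φ f) this
  apply le_antisymm hJm
  rw [← Localization.AtPrime.map_eq_maximalIdeal, Ideal.map_le_iff_le_comap]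
  intro a ha
  rw [Ideal.mem_comap, ← hπ]
  obtain ⟨f, rfl⟩ := hA a
  rw [h4]
  by_cases hf : MvPolynomial.eval pt f = 0
  · rw [hf, map_zero, map_zero]
  · exfalso
    have e1 : algebraMap A L (MvPolynomial.aeval z' f) ∈ maximalIdeal L :=
      (IsLocalization.AtPrime.to_map_mem_maximal_iff L (LU.center V A h) _).2 ha
    have e2 : algebraMap A L (MvPolynomial.aeval z' f - algebraMap k A (MvPolynomial.eval pt f)) ∈
        J := by
      rw [← hπ, map_sub, h4, sub_self]
    have e3 : algebraMap A L (algebraMap k A (MvPolynomial.eval pt f)) ∈ maximalIdeal L := by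
      have := Ideal.sub_mem _ e1 (hJm e2)
      rwa [map_sub, sub_sub_cancel] at this
    exact (mem_nonunits_iff.1 ((mem_maximalIdeal _).1 e3)) ((hc _ hf).map _)

open SUCritAux in
/-- `LU.crit` with explicit chart: copy of the proof of `LU.crit_core` / `LUV.lu_crit` (store file
LUV_LuCrit.lean), keeping `A = Algebra.adjoin k (insert y (range s))`, and with `s` a regular system
of parameters (the maximal ideal is generated by the `s i` and `y + 1`, and the equation
`(1 + y) + y^2 Ψ(y) = 0` with `Ψ_j` in the ideal `(s)` shows `y + 1 ∈ (s)`). -/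
theorem su_crit (V : ValuationSubring K)
    (hV : ∀ c : k, algebraMap k K c ∈ V) (n : ℕ) (hn : Algebra.trdeg k K = n) (s : Fin n → K)
    (hs : ∀ i, V.valuation (s i) < 1) (y : K) (hy : V.valuation (y + 1) < 1)
    (hgen : IntermediateField.adjoin k (insert y (Set.range s)) = ⊤)
    (halg : Algebra.IsAlgebraic (IntermediateField.adjoin k (Set.range s)) K)
    (Ψ : Polynomial K)
    (hΨ : ∀ j, ∃ N D : MvPolynomial (Fin n) k, MvPolynomial.constantCoeff D ≠ 0 ∧
      Ψ.coeff j * MvPolynomial.aeval s D = MvPolynomial.aeval s N)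
    (hΨ1 : ∀ j, V.valuation (Ψ.coeff j) < 1) (heq : 1 + y + y ^ 2 * Ψ.eval y = 0) :
    ∃ (A : Subalgebra k K) (h : ∀ a ∈ A, a ∈ V) (s' : Fin n → A) (y' : A),
      (∀ i, (s' i : K) = s i) ∧ (y' : K) = y ∧ A.FG ∧ IsFractionRing A K ∧
      IsRegularLocalRing (Localization.AtPrime (LU.center V A h)) ∧
      ringKrullDim (Localization.AtPrime (LU.center V A h)) = n ∧
      Ideal.span (Set.range fun i =>
        algebraMap A (Localization.AtPrime (LU.center V A h)) (s' i)) =
          maximalIdeal (Localization.AtPrime (LU.center V A h)) := by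


  classical
  obtain ⟨D, N, hD, hN⟩ := common_denom s Ψ hΨ
  have hsV : ∀ i, s i ∈ V := fun i => (V.valuation_le_one_iff _).1 (hs i).le
  have hy1 : y + 1 ∈ V := (V.valuation_le_one_iff _).1 hy.le
  have hyV : y ∈ V := by
    have := sub_mem hy1 (one_mem V)
    rwa [add_sub_cancel_right] at this
  -- the family
  let z : Option (Fin n) → K := fun o => o.elim y s
  have hz : ∀ o, z o ∈ V := by
    rintro (_ | i)
    · exact hyV
    · exact hsV i
  let pt : Option (Fin n) → k := fun o => o.elim (-1) (fun _ => 0)
  let v : Option (Fin n) → k := fun o => o.elim 1 (fun _ => 0)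
  have hpt : ∀ o, IsLocalRing.residue V ⟨z o, hz o⟩ =
      IsLocalRing.residue V (cst V hV (pt o)) := by
    rintro (_ | i)
    · rw [← sub_eq_zero, ← map_sub, IsLocalRing.residue_eq_zero_iff, V.valuation_lt_one_iff]
      simpa [z, pt, cst] using hy
    · rw [← sub_eq_zero, ← map_sub, IsLocalRing.residue_eq_zero_iff, V.valuation_lt_one_iff]
      simpa [z, pt, cst] using hs i
  have hren : ∀ f : MvPolynomial (Fin n) k, MvPolynomial.eval pt (MvPolynomial.rename some f) =
      MvPolynomial.constantCoeff f := by
    intro f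
    rw [MvPolynomial.eval_rename]
    have : pt ∘ some = (0 : Fin n → k) := rfl
    rw [this, MvPolynomial.eval_zero]
  have haev : ∀ f : MvPolynomial (Fin n) k,
      MvPolynomial.aeval z (MvPolynomial.rename some f) = MvPolynomial.aeval s f := by
    intro f
    rw [MvPolynomial.aeval_rename]
    rfl
  have hN0 : ∀ j ∈ Ψ.support, MvPolynomial.constantCoeff (N j) = 0 := by
    intro j hj
    rw [← hren, ← mem_PP V hV z hz pt hpt]
    change LU.evV V hV z hz _ ∈ IsLocalRing.maximalIdeal V
    rw [V.valuation_lt_one_iff, LU.coe_evV, haev, ← hN j hj, map_mul]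
    refine mul_lt_one_of_nonneg_of_lt_one_left zero_le (hΨ1 j) ?_
    rw [← haev, ← LU.coe_evV V hV z hz]
    exact V.valuation_le_one _
  -- the relation
  let Q : MvPolynomial (Option (Fin n)) k :=
    MvPolynomial.rename some D * (1 + MvPolynomial.X none) +
      MvPolynomial.X none ^ 2 * ∑ j ∈ Ψ.support, MvPolynomial.rename some (N j) *
        MvPolynomial.X none ^ j
  have hQz : MvPolynomial.aeval s D * (1 + y) +
      y ^ 2 * ∑ j ∈ Ψ.support, MvPolynomial.aeval s (N j) * y ^ j = 0 := by
    have h2 : ∑ j ∈ Ψ.support, MvPolynomial.aeval s (N j) * y ^ j =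
        MvPolynomial.aeval s D * Ψ.eval y := by
      rw [Polynomial.eval_eq_sum, Polynomial.sum, Finset.mul_sum]
      refine Finset.sum_congr rfl fun j hj => ?_
      rw [← hN j hj]
      ring
    rw [h2, show MvPolynomial.aeval s D * (1 + y) + y ^ 2 * (MvPolynomial.aeval s D * Ψ.eval y) =
      MvPolynomial.aeval s D * (1 + y + y ^ 2 * Ψ.eval y) by ring, heq, mul_zero]
  have hQ0 : MvPolynomial.aeval z Q = 0 := by
    have h1 : MvPolynomial.aeval z Q = MvPolynomial.aeval s D * (1 + y) +
        y ^ 2 * ∑ j ∈ Ψ.support, MvPolynomial.aeval s (N j) * y ^ j := by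
      simp only [Q, map_add, map_mul, map_sum, map_pow, haev, MvPolynomial.aeval_X, map_one]
      rfl
    have h2 : ∑ j ∈ Ψ.support, MvPolynomial.aeval s (N j) * y ^ j =
        MvPolynomial.aeval s D * Ψ.eval y := by
      rw [Polynomial.eval_eq_sum, Polynomial.sum, Finset.mul_sum]
      refine Finset.sum_congr rfl fun j hj => ?_
      rw [← hN j hj]
      ring
    rw [h1, h2, show MvPolynomial.aeval s D * (1 + y) + y ^ 2 * (MvPolynomial.aeval s D * Ψ.eval y) =
      MvPolynomial.aeval s D * (1 + y + y ^ 2 * Ψ.eval y) by ring, heq, mul_zero]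
  have htan : ∀ f : MvPolynomial (Fin n) k, tan pt v (MvPolynomial.rename some f) =
      TrivSqZeroExt.inl (MvPolynomial.constantCoeff f) := by
    intro f
    have h : (tan pt v).comp (MvPolynomial.rename some : MvPolynomial (Fin n) k →ₐ[k]
        MvPolynomial (Option (Fin n)) k).toRingHom =
        (TrivSqZeroExt.inlHom k k).comp MvPolynomial.constantCoeff := by
      apply MvPolynomial.ringHom_ext
      · intro c
        simp [tan]
      · intro i
        simp [tan, pt, v]
    exact congrArg (fun g => g f) h
  have htanQ : (tan pt v Q).snd = MvPolynomial.constantCoeff D := by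
    have h1 : tan pt v Q = TrivSqZeroExt.inl (MvPolynomial.constantCoeff D) *
        TrivSqZeroExt.inr 1 := by
      have h2 : tan pt v (MvPolynomial.X none) =
          (TrivSqZeroExt.inl (-1) + TrivSqZeroExt.inr 1 : DualNumber k) := by
        simp [tan, pt, v]
      have h3 : (∑ j ∈ Ψ.support, (TrivSqZeroExt.inl (MvPolynomial.constantCoeff (N j)) :
          DualNumber k) * tan pt v (MvPolynomial.X none) ^ j) = 0 := by
        refine Finset.sum_eq_zero fun j hj => ?_
        rw [hN0 j hj, TrivSqZeroExt.inl_zero, zero_mul]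
      simp only [Q, map_add, map_mul, map_sum, map_pow, htan, map_one, h3, mul_zero, add_zero]
      rw [h2]
      congr 1
      ext <;> simp
    rw [h1]
    simp
  -- algebraic independence
  have hind : AlgebraicIndependent k s := by
    have h1 : Algebra.IsAlgebraic (Algebra.adjoin k (Set.range s)) K :=
      IntermediateField.isAlgebraic_adjoin_iff_top.1 halg
    exact (Algebra.IsAlgebraic.isTranscendenceBasis_of_lift_le_trdeg_of_finite k s
      (by simp [hn])).1
  let q : LU.SS V hV z hz := algebraMap _ _ Q
  have hevq : LU.evS V hV z hz q = 0 := by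
    change LU.evS V hV z hz (algebraMap _ _ Q) = 0
    rw [LU.evS_algebraMap]
    apply Subtype.ext
    rw [LU.coe_evV, hQ0]
    rfl
  have hqm : q ∈ maximalIdeal (LU.SS V hV z hz) := by
    rw [LU.mem_max_iff, hevq]
    exact Ideal.zero_mem _
  have htq : (tanS V hV z hz pt v hpt q).snd ≠ 0 := by
    change (tanS V hV z hz pt v hpt (algebraMap _ _ Q)).snd ≠ 0
    rw [tanS_algebraMap, htanQ]
    exact hD
  have hq0 : q ≠ 0 := by
    intro h
    rw [h, map_zero] at htq
    exact htq rfl
  have hregB0 : IsRegularLocalRing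
      (LU.SS V hV z hz ⧸ Ideal.span (Set.range (fun _ : Fin 1 => q))) := by
    refine LU.reg_quot 1 (LU.SS V hV z hz) k (fun _ => q)
      (fun _ => tanS V hV z hz pt v hpt) ?_ ?_ ?_ ?_
    · intro _ a ha
      exact fst_tanS V hV z hz pt v hpt a ((LU.mem_max_iff V hV z hz a).1 ha)
    · intro _
      exact hqm
    · intro i j hij
      exact absurd hij (by omega)
    · intro _
      exact htq
  rw [Set.range_const] at hregB0
  have hdomB : IsDomain (LU.SS V hV z hz ⧸ Ideal.span {q}) :=
    LU.isDomain (R := LU.SS V hV z hz ⧸ Ideal.span {q})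
  have hgen' : IntermediateField.adjoin k (Set.range z) = ⊤ := by
    rw [← hgen]
    congr 1
    ext x
    constructor
    · rintro ⟨_ | i, rfl⟩
      · exact Set.mem_insert _ _
      · exact Set.mem_insert_of_mem _ ⟨i, rfl⟩
    · rintro (rfl | ⟨i, rfl⟩)
      · exact ⟨none, rfl⟩
      · exact ⟨some i, rfl⟩
  have hker : ∀ a ∈ Ideal.span {q}, LU.evS V hV z hz a = 0 := by
    intro a ha
    have : Ideal.span {q} ≤ RingHom.ker (LU.evS V hV z hz) := by
      rw [Ideal.span_le, Set.singleton_subset_iff]
      exact hevq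
    exact this ha
  obtain ⟨hAV, hfg, hfr, ⟨e⟩⟩ := SUCrit.core V hV z hz (S := LU.SS V hV z hz)
    (B := LU.SS V hV z hz ⧸ Ideal.span {q}) (LU.evS V hV z hz) (LU.evS_algebraMap V hV z hz)
    (Ideal.Quotient.mk _) Ideal.Quotient.mk_surjective
    (Ideal.Quotient.lift _ (LU.evS V hV z hz) hker) (fun s => rfl) hgen' (σ := Fin n)
    (fun i => MvPolynomial.X (some i)) (by simpa [z] using hind) (r := 1) (fun _ => q)
    (fun _ => Ideal.Quotient.eq_zero_iff_mem.2 (Ideal.mem_span_singleton_self q)) (by
        intro E _ φ hφ _ o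
        rcases o with _ | i
        · refine algOver_of _ _ (Polynomial.C D * (1 + Polynomial.X) +
            Polynomial.X ^ 2 * ∑ j ∈ Ψ.support, Polynomial.C (N j) * Polynomial.X ^ j) ?_ ?_
          · intro h
            have h1 := congrArg (fun P => Polynomial.coeff P 0) h
            simp only [Polynomial.coeff_zero_eq_eval_zero] at h1
            simp at h1
            exact hD (by rw [h1, map_zero])
          · have h1 : φ (algebraMap _ _ Q) = 0 := hφ 0
            have h2 : ∀ f : MvPolynomial (Fin n) k,
                MvPolynomial.aeval (fun i => (MvPolynomial.X (some i) :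
                  MvPolynomial (Option (Fin n)) k)) f = MvPolynomial.rename some f := by
              intro f
              have : (MvPolynomial.aeval (fun i => (MvPolynomial.X (some i) :
                  MvPolynomial (Option (Fin n)) k))) = MvPolynomial.rename (R := k) some := by
                apply MvPolynomial.algHom_ext
                intro i
                simp
              rw [this]
            have h3 : ∀ f : MvPolynomial (Fin n) k,
                ((φ.comp (algebraMap (MvPolynomial (Option (Fin n)) k) (LU.SS V hV z hz))).comp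
                  (MvPolynomial.aeval fun i => (MvPolynomial.X (some i) :
                  MvPolynomial (Option (Fin n)) k)).toRingHom) f =
                  φ (algebraMap _ _ (MvPolynomial.rename some f)) := by
              intro f
              rw [← h2]
              rfl
            simp only [Q, map_add, map_mul, map_sum, map_pow, map_one] at h1
            simp only [Polynomial.eval₂_add, Polynomial.eval₂_mul, Polynomial.eval₂_C,
              Polynomial.eval₂_one, Polynomial.eval₂_X, Polynomial.eval₂_pow,
              Polynomial.eval₂_finsetSum, h3]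
            exact h1
        · refine algOver_of _ _ (Polynomial.X - Polynomial.C (MvPolynomial.X i)) ?_ ?_
          · exact Polynomial.X_sub_C_ne_zero _
          · simp)
  have hmax : (LU.PP V hV z hz).IsMaximal := by
    have h1 : LU.PP V hV z hz = RingHom.ker (MvPolynomial.eval pt) := by
      ext f
      rw [mem_PP V hV z hz pt hpt, RingHom.mem_ker]
    rw [h1]
    refine RingHom.ker_isMaximal_of_surjective _ fun c => ⟨MvPolynomial.C c, by simp⟩
  have hdimS : ringKrullDim (LU.SS V hV z hz) = ((n + 1 : ℕ) : WithBot ℕ∞) := by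
    rw [IsLocalization.AtPrime.ringKrullDim_eq_height (LU.PP V hV z hz) (LU.SS V hV z hz),
      SUCrit.height k (Option (Fin n)) _ hmax]
    simp
  have hdomS : IsDomain (LU.SS V hV z hz) := LU.isDomain (R := LU.SS V hV z hz)
  have hdimB : ringKrullDim (LU.SS V hV z hz ⧸ Ideal.span {q}) = (n : WithBot ℕ∞) := by
    have h1 := ringKrullDim_quotient_span_singleton_succ_eq_ringKrullDim_of_mem_nonZeroDivisors
      (mem_nonZeroDivisors_of_ne_zero hq0) hqm
    rw [hdimS] at h1
    revert h1
    generalize ringKrullDim (LU.SS V hV z hz ⧸ Ideal.span {q}) = D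
    intro h1
    induction D with
    | bot =>
      rw [WithBot.bot_add] at h1
      exact absurd h1.symm (WithBot.natCast_ne_bot _)
    | coe D =>
      induction D with
      | top => norm_cast at h1
      | coe D =>
        norm_cast at h1 ⊢
        omega
  have hreg : IsRegularLocalRing (Localization.AtPrime
      (LU.center V (Algebra.adjoin k (Set.range z)) hAV)) := IsRegularLocalRing.of_ringEquiv e
  refine ⟨Algebra.adjoin k (Set.range z), hAV,
    fun i => ⟨z (some i), Algebra.subset_adjoin ⟨some i, rfl⟩⟩,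
    ⟨z none, Algebra.subset_adjoin ⟨none, rfl⟩⟩, fun i => rfl, rfl, hfg, hfr, hreg, ?_, ?_⟩
  · rw [← hdimB]
    exact (ringKrullDim_eq_of_ringEquiv e).symm
  · refine SUCrit.span_eq V (Algebra.adjoin k (Set.range z)) hAV n
      (fun i => ⟨z (some i), Algebra.subset_adjoin ⟨some i, rfl⟩⟩)
      ⟨z none, Algebra.subset_adjoin ⟨none, rfl⟩⟩
      (fun o => ⟨z o, Algebra.subset_adjoin ⟨o, rfl⟩⟩) rfl (fun i => rfl) ?_ ?_ D N Ψ.support
      hD hN0 ?_
    · rintro ⟨a, ha⟩
      have ha' := ha
      rw [Algebra.adjoin_range_eq_range_aeval] at ha'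
      obtain ⟨f, hf⟩ := ha'
      refine ⟨f, Subtype.ext ?_⟩
      have h1 := DFunLike.congr_fun (MvPolynomial.comp_aeval
        (fun o => (⟨z o, Algebra.subset_adjoin ⟨o, rfl⟩⟩ : Algebra.adjoin k (Set.range z)))
        (Algebra.adjoin k (Set.range z)).val) f
      exact h1.trans hf
    · intro i
      change LU.toV V _ hAV _ ∈ maximalIdeal V
      rw [V.valuation_lt_one_iff]
      exact hs i
    · have h1 : ∀ g : MvPolynomial (Fin n) k,
          ((MvPolynomial.aeval (fun i => (⟨z (some i), Algebra.subset_adjoin ⟨some i, rfl⟩⟩ :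
            Algebra.adjoin k (Set.range z))) g : Algebra.adjoin k (Set.range z)) : K) =
            MvPolynomial.aeval s g := by
        intro g
        exact DFunLike.congr_fun (MvPolynomial.comp_aeval
          (fun i => (⟨z (some i), Algebra.subset_adjoin ⟨some i, rfl⟩⟩ :
            Algebra.adjoin k (Set.range z))) (Algebra.adjoin k (Set.range z)).val) g
      apply Subtype.ext
      push_cast
      simp only [h1]
      exact hQz
section enlarge

theorem SUCrit.mem_center (W : ValuationSubring K) (A : Subalgebra k K) (h : ∀ a ∈ A, a ∈ W)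
    (a : A) : a ∈ LU.center W A h ↔ W.valuation (a : K) < 1 := by
  change LU.toV W A h a ∈ maximalIdeal W ↔ _
  rw [W.valuation_lt_one_iff]
  rfl

/-- the local ring of the centre as a subring of `K` -/
def SUCrit.loc (W : ValuationSubring K) (A : Subalgebra k K) (h : ∀ a ∈ A, a ∈ W) :
    Subalgebra k K where
  carrier := {x | ∃ N D : A, D ∉ LU.center W A h ∧ x * (D : K) = (N : K)}
  mul_mem' := by
    rintro x y ⟨N, D, hD, hx⟩ ⟨N', D', hD', hy⟩
    refine ⟨N * N', D * D', ?_, ?_⟩
    · intro hc
      rcases (inferInstance : (LU.center W A h).IsPrime).mem_or_mem hc with hc | hc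
      · exact hD hc
      · exact hD' hc
    · push_cast
      rw [← hx, ← hy]
      ring
  add_mem' := by
    rintro x y ⟨N, D, hD, hx⟩ ⟨N', D', hD', hy⟩
    refine ⟨N * D' + N' * D, D * D', ?_, ?_⟩
    · intro hc
      rcases (inferInstance : (LU.center W A h).IsPrime).mem_or_mem hc with hc | hc
      · exact hD hc
      · exact hD' hc
    · push_cast
      rw [← hx, ← hy]
      ring
  algebraMap_mem' := by
    intro c
    refine ⟨algebraMap k A c, 1, (Ideal.ne_top_iff_one _).1 Ideal.IsPrime.ne_top', ?_⟩
    push_cast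
    rw [mul_one]

theorem SUCrit.le_loc (W : ValuationSubring K) (A : Subalgebra k K) (h : ∀ a ∈ A, a ∈ W) :
    A ≤ SUCrit.loc W A h := by
  intro a ha
  refine ⟨⟨a, ha⟩, 1, (Ideal.ne_top_iff_one _).1 Ideal.IsPrime.ne_top', ?_⟩
  simp

theorem SUCrit.val_eq_one (W : ValuationSubring K) (A : Subalgebra k K) (h : ∀ a ∈ A, a ∈ W)
    (D : A) (hD : D ∉ LU.center W A h) : W.valuation (D : K) = 1 := by
  rw [SUCrit.mem_center, not_lt] at hD
  exact le_antisymm ((W.valuation_le_one_iff _).2 (h D D.2)) hD

theorem SUCrit.loc_le (W : ValuationSubring K) (A : Subalgebra k K) (h : ∀ a ∈ A, a ∈ W) :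
    ∀ x ∈ SUCrit.loc W A h, x ∈ W := by
  rintro x ⟨N, D, hD, hx⟩
  have h1 := congrArg W.valuation hx
  rw [map_mul, SUCrit.val_eq_one W A h D hD, mul_one] at h1
  rw [← W.valuation_le_one_iff, h1]
  exact (W.valuation_le_one_iff _).2 (h N N.2)

theorem SUCrit.equiv (W : ValuationSubring K) (A : Subalgebra k K) (h : ∀ a ∈ A, a ∈ W) :
    ∃ e : Localization.AtPrime (LU.center W A h) ≃+* SUCrit.loc W A h,
      ∀ a : A, ((e (algebraMap A _ a) : SUCrit.loc W A h) : K) = a := by
  let f : A →+* SUCrit.loc W A h := (Subalgebra.inclusion (SUCrit.le_loc W A h)).toRingHom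
  let _ : Algebra A (SUCrit.loc W A h) := f.toAlgebra
  have hf : ∀ a : A, ((algebraMap A (SUCrit.loc W A h) a : SUCrit.loc W A h) : K) = a :=
    fun a => rfl
  have hloc : IsLocalization (LU.center W A h).primeCompl (SUCrit.loc W A h) := by
    refine ⟨⟨?_, ?_, ?_⟩⟩
    · rintro ⟨a, ha⟩
      have ha0 : (a : K) ≠ 0 := by
        intro h0
        apply ha
        have : a = 0 := Subtype.ext h0
        rw [this]
        exact Ideal.zero_mem _
      have hm : (a : K)⁻¹ ∈ SUCrit.loc W A h := by
        refine ⟨1, a, ha, ?_⟩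
        rw [inv_mul_cancel₀ ha0]
        rfl
      refine IsUnit.of_mul_eq_one ⟨_, hm⟩ ?_
      apply Subtype.ext
      change (a : K) * (a : K)⁻¹ = 1
      exact mul_inv_cancel₀ ha0
    · rintro ⟨x, N, D, hD, hx⟩
      refine ⟨(N, ⟨D, hD⟩), ?_⟩
      apply Subtype.ext
      exact hx
    · intro a b hab
      refine ⟨1, ?_⟩
      have h1 : (a : K) = b := congrArg (fun t : SUCrit.loc W A h => (t : K)) hab
      rw [Subtype.ext h1]
  refine ⟨(IsLocalization.algEquiv (LU.center W A h).primeCompl
    (Localization.AtPrime (LU.center W A h)) (SUCrit.loc W A h)).toRingEquiv, fun a => ?_⟩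
  have h1 := (IsLocalization.algEquiv (LU.center W A h).primeCompl
    (Localization.AtPrime (LU.center W A h)) (SUCrit.loc W A h)).commutes a
  exact congrArg Subtype.val h1

end enlarge

/-- Enlarging the chart by finitely many elements of the local ring of the centre. -/
theorem su_enlarge (W : ValuationSubring K) (A : Subalgebra k K) (h : ∀ a ∈ A, a ∈ W)
    (hfg : A.FG) (hfr : IsFractionRing A K) (n : ℕ) (s : Fin n → A)
    (hreg : IsRegularLocalRing (Localization.AtPrime (LU.center W A h)))
    (hdim : ringKrullDim (Localization.AtPrime (LU.center W A h)) = n)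
    (hspan : Ideal.span (Set.range fun i =>
        algebraMap A (Localization.AtPrime (LU.center W A h)) (s i)) =
          maximalIdeal (Localization.AtPrime (LU.center W A h)))
    (F : Finset K)
    (hF : ∀ x ∈ F, ∃ N D : A, D ∉ LU.center W A h ∧ x * (D : K) = (N : K)) :
    ∃ (A' : Subalgebra k K) (h' : ∀ a ∈ A', a ∈ W) (s' : Fin n → A'), A ≤ A' ∧
      (∀ i, (s' i : K) = (s i : K)) ∧ A'.FG ∧ IsFractionRing A' K ∧
      IsRegularLocalRing (Localization.AtPrime (LU.center W A' h')) ∧
      ringKrullDim (Localization.AtPrime (LU.center W A' h')) = n ∧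
      Ideal.span (Set.range fun i =>
        algebraMap A' (Localization.AtPrime (LU.center W A' h')) (s' i)) =
          maximalIdeal (Localization.AtPrime (LU.center W A' h')) ∧
      ∀ x ∈ F, x ∈ A' := by
  classical
  let A' : Subalgebra k K := A ⊔ Algebra.adjoin k (F : Set K)
  have hAA' : A ≤ A' := le_sup_left
  have hFA' : ∀ x ∈ F, x ∈ A' := fun x hx =>
    (le_sup_right : Algebra.adjoin k (F : Set K) ≤ A') (Algebra.subset_adjoin hx)
  have hA'l : A' ≤ SUCrit.loc W A h := by
    refine sup_le (SUCrit.le_loc W A h) (Algebra.adjoin_le ?_)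
    intro x hx
    exact hF x hx
  have h' : ∀ a ∈ A', a ∈ W := fun a ha => SUCrit.loc_le W A h a (hA'l ha)
  have hloc : SUCrit.loc W A' h' = SUCrit.loc W A h := by
    apply le_antisymm
    · rintro x ⟨N, D, hD, hx⟩
      obtain ⟨N1, D1, hD1, hx1⟩ := hA'l N.2
      obtain ⟨N2, D2, hD2, hx2⟩ := hA'l D.2
      have v1 := SUCrit.val_eq_one W A' h' D hD
      have v2 := SUCrit.val_eq_one W A h D2 hD2
      have hN2 : N2 ∉ LU.center W A h := by
        rw [SUCrit.mem_center, ← hx2, map_mul, v1, v2, mul_one]
        exact lt_irrefl _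
      refine ⟨N1 * D2, D1 * N2, ?_, ?_⟩
      · intro hc
        rcases (inferInstance : (LU.center W A h).IsPrime).mem_or_mem hc with hc | hc
        · exact hD1 hc
        · exact hN2 hc
      · push_cast
        rw [← hx1, ← hx2, ← hx]
        ring
    · rintro x ⟨N, D, hD, hx⟩
      refine ⟨⟨N, hAA' N.2⟩, ⟨D, hAA' D.2⟩, ?_, hx⟩
      rw [SUCrit.mem_center] at hD ⊢
      exact hD
  obtain ⟨e1, he1⟩ := SUCrit.equiv W A h
  obtain ⟨e2, he2⟩ := SUCrit.equiv W A' h'
  let e3 : SUCrit.loc W A h ≃+* SUCrit.loc W A' h' := (Subalgebra.equivOfEq _ _ hloc.symm).toRingEquiv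
  let e : Localization.AtPrime (LU.center W A h) ≃+* Localization.AtPrime (LU.center W A' h') :=
    (e1.trans e3).trans e2.symm
  have he : ∀ a : A, e (algebraMap A _ a) =
      algebraMap A' (Localization.AtPrime (LU.center W A' h')) ⟨a, hAA' a.2⟩ := by
    intro a
    apply e2.injective
    apply Subtype.ext
    rw [he2]
    change ((e2 (e2.symm (e3 (e1 (algebraMap A _ a)))) : SUCrit.loc W A' h') : K) = a
    rw [e2.apply_symm_apply]
    exact he1 a
  refine ⟨A', h', fun i => ⟨s i, hAA' (s i).2⟩, hAA', fun i => rfl, ?_, ?_, ?_, ?_, ?_, hFA'⟩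
  · exact hfg.sup ⟨F, rfl⟩
  · refine IsFractionRing.of_field _ _ ?_
    intro x
    obtain ⟨a, b, _, hab⟩ := IsFractionRing.div_surjective (A := A) x
    exact ⟨⟨a, hAA' a.2⟩, ⟨b, hAA' b.2⟩, hab.symm⟩
  · exact IsRegularLocalRing.of_ringEquiv e
  · rw [← hdim]
    exact (ringKrullDim_eq_of_ringEquiv e).symm
  · rw [← IsLocalRing.map_ringEquiv_maximalIdeal e, ← hspan, Ideal.map_span, ← Set.range_comp]
    congr 2
    funext i
    exact (he (s i)).symm

end LX
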