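import Mathlib

namespace LX

/-- Lucas: `C(p^e m', p^e)` is prime to `p` if `m'` is. -/
private theorem Binom_aux (p : ℕ) [Fact p.Prime] {m' : ℕ} (h : ¬ p ∣ m') (e : ℕ) :
    ¬ p ∣ (p ^ e * m').choose (p ^ e) := by
  have hp : p.Prime := Fact.out
  induction e with
  | zero => simpa using h
  | succ e ih =>
    have h1 := Choose.choose_modEq_choose_mod_mul_choose_div_nat
      (n := p ^ (e + 1) * m') (k := p ^ (e + 1)) (p := p)
    have h2 : p ^ (e + 1) * m' % p = 0 := by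
      rw [pow_succ', mul_assoc, Nat.mul_mod_right]
    have h3 : p ^ (e + 1) % p = 0 := by rw [pow_succ', Nat.mul_mod_right]
    have h4 : p ^ (e + 1) * m' / p = p ^ e * m' := by
      rw [pow_succ', mul_assoc, Nat.mul_div_cancel_left _ hp.pos]
    have h5 : p ^ (e + 1) / p = p ^ e := by
      rw [pow_succ', Nat.mul_div_cancel_left _ hp.pos]
    rw [h2, h3, h4, h5, Nat.choose_self, one_mul] at h1
    intro h6
    exact ih ((Nat.ModEq.dvd_iff h1 dvd_rfl).1 h6)

/-- Kummer: with `p^e` the exact power of `p` in `m`, the binomial `C(m, p^e)` is prime to `p`.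
Hint: `e = padicValNat p m`; either Kummer / `padicValNat_choose'`, or: modulo `p`,
`(1+X)^m = (1+X^(p^e))^(m')`, coefficient of `X^(p^e)` is `m'`. -/
theorem exists_q (p : ℕ) [Fact p.Prime] {m : ℕ} (hm : 0 < m) :
    ∃ e : ℕ, p ^ e ∣ m ∧ p ^ e ≤ m ∧ ¬ p ∣ m.choose (p ^ e) := by
  have hp : p.Prime := Fact.out
  obtain ⟨e, m', h1, rfl⟩ := Nat.exists_eq_pow_mul_and_not_dvd hm.ne' p hp.ne_one
  exact ⟨e, dvd_mul_right _ _, Nat.le_of_dvd hm (dvd_mul_right _ _), Binom_aux p h1 e⟩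

/-- If all middle binomials vanish modulo `p` then `m` is a power of `p`. -/
theorem pow_of_dvd (p : ℕ) [Fact p.Prime] {m : ℕ} (hm : 0 < m)
    (h : ∀ j, 0 < j → j < m → p ∣ m.choose j) : ∃ e : ℕ, m = p ^ e := by
  obtain ⟨e, h1, h2, h3⟩ := exists_q p hm
  refine ⟨e, ?_⟩
  by_contra hne
  exact h3 (h _ (pow_pos (Fact.out : p.Prime).pos e) (lt_of_le_of_ne h2 fun h => hne h.symm))

end LX
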