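import Pool.Agent.helper90.LX.GeLem

namespace LX

open Polynomial

variable {R : Type*} [CommRing R] {r : ℕ} {φ : (Fin r → ℤ) →+ ℝ}

theorem LevTay_natCast_mul (n : ℕ) (x : LA R r) (a : Fin r → ℤ) :
    ((n : LA R r) * x).coeff a = (n : R) * x.coeff a := by
  induction n with
  | zero => simp
  | succ n ih => push_cast; rw [add_mul, one_mul, add_mul, one_mul, ← ih]; rfl

theorem LevTay_sum {ι : Type*} (u : Finset ι) (q : ι → LA R r) (a : Fin r → ℤ) :
    (∑ i ∈ u, q i).coeff a = ∑ i ∈ u, (q i).coeff a := by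
  classical
  induction u using Finset.induction_on with
  | empty => simp
  | insert b u hb ih =>
    rw [Finset.sum_insert hb, Finset.sum_insert hb, ← ih]; rfl

theorem LevTay_cast {i j : ℕ} (h : i ≤ j) : (((j - i : ℕ) : ℕ) : ℝ) = (j : ℝ) - i := by
  push_cast [Nat.cast_sub h]; ring

/-- the level of a term of the Taylor shift -/
theorem LevTay_lt {g : (LA R r)[X]} {m : ℕ} {s : ℝ} (hs : 0 ≤ s) (hg : Lev φ g m s)
    {t : LA R r} (ht : GeL φ t s) (i j : ℕ) :
    GeL φ (((j.choose i : ℕ) : LA R r) * g.coeff j * t ^ (j - i)) (((m : ℝ) - i) * s) := by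
  rcases lt_or_ge j i with h | h
  · rw [Nat.choose_eq_zero_of_lt h]
    simpa using geL_zero (φ := φ) (((m : ℝ) - i) * s)
  · have hc := LevTay_cast h
    rcases lt_or_ge j m with h1 | h1
    · refine geL_mono (geL_term (hg.1 j h1) ht _ _) ?_
      rw [hc]
      apply le_of_eq
      ring
    · refine geL_mono (geL_term (hg.2 j) ht _ _) ?_
      rw [hc, zero_add]
      have h2 : (m : ℝ) ≤ j := by exact_mod_cast h1
      exact mul_le_mul_of_nonneg_right (by linarith) hs

/-- Translations of level at least `s` keep `Lev _ _ m s`. Hint: `taylor_coeff_eq`, `geL_term`. -/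
theorem lev_taylor {g : (LA R r)[X]} {m : ℕ} {s : ℝ} (hs : 0 ≤ s) (hg : Lev φ g m s)
    {t : LA R r} (ht : GeL φ t s) : Lev φ (taylor t g) m s := by
  refine ⟨fun i hi => ?_, fun i => ?_⟩
  · rw [taylor_coeff_eq g t i g.natDegree le_rfl]
    exact geL_sum _ _ fun j _ => LevTay_lt hs hg ht i j
  · rw [taylor_coeff_eq g t i g.natDegree le_rfl]
    refine geL_sum _ _ fun j _ => ?_
    refine geL_mono (geL_term (hg.2 j) ht _ _) ?_
    positivity

/-- the difference of the coefficients of the Taylor shift and of the polynomial -/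
theorem LevTay_diff {g : (LA R r)[X]} {t : LA R r} {i : ℕ} {L : ℝ}
    (h : ∀ j, i < j → GtL φ (((j.choose i : ℕ) : LA R r) * g.coeff j * t ^ (j - i)) L)
    {a : Fin r → ℤ} (ha : φ a ≤ L) :
    ((taylor t g).coeff i).coeff a = (g.coeff i).coeff a := by
  rw [taylor_coeff_eq g t i (max g.natDegree i) (le_max_left _ _), LevTay_sum]
  rw [Finset.sum_eq_single i]
  · simp
  · intro j _ hji
    rcases lt_or_gt_of_ne hji with h1 | h1
    · rw [Nat.choose_eq_zero_of_lt h1]
      simp
    · exact gtL_coeff_zero (h j h1) ha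
  · intro hi
    exfalso
    apply hi
    rw [Finset.mem_range]
    have := le_max_right g.natDegree i
    omega

theorem LevTay_gtL_term {g h : LA R r} {s t : ℝ} (hg : GeL φ g s) (hh : GtL φ h t) (n e : ℕ)
    (he : e ≠ 0) : GtL φ ((n : LA R r) * g * h ^ e) (s + e * t) := by
  have h1 := geL_mul (geL_natCast (φ := φ) (R := R) n) hg
  have h2 := gtL_mul (gtL_pow hh e he) h1
  rw [mul_comm, zero_add] at h2
  rwa [add_comm] at h2

/-- products on the line of smallest levels -/
theorem LevTay_mul (hφ : Function.Injective φ) {g h : LA R r} {s t : ℝ} (hg : GeL φ g s)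
    (hh : GeL φ h t) {b c : Fin r → ℤ} (hb : φ b = s) (hc : φ c = t) :
    (g * h).coeff (b + c) = g.coeff b * h.coeff c := by
  classical
  have key : ∀ {g : LA R r} {s : ℝ} {b : Fin r → ℤ}, GeL φ g s → φ b = s →
      GtL φ (g - AddMonoidAlgebra.single b (g.coeff b)) s := by
    intro g s b hg hb a ha
    by_cases hab : b = a
    · subst hab
      exfalso
      apply ha
      simp
    · have h1 : g.coeff a ≠ 0 := by
        intro h0
        apply ha
        simp [h0, hab]
      refine lt_of_le_of_ne (hg a h1) fun h2 => hab ?_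
      apply hφ
      rw [hb, h2]
  have h1 := key hg hb
  have h2 := key hh hc
  obtain ⟨g', hg'⟩ : ∃ g', g' = g - AddMonoidAlgebra.single b (g.coeff b) := ⟨_, rfl⟩
  obtain ⟨h', hh'⟩ : ∃ h', h' = h - AddMonoidAlgebra.single c (h.coeff c) := ⟨_, rfl⟩
  rw [← hg'] at h1
  rw [← hh'] at h2
  have e1 : g * h = AddMonoidAlgebra.single (b + c) (g.coeff b * h.coeff c) +
      (g' * h + h' * AddMonoidAlgebra.single b (g.coeff b)) := by
    rw [← AddMonoidAlgebra.single_mul_single, hg', hh']
    ring
  have h3 : GtL φ (g' * h + h' * AddMonoidAlgebra.single b (g.coeff b)) (s + t) := by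
    refine gtL_add (gtL_mul h1 hh) ?_
    have h4 := gtL_mul h2 (geL_single (φ := φ) b (g.coeff b))
    rw [hb, add_comm] at h4
    exact h4
  have h5 : (g' * h + h' * AddMonoidAlgebra.single b (g.coeff b)).coeff (b + c) = 0 :=
    gtL_coeff_zero h3 (by rw [map_add, hb, hc])
  have e2 : (g * h).coeff (b + c) =
      (AddMonoidAlgebra.single (b + c) (g.coeff b * h.coeff c) : LA R r).coeff (b + c) +
      (g' * h + h' * AddMonoidAlgebra.single b (g.coeff b)).coeff (b + c) := by
    conv_lhs => rw [e1]
    rfl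
  rw [e2, h5, add_zero]
  simp

theorem LevTay_pow (hφ : Function.Injective φ) {t : LA R r} {s : ℝ} (ht : GeL φ t s)
    {A : Fin r → ℤ} (hA : φ A = s) (e : ℕ) : (t ^ e).coeff (e • A) = t.coeff A ^ e := by
  induction e with
  | zero =>
    rw [pow_zero, pow_zero, zero_smul]
    show (AddMonoidAlgebra.single (0 : Fin r → ℤ) (1 : R)).coeff 0 = 1
    simp
  | succ e ih =>
    rw [pow_succ, pow_succ, succ_nsmul, LevTay_mul hφ (geL_pow ht e) ht ?_ hA, ih]
    rw [map_nsmul, hA, nsmul_eq_mul]

theorem face_coeff (g : (LA R r)[X]) (m : ℕ) (A : Fin r → ℤ) (i : ℕ) (hi : i ≤ m) :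
    (face g m A).coeff i = (g.coeff i).coeff ((m - i : ℕ) • A) := by
  unfold face
  rw [Polynomial.finsetSum_coeff, Finset.sum_eq_single i]
  · rw [Polynomial.coeff_monomial, if_pos rfl]
  · intro j _ hji
    rw [Polynomial.coeff_monomial, if_neg hji]
  · intro h
    exfalso
    apply h
    rw [Finset.mem_range]
    omega

theorem face_natDegree (g : (LA R r)[X]) (m : ℕ) (A : Fin r → ℤ) :
    (face g m A).natDegree ≤ m := by
  unfold face
  refine Polynomial.natDegree_sum_le_of_forall_le _ _ fun j hj => ?_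
  refine (Polynomial.natDegree_monomial_le _).trans ?_
  have := Finset.mem_range.1 hj
  omega

/-- The face transforms by the translation `lam = t(A)`, `φ A = s > 0`. -/
theorem face_taylor (hφ : Function.Injective φ) {g : (LA R r)[X]} {m : ℕ} {s : ℝ} (hs : 0 < s)
    (hg : Lev φ g m s) {t : LA R r} (ht : GeL φ t s) (A : Fin r → ℤ) (hA : φ A = s) :
    face (taylor t g) m A = taylor (t.coeff A) (face g m A) := by
  ext i
  rcases lt_or_ge m i with hi | hi
  · rw [Polynomial.coeff_eq_zero_of_natDegree_lt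
      (lt_of_le_of_lt (face_natDegree _ _ _) hi), Polynomial.coeff_eq_zero_of_natDegree_lt]
    rw [Polynomial.natDegree_taylor]
    exact lt_of_le_of_lt (face_natDegree _ _ _) hi
  · rw [face_coeff _ _ _ _ hi, taylor_coeff_eq g t i (max g.natDegree m) (le_max_left _ _),
      LevTay_sum, taylor_coeff_eq (face g m A) (t.coeff A) i (max g.natDegree m)
        ((face_natDegree _ _ _).trans (le_max_right _ _))]
    refine Finset.sum_congr rfl fun j _ => ?_
    rw [mul_assoc, LevTay_natCast_mul, mul_assoc]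
    rcases lt_or_ge j i with hji | hji
    · rw [Nat.choose_eq_zero_of_lt hji]
      simp
    congr 1
    rcases lt_or_ge m j with hj | hj
    · rw [Polynomial.coeff_eq_zero_of_natDegree_lt
        (lt_of_le_of_lt (face_natDegree g m A) hj), zero_mul]
      refine geL_coeff_zero (geL_mul (hg.2 j) (geL_pow ht (j - i))) ?_
      rw [map_nsmul, hA, nsmul_eq_mul, zero_add, LevTay_cast hi, LevTay_cast hji]
      have h1 : (m : ℝ) < j := by exact_mod_cast hj
      exact mul_lt_mul_of_pos_right (by linarith) hs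
    · rw [face_coeff _ _ _ _ hj]
      have e1 : (m - i : ℕ) • A = (m - j : ℕ) • A + (j - i : ℕ) • A := by
        rw [← add_nsmul]
        congr 1
        omega
      have hlev : GeL φ (g.coeff j) (φ ((m - j : ℕ) • A)) := by
        rw [map_nsmul, hA, nsmul_eq_mul, LevTay_cast hj]
        rcases lt_or_eq_of_le hj with h1 | h1
        · exact hg.1 j h1
        · subst h1
          rw [sub_self, zero_mul]
          exact hg.2 j
      rw [e1, LevTay_mul hφ hlev (geL_pow ht (j - i)) rfl (by
        rw [map_nsmul, hA, nsmul_eq_mul]), LevTay_pow hφ ht hA]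

/-- Translations of level larger than `s` do not change the coefficients on the line. -/
theorem coeff_taylor_out {g : (LA R r)[X]} {m : ℕ} {s : ℝ} (hs : 0 < s) (hg : Lev φ g m s)
    {t : LA R r} (ht : GtL φ t s) (i : ℕ) (hi : i < m) (a : Fin r → ℤ)
    (ha : φ a = ((m : ℝ) - i) * s) :
    ((taylor t g).coeff i).coeff a = (g.coeff i).coeff a := by
  refine LevTay_diff (L := ((m : ℝ) - i) * s) (fun j hij => ?_) ha.le
  have hc := LevTay_cast hij.le
  have he : j - i ≠ 0 := by omega
  rcases lt_or_ge j m with h1 | h1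
  · refine gtL_mono (LevTay_gtL_term (hg.1 j h1) ht _ _ he) ?_
    rw [hc]
    apply le_of_eq
    ring
  · refine gtL_mono (LevTay_gtL_term (hg.2 j) ht _ _ he) ?_
    rw [hc, zero_add]
    have h2 : (m : ℝ) ≤ j := by exact_mod_cast h1
    exact mul_le_mul_of_nonneg_right (by linarith) hs.le

/-- The coefficient at level `0` of all `i ≤ m` does not change under translations of positive
level. -/
theorem coeff_taylor_zero {g : (LA R r)[X]} (hg : ∀ i, GeL φ (g.coeff i) 0) {t : LA R r}
    (ht : GtL φ t 0) (i : ℕ) : ((taylor t g).coeff i).coeff 0 = (g.coeff i).coeff 0 := by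
  refine LevTay_diff (φ := φ) (L := 0) (fun j hij => ?_) (by rw [map_zero])
  have he : j - i ≠ 0 := by omega
  have h1 := LevTay_gtL_term (hg j) ht (j.choose i) (j - i) he
  rwa [mul_zero, add_zero] at h1

end LX
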