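import Pool.Agent.helper90.LX.Ops

namespace LX

open Polynomial

variable {k : Type*} [Field k] {r : ℕ}

/-- induction on polynomials over Laurent polynomials over `k[X]` -/
theorem SwLem_ind {P : (LA k[X] r)[X] → Prop} (h0 : P 0)
    (hadd : ∀ f g, P f → P g → P (f + g))
    (hmon : ∀ (i : ℕ) (a : Fin r → ℤ) (b : ℕ) (c : k),
      P (Polynomial.monomial i (AddMonoidAlgebra.single a (Polynomial.monomial b c)))) :
    ∀ f, P f := by
  intro f
  induction f using Polynomial.induction_on' with
  | add f g hf hg => exact hadd f g hf hg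
  | monomial i h =>
    induction h using AddMonoidAlgebra.induction_linear with
    | zero => rw [map_zero]; exact h0
    | add g h hg hh => rw [map_add]; exact hadd _ _ hg hh
    | single a q =>
      induction q using Polynomial.induction_on' with
      | add q1 q2 h1 h2 =>
        rw [AddMonoidAlgebra.single_add, map_add]
        exact hadd _ _ h1 h2
      | monomial b c => exact hmon i a b c

theorem SwLem_algebraMap (c : k) :
    algebraMap k ((LA k[X] r)[X]) c
      = Polynomial.C (AddMonoidAlgebra.single 0 (Polynomial.C c)) := by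
  rfl

theorem SwLem_evPZ_monomial {S : Type*} [CommRing S] [Algebra k S]
    (U : Multiplicative (Fin r → ℤ) →* S) (x y : S) (i b : ℕ) (a : Fin r → ℤ) (c : k) :
    evPZ U x y (Polynomial.monomial i (AddMonoidAlgebra.single a (Polynomial.monomial b c)))
      = algebraMap k S c * x ^ b * U (Multiplicative.ofAdd a) * y ^ i := by
  rw [evPZ, ev2, Polynomial.coe_eval₂RingHom, Polynomial.eval₂_monomial, ev_single]
  simp only [RingHom.coe_coe, Polynomial.aeval_monomial]

theorem sw_monomial (i b : ℕ) (a : Fin r → ℤ) (c : k) :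
    sw (Polynomial.monomial i (AddMonoidAlgebra.single a (Polynomial.monomial b c))) =
      (Polynomial.monomial b (AddMonoidAlgebra.single a (Polynomial.monomial i c)) :
        (LA k[X] r)[X]) := by
  rw [sw, ev2, Polynomial.coe_eval₂RingHom, Polynomial.eval₂_monomial, ev_single]
  simp only [RingHom.coe_coe, Polynomial.aeval_monomial, SwLem_algebraMap]
  have h1 : ((Polynomial.C : LA k[X] r →+* (LA k[X] r)[X]).toMonoidHom.comp
      (AddMonoidAlgebra.of k[X] (Fin r → ℤ))) (Multiplicative.ofAdd a)
      = Polynomial.C (AddMonoidAlgebra.single a 1) := rfl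
  rw [h1, ← Polynomial.C_pow, AddMonoidAlgebra.single_pow, nsmul_zero]
  rw [mul_assoc, mul_assoc, mul_comm (Polynomial.X ^ b), mul_assoc, ← mul_assoc,
    ← mul_assoc, ← Polynomial.C_mul, ← Polynomial.C_mul, Polynomial.C_mul_X_pow_eq_monomial,
    AddMonoidAlgebra.single_mul_single, AddMonoidAlgebra.single_mul_single, zero_add, add_zero,
    mul_one, Polynomial.C_mul_X_pow_eq_monomial]

theorem sw_coeff (f : (LA k[X] r)[X]) (i b : ℕ) (a : Fin r → ℤ) :
    (((sw f).coeff i).coeff a).coeff b = ((f.coeff b).coeff a).coeff i := by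
  induction f using SwLem_ind with
  | h0 => simp
  | hadd f g hf hg => simp only [map_add, Polynomial.coeff_add, AddMonoidAlgebra.coeff_add,
      Finsupp.add_apply, hf, hg]
  | hmon j a' b' c =>
    rw [sw_monomial]
    rw [Polynomial.coeff_monomial, Polynomial.coeff_monomial]
    by_cases h1 : b' = i <;> by_cases h2 : j = b <;> by_cases h3 : a' = a <;>
      simp [h1, h2, h3, Polynomial.coeff_monomial]

theorem evPZ_sw {S : Type*} [CommRing S] [Algebra k S] (U : Multiplicative (Fin r → ℤ) →* S)
    (x y : S) (f : (LA k[X] r)[X]) : evPZ U x y (sw f) = evPZ U y x f := by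
  induction f using SwLem_ind with
  | h0 => simp
  | hadd f g hf hg => rw [map_add, map_add, map_add, hf, hg]
  | hmon j a' b' c =>
    rw [sw_monomial, SwLem_evPZ_monomial, SwLem_evPZ_monomial]
    ring

theorem scl_coeff (A C : Fin r → ℤ) (f : (LA k[X] r)[X]) (i : ℕ) (a : Fin r → ℤ) :
    ((scl A C f).coeff i).coeff a = (f.coeff i).coeff (a + C - i • A) := by
  rw [scl, Polynomial.coeff_C_mul, Polynomial.comp_C_mul_X_coeff, AddMonoidAlgebra.single_pow,
    one_pow, AddMonoidAlgebra.coeff_single_mul_apply, one_mul,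
    AddMonoidAlgebra.coeff_mul_single_apply, mul_one]
  congr 1
  abel

theorem evPZ_scl {S : Type*} [CommRing S] [Algebra k S] (U : Multiplicative (Fin r → ℤ) →* S)
    (x y : S) (A C : Fin r → ℤ) (f : (LA k[X] r)[X]) :
    evPZ U x y (scl A C f) = U (Multiplicative.ofAdd (-C)) *
      evPZ U x (U (Multiplicative.ofAdd A) * y) f := by
  rw [scl, map_mul, evPZ, ev2]
  simp only [Polynomial.coe_eval₂RingHom, Polynomial.eval₂_C, Polynomial.eval₂_comp,
    Polynomial.eval₂_mul, Polynomial.eval₂_X, ev_single, map_one, one_mul]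
  rfl

theorem evPZ_taylor {S : Type*} [CommRing S] [Algebra k S] (U : Multiplicative (Fin r → ℤ) →* S)
    (x y : S) (t : LA k[X] r) (f : (LA k[X] r)[X]) :
    evPZ U x y (taylor t f) = evPZ U x (y + evP U x t) f := by
  rw [evPZ, ev2, Polynomial.taylor_apply]
  simp only [Polynomial.coe_eval₂RingHom, Polynomial.eval₂_C, Polynomial.eval₂_comp,
    Polynomial.eval₂_add, Polynomial.eval₂_X]
  rfl

end LX
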