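import Pool.Agent.helper90.LX.Ops

namespace LX

open Polynomial

variable {k : Type*} [Field k] {r : ℕ} {φ : (Fin r → ℤ) →+ ℝ}

theorem VtrLem_cst_single (a : Fin r → ℤ) (c : k) :
    cst (AddMonoidAlgebra.single a c : LA k r) = AddMonoidAlgebra.single a (Polynomial.C c) := by
  simp [cst]

theorem VtrLem_cst_coeff (s : LA k r) (a : Fin r → ℤ) :
    (cst s).coeff a = Polynomial.C (s.coeff a) := by
  simp [cst]

theorem VtrLem_algebraMap (c : k) :
    algebraMap k (LA k[X] r) c = AddMonoidAlgebra.single 0 (Polynomial.C c) := by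
  rfl

theorem VtrLem_vtr_single (s : LA k r) (a : Fin r → ℤ) (p : k[X]) :
    vtr s (AddMonoidAlgebra.single a p) =
      Polynomial.aeval (AddMonoidAlgebra.single 0 Polynomial.X + cst s : LA k[X] r) p *
        AddMonoidAlgebra.single a 1 := by
  simp [vtr]

theorem VtrLem_hom_aeval {S : Type*} [CommRing S] [Algebra k S] (F : LA k[X] r →+* S)
    (hF : ∀ c : k, F (AddMonoidAlgebra.single 0 (Polynomial.C c)) = algebraMap k S c)
    (Y : LA k[X] r) (p : k[X]) : F (Polynomial.aeval Y p) = Polynomial.aeval (F Y) p := by
  rw [Polynomial.aeval_def, Polynomial.hom_eval₂, Polynomial.aeval_def]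
  congr 1
  ext c
  exact hF c

theorem evP_cst {S : Type*} [CommRing S] [Algebra k S] (U : Multiplicative (Fin r → ℤ) →* S)
    (x : S) (s : LA k r) : evP U x (cst s) = ev (algebraMap k S) U s := by
  have h : (evP U x).comp cst = ev (algebraMap k S) U := by
    apply AddMonoidAlgebra.ringHom_ext
    · intro c
      simp [VtrLem_cst_single, evP]
    · intro a
      simp [VtrLem_cst_single, evP]
  exact congrArg (fun f : LA k r →+* S => f s) h

theorem evP_vtr {S : Type*} [CommRing S] [Algebra k S] (U : Multiplicative (Fin r → ℤ) →* S)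
    (x : S) (s : LA k r) (h : LA k[X] r) :
    evP U x (vtr s h) = evP U (x + ev (algebraMap k S) U s) h := by
  have key : (evP U x).comp (vtr s) = evP U (x + ev (algebraMap k S) U s) := by
    have hY : evP U x (AddMonoidAlgebra.single 0 Polynomial.X + cst s : LA k[X] r) =
        x + ev (algebraMap k S) U s := by
      rw [map_add, evP_cst]
      simp [evP]
    apply AddMonoidAlgebra.ringHom_ext
    · intro p
      rw [RingHom.comp_apply, VtrLem_vtr_single, map_mul,
        VtrLem_hom_aeval _ (fun c => by simp [evP]), hY]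
      simp [evP]
    · intro a
      rw [RingHom.comp_apply, VtrLem_vtr_single]
      simp [evP]
  exact congrArg (fun f : LA k[X] r →+* S => f h) key

theorem VtrLem_vtr_C (s : LA k r) (a : Fin r → ℤ) (c : k) :
    vtr s (AddMonoidAlgebra.single a (Polynomial.C c)) =
      AddMonoidAlgebra.single a (Polynomial.C c) := by
  rw [VtrLem_vtr_single, Polynomial.aeval_C, VtrLem_algebraMap,
    AddMonoidAlgebra.single_mul_single, zero_add, mul_one]

theorem VtrLem_vtr_cst (s s' : LA k r) : vtr s (cst s') = cst s' := by
  have key : (vtr s).comp cst = cst := by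
    apply AddMonoidAlgebra.ringHom_ext
    · intro c
      rw [RingHom.comp_apply, VtrLem_cst_single, VtrLem_vtr_C]
    · intro a
      rw [RingHom.comp_apply, VtrLem_cst_single, VtrLem_vtr_C]
  exact congrArg (fun f : LA k r →+* LA k[X] r => f s') key

theorem VtrLem_vtr_X (s : LA k r) :
    vtr s (AddMonoidAlgebra.single 0 Polynomial.X) =
      AddMonoidAlgebra.single 0 Polynomial.X + cst s := by
  rw [VtrLem_vtr_single, Polynomial.aeval_X, ← AddMonoidAlgebra.one_def, mul_one]

theorem vtr_vtr (s s' : LA k r) (h : LA k[X] r) : vtr s (vtr s' h) = vtr (s + s') h := by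
  have key : (vtr s).comp (vtr s') = vtr (s + s') := by
    have hY : vtr s (AddMonoidAlgebra.single 0 Polynomial.X + cst s' : LA k[X] r) =
        AddMonoidAlgebra.single 0 Polynomial.X + cst (s + s') := by
      rw [map_add, VtrLem_vtr_cst, VtrLem_vtr_X, map_add, add_assoc]
    apply AddMonoidAlgebra.ringHom_ext
    · intro p
      rw [RingHom.comp_apply, VtrLem_vtr_single, map_mul,
        VtrLem_hom_aeval _ (fun c => by rw [VtrLem_vtr_C]; rfl), hY, VtrLem_vtr_single,
        ← AddMonoidAlgebra.one_def, map_one, mul_one, VtrLem_vtr_single,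
        ← AddMonoidAlgebra.one_def, mul_one]
    · intro a
      rw [RingHom.comp_apply, VtrLem_vtr_single, VtrLem_vtr_single, map_one, map_one, one_mul,
        VtrLem_vtr_single, map_one, one_mul]
  exact congrArg (fun f : LA k[X] r →+* LA k[X] r => f h) key

theorem VtrLem_aeval_X (p : k[X]) :
    Polynomial.aeval (AddMonoidAlgebra.single 0 Polynomial.X : LA k[X] r) p =
      AddMonoidAlgebra.single 0 p := by
  induction p using Polynomial.induction_on with
  | C c => rw [Polynomial.aeval_C]; rfl
  | add p q hp hq => rw [map_add, hp, hq, AddMonoidAlgebra.single_add]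
  | monomial n c ih =>
    rw [pow_succ, ← mul_assoc, map_mul, ih, Polynomial.aeval_X,
      AddMonoidAlgebra.single_mul_single, zero_add]

theorem vtr_zero (h : LA k[X] r) : vtr 0 h = h := by
  have key : vtr (0 : LA k r) = RingHom.id (LA k[X] r) := by
    apply AddMonoidAlgebra.ringHom_ext
    · intro p
      rw [VtrLem_vtr_single, map_zero, add_zero, VtrLem_aeval_X, RingHom.id_apply,
        AddMonoidAlgebra.single_mul_single, zero_add, mul_one]
    · intro a
      rw [VtrLem_vtr_single, map_one, one_mul, RingHom.id_apply]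
  exact congrArg (fun f : LA k[X] r →+* LA k[X] r => f h) key

/-- on constants `X ↦ X + s` changes only the terms of positive level -/
theorem VtrLem_aeval_sub (s : LA k r) (hs : GtL φ s 0) (p : k[X]) :
    GtL φ (Polynomial.aeval (AddMonoidAlgebra.single 0 Polynomial.X + cst s : LA k[X] r) p -
      AddMonoidAlgebra.single 0 p) 0 := by
  have hc : GtL φ (cst s : LA k[X] r) 0 := by
    intro a ha
    apply hs a
    intro h0
    apply ha
    rw [VtrLem_cst_coeff, h0, map_zero]
  induction p using Polynomial.induction_on with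
  | C c =>
    rw [Polynomial.aeval_C, VtrLem_algebraMap, sub_self]
    exact gtL_zero 0
  | add p q hp hq =>
    rw [map_add, AddMonoidAlgebra.single_add, add_sub_add_comm]
    exact gtL_add hp hq
  | monomial n c ih =>
    rw [pow_succ, ← mul_assoc, map_mul, Polynomial.aeval_X]
    have h1 : (AddMonoidAlgebra.single 0 (Polynomial.C c * Polynomial.X ^ n * Polynomial.X) :
        LA k[X] r) = AddMonoidAlgebra.single 0 (Polynomial.C c * Polynomial.X ^ n) *
          AddMonoidAlgebra.single 0 Polynomial.X := by
      rw [AddMonoidAlgebra.single_mul_single, zero_add]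
    rw [h1]
    set P := Polynomial.aeval (AddMonoidAlgebra.single 0 Polynomial.X + cst s : LA k[X] r)
      (Polynomial.C c * Polynomial.X ^ n) with hP
    set Q : LA k[X] r := AddMonoidAlgebra.single 0 (Polynomial.C c * Polynomial.X ^ n) with hQ
    set Z : LA k[X] r := AddMonoidAlgebra.single 0 Polynomial.X with hZ
    rw [show P * (Z + cst s) - Q * Z = (P - Q) * (Z + cst s) + cst s * Q by ring]
    apply gtL_add
    · have := gtL_mul ih (geL_add (geL_const (φ := φ) Polynomial.X) (geL_of_gtL hc))
      rwa [zero_add] at this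
    · have := gtL_mul hc (geL_const (φ := φ) (Polynomial.C c * Polynomial.X ^ n))
      rwa [zero_add] at this

/-- `X ↦ X + s` with `s` of positive level does not lower levels and does not change the lowest
coefficients: if `h ≥ w` then `h(X+s) ≥ w`, and the coefficient at an exponent `a` with `φ a = w` is
unchanged. -/
theorem vtr_geL (s : LA k r) (hs : GtL φ s 0) (h : LA k[X] r) (w : ℝ) (hh : GeL φ h w) :
    GeL φ (vtr s h) w ∧ ∀ a, φ a = w → (vtr s h).coeff a = h.coeff a := by
  have hd : GtL φ (vtr s h - h) w := by
    have h1 : h = ∑ a ∈ h.coeff.support, AddMonoidAlgebra.single a (h.coeff a) :=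
      (AddMonoidAlgebra.sum_coeff_single h).symm
    have h2 : vtr s h - h = ∑ a ∈ h.coeff.support,
        (Polynomial.aeval (AddMonoidAlgebra.single 0 Polynomial.X + cst s : LA k[X] r)
          (h.coeff a) - AddMonoidAlgebra.single 0 (h.coeff a)) *
          AddMonoidAlgebra.single a 1 := by
      conv_lhs => rw [h1, map_sum, ← Finset.sum_sub_distrib]
      refine Finset.sum_congr rfl fun a _ => ?_
      rw [VtrLem_vtr_single, sub_mul, AddMonoidAlgebra.single_mul_single, zero_add, mul_one]
    rw [h2]
    refine gtL_sum _ _ fun a ha => ?_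
    have h3 := gtL_mul (VtrLem_aeval_sub s hs (h.coeff a)) (geL_single (φ := φ) (R := k[X]) a 1)
    rw [zero_add] at h3
    exact gtL_mono h3 (hh a (Finsupp.mem_support_iff.1 ha))
  have he : vtr s h = h + (vtr s h - h) := by ring
  constructor
  · rw [he]
    exact geL_add hh (geL_of_gtL hd)
  · intro a ha
    have h0 := gtL_coeff_zero hd ha.le
    rw [he, AddMonoidAlgebra.coeff_add, Finsupp.add_apply, h0, add_zero]

end LX
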