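import Pool.Agent.helper90.LX.EvDefs
import Pool.Agent.helper90.LX.SwLem
import Pool.Agent.helper90.LX.VtrLem

namespace LX

open Polynomial

variable {k K : Type*} [Field k] [Field K] [Algebra k K] {V : RV k K} {r : ℕ}

/-! ### auxiliary lemmas -/

/-- evaluations of Laurent polynomials have first component in the field generated by the
monomials and the first component of `x` -/
theorem PreOps.evP_mem (U : Multiplicative (Fin r → ℤ) →* DualNumber K) (x : DualNumber K)
    (L : IntermediateField k K) (hU : ∀ a, (U (Multiplicative.ofAdd a)).fst ∈ L)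
    (hx : x.fst ∈ L) (h : LA k[X] r) : (evP U x h).fst ∈ L := by
  induction h using AddMonoidAlgebra.induction_linear with
  | zero => rw [map_zero]; exact L.zero_mem
  | add f g hf hg => rw [map_add, TrivSqZeroExt.fst_add]; exact L.add_mem hf hg
  | single a p =>
    have h1 : (Polynomial.aeval x p).fst = Polynomial.aeval x.fst p := by
      have := Polynomial.aeval_algHom_apply (TrivSqZeroExt.fstHom k K K) x p
      exact this.symm
    rw [evP, ev_single, TrivSqZeroExt.fst_mul]
    refine L.mul_mem ?_ (hU a)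
    change (Polynomial.aeval x p).fst ∈ L
    rw [h1]
    have h2 : Polynomial.aeval ((⟨x.fst, hx⟩ : L) : K) p =
        ((Polynomial.aeval (⟨x.fst, hx⟩ : L) p : L) : K) := IntermediateField.aeval_coe L _ p
    have h3 := (Polynomial.aeval (⟨x.fst, hx⟩ : L) p).2
    rw [← h2] at h3
    exact h3

theorem PreOps.ev_mem (U : Multiplicative (Fin r → ℤ) →* DualNumber K)
    (L : IntermediateField k K) (hU : ∀ a, (U (Multiplicative.ofAdd a)).fst ∈ L)
    (s : LA k r) : (ev (algebraMap k (DualNumber K)) U s).fst ∈ L := by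
  induction s using AddMonoidAlgebra.induction_linear with
  | zero => rw [map_zero]; exact L.zero_mem
  | add f g hf hg => rw [map_add, TrivSqZeroExt.fst_add]; exact L.add_mem hf hg
  | single a p =>
    rw [ev_single, TrivSqZeroExt.fst_mul]
    refine L.mul_mem ?_ (hU a)
    exact L.algebraMap_mem p

/-- if the old generators lie in the new field, the new field is everything -/
theorem PreOps.gen_of (S : Pre V r) (L : IntermediateField k K)
    (hU : ∀ a, (S.U (Multiplicative.ofAdd a)).fst ∈ L) (hx : S.x.fst ∈ L) (hy : S.y.fst ∈ L) :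
    L = ⊤ := by
  rw [eq_top_iff, ← S.gen, IntermediateField.adjoin_le_iff]
  rintro z (⟨a, rfl⟩ | hz)
  · exact hU a
  · rcases hz with rfl | hz
    · exact hx
    · rw [Set.mem_singleton_iff.1 hz]; exact hy

theorem PreOps.mem_gen (S : Pre V r) (x y : K) (a : Fin r → ℤ) :
    (S.U (Multiplicative.ofAdd a)).fst ∈ IntermediateField.adjoin k
      (Set.range (fun a => (S.U (Multiplicative.ofAdd a)).fst) ∪ {x, y}) :=
  IntermediateField.subset_adjoin _ _ (Or.inl ⟨a, rfl⟩)

theorem PreOps.mem_x (S : Pre V r) (x y : K) :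
    x ∈ IntermediateField.adjoin k
      (Set.range (fun a => (S.U (Multiplicative.ofAdd a)).fst) ∪ {x, y}) :=
  IntermediateField.subset_adjoin _ _ (Or.inr (Or.inl rfl))

theorem PreOps.mem_y (S : Pre V r) (x y : K) :
    y ∈ IntermediateField.adjoin k
      (Set.range (fun a => (S.U (Multiplicative.ofAdd a)).fst) ∪ {x, y}) :=
  IntermediateField.subset_adjoin _ _ (Or.inr (Or.inr rfl))

theorem PreOps.tr_ev (S : Pre V r) (t : LA k[X] r) :
    evPZ S.U S.x (S.y - evP S.U S.x t) (taylor t S.f) = evPZ S.U S.x S.y S.f := by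
  rw [evPZ_taylor, sub_add_cancel]

theorem PreOps.scale_ev (S : Pre V r) (A C : Fin r → ℤ) :
    evPZ S.U S.x (S.U (Multiplicative.ofAdd (-A)) * S.y) (scl A C S.f) =
      S.U (Multiplicative.ofAdd (-C)) * evPZ S.U S.x S.y S.f := by
  rw [evPZ_scl, ← mul_assoc (S.U (Multiplicative.ofAdd A)), ← map_mul, ← ofAdd_add,
    add_neg_cancel, ofAdd_zero, map_one, one_mul]

theorem PreOps.vt_ev (S : Pre V r) (s : LA k r) :
    evPZ S.U (S.x - ev (algebraMap k (DualNumber K)) S.U s) S.y (Polynomial.map (vtr s) S.f) =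
      evPZ S.U S.x S.y S.f := by
  have h1 : ∀ h : LA k[X] r,
      evP S.U (S.x - ev (algebraMap k (DualNumber K)) S.U s) (vtr s h) = evP S.U S.x h := by
    intro h
    rw [evP_vtr, sub_add_cancel]
  unfold evPZ ev2
  rw [Polynomial.coe_eval₂RingHom, Polynomial.coe_eval₂RingHom, Polynomial.eval₂_map]
  congr 1
  exact RingHom.ext h1

/-! ### the operations -/

/-- translation `Z ↦ Z + t`, `z ↦ z - t(u,v)` -/
noncomputable def Pre.tr (S : Pre V r) (t : LA k[X] r) (ht : V.Gt (evP S.U S.x t).fst 0) :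
    Pre V r where
  φ := S.φ
  U := S.U
  x := S.x
  y := S.y - evP S.U S.x t
  f := taylor t S.f
  inj := S.inj
  U_ne := S.U_ne
  U_val := S.U_val
  x_pos := S.x_pos
  y_pos := by
    rw [TrivSqZeroExt.fst_sub]
    exact gt_sub S.y_pos ht
  gen := by
    refine PreOps.gen_of S _ (PreOps.mem_gen S _ _) (PreOps.mem_x S _ _) ?_
    have h1 := PreOps.mem_y S S.x.fst (S.y - evP S.U S.x t).fst
    have h2 := PreOps.evP_mem S.U S.x (IntermediateField.adjoin k
      (Set.range (fun a => (S.U (Multiplicative.ofAdd a)).fst) ∪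
        {S.x.fst, (S.y - evP S.U S.x t).fst}))
      (PreOps.mem_gen S _ _) (PreOps.mem_x S _ _) t
    have h3 := IntermediateField.add_mem _ h1 h2
    rwa [TrivSqZeroExt.fst_sub, sub_add_cancel, ← TrivSqZeroExt.fst_sub] at h3
  root := by
    rw [PreOps.tr_ev]
    exact S.root
  ns := by
    rw [PreOps.tr_ev]
    exact S.ns

/-- exchange of `v` and `z` -/
noncomputable def Pre.swp (S : Pre V r) : Pre V r where
  φ := S.φ
  U := S.U
  x := S.y
  y := S.x
  f := sw S.f
  inj := S.inj
  U_ne := S.U_ne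
  U_val := S.U_val
  x_pos := S.y_pos
  y_pos := S.x_pos
  gen := by
    rw [Set.pair_comm]
    exact S.gen
  root := by
    rw [evPZ_sw]
    exact S.root
  ns := by
    rw [evPZ_sw]
    exact S.ns

/-- scaling `z = u^A z'` and division of the equation by `u^C` -/
noncomputable def Pre.scale (S : Pre V r) (A C : Fin r → ℤ) (hy : V.Gt S.y.fst (S.φ A)) :
    Pre V r where
  φ := S.φ
  U := S.U
  x := S.x
  y := S.U (Multiplicative.ofAdd (-A)) * S.y
  f := scl A C S.f
  inj := S.inj
  U_ne := S.U_ne
  U_val := S.U_val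
  x_pos := S.x_pos
  y_pos := by
    rw [TrivSqZeroExt.fst_mul, mul_comm]
    have h1 : V.Ge (S.U (Multiplicative.ofAdd (-A))).fst (-(S.φ A)) := by
      right
      rw [S.U_val, map_neg]
    have h2 := gt_mul hy h1
    rwa [add_neg_cancel] at h2
  gen := by
    refine PreOps.gen_of S _ (PreOps.mem_gen S _ _) (PreOps.mem_x S _ _) ?_
    have h1 := PreOps.mem_y S S.x.fst (S.U (Multiplicative.ofAdd (-A)) * S.y).fst
    have h2 := IntermediateField.mul_mem _ (PreOps.mem_gen S S.x.fst
      (S.U (Multiplicative.ofAdd (-A)) * S.y).fst A) h1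
    have h3 : (S.U (Multiplicative.ofAdd A)).fst * (S.U (Multiplicative.ofAdd (-A)) * S.y).fst =
        S.y.fst := by
      rw [← TrivSqZeroExt.fst_mul, ← mul_assoc, ← map_mul, ← ofAdd_add, add_neg_cancel,
        ofAdd_zero, map_one, one_mul]
    rw [h3] at h2
    exact h2
  root := by
    rw [PreOps.scale_ev, TrivSqZeroExt.fst_mul, S.root, mul_zero]
  ns := by
    rw [PreOps.scale_ev]
    intro h
    have h1 : IsUnit (S.U (Multiplicative.ofAdd (-C))) :=
      (Group.isUnit (Multiplicative.ofAdd (-C))).map S.U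
    exact S.ns (h1.mul_right_eq_zero.1 h)

/-- translation `v ↦ v - s(u)` -/
noncomputable def Pre.vt (S : Pre V r) (s : LA k r)
    (hx : V.Gt (S.x - ev (algebraMap k (DualNumber K)) S.U s).fst 0) : Pre V r where
  φ := S.φ
  U := S.U
  x := S.x - ev (algebraMap k (DualNumber K)) S.U s
  y := S.y
  f := Polynomial.map (vtr s) S.f
  inj := S.inj
  U_ne := S.U_ne
  U_val := S.U_val
  x_pos := hx
  y_pos := S.y_pos
  gen := by
    refine PreOps.gen_of S _ (PreOps.mem_gen S _ _) ?_ (PreOps.mem_y S _ _)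
    have h1 := PreOps.mem_x S (S.x - ev (algebraMap k (DualNumber K)) S.U s).fst S.y.fst
    have h2 := PreOps.ev_mem S.U (IntermediateField.adjoin k
      (Set.range (fun a => (S.U (Multiplicative.ofAdd a)).fst) ∪
        {(S.x - ev (algebraMap k (DualNumber K)) S.U s).fst, S.y.fst}))
      (PreOps.mem_gen S _ _) s
    have h3 := IntermediateField.add_mem _ h1 h2
    rwa [TrivSqZeroExt.fst_sub, sub_add_cancel, ← TrivSqZeroExt.fst_sub] at h3
  root := by
    rw [PreOps.vt_ev]
    exact S.root
  ns := by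
    rw [PreOps.vt_ev]
    exact S.ns

end LX
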