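import Pool.Agent.helper90.LX.RVLem

namespace LX

open Polynomial

variable {k K : Type*} [Field k] [Field K] [Algebra k K]

theorem RootVal.lean_dom (V : RV k K) (q : K[X]) (m : ℕ) (y : K) (hroot : q.eval y = 0)
    (h3 : q.coeff m ≠ 0) (h4 : V.v (q.coeff m) = 0) (hy : y ≠ 0)
    (h : ∀ i, i ≠ m → V.Gt (q.coeff i * y ^ i) (m * V.v y)) : False := by
  have hm : m ∈ Finset.range (q.natDegree + 1) := by
    rw [Finset.mem_range]
    exact Nat.lt_succ_of_le (le_natDegree_of_ne_zero h3)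
  rw [eval_eq_sum_range, ← Finset.add_sum_erase _ _ hm] at hroot
  have hne : q.coeff m * y ^ m ≠ 0 := mul_ne_zero h3 (pow_ne_zero _ hy)
  have hv : V.v (q.coeff m * y ^ m) = m * V.v y := by
    rw [V.map_mul _ _ h3 (pow_ne_zero _ hy), h4, v_pow hy, zero_add]
  refine add_ne (V := V) hne ?_ hroot
  rw [hv]
  exact gt_sum _ _ fun i hi => h i (Finset.ne_of_mem_erase hi)

theorem RootVal.lean_high (V : RV k K) (q : K[X]) (m : ℕ) (y : K) (h2 : ∀ i, V.Ge (q.coeff i) 0)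
    (hy : y ≠ 0) (hy0 : 0 < V.v y) (i : ℕ) (hi : m < i) :
    V.Gt (q.coeff i * y ^ i) (m * V.v y) := by
  refine gt_of_ge (ge_mul (h2 i) (Or.inr (v_pow hy i).ge)) ?_
  rw [zero_add]
  exact mul_lt_mul_of_pos_right (by exact_mod_cast hi) hy0

/-- A root of positive value of a polynomial above the line of slope `s` through `(m,0)` has value at
least `s`. -/
theorem root_val (V : RV k K) (q : K[X]) (m : ℕ) (s : ℝ) (y : K) (hroot : q.eval y = 0)
    (h1 : ∀ i, i < m → V.Ge (q.coeff i) (((m : ℝ) - i) * s)) (h2 : ∀ i, V.Ge (q.coeff i) 0)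
    (h3 : q.coeff m ≠ 0) (h4 : V.v (q.coeff m) = 0) (hy : V.Gt y 0) (hs : 0 ≤ s) :
    V.Ge y s := by
  by_cases hy1 : y = 0
  · exact Or.inl hy1
  right
  by_contra hlt
  push Not at hlt
  have hy0 : 0 < V.v y := lt_of_gt hy1 hy
  refine RootVal.lean_dom V q m y hroot h3 h4 hy1 fun i hi => ?_
  rcases lt_or_gt_of_ne hi with hi | hi
  · refine gt_of_ge (ge_mul (h1 i hi) (Or.inr (v_pow hy1 i).ge)) ?_
    have h5 : (0 : ℝ) < (m : ℝ) - i := sub_pos.2 (by exact_mod_cast hi)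
    nlinarith [mul_lt_mul_of_pos_left hlt h5]
  · exact RootVal.lean_high V q m y h2 hy1 hy0 i hi

/-- Strict version: if the line touches the polygon only at `(m,0)`, the root has larger value. -/
theorem root_val_gt (V : RV k K) (q : K[X]) (m : ℕ) (s : ℝ) (y : K) (hroot : q.eval y = 0)
    (h1 : ∀ i, i < m → V.Gt (q.coeff i) (((m : ℝ) - i) * s)) (h2 : ∀ i, V.Ge (q.coeff i) 0)
    (h3 : q.coeff m ≠ 0) (h4 : V.v (q.coeff m) = 0) (hy : V.Gt y 0) (hs : 0 ≤ s) :
    V.Gt y s := by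
  by_cases hy1 : y = 0
  · exact Or.inl hy1
  right
  by_contra hlt
  push Not at hlt
  have hy0 : 0 < V.v y := lt_of_gt hy1 hy
  refine RootVal.lean_dom V q m y hroot h3 h4 hy1 fun i hi => ?_
  rcases lt_or_gt_of_ne hi with hi | hi
  · refine gt_mono (gt_mul (h1 i hi) (Or.inr (v_pow hy1 i).ge)) ?_
    have h5 : (0 : ℝ) < (m : ℝ) - i := sub_pos.2 (by exact_mod_cast hi)
    nlinarith [mul_le_mul_of_nonneg_left hlt h5.le]
  · exact RootVal.lean_high V q m y h2 hy1 hy0 i hi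

end LX
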