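import Pool.Agent.helper90.LX.DualBd
import Pool.Agent.helper90.LX.RootVal
import Pool.Agent.helper90.LX.LevTay
import Pool.Agent.helper90.LX.PreOps

namespace LX

open Polynomial LaurentPolynomial

variable {k K : Type*} [Field k] [Field K] [Algebra k K] {V : RV k K} {r m : ℕ}

theorem Bound.fst_pow {z : DualNumber K} {s : ℝ} (hz : V.Ge z.fst s) (i : ℕ) :
    V.Ge (z ^ i).fst (i * s) := by
  rw [DualBd.fst_pow]
  exact ge_pow hz i

theorem Bound.snd_pow {z : DualNumber K} {s C : ℝ} (hz1 : V.Ge z.fst s) (hz2 : V.Ge z.snd (-C))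
    (i : ℕ) : V.Ge (z ^ i).snd (((i : ℝ) - 1) * s - C) := by
  induction i with
  | zero =>
    left
    rw [pow_zero]
    rfl
  | succ i ih =>
    rw [pow_succ, DualNumber.snd_mul]
    refine ge_add ?_ ?_
    · refine ge_mono (ge_mul (Bound.fst_pow hz1 i) hz2) ?_
      push_cast
      linarith
    · refine ge_mono (ge_mul ih hz1) ?_
      push_cast
      linarith

/-- one term -/
theorem Bound.term {a z : DualNumber K} {l s C : ℝ} {i m : ℕ} (hs : 0 ≤ s)
    (ha1 : V.Ge a.fst l) (ha2 : V.Ge a.snd (l - C)) (hz1 : V.Ge z.fst s) (hz2 : V.Ge z.snd (-C))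
    (hl : (m : ℝ) * s ≤ l + i * s) : V.Ge (a * z ^ i).snd (((m : ℝ) - 1) * s - C) := by
  rw [DualNumber.snd_mul]
  refine ge_add ?_ ?_
  · refine ge_mono (ge_mul ha1 (Bound.snd_pow hz1 hz2 i)) ?_
    linarith
  · refine ge_mono (ge_mul ha2 (Bound.fst_pow hz1 i)) ?_
    linarith

theorem Bound.snd_sum {s : ℝ} {ι : Type*} (u : Finset ι) (g : ι → DualNumber K)
    (h : ∀ i ∈ u, V.Ge (g i).snd s) : V.Ge (∑ i ∈ u, g i).snd s := by
  classical
  induction u using Finset.induction_on with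
  | empty => exact Or.inl rfl
  | insert a u ha ih =>
    rw [Finset.sum_insert ha]
    exact ge_add (h a (Finset.mem_insert_self a u))
      (ih fun i hi => h i (Finset.mem_insert_of_mem hi))

/-- the second component of the equation does not vanish -/
theorem Bound.kappa (S : State V r m) : (evPZ S.U S.x S.y S.f).snd ≠ 0 := by
  intro h
  apply S.ns
  exact TrivSqZeroExt.ext S.root h

/-- levels of the Taylor shift before the jump -/
theorem Bound.pos (S : State V r m) {t : LA k[X] r} (ht : GeL S.φ t 0) (i : ℕ) :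
    GeL S.φ ((taylor t S.f).coeff i) 0 := by
  have h0 : Lev S.φ S.f m 0 := ⟨fun i _ => by rw [mul_zero]; exact S.pos i, S.pos⟩
  exact (lev_taylor le_rfl h0 ht).2 i

/-- the constant term of the coefficient `m` does not change -/
theorem Bound.top (S : State V r m) (J : JD S.φ (V.v S.x.fst)) {t : LA k[X] r}
    (ht : GeL S.φ t 0) (ht0 : (t.coeff 0).coeff 0 = 0) :
    (((taylor t S.f).coeff m).coeff 0).coeff 0 ≠ 0 := by
  have hγ : 0 < V.v S.x.fst := lt_of_gt S.x_ne S.x_pos
  have h1 := psi_coeff_zero S.inj hγ J (Bound.pos S ht m)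
  have h2 := psi_coeff_zero S.inj hγ J (S.pos m)
  have h3 : (psi J.Θ ((taylor t S.f).coeff m)).coeff 0 = (psi J.Θ (S.f.coeff m)).coeff 0 := by
    have h4 := coeff_taylor_zero (φ := J.φ') (g := Polynomial.map (psi J.Θ) S.f)
      (fun i => by rw [Polynomial.coeff_map]; exact psi_geL S.inj hγ J (S.pos i))
      (psi_gtL S.inj hγ J ht ht0) m
    rw [← Polynomial.map_taylor, Polynomial.coeff_map, Polynomial.coeff_map] at h4
    exact h4
  rw [h1, h2] at h3
  intro h5
  rw [h5, map_zero] at h3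
  apply S.top
  have h6 := congrArg (fun p : k[T;T⁻¹] => p.coeff 0) h3
  have h7 : (LaurentPolynomial.C (((S.f.coeff m).coeff 0).coeff 0) : k[T;T⁻¹]).coeff 0 =
      ((S.f.coeff m).coeff 0).coeff 0 := Finsupp.single_eq_same
  simp only [h7] at h6
  rw [← h6]
  rfl

/-- The levels are bounded, because the equation is nonsingular at the generic point.
With `z' = y - t(U,x)`: `V(fst z') ≥ s` (`root_val` applied to `map (evP ..) (taylor t f)`, using
`ge_evP_psi`, `val_evP`; the coefficient `m` keeps its constant term: `coeff_taylor_zero` on the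
`psi` side, or directly), `V(snd z') ≥ -C1` uniformly in `t` (`dual_bd` with `s = 0` for `t`).
The second component `κ ≠ 0` of `f(U,x,y) = ∑ (taylor t f)_i(U,x) z'^i` does not depend on `t`, and
every term has second component of value at least `(m-1) s - C2`. So `(m-1) s ≤ V κ + C2`. -/
theorem level_bound (S : State V r m) (hm : 2 ≤ m) (J : JD S.φ (V.v S.x.fst)) :
    ∃ C : ℝ, ∀ t : LA k[X] r, GeL S.φ t 0 → (t.coeff 0).coeff 0 = 0 → ∀ s : ℝ, 0 ≤ s →
      Lev J.φ' (Polynomial.map (psi J.Θ) (taylor t S.f)) m s → s ≤ C := by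
  have hγ : 0 < V.v S.x.fst := lt_of_gt S.x_ne S.x_pos
  obtain ⟨C0, hC0, hbd⟩ := dual_bd S.toPre S.x_ne J
  obtain ⟨C1, hC1⟩ : ∃ C1, C1 = max C0 (-V.v S.y.snd) := ⟨_, rfl⟩
  have hC1a : C0 ≤ C1 := by rw [hC1]; exact le_max_left _ _
  have hC1b : -V.v S.y.snd ≤ C1 := by rw [hC1]; exact le_max_right _ _
  refine ⟨V.v (evPZ S.U S.x S.y S.f).snd + C1, fun t ht ht0 s hs hLev => ?_⟩
  obtain ⟨z, hz⟩ : ∃ z : DualNumber K, z = S.y - evP S.U S.x t := ⟨_, rfl⟩
  obtain ⟨F, hF⟩ : ∃ F : (LA k[X] r)[X], F = taylor t S.f := ⟨_, rfl⟩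
  have hev : evPZ S.U S.x z F = evPZ S.U S.x S.y S.f := by
    rw [hz, hF]
    exact PreOps.tr_ev S.toPre t
  have hlow : ∀ i, i < m → GeL J.φ' (psi J.Θ (F.coeff i)) (((m : ℝ) - i) * s) := by
    intro i hi
    have := hLev.1 i hi
    rwa [Polynomial.coeff_map, ← hF] at this
  have hall : ∀ i, GeL J.φ' (psi J.Θ (F.coeff i)) 0 := by
    intro i
    have := hLev.2 i
    rwa [Polynomial.coeff_map, ← hF] at this
  -- the first component
  have hz0 : V.Gt z.fst 0 := by
    have h1 : z.fst = S.y.fst - evP (fstU S.U) S.x.fst t := by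
      rw [hz, TrivSqZeroExt.fst_sub, fst_evP]
    rw [h1]
    exact gt_sub S.y_pos (gt_evP_zero S.inj S.mon S.x_pos ht ht0)
  have hz1 : V.Ge z.fst s := by
    refine root_val V (Polynomial.map (evP (fstU S.U) S.x.fst) F) m s z.fst ?_ ?_ ?_ ?_ ?_ hz0 hs
    · rw [← evPZ_eq_eval, ← fst_evPZ, hev]
      exact S.root
    · intro i hi
      rw [Polynomial.coeff_map]
      exact ge_evP_psi S.mon S.x_ne rfl J (hlow i hi)
    · intro i
      rw [Polynomial.coeff_map]
      exact ge_evP_psi S.mon S.x_ne rfl J (hall i)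
    · rw [Polynomial.coeff_map, hF]
      exact (val_evP S.inj S.mon S.x_pos (Bound.pos S ht m) (Bound.top S J ht ht0)).1
    · rw [Polynomial.coeff_map, hF]
      exact (val_evP S.inj S.mon S.x_pos (Bound.pos S ht m) (Bound.top S J ht ht0)).2
  -- the second component
  have hz2 : V.Ge z.snd (-C1) := by
    rw [hz, TrivSqZeroExt.snd_sub]
    refine ge_sub (ge_mono (ge_self _) (by linarith)) ?_
    refine ge_mono (hbd t 0 (psi_geL S.inj hγ J ht)).2 ?_
    linarith
  -- the equation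
  have hk : V.Ge (evPZ S.U S.x S.y S.f).snd (((m : ℝ) - 1) * s - C1) := by
    rw [← hev, evPZ_eq_eval, Polynomial.eval_map, Polynomial.eval₂_eq_sum_range]
    refine Bound.snd_sum _ _ fun i _ => ?_
    rcases lt_or_ge i m with hi | hi
    · obtain ⟨h1, h2⟩ := hbd _ _ (hlow i hi)
      refine Bound.term hs h1 (ge_mono h2 (by linarith)) hz1 hz2 ?_
      linarith
    · obtain ⟨h1, h2⟩ := hbd _ _ (hall i)
      refine Bound.term hs h1 (ge_mono h2 (by linarith)) hz1 hz2 ?_
      rw [zero_add]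
      exact mul_le_mul_of_nonneg_right (by exact_mod_cast hi) hs
  have h1 := le_of_ge (Bound.kappa S) hk
  have h2 : (2 : ℝ) ≤ m := by exact_mod_cast hm
  have h3 : s ≤ ((m : ℝ) - 1) * s := le_mul_of_one_le_left hs (by linarith)
  linarith

end LX
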