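import Pool.Agent.helper90.LX.C2Jump

namespace LX

open Polynomial LaurentPolynomial

variable {k : Type*} [Field k] {r : ℕ}

lemma C2In_mono {φ : (Fin r → ℤ) →+ ℝ} {f : (LA k[X] r)[X]} {m : ℕ} {α B B' : ℝ}
    (h : C2 φ f m α B) (hB : B ≤ B') : C2 φ f m α B' := by
  intro t ht
  obtain ⟨i, hi, a, ha, b, hb, hne⟩ := h t ht
  have hmi : (0 : ℝ) ≤ (m : ℝ) - i := by
    have : (i : ℝ) ≤ m := by exact_mod_cast hi.le
    linarith
  exact ⟨i, hi, a, ha, b, hb.trans (mul_le_mul_of_nonneg_left hB hmi), hne⟩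

lemma C2In_map_taylor {R S : Type*} [CommRing R] [CommRing S] (σ : R →+* S) (t : R) (q : R[X]) :
    Polynomial.map σ (taylor t q) = taylor (σ t) (Polynomial.map σ q) := by
  rw [taylor_apply, taylor_apply, Polynomial.map_comp]
  simp

lemma C2In_taylor_C_mul {R : Type*} [CommRing R] (t a : R) (q : R[X]) :
    taylor t (Polynomial.C a * q) = Polynomial.C a * taylor t q := by
  rw [taylor_apply, taylor_apply, Polynomial.mul_comp, Polynomial.C_comp]

lemma C2In_geL_iotaL {φ : (Fin r → ℤ) →+ ℝ} (c : k) {t : LA k[X] r} {s : ℝ} (ht : GeL φ t s) :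
    GeL φ (iotaL c t) s := by
  intro a ha
  refine ht a fun h0 => ha ?_
  rw [iotaL_coeff, h0, map_zero]

/-- General form: any window bound `B' = x + y` with `x` or `y` an integer and
`0 ≤ b0 + d B ≤ ..` contained in `[-(m-i)x, (m-i)y]` gives `C2`. -/
theorem c2_of_window {φ : (Fin r → ℤ) →+ ℝ} {γ : ℝ} (hφ : Function.Injective φ) (hγ : 0 < γ)
    (J : JD φ γ) (g : (LA k[X] r)[X]) (m : ℕ) (L : ℝ) (hg0 : ∀ i, GeL φ (g.coeff i) 0)
    (cm : k) (hcm : cm ≠ 0) (htop : ((g.coeff m).coeff 0).coeff 0 = cm) (hL : 0 < L)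
    (hLev : Lev J.φ' (Polynomial.map (psi J.Θ) g) m L) (A : Fin r → ℤ) (hA : J.φ' A = L)
    (hnp : ∀ lam : k[T;T⁻¹], face (Polynomial.map (psi J.Θ) g) m A ≠
      Polynomial.C (LaurentPolynomial.C cm) * (Polynomial.X - Polynomial.C lam) ^ m)
    (c : k) (hc : c ≠ 0) (N : ℤ) (g' : (LA k[X] r)[X])
    (hg' : Polynomial.map (iotaL c) g' =
      Polynomial.C (TN N) * Polynomial.map (psi J.Θ) g)
    (x y : ℝ) (hxy : 0 ≤ x + y) (hint : (∃ n : ℤ, x = n) ∨ ∃ n : ℤ, y = n)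
    (hwin : ∀ i, i < m → ∀ B : ℤ,
      (((Polynomial.map (psi J.Θ) g).coeff i).coeff ((m - i : ℕ) • A)).coeff B ≠ 0 →
        -(((m : ℝ) - i) * x) ≤ B ∧ (B : ℝ) ≤ ((m : ℝ) - i) * y) :
    C2 J.φ' g' m L (x + y) := by
  intro t ht
  by_contra hcon
  push Not at hcon
  set G := Polynomial.map (psi J.Θ) g with hG
  have hs : GeL J.φ' (iotaL c t) L := C2In_geL_iotaL c ht
  have hmap : Polynomial.map (iotaL c) (taylor t g') =
      Polynomial.C (TN N) * taylor (iotaL c t) G := by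
    rw [C2In_map_taylor, hg', C2In_taylor_C_mul]
  have hcoe : ∀ (i : ℕ) (a : Fin r → ℤ), iota c (((taylor t g').coeff i).coeff a) =
      T N * ((taylor (iotaL c t) G).coeff i).coeff a := by
    intro i a
    rw [← iotaL_coeff, ← Polynomial.coeff_map, hmap, Polynomial.coeff_C_mul, TN_mul_coeff]
  have hφA : ∀ i, i < m → J.φ' ((m - i : ℕ) • A) = ((m : ℝ) - i) * L := by
    intro i hi
    rw [map_nsmul, hA, nsmul_eq_mul, Nat.cast_sub hi.le]
  have hdiv : ∀ i, i < m → (T 1 - LaurentPolynomial.C c) ^ (⌊((m : ℝ) - i) * (x + y)⌋₊ + 1) ∣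
      (taylor ((iotaL c t).coeff A) (face G m A)).coeff i := by
    intro i hi
    rw [← face_taylor J.inj hL hLev hs A hA, face_coeff _ _ _ _ hi.le]
    by_contra hnd
    have hmi : (0 : ℝ) ≤ ((m : ℝ) - i) * (x + y) := by
      have : (i : ℝ) ≤ m := by exact_mod_cast hi.le
      exact mul_nonneg (by linarith) hxy
    obtain ⟨b, hb, hne⟩ := exists_coeff_of_not_dvd c hc _ _ N (hcoe i ((m - i : ℕ) • A)) _ hmi hnd
    exact hne (hcon i hi _ (hφA i hi) b hb)
  have htopF : (face G m A).coeff m = LaurentPolynomial.C cm := by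
    rw [face_coeff _ _ _ _ le_rfl, Nat.sub_self, zero_smul, hG, Polynomial.coeff_map,
      psi_coeff_zero hφ hγ J (hg0 m), htop]
  have hF : ∀ i, i < m → ∀ B : ℤ, ((face G m A).coeff i).coeff B ≠ 0 →
      -(((m : ℝ) - i) * x) ≤ B ∧ (B : ℝ) ≤ ((m : ℝ) - i) * y := by
    intro i hi B hB
    rw [face_coeff _ _ _ _ hi.le] at hB
    exact hwin i hi B hB
  rcases hint with ⟨n, rfl⟩ | ⟨n, rfl⟩
  · obtain ⟨lam', h⟩ := tl_int m n y hxy c cm hc hcm (face G m A) (face_natDegree G m A) htopF hF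
      ((iotaL c t).coeff A) hdiv
    exact hnp lam' h
  · obtain ⟨lam', h⟩ := tl_inv m n x hxy c cm hc hcm (face G m A) (face_natDegree G m A) htopF hF
      ((iotaL c t).coeff A) hdiv
    exact hnp lam' h

/-- Polygon after a jump, `L = φ' A` a value. Put `b0 = (Θ.symm (A,0)).2`, `D = (L-α)/γ`. By `window`
the exponents satisfy `0 ≤ (m-i) b0 + d B ≤ (m-i) D`. First: `x = ⌈b0/d⌉`, `y = (D-b0)/d`:
`x + y ≤ 1 + (D-1)/d ≤ 1 + (D-1)/2` if `D ≥ 1`. Second, `D ≤ 1`: if `d ∣ b0` the same `x, y` give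
`D/d < 1`; otherwise `x = b0/d`, `y = - (b0 / d)` (floor), because
`(D - b0)/d ≤ (D - ρ)/d - w ≤ -w` for `b0 = w d + ρ`, `1 ≤ ρ < d`; `x + y = ρ/d < 1`. -/
theorem c2_in {φ : (Fin r → ℤ) →+ ℝ} {γ : ℝ} (hφ : Function.Injective φ) (hγ : 0 < γ)
    (J : JD φ γ) (g : (LA k[X] r)[X]) (m : ℕ) (α L : ℝ)
    (hg : ∀ i, i < m → GeL φ (g.coeff i) (((m : ℝ) - i) * α)) (hg0 : ∀ i, GeL φ (g.coeff i) 0)
    (cm : k) (hcm : cm ≠ 0) (htop : ((g.coeff m).coeff 0).coeff 0 = cm) (hL : 0 < L)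
    (hD : 0 ≤ (L - α) / γ)
    (hLev : Lev J.φ' (Polynomial.map (psi J.Θ) g) m L) (A : Fin r → ℤ) (hA : J.φ' A = L)
    (hnp : ∀ lam : k[T;T⁻¹], face (Polynomial.map (psi J.Θ) g) m A ≠
      Polynomial.C (LaurentPolynomial.C cm) * (Polynomial.X - Polynomial.C lam) ^ m)
    (c : k) (hc : c ≠ 0) (N : ℤ) (g' : (LA k[X] r)[X])
    (hg' : Polynomial.map (iotaL c) g' =
      Polynomial.C (TN N) * Polynomial.map (psi J.Θ) g) :
    ((L - α) / γ ≤ 1 → ∃ B' : ℝ, B' < 1 ∧ C2 J.φ' g' m L B') ∧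
      (1 ≤ (L - α) / γ → C2 J.φ' g' m L (1 + ((L - α) / γ - 1) / 2)) := by
  set D := (L - α) / γ with hDdef
  obtain ⟨b0, hb0⟩ : ∃ b0 : ℤ, (J.Θ.symm (A, 0)).2 = b0 := ⟨_, rfl⟩
  have hd2 : (2 : ℝ) ≤ J.d := by exact_mod_cast J.two
  have hd0 : (0 : ℝ) < J.d := by linarith
  have hdz : (0 : ℤ) < (J.d : ℤ) := by
    have := J.two
    omega
  -- the window
  have hw : ∀ i, i < m → ∀ B : ℤ,
      (((Polynomial.map (psi J.Θ) g).coeff i).coeff ((m - i : ℕ) • A)).coeff B ≠ 0 →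
        (0 : ℝ) ≤ ((m : ℝ) - i) * b0 + (J.d : ℝ) * B ∧
          ((m : ℝ) - i) * b0 + (J.d : ℝ) * B ≤ ((m : ℝ) - i) * D := by
    intro i hi B hB
    rw [Polynomial.coeff_map] at hB
    have hφA : J.φ' ((m - i : ℕ) • A) = ((m : ℝ) - i) * L := by
      rw [map_nsmul, hA, nsmul_eq_mul, Nat.cast_sub hi.le]
    have h := window hγ J g m i hi α L (hg i hi) ((m - i : ℕ) • A) hφA B hB
    have h2 : (J.Θ.symm (((m - i : ℕ) • A), 0)).2 = ((m - i : ℕ) : ℤ) * b0 := by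
      have e1 : ((((m - i : ℕ) • A), (0 : ℤ)) : (Fin r → ℤ) × ℤ) = (m - i : ℕ) • (A, (0 : ℤ)) := by
        ext <;> simp
      rw [e1, map_nsmul, Prod.smul_snd, hb0, nsmul_eq_mul]
    rw [h2] at h
    have h3 : ((((m - i : ℕ) : ℤ) * b0 : ℤ) : ℝ) = ((m : ℝ) - i) * b0 := by
      push_cast
      rw [Nat.cast_sub hi.le]
    rw [h3] at h
    exact h
  have hmi : ∀ i, i < m → (0 : ℝ) < (m : ℝ) - i := by
    intro i hi
    have : (i : ℝ) < m := by exact_mod_cast hi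
    linarith
  -- first choice
  have hA1 : C2 J.φ' g' m L ((⌈(b0 : ℝ) / J.d⌉ : ℤ) + (D - b0) / J.d) := by
    have hce : (b0 : ℝ) / J.d ≤ (⌈(b0 : ℝ) / J.d⌉ : ℤ) := Int.le_ceil _
    have hce' : (b0 : ℝ) ≤ (⌈(b0 : ℝ) / J.d⌉ : ℤ) * J.d := by
      rwa [div_le_iff₀ hd0] at hce
    refine c2_of_window hφ hγ J g m L hg0 cm hcm htop hL hLev A hA hnp c hc N g' hg' _ _ ?_
      (Or.inl ⟨_, rfl⟩) ?_
    · have h1 : (D - b0) / J.d = D / J.d - b0 / J.d := sub_div _ _ _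
      have h2 : 0 ≤ D / J.d := div_nonneg hD hd0.le
      rw [h1]
      linarith
    · intro i hi B hB
      obtain ⟨h1, h2⟩ := hw i hi B hB
      have hp := hmi i hi
      constructor
      · have h3 : ((m : ℝ) - i) * b0 ≤ ((m : ℝ) - i) * ((⌈(b0 : ℝ) / J.d⌉ : ℤ) * J.d) :=
          mul_le_mul_of_nonneg_left hce' hp.le
        have h4 : 0 ≤ (((m : ℝ) - i) * (⌈(b0 : ℝ) / J.d⌉ : ℤ) + B) * J.d := by nlinarith
        have h5 := nonneg_of_mul_nonneg_left h4 hd0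
        linarith
      · have h3 : (B : ℝ) * J.d ≤ ((m : ℝ) - i) * (D - b0) := by nlinarith
        rw [← mul_div_assoc, le_div_iff₀ hd0]
        exact h3
  constructor
  · intro hD1
    by_cases hdvd : (J.d : ℤ) ∣ b0
    · obtain ⟨w, hw'⟩ := hdvd
      refine ⟨_, ?_, hA1⟩
      have h1 : (b0 : ℝ) / J.d = (w : ℤ) := by
        rw [hw']
        push_cast
        field_simp
      rw [h1, Int.ceil_intCast, sub_div, h1]
      have h2 : D / J.d ≤ 1 / 2 := by
        rw [div_le_iff₀ hd0]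
        linarith
      linarith
    · refine ⟨(b0 : ℝ) / J.d + ((-(b0 / (J.d : ℤ)) : ℤ) : ℝ), ?_, ?_⟩
      · have h1 := Int.emod_add_mul_ediv b0 J.d
        have h2 := Int.emod_lt_of_pos b0 hdz
        have h3 : (b0 : ℝ) < J.d * ((b0 / (J.d : ℤ) : ℤ) : ℝ) + J.d := by
          have h4 : b0 < (J.d : ℤ) * (b0 / (J.d : ℤ)) + J.d := by linarith
          exact_mod_cast h4
        have h5 : (b0 : ℝ) / J.d < ((b0 / (J.d : ℤ) : ℤ) : ℝ) + 1 := by
          rw [div_lt_iff₀ hd0]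
          linarith
        push_cast at h5 ⊢
        linarith
      · refine c2_of_window hφ hγ J g m L hg0 cm hcm htop hL hLev A hA hnp c hc N g' hg' _ _ ?_
          (Or.inr ⟨_, rfl⟩) ?_
        · have h1 := Int.emod_add_mul_ediv b0 J.d
          have h2 := Int.emod_nonneg b0 hdz.ne'
          have h3 : J.d * ((b0 / (J.d : ℤ) : ℤ) : ℝ) ≤ (b0 : ℝ) := by
            have h4 : (J.d : ℤ) * (b0 / (J.d : ℤ)) ≤ b0 := by linarith
            exact_mod_cast h4
          have h5 : ((b0 / (J.d : ℤ) : ℤ) : ℝ) ≤ (b0 : ℝ) / J.d := by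
            rw [le_div_iff₀ hd0]
            linarith
          push_cast at h5 ⊢
          linarith
        · intro i hi B hB
          obtain ⟨h1, h2⟩ := hw i hi B hB
          have hp := hmi i hi
          constructor
          · have h4 : 0 ≤ (((m : ℝ) - i) * (b0 / J.d) + B) * J.d := by
              have : (((m : ℝ) - i) * (b0 / J.d) + B) * J.d =
                  ((m : ℝ) - i) * b0 + J.d * B := by
                field_simp
              rw [this]
              exact h1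
            have h5 := nonneg_of_mul_nonneg_left h4 hd0
            linarith
          · have h3 : (J.d : ℤ) * (b0 / (J.d : ℤ)) + 1 ≤ b0 := by
              have e1 := Int.emod_add_mul_ediv b0 J.d
              have e2 := Int.emod_nonneg b0 hdz.ne'
              have e3 : b0 % (J.d : ℤ) ≠ 0 := fun h => hdvd (Int.dvd_of_emod_eq_zero h)
              have e4 : 1 ≤ b0 % (J.d : ℤ) := by omega
              linarith
            have h4 : (J.d : ℝ) * ((b0 / (J.d : ℤ) : ℤ) : ℝ) + 1 ≤ (b0 : ℝ) := by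
              exact_mod_cast h3
            have h5 : ((m : ℝ) - i) * (D - b0) ≤
                ((m : ℝ) - i) * (-(J.d * ((b0 / (J.d : ℤ) : ℤ) : ℝ))) :=
              mul_le_mul_of_nonneg_left (by linarith) hp.le
            have h6 : 0 ≤ (((m : ℝ) - i) * (-((b0 / (J.d : ℤ) : ℤ) : ℝ)) - B) * J.d := by
              nlinarith
            have h7 := nonneg_of_mul_nonneg_left h6 hd0
            push_cast at h7 ⊢
            linarith
  · intro hD1
    refine C2In_mono hA1 ?_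
    -- `⌈b0/d⌉ ≤ b0/d + (d-1)/d`
    have h1 : ((⌈(b0 : ℝ) / J.d⌉ : ℤ) : ℝ) ≤ ((b0 : ℝ) + J.d - 1) / J.d := by
      have h2 : (⌈(b0 : ℝ) / J.d⌉ : ℤ) ≤ (b0 + J.d - 1) / (J.d : ℤ) := by
        rw [Int.ceil_le]
        have e1 := Int.emod_add_mul_ediv (b0 + J.d - 1) J.d
        have e2 := Int.emod_lt_of_pos (b0 + J.d - 1) hdz
        rw [div_le_iff₀ hd0]
        have e3 : b0 ≤ ((b0 + J.d - 1) / (J.d : ℤ)) * (J.d : ℤ) := by linarith
        exact_mod_cast e3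
      have e1 := Int.emod_add_mul_ediv (b0 + J.d - 1) J.d
      have e2 := Int.emod_nonneg (b0 + J.d - 1) hdz.ne'
      have e3 : ((b0 + J.d - 1) / (J.d : ℤ)) * (J.d : ℤ) ≤ b0 + J.d - 1 := by linarith
      have e4 : (((b0 + J.d - 1) / (J.d : ℤ) : ℤ) : ℝ) * (J.d : ℝ) ≤ (b0 : ℝ) + J.d - 1 := by
        exact_mod_cast e3
      rw [le_div_iff₀ hd0]
      have h3 : ((⌈(b0 : ℝ) / J.d⌉ : ℤ) : ℝ) ≤ (((b0 + J.d - 1) / (J.d : ℤ) : ℤ) : ℝ) := by
        exact_mod_cast h2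
      nlinarith
    have h2 : ((b0 : ℝ) + J.d - 1) / J.d + (D - b0) / J.d = 1 + (D - 1) / J.d := by
      field_simp
      ring
    have h3 : (D - 1) / J.d ≤ (D - 1) / 2 := by
      apply div_le_div_of_nonneg_left (by linarith) (by norm_num) hd2
    linarith

end LX
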