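import Pool.Agent.helper90.LX.GeLem

namespace LX

open Polynomial LaurentPolynomial

variable {k : Type*} [Field k] {r : ℕ}

private theorem IotaLem_eq (c : k) (g : k[X]) :
    iota c g = toLaurent (g.comp (X - Polynomial.C c)) := by
  have h : iota c = (toLaurent : k[X] →+* k[T;T⁻¹]).comp
      (Polynomial.compRingHom (X - Polynomial.C c)) := by
    apply Polynomial.ringHom_ext
    · intro a
      simp [iota, ← LaurentPolynomial.C_eq_algebraMap]
    · simp [iota]
  rw [h]
  rfl

private theorem IotaLem_comp (c : k) (g : k[X]) :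
    (g.comp (X - Polynomial.C c)).comp (X + Polynomial.C c) = g := by
  rw [Polynomial.comp_assoc]
  simp

private theorem IotaLem_comp' (c : k) (g : k[X]) :
    (g.comp (X + Polynomial.C c)).comp (X - Polynomial.C c) = g := by
  rw [Polynomial.comp_assoc]
  simp

theorem iota_injective (c : k) : Function.Injective (iota c) := by
  intro a b hab
  rw [IotaLem_eq, IotaLem_eq, Polynomial.toLaurent_inj] at hab
  rw [← IotaLem_comp c a, hab, IotaLem_comp]

private theorem IotaLem_dvd_iff (c : k) (hc : c ≠ 0) (p : k[X]) (e : ℕ) :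
    (X - Polynomial.C c) ^ e ∣ p ↔ (T 1 - LaurentPolynomial.C c) ^ e ∣ toLaurent p := by
  have h0 : (T 1 - LaurentPolynomial.C c) ^ e = toLaurent ((X - Polynomial.C c) ^ e) := by
    rw [map_pow, map_sub, Polynomial.toLaurent_X, Polynomial.toLaurent_C]
  rw [h0]
  constructor
  · rintro ⟨s, rfl⟩
    rw [map_mul]
    exact dvd_mul_right _ _
  · rintro ⟨s, hs⟩
    obtain ⟨n, s', hs'⟩ := LaurentPolynomial.exists_T_pow s
    have h1 : toLaurent (p * X ^ n) = toLaurent ((X - Polynomial.C c) ^ e * s') := by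
      rw [map_mul, map_mul, hs, hs', Polynomial.toLaurent_X_pow, mul_assoc]
    rw [Polynomial.toLaurent_inj] at h1
    have h2 : IsCoprime ((X - Polynomial.C c) ^ e) ((X : k[X]) ^ n) := by
      apply IsCoprime.pow
      refine ⟨-Polynomial.C c⁻¹, Polynomial.C c⁻¹, ?_⟩
      have : Polynomial.C c⁻¹ * Polynomial.C c = (1 : k[X]) := by
        rw [← Polynomial.C_mul, inv_mul_cancel₀ hc, Polynomial.C_1]
      linear_combination this
    exact h2.dvd_of_dvd_mul_right ⟨s', h1⟩

/-- `X ↦ T - c`: divisibility by `X^e` becomes divisibility by `(T-c)^e`. -/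
theorem iota_dvd (c : k) (hc : c ≠ 0) (g : k[X]) (h : k[T;T⁻¹]) (N : ℤ)
    (hg : iota c g = T N * h) (e : ℕ) :
    (Polynomial.X : k[X]) ^ e ∣ g ↔ (T 1 - LaurentPolynomial.C c) ^ e ∣ h := by
  have h1 : (T 1 - LaurentPolynomial.C c) ^ e ∣ h ↔
      (T 1 - LaurentPolynomial.C c) ^ e ∣ toLaurent (g.comp (X - Polynomial.C c)) := by
    rw [← IotaLem_eq, hg]
    exact ((LaurentPolynomial.isUnit_T N).dvd_mul_left).symm
  rw [h1, ← IotaLem_dvd_iff c hc]
  constructor
  · rintro ⟨s, rfl⟩
    refine ⟨s.comp (X - Polynomial.C c), ?_⟩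
    simp
  · rintro ⟨s, hs⟩
    refine ⟨s.comp (X + Polynomial.C c), ?_⟩
    rw [← IotaLem_comp c g, hs]
    simp

/-- constant coefficient -/
theorem iota_const (c : k) (hc : c ≠ 0) (g : k[X]) (c' : k) (N : ℤ)
    (hg : iota c g = T N * LaurentPolynomial.C c') : g.coeff 0 = c ^ N * c' := by
  have h1 := congrArg (LaurentPolynomial.eval₂ (RingHom.id k) (Units.mk0 c hc)) hg
  rw [IotaLem_eq, LaurentPolynomial.eval₂_toLaurent, map_mul, LaurentPolynomial.eval₂_T,
    LaurentPolynomial.eval₂_C] at h1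
  simp only [Units.val_zpow_eq_zpow_val, Units.val_mk0, RingHom.id_apply] at h1
  rw [← h1, Polynomial.coeff_zero_eq_eval_zero, ← Polynomial.eval₂_id, Polynomial.eval₂_id,
    Polynomial.eval₂_id, Polynomial.eval_comp]
  simp

private theorem IotaLem_clear1 (c : k) (l : k[T;T⁻¹]) :
    ∃ (N : ℕ) (p : k[X]), iota c p = T N * l := by
  obtain ⟨n, f, hf⟩ := LaurentPolynomial.exists_T_pow l
  refine ⟨n, f.comp (X + Polynomial.C c), ?_⟩
  rw [IotaLem_eq, IotaLem_comp', hf, LaurentPolynomial.T_mul]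

private theorem IotaLem_T (c : k) (N : ℕ) :
    iotaL c (AddMonoidAlgebra.single 0 ((X + Polynomial.C c) ^ N) : LA k[X] r) = TN N := by
  rw [iotaL, AddMonoidAlgebra.mapRingHom_single, TN]
  congr 1
  rw [IotaLem_eq]
  simp

private theorem IotaLem_TN_add (M N : ℕ) : (TN ((M + N : ℕ) : ℤ) : LA k[T;T⁻¹] r) = TN M * TN N := by
  rw [TN, TN, TN, AddMonoidAlgebra.single_mul_single, ← T_add, add_zero]
  push_cast
  rfl

private theorem IotaLem_clear2 (c : k) (a : LA k[T;T⁻¹] r) :
    ∃ (N : ℕ) (a' : LA k[X] r), iotaL c a' = TN N * a := by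
  induction a using AddMonoidAlgebra.induction_linear with
  | zero => exact ⟨0, 0, by simp⟩
  | add a b ha hb =>
    obtain ⟨M, a', ha'⟩ := ha
    obtain ⟨N, b', hb'⟩ := hb
    refine ⟨M + N, AddMonoidAlgebra.single 0 ((X + Polynomial.C c) ^ N) * a' +
      AddMonoidAlgebra.single 0 ((X + Polynomial.C c) ^ M) * b', ?_⟩
    rw [map_add, map_mul, map_mul, IotaLem_T, IotaLem_T, ha', hb', IotaLem_TN_add]
    ring
  | single A l =>
    obtain ⟨N, p, hp⟩ := IotaLem_clear1 c l
    refine ⟨N, AddMonoidAlgebra.single A p, ?_⟩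
    rw [iotaL, AddMonoidAlgebra.mapRingHom_single, hp, TN, AddMonoidAlgebra.single_mul_single,
      zero_add]

/-- every Laurent polynomial becomes a polynomial in `T - c` after multiplication by `T^N` -/
theorem exists_clear (c : k) (g : (LA k[T;T⁻¹] r)[X]) :
    ∃ (N : ℕ) (g' : (LA k[X] r)[X]), Polynomial.map (iotaL c) g' = Polynomial.C (TN N) * g := by
  induction g using Polynomial.induction_on' with
  | add a b ha hb =>
    obtain ⟨M, a', ha'⟩ := ha
    obtain ⟨N, b', hb'⟩ := hb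
    refine ⟨M + N, Polynomial.C (AddMonoidAlgebra.single 0 ((X + Polynomial.C c) ^ N)) * a' +
      Polynomial.C (AddMonoidAlgebra.single 0 ((X + Polynomial.C c) ^ M)) * b', ?_⟩
    rw [Polynomial.map_add, Polynomial.map_mul, Polynomial.map_mul, Polynomial.map_C,
      Polynomial.map_C, IotaLem_T, IotaLem_T, ha', hb', IotaLem_TN_add, Polynomial.C_mul]
    ring
  | monomial n a =>
    obtain ⟨N, a', ha'⟩ := IotaLem_clear2 c a
    refine ⟨N, Polynomial.monomial n a', ?_⟩
    rw [Polynomial.map_monomial, ha', Polynomial.C_mul_monomial]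

theorem iotaL_coeff (c : k) (h : LA k[X] r) (A : Fin r → ℤ) :
    (iotaL c h).coeff A = iota c (h.coeff A) := by
  rw [iotaL, AddMonoidAlgebra.coeff_mapRingHom]

theorem TN_mul_coeff (N : ℤ) (h : LA k[T;T⁻¹] r) (A : Fin r → ℤ) :
    (TN N * h).coeff A = T N * h.coeff A := by
  rw [TN, AddMonoidAlgebra.coeff_single_zero_mul]

end LX
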