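import Pool.Agent.helper90.LX.TLInt

namespace LX

open Polynomial LaurentPolynomial

/-- the inversion as a ring homomorphism -/
private noncomputable def TLInv_inv (k : Type*) [Field k] : k[T;T⁻¹] →+* k[T;T⁻¹] :=
  (LaurentPolynomial.invert : k[T;T⁻¹] ≃ₐ[k] k[T;T⁻¹]).toAlgHom.toRingHom

private theorem TLInv_inv_apply {k : Type*} [Field k] (h : k[T;T⁻¹]) :
    TLInv_inv k h = LaurentPolynomial.invert h := rfl

private theorem TLInv_inv_inv {k : Type*} [Field k] :
    (TLInv_inv k).comp (TLInv_inv k) = RingHom.id _ :=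
  RingHom.ext fun h => involutive_invert h

private theorem TLInv_dvd {k : Type*} [Field k] {c : k} (hc : c ≠ 0) :
    (T 1 - LaurentPolynomial.C c⁻¹ : k[T;T⁻¹]) ∣ TLInv_inv k (T 1 - LaurentPolynomial.C c) := by
  refine ⟨-(LaurentPolynomial.C c * T (-1)), ?_⟩
  rw [TLInv_inv_apply, map_sub, invert_T, invert_C]
  have h1 : (T 1 * T (-1) : k[T;T⁻¹]) = 1 := by
    rw [← T_add, add_neg_cancel, T_zero]
  have h2 : (LaurentPolynomial.C c⁻¹ * LaurentPolynomial.C c : k[T;T⁻¹]) = 1 := by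
    rw [← map_mul, inv_mul_cancel₀ hc, map_one]
  calc (T (-1) - LaurentPolynomial.C c : k[T;T⁻¹])
      = (LaurentPolynomial.C c⁻¹ * LaurentPolynomial.C c) * T (-1)
          - LaurentPolynomial.C c * (T 1 * T (-1)) := by rw [h1, h2]; ring
    _ = (T 1 - LaurentPolynomial.C c⁻¹) * -(LaurentPolynomial.C c * T (-1)) := by ring

/-- Window lemma, exponents of `F_i` in `[-(m-i) x, (m-i) n]` with `n` an integer: apply `tl_int`
after the automorphism `T ↦ 1/T` (`LaurentPolynomial.invert`), which maps `T - c` to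
`- c T^(-1) (T - c⁻¹)`. -/
theorem tl_inv {k : Type*} [Field k] (m : ℕ) (n : ℤ) (x : ℝ) (hD : 0 ≤ x + n) (c cm : k)
    (hc : c ≠ 0) (hcm : cm ≠ 0) (F : (k[T;T⁻¹])[X]) (hdeg : F.natDegree ≤ m)
    (htop : F.coeff m = LaurentPolynomial.C cm)
    (hF : ∀ i, i < m → ∀ B : ℤ, (F.coeff i).coeff B ≠ 0 →
      -(((m : ℝ) - i) * x) ≤ B ∧ (B : ℝ) ≤ ((m : ℝ) - i) * n) (lam : k[T;T⁻¹])
    (hlam : ∀ i, i < m → (T 1 - LaurentPolynomial.C c) ^ (⌊((m : ℝ) - i) * (x + n)⌋₊ + 1) ∣
      (taylor lam F).coeff i) :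
    ∃ lam' : k[T;T⁻¹], F = Polynomial.C (LaurentPolynomial.C cm) *
      (Polynomial.X - Polynomial.C lam') ^ m := by
  have hmap : ∀ i, (F.map (TLInv_inv k)).coeff i = TLInv_inv k (F.coeff i) := fun i =>
    Polynomial.coeff_map _ _
  obtain ⟨l, hl⟩ := tl_int m n x (by linarith) c⁻¹ cm (inv_ne_zero hc) hcm (F.map (TLInv_inv k))
    ((Polynomial.natDegree_map_le).trans hdeg)
    (by rw [hmap, htop, TLInv_inv_apply, invert_C])
    (by
      intro i hi B hB
      rw [hmap, TLInv_inv_apply, invert_apply] at hB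
      obtain ⟨h1, h2⟩ := hF i hi (-B) hB
      push_cast at h1 h2
      constructor <;> linarith)
    (TLInv_inv k lam)
    (by
      intro i hi
      rw [← Polynomial.map_taylor, Polynomial.coeff_map]
      have h1 := map_dvd (TLInv_inv k) (hlam i hi)
      rw [map_pow] at h1
      have h2 : ((m : ℝ) - i) * (n + x) = ((m : ℝ) - i) * (x + n) := by ring
      rw [h2]
      exact (pow_dvd_pow_of_dvd (TLInv_dvd hc) _).trans h1)
  refine ⟨TLInv_inv k l, ?_⟩
  have h1 : (F.map (TLInv_inv k)).map (TLInv_inv k) = F := by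
    rw [Polynomial.map_map, TLInv_inv_inv, Polynomial.map_id]
  rw [← h1, hl]
  simp only [Polynomial.map_mul, Polynomial.map_pow, Polynomial.map_sub, Polynomial.map_C,
    Polynomial.map_X, TLInv_inv_apply, invert_C]

end LX
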