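import Mathlib

namespace LX

open Polynomial LaurentPolynomial

theorem Window.coeff_mul_T {k : Type*} [Field k] (h : k[T;T⁻¹]) (n B : ℤ) :
    (h * T n).coeff B = h.coeff (B - n) := by
  rw [T, AddMonoidAlgebra.coeff_mul_single_apply, mul_one, sub_eq_add_neg]

theorem Window.coeff_toLaurent_nat {k : Type*} [Field k] (f : k[X]) (n : ℕ) :
    (toLaurent f).coeff (n : ℤ) = f.coeff n := by
  rw [coeff_toLaurent]
  have := Finsupp.mapDomain_apply (f := (Nat.castEmbedding : ℕ ↪ ℤ))
    Nat.castEmbedding.injective f.toFinsupp.coeff n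
  exact this

/-- A nonzero Laurent polynomial with exponents in `[w1,w2]` is divisible by `(T-c)^e` only for
`e ≤ w2 - w1` (`c ≠ 0`). Hint: multiply by a power of `T` so that the lowest exponent is `0`. -/
theorem window_ord {k : Type*} [Field k] (c : k) (hc : c ≠ 0) (h : k[T;T⁻¹]) (hh : h ≠ 0)
    (w1 w2 : ℝ) (hw : ∀ B : ℤ, h.coeff B ≠ 0 → w1 ≤ B ∧ (B : ℝ) ≤ w2) (e : ℕ)
    (he : (T 1 - LaurentPolynomial.C c) ^ e ∣ h) : (e : ℝ) ≤ w2 - w1 := by
  obtain ⟨q, hq⟩ := he
  obtain ⟨n, f, hf⟩ := exists_T_pow h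
  obtain ⟨n', q', hq'⟩ := exists_T_pow q
  have hf0 : f ≠ 0 := by
    rintro rfl
    rw [map_zero] at hf
    have h1 : h * T n * T (-n) = 0 := by rw [← hf, zero_mul]
    rw [mul_T_assoc, add_neg_cancel, T_zero, mul_one] at h1
    exact hh h1
  -- the identity of polynomials
  have hid : f * X ^ n' = (X - Polynomial.C c) ^ e * (q' * X ^ n) := by
    apply toLaurent_injective
    simp only [map_mul, map_pow, map_sub, toLaurent_X, toLaurent_C]
    rw [hf, hq', hq, T_pow, T_pow, mul_one, mul_one]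
    ring
  have hdvd : (X - Polynomial.C c) ^ e ∣ f * X ^ n' := ⟨_, hid⟩
  have hcop : IsCoprime (X - Polynomial.C c) (X : k[X]) := by
    have := Polynomial.pairwise_coprime_X_sub_C (K := k) (s := id) Function.injective_id
      (i := c) (j := 0) hc
    simpa [Function.onFun] using this
  have hdf : (X - Polynomial.C c) ^ e ∣ f := (hcop.pow).dvd_of_dvd_mul_right hdvd
  obtain ⟨g, hg⟩ : (X : k[X]) ^ f.natTrailingDegree ∣ f := by
    rw [X_pow_dvd_iff]
    intro d hd
    exact coeff_eq_zero_of_lt_natTrailingDegree hd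
  have hg0 : g ≠ 0 := by
    rintro rfl
    rw [mul_zero] at hg
    exact hf0 hg
  have hdg : (X - Polynomial.C c) ^ e ∣ g := by
    rw [hg] at hdf
    exact (hcop.pow).dvd_of_dvd_mul_left hdf
  have hdeg : e ≤ g.natDegree := by
    have := natDegree_le_of_dvd hdg hg0
    rwa [natDegree_pow, natDegree_X_sub_C, mul_one] at this
  have hfd : f.natDegree = f.natTrailingDegree + g.natDegree := by
    conv_lhs => rw [hg]
    rw [natDegree_mul (pow_ne_zero _ X_ne_zero) hg0, natDegree_X_pow]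
  have hc1 : ∀ j : ℕ, f.coeff j ≠ 0 → w1 ≤ (j : ℝ) - n ∧ (j : ℝ) - n ≤ w2 := by
    intro j hj
    have h1 : h.coeff ((j : ℤ) - n) = f.coeff j := by
      rw [← Window.coeff_toLaurent_nat, hf, Window.coeff_mul_T]
    have h2 := hw ((j : ℤ) - n) (by rw [h1]; exact hj)
    push_cast at h2
    exact h2
  have h1 := (hc1 f.natTrailingDegree (by
    exact trailingCoeff_nonzero_iff_nonzero.2 hf0)).1
  have h2 := (hc1 f.natDegree (by
    exact leadingCoeff_ne_zero.2 hf0)).2
  have h3 : (f.natDegree : ℝ) = f.natTrailingDegree + g.natDegree := by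
    rw [hfd]; push_cast; ring
  have h4 : (e : ℝ) ≤ g.natDegree := by exact_mod_cast hdeg
  linarith

end LX
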