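import Pool.Agent.helper90.LX.EvLem
import Pool.Agent.helper90.LX.LevTay
import Pool.Agent.helper90.LX.TLInv
import Pool.Agent.helper90.LX.Window
import Pool.Agent.helper90.LX.IotaLem

namespace LX

open Polynomial LaurentPolynomial

variable {k : Type*} [Field k] {r : ℕ}

/-- coefficients of `g'` at exponent `A` versus those of `psi g`: `X^e` divides one iff `(T-c)^e`
divides the other; nonvanishing below `e` -/
theorem exists_coeff_of_not_dvd (c : k) (hc : c ≠ 0) (g' : k[X]) (h : k[T;T⁻¹]) (N : ℤ)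
    (hg : iota c g' = T N * h) (w : ℝ) (hw : 0 ≤ w)
    (hnd : ¬ (T 1 - LaurentPolynomial.C c) ^ (⌊w⌋₊ + 1) ∣ h) :
    ∃ b : ℕ, (b : ℝ) ≤ w ∧ g'.coeff b ≠ 0 := by
  by_contra hcon
  push Not at hcon
  refine hnd ((iota_dvd c hc g' h N hg _).1 ?_)
  rw [X_pow_dvd_iff]
  intro b hb
  refine hcon b ?_
  have h1 : b ≤ ⌊w⌋₊ := Nat.lt_succ_iff.1 hb
  have h2 : (b : ℝ) ≤ (⌊w⌋₊ : ℝ) := by exact_mod_cast h1
  exact h2.trans (Nat.floor_le hw)

/-- the window of exponents: for a monomial `u^A T^B` of `psi g_i` on the line of slope `L`,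
`0 ≤ β(A) + d B ≤ (m-i) (L-α)/γ`, with `β(A) = (Θ.symm (A,0)).2` -/
theorem window {φ : (Fin r → ℤ) →+ ℝ} {γ : ℝ} (hγ : 0 < γ) (J : JD φ γ) (g : (LA k[X] r)[X])
    (m i : ℕ) (hi : i < m) (α L : ℝ) (hg : GeL φ (g.coeff i) (((m : ℝ) - i) * α))
    (A : Fin r → ℤ) (hA : J.φ' A = ((m : ℝ) - i) * L) (B : ℤ)
    (hB : ((psi J.Θ (g.coeff i)).coeff A).coeff B ≠ 0) :
    (0 : ℝ) ≤ ((J.Θ.symm (A, 0)).2 : ℤ) + (J.d : ℝ) * B ∧
      (((J.Θ.symm (A, 0)).2 : ℤ) : ℝ) + (J.d : ℝ) * B ≤ ((m : ℝ) - i) * ((L - α) / γ) := by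
  obtain ⟨a, b, hab, hne⟩ := exists_of_psi J.Θ (g.coeff i) A B hB
  have h0 : J.Θ.symm (A, B) = (a, (b : ℤ)) := by
    rw [← hab, AddEquiv.symm_apply_apply]
  have e1 : ((A, B) : (Fin r → ℤ) × ℤ) = (A, 0) + B • ((0 : Fin r → ℤ), (1 : ℤ)) := by
    ext <;> simp
  have h1 : (b : ℤ) = (J.Θ.symm (A, 0)).2 + B * (J.d : ℤ) := by
    have h2 : (J.Θ.symm (A, B)).2 = (b : ℤ) := by rw [h0]
    rw [← h2, e1, map_add, map_zsmul, Prod.snd_add, Prod.smul_snd, J.hd, smul_eq_mul]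
  have h3 : (((J.Θ.symm (A, 0)).2 : ℤ) : ℝ) + (J.d : ℝ) * B = (b : ℝ) := by
    have h4 : ((b : ℤ) : ℝ) = (((J.Θ.symm (A, 0)).2 + B * (J.d : ℤ) : ℤ) : ℝ) := by rw [← h1]
    push_cast at h4
    linarith
  rw [h3]
  refine ⟨Nat.cast_nonneg b, ?_⟩
  have h5 : (g.coeff i).coeff a ≠ 0 := by
    intro h2
    rw [h2] at hne
    exact hne (Polynomial.coeff_zero b)
  have h6 := hg a h5
  have h7 := J.val a b
  rw [hab, hA, Int.cast_natCast] at h7
  rw [← mul_div_assoc, le_div_iff₀ hγ]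
  linarith

/-- Polygon after a jump, `L` not a value: the multiplicities in `T - c` on the line are at most
`(m-i) D/d ≤ (m-i) D/2` (`window_ord`, `coeff_taylor_out`, `exists_coeff_of_not_dvd`). -/
theorem c2_out {φ : (Fin r → ℤ) →+ ℝ} {γ : ℝ} (hφ : Function.Injective φ) (hγ : 0 < γ)
    (J : JD φ γ) (g : (LA k[X] r)[X]) (m : ℕ) (α L : ℝ)
    (hg : ∀ i, i < m → GeL φ (g.coeff i) (((m : ℝ) - i) * α)) (hL : 0 < L)
    (hLev : Lev J.φ' (Polynomial.map (psi J.Θ) g) m L) (hne : ∀ A, J.φ' A ≠ L)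
    (hex : ∃ i, i < m ∧ ∃ A, J.φ' A = ((m : ℝ) - i) * L ∧
      ((Polynomial.map (psi J.Θ) g).coeff i).coeff A ≠ 0)
    (c : k) (hc : c ≠ 0) (N : ℤ) (g' : (LA k[X] r)[X])
    (hg' : Polynomial.map (iotaL c) g' =
      Polynomial.C (TN N) * Polynomial.map (psi J.Θ) g) :
    C2 J.φ' g' m L ((L - α) / γ / 2) := by
  intro t ht
  obtain ⟨i, hi, A, hA, hne0⟩ := hex
  set G := Polynomial.map (psi J.Θ) g with hG
  have _ := hφ
  have ht' : GtL J.φ' t L := fun a ha => lt_of_le_of_ne (ht a ha) fun h => hne a h.symm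
  have hs : GtL J.φ' (iotaL c t) L := by
    intro a ha
    refine ht' a fun h0 => ha ?_
    rw [iotaL_coeff, h0, map_zero]
  have hmt : Polynomial.map (iotaL c) (taylor t g') = taylor (iotaL c t) (Polynomial.map (iotaL c) g') := by
    rw [taylor_apply, taylor_apply, Polynomial.map_comp]
    simp
  have hmap : Polynomial.map (iotaL c) (taylor t g') =
      Polynomial.C (TN N) * taylor (iotaL c t) G := by
    rw [hmt, hg', taylor_apply, taylor_apply, Polynomial.mul_comp, Polynomial.C_comp]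
  have hcoe : iota c (((taylor t g').coeff i).coeff A) =
      T N * ((taylor (iotaL c t) G).coeff i).coeff A := by
    rw [← iotaL_coeff, ← Polynomial.coeff_map, hmap, Polynomial.coeff_C_mul, TN_mul_coeff]
  rw [coeff_taylor_out hL hLev hs i hi A hA] at hcoe
  have hmi : (0 : ℝ) < (m : ℝ) - i := by
    have : (i : ℝ) < m := by exact_mod_cast hi
    linarith
  have hd2 : (2 : ℝ) ≤ J.d := by exact_mod_cast J.two
  have hd0 : (0 : ℝ) < J.d := by linarith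
  have hw : ∀ B : ℤ, ((G.coeff i).coeff A).coeff B ≠ 0 →
      (0 : ℝ) ≤ ((J.Θ.symm (A, 0)).2 : ℤ) + (J.d : ℝ) * B ∧
      (((J.Θ.symm (A, 0)).2 : ℤ) : ℝ) + (J.d : ℝ) * B ≤ ((m : ℝ) - i) * ((L - α) / γ) := by
    intro B hB
    rw [hG, Polynomial.coeff_map] at hB
    exact window hγ J g m i hi α L (hg i hi) A hA B hB
  obtain ⟨B0, hB0⟩ : ∃ B : ℤ, ((G.coeff i).coeff A).coeff B ≠ 0 := by
    by_contra h1
    push Not at h1
    exact hne0 (by ext B; exact h1 B)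
  have hD0 : 0 ≤ ((m : ℝ) - i) * ((L - α) / γ) := (hw B0 hB0).1.trans (hw B0 hB0).2
  have hw0 : 0 ≤ ((m : ℝ) - i) * ((L - α) / γ / 2) := by
    have : ((m : ℝ) - i) * ((L - α) / γ / 2) = ((m : ℝ) - i) * ((L - α) / γ) / 2 := by ring
    rw [this]
    linarith
  have hnd : ¬ (T 1 - LaurentPolynomial.C c) ^ (⌊((m : ℝ) - i) * ((L - α) / γ / 2)⌋₊ + 1) ∣
      (G.coeff i).coeff A := by
    intro hdvd
    have h1 := window_ord c hc ((G.coeff i).coeff A) hne0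
      (-(((J.Θ.symm (A, 0)).2 : ℤ) : ℝ) / J.d)
      ((((m : ℝ) - i) * ((L - α) / γ) - (((J.Θ.symm (A, 0)).2 : ℤ) : ℝ)) / J.d)
      (fun B hB => by
        obtain ⟨h2, h3⟩ := hw B hB
        constructor
        · rw [div_le_iff₀ hd0]
          linarith
        · rw [le_div_iff₀ hd0]
          linarith) _ hdvd
    have h2 := Nat.lt_floor_add_one (((m : ℝ) - i) * ((L - α) / γ / 2))
    push_cast at h1
    have h3 : (((m : ℝ) - i) * ((L - α) / γ) - (((J.Θ.symm (A, 0)).2 : ℤ) : ℝ)) / J.d -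
        -(((J.Θ.symm (A, 0)).2 : ℤ) : ℝ) / J.d = ((m : ℝ) - i) * ((L - α) / γ) / J.d := by
      ring
    have h4 : ((m : ℝ) - i) * ((L - α) / γ) / J.d ≤ ((m : ℝ) - i) * ((L - α) / γ) / 2 :=
      div_le_div_of_nonneg_left hD0 (by norm_num) hd2
    have h5 : ((m : ℝ) - i) * ((L - α) / γ / 2) = ((m : ℝ) - i) * ((L - α) / γ) / 2 := by ring
    rw [h3] at h1
    rw [h5] at h1 h2
    linarith
  obtain ⟨b, hb, hbne⟩ := exists_coeff_of_not_dvd c hc _ _ N hcoe _ hw0 hnd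
  exact ⟨i, hi, A, hA, b, hb, hbne⟩

end LX
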