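import Pool.Agent.helper90.LX.EvLem
import Pool.Agent.helper90.LX.LevTay

namespace LX

open Polynomial LaurentPolynomial

variable {k : Type*} [Field k] {r : ℕ}

/-- `C2 α B` bounds the new level: `(L-α)/γ ≤ B`. The monomial `u^a X^b` of `(f^t)_i` given by `C2`
has new level `φ a + b γ ≤ (m-i)(α + B γ)`. -/
theorem d_le {φ : (Fin r → ℤ) →+ ℝ} {γ : ℝ} (hγ : 0 < γ) (J : JD φ γ) (f : (LA k[X] r)[X])
    (m : ℕ) (α B L : ℝ) (hC2 : C2 φ f m α B) (t : LA k[X] r) (ht : GeL φ t α)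
    (hLev : Lev J.φ' (Polynomial.map (psi J.Θ) (taylor t f)) m L) : (L - α) / γ ≤ B := by
  obtain ⟨i, hi, a, ha, b, hb, hne⟩ := hC2 t ht
  have h1 := psi_coeff_of J.Θ ((taylor t f).coeff i) a b
  have h2 : ((Polynomial.map (psi J.Θ) (taylor t f)).coeff i).coeff (J.Θ (a, (b : ℤ))).1 ≠ 0 := by
    intro h3
    rw [Polynomial.coeff_map] at h3
    rw [h3] at h1
    exact hne (by rw [← h1]; rfl)
  have h3 := hLev.1 i hi _ h2
  rw [J.val, ha, Int.cast_natCast] at h3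
  have h4 : (0 : ℝ) < (m : ℝ) - i := by
    have : (i : ℝ) < m := by exact_mod_cast hi
    linarith
  have h5 : (b : ℝ) * γ ≤ ((m : ℝ) - i) * B * γ := mul_le_mul_of_nonneg_right hb hγ.le
  have h6 : ((m : ℝ) - i) * L ≤ ((m : ℝ) - i) * (α + B * γ) := by
    have : ((m : ℝ) - i) * (α + B * γ) = ((m : ℝ) - i) * α + ((m : ℝ) - i) * B * γ := by ring
    linarith
  have h7 := le_of_mul_le_mul_left h6 h4
  rw [div_le_iff₀ hγ]
  linarith

/-- `α ≤ L` -/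
theorem le_level {φ : (Fin r → ℤ) →+ ℝ} {γ : ℝ} (hγ : 0 < γ) (J : JD φ γ)
    (g : (LA k[X] r)[X]) (m : ℕ) (α L : ℝ)
    (hg : ∀ i, i < m → GeL φ (g.coeff i) (((m : ℝ) - i) * α))
    (hex : ∃ i, i < m ∧ ∃ A, J.φ' A = ((m : ℝ) - i) * L ∧
      ((Polynomial.map (psi J.Θ) g).coeff i).coeff A ≠ 0) : α ≤ L := by
  obtain ⟨i, hi, A, hA, hne⟩ := hex
  rw [Polynomial.coeff_map] at hne
  obtain ⟨B, hB⟩ : ∃ B : ℤ, ((psi J.Θ (g.coeff i)).coeff A).coeff B ≠ 0 := by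
    by_contra hcon
    push Not at hcon
    refine hne ?_
    ext B
    exact hcon B
  obtain ⟨a, b, hab, hab1⟩ := exists_of_psi J.Θ (g.coeff i) A B hB
  have h1 : (g.coeff i).coeff a ≠ 0 := by
    intro h2
    rw [h2] at hab1
    exact hab1 (Polynomial.coeff_zero b)
  have h2 := hg i hi a h1
  have h3 := J.val a b
  rw [hab, hA, Int.cast_natCast] at h3
  have h4 : (0 : ℝ) < (m : ℝ) - i := by
    have : (i : ℝ) < m := by exact_mod_cast hi
    linarith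
  have h5 : (0 : ℝ) ≤ (b : ℝ) * γ := mul_nonneg (Nat.cast_nonneg b) hγ.le
  exact le_of_mul_le_mul_left (by linarith) h4

/-- `C2` is monotone in `B` -/
theorem c2_mono {φ : (Fin r → ℤ) →+ ℝ} {f : (LA k[X] r)[X]} {m : ℕ} {α B B' : ℝ}
    (h : C2 φ f m α B) (hB : B ≤ B') : C2 φ f m α B' := by
  intro t ht
  obtain ⟨i, hi, a, ha, b, hb, hne⟩ := h t ht
  have h4 : (0 : ℝ) ≤ (m : ℝ) - i := by
    have : (i : ℝ) < m := by exact_mod_cast hi
    linarith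
  exact ⟨i, hi, a, ha, b, hb.trans (mul_le_mul_of_nonneg_left hB h4), hne⟩

/-- `C2` depends only on the integral parts: `B < 1 + 1/m` can be replaced by `1` -/
theorem c2_round {φ : (Fin r → ℤ) →+ ℝ} {f : (LA k[X] r)[X]} {m : ℕ} {α B : ℝ} (hm : 0 < m)
    (h : C2 φ f m α B) (hB : B < 1 + 1 / m) : C2 φ f m α 1 := by
  intro t ht
  obtain ⟨i, hi, a, ha, b, hb, hne⟩ := h t ht
  have hm0 : (0 : ℝ) < m := by exact_mod_cast hm
  have h4 : (0 : ℝ) < (m : ℝ) - i := by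
    have : (i : ℝ) < m := by exact_mod_cast hi
    linarith
  have h5 : ((m : ℝ) - i) * B < ((m : ℝ) - i) * (1 + 1 / m) := mul_lt_mul_of_pos_left hB h4
  have h6 : ((m : ℝ) - i) * (1 / m) ≤ 1 := by
    have h7 : ((m : ℝ) - i) * (1 / m) ≤ m * (1 / m) := by
      refine mul_le_mul_of_nonneg_right ?_ (by positivity)
      have : (0 : ℝ) ≤ i := Nat.cast_nonneg i
      linarith
    rw [mul_one_div_cancel hm0.ne'] at h7
    exact h7
  have h8 : (b : ℝ) < ((m - i : ℕ) : ℝ) + 1 := by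
    rw [Nat.cast_sub hi.le]
    have h9 : ((m : ℝ) - i) * (1 + 1 / m) = ((m : ℝ) - i) + ((m : ℝ) - i) * (1 / m) := by ring
    linarith
  have h9 : b < m - i + 1 := by exact_mod_cast h8
  refine ⟨i, hi, a, ha, b, ?_, hne⟩
  have h10 : (b : ℝ) ≤ ((m - i : ℕ) : ℝ) := by exact_mod_cast Nat.lt_succ_iff.mp h9
  rw [Nat.cast_sub hi.le] at h10
  linarith

/-- `C1` of translates: the coefficients of `f^t`, `t ≥ α`, still lie above the line -/
theorem c1_taylor {φ : (Fin r → ℤ) →+ ℝ} {f : (LA k[X] r)[X]} {m : ℕ} {α : ℝ}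
    (hpos : ∀ i, GeL φ (f.coeff i) 0) (h : C1 φ f m α) {t : LA k[X] r} (ht : GeL φ t α) :
    C1 φ (taylor t f) m α ∧ ∀ i, GeL φ ((taylor t f).coeff i) 0 := by
  have h1 := lev_taylor (m := m) h.1 ⟨h.2, hpos⟩ ht
  exact ⟨⟨h.1, h1.1⟩, h1.2⟩

end LX
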