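import Mathlib

namespace LX

open Polynomial LaurentPolynomial

/-! ## real valuations -/

/-- A real valuation of `K/k` with residue field `k` (the value of `0` is not used). -/
structure RV (k K : Type*) [Field k] [Field K] [Algebra k K] where
  /-- the value of nonzero elements -/
  v : K → ℝ
  map_mul : ∀ x y : K, x ≠ 0 → y ≠ 0 → v (x * y) = v x + v y
  map_add : ∀ x y : K, x ≠ 0 → y ≠ 0 → x + y ≠ 0 → min (v x) (v y) ≤ v (x + y)
  map_const : ∀ c : k, c ≠ 0 → v (algebraMap k K c) = 0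
  res : ∀ x : K, x ≠ 0 → v x = 0 →
    ∃ c : k, x - algebraMap k K c = 0 ∨ 0 < v (x - algebraMap k K c)

section RV

variable {k K : Type*} [Field k] [Field K] [Algebra k K] (V : RV k K)

/-- `x` has value at least `s` -/
def RV.Ge (x : K) (s : ℝ) : Prop := x = 0 ∨ s ≤ V.v x

/-- `x` has value larger than `s` -/
def RV.Gt (x : K) (s : ℝ) : Prop := x = 0 ∨ s < V.v x

/-- the value group -/
def RV.grp : AddSubgroup ℝ := AddSubgroup.closure {s | ∃ x : K, x ≠ 0 ∧ V.v x = s}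

end RV

/-! ## Laurent polynomials -/

/-- Laurent polynomials in `r` variables over `R` -/
abbrev LA (R : Type*) [CommRing R] (r : ℕ) := AddMonoidAlgebra R (Fin r → ℤ)

section LA

variable {R : Type*} [CommRing R] {r : ℕ}

/-- all exponents of `h` have level at least `s` -/
def GeL (φ : (Fin r → ℤ) →+ ℝ) (h : LA R r) (s : ℝ) : Prop := ∀ a, h.coeff a ≠ 0 → s ≤ φ a

/-- all exponents of `h` have level larger than `s` -/
def GtL (φ : (Fin r → ℤ) →+ ℝ) (h : LA R r) (s : ℝ) : Prop := ∀ a, h.coeff a ≠ 0 → s < φ a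

/-- `g` lies above the line of slope `s` through `(m,0)` -/
def Lev (φ : (Fin r → ℤ) →+ ℝ) (g : (LA R r)[X]) (m : ℕ) (s : ℝ) : Prop :=
  (∀ i, i < m → GeL φ (g.coeff i) (((m : ℝ) - i) * s)) ∧ ∀ i, GeL φ (g.coeff i) 0

/-- the face of `g` along the exponent `A` -/
noncomputable def face (g : (LA R r)[X]) (m : ℕ) (A : Fin r → ℤ) : R[X] :=
  ∑ j ∈ Finset.range (m + 1), Polynomial.monomial j ((g.coeff j).coeff ((m - j : ℕ) • A))

/-- evaluation of Laurent polynomials -/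
noncomputable def ev {S : Type*} [CommRing S] (ρ : R →+* S)
    (U : Multiplicative (Fin r → ℤ) →* S) : LA R r →+* S :=
  AddMonoidAlgebra.liftNCRingHom ρ U (fun _ _ => Commute.all _ _)

@[simp] lemma ev_single {S : Type*} [CommRing S] (ρ : R →+* S)
    (U : Multiplicative (Fin r → ℤ) →* S) (a : Fin r → ℤ) (c : R) :
    ev ρ U (AddMonoidAlgebra.single a c) = ρ c * U (Multiplicative.ofAdd a) := by
  simp [ev]

/-- evaluation of polynomials over Laurent polynomials -/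
noncomputable def ev2 {S : Type*} [CommRing S] (ρ : R →+* S)
    (U : Multiplicative (Fin r → ℤ) →* S) (y : S) : (LA R r)[X] →+* S :=
  Polynomial.eval₂RingHom (ev ρ U) y

end LA

section P

variable {k : Type*} [Field k] {r : ℕ} {S : Type*} [CommRing S] [Algebra k S]

/-- evaluation of `k[X][u^G]` at `u = U`, `X = x` -/
noncomputable def evP (U : Multiplicative (Fin r → ℤ) →* S) (x : S) : LA k[X] r →+* S :=
  ev ((Polynomial.aeval x : k[X] →ₐ[k] S) : k[X] →+* S) U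

/-- evaluation of `k[X][u^G][Z]` at `u = U`, `X = x`, `Z = y` -/
noncomputable def evPZ (U : Multiplicative (Fin r → ℤ) →* S) (x y : S) :
    (LA k[X] r)[X] →+* S :=
  ev2 ((Polynomial.aeval x : k[X] →ₐ[k] S) : k[X] →+* S) U y

end P

/-! ## states -/

section State

variable {k K : Type*} [Field k] [Field K] [Algebra k K]

/-- A hypersurface presentation of `K` with a first order thickening of the generic point. -/
structure Pre (V : RV k K) (r : ℕ) where
  φ : (Fin r → ℤ) →+ ℝ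
  U : Multiplicative (Fin r → ℤ) →* DualNumber K
  x : DualNumber K
  y : DualNumber K
  f : (LA k[X] r)[X]
  inj : Function.Injective φ
  U_ne : ∀ a, (U (Multiplicative.ofAdd a)).fst ≠ 0
  U_val : ∀ a, V.v (U (Multiplicative.ofAdd a)).fst = φ a
  x_pos : V.Gt x.fst 0
  y_pos : V.Gt y.fst 0
  gen : IntermediateField.adjoin k
    (Set.range (fun a => (U (Multiplicative.ofAdd a)).fst) ∪ {x.fst, y.fst}) = ⊤
  root : (evPZ U x y f).fst = 0
  ns : evPZ U x y f ≠ 0

/-- A presentation with multiplicity `m` in `Z`. -/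
structure State (V : RV k K) (r m : ℕ) extends Pre V r where
  x_ne : x.fst ≠ 0
  pos : ∀ i, GeL φ (f.coeff i) 0
  low : ∀ i, i < m → ((f.coeff i).coeff 0).coeff 0 = 0
  top : ((f.coeff m).coeff 0).coeff 0 ≠ 0

/-- the first polygon condition -/
def C1 {r : ℕ} (φ : (Fin r → ℤ) →+ ℝ) (f : (LA k[X] r)[X]) (m : ℕ) (α : ℝ) : Prop :=
  0 ≤ α ∧ ∀ i, i < m → GeL φ (f.coeff i) (((m : ℝ) - i) * α)

/-- the second polygon condition -/
def C2 {r : ℕ} (φ : (Fin r → ℤ) →+ ℝ) (f : (LA k[X] r)[X]) (m : ℕ) (α B : ℝ) : Prop :=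
  ∀ t : LA k[X] r, GeL φ t α → ∃ i, i < m ∧ ∃ a, φ a = ((m : ℝ) - i) * α ∧
    ∃ b : ℕ, (b : ℝ) ≤ ((m : ℝ) - i) * B ∧ (((taylor t f).coeff i).coeff a).coeff b ≠ 0

/-- the standing hypotheses: transcendence degree `r+1`, value group not finitely generated -/
structure Std (V : RV k K) (r : ℕ) : Prop where
  tr : Algebra.trdeg k K = r + 1
  nfg : ¬ V.grp.FG

end State

/-! ## jumps -/

section Jump

/-- Lattice data of a jump: `φ' (Θ (a,b)).1 = φ a + b γ`, kernel generator of last coordinate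
`d ≥ 2`. -/
structure JD {r : ℕ} (φ : (Fin r → ℤ) →+ ℝ) (γ : ℝ) where
  φ' : (Fin r → ℤ) →+ ℝ
  Θ : ((Fin r → ℤ) × ℤ) ≃+ ((Fin r → ℤ) × ℤ)
  d : ℕ
  inj : Function.Injective φ'
  two : 2 ≤ d
  val : ∀ (a : Fin r → ℤ) (b : ℤ), φ' (Θ (a, b)).1 = φ a + b * γ
  hd : (Θ.symm (0, 1)).2 = (d : ℤ)

variable {k : Type*} [Field k] {r : ℕ}

/-- the monomial `u^A T^B` -/
noncomputable def monT (w : (Fin r → ℤ) × ℤ) : LA k[T;T⁻¹] r :=
  AddMonoidAlgebra.single w.1 (T w.2)

/-- the monomials `u^A T^B` as a homomorphism -/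
noncomputable def monHom (Θ : ((Fin r → ℤ) × ℤ) ≃+ ((Fin r → ℤ) × ℤ)) :
    Multiplicative (Fin r → ℤ) →* LA k[T;T⁻¹] r where
  toFun a := monT (Θ (Multiplicative.toAdd a, 0))
  map_one' := by
    have : Θ ((0 : Fin r → ℤ), (0 : ℤ)) = 0 := map_zero Θ
    simp only [toAdd_one, this, monT]
    rfl
  map_mul' a b := by
    have : Θ (Multiplicative.toAdd (a * b), (0 : ℤ))
        = Θ (Multiplicative.toAdd a, 0) + Θ (Multiplicative.toAdd b, 0) := by
      rw [← map_add]; simp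
    rw [this, monT, monT, monT, AddMonoidAlgebra.single_mul_single, ← T_add]
    rfl

/-- the coordinate change `u^a X^b ↦ u^A T^B`, `(A,B) = Θ (a,b)` -/
noncomputable def psi (Θ : ((Fin r → ℤ) × ℤ) ≃+ ((Fin r → ℤ) × ℤ)) :
    LA k[X] r →+* LA k[T;T⁻¹] r :=
  ev ((Polynomial.aeval (monT (Θ (0, 1))) : k[X] →ₐ[k] LA k[T;T⁻¹] r) : k[X] →+* _)
    (monHom Θ)

/-- `X ↦ T - c` -/
noncomputable def iota (c : k) : k[X] →+* k[T;T⁻¹] :=
  ((Polynomial.aeval (T 1 - LaurentPolynomial.C c) : k[X] →ₐ[k] k[T;T⁻¹]) : k[X] →+* _)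

/-- `X ↦ T - c` on Laurent polynomials -/
noncomputable def iotaL (c : k) : LA k[X] r →+* LA k[T;T⁻¹] r :=
  AddMonoidAlgebra.mapRingHom (Fin r → ℤ) (iota c)

/-- the constant `T^N` in `k[T,1/T][u^G]` -/
noncomputable def TN (N : ℤ) : LA k[T;T⁻¹] r := AddMonoidAlgebra.single 0 (T N)

end Jump

end LX
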