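import Pool.Agent.helper90.LX.EvLem

namespace LX

open Polynomial LaurentPolynomial

variable {k K : Type*} [Field k] [Field K] [Algebra k K] {V : RV k K} {r : ℕ}

/-- logarithmic derivative -/
noncomputable def DualBd.q (d : DualNumber K) : K := d.snd / d.fst

theorem DualBd.fst_mul (d e : DualNumber K) : (d * e).fst = d.fst * e.fst := rfl

theorem DualBd.q_mul {d e : DualNumber K} (hd : d.fst ≠ 0) (he : e.fst ≠ 0) :
    DualBd.q (d * e) = DualBd.q d + DualBd.q e := by
  unfold DualBd.q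
  rw [DualNumber.snd_mul, DualBd.fst_mul]
  field_simp
  ring

theorem DualBd.q_one : DualBd.q (1 : DualNumber K) = 0 := by
  unfold DualBd.q
  have h : (1 : DualNumber K).snd = 0 := rfl
  rw [h, zero_div]

theorem DualBd.fst_pow_ne {d : DualNumber K} (hd : d.fst ≠ 0) (n : ℕ) : (d ^ n).fst ≠ 0 := by
  induction n with
  | zero => rw [pow_zero]; exact one_ne_zero
  | succ n ih => rw [pow_succ, DualBd.fst_mul]; exact mul_ne_zero ih hd

theorem DualBd.fst_pow {d : DualNumber K} (n : ℕ) : (d ^ n).fst = d.fst ^ n := by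
  induction n with
  | zero => rw [pow_zero, pow_zero]; rfl
  | succ n ih => rw [pow_succ, DualBd.fst_mul, ih, pow_succ]

theorem DualBd.q_pow {d : DualNumber K} (hd : d.fst ≠ 0) (n : ℕ) :
    DualBd.q (d ^ n) = n • DualBd.q d := by
  induction n with
  | zero => rw [pow_zero, zero_smul, DualBd.q_one]
  | succ n ih => rw [pow_succ, DualBd.q_mul (DualBd.fst_pow_ne hd n) hd, ih, succ_nsmul]

theorem DualBd.ge_zsmul {y : K} {s : ℝ} (n : ℤ) (h : V.Ge y s) : V.Ge (n • y) s := by
  have h1 : n • y = algebraMap k K (n : k) * y := by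
    rw [map_intCast, zsmul_eq_mul]
  rw [h1]
  have := ge_mul (ge_algebraMap (V := V) (n : k)) h
  rwa [zero_add] at this

theorem DualBd.ge_nsmul {y : K} {s : ℝ} (n : ℕ) (h : V.Ge y s) : V.Ge (n • y) s := by
  have := DualBd.ge_zsmul (V := V) (n : ℤ) h
  rwa [natCast_zsmul] at this

/-- `a ↦ snd (U a) / fst (U a)` as an additive map -/
noncomputable def DualBd.del (S : Pre V r) : (Fin r → ℤ) →+ K where
  toFun a := DualBd.q (S.U (Multiplicative.ofAdd a))
  map_zero' := by rw [ofAdd_zero, map_one, DualBd.q_one]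
  map_add' a b := by
    rw [ofAdd_add, map_mul, DualBd.q_mul (S.U_ne a) (S.U_ne b)]

theorem DualBd.del_eq (S : Pre V r) (a : Fin r → ℤ) :
    DualBd.del S a = ∑ i, a i • DualBd.del S (Pi.single i 1) := by
  conv_lhs => rw [← Finset.univ_sum_single a]
  rw [map_sum]
  refine Finset.sum_congr rfl fun i _ => ?_
  rw [← map_zsmul]
  congr 1
  rw [← Pi.single_smul]
  simp

/-- the bound for the logarithmic derivatives of the monomials -/
theorem DualBd.bound (S : Pre V r) : ∃ C0 : ℝ, 0 ≤ C0 ∧ V.Ge (DualBd.q S.x) (-C0) ∧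
    ∀ a, V.Ge (DualBd.q (S.U (Multiplicative.ofAdd a))) (-C0) := by
  refine ⟨|V.v (DualBd.q S.x)| + ∑ i, |V.v (DualBd.del S (Pi.single i 1))|,
    by positivity, ?_, ?_⟩
  · refine ge_mono (ge_self _) ?_
    have h1 : 0 ≤ ∑ i, |V.v (DualBd.del S (Pi.single i 1))| := by positivity
    have h2 := neg_abs_le (V.v (DualBd.q S.x))
    linarith
  · intro a
    have h1 : DualBd.q (S.U (Multiplicative.ofAdd a)) = DualBd.del S a := rfl
    rw [h1, DualBd.del_eq]
    refine ge_sum _ _ fun i _ => DualBd.ge_zsmul _ (ge_mono (ge_self _) ?_)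
    have h2 : |V.v (DualBd.del S (Pi.single i 1))| ≤
        ∑ i, |V.v (DualBd.del S (Pi.single i 1))| :=
      Finset.single_le_sum (f := fun i => |V.v (DualBd.del S (Pi.single i 1))|)
        (fun j _ => abs_nonneg _) (Finset.mem_univ i)
    have h3 := neg_abs_le (V.v (DualBd.del S (Pi.single i 1)))
    have h4 := abs_nonneg (V.v (DualBd.q S.x))
    linarith

/-- both components are bounded -/
def DualBd.P (V : RV k K) (C0 : ℝ) (d : DualNumber K) (s : ℝ) : Prop :=
  V.Ge d.fst s ∧ V.Ge d.snd (s - C0)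

theorem DualBd.P_sum {C0 s : ℝ} {ι : Type*} (u : Finset ι) (g : ι → DualNumber K)
    (h : ∀ i ∈ u, DualBd.P V C0 (g i) s) : DualBd.P V C0 (∑ i ∈ u, g i) s := by
  classical
  induction u using Finset.induction_on with
  | empty => exact ⟨Or.inl rfl, Or.inl rfl⟩
  | insert a u ha ih =>
    rw [Finset.sum_insert ha]
    obtain ⟨h1, h2⟩ := h a (Finset.mem_insert_self a u)
    obtain ⟨h3, h4⟩ := ih fun i hi => h i (Finset.mem_insert_of_mem hi)
    exact ⟨ge_add h1 h3, ge_add h2 h4⟩

theorem DualBd.P_mono {C0 s t : ℝ} {d : DualNumber K} (h : DualBd.P V C0 d s) (h' : t ≤ s) :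
    DualBd.P V C0 d t :=
  ⟨ge_mono h.1 h', ge_mono h.2 (by linarith)⟩

/-- one monomial -/
theorem DualBd.mono {C0 : ℝ} (S : Pre V r) (hx : S.x.fst ≠ 0)
    (h1 : V.Ge (DualBd.q S.x) (-C0))
    (h2 : ∀ a, V.Ge (DualBd.q (S.U (Multiplicative.ofAdd a))) (-C0))
    (a : Fin r → ℤ) (b : ℕ) (c : k) :
    DualBd.P V C0 (evP S.U S.x (AddMonoidAlgebra.single a (Polynomial.monomial b c)))
      (S.φ a + b * V.v S.x.fst) := by
  have he : evP S.U S.x (AddMonoidAlgebra.single a (Polynomial.monomial b c)) =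
      algebraMap k (DualNumber K) c * (S.x ^ b * S.U (Multiplicative.ofAdd a)) := by
    unfold evP
    rw [ev_single]
    simp only [RingHom.coe_coe, Polynomial.aeval_monomial]
    ring
  rw [he]
  set w : DualNumber K := S.x ^ b * S.U (Multiplicative.ofAdd a) with hw
  have hwf : w.fst = S.x.fst ^ b * (S.U (Multiplicative.ofAdd a)).fst := by
    rw [hw, DualBd.fst_mul, DualBd.fst_pow]
  have hwne : w.fst ≠ 0 := by
    rw [hwf]
    exact mul_ne_zero (pow_ne_zero _ hx) (S.U_ne a)
  have hwv : V.v w.fst = S.φ a + b * V.v S.x.fst := by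
    rw [hwf, V.map_mul _ _ (pow_ne_zero _ hx) (S.U_ne a), v_pow hx, S.U_val]
    ring
  have hq : V.Ge (DualBd.q w) (-C0) := by
    rw [hw, DualBd.q_mul (DualBd.fst_pow_ne hx b) (S.U_ne a), DualBd.q_pow hx]
    exact ge_add (DualBd.ge_nsmul b h1) (h2 a)
  have hws : w.snd = w.fst * DualBd.q w := by
    unfold DualBd.q
    field_simp
  have hc1 : (algebraMap k (DualNumber K) c).fst = algebraMap k K c := rfl
  have hc2 : (algebraMap k (DualNumber K) c).snd = 0 := rfl
  refine ⟨?_, ?_⟩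
  · rw [DualBd.fst_mul, hc1]
    have := ge_mul (ge_algebraMap (V := V) c) (ge_self (V := V) w.fst)
    rwa [zero_add, hwv] at this
  · rw [DualNumber.snd_mul, hc1, hc2, zero_mul, add_zero, hws]
    have := ge_mul (ge_algebraMap (V := V) c) (ge_mul (ge_self (V := V) w.fst) hq)
    rwa [zero_add, hwv, ← sub_eq_add_neg] at this

/-- Uniform bound for the second components: `snd (U a) / fst (U a)` is additive in `a`, and
`snd (x^b) = b x^(b-1) snd x`; so `snd` of a monomial of value `l` has value at least `l - C0`. -/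
theorem dual_bd (S : Pre V r) (hx : S.x.fst ≠ 0) (J : JD S.φ (V.v S.x.fst)) : ∃ C0 : ℝ, 0 ≤ C0 ∧
    ∀ (h : LA k[X] r) (s : ℝ), GeL J.φ' (psi J.Θ h) s →
      V.Ge (evP S.U S.x h).fst s ∧ V.Ge (evP S.U S.x h).snd (s - C0) := by
  obtain ⟨C0, hC, h1, h2⟩ := DualBd.bound S
  refine ⟨C0, hC, fun h s hh => ?_⟩
  have hsum : evP S.U S.x h = ∑ a ∈ h.coeff.support, ∑ b ∈ (h.coeff a).support,
      evP S.U S.x (AddMonoidAlgebra.single a (Polynomial.monomial b ((h.coeff a).coeff b))) := by
    conv_lhs => rw [← AddMonoidAlgebra.sum_coeff_single h]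
    rw [Finsupp.sum, map_sum]
    refine Finset.sum_congr rfl fun a _ => ?_
    conv_lhs => rw [Polynomial.as_sum_support (h.coeff a)]
    rw [← map_sum]
    congr 1
    exact map_sum (AddMonoidAlgebra.singleAddHom a) _ _
  have : DualBd.P V C0 (evP S.U S.x h) s := by
    rw [hsum]
    refine DualBd.P_sum _ _ fun a _ => DualBd.P_sum _ _ fun b hb => ?_
    refine DualBd.P_mono (DualBd.mono S hx h1 h2 a b _) ?_
    have h3 := psi_coeff_of J.Θ h a b
    have h4 : (psi J.Θ h).coeff (J.Θ (a, b)).1 ≠ 0 := by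
      intro h0
      rw [h0] at h3
      exact Polynomial.mem_support_iff.1 hb (by rw [← h3]; rfl)
    have h5 := hh _ h4
    rw [J.val] at h5
    exact_mod_cast h5
  exact this

end LX
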