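import Pool.Agent.helper90.LX.JumpPre
import Pool.Agent.helper90.LX.Window
import Pool.Agent.helper90.LX.DLe

namespace LX

open Polynomial LaurentPolynomial

variable {k K : Type*} [Field k] [Field K] [Algebra k K] {V : RV k K} {r m : ℕ}

/-- a nonzero coefficient of the new polynomial comes from the old one -/
theorem E1_coeff {φ : (Fin r → ℤ) →+ ℝ} {α : ℝ} (J : JD φ α) (f : (LA k[X] r)[X])
    (c : k) (N : ℤ) (g' : (LA k[X] r)[X])
    (hg' : Polynomial.map (iotaL c) g' =
      Polynomial.C (TN N) * Polynomial.map (psi J.Θ) (sw f)) (b : ℕ) (A : Fin r → ℤ) :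
    iota c ((g'.coeff b).coeff A) = T N * (psi J.Θ ((sw f).coeff b)).coeff A := by
  have h1 := congrArg (fun q => (Polynomial.coeff q b).coeff A) hg'
  simp only [Polynomial.coeff_map, Polynomial.coeff_C_mul] at h1
  rw [iotaL_coeff, TN_mul_coeff] at h1
  exact h1

/-- the monomials of `psi (sw f)` -/
theorem E1_of_psi {φ : (Fin r → ℤ) →+ ℝ} {α : ℝ} (J : JD φ α) (f : (LA k[X] r)[X])
    (b : ℕ) (A : Fin r → ℤ) (B : ℤ)
    (h : ((psi J.Θ ((sw f).coeff b)).coeff A).coeff B ≠ 0) :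
    ∃ (a : Fin r → ℤ) (i : ℕ), J.Θ (a, (i : ℤ)) = (A, B) ∧ J.φ' A = φ a + i * α ∧
      ((f.coeff i).coeff a).coeff b ≠ 0 := by
  obtain ⟨a, i, hab, hne⟩ := exists_of_psi J.Θ _ A B h
  rw [sw_coeff] at hne
  refine ⟨a, i, hab, ?_, hne⟩
  have h1 := J.val a i
  rw [hab] at h1
  rw [h1, Int.cast_natCast]

theorem E1_level {φ : (Fin r → ℤ) →+ ℝ} {α : ℝ} (hα : 0 < α) (f : (LA k[X] r)[X])
    (h1 : C1 φ f m α) (hpos : ∀ i, GeL φ (f.coeff i) 0) (i b : ℕ) (a : Fin r → ℤ)
    (h : ((f.coeff i).coeff a).coeff b ≠ 0) : m * α ≤ φ a + i * α := by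
  have h0 : (f.coeff i).coeff a ≠ 0 := by
    intro h2
    rw [h2, Polynomial.coeff_zero] at h
    exact h rfl
  rcases Nat.lt_or_ge i m with hi | hi
  · have h3 := h1.2 i hi a h0
    linarith
  · have h3 := hpos i a h0
    have h4 : (m : ℝ) ≤ i := by exact_mod_cast hi
    nlinarith

/-- Combinatorial part of the `z`-jump. `g = sw f` (polynomial in the passive variable `Z = v`,
coefficients in `k[X][u^G]` with `X = z`), `γ = α = V(z)` not a value, `Am = (Θ (0,m)).1` of level
`m α`. `g'` the transform of `g` after the jump. Then all exponents of `g'` have level `≥ m α`, and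
the coefficient of `Z^0` at the exponent `Am`, a polynomial in `X' = T - c`, is nonzero and its order
at `X' = 0` is at most `m/2` (window: the monomials `(a,0,i)` of `f` with `φ a + i α = m α`, so
`0 ≤ i ≤ m`, `i = β(Am) + d B`, `d ≥ 2`; the monomial `(0,0,m)` is one of them). -/
theorem e1_comb {φ : (Fin r → ℤ) →+ ℝ} (hφ : Function.Injective φ) (α : ℝ) (hα : 0 < α)
    (J : JD φ α) (f : (LA k[X] r)[X]) (hm : 0 < m) (h1 : C1 φ f m α)
    (hpos : ∀ i, GeL φ (f.coeff i) 0) (htop : ((f.coeff m).coeff 0).coeff 0 ≠ 0)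
    (c : k) (hc : c ≠ 0) (N : ℤ) (g' : (LA k[X] r)[X])
    (hg' : Polynomial.map (iotaL c) g' =
      Polynomial.C (TN N) * Polynomial.map (psi J.Θ) (sw f)) :
    (∀ b, GeL J.φ' (g'.coeff b) (m * α)) ∧
      ∃ i : ℕ, i < m ∧ ((g'.coeff 0).coeff (J.Θ (0, (m : ℤ))).1).coeff i ≠ 0 := by
  constructor
  · intro b A hA
    have h2 := E1_coeff J f c N g' hg' b A
    have h3 : (psi J.Θ ((sw f).coeff b)).coeff A ≠ 0 := by
      intro h4
      rw [h4, mul_zero, ← map_zero (iota c)] at h2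
      exact hA (iota_injective c h2)
    obtain ⟨B, hB⟩ : ∃ B, ((psi J.Θ ((sw f).coeff b)).coeff A).coeff B ≠ 0 := by
      by_contra hcon
      push Not at hcon
      exact h3 (AddMonoidAlgebra.ext (Finsupp.ext hcon))
    obtain ⟨a, i, -, h4, h5⟩ := E1_of_psi J f b A B hB
    rw [h4]
    exact E1_level hα f h1 hpos i b a h5
  · set Am := (J.Θ (0, (m : ℤ))).1 with hAm
    have hval : J.φ' Am = m * α := by
      rw [hAm, J.val, map_zero, zero_add, Int.cast_natCast]
    set h := (psi J.Θ ((sw f).coeff 0)).coeff Am with hh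
    have h0 : h ≠ 0 := by
      intro h2
      have h3 := psi_coeff_of J.Θ ((sw f).coeff 0) 0 m
      rw [sw_coeff, ← hAm, ← hh, h2] at h3
      exact htop (h3.symm.trans rfl)
    have hd : (2 : ℝ) ≤ (J.d : ℝ) := by exact_mod_cast J.two
    set β : ℤ := (J.Θ.symm (Am, 0)).2 with hβ
    have hwin : ∀ B : ℤ, h.coeff B ≠ 0 →
        -(β : ℝ) / J.d ≤ B ∧ (B : ℝ) ≤ ((m : ℝ) - β) / J.d := by
      intro B hB
      obtain ⟨a, i, h2, h3, h4⟩ := E1_of_psi J f 0 Am B hB
      have h5 : (i : ℤ) = β + J.d * B := by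
        have h6 : (a, (i : ℤ)) = J.Θ.symm (Am, B) := by
          rw [← h2, AddEquiv.symm_apply_apply]
        have h7 : ((Am, B) : (Fin r → ℤ) × ℤ) = (Am, 0) + B • ((0 : Fin r → ℤ), (1 : ℤ)) := by
          ext <;> simp
        rw [h7, map_add, map_zsmul] at h6
        have h8 := congrArg Prod.snd h6
        simp only [Prod.snd_add, Prod.smul_snd, J.hd] at h8
        rw [h8, ← hβ, smul_eq_mul, mul_comm]
      have h6 : (i : ℝ) = β + J.d * B := by exact_mod_cast h5
      have h7 : (0 : ℝ) ≤ i := Nat.cast_nonneg i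
      have h8 : (i : ℝ) ≤ m := by
        have h9 : (f.coeff i).coeff a ≠ 0 := by
          intro h10
          rw [h10, Polynomial.coeff_zero] at h4
          exact h4 rfl
        have h10 := hpos i a h9
        rw [hval] at h3
        by_contra hcon
        push Not at hcon
        nlinarith
      constructor
      · rw [div_le_iff₀ (by linarith)]
        linarith
      · rw [le_div_iff₀ (by linarith)]
        linarith
    have hnd : ¬ (Polynomial.X : k[X]) ^ m ∣ (g'.coeff 0).coeff Am := by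
      intro hdvd
      rw [iota_dvd c hc _ h N (E1_coeff J f c N g' hg' 0 Am)] at hdvd
      have h2 := window_ord c hc h h0 _ _ hwin m hdvd
      have h3 : ((m : ℝ) - β) / J.d - -(β : ℝ) / J.d = m / J.d := by
        rw [← sub_div]
        congr 1
        ring
      rw [h3, le_div_iff₀ (by linarith)] at h2
      have h4 : (0 : ℝ) < m := by exact_mod_cast hm
      nlinarith
    rw [Polynomial.X_pow_dvd_iff] at hnd
    push Not at hnd
    obtain ⟨i, hi, hne⟩ := hnd
    exact ⟨i, hi, hne⟩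

/-- E1: `V(z) = α` is not a value of the monomials. `Pre.swp`, `pre_jump`, `Pre.scale` with `A = 0`,
`C = Am`, `Pre.swp`; the new multiplicity is the smallest `i` of `e1_comb`. -/
theorem step_e1 (S : State V r m) (hm : 0 < m) (α : ℝ) (h1 : C1 S.φ S.f m α)
    (hα : ∀ A, S.φ A ≠ α) (hy : S.y.fst ≠ 0) (hv : V.v S.y.fst = α)
    (J : JD S.φ (V.v S.y.fst)) : ∃ m', m' < m ∧ Nonempty (State V r m') := by
  classical
  have hα0 : 0 < V.v S.y.fst := lt_of_gt hy S.y_pos
  rw [← hv] at h1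
  obtain ⟨S', c, N, hc, hφ, hy', -, hf⟩ := pre_jump (Pre.swp S.toPre) hy J
  have hy2 : S'.y = S.x := hy'
  have hf2 : Polynomial.map (iotaL c) S'.f =
      Polynomial.C (TN N) * Polynomial.map (psi J.Θ) (sw S.f) := hf
  obtain ⟨hlev, i0, hi0, hne0⟩ := e1_comb S.inj (V.v S.y.fst) hα0 J S.f hm h1 S.pos S.top c hc N
    S'.f hf2
  set Am := (J.Θ (0, (m : ℤ))).1 with hAm
  have hval : J.φ' Am = m * V.v S.y.fst := by
    rw [hAm, J.val, map_zero, zero_add, Int.cast_natCast]
  have hex : ∃ i, ((S'.f.coeff 0).coeff Am).coeff i ≠ 0 := ⟨i0, hne0⟩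
  have hgt : V.Gt S'.y.fst (S'.φ 0) := by
    rw [hy2, map_zero]
    exact S.x_pos
  let P := Pre.swp (S'.scale 0 Am hgt)
  have hPf : ∀ (i b : ℕ) (a : Fin r → ℤ), ((P.f.coeff i).coeff a).coeff b =
      ((S'.f.coeff b).coeff (a + Am)).coeff i := by
    intro i b a
    change (((sw (scl 0 Am S'.f)).coeff i).coeff a).coeff b = _
    rw [sw_coeff, scl_coeff, smul_zero, sub_zero]
  have hPx : P.x = S.x := by
    change S'.U (Multiplicative.ofAdd (-0)) * S'.y = S.x
    rw [neg_zero, ofAdd_zero, map_one, one_mul, hy2]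
  refine ⟨Nat.find hex, lt_of_le_of_lt (Nat.find_min' hex hne0) hi0, ⟨{
    toPre := P
    x_ne := ?_
    pos := ?_
    low := ?_
    top := ?_ }⟩⟩
  · rw [hPx]
    exact S.x_ne
  · intro i a ha
    change 0 ≤ S'.φ a
    obtain ⟨b, hb⟩ : ∃ b, ((P.f.coeff i).coeff a).coeff b ≠ 0 := by
      by_contra hcon
      push Not at hcon
      exact ha (Polynomial.ext hcon)
    rw [hPf] at hb
    have h2 : (S'.f.coeff b).coeff (a + Am) ≠ 0 := by
      intro h3
      rw [h3, Polynomial.coeff_zero] at hb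
      exact hb rfl
    have h3 := hlev b _ h2
    rw [map_add, hval] at h3
    rw [hφ]
    linarith
  · intro i hi
    rw [hPf, zero_add]
    exact not_not.1 (Nat.find_min hex hi)
  · rw [hPf, zero_add]
    exact Nat.find_spec hex

end LX
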