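import Pool.Agent.helper90.LX.StateJump
import Pool.Agent.helper90.LX.DLe
import Pool.Agent.helper90.LX.RootVal

namespace LX

open Polynomial LaurentPolynomial

variable {k K : Type*} [Field k] [Field K] [Algebra k K] {V : RV k K} {r m : ℕ}

/-- Rescaling: `f_j` has the monomial `u^aj` on the line, the `f_i`, `i < j`, lie strictly above the
line of slope `δ = φ Δ > α` through that monomial, `V(z) > δ`: then `Pre.scale` with `A = Δ`,
`C = aj + j • Δ` is a state of multiplicity `j`. -/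
theorem rescale (S : State V r m) (j : ℕ) (hj : j < m) (α : ℝ) (h1 : C1 S.φ S.f m α)
    (aj : Fin r → ℤ) (haj : S.φ aj = ((m : ℝ) - j) * α)
    (hne : ((S.f.coeff j).coeff aj).coeff 0 ≠ 0) (Δ : Fin r → ℤ) (hΔ : α < S.φ Δ)
    (hlow : ∀ i, i < j → GtL S.φ (S.f.coeff i) (((m : ℝ) - j) * α + ((j : ℝ) - i) * S.φ Δ))
    (hy : V.Gt S.y.fst (S.φ Δ)) : Nonempty (State V r j) := by
  have hlev : ∀ (i : ℕ) (a : Fin r → ℤ), S.φ (a + (aj + j • Δ) - i • Δ) =
      S.φ a + ((m : ℝ) - j) * α + ((j : ℝ) - i) * S.φ Δ := by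
    intro i a
    rw [map_sub, map_add, map_add, map_nsmul, map_nsmul, haj]
    simp only [nsmul_eq_mul]
    ring
  have hjm : (j : ℝ) < m := by exact_mod_cast hj
  refine ⟨{ toPre := S.toPre.scale Δ (aj + j • Δ) hy
            x_ne := S.x_ne
            pos := ?_
            low := ?_
            top := ?_ }⟩
  · intro i a ha
    have ha' : (S.f.coeff i).coeff (a + (aj + j • Δ) - i • Δ) ≠ 0 := by
      rw [← scl_coeff]; exact ha
    have h0 := hlev i a
    change 0 ≤ S.φ a
    rcases lt_or_ge i j with h | h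
    · have := hlow i h _ ha'
      linarith
    · have hij : (j : ℝ) ≤ i := by exact_mod_cast h
      rcases lt_or_ge i m with h2 | h2
      · have := h1.2 i h2 _ ha'
        nlinarith
      · have := S.pos i _ ha'
        have him : (m : ℝ) ≤ i := by exact_mod_cast h2
        have hα := h1.1
        nlinarith [mul_nonneg (sub_nonneg.2 him) (hα.trans hΔ.le),
          mul_nonneg (sub_nonneg.2 hjm.le) (sub_nonneg.2 hΔ.le)]
  · intro i hi
    change (((scl Δ (aj + j • Δ) S.f).coeff i).coeff 0).coeff 0 = 0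
    rw [scl_coeff, gtL_coeff_zero (hlow i hi), Polynomial.coeff_zero]
    rw [hlev, map_zero, zero_add]
  · change (((scl Δ (aj + j • Δ) S.f).coeff j).coeff 0).coeff 0 ≠ 0
    rw [scl_coeff, zero_add, add_sub_cancel_right]
    exact hne

/-- the least index `j` with a monomial `(a, X^0)` on the line; after one jump (with `t = 0`) all
`f_i`, `i < j`, lie strictly above the line of slope `α` through `(m,0)`. -/
theorem e2_jump (hstd : Std V r) (S : State V r m) (J : JD S.φ (V.v S.x.fst)) (α : ℝ)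
    (h1 : C1 S.φ S.f m α) (j : ℕ) (hj : j < m) (aj : Fin r → ℤ)
    (haj : S.φ aj = ((m : ℝ) - j) * α) (hne : ((S.f.coeff j).coeff aj).coeff 0 ≠ 0)
    (hmin : ∀ i, i < j → ∀ a, S.φ a = ((m : ℝ) - i) * α →
      ((S.f.coeff i).coeff a).coeff 0 = 0) :
    ∃ S' : State V r m, C1 S'.φ S'.f m α ∧ S'.y = S.y ∧
      (∃ aj', S'.φ aj' = ((m : ℝ) - j) * α ∧ ((S'.f.coeff j).coeff aj').coeff 0 ≠ 0) ∧
      ∀ i, i < j → GtL S'.φ (S'.f.coeff i) (((m : ℝ) - i) * α) := by
  obtain ⟨S', c, N, hc, hφ', hy', hf'⟩ := state_jump hstd S J 0 (geL_zero 0) (by simp)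
  rw [Polynomial.taylor_zero] at hf'
  have hγ : 0 < V.v S.x.fst := lt_of_gt S.x_ne S.x_pos
  have hgl := fun i s => geL_of_jump (φ' := J.φ') c N S'.f _ hf' i s
  refine ⟨S', ⟨h1.1, fun i hi => ?_⟩, ?_, ⟨(J.Θ (aj, 0)).1, ?_, ?_⟩, fun i hi => ?_⟩
  · rw [hφ', (hgl i _).1, Polynomial.coeff_map]
    exact psi_geL S.inj hγ J (h1.2 i hi)
  · rw [hy', map_zero, sub_zero]
  · rw [hφ', J.val, haj]; simp
  · have hpsi : (psi J.Θ (S.f.coeff j)).coeff (J.Θ (aj, 0)).1 =
        T (J.Θ (aj, 0)).2 * LaurentPolynomial.C (((S.f.coeff j).coeff aj).coeff 0) := by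
      have hs : T (J.Θ (aj, 0)).2 * LaurentPolynomial.C (((S.f.coeff j).coeff aj).coeff 0) =
          (AddMonoidAlgebra.single (J.Θ (aj, 0)).2 (((S.f.coeff j).coeff aj).coeff 0) : k[T;T⁻¹]) := by
        rw [LaurentPolynomial.single_eq_C_mul_T, mul_comm]
      rw [hs]
      ext B
      by_cases hB : B = (J.Θ (aj, 0)).2
      · subst hB
        have := psi_coeff_of J.Θ (S.f.coeff j) aj 0
        rw [Nat.cast_zero] at this
        rw [this, AddMonoidAlgebra.coeff_single, Finsupp.single_eq_same]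
      · have h2 : (AddMonoidAlgebra.single (J.Θ (aj, 0)).2
            (((S.f.coeff j).coeff aj).coeff 0) : k[T;T⁻¹]).coeff B = 0 := by
          rw [AddMonoidAlgebra.coeff_single, Finsupp.single_eq_of_ne hB]
        rw [h2]
        by_contra h3
        obtain ⟨a, b, hab, hco⟩ := exists_of_psi J.Θ (S.f.coeff j) _ B h3
        have hv := J.val a (b : ℤ)
        have hv0 := J.val aj 0
        rw [hab] at hv
        rw [haj] at hv0
        have hge := h1.2 j hj a (fun h => hco (by rw [h]; simp))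
        push_cast at hv hv0
        have hb0 : (0 : ℝ) ≤ b := Nat.cast_nonneg b
        have hbz : b = 0 := by
          rcases Nat.eq_zero_or_pos b with h | h
          · exact h
          · have : (0 : ℝ) < b := by exact_mod_cast h
            have := mul_pos this hγ
            linarith
        subst hbz
        have haa : a = aj := by
          apply S.inj
          rw [haj]
          simp only [Nat.cast_zero, zero_mul, add_zero] at hv hv0
          rw [← hv, hv0]
        subst haa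
        apply hB
        rw [Nat.cast_zero] at hab
        rw [hab]
    have h4 : iota c ((S'.f.coeff j).coeff (J.Θ (aj, 0)).1) =
        T ((N : ℤ) + (J.Θ (aj, 0)).2) * LaurentPolynomial.C (((S.f.coeff j).coeff aj).coeff 0) := by
      rw [← iotaL_coeff, ← Polynomial.coeff_map, hf', Polynomial.coeff_C_mul,
        TN_mul_coeff, Polynomial.coeff_map, hpsi, T_add, mul_assoc]
    rw [iota_const c hc _ _ _ h4]
    exact mul_ne_zero (zpow_ne_zero _ hc) hne
  · rw [hφ', (hgl i _).2, Polynomial.coeff_map]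
    intro A hA
    have hex : ∃ B, ((psi J.Θ (S.f.coeff i)).coeff A).coeff B ≠ 0 := by
      by_contra h
      push Not at h
      apply hA
      ext B
      exact h B
    obtain ⟨B, hB⟩ := hex
    obtain ⟨a, b, hab, hco⟩ := exists_of_psi J.Θ (S.f.coeff i) A B hB
    have hv := J.val a (b : ℤ)
    rw [hab] at hv
    have hge := h1.2 i (hi.trans hj) a (fun h => hco (by rw [h]; simp))
    rw [hv]
    rcases Nat.eq_zero_or_pos b with h | h
    · subst h
      have hn : S.φ a ≠ ((m : ℝ) - i) * α := fun h => hco (hmin i hi a h)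
      have := lt_of_le_of_ne hge (Ne.symm hn)
      simpa using this
    · have : (0 : ℝ) < b := by exact_mod_cast h
      have := mul_pos this hγ
      push_cast
      linarith

/-- density of the values for `r ≥ 2` -/
theorem dense_phi (hr : 2 ≤ r) (φ : (Fin r → ℤ) →+ ℝ) (hφ : Function.Injective φ) (a b : ℝ)
    (hab : a < b) : ∃ A, a < φ A ∧ φ A < b := by
  rcases AddSubgroup.dense_or_cyclic φ.range with h | ⟨g, hg⟩
  · obtain ⟨c, ⟨A, rfl⟩, h1, h2⟩ := h.exists_between hab
    exact ⟨A, h1, h2⟩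
  · exfalso
    have hmem : ∀ A, ∃ n : ℤ, n • g = φ A := by
      intro A
      have : φ A ∈ φ.range := ⟨A, rfl⟩
      rw [hg, AddSubgroup.mem_closure_singleton] at this
      exact this
    have h01 : (⟨0, by omega⟩ : Fin r) ≠ ⟨1, by omega⟩ := by simp
    obtain ⟨n0, h0⟩ := hmem (Pi.single ⟨0, by omega⟩ 1)
    obtain ⟨n1, h1⟩ := hmem (Pi.single ⟨1, by omega⟩ 1)
    have h2 : φ (n1 • (Pi.single (⟨0, by omega⟩ : Fin r) (1 : ℤ) : Fin r → ℤ)) =
        φ (n0 • (Pi.single (⟨1, by omega⟩ : Fin r) (1 : ℤ) : Fin r → ℤ)) := by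
      rw [map_zsmul, map_zsmul, ← h0, ← h1, smul_smul, smul_smul, mul_comm]
    have h3 := hφ h2
    have h4 := congrFun h3 ⟨1, by omega⟩
    simp at h4
    have h5 : φ (Pi.single (⟨1, by omega⟩ : Fin r) (1 : ℤ) : Fin r → ℤ) = φ 0 := by
      have h6 := congrFun h3 ⟨0, by omega⟩
      simp at h6
      rw [← h1, h6]; simp
    have h7 := congrFun (hφ h5) ⟨1, by omega⟩
    simp at h7

/-- E2: `V(z) > α`, `C2` with `m B < 1`. -/
theorem step_e2 (hr : 2 ≤ r) (hstd : Std V r) (S : State V r m) (J : JD S.φ (V.v S.x.fst))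
    (α B : ℝ) (h1 : C1 S.φ S.f m α) (h2 : C2 S.φ S.f m α B) (hB : m * B < 1)
    (hy : V.Gt S.y.fst α) : ∃ m', m' < m ∧ Nonempty (State V r m') := by
  classical
  obtain ⟨i, him, a, ha, b, hb, hco⟩ := h2 0 (geL_zero α)
  rw [Polynomial.taylor_zero] at hco
  have him' : (i : ℝ) < m := by exact_mod_cast him
  have hi0 : (0 : ℝ) ≤ i := Nat.cast_nonneg i
  have hb1 : (b : ℝ) < 1 := by
    refine lt_of_le_of_lt hb ?_
    rcases le_or_gt 0 B with h | h
    · nlinarith
    · nlinarith
  have hb0 : b = 0 := by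
    have : b < 1 := by exact_mod_cast hb1
    omega
  subst hb0
  have hex : ∃ j, j < m ∧ ∃ a, S.φ a = ((m : ℝ) - j) * α ∧ ((S.f.coeff j).coeff a).coeff 0 ≠ 0 :=
    ⟨i, him, a, ha, hco⟩
  obtain ⟨hj, aj, haj, hne⟩ := Nat.find_spec hex
  have hmin : ∀ i, i < Nat.find hex → ∀ a, S.φ a = ((m : ℝ) - i) * α →
      ((S.f.coeff i).coeff a).coeff 0 = 0 := by
    intro i hi a ha
    by_contra hne
    exact Nat.find_min hex hi ⟨hi.trans hj, a, ha, hne⟩
  generalize Nat.find hex = j at *
  obtain ⟨S', h1', hy', ⟨aj', haj', hne'⟩, hlow⟩ := e2_jump hstd S J α h1 j hj aj haj hne hmin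
  have hev : ∀ᶠ s in nhds α, (∀ i ∈ Finset.range j, ∀ a ∈ (S'.f.coeff i).coeff.support,
      ((m : ℝ) - j) * α + ((j : ℝ) - i) * s < S'.φ a) ∧
      (S'.y.fst ≠ 0 → s < V.v S'.y.fst) := by
    refine Filter.Eventually.and ?_ ?_
    · rw [Filter.eventually_all_finset]
      intro i hi
      rw [Filter.eventually_all_finset]
      intro a ha
      have h := hlow i (Finset.mem_range.1 hi) a (Finsupp.mem_support_iff.1 ha)
      have hcont : Continuous (fun s : ℝ => ((m : ℝ) - j) * α + ((j : ℝ) - i) * s) := by fun_prop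
      apply hcont.continuousAt.eventually_lt continuousAt_const
      linarith
    · by_cases h0 : S'.y.fst = 0
      · exact Filter.Eventually.of_forall fun s h => absurd h0 h
      · rw [hy'] at h0 ⊢
        filter_upwards [eventually_lt_nhds (lt_of_gt h0 hy)] with s hs _ using hs
  obtain ⟨l, u, hlu, hsub⟩ := mem_nhds_iff_exists_Ioo_subset.1 hev
  obtain ⟨Δ, hΔ1, hΔ2⟩ := dense_phi hr S'.φ S'.inj α u hlu.2
  have hΔ := hsub (show S'.φ Δ ∈ Set.Ioo l u from ⟨hlu.1.trans hΔ1, hΔ2⟩)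
  refine ⟨j, hj, rescale S' j hj α h1' aj' haj' hne' Δ hΔ1 (fun i hi a ha => ?_) ?_⟩
  · exact hΔ.1 i (Finset.mem_range.2 hi) a (Finsupp.mem_support_iff.2 ha)
  · by_cases h0 : S'.y.fst = 0
    · exact Or.inl h0
    · exact Or.inr (hΔ.2 h0)

end LX
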