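import Pool.Agent.helper90.LX.Defs

namespace LX

/-- the homomorphism `(a,b) ↦ φ a + b γ` -/
noncomputable def Lat_psi {r : ℕ} (φ : (Fin r → ℤ) →+ ℝ) (γ : ℝ) :
    ((Fin r → ℤ) × ℤ) →ₗ[ℤ] ℝ :=
  AddMonoidHom.toIntLinearMap
    { toFun := fun w => φ w.1 + w.2 * γ
      map_zero' := by simp
      map_add' := by
        intro x y
        simp only [Prod.fst_add, Prod.snd_add, map_add, Int.cast_add]
        ring }

theorem Lat_psi_apply {r : ℕ} (φ : (Fin r → ℤ) →+ ℝ) (γ : ℝ) (a : Fin r → ℤ) (b : ℤ) :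
    Lat_psi φ γ (a, b) = φ a + b * γ := rfl

/-- the kernel of `(a,b) ↦ φ a + b γ` is generated by `(-μ, d)` -/
theorem Lat_min {r : ℕ} (φ : (Fin r → ℤ) →+ ℝ) (hφ : Function.Injective φ) (γ : ℝ)
    (n : ℕ) (hn : 0 < n) (a : Fin r → ℤ) (ha : φ a = n * γ) :
    ∃ (d : ℕ) (μ : Fin r → ℤ), 0 < d ∧ φ μ = d * γ ∧
      ∀ (a : Fin r → ℤ) (b : ℤ), φ a + b * γ = 0 →
        ∃ q : ℤ, (a, b) = q • ((-μ, (d : ℤ)) : (Fin r → ℤ) × ℤ) := by
  classical
  have hex : ∃ d : ℕ, 0 < d ∧ ∃ μ : Fin r → ℤ, φ μ = d * γ := ⟨n, hn, a, ha⟩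
  obtain ⟨hd0, μ, hμ⟩ := Nat.find_spec hex
  have hmin : ∀ m : ℕ, m < Nat.find hex → ¬ (0 < m ∧ ∃ μ : Fin r → ℤ, φ μ = m * γ) :=
    fun m hm => Nat.find_min hex hm
  generalize Nat.find hex = d at hd0 hμ hmin
  refine ⟨d, μ, hd0, hμ, ?_⟩
  intro a' b hab
  have hdz : (0 : ℤ) < (d : ℤ) := by exact_mod_cast hd0
  have hb := Int.mul_ediv_add_emod b (d : ℤ)
  have hr0 : 0 ≤ b % (d : ℤ) := Int.emod_nonneg b hdz.ne'
  have hr1 : b % (d : ℤ) < d := Int.emod_lt_of_pos b hdz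
  obtain ⟨t, ht⟩ := Int.eq_ofNat_of_zero_le hr0
  have hcast : (b : ℝ) = d * ((b / (d : ℤ) : ℤ) : ℝ) + t := by
    have : (b : ℤ) = d * (b / (d : ℤ)) + t := by rw [← ht]; exact hb.symm
    exact_mod_cast this
  have ht0 : t = 0 := by
    by_contra hne
    have htd : t < d := by
      rw [ht] at hr1
      exact_mod_cast hr1
    refine hmin t htd ⟨Nat.pos_of_ne_zero hne, -a' - (b / (d : ℤ)) • μ, ?_⟩
    rw [map_sub, map_neg, map_zsmul, hμ, zsmul_eq_mul]
    have h1 : φ a' = - (b * γ) := by linarith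
    rw [h1, hcast]
    ring
  have hbq : b = (b / (d : ℤ)) * d := by
    rw [ht0, Nat.cast_zero] at ht
    rw [ht] at hb
    linarith
  refine ⟨b / (d : ℤ), ?_⟩
  have h2 : a' = (b / (d : ℤ)) • (-μ) := by
    apply hφ
    rw [map_zsmul, map_neg, hμ, zsmul_eq_mul]
    have h1 : φ a' = - (b * γ) := by linarith
    rw [h1, hcast, ht0]
    simp only [Nat.cast_zero]
    ring
  have h3 : (b / (d : ℤ)) • ((-μ, (d : ℤ)) : (Fin r → ℤ) × ℤ) =
      ((b / (d : ℤ)) • (-μ), (b / (d : ℤ)) • (d : ℤ)) := rfl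
  rw [h3, ← h2, smul_eq_mul, ← hbq]

/-- Existence of jump data: the kernel of `(a,b) ↦ φ a + b γ` on `ℤ^r × ℤ` is generated by a primitive
vector `(-μ, d)`, `d ≥ 2` because `γ` is not a value of `φ`; the quotient is free of rank `r` (torsion
free and finitely generated), so there is `Θ : ℤ^r × ℤ ≃ ℤ^r × ℤ` sending `(-μ,d)` to `(0,1)`;
`φ'` is induced. -/
theorem exists_jd {r : ℕ} (φ : (Fin r → ℤ) →+ ℝ) (hφ : Function.Injective φ) (γ : ℝ)
    (hγ : ∀ a, φ a ≠ γ) (n : ℕ) (hn : 0 < n) (a : Fin r → ℤ) (ha : φ a = n * γ) :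
    Nonempty (JD φ γ) := by
  obtain ⟨d, μ, hd0, hμ, hker⟩ := Lat_min φ hφ γ n hn a ha
  have hd2 : 2 ≤ d := by
    by_contra hlt
    have h1 : d = 1 := by omega
    rw [h1, Nat.cast_one, one_mul] at hμ
    exact hγ μ hμ
  set w : (Fin r → ℤ) × ℤ := (-μ, (d : ℤ)) with hw
  have hw0 : w ≠ 0 := by
    intro h
    have h1 : (d : ℤ) = 0 := congrArg Prod.snd h
    omega
  have hψw : Lat_psi φ γ w = 0 := by
    rw [hw, Lat_psi_apply, map_neg, hμ]
    push_cast
    ring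
  have hkereq : LinearMap.ker (Lat_psi φ γ) = Submodule.span ℤ {w} := by
    ext ⟨a', b⟩
    rw [LinearMap.mem_ker, Submodule.mem_span_singleton, Lat_psi_apply]
    constructor
    · intro h
      obtain ⟨q, hq⟩ := hker a' b h
      exact ⟨q, hq.symm⟩
    · rintro ⟨q, hq⟩
      have h1 : Lat_psi φ γ (q • w) = 0 := by rw [map_smul, hψw, smul_zero]
      rw [hq, Lat_psi_apply] at h1
      exact h1
  have hk1 : Module.finrank ℤ (LinearMap.ker (Lat_psi φ γ)) = 1 := by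
    rw [hkereq, ← (LinearEquiv.toSpanNonzeroSingleton ℤ _ w hw0).finrank_eq]
    exact Module.finrank_self ℤ
  have hM : Module.finrank ℤ ((Fin r → ℤ) × ℤ) = r + 1 := by
    rw [Module.finrank_prod, Module.finrank_fin_fun, Module.finrank_self]
  have hR : Module.finrank ℤ (LinearMap.range (Lat_psi φ γ)) = r := by
    have h1 := Submodule.finrank_quotient_add_finrank (LinearMap.ker (Lat_psi φ γ))
    rw [hk1, hM, (LinearMap.quotKerEquivRange (Lat_psi φ γ)).finrank_eq] at h1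
    omega
  have : Module.Free ℤ (LinearMap.range (Lat_psi φ γ)) := Module.free_of_finite_type_torsion_free'
  let e : LinearMap.range (Lat_psi φ γ) ≃ₗ[ℤ] (Fin r → ℤ) :=
    (Module.finBasisOfFinrankEq ℤ (LinearMap.range (Lat_psi φ γ)) hR).equivFun
  obtain ⟨s, hs⟩ := Module.projective_lifting_property (Lat_psi φ γ).rangeRestrict
    (LinearMap.id) (LinearMap.surjective_rangeRestrict (Lat_psi φ γ))
  have hs' : ∀ y : LinearMap.range (Lat_psi φ γ), Lat_psi φ γ (s y) = y := by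
    intro y
    have h1 := LinearMap.congr_fun hs y
    exact congrArg Subtype.val h1
  let Ξ : ((Fin r → ℤ) × ℤ) →ₗ[ℤ] ((Fin r → ℤ) × ℤ) :=
    LinearMap.coprod (s ∘ₗ e.symm.toLinearMap) (LinearMap.toSpanSingleton ℤ _ w)
  have hΞ : ∀ x c, Ξ (x, c) = s (e.symm x) + c • w := fun x c => rfl
  have hψΞ : ∀ x c, Lat_psi φ γ (Ξ (x, c)) = (e.symm x : ℝ) := by
    intro x c
    rw [hΞ, map_add, hs', map_smul, hψw, smul_zero, add_zero]
  have hinj : Function.Injective Ξ := by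
    rw [injective_iff_map_eq_zero]
    rintro ⟨x, c⟩ h
    have h1 := hψΞ x c
    rw [h, map_zero] at h1
    have h2 : e.symm x = 0 := Subtype.ext h1.symm
    have h3 : x = 0 := by
      have := congrArg e h2
      rwa [LinearEquiv.apply_symm_apply, map_zero] at this
    rw [hΞ, h2, map_zero, zero_add] at h
    have h4 : c * (d : ℤ) = 0 := congrArg Prod.snd h
    have h5 : c = 0 := by
      rcases mul_eq_zero.1 h4 with h | h
      · exact h
      · omega
    rw [h3, h5]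
    rfl
  have hsurj : Function.Surjective Ξ := by
    intro m
    have h1 : m - s ((Lat_psi φ γ).rangeRestrict m) ∈ LinearMap.ker (Lat_psi φ γ) := by
      rw [LinearMap.mem_ker, map_sub, hs']
      exact sub_self _
    rw [hkereq, Submodule.mem_span_singleton] at h1
    obtain ⟨q, hq⟩ := h1
    refine ⟨(e ((Lat_psi φ γ).rangeRestrict m), q), ?_⟩
    rw [hΞ, LinearEquiv.symm_apply_apply, hq]
    abel
  let E := LinearEquiv.ofBijective Ξ ⟨hinj, hsurj⟩
  have hE : ∀ m, E m = Ξ m := fun m => rfl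
  refine ⟨{
    φ' := ((LinearMap.range (Lat_psi φ γ)).subtype ∘ₗ e.symm.toLinearMap).toAddMonoidHom
    Θ := E.symm.toAddEquiv
    d := d
    inj := ?_
    two := hd2
    val := ?_
    hd := ?_ }⟩
  · intro x y h
    have h1 : (e.symm x : ℝ) = (e.symm y : ℝ) := h
    exact e.symm.injective (Subtype.ext h1)
  · intro a' b
    have h1 := hψΞ (E.symm (a', b)).1 (E.symm (a', b)).2
    have h2 : Ξ ((E.symm (a', b)).1, (E.symm (a', b)).2) = (a', b) := by
      change Ξ (E.symm (a', b)) = (a', b)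
      rw [← hE, LinearEquiv.apply_symm_apply]
    rw [h2, Lat_psi_apply] at h1
    exact h1.symm
  · change (E (0, 1)).2 = (d : ℤ)
    rw [hE, hΞ, map_zero, map_zero, zero_add, one_smul]

end LX
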