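import Pool.Agent.helper90.LX.EvDefs
import Pool.Agent.helper90.LX.GrpFin

namespace LX

open Polynomial

variable {k K : Type*} [Field k] [Field K] [Algebra k K] {V : RV k K} {r : ℕ}

/-- the `r + 1` elements with independent values -/
noncomputable def Torsion_X (U : Multiplicative (Fin r → ℤ) →* K) (z : K) : Option (Fin r) → K
  | none => z
  | some i => U (Multiplicative.ofAdd (Pi.single i 1))

/-- the exponent vector of a monomial -/
def Torsion_a (m : Option (Fin r) →₀ ℕ) : Fin r → ℤ := fun i => (m (some i) : ℤ)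

theorem Torsion_a_eq (m : Option (Fin r) →₀ ℕ) :
    Torsion_a m = ∑ i : Fin r, (m (some i)) • (Pi.single i (1 : ℤ) : Fin r → ℤ) := by
  funext j
  rw [Finset.sum_apply]
  simp [Torsion_a, Pi.single_apply]

theorem Torsion_mon (U : Multiplicative (Fin r → ℤ) →* K) (z : K) (m : Option (Fin r) →₀ ℕ) :
    ∏ i, Torsion_X U z i ^ m i = z ^ m none * U (Multiplicative.ofAdd (Torsion_a m)) := by
  rw [Fintype.prod_option, Torsion_a_eq, ofAdd_sum, map_prod]
  simp only [Torsion_X, ofAdd_nsmul, map_pow]

theorem Torsion_inj {φ : (Fin r → ℤ) →+ ℝ} (hφ : Function.Injective φ) {s : ℝ}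
    (h : ∀ (n : ℕ) (a : Fin r → ℤ), 0 < n → φ a ≠ n * s) (m m' : Option (Fin r) →₀ ℕ)
    (he : m none * s + φ (Torsion_a m) = m' none * s + φ (Torsion_a m')) : m = m' := by
  have h1 : m none = m' none := by
    rcases lt_trichotomy (m none) (m' none) with h2 | h2 | h2
    · exfalso
      refine h (m' none - m none) (Torsion_a m - Torsion_a m') (by omega) ?_
      rw [map_sub, Nat.cast_sub h2.le]
      linarith
    · exact h2
    · exfalso
      refine h (m none - m' none) (Torsion_a m' - Torsion_a m) (by omega) ?_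
      rw [map_sub, Nat.cast_sub h2.le]
      linarith
  have h3 : Torsion_a m = Torsion_a m' := by
    apply hφ
    rw [h1] at he
    linarith
  ext i
  cases i with
  | none => exact h1
  | some i =>
    have h4 := congrFun h3 i
    simp only [Torsion_a] at h4
    exact_mod_cast h4

theorem Torsion_aeval {φ : (Fin r → ℤ) →+ ℝ} (hφ : Function.Injective φ)
    {U : Multiplicative (Fin r → ℤ) →* K} (hU : Mon V φ U) {z : K} (hz : z ≠ 0)
    (h : ∀ (n : ℕ) (a : Fin r → ℤ), 0 < n → φ a ≠ n * V.v z)
    (p : MvPolynomial (Option (Fin r)) k) (hp : p ≠ 0) :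
    MvPolynomial.aeval (Torsion_X U z) p ≠ 0 ∧
      ∃ (n : ℕ) (a : Fin r → ℤ), V.v (MvPolynomial.aeval (Torsion_X U z) p) = n * V.v z + φ a := by
  classical
  have h1 : MvPolynomial.aeval (Torsion_X U z) p = ∑ d ∈ p.support,
      algebraMap k K (p.coeff d) * (z ^ d none * U (Multiplicative.ofAdd (Torsion_a d))) := by
    rw [MvPolynomial.aeval_def, MvPolynomial.eval₂_eq']
    exact Finset.sum_congr rfl (fun d _ => by rw [Torsion_mon])
  have hc : ∀ d ∈ p.support, algebraMap k K (p.coeff d) ≠ 0 := by
    intro d hd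
    rw [Ne, map_eq_zero]
    exact MvPolynomial.mem_support_iff.mp hd
  have h0 : ∀ d ∈ p.support,
      algebraMap k K (p.coeff d) * (z ^ d none * U (Multiplicative.ofAdd (Torsion_a d))) ≠ 0 :=
    fun d hd => mul_ne_zero (hc d hd) (mul_ne_zero (pow_ne_zero _ hz) (hU.ne _))
  have hv : ∀ d ∈ p.support,
      V.v (algebraMap k K (p.coeff d) * (z ^ d none * U (Multiplicative.ofAdd (Torsion_a d))))
        = d none * V.v z + φ (Torsion_a d) := by
    intro d hd
    rw [V.map_mul _ _ (hc d hd) (mul_ne_zero (pow_ne_zero _ hz) (hU.ne _)),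
      V.map_const _ (MvPolynomial.mem_support_iff.mp hd),
      V.map_mul _ _ (pow_ne_zero _ hz) (hU.ne _), v_pow hz, hU.val, zero_add]
  have hs : p.support.Nonempty := by
    rw [Finset.nonempty_iff_ne_empty, Ne, MvPolynomial.support_eq_empty]
    exact hp
  obtain ⟨h2, d, hd, h3⟩ := val_sum V p.support hs _ h0 (fun d hd d' hd' he => by
    rw [hv d hd, hv d' hd'] at he
    exact Torsion_inj hφ h d d' he)
  rw [h1]
  exact ⟨h2, d none, Torsion_a d, h3.trans (hv d hd)⟩

/-- Every value is torsion modulo the values of the monomials: otherwise the `r + 1` elements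
`U(e_1), .., U(e_r), z` have independent values, so the monomials in them have distinct values
(`val_sum`), they are algebraically independent, `K` is finite over `E = k(u,z)`, the values on
`k[u^±, z^±]` lie in `φ(ℤ^r) + ℤ v(z)`, so do those of `E` (`val_adjoin`), and the value group would be
finitely generated (`fg_of_finite`). -/
theorem torsion [Algebra.EssFiniteType k K] (hstd : Std V r) (φ : (Fin r → ℤ) →+ ℝ)
    (hφ : Function.Injective φ) (U : Multiplicative (Fin r → ℤ) →* K) (hU : Mon V φ U) (z : K)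
    (hz : z ≠ 0) : ∃ (n : ℕ) (a : Fin r → ℤ), 0 < n ∧ φ a = n * V.v z := by
  classical
  by_contra hcon
  have h : ∀ (n : ℕ) (a : Fin r → ℤ), 0 < n → φ a ≠ n * V.v z :=
    fun n a hn he => hcon ⟨n, a, hn, he⟩
  set X := Torsion_X U z with hXdef
  have hX : AlgebraicIndependent k X := by
    rw [algebraicIndependent_iff]
    intro p hp
    by_contra hp0
    exact (Torsion_aeval (V := V) hφ hU hz h p hp0).1 hp
  have hb : IsTranscendenceBasis k X := by
    refine hX.isTranscendenceBasis_of_lift_trdeg_le_of_finite ?_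
    rw [hstd.tr]
    simp
  have halg := hb.isAlgebraic_field
  have hess : Algebra.EssFiniteType (IntermediateField.adjoin k (Set.range X)) K :=
    Algebra.EssFiniteType.of_comp k _ K
  have hfin : FiniteDimensional (IntermediateField.adjoin k (Set.range X)) K :=
    Algebra.finite_of_essFiniteType_of_isAlgebraic
  let F : (Fin r → ℤ) × ℤ →+ ℝ := φ.coprod (zmultiplesHom ℝ (V.v z))
  have hF : ∀ a b, F (a, b) = φ a + b * V.v z := by
    intro a b
    simp [F]
  have hΓ : F.range.FG := by
    have h1 : AddGroup.FG ((Fin r → ℤ) × ℤ) := inferInstance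
    exact (AddGroup.fg_iff_addSubgroup_fg _).mp (AddGroup.fg_of_surjective
      (f := F.rangeRestrict) F.rangeRestrict_surjective)
  have hA : ∀ x ∈ Algebra.adjoin k (Set.range X), x ≠ 0 → V.v x ∈ F.range := by
    intro x hx hx0
    rw [Algebra.adjoin_range_eq_range_aeval] at hx
    obtain ⟨p, rfl⟩ := hx
    have hp : p ≠ 0 := by
      rintro rfl
      exact hx0 (map_zero _)
    obtain ⟨-, n, a, h2⟩ := Torsion_aeval (V := V) hφ hU hz h p hp
    refine ⟨(a, (n : ℤ)), ?_⟩
    rw [hF]
    refine Eq.trans ?_ h2.symm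
    push_cast
    ring
  have hE : ∀ x ∈ IntermediateField.adjoin k (Set.range X), x ≠ 0 → V.v x ∈ F.range := by
    intro x hx hx0
    refine val_adjoin V (Algebra.adjoin k (Set.range X)) F.range hA x ?_ hx0
    exact IntermediateField.adjoin.mono k _ _ Algebra.subset_adjoin hx
  exact hstd.nfg (fg_of_finite V _ F.range hΓ hE)

end LX
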