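import Pool.Agent.helper90.LX.EvLem
import Pool.Agent.helper90.LX.PreOps

namespace LX

open Polynomial LaurentPolynomial

variable {k K : Type*} [Field k] [Field K] [Algebra k K] {V : RV k K} {r m : ℕ}

/-- an extension generated by algebraic elements is algebraic -/
theorem Transc_gen (L : IntermediateField k K) (T : Set K)
    (hT : IntermediateField.adjoin k T = ⊤) (h : ∀ t ∈ T, IsAlgebraic L t) :
    Algebra.IsAlgebraic L K := by
  have h1 : IntermediateField.adjoin k T ≤ (algebraicClosure L K).restrictScalars k := by
    rw [IntermediateField.adjoin_le_iff]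
    intro t ht
    exact mem_algebraicClosure_iff.2 (h t ht)
  rw [hT] at h1
  exact ⟨fun a => mem_algebraicClosure_iff.1 (h1 (IntermediateField.mem_top (x := a)))⟩

theorem Transc_mem_evP (L : IntermediateField k K) (U : Multiplicative (Fin r → ℤ) →* K) (x : K)
    (hU : ∀ a, U a ∈ L) (hx : x ∈ L) (h : LA k[X] r) : evP U x h ∈ L := by
  induction h using AddMonoidAlgebra.induction_linear with
  | zero => rw [map_zero]; exact zero_mem _
  | add a b ha hb => rw [map_add]; exact add_mem ha hb
  | single a c =>
    unfold evP
    rw [ev_single]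
    refine mul_mem ?_ (hU _)
    have h1 := IntermediateField.aeval_coe L (⟨x, hx⟩ : L) c
    show Polynomial.aeval x c ∈ L
    have h2 : Polynomial.aeval x c = ((Polynomial.aeval (⟨x, hx⟩ : L) c : L) : K) := h1
    rw [h2]
    exact SetLike.coe_mem _

theorem Transc_y {F : Type*} [Field F] [Algebra F K] (S : State V r m)
    (hF : ∀ h : LA k[X] r, ∃ c : F, algebraMap F K c = evP (fstU S.U) S.x.fst h) :
    IsAlgebraic F S.y.fst := by
  have h1 : Polynomial.map (evP (fstU S.U) S.x.fst) S.f ∈ Polynomial.lifts (algebraMap F K) := by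
    rw [Polynomial.lifts_iff_coeff_lifts]
    intro n
    rw [Polynomial.coeff_map]
    obtain ⟨c, hc⟩ := hF (S.f.coeff n)
    exact ⟨c, hc⟩
  rw [Polynomial.mem_lifts] at h1
  obtain ⟨P, hP⟩ := h1
  refine ⟨P, ?_, ?_⟩
  · rintro rfl
    rw [Polynomial.map_zero] at hP
    have h2 := congrArg (fun q => Polynomial.coeff q m) hP
    simp only [Polynomial.coeff_zero, Polynomial.coeff_map] at h2
    exact (val_evP S.inj S.mon S.x_pos (S.pos m) S.top).1 h2.symm
  · rw [Polynomial.aeval_def, ← Polynomial.eval_map, hP, ← evPZ_eq_eval, ← fst_evPZ]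
    exact S.root

/-- `K` is algebraic over `k(u,v)`: the equation is a nonzero polynomial for `z`
(`val_evP` for the coefficient `m`). -/
theorem alg_of_state (S : State V r m) :
    Algebra.IsAlgebraic (IntermediateField.adjoin k
      (Set.range (fun a => (S.U (Multiplicative.ofAdd a)).fst) ∪ {S.x.fst})) K := by
  set L := IntermediateField.adjoin k
      (Set.range (fun a => (S.U (Multiplicative.ofAdd a)).fst) ∪ {S.x.fst}) with hL
  have hU : ∀ a, (S.U (Multiplicative.ofAdd a)).fst ∈ L := fun a =>
    IntermediateField.subset_adjoin _ _ (Or.inl ⟨a, rfl⟩)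
  have hx : S.x.fst ∈ L := IntermediateField.subset_adjoin _ _ (Or.inr rfl)
  have hin : ∀ t ∈ L, IsAlgebraic L t := fun t ht => isAlgebraic_algebraMap (⟨t, ht⟩ : L)
  refine Transc_gen L _ S.gen ?_
  rintro t (⟨a, rfl⟩ | rfl | ht)
  · exact hin _ (hU a)
  · exact hin _ hx
  · rw [Set.mem_singleton_iff] at ht
    rw [ht]
    refine Transc_y S fun h => ?_
    exact ⟨⟨_, Transc_mem_evP L (fstU S.U) S.x.fst (fun a => hU (Multiplicative.toAdd a)) hx h⟩,
      rfl⟩

/-- the monomials generate a field of transcendence degree at most `r` -/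
theorem Transc_deg (S : State V r m)
    (h : Algebra.IsAlgebraic (IntermediateField.adjoin k
      (Set.range (fun a => (S.U (Multiplicative.ofAdd a)).fst))) K) :
    Algebra.trdeg k K ≤ r := by
  have h1 : IntermediateField.adjoin k (Set.range (fun a => (S.U (Multiplicative.ofAdd a)).fst)) =
      IntermediateField.adjoin k (Set.range (fun i : Fin r =>
        (S.U (Multiplicative.ofAdd (Pi.single i (1 : ℤ)))).fst)) := by
    refine le_antisymm ?_ ?_
    · rw [IntermediateField.adjoin_le_iff]
      rintro _ ⟨a, rfl⟩
      set L := IntermediateField.adjoin k (Set.range (fun i : Fin r =>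
        (S.U (Multiplicative.ofAdd (Pi.single i (1 : ℤ)))).fst)) with hL
      let H : AddSubgroup (Fin r → ℤ) :=
        { carrier := {b | (S.U (Multiplicative.ofAdd b)).fst ∈ L}
          zero_mem' := by
            show (S.U (Multiplicative.ofAdd 0)).fst ∈ L
            rw [ofAdd_zero, map_one]
            exact one_mem _
          add_mem' := by
            intro b c hb hc
            show (S.U (Multiplicative.ofAdd (b + c))).fst ∈ L
            rw [ofAdd_add, map_mul]
            exact mul_mem hb hc
          neg_mem' := by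
            intro b hb
            show (S.U (Multiplicative.ofAdd (-b))).fst ∈ L
            have h2 : (S.U (Multiplicative.ofAdd b)).fst * (S.U (Multiplicative.ofAdd (-b))).fst =
                1 := by
              have h3 : S.U (Multiplicative.ofAdd b) * S.U (Multiplicative.ofAdd (-b)) = 1 := by
                rw [← map_mul, ← ofAdd_add, add_neg_cancel, ofAdd_zero, map_one]
              have h4 := congrArg TrivSqZeroExt.fst h3
              rwa [TrivSqZeroExt.fst_mul, TrivSqZeroExt.fst_one] at h4
            rw [eq_inv_of_mul_eq_one_right h2]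
            exact inv_mem hb }
      have h3 : a ∈ H := by
        rw [← Finset.univ_sum_single a]
        refine sum_mem fun i _ => ?_
        have h4 : (Pi.single i (a i) : Fin r → ℤ) = a i • Pi.single i (1 : ℤ) := by
          rw [← Pi.single_smul]
          simp
        rw [h4]
        refine zsmul_mem ?_ _
        exact IntermediateField.subset_adjoin _ _ ⟨i, rfl⟩
      exact h3
    · refine IntermediateField.adjoin.mono _ _ _ ?_
      rintro _ ⟨i, rfl⟩
      exact ⟨_, rfl⟩
  rw [h1, IntermediateField.isAlgebraic_adjoin_iff_top] at h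
  refine le_trans (Algebra.IsAlgebraic.trdeg_le_cardinalMk k (Set.range (fun i : Fin r =>
        (S.U (Multiplicative.ofAdd (Pi.single i (1 : ℤ)))).fst))) ?_
  have h2 := Cardinal.mk_range_le_lift (f := fun i : Fin r =>
        (S.U (Multiplicative.ofAdd (Pi.single i (1 : ℤ)))).fst)
  simpa using h2

/-- `v` is transcendental over `k(u)`, because the transcendence degree is `r + 1`
(the monomials generate a field of transcendence degree at most `r`). -/
theorem transc_of_state (hstd : Std V r) (S : State V r m) :
    Transcendental (IntermediateField.adjoin k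
      (Set.range (fun a => (S.U (Multiplicative.ofAdd a)).fst))) S.x.fst := by
  intro hx
  set L := IntermediateField.adjoin k
      (Set.range (fun a => (S.U (Multiplicative.ofAdd a)).fst)) with hL
  have hU : ∀ a, (S.U (Multiplicative.ofAdd a)).fst ∈ L := fun a =>
    IntermediateField.subset_adjoin _ _ ⟨a, rfl⟩
  have hin : ∀ t ∈ L, IsAlgebraic L t := fun t ht => isAlgebraic_algebraMap (⟨t, ht⟩ : L)
  have hK : Algebra.IsAlgebraic L K := by
    refine Transc_gen L _ S.gen ?_
    rintro t (⟨a, rfl⟩ | rfl | ht)
    · exact hin _ (hU a)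
    · exact hx
    · rw [Set.mem_singleton_iff] at ht
      rw [ht]
      have h1 : IsAlgebraic (algebraicClosure L K) S.y.fst := by
        refine Transc_y S fun h => ?_
        have h2 : evP (fstU S.U) S.x.fst h ∈ (algebraicClosure L K).restrictScalars k :=
          Transc_mem_evP ((algebraicClosure L K).restrictScalars k) (fstU S.U) S.x.fst
            (fun a => mem_algebraicClosure_iff.2 (hin _ (hU (Multiplicative.toAdd a))))
            (mem_algebraicClosure_iff.2 hx) h
        exact ⟨⟨_, h2⟩, rfl⟩
      exact h1.restrictScalars L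
  have h1 := Transc_deg S hK
  rw [hstd.tr] at h1
  have h2 : ((r + 1 : ℕ) : Cardinal) ≤ r := by
    push_cast
    exact h1
  have h3 : r + 1 ≤ r := by exact_mod_cast h2
  omega

/-- consequences used in the coordinate changes -/
theorem ne_of_transc (hstd : Std V r) (S : State V r m) :
    (∀ s : LA k r, (S.x - ev (algebraMap k (DualNumber K)) S.U s).fst ≠ 0) ∧
      ∀ (a : Fin r → ℤ) (n : ℕ) (c : k), n ≠ 0 →
        (S.U (Multiplicative.ofAdd a)).fst * S.x.fst ^ n - algebraMap k K c ≠ 0 := by
  have ht := transc_of_state hstd S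
  set L := IntermediateField.adjoin k
      (Set.range (fun a => (S.U (Multiplicative.ofAdd a)).fst)) with hL
  have hU : ∀ a, (S.U (Multiplicative.ofAdd a)).fst ∈ L := fun a =>
    IntermediateField.subset_adjoin _ _ ⟨a, rfl⟩
  have hin : ∀ t ∈ L, IsAlgebraic L t := fun t ht => isAlgebraic_algebraMap (⟨t, ht⟩ : L)
  constructor
  · intro s h
    have h1 : (ev (algebraMap k (DualNumber K)) S.U s).fst ∈ L := by
      clear h
      induction s using AddMonoidAlgebra.induction_linear with
      | zero => rw [map_zero]; exact zero_mem _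
      | add a b ha hb => rw [map_add, TrivSqZeroExt.fst_add]; exact add_mem ha hb
      | single a c =>
        rw [ev_single, TrivSqZeroExt.fst_mul]
        refine mul_mem ?_ (hU a)
        exact L.algebraMap_mem c
    apply ht
    rw [TrivSqZeroExt.fst_sub, sub_eq_zero] at h
    rw [h]
    exact hin _ h1
  · intro a n c hn h
    apply ht
    have h1 : S.x.fst ^ n ∈ L := by
      have h2 : S.x.fst ^ n = algebraMap k K c * ((S.U (Multiplicative.ofAdd a)).fst)⁻¹ := by
        rw [eq_mul_inv_iff_mul_eq₀ (S.U_ne a)]
        rw [sub_eq_zero] at h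
        rw [← h]
        ring
      rw [h2]
      exact mul_mem (L.algebraMap_mem c) (inv_mem (hU a))
    exact IsAlgebraic.of_pow (Nat.pos_of_ne_zero hn) (hin _ h1)

/-- a state of multiplicity `0` is impossible -/
theorem state_zero (S : State V r 0) : False := by
  have h0 := val_evP S.inj S.mon S.x_pos (S.pos 0) S.top
  have hy := S.y_pos
  have hroot := S.root
  rw [fst_evPZ, evPZ_eq_eval] at hroot
  set P := Polynomial.map (evP (fstU S.U) S.x.fst) S.f with hP
  have h1 := Polynomial.divX_mul_X_add P
  have h2 : (P.divX).eval S.y.fst * S.y.fst + P.coeff 0 = 0 := by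
    rw [← hroot]
    conv_rhs => rw [← h1]
    simp
  have h3 : V.Ge ((P.divX).eval S.y.fst) 0 := by
    rw [Polynomial.eval_eq_sum_range]
    refine ge_sum _ _ fun i _ => ?_
    have h4 : V.Ge (P.divX.coeff i) 0 := by
      rw [Polynomial.coeff_divX, hP, Polynomial.coeff_map]
      exact ge_evP S.mon (ge_of_gt S.x_pos) (S.pos _)
    have h5 := ge_mul h4 (ge_pow (ge_of_gt hy) i)
    simpa using h5
  have h6 : V.Gt ((P.divX).eval S.y.fst * S.y.fst) 0 := by
    rw [mul_comm]
    have h7 := gt_mul hy h3
    simpa using h7
  have h8 : P.coeff 0 = evP (fstU S.U) S.x.fst (S.f.coeff 0) := by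
    rw [hP, Polynomial.coeff_map]
  rw [h8] at h2
  refine add_ne (V := V) h0.1 (y := (P.divX).eval S.y.fst * S.y.fst) ?_ ?_
  · rw [h0.2]
    exact h6
  · rw [add_comm]
    exact h2

end LX
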