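import Pool.Agent.helper90.LX.NJVal
import Pool.Agent.helper90.LX.Torsion
import Pool.Agent.helper90.LX.Transc

namespace LX

open Polynomial

variable {k K : Type*} [Field k] [Field K] [Algebra k K] {V : RV k K} {r m : ℕ}

theorem NJ_sum {R : Type*} [CommRing R] (s : LA R r) :
    s = ∑ a ∈ s.coeff.support, AddMonoidAlgebra.single a (s.coeff a) :=
  (AddMonoidAlgebra.sum_coeff_single s).symm

theorem NJ_fst_ev (U : Multiplicative (Fin r → ℤ) →* DualNumber K) (s : LA k r) :
    (ev (algebraMap k (DualNumber K)) U s).fst = ev (algebraMap k K) (fstU U) s := by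
  rw [NJ_sum s, map_sum, map_sum, TrivSqZeroExt.fst_sum]
  refine Finset.sum_congr rfl fun a _ => ?_
  rw [ev_single, ev_single, TrivSqZeroExt.fst_mul]
  rfl

theorem NJ_gt_ev {φ : (Fin r → ℤ) →+ ℝ} {U : Multiplicative (Fin r → ℤ) →* K} (hU : Mon V φ U)
    {s : LA k r} {t : ℝ} (hs : GtL φ s t) : V.Gt (ev (algebraMap k K) U s) t := by
  rw [NJ_sum s, map_sum]
  refine gt_sum _ _ fun a ha => ?_
  rw [ev_single]
  have h0 : s.coeff a ≠ 0 := Finsupp.mem_support_iff.1 ha
  have h1 : V.Gt (U (Multiplicative.ofAdd a)) t := Or.inr (by rw [hU.val a]; exact hs a h0)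
  have h2 := gt_mul h1 (ge_algebraMap (V := V) (s.coeff a))
  rw [add_zero] at h2
  rwa [mul_comm] at h2

/-- One step of the expansion. -/
theorem NJ_step (hstd : Std V r) (S : State V r m)
    (hno : ∀ s : LA k r, GtL S.φ s 0 →
      ∃ A, V.v (S.x - ev (algebraMap k (DualNumber K)) S.U s).fst = S.φ A)
    (s : {s : LA k r // GtL S.φ s 0}) :
    ∃ (A : Fin r → ℤ) (c : k), c ≠ 0 ∧ 0 < S.φ A ∧
      S.x.fst - ev (algebraMap k K) (fstU S.U) s.1 ≠ 0 ∧
      V.v (S.x.fst - ev (algebraMap k K) (fstU S.U) s.1) = S.φ A ∧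
      GtL S.φ (s.1 + AddMonoidAlgebra.single A c) 0 ∧
      V.Gt (S.x.fst - ev (algebraMap k K) (fstU S.U) (s.1 + AddMonoidAlgebra.single A c))
        (S.φ A) := by
  classical
  obtain ⟨s, hs⟩ := s
  have hU := S.toPre.mon
  have he : ∀ s : LA k r, (S.x - ev (algebraMap k (DualNumber K)) S.U s).fst =
      S.x.fst - ev (algebraMap k K) (fstU S.U) s := by
    intro s
    rw [TrivSqZeroExt.fst_sub, NJ_fst_ev]
  have hne : S.x.fst - ev (algebraMap k K) (fstU S.U) s ≠ 0 := by
    rw [← he]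
    exact (ne_of_transc hstd S).1 s
  obtain ⟨A, hA⟩ := hno s hs
  rw [he] at hA
  set y := S.x.fst - ev (algebraMap k K) (fstU S.U) s with hy
  have hpos : 0 < S.φ A := by
    rw [← hA]
    exact lt_of_gt hne (gt_sub S.x_pos (NJ_gt_ev hU hs))
  set w := (fstU S.U) (Multiplicative.ofAdd A) with hw
  have hw0 : w ≠ 0 := hU.ne A
  have hwv : V.v w = S.φ A := hU.val A
  have hq0 : y / w ≠ 0 := div_ne_zero hne hw0
  have hqv : V.v (y / w) = 0 := by rw [v_div hne hw0, hA, hwv, sub_self]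
  obtain ⟨c, hc0, hc⟩ := exists_res_ne hq0 hqv
  refine ⟨A, c, hc0, hpos, hne, hA, ?_, ?_⟩
  · refine gtL_add hs ?_
    intro a ha
    have : A = a := by
      by_contra h
      exact ha (by simp [AddMonoidAlgebra.coeff_single, h])
    rw [← this]
    exact hpos
  · have h1 : S.x.fst - ev (algebraMap k K) (fstU S.U) (s + AddMonoidAlgebra.single A c) =
        (y / w - algebraMap k K c) * w := by
      rw [map_add, ev_single, sub_mul, div_mul_cancel₀ _ hw0, hy]
      ring
    rw [h1]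
    have h2 := gt_mul hc (ge_self (V := V) w)
    rwa [zero_add, hwv] at h2

/-- If all `v - s(u)` have values in `φ(ℤ^r)`, there is an infinite expansion. -/
theorem exists_expansion (hstd : Std V r) (S : State V r m)
    (hno : ∀ s : LA k r, GtL S.φ s 0 →
      ∃ A, V.v (S.x - ev (algebraMap k (DualNumber K)) S.U s).fst = S.φ A) :
    ∃ (a : ℕ → Fin r → ℤ) (κ : ℕ → k), (∀ l, κ l ≠ 0) ∧ (StrictMono fun l => S.φ (a l)) ∧
      (∀ l, 0 < S.φ (a l)) ∧
      ∀ l, S.x.fst - ev (algebraMap k K) (fstU S.U) (tS a κ l) ≠ 0 ∧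
        V.v (S.x.fst - ev (algebraMap k K) (fstU S.U) (tS a κ l)) = S.φ (a l) := by
  choose A c hc0 hpos hne hval hgt hnext using NJ_step hstd S hno
  set nx : {s : LA k r // GtL S.φ s 0} → {s : LA k r // GtL S.φ s 0} :=
    fun s => ⟨s.1 + AddMonoidAlgebra.single (A s) (c s), hgt s⟩ with hnx
  set σ : ℕ → {s : LA k r // GtL S.φ s 0} := fun l => nx^[l] ⟨0, gtL_zero 0⟩ with hσ
  have hσs : ∀ l, σ (l + 1) = nx (σ l) := fun l => Function.iterate_succ_apply' nx l _
  have hts : ∀ l, tS (fun l => A (σ l)) (fun l => c (σ l)) l = (σ l).1 := by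
    intro l
    induction l with
    | zero => simp [tS, hσ]
    | succ l ih => rw [tS_succ, ih, hσs]
  refine ⟨fun l => A (σ l), fun l => c (σ l), fun l => hc0 _, ?_, fun l => hpos _, ?_⟩
  · refine strictMono_nat_of_lt_succ fun l => ?_
    have h1 := hnext (σ l)
    have h2 : (σ l).1 + AddMonoidAlgebra.single (A (σ l)) (c (σ l)) = (σ (l + 1)).1 := by
      rw [hσs]
    rw [h2] at h1
    have h3 := lt_of_gt (hne (σ (l + 1))) h1
    rwa [hval (σ (l + 1))] at h3
  · intro l
    rw [hts l]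
    exact ⟨hne _, hval _⟩

/-- Jumps exist: otherwise `exists_expansion`, `val_expansion` and `val_adjoin` show that all values
of `k(u,v)` lie in `φ(ℤ^r)`, and `K` is finite over it (`alg_of_state`), so `fg_of_finite` contradicts
`hstd.nfg`. -/
theorem exists_nj (p : ℕ) [Fact p.Prime] [CharP k p] [Algebra.EssFiniteType k K]
    (hstd : Std V r) (S : State V r m) :
    ∃ s : LA k r, GtL S.φ s 0 ∧
      V.Gt (S.x - ev (algebraMap k (DualNumber K)) S.U s).fst 0 ∧
      ∀ A, V.v (S.x - ev (algebraMap k (DualNumber K)) S.U s).fst ≠ S.φ A := by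
  by_contra hcon
  push Not at hcon
  have hU := S.toPre.mon
  have hno : ∀ s : LA k r, GtL S.φ s 0 →
      ∃ A, V.v (S.x - ev (algebraMap k (DualNumber K)) S.U s).fst = S.φ A := by
    intro s hs
    refine hcon s hs ?_
    rw [TrivSqZeroExt.fst_sub, NJ_fst_ev]
    exact gt_sub S.x_pos (NJ_gt_ev hU hs)
  obtain ⟨a, κ, hκ, ha, -, hx⟩ := exists_expansion hstd S hno
  have hval := val_expansion p S.φ S.inj (fstU S.U) hU S.x.fst a κ hκ ha hx
  set Γ : AddSubgroup ℝ := S.φ.range with hΓ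
  have hΓfg : Γ.FG := by
    rw [hΓ, ← AddGroup.fg_iff_addSubgroup_fg]
    exact AddGroup.fg_range _
  -- the subalgebra of polynomial expressions
  set A0 : Subalgebra k K :=
    { (ev2 (algebraMap k K) (fstU S.U) S.x.fst).range with
      algebraMap_mem' := by
        intro c
        refine ⟨Polynomial.C (AddMonoidAlgebra.single 0 c), ?_⟩
        change ev2 (algebraMap k K) (fstU S.U) S.x.fst _ = _
        rw [ev2, Polynomial.coe_eval₂RingHom, Polynomial.eval₂_C, ev_single]
        have : (Multiplicative.ofAdd (0 : Fin r → ℤ)) = 1 := rfl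
        rw [this, map_one, mul_one] } with hA0
  have hmem : ∀ z, z ∈ A0 ↔ ∃ h, ev2 (algebraMap k K) (fstU S.U) S.x.fst h = z := fun z => Iff.rfl
  have hvA : ∀ z ∈ A0, z ≠ 0 → V.v z ∈ Γ := by
    intro z hz hz0
    obtain ⟨h, rfl⟩ := (hmem z).1 hz
    obtain ⟨A, hA⟩ := hval h hz0
    rw [hA]
    exact ⟨A, rfl⟩
  have hvE := val_adjoin V A0 Γ hvA
  set E : IntermediateField k K := IntermediateField.adjoin k
      (Set.range (fun a => (S.U (Multiplicative.ofAdd a)).fst) ∪ {S.x.fst}) with hE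
  have hEle : E ≤ IntermediateField.adjoin k (A0 : Set K) := by
    rw [hE, IntermediateField.adjoin_le_iff]
    rintro z (⟨b, rfl⟩ | hz)
    · refine IntermediateField.subset_adjoin k _ ((hmem _).2
        ⟨Polynomial.C (AddMonoidAlgebra.single b 1), ?_⟩)
      rw [ev2, Polynomial.coe_eval₂RingHom, Polynomial.eval₂_C, ev_single, map_one, one_mul]
      rfl
    · rw [Set.mem_singleton_iff] at hz
      rw [hz]
      refine IntermediateField.subset_adjoin k _ ((hmem _).2 ⟨Polynomial.X, ?_⟩)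
      rw [ev2, Polynomial.coe_eval₂RingHom, Polynomial.eval₂_X]
  have halg : Algebra.IsAlgebraic E K := alg_of_state S
  have hess : Algebra.EssFiniteType E K := Algebra.EssFiniteType.of_comp k E K
  have hfin : FiniteDimensional E K := Algebra.finite_of_essFiniteType_of_isAlgebraic
  exact hstd.nfg (fg_of_finite V E Γ hΓfg fun z hz hz0 => hvE z (hEle hz) hz0)

end LX
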