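import Pool.Agent.helper90.LX.Transc
import Pool.Agent.helper90.LX.DLe

namespace LX

open Polynomial LaurentPolynomial

variable {k K : Type*} [Field k] [Field K] [Algebra k K] {V : RV k K} {r m : ℕ}

lemma StateVt.gtL_cst {φ : (Fin r → ℤ) →+ ℝ} {s : LA k r} {w : ℝ} (hs : GtL φ s w) :
    GtL φ (cst s) w := by
  intro a ha
  apply hs a
  intro h0
  apply ha
  rw [cst, AddMonoidAlgebra.coeff_mapRingHom, h0, map_zero]

lemma StateVt.fst_ev (U : Multiplicative (Fin r → ℤ) →* DualNumber K) (s : LA k r) :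
    (ev (algebraMap k (DualNumber K)) U s).fst = ev (algebraMap k K) (fstU U) s := by
  rw [← evP_cst U 0 s, fst_evP, evP_cst]

/-- Translation of `v` by `s(u)`, `s > 0` (`Pre.vt`, `vtr_geL`). -/
theorem state_vt (hstd : Std V r) (S : State V r m) (s : LA k r) (hs : GtL S.φ s 0) :
    ∃ S' : State V r m, S'.φ = S.φ ∧ S'.U = S.U ∧ S'.y = S.y ∧
      S'.x = S.x - ev (algebraMap k (DualNumber K)) S.U s ∧
      S'.f = Polynomial.map (vtr s) S.f := by
  have hx : V.Gt (S.x - ev (algebraMap k (DualNumber K)) S.U s).fst 0 := by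
    rw [TrivSqZeroExt.fst_sub]
    refine gt_sub S.x_pos ?_
    rw [StateVt.fst_ev, ← evP_cst (fstU S.U) S.x.fst s]
    exact gt_evP S.toPre.mon (ge_of_gt S.x_pos) (StateVt.gtL_cst hs)
  have hc : ∀ i, ((Polynomial.map (vtr s) S.f).coeff i).coeff 0 = (S.f.coeff i).coeff 0 := by
    intro i
    rw [Polynomial.coeff_map]
    exact (vtr_geL s hs (S.f.coeff i) 0 (S.pos i)).2 0 (map_zero _)
  exact ⟨{ S.toPre.vt s hx with
      x_ne := (ne_of_transc hstd S).1 s
      pos := fun i => by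
        show GeL S.φ ((Polynomial.map (vtr s) S.f).coeff i) 0
        rw [Polynomial.coeff_map]
        exact (vtr_geL s hs (S.f.coeff i) 0 (S.pos i)).1
      low := fun i hi => by
        show (((Polynomial.map (vtr s) S.f).coeff i).coeff 0).coeff 0 = 0
        rw [hc i]
        exact S.low i hi
      top := by
        show (((Polynomial.map (vtr s) S.f).coeff m).coeff 0).coeff 0 ≠ 0
        rw [hc m]
        exact S.top }, rfl, rfl, rfl, rfl, rfl⟩

/-- `C1` is kept -/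
theorem c1_vt {φ : (Fin r → ℤ) →+ ℝ} {f : (LA k[X] r)[X]} {α : ℝ} (s : LA k r)
    (hs : GtL φ s 0) (h : C1 φ f m α) : C1 φ (Polynomial.map (vtr s) f) m α := by
  refine ⟨h.1, fun i hi => ?_⟩
  rw [Polynomial.coeff_map]
  exact (vtr_geL s hs _ _ (h.2 i hi)).1

/-- `C2` is kept: `(f(X+s))^t = (f^(t(X-s)))(X+s)`, and the coefficients at the lowest level do not
change (`vtr_geL`, `c1_taylor`). -/
theorem c2_vt {φ : (Fin r → ℤ) →+ ℝ} {f : (LA k[X] r)[X]} {α B : ℝ} (s : LA k r)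
    (hs : GtL φ s 0) (hpos : ∀ i, GeL φ (f.coeff i) 0) (h1 : C1 φ f m α)
    (h2 : C2 φ f m α B) : C2 φ (Polynomial.map (vtr s) f) m α B := by
  intro t ht
  have ht' : GeL φ (vtr (-s) t) α := (vtr_geL (-s) (gtL_neg hs) t α ht).1
  have he : taylor t (Polynomial.map (vtr s) f)
      = Polynomial.map (vtr s) (taylor (vtr (-s) t) f) := by
    rw [Polynomial.map_taylor, vtr_vtr, add_neg_cancel, vtr_zero]
  obtain ⟨i, hi, a, ha, b, hb, hne⟩ := h2 (vtr (-s) t) ht'
  refine ⟨i, hi, a, ha, b, hb, ?_⟩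
  rw [he, Polynomial.coeff_map,
    (vtr_geL s hs _ _ ((c1_taylor hpos h1 ht').1.2 i hi)).2 a ha]
  exact hne

end LX
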