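import Pool.Agent.helper90.LX.E2
import Pool.Agent.helper90.LX.StateVt
import Pool.Agent.helper90.LX.NJ
import Pool.Agent.helper90.LX.Lat

namespace LX

open Polynomial LaurentPolynomial

variable {k K : Type*} [Field k] [Field K] [Algebra k K] {V : RV k K} {r m : ℕ}

/-- the invariants: `C1`, the monomial of `f_j` on the line, lower bounds for the levels of the `f_i` -/
def E2One_Inv (S S' : State V r m) (α : ℝ) (j : ℕ) (w : ℕ → ℝ) : Prop :=
  C1 S'.φ S'.f m α ∧ S'.y = S.y ∧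
    (∃ aj', S'.φ aj' = ((m : ℝ) - j) * α ∧ ((S'.f.coeff j).coeff aj').coeff 0 ≠ 0) ∧
    ∀ i, i < j → GeL S'.φ (S'.f.coeff i) (w i)

theorem E2One_trans {S S' S'' : State V r m} {α : ℝ} {j : ℕ} {w : ℕ → ℝ}
    (h : E2One_Inv S S' α j w) (h' : E2One_Inv S' S'' α j w) : E2One_Inv S S'' α j w :=
  ⟨h'.1, h'.2.1.trans h.2.1, h'.2.2⟩

/-- translation of `v` -/
theorem E2One_vt (hstd : Std V r) (S : State V r m) (s : LA k r) (hs : GtL S.φ s 0) (α : ℝ)
    (j : ℕ) (hj : j < m) (w : ℕ → ℝ) (h : E2One_Inv S S α j w) :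
    ∃ S' : State V r m, E2One_Inv S S' α j w ∧ S'.φ = S.φ ∧
      S'.x = S.x - ev (algebraMap k (DualNumber K)) S.U s := by
  obtain ⟨S1, hφ, -, hy, hx, hf⟩ := state_vt hstd S s hs
  obtain ⟨h1, -, ⟨aj, haj, hne⟩, hw⟩ := h
  refine ⟨S1, ⟨?_, hy, ⟨aj, ?_, ?_⟩, ?_⟩, hφ, hx⟩
  · rw [hφ, hf]
    exact c1_vt s hs h1
  · rw [hφ]
    exact haj
  · rw [hf, Polynomial.coeff_map, (vtr_geL s hs _ _ (h1.2 j hj)).2 aj haj]
    exact hne
  · intro i hi
    rw [hφ, hf, Polynomial.coeff_map]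
    exact (vtr_geL s hs _ _ (hw i hi)).1

/-- a jump -/
theorem E2One_jump (hstd : Std V r) (S : State V r m) (J : JD S.φ (V.v S.x.fst)) (α : ℝ)
    (j : ℕ) (hj : j < m) (w : ℕ → ℝ) (h : E2One_Inv S S α j w) :
    ∃ S' : State V r m, E2One_Inv S S' α j w ∧ S'.φ = J.φ' := by
  obtain ⟨h1, -, ⟨aj, haj, hne⟩, hw⟩ := h
  obtain ⟨S', c, N, hc, hφ', hy', hf'⟩ := state_jump hstd S J 0 (geL_zero 0) (by simp)
  rw [Polynomial.taylor_zero] at hf'
  have hγ : 0 < V.v S.x.fst := lt_of_gt S.x_ne S.x_pos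
  have hgl := fun i s => geL_of_jump (φ' := J.φ') c N S'.f _ hf' i s
  refine ⟨S', ⟨⟨h1.1, fun i hi => ?_⟩, ?_, ⟨(J.Θ (aj, 0)).1, ?_, ?_⟩, fun i hi => ?_⟩, hφ'⟩
  · rw [hφ', (hgl i _).1, Polynomial.coeff_map]
    exact psi_geL S.inj hγ J (h1.2 i hi)
  · rw [hy', map_zero, sub_zero]
  · rw [hφ', J.val, haj]; simp
  · have hpsi : (psi J.Θ (S.f.coeff j)).coeff (J.Θ (aj, 0)).1 =
        T (J.Θ (aj, 0)).2 * LaurentPolynomial.C (((S.f.coeff j).coeff aj).coeff 0) := by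
      have hs : T (J.Θ (aj, 0)).2 * LaurentPolynomial.C (((S.f.coeff j).coeff aj).coeff 0) =
          (AddMonoidAlgebra.single (J.Θ (aj, 0)).2 (((S.f.coeff j).coeff aj).coeff 0) : k[T;T⁻¹]) := by
        rw [LaurentPolynomial.single_eq_C_mul_T, mul_comm]
      rw [hs]
      ext B
      by_cases hB : B = (J.Θ (aj, 0)).2
      · subst hB
        have := psi_coeff_of J.Θ (S.f.coeff j) aj 0
        rw [Nat.cast_zero] at this
        rw [this, AddMonoidAlgebra.coeff_single, Finsupp.single_eq_same]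
      · have h2 : (AddMonoidAlgebra.single (J.Θ (aj, 0)).2
            (((S.f.coeff j).coeff aj).coeff 0) : k[T;T⁻¹]).coeff B = 0 := by
          rw [AddMonoidAlgebra.coeff_single, Finsupp.single_eq_of_ne hB]
        rw [h2]
        by_contra h3
        obtain ⟨a, b, hab, hco⟩ := exists_of_psi J.Θ (S.f.coeff j) _ B h3
        have hv := J.val a (b : ℤ)
        have hv0 := J.val aj 0
        rw [hab] at hv
        rw [haj] at hv0
        have hge := h1.2 j hj a (fun h => hco (by rw [h]; simp))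
        push_cast at hv hv0
        have hb0 : (0 : ℝ) ≤ b := Nat.cast_nonneg b
        have hbz : b = 0 := by
          rcases Nat.eq_zero_or_pos b with h | h
          · exact h
          · have : (0 : ℝ) < b := by exact_mod_cast h
            have := mul_pos this hγ
            linarith
        subst hbz
        have haa : a = aj := by
          apply S.inj
          rw [haj]
          simp only [Nat.cast_zero, zero_mul, add_zero] at hv hv0
          rw [← hv, hv0]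
        subst haa
        apply hB
        rw [Nat.cast_zero] at hab
        rw [hab]
    have h4 : iota c ((S'.f.coeff j).coeff (J.Θ (aj, 0)).1) =
        T ((N : ℤ) + (J.Θ (aj, 0)).2) * LaurentPolynomial.C (((S.f.coeff j).coeff aj).coeff 0) := by
      rw [← iotaL_coeff, ← Polynomial.coeff_map, hf', Polynomial.coeff_C_mul,
        TN_mul_coeff, Polynomial.coeff_map, hpsi, T_add, mul_assoc]
    rw [iota_const c hc _ _ _ h4]
    exact mul_ne_zero (zpow_ne_zero _ hc) hne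
  · rw [hφ', (hgl i _).1, Polynomial.coeff_map]
    exact psi_geL S.inj hγ J (hw i hi)

/-- a jump to a larger group of values -/
theorem E2One_step (p : ℕ) [Fact p.Prime] [CharP k p] [Algebra.EssFiniteType k K]
    (hstd : Std V r) (S : State V r m) (α : ℝ) (j : ℕ) (hj : j < m) (w : ℕ → ℝ)
    (h : E2One_Inv S S α j w) :
    ∃ S' : State V r m, E2One_Inv S S' α j w ∧ (∀ a, ∃ a', S'.φ a' = S.φ a) ∧
      ∃ A, ∀ a, S'.φ A ≠ S.φ a := by
  obtain ⟨s, hs, -, hsv⟩ := exists_nj p hstd S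
  obtain ⟨S1, hI, hφ, hx⟩ := E2One_vt hstd S s hs α j hj w h
  have hne : ∀ A, S1.φ A ≠ V.v S1.x.fst := fun A => by
    rw [hx, hφ]
    exact (hsv A).symm
  obtain ⟨n, a, hn, ha⟩ := torsion hstd S1.φ S1.inj (fstU S1.U) S1.toPre.mon S1.x.fst S1.x_ne
  obtain ⟨J⟩ := exists_jd S1.φ S1.inj (V.v S1.x.fst) hne n hn a ha
  obtain ⟨S2, hI2, hφ2⟩ := E2One_jump hstd S1 J α j hj w ⟨hI.1, rfl, hI.2.2⟩
  refine ⟨S2, E2One_trans hI hI2, fun a => ⟨(J.Θ (a, 0)).1, ?_⟩, (J.Θ (0, 1)).1, fun a => ?_⟩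
  · rw [hφ2, J.val, hφ]
    simp
  · rw [hφ2, J.val, map_zero, zero_add, Int.cast_one, one_mul, ← hφ]
    exact (hne a).symm

/-- a larger group contains elements which are at most half as large -/
theorem E2One_half {φ φ' : (Fin r → ℤ) →+ ℝ} (h1 : ∀ a, ∃ a', φ' a' = φ a)
    (h2 : ∃ A, ∀ a, φ' A ≠ φ a) (A0 : Fin r → ℤ) (h0 : 0 < φ A0) :
    ∃ A, 0 < φ' A ∧ φ' A ≤ φ A0 / 2 := by
  rcases AddSubgroup.dense_or_cyclic φ'.range with h | ⟨g, hg⟩
  · obtain ⟨c, ⟨A, rfl⟩, h3, h4⟩ := h.exists_between (show (0 : ℝ) < φ A0 / 2 by linarith)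
    exact ⟨A, h3, h4.le⟩
  · have hmem : ∀ A, ∃ n : ℤ, (n : ℝ) * g = φ' A := by
      intro A
      have h3 : φ' A ∈ φ'.range := ⟨A, rfl⟩
      rw [hg, AddSubgroup.mem_closure_singleton] at h3
      obtain ⟨n, hn⟩ := h3
      exact ⟨n, by rw [← hn, zsmul_eq_mul]⟩
    obtain ⟨A1, hA1⟩ : ∃ A1, φ' A1 = g := by
      have h3 : g ∈ φ'.range := by
        rw [hg]
        exact AddSubgroup.mem_closure_singleton_self g
      exact h3
    obtain ⟨A0', hA0'⟩ := h1 A0
    obtain ⟨n, hn⟩ := hmem A0'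
    rw [hA0'] at hn
    obtain ⟨A, hA⟩ := h2
    obtain ⟨q, hq⟩ := hmem A
    -- `n = ± 1` is impossible
    have hn1 : n ≠ 1 := by
      rintro rfl
      apply hA (q • A0)
      rw [map_zsmul, zsmul_eq_mul, ← hn, ← hq]
      push_cast
      ring
    have hn2 : n ≠ -1 := by
      rintro rfl
      apply hA (-(q • A0))
      rw [map_neg, map_zsmul, zsmul_eq_mul, ← hn, ← hq]
      push_cast
      ring
    have hn0 : n ≠ 0 := by
      rintro rfl
      rw [Int.cast_zero, zero_mul] at hn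
      linarith
    rcases lt_or_gt_of_ne hn0 with h3 | h3
    · have h4 : (n : ℝ) ≤ -2 := by
        have : n ≤ -2 := by omega
        exact_mod_cast this
      have h5 : g < 0 := by
        by_contra h6
        push Not at h6
        nlinarith
      refine ⟨-A1, ?_, ?_⟩
      · rw [map_neg, hA1]
        linarith
      · rw [map_neg, hA1]
        nlinarith
    · have h4 : (2 : ℝ) ≤ n := by
        have : 2 ≤ n := by omega
        exact_mod_cast this
      have h5 : 0 < g := by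
        by_contra h6
        push Not at h6
        nlinarith
      refine ⟨A1, ?_, ?_⟩
      · rw [hA1]
        exact h5
      · rw [hA1]
        nlinarith

theorem E2One_iter (p : ℕ) [Fact p.Prime] [CharP k p] [Algebra.EssFiniteType k K]
    (hstd : Std V r) (S : State V r m) (α : ℝ) (j : ℕ) (hj : j < m) (w : ℕ → ℝ)
    (h : E2One_Inv S S α j w) (A0 : Fin r → ℤ) (h0 : 0 < S.φ A0) (n : ℕ) :
    ∃ S' : State V r m, E2One_Inv S S' α j w ∧ ∃ A, 0 < S'.φ A ∧ S'.φ A ≤ S.φ A0 / 2 ^ n := by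
  induction n with
  | zero => exact ⟨S, h, A0, h0, by rw [pow_zero, div_one]⟩
  | succ n ih =>
    obtain ⟨S', hI, A, hA, hA'⟩ := ih
    obtain ⟨S'', hI', h1, h2⟩ := E2One_step p hstd S' α j hj w ⟨hI.1, rfl, hI.2.2⟩
    obtain ⟨A', h3, h4⟩ := E2One_half h1 h2 A hA
    refine ⟨S'', E2One_trans hI hI', A', h3, h4.trans ?_⟩
    rw [pow_succ, ← div_div]
    linarith

/-- Small values after finitely many jumps. For `r ≥ 2`: `dense_phi`. For `r = 1`: `φ(ℤ) = g ℤ`; each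
step (`exists_nj`, `state_vt`, `torsion` + `exists_jd`, `state_jump` with `t = 0`) replaces `g` by
`g / k`, `k ≥ 2`, because the new values contain the old ones (`J.val`) and `γ` which is not an old
value. All steps keep `S.y`, `C1`, the monomial of `f_j` on the line of slope `α`, and lower bounds of
the levels of the `f_i` (`vtr_geL`, `psi_geL`, `geL_of_jump`; the monomial of `f_j` as in
`e2_jump`). -/
theorem fine_state (p : ℕ) [Fact p.Prime] [CharP k p] [Algebra.EssFiniteType k K] (hr : 0 < r)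
    (hstd : Std V r) (S : State V r m) (α : ℝ) (h1 : C1 S.φ S.f m α) (j : ℕ) (hj : j < m)
    (aj : Fin r → ℤ) (haj : S.φ aj = ((m : ℝ) - j) * α)
    (hne : ((S.f.coeff j).coeff aj).coeff 0 ≠ 0) (w : ℕ → ℝ)
    (hw : ∀ i, i < j → GeL S.φ (S.f.coeff i) (w i)) (ε : ℝ) (hε : 0 < ε) :
    ∃ S' : State V r m, C1 S'.φ S'.f m α ∧ S'.y = S.y ∧
      (∃ aj', S'.φ aj' = ((m : ℝ) - j) * α ∧ ((S'.f.coeff j).coeff aj').coeff 0 ≠ 0) ∧
      (∀ i, i < j → GeL S'.φ (S'.f.coeff i) (w i)) ∧ ∃ A, 0 < S'.φ A ∧ S'.φ A < ε := by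
  obtain ⟨A0, hA0⟩ : ∃ A0, 0 < S.φ A0 := by
    have h2 : S.φ (Pi.single ⟨0, hr⟩ 1) ≠ 0 := by
      intro h3
      rw [← map_zero S.φ] at h3
      have h4 := congrFun (S.inj h3) ⟨0, hr⟩
      simp at h4
    rcases lt_or_gt_of_ne h2 with h3 | h3
    · exact ⟨-(Pi.single ⟨0, hr⟩ 1), by rw [map_neg]; linarith⟩
    · exact ⟨_, h3⟩
  obtain ⟨n, hn⟩ := pow_unbounded_of_one_lt (S.φ A0 / ε) (one_lt_two)
  obtain ⟨S', ⟨g1, g2, g3, g4⟩, A, hA, hA'⟩ := E2One_iter p hstd S α j hj w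
    ⟨h1, rfl, ⟨aj, haj, hne⟩, hw⟩ A0 hA0 n
  refine ⟨S', g1, g2, g3, g4, A, hA, lt_of_le_of_lt hA' ?_⟩
  rw [div_lt_iff₀ (by positivity)]
  rw [div_lt_iff₀ hε] at hn
  linarith

/-- E2 for every `r ≥ 1` (as `step_e2`; `fine_state` instead of `dense_phi`: if `0 < φ A < ε`, some
multiple of `φ A` lies in `(α, α + ε)`). -/
theorem step_e2' (p : ℕ) [Fact p.Prime] [CharP k p] [Algebra.EssFiniteType k K] (hr : 0 < r)
    (hstd : Std V r) (S : State V r m) (J : JD S.φ (V.v S.x.fst))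
    (α B : ℝ) (h1 : C1 S.φ S.f m α) (h2 : C2 S.φ S.f m α B) (hB : m * B < 1)
    (hy : V.Gt S.y.fst α) : ∃ m', m' < m ∧ Nonempty (State V r m') := by
  classical
  obtain ⟨i, him, a, ha, b, hb, hco⟩ := h2 0 (geL_zero α)
  rw [Polynomial.taylor_zero] at hco
  have him' : (i : ℝ) < m := by exact_mod_cast him
  have hi0 : (0 : ℝ) ≤ i := Nat.cast_nonneg i
  have hb1 : (b : ℝ) < 1 := by
    refine lt_of_le_of_lt hb ?_
    rcases le_or_gt 0 B with h | h
    · nlinarith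
    · nlinarith
  have hb0 : b = 0 := by
    have : b < 1 := by exact_mod_cast hb1
    omega
  subst hb0
  have hex : ∃ j, j < m ∧ ∃ a, S.φ a = ((m : ℝ) - j) * α ∧ ((S.f.coeff j).coeff a).coeff 0 ≠ 0 :=
    ⟨i, him, a, ha, hco⟩
  obtain ⟨hj, aj, haj, hne⟩ := Nat.find_spec hex
  have hmin : ∀ i, i < Nat.find hex → ∀ a, S.φ a = ((m : ℝ) - i) * α →
      ((S.f.coeff i).coeff a).coeff 0 = 0 := by
    intro i hi a ha
    by_contra hne
    exact Nat.find_min hex hi ⟨hi.trans hj, a, ha, hne⟩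
  generalize Nat.find hex = j at *
  obtain ⟨S', h1', hy', ⟨aj', haj', hne'⟩, hlow⟩ := e2_jump hstd S J α h1 j hj aj haj hne hmin
  have hev : ∀ᶠ s in nhds α, (∀ i ∈ Finset.range j, ∀ a ∈ (S'.f.coeff i).coeff.support,
      ((m : ℝ) - j) * α + ((j : ℝ) - i) * s < S'.φ a) ∧
      (S'.y.fst ≠ 0 → s < V.v S'.y.fst) := by
    refine Filter.Eventually.and ?_ ?_
    · rw [Filter.eventually_all_finset]
      intro i hi
      rw [Filter.eventually_all_finset]
      intro a ha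
      have h := hlow i (Finset.mem_range.1 hi) a (Finsupp.mem_support_iff.1 ha)
      have hcont : Continuous (fun s : ℝ => ((m : ℝ) - j) * α + ((j : ℝ) - i) * s) := by fun_prop
      apply hcont.continuousAt.eventually_lt continuousAt_const
      linarith
    · by_cases h0 : S'.y.fst = 0
      · exact Filter.Eventually.of_forall fun s h => absurd h0 h
      · rw [hy'] at h0 ⊢
        filter_upwards [eventually_lt_nhds (lt_of_gt h0 hy)] with s hs _ using hs
  obtain ⟨l, u, hlu, hsub⟩ := mem_nhds_iff_exists_Ioo_subset.1 hev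
  set s0 := (α + u) / 2 with hs0
  have hαs : α < s0 := by
    rw [hs0]
    linarith [hlu.2]
  have hsm := hsub (show s0 ∈ Set.Ioo l u from ⟨hlu.1.trans hαs, by rw [hs0]; linarith [hlu.2]⟩)
  obtain ⟨S2, g1, g2, ⟨aj2, haj2, hne2⟩, g4, A, hA, hA'⟩ := fine_state p hr hstd S' α h1' j hj aj'
    haj' hne' (fun i => ((m : ℝ) - j) * α + ((j : ℝ) - i) * s0)
    (fun i hi a ha => (hsm.1 i (Finset.mem_range.2 hi) a (Finsupp.mem_support_iff.2 ha)).le)
    (s0 - α) (by linarith)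
  have hα0 : 0 ≤ α := h1.1
  have hfl := Nat.lt_floor_add_one (α / S2.φ A)
  have hfl2 := Nat.floor_le (div_nonneg hα0 hA.le)
  rw [div_lt_iff₀ hA] at hfl
  rw [le_div_iff₀ hA] at hfl2
  have hΔ : S2.φ ((⌊α / S2.φ A⌋₊ + 1) • A) = ((⌊α / S2.φ A⌋₊ : ℝ) + 1) * S2.φ A := by
    rw [map_nsmul, nsmul_eq_mul]
    push_cast
    ring
  have hΔ1 : α < S2.φ ((⌊α / S2.φ A⌋₊ + 1) • A) := by
    rw [hΔ]
    exact hfl
  have hΔ2 : S2.φ ((⌊α / S2.φ A⌋₊ + 1) • A) < s0 := by
    rw [hΔ]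
    linarith
  refine ⟨j, hj, rescale S2 j hj α g1 aj2 haj2 hne2 _ hΔ1 (fun i hi a ha => ?_) ?_⟩
  · have h3 := g4 i hi a ha
    have h4 : (i : ℝ) < j := by exact_mod_cast hi
    have h5 : ((j : ℝ) - i) * S2.φ ((⌊α / S2.φ A⌋₊ + 1) • A) < ((j : ℝ) - i) * s0 :=
      mul_lt_mul_of_pos_left hΔ2 (by linarith)
    linarith
  · by_cases h0 : S2.y.fst = 0
    · exact Or.inl h0
    · rw [g2] at h0 ⊢
      exact Or.inr (hΔ2.trans (hsm.2 h0))

end LX
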