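import Pool.Agent.helper90.LX.Ops

namespace LX

open Polynomial LaurentPolynomial

variable {k K : Type*} [Field k] [Field K] [Algebra k K] {r : ℕ}

/-- first components of the monomials -/
noncomputable def fstU (U : Multiplicative (Fin r → ℤ) →* DualNumber K) :
    Multiplicative (Fin r → ℤ) →* K where
  toFun a := (U a).fst
  map_one' := by rw [map_one]; rfl
  map_mul' a b := by rw [map_mul]; rfl

@[simp] lemma fstU_apply (U : Multiplicative (Fin r → ℤ) →* DualNumber K)
    (a : Multiplicative (Fin r → ℤ)) : fstU U a = (U a).fst := rfl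

/-- monomials with prescribed values -/
structure Mon (V : RV k K) (φ : (Fin r → ℤ) →+ ℝ) (U : Multiplicative (Fin r → ℤ) →* K) :
    Prop where
  ne : ∀ a, U (Multiplicative.ofAdd a) ≠ 0
  val : ∀ a, V.v (U (Multiplicative.ofAdd a)) = φ a

lemma Pre.mon {V : RV k K} (S : Pre V r) : Mon V S.φ (fstU S.U) where
  ne := S.U_ne
  val := S.U_val

end LX
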