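import Pool.Agent.helper90.LX.GeLem

namespace LX

open Polynomial LaurentPolynomial

variable {k : Type*} [Field k] {r : ℕ}

/-- the monomial `c u^A T^B` -/
noncomputable def PsiCoeff_mc (w : (Fin r → ℤ) × ℤ) (c : k) : LA k[T;T⁻¹] r :=
  AddMonoidAlgebra.single w.1 (AddMonoidAlgebra.single w.2 c)

theorem PsiCoeff_mul (w w' : (Fin r → ℤ) × ℤ) (c c' : k) :
    PsiCoeff_mc w c * PsiCoeff_mc w' c' = PsiCoeff_mc (w + w') (c * c') := by
  rw [PsiCoeff_mc, PsiCoeff_mc, PsiCoeff_mc, AddMonoidAlgebra.single_mul_single,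
    AddMonoidAlgebra.single_mul_single]
  rfl

theorem PsiCoeff_monT (w : (Fin r → ℤ) × ℤ) : monT (k := k) w = PsiCoeff_mc w 1 := rfl

theorem PsiCoeff_one : (1 : LA k[T;T⁻¹] r) = PsiCoeff_mc 0 1 := rfl

theorem PsiCoeff_pow (w : (Fin r → ℤ) × ℤ) (b : ℕ) :
    (PsiCoeff_mc w (1 : k)) ^ b = PsiCoeff_mc (b • w) 1 := by
  induction b with
  | zero => rw [pow_zero, zero_smul]; rfl
  | succ b ih => rw [pow_succ, ih, PsiCoeff_mul, succ_nsmul, mul_one]

theorem PsiCoeff_alg (c : k) : algebraMap k (LA k[T;T⁻¹] r) c = PsiCoeff_mc 0 c := rfl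

theorem PsiCoeff_th (Θ : ((Fin r → ℤ) × ℤ) ≃+ ((Fin r → ℤ) × ℤ)) (a : Fin r → ℤ) (b : ℕ) :
    b • Θ (0, 1) + Θ (a, 0) = Θ (a, b) := by
  rw [← map_nsmul, ← map_add]
  congr 1
  ext <;> simp

theorem psi_single (Θ : ((Fin r → ℤ) × ℤ) ≃+ ((Fin r → ℤ) × ℤ)) (a : Fin r → ℤ) (b : ℕ) (c : k) :
    psi Θ (AddMonoidAlgebra.single a (Polynomial.monomial b c)) =
      AddMonoidAlgebra.single (Θ (a, b)).1 (AddMonoidAlgebra.single (Θ (a, b)).2 c) := by
  rw [psi, ev_single]
  change (Polynomial.aeval (monT (Θ (0, 1)))) (Polynomial.monomial b c) * monT (Θ (a, 0)) =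
    PsiCoeff_mc (Θ (a, b)) c
  rw [Polynomial.aeval_monomial, PsiCoeff_monT, PsiCoeff_monT, PsiCoeff_pow, PsiCoeff_alg,
    PsiCoeff_mul, PsiCoeff_mul, zero_add, mul_one, mul_one, PsiCoeff_th]

/-- coefficients of the coordinate change -/
theorem psi_coeff (Θ : ((Fin r → ℤ) × ℤ) ≃+ ((Fin r → ℤ) × ℤ)) (h : LA k[X] r)
    (A : Fin r → ℤ) (B : ℤ) :
    ((psi Θ h).coeff A).coeff B =
      if 0 ≤ (Θ.symm (A, B)).2 then
        (h.coeff (Θ.symm (A, B)).1).coeff (Θ.symm (A, B)).2.toNat else 0 := by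
  classical
  induction h using AddMonoidAlgebra.induction_linear with
  | zero => simp
  | add f g hf hg =>
    rw [map_add, AddMonoidAlgebra.coeff_add, Finsupp.add_apply, AddMonoidAlgebra.coeff_add,
      Finsupp.add_apply, hf, hg, AddMonoidAlgebra.coeff_add, Finsupp.add_apply,
      Polynomial.coeff_add]
    split_ifs
    · rfl
    · exact add_zero 0
  | single a q =>
    induction q using Polynomial.induction_on' with
    | add p q hp hq =>
      rw [AddMonoidAlgebra.single_add, map_add, AddMonoidAlgebra.coeff_add, Finsupp.add_apply,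
        AddMonoidAlgebra.coeff_add, Finsupp.add_apply, hp, hq, AddMonoidAlgebra.coeff_add,
        Finsupp.add_apply, Polynomial.coeff_add]
      split_ifs
      · rfl
      · exact add_zero 0
    | monomial b c =>
      rw [psi_single, AddMonoidAlgebra.coeff_single_apply, AddMonoidAlgebra.coeff_single_apply]
      by_cases h1 : Θ (a, (b : ℤ)) = (A, B)
      · have h2 : Θ.symm (A, B) = (a, (b : ℤ)) := by rw [← h1, AddEquiv.symm_apply_apply]
        rw [h2, h1, if_pos rfl, if_pos (Int.natCast_nonneg b), if_pos rfl]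
        change (AddMonoidAlgebra.single B c : k[T;T⁻¹]).coeff B =
          (Polynomial.monomial b c).coeff ((b : ℤ).toNat)
        rw [AddMonoidAlgebra.coeff_single, Finsupp.single_eq_same, Int.toNat_natCast,
          Polynomial.coeff_monomial_same]
      · have h2 : ¬ (0 ≤ (Θ.symm (A, B)).2 ∧ a = (Θ.symm (A, B)).1 ∧
            b = (Θ.symm (A, B)).2.toNat) := by
          rintro ⟨h3, h4, h5⟩
          apply h1
          have h6 : (a, (b : ℤ)) = Θ.symm (A, B) := by
            ext1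
            · exact h4
            · rw [h5]
              exact Int.toNat_of_nonneg h3
          rw [h6, AddEquiv.apply_symm_apply]
        have h7 : (if (Θ (a, (b : ℤ))).1 = A then
            (AddMonoidAlgebra.single (Θ (a, (b : ℤ))).2 c : k[T;T⁻¹]) else 0).coeff B = 0 := by
          split_ifs with h3
          · rw [AddMonoidAlgebra.coeff_single_apply, if_neg]
            intro h4
            exact h1 (Prod.ext h3 h4)
          · rfl
        rw [h7]
        split_ifs with h3 h4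
        · rw [Polynomial.coeff_monomial, if_neg]
          intro h5
          exact h2 ⟨h3, h4, h5⟩
        · rfl
        · rfl

/-- monomials survive: the coefficient of `u^a X^b` -/
theorem psi_coeff_of (Θ : ((Fin r → ℤ) × ℤ) ≃+ ((Fin r → ℤ) × ℤ)) (h : LA k[X] r)
    (a : Fin r → ℤ) (b : ℕ) :
    ((psi Θ h).coeff (Θ (a, b)).1).coeff (Θ (a, b)).2 = (h.coeff a).coeff b := by
  rw [psi_coeff]
  have h1 : Θ.symm ((Θ (a, (b : ℤ))).1, (Θ (a, (b : ℤ))).2) = (a, (b : ℤ)) :=
    Θ.symm_apply_apply _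
  rw [h1, if_pos (Int.natCast_nonneg b)]
  rfl

theorem psi_injective (Θ : ((Fin r → ℤ) × ℤ) ≃+ ((Fin r → ℤ) × ℤ)) :
    Function.Injective (psi (k := k) Θ) := by
  rw [injective_iff_map_eq_zero]
  intro h hh
  apply AddMonoidAlgebra.ext
  ext a b
  rw [← psi_coeff_of Θ h a b, hh]
  simp

/-- every exponent of `psi Θ h` comes from a monomial `u^a X^b` of `h` -/
theorem exists_of_psi (Θ : ((Fin r → ℤ) × ℤ) ≃+ ((Fin r → ℤ) × ℤ)) (h : LA k[X] r)
    (A : Fin r → ℤ) (B : ℤ) (hAB : ((psi Θ h).coeff A).coeff B ≠ 0) :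
    ∃ (a : Fin r → ℤ) (b : ℕ), Θ (a, b) = (A, B) ∧ (h.coeff a).coeff b ≠ 0 := by
  rw [psi_coeff] at hAB
  split_ifs at hAB with h1
  · refine ⟨(Θ.symm (A, B)).1, (Θ.symm (A, B)).2.toNat, ?_, hAB⟩
    rw [Int.toNat_of_nonneg h1]
    exact Θ.apply_symm_apply _
  · exact absurd rfl hAB

end LX
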