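import Pool.Agent.helper90.LX.EvDefs
import Pool.Agent.helper90.LX.PsiCoeff

namespace LX

open Polynomial LaurentPolynomial

variable {k K : Type*} [Field k] [Field K] [Algebra k K] {r : ℕ}

/-- evaluation of a monomial coefficient -/
theorem EvLem.evP_single {S : Type*} [CommRing S] [Algebra k S]
    (U : Multiplicative (Fin r → ℤ) →* S) (x : S) (a : Fin r → ℤ) (p : k[X]) :
    evP U x (AddMonoidAlgebra.single a p) =
      Polynomial.aeval x p * U (Multiplicative.ofAdd a) := by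
  rw [evP, ev_single]
  rfl

/-- the evaluation as a sum over the exponents -/
theorem EvLem.evP_eq_sum {S : Type*} [CommRing S] [Algebra k S]
    (U : Multiplicative (Fin r → ℤ) →* S) (x : S) (h : LA k[X] r) :
    evP U x h = ∑ a ∈ h.coeff.support,
      Polynomial.aeval x (h.coeff a) * U (Multiplicative.ofAdd a) := by
  conv_lhs => rw [← AddMonoidAlgebra.sum_coeff_single h]
  rw [Finsupp.sum, map_sum]
  exact Finset.sum_congr rfl fun a _ => EvLem.evP_single U x a _

theorem EvLem.comp_eq (U : Multiplicative (Fin r → ℤ) →* DualNumber K) (x : DualNumber K) :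
    ((TrivSqZeroExt.fstHom k K K : DualNumber K →ₐ[k] K) : DualNumber K →+* K).comp (evP U x) =
      evP (k := k) (fstU U) x.fst := by
  refine AddMonoidAlgebra.ringHom_ext (fun p => ?_) (fun a => ?_)
  · rw [RingHom.comp_apply, EvLem.evP_single, EvLem.evP_single, map_mul]
    have h1 : ((TrivSqZeroExt.fstHom k K K : DualNumber K →ₐ[k] K) : DualNumber K →+* K)
        (Polynomial.aeval x p) = Polynomial.aeval x.fst p := by
      have := (Polynomial.aeval_algHom_apply (TrivSqZeroExt.fstHom k K K) x p).symm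
      exact this
    rw [h1]
    rfl
  · rw [RingHom.comp_apply, EvLem.evP_single, EvLem.evP_single, map_mul, map_one, map_one,
      map_one]
    rfl

theorem fst_evP (U : Multiplicative (Fin r → ℤ) →* DualNumber K) (x : DualNumber K)
    (h : LA k[X] r) : (evP U x h).fst = evP (fstU U) x.fst h := by
  rw [← EvLem.comp_eq U x]
  rfl

theorem fst_evPZ (U : Multiplicative (Fin r → ℤ) →* DualNumber K) (x y : DualNumber K)
    (f : (LA k[X] r)[X]) : (evPZ U x y f).fst = evPZ (fstU U) x.fst y.fst f := by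
  have h1 := Polynomial.hom_eval₂ f (evP (k := k) U x)
    ((TrivSqZeroExt.fstHom k K K : DualNumber K →ₐ[k] K) : DualNumber K →+* K) y
  rw [EvLem.comp_eq U x] at h1
  exact h1

theorem evPZ_eq_eval {S : Type*} [CommRing S] [Algebra k S]
    (U : Multiplicative (Fin r → ℤ) →* S) (x y : S) (f : (LA k[X] r)[X]) :
    evPZ U x y f = (Polynomial.map (evP U x) f).eval y := by
  rw [Polynomial.eval_map]
  rfl

variable {V : RV k K} {φ : (Fin r → ℤ) →+ ℝ} {U : Multiplicative (Fin r → ℤ) →* K} {x : K}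

theorem EvLem.ge_U (hU : Mon V φ U) (a : Fin r → ℤ) :
    V.Ge (U (Multiplicative.ofAdd a)) (φ a) := Or.inr (hU.val a).ge

theorem EvLem.ge_aeval (hx : V.Ge x 0) (p : k[X]) : V.Ge (Polynomial.aeval x p) 0 := by
  rw [Polynomial.aeval_eq_sum_range]
  refine ge_sum _ _ fun b _ => ?_
  rw [Algebra.smul_def]
  have h1 := ge_mul (ge_algebraMap (V := V) (p.coeff b)) (ge_pow hx b)
  simpa using h1

theorem EvLem.gt_aeval (hx : V.Gt x 0) (p : k[X]) (hp : p.coeff 0 = 0) :
    V.Gt (Polynomial.aeval x p) 0 := by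
  rw [Polynomial.aeval_eq_sum_range]
  refine gt_sum _ _ fun b _ => ?_
  rw [Algebra.smul_def]
  rcases Nat.eq_zero_or_pos b with hb | hb
  · left
    rw [hb, hp, map_zero, zero_mul]
  · have h1 := gt_mul (gt_pow hx b hb.ne') (ge_algebraMap (V := V) (p.coeff b))
    rw [mul_comm]
    simpa using h1

/-- levels bound values (only `x` of value at least `0` is needed) -/
theorem ge_evP (hU : Mon V φ U) (hx : V.Ge x 0) {h : LA k[X] r} {s : ℝ} (hh : GeL φ h s) :
    V.Ge (evP U x h) s := by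
  rw [EvLem.evP_eq_sum]
  refine ge_sum _ _ fun a ha => ?_
  have h1 := ge_mul (EvLem.ge_aeval hx (h.coeff a)) (EvLem.ge_U hU a)
  rw [zero_add] at h1
  exact ge_mono h1 (hh a (Finsupp.mem_support_iff.1 ha))

theorem gt_evP (hU : Mon V φ U) (hx : V.Ge x 0) {h : LA k[X] r} {s : ℝ} (hh : GtL φ h s) :
    V.Gt (evP U x h) s := by
  rw [EvLem.evP_eq_sum]
  refine gt_sum _ _ fun a ha => ?_
  have h1 := ge_mul (EvLem.ge_aeval hx (h.coeff a)) (EvLem.ge_U hU a)
  rw [zero_add] at h1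
  exact gt_of_ge h1 (hh a (Finsupp.mem_support_iff.1 ha))

/-- the evaluation as a double sum over the monomials -/
theorem EvLem.evP_eq_sum2 (h : LA k[X] r) :
    evP U x h = ∑ a ∈ h.coeff.support, ∑ b ∈ (h.coeff a).support,
      (algebraMap k K ((h.coeff a).coeff b) * x ^ b) * U (Multiplicative.ofAdd a) := by
  rw [EvLem.evP_eq_sum]
  refine Finset.sum_congr rfl fun a _ => ?_
  rw [Polynomial.aeval_def, Polynomial.eval₂_eq_sum, Polynomial.sum_def, Finset.sum_mul]

theorem EvLem.ge_mono_term (hU : Mon V φ U) {γ : ℝ} (hγ : V.v x = γ) (a : Fin r → ℤ) (b : ℕ)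
    (c : k) : V.Ge ((algebraMap k K c * x ^ b) * U (Multiplicative.ofAdd a)) (φ a + b * γ) := by
  have h0 : V.Ge x γ := Or.inr hγ.ge
  have h1 := ge_mul (ge_mul (ge_algebraMap (V := V) c) (ge_pow h0 b)) (EvLem.ge_U hU a)
  refine ge_mono h1 ?_
  linarith

theorem EvLem.psi_ne {γ : ℝ} (J : JD φ γ) {h : LA k[X] r} {a : Fin r → ℤ} {b : ℕ}
    (hb : (h.coeff a).coeff b ≠ 0) : (psi J.Θ h).coeff (J.Θ (a, (b : ℤ))).1 ≠ 0 := by
  intro h1
  have h2 := psi_coeff_of J.Θ h a b
  rw [h1] at h2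
  exact hb h2.symm

/-- the levels after the jump bound values: `φ a + b γ` is the value of `u^a x^b` -/
theorem ge_evP_psi (hU : Mon V φ U) (hx : x ≠ 0) {γ : ℝ} (hγ : V.v x = γ) (J : JD φ γ)
    {h : LA k[X] r} {s : ℝ} (hh : GeL J.φ' (psi J.Θ h) s) : V.Ge (evP U x h) s := by
  have _ := hx
  rw [EvLem.evP_eq_sum2]
  refine ge_sum _ _ fun a _ => ge_sum _ _ fun b hb => ?_
  refine ge_mono (EvLem.ge_mono_term hU hγ a b _) ?_
  have h1 := hh _ (EvLem.psi_ne J (Polynomial.mem_support_iff.1 hb))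
  rw [J.val] at h1
  exact_mod_cast h1

theorem gt_evP_psi (hU : Mon V φ U) (hx : x ≠ 0) {γ : ℝ} (hγ : V.v x = γ) (J : JD φ γ)
    {h : LA k[X] r} {s : ℝ} (hh : GtL J.φ' (psi J.Θ h) s) : V.Gt (evP U x h) s := by
  have _ := hx
  rw [EvLem.evP_eq_sum2]
  refine gt_sum _ _ fun a _ => gt_sum _ _ fun b hb => ?_
  refine gt_of_ge (EvLem.ge_mono_term hU hγ a b _) ?_
  have h1 := hh _ (EvLem.psi_ne J (Polynomial.mem_support_iff.1 hb))
  rw [J.val] at h1
  exact_mod_cast h1

theorem EvLem.pos_of_ne (hφ : Function.Injective φ) {a : Fin r → ℤ} (ha : a ≠ 0)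
    (h0 : 0 ≤ φ a) : 0 < φ a := by
  rcases h0.lt_or_eq with h | h
  · exact h
  · refine absurd (hφ ?_) ha
    rw [map_zero, ← h]

/-- `h` of level `≥ 0` without constant term has positive value -/
theorem gt_evP_zero (hφ : Function.Injective φ) (hU : Mon V φ U) (hx : V.Gt x 0)
    {h : LA k[X] r} (hh : GeL φ h 0) (h0 : (h.coeff 0).coeff 0 = 0) :
    V.Gt (evP U x h) 0 := by
  rw [EvLem.evP_eq_sum]
  refine gt_sum _ _ fun a ha => ?_
  by_cases ha0 : a = 0
  · subst ha0
    have h1 := gt_mul (EvLem.gt_aeval hx (h.coeff 0) h0) (EvLem.ge_U hU 0)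
    have h2 : φ 0 = 0 := map_zero φ
    rw [h2, add_zero] at h1
    exact h1
  · have h1 := ge_mul (EvLem.ge_aeval (ge_of_gt hx) (h.coeff a)) (EvLem.ge_U hU a)
    rw [zero_add] at h1
    exact gt_of_ge h1 (EvLem.pos_of_ne hφ ha0 (hh a (Finsupp.mem_support_iff.1 ha)))

/-- `h` of level `≥ 0` with nonzero constant term is a unit (value `0`) -/
theorem val_evP (hφ : Function.Injective φ) (hU : Mon V φ U) (hx : V.Gt x 0) {h : LA k[X] r}
    (hh : GeL φ h 0) (h0 : (h.coeff 0).coeff 0 ≠ 0) :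
    evP U x h ≠ 0 ∧ V.v (evP U x h) = 0 := by
  set c : k := (h.coeff 0).coeff 0 with hc
  set g : LA k[X] r := AddMonoidAlgebra.single 0 (Polynomial.C c) with hg
  have hgl : GeL φ g 0 := geL_const _
  have h1 : GeL φ (h - g) 0 := geL_sub hh hgl
  have h2 : ((h - g).coeff 0).coeff 0 = 0 := by
    have : (h - g).coeff 0 = h.coeff 0 - g.coeff 0 := by simp
    rw [this, Polynomial.coeff_sub, ← hc, hg]
    simp
  have h3 := gt_evP_zero hφ hU hx h1 h2
  have h4 : evP U x g = algebraMap k K c := by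
    rw [hg, EvLem.evP_single, Polynomial.aeval_C]
    have : U (Multiplicative.ofAdd (0 : Fin r → ℤ)) = 1 := map_one U
    rw [this, mul_one]
  have h5 : evP U x h = algebraMap k K c + evP U x (h - g) := by
    rw [← h4, ← map_add, add_sub_cancel]
  have h6 : algebraMap k K c ≠ 0 := by
    intro h7
    exact h0 ((FaithfulSMul.algebraMap_injective k K) (by rw [h7, map_zero]))
  have h7 : V.v (algebraMap k K c) = 0 := V.map_const c h0
  rw [h5]
  rw [← h7] at h3
  refine ⟨add_ne h6 h3, ?_⟩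
  rw [v_add h6 h3, h7]

theorem EvLem.level {γ : ℝ} (J : JD φ γ) {h : LA k[X] r} {A : Fin r → ℤ}
    (hA : (psi J.Θ h).coeff A ≠ 0) :
    ∃ (a : Fin r → ℤ) (b : ℕ), (h.coeff a).coeff b ≠ 0 ∧ J.φ' A = φ a + b * γ := by
  obtain ⟨B, hB⟩ : ∃ B, ((psi J.Θ h).coeff A).coeff B ≠ 0 := by
    by_contra h1
    push Not at h1
    exact hA (by ext B; exact h1 B)
  obtain ⟨a, b, h1, h2⟩ := exists_of_psi J.Θ h A B hB
  refine ⟨a, b, h2, ?_⟩
  have h3 := J.val a b
  rw [h1] at h3
  exact_mod_cast h3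

theorem EvLem.coeff_ne {h : LA k[X] r} {a : Fin r → ℤ} {b : ℕ}
    (hb : (h.coeff a).coeff b ≠ 0) : h.coeff a ≠ 0 := by
  intro h1
  rw [h1] at hb
  exact hb (Polynomial.coeff_zero b)

/-- after a jump all monomials except the constant have positive level -/
theorem psi_gtL (hφ : Function.Injective φ) {γ : ℝ} (hγ : 0 < γ) (J : JD φ γ) {h : LA k[X] r}
    (hh : GeL φ h 0) (h0 : (h.coeff 0).coeff 0 = 0) : GtL J.φ' (psi J.Θ h) 0 := by
  intro A hA
  obtain ⟨a, b, h1, h2⟩ := EvLem.level J hA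
  rw [h2]
  have h3 : 0 ≤ φ a := hh a (EvLem.coeff_ne h1)
  rcases Nat.eq_zero_or_pos b with hb | hb
  · subst hb
    have ha : a ≠ 0 := by
      rintro rfl
      exact h1 h0
    have h4 := EvLem.pos_of_ne hφ ha h3
    simpa using h4
  · have h4 : (0 : ℝ) < b * γ := mul_pos (by exact_mod_cast hb) hγ
    linarith

theorem psi_geL (hφ : Function.Injective φ) {γ : ℝ} (hγ : 0 < γ) (J : JD φ γ) {h : LA k[X] r}
    {s : ℝ} (hh : GeL φ h s) : GeL J.φ' (psi J.Θ h) s := by
  have _ := hφ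
  intro A hA
  obtain ⟨a, b, h1, h2⟩ := EvLem.level J hA
  rw [h2]
  have h3 : s ≤ φ a := hh a (EvLem.coeff_ne h1)
  have h4 : (0 : ℝ) ≤ b * γ := mul_nonneg (by positivity) hγ.le
  linarith

/-- the coefficient at level zero after a jump is the constant term -/
theorem psi_coeff_zero (hφ : Function.Injective φ) {γ : ℝ} (hγ : 0 < γ) (J : JD φ γ)
    {h : LA k[X] r} (hh : GeL φ h 0) :
    (psi J.Θ h).coeff 0 = LaurentPolynomial.C ((h.coeff 0).coeff 0) := by
  ext B
  have hR : (LaurentPolynomial.C ((h.coeff 0).coeff 0) : k[T;T⁻¹]).coeff B =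
      if B = 0 then (h.coeff 0).coeff 0 else 0 := by
    by_cases hB : B = 0
    · subst hB
      rw [if_pos rfl]
      exact Finsupp.single_eq_same
    · rw [if_neg hB]
      exact Finsupp.single_eq_of_ne hB
  rw [hR]
  by_cases hB : B = 0
  · subst hB
    rw [if_pos rfl, ← psi_coeff_of J.Θ h 0 0]
    have h1 : J.Θ (0, ((0 : ℕ) : ℤ)) = (0, 0) := by
      have : ((0 : Fin r → ℤ), ((0 : ℕ) : ℤ)) = 0 := rfl
      rw [this, map_zero]
      rfl
    rw [h1]
  · rw [if_neg hB]
    by_contra h1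
    obtain ⟨a, b, h2, h3⟩ := exists_of_psi J.Θ h 0 B h1
    have h4 := J.val a b
    rw [h2] at h4
    have h5 : 0 ≤ φ a := hh a (EvLem.coeff_ne h3)
    have h6 : (0 : ℝ) ≤ b * γ := mul_nonneg (by positivity) hγ.le
    have h7 : (0 : ℝ) = φ a + b * γ := by
      have : J.φ' ((0 : Fin r → ℤ), B).1 = 0 := map_zero _
      rw [this] at h4
      exact_mod_cast h4
    have h8 : φ a = 0 := by linarith
    have h9 : (b : ℝ) * γ = 0 := by linarith
    have h10 : a = 0 := hφ (by rw [h8, map_zero])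
    have h11 : b = 0 := by
      rcases mul_eq_zero.1 h9 with h | h
      · exact_mod_cast h
      · exact absurd h hγ.ne'
    subst h10
    subst h11
    have h12 : J.Θ (0, ((0 : ℕ) : ℤ)) = (0, 0) := by
      have : ((0 : Fin r → ℤ), ((0 : ℕ) : ℤ)) = 0 := rfl
      rw [this, map_zero]
      rfl
    rw [h12] at h2
    exact hB (Prod.mk.inj h2).2.symm

end LX
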