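import Pool.Agent.helper90.LX.Transc
import Pool.Agent.LUV.PerronW
import Pool.Agent.LUV.LuCrit

namespace LX

open Polynomial LaurentPolynomial

universe u

variable {k K : Type u} [Field k] [Field K] [Algebra k K] {V : RV k K} {r : ℕ}

/-- the system `(x, U b_1, .., U b_r)` -/
noncomputable def Fin1_s (U : Multiplicative (Fin r → ℤ) →* K) (x : K)
    (b : Module.Basis (Fin r) ℤ (Fin r → ℤ)) : Fin (r + 1) → K :=
  Fin.cons x (fun i => U (Multiplicative.ofAdd (b i)))

theorem Fin1_U_zpow (U : Multiplicative (Fin r → ℤ) →* K)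
    (b : Module.Basis (Fin r) ℤ (Fin r → ℤ)) (a : Fin r → ℤ) :
    U (Multiplicative.ofAdd a) = ∏ i, U (Multiplicative.ofAdd (b i)) ^ (b.repr a i) := by
  have h1 : a = ∑ i, b.repr a i • b i := (b.sum_repr a).symm
  have hinv : ∀ y : Multiplicative (Fin r → ℤ), U y⁻¹ = (U y)⁻¹ := by
    intro y
    apply eq_inv_of_mul_eq_one_left
    rw [← map_mul, inv_mul_cancel, map_one]
  conv_lhs => rw [h1]
  rw [ofAdd_sum, map_prod]
  apply Finset.prod_congr rfl
  intro i _
  rw [ofAdd_zsmul]
  exact map_zpow' U hinv _ _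

theorem Fin1_U_pow (U : Multiplicative (Fin r → ℤ) →* K)
    (b : Module.Basis (Fin r) ℤ (Fin r → ℤ)) (a : Fin r → ℤ) (ha : ∀ i, 0 ≤ b.repr a i) :
    U (Multiplicative.ofAdd a) =
      ∏ i, U (Multiplicative.ofAdd (b i)) ^ (b.repr a i).toNat := by
  rw [Fin1_U_zpow U b a]
  apply Finset.prod_congr rfl
  intro i _
  rw [← zpow_natCast, Int.toNat_of_nonneg (ha i)]

/-- the polynomial in the system which represents `h(u,x)` -/
noncomputable def Fin1_N (b : Module.Basis (Fin r) ℤ (Fin r → ℤ)) (h : LA k[X] r) :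
    MvPolynomial (Fin (r + 1)) k :=
  ∑ a ∈ h.coeff.support, Polynomial.aeval (MvPolynomial.X 0 : MvPolynomial (Fin (r + 1)) k)
    (h.coeff a) * ∏ i : Fin r, MvPolynomial.X i.succ ^ (b.repr a i).toNat

theorem Fin1_aeval (U : Multiplicative (Fin r → ℤ) →* K) (x : K)
    (b : Module.Basis (Fin r) ℤ (Fin r → ℤ)) (h : LA k[X] r)
    (hh : ∀ a ∈ h.coeff.support, ∀ i, 0 ≤ b.repr a i) :
    MvPolynomial.aeval (Fin1_s U x b) (Fin1_N b h) = evP U x h := by
  unfold Fin1_N
  rw [map_sum]
  have e : evP U x h = ∑ a ∈ h.coeff.support,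
      (Polynomial.aeval x (h.coeff a)) * U (Multiplicative.ofAdd a) := by
    conv_lhs => rw [← AddMonoidAlgebra.sum_coeff_single h]
    rw [Finsupp.sum, map_sum]
    apply Finset.sum_congr rfl
    intro a _
    rw [evP, ev_single]
    rfl
  rw [e]
  apply Finset.sum_congr rfl
  intro a ha
  rw [map_mul, map_prod]
  congr 1
  · rw [← Polynomial.aeval_algHom_apply, MvPolynomial.aeval_X]
    rfl
  · rw [Fin1_U_pow U b a (hh a ha)]
    apply Finset.prod_congr rfl
    intro i _
    rw [map_pow, MvPolynomial.aeval_X]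
    simp [Fin1_s]

theorem Fin1_cc (c : k[X]) :
    MvPolynomial.constantCoeff (Polynomial.aeval (MvPolynomial.X 0 :
      MvPolynomial (Fin (r + 1)) k) c) = c.coeff 0 := by
  rw [Polynomial.aeval_def, Polynomial.hom_eval₂, MvPolynomial.constantCoeff_X]
  have : (MvPolynomial.constantCoeff : MvPolynomial (Fin (r + 1)) k →+* k).comp
      (algebraMap k (MvPolynomial (Fin (r + 1)) k)) = RingHom.id k := by
    ext a
    simp [MvPolynomial.algebraMap_eq]
  rw [this, ← Polynomial.eval, ← Polynomial.coeff_zero_eq_eval_zero]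

theorem Fin1_const (b : Module.Basis (Fin r) ℤ (Fin r → ℤ)) (h : LA k[X] r)
    (hh : ∀ a ∈ h.coeff.support, ∀ i, 0 ≤ b.repr a i) :
    MvPolynomial.constantCoeff (Fin1_N b h) = (h.coeff 0).coeff 0 := by
  unfold Fin1_N
  rw [map_sum, Finset.sum_eq_single 0]
  · rw [map_mul, Fin1_cc]
    simp
  · intro a ha ha0
    rw [map_mul, map_prod]
    have hex : ∃ i, b.repr a i ≠ 0 := by
      by_contra hcon
      push Not at hcon
      apply ha0
      apply b.repr.injective
      ext i
      simp [hcon i]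
    obtain ⟨i, hi⟩ := hex
    have hz : ∏ i : Fin r, MvPolynomial.constantCoeff
        ((MvPolynomial.X i.succ : MvPolynomial (Fin (r + 1)) k) ^ (b.repr a i).toNat) = 0 := by
      apply Finset.prod_eq_zero (Finset.mem_univ i)
      rw [map_pow, MvPolynomial.constantCoeff_X]
      apply zero_pow
      have h1 := hh a ha i
      omega
    rw [hz, mul_zero]
  · intro h0
    have h1 : h.coeff 0 = 0 := by simpa using h0
    rw [h1]
    simp

theorem Fin1_val (W : ValuationSubring K)
    (hVW : ∀ x : K, x ≠ 0 → (x ∈ W ↔ 0 ≤ V.v x)) {c : K} (hc : V.Gt c 0) :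
    W.valuation c < 1 := by
  by_cases h0 : c = 0
  · rw [h0, map_zero]
    exact zero_lt_one
  · have hv := lt_of_gt h0 hc
    by_contra hcon
    push Not at hcon
    have h1 : W.valuation c⁻¹ ≤ 1 := by
      rw [map_inv₀]
      exact inv_le_one_of_one_le₀ hcon
    have h2 : c⁻¹ ∈ W := (W.valuation_le_one_iff _).1 h1
    have h3 := (hVW c⁻¹ (inv_ne_zero h0)).1 h2
    rw [v_inv h0] at h3
    linarith

theorem Fin1_ge_eval {Q : K[X]} {z : K} (hQ : ∀ j, V.Ge (Q.coeff j) 0) (hz : V.Ge z 0) :
    V.Ge (Q.eval z) 0 := by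
  rw [Polynomial.eval_eq_sum_range]
  apply ge_sum
  intro j _
  have h := ge_mul (hQ j) (ge_pow hz j)
  simpa using h

theorem Fin1_aeval_mem {n : ℕ} (s : Fin n → K) (N : MvPolynomial (Fin n) k)
    (L : IntermediateField k K) (hL : ∀ i, s i ∈ L) : MvPolynomial.aeval s N ∈ L := by
  have h1 : MvPolynomial.aeval s N ∈ Algebra.adjoin k (Set.range s) := by
    rw [Algebra.adjoin_range_eq_range_aeval]
    exact ⟨N, rfl⟩
  have h2 : Algebra.adjoin k (Set.range s) ≤ L.toSubalgebra := by
    apply Algebra.adjoin_le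
    rintro _ ⟨i, rfl⟩
    exact hL i
  exact h2 h1

/-- Multiplicity one. Perron (`LUV.perron_wt`) for the finitely many exponents of `f`: a basis `b` of
`ℤ^r` with `φ (b_i) > 0` and all exponents nonnegative combinations. `s = (U b_1, .., U b_r, x)`.
If `f0 := f_0(u,x) = 0` then `z = 0` (`z` has positive value and `f_1(u,x)` is a unit): take `y = -1`,
`Ψ = 0`. Otherwise `y = z f_1 / f_0`, `Ψ = ∑_{j≥2} f_j f_0^(j-1) / f_1^j Y^(j-2)`; apply
`LUV.lu_crit`. -/
theorem fin_one (W : ValuationSubring K) (hW : ∀ c : k, algebraMap k K c ∈ W)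
    (hVW : ∀ x : K, x ≠ 0 → (x ∈ W ↔ 0 ≤ V.v x)) (htr : Algebra.trdeg k K = (r + 1 : ℕ))
    (S : State V r 1) : LU.Uniformizable k W := by
  classical
  have hmon : Mon V S.φ (fstU S.U) := S.toPre.mon
  have hxp : V.Gt S.x.fst 0 := S.x_pos
  have hzp : V.Gt S.y.fst 0 := S.y_pos
  obtain ⟨b, hb, hT⟩ := LUV.perron_wt S.φ S.inj
    (S.f.support.biUnion (fun j => (S.f.coeff j).coeff.support)) (by
      intro a ha
      rw [Finset.mem_biUnion] at ha
      obtain ⟨j, _, hj⟩ := ha
      exact S.pos j a (Finsupp.mem_support_iff.1 hj))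
  have hh : ∀ j, ∀ a ∈ (S.f.coeff j).coeff.support, ∀ i, 0 ≤ b.repr a i := by
    intro j a ha
    apply hT a
    rw [Finset.mem_biUnion]
    refine ⟨j, ?_, ha⟩
    rw [Polynomial.mem_support_iff]
    intro h0
    rw [h0] at ha
    simp at ha
  set U := fstU S.U with hU
  set x := S.x.fst with hx
  set z := S.y.fst with hz
  set s := Fin1_s U x b with hs
  -- the values of the coefficients
  set P : K[X] := S.f.map (evP U x) with hP
  have hPc : ∀ j, P.coeff j = evP U x (S.f.coeff j) := fun j => Polynomial.coeff_map _ _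
  have hPN : ∀ j, MvPolynomial.aeval s (Fin1_N b (S.f.coeff j)) = P.coeff j := fun j => by
    rw [hPc]
    exact Fin1_aeval U x b _ (hh j)
  have hroot : P.eval z = 0 := by
    have h1 := S.root
    rw [fst_evPZ, evPZ_eq_eval] at h1
    exact h1
  have hPge : ∀ j, V.Ge (P.coeff j) 0 := by
    intro j
    rw [hPc]
    exact ge_evP hmon (ge_of_gt hxp) (S.pos j)
  obtain ⟨hF1, hF1v⟩ : P.coeff 1 ≠ 0 ∧ V.v (P.coeff 1) = 0 := by
    rw [hPc]
    exact val_evP S.inj hmon hxp (S.pos 1) S.top
  have hF0 : V.Gt (P.coeff 0) 0 := by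
    rw [hPc]
    exact gt_evP_zero S.inj hmon hxp (S.pos 0) (S.low 0 (by norm_num))
  set Q := P.divX.divX with hQ
  have hQc : ∀ j, Q.coeff j = P.coeff (j + 2) := by
    intro j
    rw [hQ, Polynomial.coeff_divX, Polynomial.coeff_divX]
  have hPz : P.coeff 0 + z * (P.coeff 1 + z * Q.eval z) = 0 := by
    have h1 : P.divX * X + Polynomial.C (P.coeff 0) = P := Polynomial.divX_mul_X_add P
    have h2 : P.divX.divX * X + Polynomial.C (P.divX.coeff 0) = P.divX := Polynomial.divX_mul_X_add _
    have h3 : P.divX.coeff 0 = P.coeff 1 := by rw [Polynomial.coeff_divX]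
    have e1 : P.eval z = P.divX.eval z * z + P.coeff 0 := by
      conv_lhs => rw [← h1]
      simp
    have e2 : P.divX.eval z = Q.eval z * z + P.coeff 1 := by
      conv_lhs => rw [← h2]
      rw [h3, hQ]
      simp
    rw [hroot, e2] at e1
    linear_combination -e1
  have hQz : V.Ge (Q.eval z) 0 := Fin1_ge_eval (fun j => by rw [hQc]; exact hPge _) (ge_of_gt hzp)
  have hzQ : V.Gt (z * Q.eval z) 0 := by
    have := gt_mul hzp hQz
    simpa using this
  have hw0 : P.coeff 1 + z * Q.eval z ≠ 0 := add_ne hF1 (by rw [hF1v]; exact hzQ)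
  have hwv : V.v (P.coeff 1 + z * Q.eval z) = 0 := by
    rw [v_add hF1 (by rw [hF1v]; exact hzQ), hF1v]
  -- the system
  have hs0 : s 0 = x := rfl
  have hsS : ∀ i : Fin r, s i.succ = U (Multiplicative.ofAdd (b i)) := fun i => by
    rw [hs]; simp [Fin1_s]
  have hsv : ∀ i, W.valuation (s i) < 1 := by
    intro i
    apply Fin1_val W hVW
    refine Fin.cases ?_ (fun i => ?_) i
    · rw [hs0]; exact hxp
    · rw [hsS]
      right
      rw [hmon.val]
      exact hb i
  -- fields
  have hUmem : ∀ (L : IntermediateField k K), (∀ i, s i ∈ L) → ∀ a,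
      U (Multiplicative.ofAdd a) ∈ L := by
    intro L hL a
    rw [Fin1_U_zpow U b a]
    apply prod_mem
    intro i _
    apply zpow_mem
    rw [← hsS]
    exact hL _
  have hfield : IntermediateField.adjoin k
      (Set.range (fun a => (S.U (Multiplicative.ofAdd a)).fst) ∪ {S.x.fst}) =
      IntermediateField.adjoin k (Set.range s) := by
    apply le_antisymm
    · rw [IntermediateField.adjoin_le_iff]
      rintro y (⟨a, rfl⟩ | hy)
      · exact hUmem _ (fun i => IntermediateField.subset_adjoin k _ (Set.mem_range_self i)) a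
      · rw [Set.mem_singleton_iff] at hy
        rw [hy]
        have h0 : s 0 ∈ Set.range s := ⟨0, rfl⟩
        exact IntermediateField.subset_adjoin k _ h0
    · rw [IntermediateField.adjoin_le_iff]
      rintro _ ⟨i, rfl⟩
      refine Fin.cases ?_ (fun i => ?_) i
      · exact IntermediateField.subset_adjoin k _ (Or.inr rfl)
      · rw [hsS]
        exact IntermediateField.subset_adjoin k _ (Or.inl (Set.mem_range_self (b i)))
  have halg : Algebra.IsAlgebraic (IntermediateField.adjoin k (Set.range s)) K := by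
    have h1 := alg_of_state S
    rw [hfield] at h1
    exact h1
  have hgen' : ∀ L : IntermediateField k K, (∀ i, s i ∈ L) → z ∈ L → L = ⊤ := by
    intro L hL hzL
    rw [← top_le_iff, ← S.gen, IntermediateField.adjoin_le_iff]
    rintro y (⟨a, rfl⟩ | hy)
    · exact hUmem L hL a
    · rcases hy with hy | hy
      · rw [hy]
        have h0 := hL 0
        rw [hs0] at h0
        exact h0
      · rw [Set.mem_singleton_iff] at hy
        rw [hy]
        exact hzL
  by_cases hF00 : P.coeff 0 = 0
  · -- the degenerate case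
    have hz0 : z = 0 := by
      rw [hF00, zero_add] at hPz
      rcases mul_eq_zero.1 hPz with h | h
      · exact h
      · exact absurd h hw0
    refine LUV.lu_crit W hW (r + 1) htr s hsv (-1) (by simp) ?_ halg 0 ?_ ?_ ?_
    · apply hgen'
      · intro i
        exact IntermediateField.subset_adjoin k _ (Set.mem_insert_of_mem _ ⟨i, rfl⟩)
      · rw [hz0]
        exact zero_mem _
    · intro j
      exact ⟨0, 1, by simp, by simp⟩
    · intro j
      simp
    · simp
  · have hzw : P.coeff 0 = -(z * (P.coeff 1 + z * Q.eval z)) := by linear_combination hPz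
    have hz0 : z ≠ 0 := by
      intro h
      apply hF00
      rw [hzw, h]
      simp
    have hy1 : z * P.coeff 1 / P.coeff 0 + 1 = z * Q.eval z / (P.coeff 1 + z * Q.eval z) := by
      rw [hzw]
      field_simp
      ring
    refine LUV.lu_crit W hW (r + 1) htr s hsv (z * P.coeff 1 / P.coeff 0) ?_ ?_ halg
      (Polynomial.C (P.coeff 0 / P.coeff 1 ^ 2) *
        Q.comp (Polynomial.C (P.coeff 0 / P.coeff 1) * X)) ?_ ?_ ?_
    · apply Fin1_val W hVW
      rw [hy1]
      have := gt_div hzQ hw0
      rw [hwv, sub_zero] at this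
      exact this
    · have hsm : ∀ i, s i ∈ IntermediateField.adjoin k
          (insert (z * P.coeff 1 / P.coeff 0) (Set.range s)) := fun i =>
        IntermediateField.subset_adjoin k _ (Set.mem_insert_of_mem _ ⟨i, rfl⟩)
      apply hgen' _ hsm
      have h0 : P.coeff 0 ∈ IntermediateField.adjoin k
          (insert (z * P.coeff 1 / P.coeff 0) (Set.range s)) := by
        have h00 := Fin1_aeval_mem s (Fin1_N b (S.f.coeff 0)) _ hsm
        rw [hPN 0] at h00
        exact h00
      have h1 : P.coeff 1 ∈ IntermediateField.adjoin k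
          (insert (z * P.coeff 1 / P.coeff 0) (Set.range s)) := by
        have h11 := Fin1_aeval_mem s (Fin1_N b (S.f.coeff 1)) _ hsm
        rw [hPN 1] at h11
        exact h11
      have h2 : z * P.coeff 1 / P.coeff 0 ∈ IntermediateField.adjoin k
          (insert (z * P.coeff 1 / P.coeff 0) (Set.range s)) :=
        IntermediateField.subset_adjoin k _ (Set.mem_insert _ _)
      have e : z = z * P.coeff 1 / P.coeff 0 * P.coeff 0 / P.coeff 1 := by
        field_simp
      have h3 := div_mem (mul_mem h2 h0) h1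
      rw [← e] at h3
      exact h3
    · intro j
      refine ⟨Fin1_N b (S.f.coeff (j + 2)) * Fin1_N b (S.f.coeff 0) ^ (j + 1),
        Fin1_N b (S.f.coeff 1) ^ (j + 2), ?_, ?_⟩
      · rw [map_pow, Fin1_const b _ (hh 1)]
        exact pow_ne_zero _ S.top
      · rw [Polynomial.coeff_C_mul, Polynomial.comp_C_mul_X_coeff, hQc, map_pow, map_mul, map_pow,
          hPN, hPN, hPN, div_pow]
        have hj : P.coeff 1 ^ j ≠ 0 := pow_ne_zero _ hF1
        have h2 : P.coeff 1 ^ 2 ≠ 0 := pow_ne_zero _ hF1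
        rw [pow_add, pow_succ (P.coeff 0) j]
        field_simp
    · intro j
      apply Fin1_val W hVW
      rw [Polynomial.coeff_C_mul, Polynomial.comp_C_mul_X_coeff, hQc]
      have h1 : V.Gt (P.coeff 0 / P.coeff 1 ^ 2) 0 := by
        have := gt_div hF0 (pow_ne_zero 2 hF1)
        rw [v_pow hF1, hF1v] at this
        simpa using this
      have h2 : V.Ge ((P.coeff 0 / P.coeff 1) ^ j) 0 := by
        have h3 := gt_div hF0 hF1
        rw [hF1v, sub_zero] at h3
        have := ge_pow (ge_of_gt h3) j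
        simpa using this
      have h4 := ge_mul (hPge (j + 2)) h2
      rw [add_zero] at h4
      have := gt_mul h1 h4
      rw [add_zero] at this
      exact this
    · rw [Polynomial.eval_mul, Polynomial.eval_C, Polynomial.eval_comp, Polynomial.eval_mul,
        Polynomial.eval_C, Polynomial.eval_X]
      have e : P.coeff 0 / P.coeff 1 * (z * P.coeff 1 / P.coeff 0) = z := by
        field_simp
      rw [e]
      have h5 : 1 + z * P.coeff 1 / P.coeff 0 +
          (z * P.coeff 1 / P.coeff 0) ^ 2 * (P.coeff 0 / P.coeff 1 ^ 2 * Q.eval z) =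
          (P.coeff 0 + z * (P.coeff 1 + z * Q.eval z)) / P.coeff 0 := by
        field_simp
        ring
      rw [h5, hPz, zero_div]

end LX
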