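import Pool.Agent.helper90.LX.EvLem
import Pool.Agent.helper90.LX.IotaLem
import Pool.Agent.helper90.LX.VtrLem

namespace LX

open Polynomial LaurentPolynomial

variable {k K : Type*} [Field k] [Field K] [Algebra k K] {r : ℕ}

/-- A frame in `K`: monomials with independent values and one more element `x`. -/
structure Fr (V : RV k K) (r : ℕ) where
  φ : (Fin r → ℤ) →+ ℝ
  U : Multiplicative (Fin r → ℤ) →* K
  x : K
  inj : Function.Injective φ
  mon : Mon V φ U
  x_ne : x ≠ 0
  x_pos : 0 < V.v x

/-- the field generated by a frame -/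
def Fr.fld {V : RV k K} (S : Fr V r) : IntermediateField k K :=
  IntermediateField.adjoin k (Set.range (fun a => S.U (Multiplicative.ofAdd a)) ∪ {S.x})

/-- `e` is a monomial times a unit of the local ring of the frame -/
def MU {V : RV k K} (S : Fr V r) (e : K) : Prop :=
  ∃ (a : Fin r → ℤ) (h1 h2 : LA k[X] r), GeL S.φ h1 0 ∧ (h1.coeff 0).coeff 0 ≠ 0 ∧
    GeL S.φ h2 0 ∧ (h2.coeff 0).coeff 0 ≠ 0 ∧
    e * evP S.U S.x h2 = S.U (Multiplicative.ofAdd a) * evP S.U S.x h1

/-- `x` is transcendental over the monomials -/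
def Fr.tr {V : RV k K} (S : Fr V r) : Prop :=
  Transcendental (IntermediateField.adjoin k
    (Set.range (fun a => S.U (Multiplicative.ofAdd a)))) S.x

end LX
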