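import Pool.Agent.helper90.LX.FrMon
import Pool.Agent.helper90.LX.Transc
import Pool.Agent.helper90.LX.SUDense
import Pool.Agent.LUV.PerronW

namespace LX

open Polynomial LaurentPolynomial

section aux

variable {k K : Type*} [Field k] [Field K] [Algebra k K] {V : RV k K}

/-- comparison of the two valuations -/
theorem FrEnd.lt_of_gt (W : ValuationSubring K) (hVW : ∀ x : K, x ≠ 0 → (x ∈ W ↔ 0 ≤ V.v x))
    {a c : K} (hc : c ≠ 0) (h : V.Gt a (V.v c)) : W.valuation a < W.valuation c := by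
  have hc' : W.valuation c ≠ 0 := (Valuation.ne_zero_iff _).2 hc
  by_cases ha : a = 0
  · rw [ha, map_zero]
    exact zero_lt_iff.2 hc'
  · have hd : c / a ≠ 0 := div_ne_zero hc ha
    have h1 : ¬ (c / a ∈ W) := by
      rw [hVW _ hd, v_div hc ha]
      have := LX.lt_of_gt ha h
      push Not
      linarith
    rw [← ValuationSubring.valuation_le_one_iff] at h1
    push Not at h1
    rw [map_div₀] at h1
    have ha' : 0 < W.valuation a := zero_lt_iff.2 ((Valuation.ne_zero_iff _).2 ha)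
    exact (one_lt_div₀ ha').1 h1

theorem FrEnd.lt_one (W : ValuationSubring K) (hVW : ∀ x : K, x ≠ 0 → (x ∈ W ↔ 0 ≤ V.v x))
    {a : K} (h : V.Gt a 0) : W.valuation a < 1 := by
  have h1 := FrEnd.lt_of_gt W hVW (a := a) (c := 1) one_ne_zero (by rw [v_one]; exact h)
  rwa [map_one] at h1

/-- integral elements -/
def FrEnd.O (V : RV k K) : Subring K where
  carrier := {x | V.Ge x 0}
  mul_mem' := fun {a b} ha hb => by
    have := ge_mul ha hb
    rwa [add_zero] at this
  one_mem' := ge_one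
  add_mem' := fun ha hb => ge_add ha hb
  zero_mem' := ge_zero 0
  neg_mem' := fun ha => ge_neg ha

theorem FrEnd.exp (g : K[X]) (hg : ∀ i, V.Ge (g.coeff i) 0) {a b : K} (ha : V.Ge a 0)
    (hb : V.Ge b 0) :
    (∃ q, V.Ge q 0 ∧ g.eval (a + b) = g.eval a + (derivative g).eval a * b + q * b ^ 2) ∧
    (∃ q, V.Ge q 0 ∧ (derivative g).eval a = g.coeff 1 + q * a) ∧
    (∃ q, V.Ge q 0 ∧ g.eval a = g.coeff 0 + q * a) := by
  have hp : (g.coeffs : Set K) ⊆ (FrEnd.O V : Subring K) := by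
    intro c hc
    obtain ⟨n, _, rfl⟩ := Polynomial.mem_coeffs_iff.1 hc
    exact hg n
  obtain ⟨G, hG⟩ : ∃ G : (FrEnd.O V)[X], G.map (FrEnd.O V).subtype = g :=
    ⟨g.toSubring _ hp, Polynomial.map_toSubring _ _ _⟩
  have he : ∀ (P : (FrEnd.O V)[X]) (c : FrEnd.O V),
      (P.map (FrEnd.O V).subtype).eval (c : K) = ((P.eval c : FrEnd.O V) : K) := by
    intro P c
    rw [Polynomial.eval_map]
    exact Polynomial.eval₂_at_apply (FrEnd.O V).subtype c
  obtain ⟨q, hq⟩ := Polynomial.binomExpansion G ⟨a, ha⟩ ⟨b, hb⟩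
  obtain ⟨q1, hq1⟩ := Polynomial.evalSubFactor (derivative G) ⟨a, ha⟩ 0
  obtain ⟨q2, hq2⟩ := Polynomial.evalSubFactor G ⟨a, ha⟩ 0
  have hd : derivative g = (derivative G).map (FrEnd.O V).subtype := by
    rw [← hG, Polynomial.derivative_map]
  have e0 : ∀ P : (FrEnd.O V)[X], P.eval 0 = P.coeff 0 := fun P => by
    rw [Polynomial.coeff_zero_eq_eval_zero]
  have ea : ∀ P : (FrEnd.O V)[X], (P.map (FrEnd.O V).subtype).eval a =
      ((P.eval ⟨a, ha⟩ : FrEnd.O V) : K) := fun P => he P ⟨a, ha⟩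
  have eab : (G.map (FrEnd.O V).subtype).eval (a + b) =
      ((G.eval (⟨a, ha⟩ + ⟨b, hb⟩) : FrEnd.O V) : K) := he G (⟨a, ha⟩ + ⟨b, hb⟩)
  refine ⟨⟨q, q.2, ?_⟩, ⟨q1, q1.2, ?_⟩, ⟨q2, q2.2, ?_⟩⟩
  · have h1 := congrArg (FrEnd.O V).subtype hq
    rw [map_add, map_add, map_mul, map_mul, map_pow] at h1
    rw [hd, ← hG, eab, ea, ea]
    exact h1
  · have h1 := congrArg (FrEnd.O V).subtype hq1
    rw [map_sub, map_mul, sub_zero, e0, Polynomial.coeff_derivative] at h1
    have h2 : (FrEnd.O V).subtype (G.coeff (0 + 1) * ((0 : ℕ) + 1)) = g.coeff 1 := by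
      rw [← hG, Polynomial.coeff_map]
      simp
    rw [h2] at h1
    rw [hd, ea]
    have h3 : (((derivative G).eval ⟨a, ha⟩ : FrEnd.O V) : K) - g.coeff 1 = (q1 : K) * a := h1
    linear_combination h3
  · have h1 := congrArg (FrEnd.O V).subtype hq2
    rw [map_sub, map_mul, sub_zero, e0] at h1
    have h2 : (FrEnd.O V).subtype (G.coeff 0) = g.coeff 0 := by
      rw [← hG, Polynomial.coeff_map]
    rw [h2] at h1
    rw [show g.eval a = ((G.eval ⟨a, ha⟩ : FrEnd.O V) : K) by rw [← he, hG]]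
    have h3 : ((G.eval ⟨a, ha⟩ : FrEnd.O V) : K) - g.coeff 0 = (q2 : K) * a := h1
    linear_combination h3

/-- the derivative is a unit near zero -/
theorem FrEnd.der (g : K[X]) (hg : ∀ i, V.Ge (g.coeff i) 0)
    {a : K} (ha : V.Gt a 0) : V.Gt ((derivative g).eval a - g.coeff 1) 0 := by
  obtain ⟨-, ⟨q, hq, h⟩, -⟩ := FrEnd.exp g hg (ge_of_gt ha) (ge_of_gt ha)
  rw [h, add_sub_cancel_left, mul_comm]
  have := gt_mul ha hq
  rwa [add_zero] at this

theorem FrEnd.unit_of {c d : K} (hc : c ≠ 0) (hc0 : V.v c = 0) (h : V.Gt (d - c) 0) :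
    d ≠ 0 ∧ V.v d = 0 := by
  have h1 : d = c + (d - c) := by ring
  rw [← hc0] at h
  rw [h1]
  exact ⟨add_ne hc h, by rw [v_add hc h, hc0]⟩

/-- Newton iteration in a subfield -/
theorem FrEnd.newton (E : IntermediateField k K) (g : K[X]) (hE : ∀ i, g.coeff i ∈ E)
    (hg : ∀ i, V.Ge (g.coeff i) 0) (hg0 : V.Gt (g.coeff 0) 0) (hg1 : g.coeff 1 ≠ 0)
    (hg2 : V.v (g.coeff 1) = 0) :
    ∃ ε : ℝ, 0 < ε ∧ ∀ n : ℕ, ∃ t ∈ E, V.Gt t 0 ∧ V.Ge (g.eval t) (2 ^ n * ε) := by
  have hev : ∀ t ∈ E, g.eval t ∈ E := by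
    intro t ht
    rw [Polynomial.eval_eq_sum_range]
    exact E.sum_mem fun i _ => E.mul_mem (hE i) (pow_mem ht i)
  have hevd : ∀ t ∈ E, (derivative g).eval t ∈ E := by
    intro t ht
    rw [Polynomial.eval_eq_sum_range]
    refine E.sum_mem fun i _ => E.mul_mem ?_ (pow_mem ht i)
    rw [Polynomial.coeff_derivative]
    exact E.mul_mem (hE _) (by exact_mod_cast E.natCast_mem (i + 1))
  have h0 : g.eval 0 = g.coeff 0 := by rw [Polynomial.coeff_zero_eq_eval_zero]
  obtain ⟨ε, hε, hε1⟩ : ∃ ε : ℝ, 0 < ε ∧ V.Ge (g.eval 0) ε := by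
    rw [h0]
    rcases hg0 with h | h
    · exact ⟨1, one_pos, Or.inl h⟩
    · exact ⟨_, h, ge_self _⟩
  refine ⟨ε, hε, fun n => ?_⟩
  induction n with
  | zero => exact ⟨0, E.zero_mem, gt_zero 0, by simpa using hε1⟩
  | succ n ih =>
    obtain ⟨t, htE, ht, ht1⟩ := ih
    have hs : 0 < (2 : ℝ) ^ n * ε := by positivity
    obtain ⟨hD, hD0⟩ := FrEnd.unit_of hg1 hg2 (FrEnd.der g hg ht)
    have hq : V.Ge (g.eval t / (derivative g).eval t) (2 ^ n * ε) := by
      have := ge_div ht1 hD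
      rwa [hD0, sub_zero] at this
    have hq' : V.Gt (g.eval t / (derivative g).eval t) 0 := gt_of_ge hq hs
    refine ⟨t + -(g.eval t / (derivative g).eval t),
      E.add_mem htE (E.neg_mem (E.div_mem (hev t htE) (hevd t htE))),
      gt_add ht (gt_neg hq'), ?_⟩
    obtain ⟨⟨q, hq1, h⟩, -, -⟩ := FrEnd.exp g hg (ge_of_gt ht) (ge_neg (ge_of_gt hq'))
    rw [h]
    have h2 : g.eval t + (derivative g).eval t * -(g.eval t / (derivative g).eval t) = 0 := by
      field_simp
      ring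
    rw [h2, zero_add, neg_sq]
    refine ge_mono (ge_mul hq1 (ge_pow hq 2)) ?_
    rw [pow_succ]
    push_cast
    linarith

/-- approximations of the root -/
theorem FrEnd.close (E : IntermediateField k K) (g : K[X]) (hE : ∀ i, g.coeff i ∈ E)
    (hg : ∀ i, V.Ge (g.coeff i) 0) (hg0 : V.Gt (g.coeff 0) 0) (hg1 : g.coeff 1 ≠ 0)
    (hg2 : V.v (g.coeff 1) = 0) (y : K) (hy : V.Gt y 0) (hr : g.eval y = 0) (N : ℝ) :
    ∃ t ∈ E, V.Gt (y - t) N := by
  obtain ⟨ε, hε, H⟩ := FrEnd.newton (V := V) E g hE hg hg0 hg1 hg2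
  obtain ⟨n, hn⟩ := pow_unbounded_of_one_lt (N / ε) (one_lt_two : (1 : ℝ) < 2)
  rw [div_lt_iff₀ hε] at hn
  obtain ⟨t, htE, ht, ht1⟩ := H n
  refine ⟨t, htE, ?_⟩
  have hb := gt_sub hy ht
  obtain ⟨⟨q, hq1, h⟩, -, -⟩ := FrEnd.exp g hg (ge_of_gt ht) (ge_of_gt hb)
  rw [add_sub_cancel, hr] at h
  have h3 : V.Gt ((derivative g).eval t + q * (y - t) - g.coeff 1) 0 := by
    have h4 := FrEnd.der g hg ht
    have h5 : V.Gt (q * (y - t)) 0 := by
      rw [mul_comm]
      have := gt_mul hb hq1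
      rwa [add_zero] at this
    have h6 := gt_add h4 h5
    rwa [show (derivative g).eval t - g.coeff 1 + q * (y - t) =
      (derivative g).eval t + q * (y - t) - g.coeff 1 by ring] at h6
  obtain ⟨hD, hD0⟩ := FrEnd.unit_of hg1 hg2 h3
  have h4 : y - t = -(g.eval t / ((derivative g).eval t + q * (y - t))) := by
    rw [eq_neg_iff_add_eq_zero, ← mul_right_inj' hD, mul_zero, mul_add, mul_div_cancel₀ _ hD]
    linear_combination -h
  rw [h4]
  refine gt_neg ?_
  have := ge_div ht1 hD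
  rw [hD0, sub_zero] at this
  exact gt_of_ge this hn

/-- closure of a subfield -/
def FrEnd.Cl (V : RV k K) (E : IntermediateField k K) : IntermediateField k K where
  carrier := {z | ∀ N : ℝ, ∃ t ∈ E, V.Gt (z - t) N}
  algebraMap_mem' c N := ⟨algebraMap k K c, E.algebraMap_mem c, by rw [sub_self]; exact gt_zero N⟩
  add_mem' := by
    intro a b ha hb N
    obtain ⟨t, ht, h1⟩ := ha N
    obtain ⟨s, hs, h2⟩ := hb N
    refine ⟨t + s, E.add_mem ht hs, ?_⟩
    rw [add_sub_add_comm]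
    exact gt_add h1 h2
  mul_mem' := by
    intro a b ha hb N
    obtain ⟨t, ht, h1⟩ := ha (max N (N - V.v b))
    obtain ⟨s, hs, h2⟩ := hb (max 0 (N - V.v a))
    refine ⟨t * s, E.mul_mem ht hs, ?_⟩
    have h3 : a * b - t * s = a * (b - s) + ((a - t) * b - (a - t) * (b - s)) := by ring
    rw [h3]
    refine gt_add ?_ (gt_sub ?_ ?_)
    · rw [mul_comm]
      exact gt_mono (gt_mul (gt_mono h2 (le_max_right _ _)) (ge_self a)) (by linarith)
    · exact gt_mono (gt_mul (gt_mono h1 (le_max_right _ _)) (ge_self b)) (by linarith)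
    · exact gt_mono (gt_mul (gt_mono h1 (le_max_left _ _))
        (ge_of_gt (gt_mono h2 (le_max_left _ _)))) (by linarith)
  inv_mem' := by
    intro a ha N
    by_cases h0 : a = 0
    · refine ⟨0, E.zero_mem, ?_⟩
      rw [h0, inv_zero, sub_zero]
      exact gt_zero N
    · obtain ⟨t, ht, h1⟩ := ha (max (V.v a) (N + 2 * V.v a))
      have h2 : V.Gt (t - a) (V.v a) := by
        rw [← neg_sub]
        exact gt_neg (gt_mono h1 (le_max_left _ _))
      have h3 : t ≠ 0 := by
        have := add_ne h0 h2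
        rwa [add_sub_cancel] at this
      have h4 : V.v t = V.v a := by
        have := v_add h0 h2
        rwa [add_sub_cancel] at this
      refine ⟨t⁻¹, E.inv_mem ht, ?_⟩
      have h5 : a⁻¹ - t⁻¹ = -((a - t) / (a * t)) := by
        field_simp
        ring
      rw [h5]
      refine gt_neg (gt_mono (gt_div (gt_mono h1 (le_max_right _ _)) (mul_ne_zero h0 h3)) ?_)
      rw [V.map_mul _ _ h0 h3, h4]
      linarith

theorem FrEnd.evP_mem {r : ℕ} (E : IntermediateField k K) (U : Multiplicative (Fin r → ℤ) →* K)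
    (x : K) (hU : ∀ a, U (Multiplicative.ofAdd a) ∈ E) (hx : x ∈ E) (h : LA k[X] r) :
    evP U x h ∈ E := by
  have h1 : evP U x h = ∑ a ∈ h.coeff.support,
      Polynomial.aeval x (h.coeff a) * U (Multiplicative.ofAdd a) := by
    conv_lhs => rw [← AddMonoidAlgebra.sum_coeff_single h]
    rw [Finsupp.sum, map_sum]
    refine Finset.sum_congr rfl fun a _ => ?_
    rw [evP, ev_single]
    rfl
  rw [h1]
  refine E.sum_mem fun a _ => E.mul_mem ?_ (hU a)
  rw [Polynomial.aeval_eq_sum_range]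
  exact E.sum_mem fun i _ => by
    rw [Algebra.smul_def]
    exact E.mul_mem (E.algebraMap_mem _) (pow_mem hx i)

/-- the equation over `K` -/
noncomputable def FrEnd.eq {r : ℕ} (S : State V r 1) : K[X] :=
  Polynomial.map (evP (fstU S.U) S.x.fst) S.f

theorem FrEnd.eq_coeff {r : ℕ} (S : State V r 1) (i : ℕ) :
    (FrEnd.eq S).coeff i = evP (fstU S.U) S.x.fst (S.f.coeff i) := by
  rw [FrEnd.eq, Polynomial.coeff_map]

theorem FrEnd.eq_ge {r : ℕ} (S : State V r 1) (i : ℕ) : V.Ge ((FrEnd.eq S).coeff i) 0 := by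
  rw [FrEnd.eq_coeff]
  exact ge_evP S.mon (ge_of_gt S.x_pos) (S.pos i)

theorem FrEnd.eq_zero {r : ℕ} (S : State V r 1) : V.Gt ((FrEnd.eq S).coeff 0) 0 := by
  rw [FrEnd.eq_coeff]
  exact gt_evP_zero S.inj S.mon S.x_pos (S.pos 0) (S.low 0 one_pos)

theorem FrEnd.eq_one {r : ℕ} (S : State V r 1) :
    (FrEnd.eq S).coeff 1 ≠ 0 ∧ V.v ((FrEnd.eq S).coeff 1) = 0 := by
  rw [FrEnd.eq_coeff]
  exact val_evP S.inj S.mon S.x_pos (S.pos 1) S.top

theorem FrEnd.eq_root {r : ℕ} (S : State V r 1) : (FrEnd.eq S).eval S.y.fst = 0 := by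
  rw [FrEnd.eq, ← evPZ_eq_eval, ← fst_evPZ]
  exact S.root

theorem FrEnd.U_mem {r : ℕ} (S : State V r 1) (a : Fin r → ℤ) :
    fstU S.U (Multiplicative.ofAdd a) ∈ IntermediateField.adjoin k
      (Set.range (fun a => (S.U (Multiplicative.ofAdd a)).fst) ∪ {S.x.fst}) :=
  IntermediateField.subset_adjoin _ _ (Or.inl ⟨a, rfl⟩)

theorem FrEnd.x_mem {r : ℕ} (S : State V r 1) :
    S.x.fst ∈ IntermediateField.adjoin k
      (Set.range (fun a => (S.U (Multiplicative.ofAdd a)).fst) ∪ {S.x.fst}) :=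
  IntermediateField.subset_adjoin _ _ (Or.inr rfl)

theorem FrEnd.eq_mem {r : ℕ} (S : State V r 1) (i : ℕ) :
    (FrEnd.eq S).coeff i ∈ IntermediateField.adjoin k
      (Set.range (fun a => (S.U (Multiplicative.ofAdd a)).fst) ∪ {S.x.fst}) := by
  rw [FrEnd.eq_coeff]
  exact FrEnd.evP_mem _ _ _ (FrEnd.U_mem S) (FrEnd.x_mem S) _

end aux

section aux2

variable {k K : Type*} [Field k] [Field K] [Algebra k K] {V : RV k K} {r : ℕ}

/-- monomials in a basis -/
theorem FrEnd.U_prod (U : Multiplicative (Fin r → ℤ) →* K)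
    (b : Module.Basis (Fin r) ℤ (Fin r → ℤ)) (a : Fin r → ℤ) :
    U (Multiplicative.ofAdd a) = ∏ i, U (Multiplicative.ofAdd (b i)) ^ (b.repr a i) := by
  have h1 : U.toHomUnits (Multiplicative.ofAdd a) =
      ∏ i, U.toHomUnits (Multiplicative.ofAdd (b i)) ^ (b.repr a i) := by
    conv_lhs => rw [← b.sum_repr a]
    rw [ofAdd_sum, map_prod]
    refine Finset.prod_congr rfl fun i _ => ?_
    rw [ofAdd_zsmul, map_zpow]
  have h2 := congrArg (Units.coeHom K) h1
  rw [map_prod] at h2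
  have h3 : ∀ c, Units.coeHom K (U.toHomUnits c) = U c := fun c => rfl
  rw [h3] at h2
  rw [h2]
  refine Finset.prod_congr rfl fun i _ => ?_
  rw [map_zpow, h3]

/-- conversion to polynomials in the parameters -/
noncomputable def FrEnd.toMv (b : Module.Basis (Fin r) ℤ (Fin r → ℤ)) (h : LA k[X] r) :
    MvPolynomial (Fin (r + 1)) k :=
  ∑ a ∈ h.coeff.support, (∏ i : Fin r, MvPolynomial.X i.castSucc ^ (b.repr a i).toNat) *
    Polynomial.aeval (MvPolynomial.X (Fin.last r)) (h.coeff a)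

theorem FrEnd.toMv_aeval (b : Module.Basis (Fin r) ℤ (Fin r → ℤ))
    (U : Multiplicative (Fin r → ℤ) →* K) (x : K) (s : Fin (r + 1) → K)
    (hs : ∀ i : Fin r, s i.castSucc = U (Multiplicative.ofAdd (b i))) (hl : s (Fin.last r) = x)
    (h : LA k[X] r) (hh : ∀ a, h.coeff a ≠ 0 → ∀ i, 0 ≤ b.repr a i) :
    MvPolynomial.aeval s (FrEnd.toMv b h) = evP U x h := by
  have h1 : evP U x h = ∑ a ∈ h.coeff.support,
      Polynomial.aeval x (h.coeff a) * U (Multiplicative.ofAdd a) := by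
    conv_lhs => rw [← AddMonoidAlgebra.sum_coeff_single h]
    rw [Finsupp.sum, map_sum]
    refine Finset.sum_congr rfl fun a _ => ?_
    rw [evP, ev_single]
    rfl
  rw [h1, FrEnd.toMv, map_sum]
  refine Finset.sum_congr rfl fun a ha => ?_
  rw [map_mul, map_prod, mul_comm, ← Polynomial.aeval_algHom_apply, MvPolynomial.aeval_X, hl,
    FrEnd.U_prod U b a]
  congr 1
  refine Finset.prod_congr rfl fun i _ => ?_
  rw [map_pow, MvPolynomial.aeval_X, hs]
  have h2 := Int.toNat_of_nonneg (hh a (Finsupp.mem_support_iff.1 ha) i)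
  conv_rhs => rw [← h2]
  rw [zpow_natCast]

theorem FrEnd.toMv_const (b : Module.Basis (Fin r) ℤ (Fin r → ℤ))
    (h : LA k[X] r) (hh : ∀ a, h.coeff a ≠ 0 → ∀ i, 0 ≤ b.repr a i) :
    MvPolynomial.constantCoeff (FrEnd.toMv b h) = (h.coeff 0).coeff 0 := by
  have h0 : ∀ p : k[X], MvPolynomial.constantCoeff
      (Polynomial.aeval (MvPolynomial.X (Fin.last r) : MvPolynomial (Fin (r + 1)) k) p) =
      p.coeff 0 := by
    intro p
    rw [Polynomial.aeval_def, Polynomial.hom_eval₂, MvPolynomial.constantCoeff_X,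
      Polynomial.coeff_zero_eq_eval_zero]
    have : (MvPolynomial.constantCoeff (σ := Fin (r + 1)) (R := k)).comp
        (algebraMap k (MvPolynomial (Fin (r + 1)) k)) = RingHom.id k := by
      ext c
      simp
    rw [this]
    rfl
  rw [FrEnd.toMv, map_sum, Finset.sum_eq_single 0]
  · rw [map_mul, h0, map_prod]
    simp
  · intro a ha ha0
    have h1 : ∃ i, b.repr a i ≠ 0 := by
      by_contra hcon
      push Not at hcon
      apply ha0
      have : b.repr a = 0 := Finsupp.ext hcon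
      simpa using this
    obtain ⟨i, hi⟩ := h1
    have h2 := hh a (Finsupp.mem_support_iff.1 ha) i
    rw [map_mul, map_prod, Finset.prod_eq_zero (Finset.mem_univ i), zero_mul]
    rw [map_pow, MvPolynomial.constantCoeff_X]
    exact zero_pow (by omega)
  · intro ha
    rw [Finsupp.notMem_support_iff] at ha
    rw [ha]
    simp

end aux2

universe u

variable {k K : Type u} [Field k] [Field K] [Algebra k K] {V : RV k K} {r : ℕ}

/-- Perron (`LUV.perron_wt`) for the exponents of the finitely many `h1, h2` and for the `a` with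
`φ a ≥ 0`: parameters `s = (U b_1, .., U b_r, x)`. -/
theorem monF_of_frame (p : ℕ) [Fact p.Prime] [CharP k p] [Algebra.EssFiniteType k K]
    (hstd : Std V r) (W : ValuationSubring K) (hVW : ∀ x : K, x ≠ 0 → (x ∈ W ↔ 0 ≤ V.v x))
    (S : Fr V r) (halg : Algebra.IsAlgebraic S.fld K) (htr : S.tr) :
    MonF W S.fld (r + 1) := by
  classical
  intro Z hZ
  obtain ⟨S', -, hfld, hmu⟩ := fr_mu_all p hstd S halg htr Z hZ
  have hmu' : ∀ z ∈ Z, ∃ (a : Fin r → ℤ) (h1 h2 : LA k[X] r), GeL S'.φ h1 0 ∧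
      (h1.coeff 0).coeff 0 ≠ 0 ∧ GeL S'.φ h2 0 ∧ (h2.coeff 0).coeff 0 ≠ 0 ∧
      z * evP S'.U S'.x h2 = S'.U (Multiplicative.ofAdd a) * evP S'.U S'.x h1 := hmu
  choose! A H1 H2 hA1 hA2 hA3 hA4 hA5 using hmu'
  have hval : ∀ z ∈ Z, V.v z = S'.φ (A z) := by
    intro z hz
    obtain ⟨n1, v1⟩ := val_evP S'.inj S'.mon (Or.inr S'.x_pos) (hA1 z hz) (hA2 z hz)
    obtain ⟨n2, v2⟩ := val_evP S'.inj S'.mon (Or.inr S'.x_pos) (hA3 z hz) (hA4 z hz)
    have h1 := congrArg V.v (hA5 z hz)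
    rw [V.map_mul _ _ (hZ z hz).2 n2, V.map_mul _ _ (S'.mon.ne _) n1, v1, v2, S'.mon.val] at h1
    linarith
  obtain ⟨b, hb, hT⟩ := LUV.perron_wt S'.φ S'.inj
    ((Z.image A).filter (fun a => 0 ≤ S'.φ a) ∪
      (Z.biUnion (fun z => (H1 z).coeff.support) ∪ Z.biUnion (fun z => (H2 z).coeff.support)))
    (by
      intro a ha
      rw [Finset.mem_union, Finset.mem_union, Finset.mem_filter, Finset.mem_biUnion,
        Finset.mem_biUnion] at ha
      rcases ha with ha | ⟨z, hz, ha⟩ | ⟨z, hz, ha⟩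
      · exact ha.2
      · exact hA1 z hz a (Finsupp.mem_support_iff.1 ha)
      · exact hA3 z hz a (Finsupp.mem_support_iff.1 ha))
  have hT1 : ∀ z ∈ Z, ∀ a, (H1 z).coeff a ≠ 0 → ∀ i, 0 ≤ b.repr a i := by
    intro z hz a ha
    exact hT a (Finset.mem_union_right _ (Finset.mem_union_left _
      (Finset.mem_biUnion.2 ⟨z, hz, Finsupp.mem_support_iff.2 ha⟩)))
  have hT2 : ∀ z ∈ Z, ∀ a, (H2 z).coeff a ≠ 0 → ∀ i, 0 ≤ b.repr a i := by
    intro z hz a ha
    exact hT a (Finset.mem_union_right _ (Finset.mem_union_right _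
      (Finset.mem_biUnion.2 ⟨z, hz, Finsupp.mem_support_iff.2 ha⟩)))
  obtain ⟨s, hs1, hs2⟩ : ∃ s : Fin (r + 1) → K,
      (∀ i : Fin r, s i.castSucc = S'.U (Multiplicative.ofAdd (b i))) ∧ s (Fin.last r) = S'.x :=
    ⟨Fin.snoc (α := fun _ => K) (fun i => S'.U (Multiplicative.ofAdd (b i))) S'.x,
      fun i => by simp, by simp⟩
  refine ⟨s, fun i => ?_, ?_, fun z hz => ?_⟩
  · refine Fin.lastCases ?_ (fun i => ?_) i
    · rw [hs2]
      exact ⟨S'.x_ne, FrEnd.lt_one W hVW (Or.inr S'.x_pos)⟩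
    · rw [hs1]
      exact ⟨S'.mon.ne _, FrEnd.lt_one W hVW (Or.inr (by rw [S'.mon.val]; exact hb i))⟩
  · rw [← hfld]
    refine le_antisymm ?_ ?_
    · rw [IntermediateField.adjoin_le_iff]
      rintro _ ⟨i, rfl⟩
      refine Fin.lastCases ?_ (fun i => ?_) i
      · rw [hs2]
        exact IntermediateField.subset_adjoin _ _ (Or.inr rfl)
      · rw [hs1]
        exact IntermediateField.subset_adjoin _ _ (Or.inl ⟨_, rfl⟩)
    · rw [Fr.fld, IntermediateField.adjoin_le_iff]
      rintro _ (⟨a, rfl⟩ | hx)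
      · change S'.U (Multiplicative.ofAdd a) ∈ _
        rw [FrEnd.U_prod S'.U b a]
        refine prod_mem fun i _ => zpow_mem ?_ _
        rw [← hs1]
        exact IntermediateField.subset_adjoin _ _ ⟨_, rfl⟩
      · rw [Set.mem_singleton_iff] at hx
        rw [hx, ← hs2]
        exact IntermediateField.subset_adjoin _ _ ⟨_, rfl⟩
  · refine ⟨Fin.snoc (α := fun _ => ℤ) (b.repr (A z)) 0, FrEnd.toMv b (H1 z),
      FrEnd.toMv b (H2 z), ?_, ?_, ?_, ?_⟩
    · rw [FrEnd.toMv_const b _ (hT1 z hz)]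
      exact hA2 z hz
    · rw [FrEnd.toMv_const b _ (hT2 z hz)]
      exact hA4 z hz
    · rw [FrEnd.toMv_aeval b S'.U S'.x s hs1 hs2 _ (hT1 z hz),
        FrEnd.toMv_aeval b S'.U S'.x s hs1 hs2 _ (hT2 z hz), hA5 z hz,
        FrEnd.U_prod S'.U b (A z), Fin.prod_univ_castSucc]
      simp [hs1]
    · intro hzW i
      have h1 : z ∈ W := (ValuationSubring.valuation_le_one_iff W z).1 hzW
      rw [hVW z (hZ z hz).2, hval z hz] at h1
      have h2 := hT (A z) (Finset.mem_union_left _ (Finset.mem_filter.2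
        ⟨Finset.mem_image_of_mem _ hz, h1⟩))
      refine Fin.lastCases ?_ (fun i => ?_) i
      · simp
      · simpa using h2 i

/-- Density of `k(u,x)` in `K` for a state of multiplicity one: Newton iteration
`t_(j+1) = t_j - f(t_j)/c1`, `c1 = ((f.coeff 1).coeff 0).coeff 0`, in `k[X][u^G]`: with
`g_j = f(t_j)` evaluated at `(u,x)`, `g_(j+1)` is a sum of products of `g_j` with elements of the
ideal of positive values; the positive values occurring are bounded below by a fixed `ε > 0` (the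
least positive value among the finitely many exponents of `f`, of `x` and of `g_0`), so
`V(g_j) ≥ (j+1) ε`, and `V(z - t_j) = V(g_j)`. Then every element of `K = E(z)` is approximated. -/
theorem denseF_of_state (W : ValuationSubring K)
    (hVW : ∀ x : K, x ≠ 0 → (x ∈ W ↔ 0 ≤ V.v x)) (S : State V r 1)
    (hr : 0 < r) :
    DenseF W (IntermediateField.adjoin k
      (Set.range (fun a => (S.U (Multiplicative.ofAdd a)).fst) ∪ {S.x.fst})) := by
  have hcl : FrEnd.Cl V (IntermediateField.adjoin k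
      (Set.range (fun a => (S.U (Multiplicative.ofAdd a)).fst) ∪ {S.x.fst})) = ⊤ := by
    rw [eq_top_iff, ← S.gen, IntermediateField.adjoin_le_iff]
    rintro z (⟨a, rfl⟩ | hz) N
    · exact ⟨_, FrEnd.U_mem S a, by rw [fstU_apply, sub_self]; exact gt_zero N⟩
    · rcases hz with rfl | hz
      · exact ⟨_, FrEnd.x_mem S, by rw [sub_self]; exact gt_zero N⟩
      · rw [Set.mem_singleton_iff] at hz
        rw [hz]
        exact FrEnd.close _ (FrEnd.eq S) (FrEnd.eq_mem S) (FrEnd.eq_ge S) (FrEnd.eq_zero S)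
          (FrEnd.eq_one S).1 (FrEnd.eq_one S).2 _ S.y_pos (FrEnd.eq_root S) N
  intro z c hc
  have hz : z ∈ FrEnd.Cl V (IntermediateField.adjoin k
      (Set.range (fun a => (S.U (Multiplicative.ofAdd a)).fst) ∪ {S.x.fst})) := by
    rw [hcl]; trivial
  obtain ⟨t, ht, h1⟩ := hz (V.v c)
  exact ⟨t, ht, FrEnd.lt_of_gt W hVW hc h1⟩

theorem FrEnd.sep_y (S : State V r 1) :
    IsSeparable (IntermediateField.adjoin k
      (Set.range (fun a => (S.U (Multiplicative.ofAdd a)).fst) ∪ {S.x.fst})) S.y.fst := by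
  set E := IntermediateField.adjoin k
      (Set.range (fun a => (S.U (Multiplicative.ofAdd a)).fst) ∪ {S.x.fst}) with hE
  obtain ⟨g, hg⟩ : ∃ g : E[X], g.map (algebraMap E K) = FrEnd.eq S := by
    refine ⟨∑ i ∈ Finset.range ((FrEnd.eq S).natDegree + 1),
      Polynomial.monomial i (⟨(FrEnd.eq S).coeff i, FrEnd.eq_mem S i⟩ : E), ?_⟩
    rw [Polynomial.map_sum]
    conv_rhs => rw [(FrEnd.eq S).as_sum_range' _ (Nat.lt_succ_self _)]
    refine Finset.sum_congr rfl fun i _ => ?_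
    rw [Polynomial.map_monomial]
    rfl
  have hroot : Polynomial.aeval S.y.fst g = 0 := by
    rw [Polynomial.aeval_def, ← Polynomial.eval_map, hg]
    exact FrEnd.eq_root S
  have hder : Polynomial.aeval S.y.fst (derivative g) ≠ 0 := by
    rw [Polynomial.aeval_def, ← Polynomial.eval_map, ← Polynomial.derivative_map, hg]
    exact (FrEnd.unit_of (FrEnd.eq_one S).1 (FrEnd.eq_one S).2
      (FrEnd.der (FrEnd.eq S) (FrEnd.eq_ge S) S.y_pos)).1
  have hg0 : g ≠ 0 := by
    rintro rfl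
    simp at hder
  have hint : IsIntegral E S.y.fst := IsAlgebraic.isIntegral ⟨g, hg0, hroot⟩
  obtain ⟨q, hq⟩ := minpoly.dvd E S.y.fst hroot
  refine (Polynomial.separable_iff_derivative_ne_zero (minpoly.irreducible hint)).2 fun h => ?_
  apply hder
  rw [hq, Polynomial.derivative_mul, h, zero_mul, zero_add, map_mul, minpoly.aeval, zero_mul]

theorem FrEnd.adjoin_y (S : State V r 1) :
    IntermediateField.adjoin (IntermediateField.adjoin k
      (Set.range (fun a => (S.U (Multiplicative.ofAdd a)).fst) ∪ {S.x.fst})) {S.y.fst} = ⊤ := by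
  set E := IntermediateField.adjoin k
      (Set.range (fun a => (S.U (Multiplicative.ofAdd a)).fst) ∪ {S.x.fst}) with hE
  apply IntermediateField.restrictScalars_injective k
  rw [IntermediateField.restrictScalars_top, eq_top_iff, ← S.gen, IntermediateField.adjoin_le_iff]
  rintro z (⟨a, rfl⟩ | hz)
  · exact (IntermediateField.adjoin E {S.y.fst}).algebraMap_mem
      (⟨_, FrEnd.U_mem S a⟩ : E)
  · rcases hz with rfl | hz
    · exact (IntermediateField.adjoin E {S.y.fst}).algebraMap_mem (⟨_, FrEnd.x_mem S⟩ : E)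
    · rw [Set.mem_singleton_iff] at hz
      rw [hz]
      exact IntermediateField.subset_adjoin E _ (Set.mem_singleton _)

/-- `z` is separable over `k(u,x)`: `f_Z(u,x,z)` is a unit. -/
theorem sep_of_state (S : State V r 1) :
    Algebra.IsSeparable (IntermediateField.adjoin k
      (Set.range (fun a => (S.U (Multiplicative.ofAdd a)).fst) ∪ {S.x.fst})) K := by
  have h1 := (IntermediateField.isSeparable_adjoin_simple_iff_isSeparable _ _).2 (FrEnd.sep_y S)
  rw [FrEnd.adjoin_y S] at h1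
  exact AlgEquiv.Algebra.isSeparable IntermediateField.topEquiv

/-- Strong local uniformization from a state of multiplicity one. -/
theorem strong_one (p : ℕ) [Fact p.Prime] [CharP k p] [Algebra.EssFiniteType k K]
    (hstd : Std V r) (hr : 0 < r) (W : ValuationSubring K) (hW : ∀ c : k, algebraMap k K c ∈ W)
    (harch : MulArchimedean W.ValueGroup)
    (hVW : ∀ x : K, x ≠ 0 → (x ∈ W ↔ 0 ≤ V.v x)) (S : State V r 1) : StrongUnif k W := by
  let F : Fr V r :=
    { φ := S.φ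
      U := fstU S.U
      x := S.x.fst
      inj := S.inj
      mon := S.mon
      x_ne := S.x_ne
      x_pos := LX.lt_of_gt S.x_ne S.x_pos }
  have halg : Algebra.IsAlgebraic F.fld K := alg_of_state S
  have htr : F.tr := transc_of_state hstd S
  have hmon : MonF W F.fld (r + 1) := monF_of_frame p hstd W hVW F halg htr
  have hsep : Algebra.IsSeparable F.fld K := sep_of_state S
  have hd : DenseF W F.fld := denseF_of_state W hVW S hr
  have hint : IsIntegral F.fld S.y.fst := (halg.isAlgebraic S.y.fst).isIntegral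
  have hfin : FiniteDimensional F.fld K := by
    have h1 := IntermediateField.adjoin.finiteDimensional hint
    have h2 : IntermediateField.adjoin F.fld {S.y.fst} = ⊤ := FrEnd.adjoin_y S
    rw [h2] at h1
    exact IntermediateField.topEquiv.toLinearEquiv.finiteDimensional
  exact strong_of_dense W hW (r + 1) (by rw [hstd.tr]; push_cast; rfl) F.fld hsep
    ⟨S.x.fst, S.x_ne, FrEnd.lt_one W hVW S.x_pos⟩ harch hd hmon

end LX
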