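import Mathlib

namespace LX

/-- No infinite sequence of finite sets in which at each step an element `x` is removed and
replaced by at most `N` elements of smaller weight. Hint: `∑ z ∈ S l, (N+1)^(θ z)` decreases. -/
theorem pot {α : Type*} [DecidableEq α] (N : ℕ) (θ : α → ℕ) (S : ℕ → Finset α) (x : ℕ → α)
    (y : ℕ → Finset α) (hx : ∀ l, x l ∈ S l) (hy : ∀ l, ∀ z ∈ y l, θ z < θ (x l))
    (hc : ∀ l, (y l).card ≤ N) (hS : ∀ l, S (l + 1) ⊆ (S l).erase (x l) ∪ y l) : False := by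
  let w : ℕ → ℕ := fun l => ∑ z ∈ S l, (N + 1) ^ θ z
  have hy' : ∀ l, ∑ z ∈ y l, (N + 1) ^ θ z < (N + 1) ^ θ (x l) := by
    intro l
    rcases (y l).eq_empty_or_nonempty with h | ⟨z0, hz0⟩
    · rw [h, Finset.sum_empty]
      exact Nat.pow_pos (Nat.succ_pos N)
    · have h1 : 1 ≤ θ (x l) := Nat.succ_le_of_lt (lt_of_le_of_lt (Nat.zero_le _) (hy l z0 hz0))
      obtain ⟨t, ht⟩ := Nat.exists_eq_add_of_le' h1
      have h2 : ∑ z ∈ y l, (N + 1) ^ θ z ≤ (y l).card • (N + 1) ^ t := by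
        apply Finset.sum_le_card_nsmul
        intro z hz
        have := hy l z hz
        exact Nat.pow_le_pow_right (Nat.succ_pos N) (by omega)
      have h3 : (y l).card • (N + 1) ^ t ≤ N * (N + 1) ^ t := by
        rw [smul_eq_mul]
        exact Nat.mul_le_mul_right _ (hc l)
      have h4 : N * (N + 1) ^ t < (N + 1) ^ θ (x l) := by
        rw [ht, pow_succ, mul_comm]
        exact Nat.mul_lt_mul_of_pos_left (Nat.lt_succ_self N) (Nat.pow_pos (Nat.succ_pos N))
      exact (h2.trans h3).trans_lt h4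
  have hw : ∀ l, w (l + 1) + 1 ≤ w l := by
    intro l
    have h1 : w (l + 1) ≤ ∑ z ∈ (S l).erase (x l) ∪ y l, (N + 1) ^ θ z :=
      Finset.sum_le_sum_of_subset (hS l)
    have h2 : ∑ z ∈ (S l).erase (x l) ∪ y l, (N + 1) ^ θ z
        ≤ ∑ z ∈ (S l).erase (x l), (N + 1) ^ θ z + ∑ z ∈ y l, (N + 1) ^ θ z := by
      rw [← Finset.sum_union_inter]
      exact Nat.le_add_right _ _
    have h3 : ∑ z ∈ (S l).erase (x l), (N + 1) ^ θ z + (N + 1) ^ θ (x l) = w l :=
      Finset.sum_erase_add _ _ (hx l)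
    have h4 := hy' l
    omega
  have hw2 : ∀ l, w l + l ≤ w 0 := by
    intro l
    induction l with
    | zero => simp
    | succ l ih =>
      have := hw l
      omega
  have := hw2 (w 0 + 1)
  omega

/-- A `p`-adic order on lattice vectors. Hint: `padicValInt p` (or `padicValNat` of `natAbs`) of
the gcd of the coordinates (`Finset.univ.gcd`). -/
theorem exists_ord (p : ℕ) [Fact p.Prime] (r : ℕ) :
    ∃ θ : (Fin r → ℤ) → ℕ, ∀ E : Fin r → ℤ, E ≠ 0 → ∀ s : ℕ,
      θ ((p ^ s : ℕ) • E) = s + θ E := by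
  refine ⟨fun E => padicValNat p (Finset.univ.gcd fun i => (E i).natAbs), ?_⟩
  intro E hE s
  have hg : (Finset.univ.gcd fun i => (E i).natAbs) ≠ 0 := by
    intro h
    apply hE
    rw [Finset.gcd_eq_zero_iff] at h
    funext i
    simpa using h i (Finset.mem_univ i)
  have h1 : (Finset.univ.gcd fun i => (((p ^ s : ℕ) • E) i).natAbs)
      = p ^ s * Finset.univ.gcd fun i => (E i).natAbs := by
    have h2 : (fun i => (((p ^ s : ℕ) • E) i).natAbs) = fun i => p ^ s * (E i).natAbs := by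
      funext i
      rw [Pi.smul_apply, nsmul_eq_mul, Int.natAbs_mul, Int.natAbs_natCast]
    rw [h2, Finset.gcd_mul_left, normalize_eq]
  change padicValNat p _ = s + padicValNat p _
  rw [h1, padicValNat.mul (pow_ne_zero _ (Fact.out : p.Prime).ne_zero) hg, padicValNat.prime_pow]

end LX
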