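import Pool.Agent.helper90.LX.SLead
import Pool.Agent.helper90.LX.Binom
import Pool.Agent.helper90.LX.Pot

namespace LX

open Polynomial

variable {R : Type*} [CommRing R] [IsDomain R] {r : ℕ}

/-- The combinatorial heart. All `i` in `I` are powers of `p`.
Let `δ_l = φ(n_i0) + i0 φ(a_l) < μ`; for `i` in `I`, `i < i0`, `φ(n_i) + i φ(a_l) > δ_l`.
(1) If for some `l ≥ l2` the element `h(t_l)` has an exponent of level `< δ_l`, its minimal level `w`
is constant from then on and `w < δ_l' ≤` everything: `SP h` (second part from `hder`).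
(2) Otherwise, for all `l ≥ l2`, the monomial `x_l = n_i0 + i0 a_l` is in the support of `h(t_l)`
(its coefficient must be cancelled at the next step, as all levels of `h(t_(l+1))` are `≥ δ_(l+1)`),
and the sets `S_l = {A in supp h(t_l), φ A < μ}` satisfy
`S_(l+1) ⊆ S_l \ {x_l} ∪ {n_i + i a_l : i in I, i < i0}`. If `I = {i0}`: `pot` with `N = 0`.
Otherwise choose `i1` in `I`, `i1 < i0`, `D = i0 - i1`, `M = D n_i0 + i0 (n_i1 - n_i0)`; by injectivity
of `φ`: `M - D (n_i + i a_l) = i E_l` with `E_l = (n_i1 - n_i0) - D a_l`, `φ(E_l) = D (η - φ(a_l)) > 0`.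
Use `pot` with `θ A = ord (M - D A)` from `exists_ord`: `ord (p^s E) = s + ord E`. -/
theorem sp_of_desc (p : ℕ) [Fact p.Prime] (φ : (Fin r → ℤ) →+ ℝ) (hφ : Function.Injective φ)
    (a : ℕ → Fin r → ℤ) (κ : ℕ → R) (hκ : ∀ l, κ l ≠ 0) (ha : StrictMono fun l => φ (a l))
    (η : ℝ) (hη : Filter.Tendsto (fun l => φ (a l)) Filter.atTop (nhds η)) (h : (LA R r)[X])
    (n : ℕ → Fin r → ℤ) (b : ℕ → R) (I : Finset ℕ) (μ : ℝ) (i0 l2 : ℕ) (hi0 : i0 ∈ I)
    (hb : ∀ i ∈ I, b i ≠ 0) (hI1 : ∀ i ∈ I, 1 ≤ i) (hmax : ∀ i ∈ I, i ≤ i0)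
    (hpow : ∀ i ∈ I, ∃ e : ℕ, i = p ^ e) (hμ : ∀ i ∈ I, φ (n i) + i * η = μ)
    (hstep : ∀ l, l2 ≤ l → ∀ A, φ A < μ → (h.eval (tS a κ (l + 1))).coeff A =
        (h.eval (tS a κ l)).coeff A + ∑ i ∈ I, if A = n i + i • a l then b i * κ l ^ i else 0)
    (hder : ∀ l, l2 ≤ l → ∀ i, 1 ≤ i → GeL φ ((hasseDeriv i h).eval (tS a κ l))
        (φ (n i0) + i0 * φ (a l) - i * φ (a l))) :
    SP φ a κ h := by
  classical
  obtain ⟨ord, hord⟩ := exists_ord p r
  have hp : p.Prime := Fact.out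
  have hmono := ha
  have hns : ∀ (m : ℕ) (v : Fin r → ℤ), φ (m • v) = m * φ v := fun m v => by
    rw [map_nsmul, nsmul_eq_mul]
  have hlt : ∀ l, φ (a l) < η := fun l =>
    (hmono (Nat.lt_succ_self l)).trans_le (hmono.monotone.ge_of_tendsto hη (l + 1))
  set x : ℕ → ℕ → (Fin r → ℤ) := fun i l => n i + i • a l with hx
  have hxlev : ∀ i ∈ I, ∀ l, φ (x i l) = μ - i * (η - φ (a l)) := by
    intro i hi l
    rw [hx]; simp only [map_add, hns]
    have := hμ i hi
    linarith
  have hxlt : ∀ i ∈ I, ∀ l, φ (x i l) < μ := by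
    intro i hi l
    rw [hxlev i hi]
    have h1 : (0 : ℝ) < i := by exact_mod_cast hI1 i hi
    have h2 := hlt l
    nlinarith [mul_pos h1 (sub_pos.2 h2)]
  have hxle : ∀ i ∈ I, ∀ l, φ (x i0 l) ≤ φ (x i l) := by
    intro i hi l
    rw [hxlev i hi, hxlev i0 hi0]
    have h1 : (i : ℝ) ≤ i0 := by exact_mod_cast hmax i hi
    have h2 := hlt l
    nlinarith [mul_nonneg (sub_nonneg.2 h1) (sub_pos.2 h2).le]
  have hxinj : ∀ l, ∀ i ∈ I, ∀ j ∈ I, x i l = x j l → i = j := by
    intro l i hi j hj hij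
    have h1 : φ (x i l) = φ (x j l) := by rw [hij]
    rw [hxlev i hi, hxlev j hj] at h1
    have h2 := hlt l
    have h3 : ((i : ℝ) - j) * (η - φ (a l)) = 0 := by linarith
    rcases mul_eq_zero.1 h3 with h4 | h4
    · exact_mod_cast sub_eq_zero.1 h4
    · linarith
  have hxmono : ∀ l l', l ≤ l' → φ (x i0 l) ≤ φ (x i0 l') := by
    intro l l' hl
    rw [hxlev i0 hi0, hxlev i0 hi0]
    have h1 : φ (a l) ≤ φ (a l') := hmono.monotone hl
    have h2 : (0 : ℝ) ≤ i0 := Nat.cast_nonneg _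
    nlinarith [mul_nonneg h2 (sub_nonneg.2 h1)]
  have hxsmono : ∀ l, φ (x i0 l) < φ (x i0 (l + 1)) := by
    intro l
    rw [hxlev i0 hi0, hxlev i0 hi0]
    have h1 : φ (a l) < φ (a (l + 1)) := hmono (Nat.lt_succ_self l)
    have h2 : (0 : ℝ) < i0 := by exact_mod_cast hI1 i0 hi0
    nlinarith [mul_pos h2 (sub_pos.2 h1)]
  have jump : ∀ l, l2 ≤ l → ∀ A, φ A < μ → (h.eval (tS a κ (l + 1))).coeff A =
      (h.eval (tS a κ l)).coeff A + ∑ i ∈ I, if A = x i l then b i * κ l ^ i else 0 := hstep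
  -- the order function
  have hθ : ∃ θ : (Fin r → ℤ) → ℕ, ∀ l, ∀ i ∈ I, i ≠ i0 → θ (x i l) < θ (x i0 l) := by
    by_cases hex : ∃ i1 ∈ I, i1 ≠ i0
    · obtain ⟨i1, hi1, hne⟩ := hex
      have hlt1 : i1 < i0 := lt_of_le_of_ne (hmax i1 hi1) hne
      set D : ℕ := i0 - i1 with hD
      have hDr : (D : ℝ) = i0 - i1 := by rw [hD, Nat.cast_sub hlt1.le]
      set M0 : Fin r → ℤ := D • n i0 + i0 • (n i1 - n i0) with hM0
      have e0 := hμ i0 hi0
      have e1 := hμ i1 hi1
      have e3 : φ (n i1) - φ (n i0) = D * η := by rw [hDr]; linarith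
      have hE : ∀ l, ∀ i ∈ I, M0 - D • x i l = i • ((n i1 - n i0) - D • a l) := by
        intro l i hi
        apply hφ
        have e2 := hxlev i hi l
        have e4 : φ (n i0) = μ - i0 * η := by linarith
        simp only [hM0, map_sub, map_add, hns, e2]
        rw [e3, e4]
        ring
      have hE0 : ∀ l, (n i1 - n i0) - D • a l ≠ 0 := by
        intro l h0
        have h1 : φ ((n i1 - n i0) - D • a l) = 0 := by rw [h0, map_zero]
        simp only [map_sub, hns] at h1
        have h2 : (0 : ℝ) < D := by exact_mod_cast (by omega : 0 < D)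
        have h3 := hlt l
        have h4 : (D : ℝ) * (η - φ (a l)) = 0 := by linarith
        nlinarith [mul_pos h2 (sub_pos.2 h3)]
      refine ⟨fun y => ord (M0 - D • y), fun l i hi hine => ?_⟩
      simp only
      rw [hE l i hi, hE l i0 hi0]
      obtain ⟨s, hs⟩ := hpow i hi
      obtain ⟨s0, hs0⟩ := hpow i0 hi0
      have hlt2 : i < i0 := lt_of_le_of_ne (hmax i hi) hine
      have hss : s < s0 := by
        rw [hs, hs0] at hlt2
        exact (Nat.pow_lt_pow_iff_right hp.one_lt).1 hlt2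
      have e := hord _ (hE0 l) s
      have e0 := hord _ (hE0 l) s0
      rw [← hs] at e
      rw [← hs0] at e0
      rw [e, e0]
      omega
    · push Not at hex
      exact ⟨fun _ => 0, fun l i hi hine => absurd (hex i hi) hine⟩
  obtain ⟨θ, hθ⟩ := hθ
  by_cases hcase : ∃ l1, l2 ≤ l1 ∧ ∃ A, (h.eval (tS a κ l1)).coeff A ≠ 0 ∧ φ A < φ (x i0 l1)
  · obtain ⟨l1, hl1, A1, hA1, hA1lt⟩ := hcase
    obtain ⟨As, hAs, hAsmin⟩ := ((h.eval (tS a κ l1)).coeff.support).exists_min_image (fun A => φ A)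
      ⟨A1, Finsupp.mem_support_iff.2 hA1⟩
    rw [Finsupp.mem_support_iff] at hAs
    have hw : φ As < φ (x i0 l1) := (hAsmin A1 (Finsupp.mem_support_iff.2 hA1)).trans_lt hA1lt
    have main : ∀ k : ℕ, (h.eval (tS a κ (l1 + k))).coeff As ≠ 0 ∧
        ∀ A, (h.eval (tS a κ (l1 + k))).coeff A ≠ 0 → φ As ≤ φ A := by
      intro k
      induction k with
      | zero => exact ⟨hAs, fun A hA => hAsmin A (Finsupp.mem_support_iff.2 hA)⟩
      | succ k ih =>
        have hst : ∀ A, φ A ≤ φ As → (h.eval (tS a κ (l1 + (k + 1)))).coeff A =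
            (h.eval (tS a κ (l1 + k))).coeff A := by
          intro A hA
          have h1 : φ A < φ (x i0 (l1 + k)) := (hA.trans_lt hw).trans_le (hxmono _ _ (by omega))
          rw [← add_assoc, jump (l1 + k) (by omega) A (h1.trans (hxlt i0 hi0 _)), Finset.sum_eq_zero,
            add_zero]
          intro i hi
          rw [if_neg]
          rintro rfl
          exact absurd (hxle i hi (l1 + k)) (not_le.2 h1)
        refine ⟨by rw [hst As le_rfl]; exact ih.1, fun A hA => ?_⟩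
        by_contra hlt1
        push Not at hlt1
        rw [hst A hlt1.le] at hA
        exact absurd (ih.2 A hA) (not_le.2 hlt1)
    refine ⟨φ As, l1, fun l hl => ?_⟩
    obtain ⟨k, rfl⟩ := Nat.exists_eq_add_of_le hl
    refine ⟨⟨(main k).2, As, (main k).1, rfl⟩, fun i hi A hA => ?_⟩
    have h4 := hder (l1 + k) (by omega) i hi A hA
    have h5 : φ (x i0 l1) ≤ φ (x i0 (l1 + k)) := hxmono _ _ (by omega)
    have h7 : φ (x i0 (l1 + k)) = φ (n i0) + i0 * φ (a (l1 + k)) := by
      rw [hx]; simp only [map_add, hns]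
    linarith
  · push Not at hcase
    exfalso
    have hsum : ∀ l, ∑ i ∈ I, (if x i0 l = x i l then b i * κ l ^ i else 0) = b i0 * κ l ^ i0 := by
      intro l
      rw [Finset.sum_eq_single i0]
      · rw [if_pos rfl]
      · intro i hi hne
        rw [if_neg fun h1 => hne (hxinj l i0 hi0 i hi h1).symm]
      · intro h1; exact absurd hi0 h1
    have hz : ∀ l, l2 ≤ l → (h.eval (tS a κ (l + 1))).coeff (x i0 l) = 0 := by
      intro l hl
      by_contra h0
      exact absurd (hcase (l + 1) (by omega) _ h0) (not_le.2 (hxsmono l))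
    refine pot (I.card) θ (fun m => (h.eval (tS a κ (l2 + m))).coeff.support.filter
      (fun A => φ A < μ)) (fun m => x i0 (l2 + m)) (fun m => (I.erase i0).image fun i => x i (l2 + m))
      ?_ ?_ ?_ ?_
    · intro m
      rw [Finset.mem_filter, Finsupp.mem_support_iff]
      refine ⟨fun h0 => ?_, hxlt i0 hi0 _⟩
      have h1 := jump (l2 + m) (by omega) (x i0 (l2 + m)) (hxlt i0 hi0 _)
      rw [hz (l2 + m) (by omega), h0, hsum, zero_add] at h1
      exact mul_ne_zero (hb i0 hi0) (pow_ne_zero _ (hκ _)) h1.symm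
    · intro m z hz'
      obtain ⟨i, hi, rfl⟩ := Finset.mem_image.1 hz'
      exact hθ _ i (Finset.mem_of_mem_erase hi) (Finset.ne_of_mem_erase hi)
    · intro m
      exact Finset.card_image_le.trans (Finset.card_le_card (Finset.erase_subset i0 I))
    · intro m A hA
      rw [Finset.mem_filter, Finsupp.mem_support_iff, ← add_assoc] at hA
      rw [Finset.mem_union, Finset.mem_erase, Finset.mem_image]
      have hne : A ≠ x i0 (l2 + m) := fun h1 => hA.1 (by rw [h1]; exact hz _ (by omega))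
      by_cases h2 : ∃ i ∈ I.erase i0, x i (l2 + m) = A
      · exact Or.inr h2
      · left
        refine ⟨hne, ?_⟩
        rw [Finset.mem_filter, Finsupp.mem_support_iff]
        refine ⟨?_, hA.2⟩
        have h3 := jump (l2 + m) (by omega) A hA.2
        rw [Finset.sum_eq_zero, add_zero] at h3
        · rw [← h3]; exact hA.1
        · intro i hi
          rw [if_neg]
          intro h4
          by_cases h5 : i = i0
          · exact hne (by rw [h4, h5])
          · exact h2 ⟨i, Finset.mem_erase.2 ⟨h5, hi⟩, h4.symm⟩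

end LX
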