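import Pool.Agent.helper90.LX.SDesc
import Pool.Agent.helper90.LX.SComb

namespace LX

open Polynomial

variable {R : Type*} [CommRing R] [IsDomain R] {r : ℕ}

omit [IsDomain R] in
/-- the minimal level of a nonzero Laurent polynomial -/
private theorem SPlus_min (φ : (Fin r → ℤ) →+ ℝ) {c : LA R r} (hc : c ≠ 0) :
    ∃ A, c.coeff A ≠ 0 ∧ GeL φ c (φ A) := by
  classical
  have hs : c.coeff.support.Nonempty := by
    rw [Finsupp.support_nonempty_iff]
    intro h0
    apply hc
    ext A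
    rw [h0]
    rfl
  obtain ⟨A, hA, hmin⟩ := Finset.exists_min_image c.coeff.support φ hs
  exact ⟨A, Finsupp.mem_support_iff.1 hA, fun B hB => hmin B (Finsupp.mem_support_iff.2 hB)⟩

omit [IsDomain R] in
private theorem SPlus_cast (c : ℕ) (x : LA R r) (A : Fin r → ℤ) :
    ((c : LA R r) * x).coeff A = (c : R) * x.coeff A := by
  induction c with
  | zero => simp
  | succ c ih =>
    rw [Nat.cast_succ, add_mul, one_mul, Nat.cast_succ, add_mul, one_mul, ← ih]
    simp

/-- Elementary stability (S+). Induction on the degree of `h`: for `i ≥ 1` with nonzero Hasse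
derivative, `hasseDeriv i h` has smaller degree, it and all its Hasse derivatives
(`hasseDeriv_comp`: `C(i+j,i)` times `hasseDeriv (i+j) h`) are stable by induction, so `exists_lead`
applies; then `exists_desc`; every `i` in `I` is a power of `p` (`pow_of_dvd`): if `0 < j < i` and
`p ∤ C(i,j)` then `SP` for `q = hasseDeriv (i-j) h` and its `j`-th Hasse derivative
`C(i,j) hasseDeriv i h` gives `φ n_(i-j) < φ n_i + j φ(a_l)`, so
`φ n_(i-j) + (i-j) η < φ n_i + i η = μ`, contradiction to minimality; then `sp_of_desc`. -/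
theorem splus (p : ℕ) [Fact p.Prime] [CharP R p] (φ : (Fin r → ℤ) →+ ℝ)
    (hφ : Function.Injective φ) (a : ℕ → Fin r → ℤ) (κ : ℕ → R) (hκ : ∀ l, κ l ≠ 0)
    (ha : StrictMono fun l => φ (a l)) (hb : ∃ C : ℝ, ∀ l, φ (a l) ≤ C) (h : (LA R r)[X])
    (hh : h ≠ 0) : SP φ a κ h := by
  classical
  obtain ⟨C0, hC0⟩ := hb
  obtain ⟨η, hη⟩ : ∃ η : ℝ, Filter.Tendsto (fun l => φ (a l)) Filter.atTop (nhds η) :=
    ⟨_, tendsto_atTop_ciSup ha.monotone ⟨C0, by rintro _ ⟨l, rfl⟩; exact hC0 l⟩⟩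
  have hηle : ∀ l, φ (a l) ≤ η := fun l => ha.monotone.ge_of_tendsto hη l
  induction hd : h.natDegree using Nat.strong_induction_on generalizing h with
  | _ d ih =>
  -- stability of the Hasse derivatives and of their Hasse derivatives
  have hdeg : ∀ i, 1 ≤ i → hasseDeriv i h ≠ 0 → (hasseDeriv i h).natDegree < d := by
    intro i hi h0
    have h1 : i ≤ h.natDegree := by
      by_contra hlt
      exact h0 (hasseDeriv_eq_zero_of_lt_natDegree h i (not_le.1 hlt))
    have h2 := natDegree_hasseDeriv_le h i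
    omega
  have hSP : ∀ i, 1 ≤ i → ∀ j, hasseDeriv j (hasseDeriv i h) = 0 ∨
      SP φ a κ (hasseDeriv j (hasseDeriv i h)) := by
    intro i hi j
    by_cases h0 : hasseDeriv j (hasseDeriv i h) = 0
    · exact Or.inl h0
    · refine Or.inr (ih _ ?_ _ h0 rfl)
      have h1 : hasseDeriv i h ≠ 0 := by
        intro h2
        rw [h2, map_zero] at h0
        exact h0 rfl
      have h3 := natDegree_hasseDeriv_le (hasseDeriv i h) j
      have h4 := hdeg i hi h1
      omega
  have hSP0 : ∀ i, 1 ≤ i → hasseDeriv i h ≠ 0 → SP φ a κ (hasseDeriv i h) := by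
    intro i hi h0
    have h1 := hSP i hi 0
    rw [hasseDeriv_zero'] at h1
    exact h1.resolve_left h0
  set J : Finset ℕ := (Finset.Icc 1 h.natDegree).filter fun i => hasseDeriv i h ≠ 0 with hJdef
  have hJ1 : ∀ i ∈ J, 1 ≤ i := fun i hi => (Finset.mem_Icc.1 (Finset.mem_filter.1 hi).1).1
  have hJ0 : ∀ i ∈ J, hasseDeriv i h ≠ 0 := fun i hi => (Finset.mem_filter.1 hi).2
  have hJ3 : ∀ i, 1 ≤ i → hasseDeriv i h ≠ 0 → i ∈ J := by
    intro i hi h0
    refine Finset.mem_filter.2 ⟨Finset.mem_Icc.2 ⟨hi, ?_⟩, h0⟩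
    by_contra hlt
    exact h0 (hasseDeriv_eq_zero_of_lt_natDegree h i (not_le.1 hlt))
  have hJ2 : ∀ i, 1 ≤ i → i ∉ J → hasseDeriv i h = 0 := by
    intro i hi hiJ
    by_contra h0
    exact hiJ (hJ3 i hi h0)
  rcases J.eq_empty_or_nonempty with hJe | hJ
  · -- constant polynomial
    have hd0 : h.natDegree = 0 := by
      by_contra h0
      have h1 : hasseDeriv h.natDegree h ≠ 0 := by
        rw [hasseDeriv_natDegree_eq_C]
        intro h2
        exact hh (leadingCoeff_eq_zero.1 (C_eq_zero.1 h2))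
      have h2 := hJ3 _ (Nat.one_le_iff_ne_zero.2 h0) h1
      rw [hJe] at h2
      exact absurd h2 (Finset.notMem_empty _)
    have hC := eq_C_of_natDegree_eq_zero hd0
    have hc0 : h.coeff 0 ≠ 0 := by
      intro h0
      rw [h0, C_0] at hC
      exact hh hC
    obtain ⟨A, hA, hge⟩ := SPlus_min φ hc0
    refine ⟨φ A, 0, fun l _ => ⟨⟨?_, A, ?_, rfl⟩, fun i hi => ?_⟩⟩
    · rw [hC, eval_C]; exact hge
    · rw [hC, eval_C]; exact hA
    · have h1 : hasseDeriv i h = 0 := hJ2 i hi (by rw [hJe]; exact Finset.notMem_empty _)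
      rw [h1, eval_zero]
      exact gtL_zero _
  · -- leading monomials
    have hlead : ∀ i, ∃ (n : Fin r → ℤ) (b : R) (g : ℝ) (l1 : ℕ),
        i ∈ J → Lead φ a κ (hasseDeriv i h) n b g l1 := by
      intro i
      by_cases hi : i ∈ J
      · obtain ⟨n, b, g, l1, hL⟩ := exists_lead φ hφ a κ ha (hasseDeriv i h) (hJ0 i hi)
          (hSP i (hJ1 i hi))
        exact ⟨n, b, g, l1, fun _ => hL⟩
      · exact ⟨0, 0, 0, 0, fun h0 => absurd h0 hi⟩
    choose n b g l1 hL using hlead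
    obtain ⟨g0, hg0, hg0J⟩ : ∃ g0 : ℝ, 0 < g0 ∧ ∀ i ∈ J, g0 ≤ g i := by
      obtain ⟨i, hi, hmin⟩ := Finset.exists_min_image J g hJ
      exact ⟨g i, (hL i hi).2.1, hmin⟩
    have hL0 : ∀ i ∈ J, Lead φ a κ (hasseDeriv i h) (n i) (b i) g0 (J.sup l1) := by
      intro i hi
      obtain ⟨h1, _, h3⟩ := hL i hi
      refine ⟨h1, hg0, fun l hl => ?_⟩
      obtain ⟨h4, h5⟩ := h3 l ((Finset.le_sup hi).trans hl)
      exact ⟨h4, fun A hA hAn => le_trans (by linarith [hg0J i hi]) (h5 A hA hAn)⟩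
    obtain ⟨I, μ, i0, l2, hIJ, hi0, hmax, hμ, hμ2, hstep, hder⟩ :=
      exists_desc φ hφ a κ ha η hη h J hJ hJ1 hJ2 n b g0 (J.sup l1) hL0
    refine sp_of_desc p φ hφ a κ hκ ha η hη h n b I μ i0 l2 hi0 (fun i hi => (hL0 i (hIJ hi)).1)
      (fun i hi => hJ1 i (hIJ hi)) hmax (fun i hi => ?_) hμ hstep hder
    -- indices are powers of `p`
    refine pow_of_dvd p (hJ1 i (hIJ hi)) fun j hj0 hji => ?_
    by_contra hndvd
    have hbin : ((i.choose j : ℕ) : R) ≠ 0 := fun h0 =>
      hndvd ((CharP.cast_eq_zero_iff R p _).1 h0)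
    have hiJ := hIJ hi
    -- the composition
    have hcomp : hasseDeriv j (hasseDeriv (i - j) h) = (i.choose j : ℕ) • hasseDeriv i h := by
      have h1 := congrArg (fun F => F h) (hasseDeriv_comp (R := LA R r) j (i - j))
      have h2 : j + (i - j) = i := by omega
      rw [h2] at h1
      simpa using h1
    have hcoef : ∀ l, J.sup l1 ≤ l →
        ((hasseDeriv j (hasseDeriv (i - j) h)).eval (tS a κ l)).coeff (n i) ≠ 0 := by
      intro l hl
      obtain ⟨h3, _⟩ := (hL0 i hiJ).2.2 l hl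
      rw [hcomp]
      have h4 : (((i.choose j : ℕ) • hasseDeriv i h).eval (tS a κ l)).coeff (n i) =
          ((i.choose j : ℕ) : R) * b i := by
        rw [← h3, nsmul_eq_mul, eval_mul, eval_natCast, SPlus_cast]
      rw [h4]
      exact mul_ne_zero hbin (hL0 i hiJ).1
    have hne : hasseDeriv (i - j) h ≠ 0 := by
      intro h0
      have := hcoef _ le_rfl
      rw [h0, map_zero, eval_zero] at this
      exact this rfl
    have hij1 : 1 ≤ i - j := by omega
    have hijJ : i - j ∈ J := hJ3 _ hij1 hne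
    obtain ⟨w, l0, hw⟩ := hSP0 _ hij1 hne
    set l := max l0 (J.sup l1) with hldef
    obtain ⟨⟨hw1, A, hA, hAw⟩, hw2⟩ := hw l (le_max_left _ _)
    obtain ⟨h5, h6⟩ := (hL0 _ hijJ).2.2 l (le_max_right _ _)
    -- `w = φ n_(i-j)`
    have hwn : φ (n (i - j)) ≤ w := by
      rw [← hAw]
      by_cases hAn : A = n (i - j)
      · rw [hAn]
      · have := h6 A hA hAn
        linarith
    have h7 := hw2 j hj0 (n i) (hcoef l (le_max_right _ _))
    have h8 : φ (n (i - j)) + ((i - j : ℕ) : ℝ) * η < μ := by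
      rw [← hμ i hi]
      have h9 : ((i - j : ℕ) : ℝ) = (i : ℝ) - j := by
        rw [Nat.cast_sub hji.le]
      have h10 := hηle l
      have h11 : (j : ℝ) * φ (a l) ≤ j * η := mul_le_mul_of_nonneg_left h10 (Nat.cast_nonneg j)
      rw [h9]
      nlinarith
    by_cases hijI : i - j ∈ I
    · exact absurd (hμ _ hijI) (ne_of_lt h8)
    · exact absurd (hμ2 _ hijJ hijI) (not_lt.2 h8.le)

end LX
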