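import Pool.Agent.helper90.LX.EvDefs
import Pool.Agent.helper90.LX.SPlus

namespace LX

open Polynomial

variable {k K : Type*} [Field k] [Field K] [Algebra k K] {V : RV k K} {r : ℕ}

theorem NJVal.lean_sum (g : LA k r) :
    g = ∑ a ∈ g.coeff.support, AddMonoidAlgebra.single a (g.coeff a) := by
  classical
  ext A
  rw [AddMonoidAlgebra.coeff_sum, Finsupp.finsetSum_apply]
  by_cases hA : A ∈ g.coeff.support
  · rw [Finset.sum_eq_single A]
    · simp
    · intro b _ hb
      simp [hb]
    · intro h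
      exact absurd hA h
  · rw [Finset.sum_eq_zero]
    · exact Finsupp.notMem_support_iff.1 hA
    · intro b hb
      have : b ≠ A := by
        rintro rfl
        exact hA hb
      simp [this]

theorem NJVal.lean_ev (U : Multiplicative (Fin r → ℤ) →* K) (g : LA k r) :
    ev (algebraMap k K) U g =
      ∑ a ∈ g.coeff.support, algebraMap k K (g.coeff a) * U (Multiplicative.ofAdd a) := by
  conv_lhs => rw [NJVal.lean_sum g, map_sum]
  refine Finset.sum_congr rfl fun a _ => ?_
  rw [ev_single]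

theorem NJVal.lean_ge {φ : (Fin r → ℤ) →+ ℝ} {U : Multiplicative (Fin r → ℤ) →* K}
    (hU : Mon V φ U) {g : LA k r} {s : ℝ} (hg : GeL φ g s) :
    V.Ge (ev (algebraMap k K) U g) s := by
  rw [NJVal.lean_ev]
  refine ge_sum _ _ fun a ha => ?_
  have h1 : V.Ge (U (Multiplicative.ofAdd a)) s := by
    right
    rw [hU.val]
    exact hg a (Finsupp.mem_support_iff.1 ha)
  have h2 := ge_mul (ge_algebraMap (V := V) (g.coeff a)) h1
  rwa [zero_add] at h2

theorem NJVal.lean_gt {φ : (Fin r → ℤ) →+ ℝ} {U : Multiplicative (Fin r → ℤ) →* K}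
    (hU : Mon V φ U) {g : LA k r} {s : ℝ} (hg : GtL φ g s) :
    V.Gt (ev (algebraMap k K) U g) s := by
  rw [NJVal.lean_ev]
  refine gt_sum _ _ fun a ha => ?_
  have h1 : V.Gt (U (Multiplicative.ofAdd a)) s := by
    right
    rw [hU.val]
    exact hg a (Finsupp.mem_support_iff.1 ha)
  have h2 := gt_mul h1 (ge_algebraMap (V := V) (g.coeff a))
  rwa [add_zero, mul_comm] at h2

theorem NJVal.lean_val {φ : (Fin r → ℤ) →+ ℝ} (hφ : Function.Injective φ)
    {U : Multiplicative (Fin r → ℤ) →* K} (hU : Mon V φ U) {g : LA k r} {A : Fin r → ℤ}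
    (hA : g.coeff A ≠ 0) (hg : GeL φ g (φ A)) :
    ev (algebraMap k K) U g ≠ 0 ∧ V.v (ev (algebraMap k K) U g) = φ A := by
  classical
  have h1 : g = AddMonoidAlgebra.single A (g.coeff A) +
      (g - AddMonoidAlgebra.single A (g.coeff A)) := by ring
  have h2 : GtL φ (g - AddMonoidAlgebra.single A (g.coeff A)) (φ A) := by
    intro b hb
    by_cases hbA : A = b
    · subst hbA
      exact absurd (by simp) hb
    · have h3 : g.coeff b ≠ 0 := by
        intro h0
        apply hb
        simp [h0, hbA]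
      exact lt_of_le_of_ne (hg b h3) fun h => hbA (hφ h)
  have h3 : algebraMap k K (g.coeff A) ≠ 0 := by
    intro h0
    exact hA ((algebraMap k K).injective (by rw [h0, map_zero]))
  have h4 : ev (algebraMap k K) U (AddMonoidAlgebra.single A (g.coeff A)) ≠ 0 := by
    rw [ev_single]
    exact mul_ne_zero h3 (hU.ne A)
  have h5 : V.v (ev (algebraMap k K) U (AddMonoidAlgebra.single A (g.coeff A))) = φ A := by
    rw [ev_single, V.map_mul _ _ h3 (hU.ne A), V.map_const _ hA, hU.val, zero_add]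
  have h6 := NJVal.lean_gt hU h2
  rw [← h5] at h6
  constructor
  · rw [h1, map_add]
    exact add_ne h4 h6
  · rw [← h5]
    conv_lhs => rw [h1, map_add]
    exact v_add h4 h6

theorem NJVal.lean_min (φ : (Fin r → ℤ) →+ ℝ) {c : LA k r} (hc : c ≠ 0) :
    ∃ A, c.coeff A ≠ 0 ∧ GeL φ c (φ A) := by
  classical
  have hs : c.coeff.support.Nonempty := by
    rw [Finsupp.support_nonempty_iff]
    intro h0
    apply hc
    ext A
    rw [h0]
    rfl
  obtain ⟨A, hA, hmin⟩ := Finset.exists_min_image c.coeff.support φ hs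
  exact ⟨A, Finsupp.mem_support_iff.1 hA, fun B hB => hmin B (Finsupp.mem_support_iff.2 hB)⟩

theorem NJVal.lean_bdd (φ : (Fin r → ℤ) →+ ℝ) (a : ℕ → Fin r → ℤ) (κ : ℕ → k)
    (ha : StrictMono fun l => φ (a l)) (q : (LA k r)[X]) :
    ∃ B : ℝ, ∀ l, GeL φ (q.eval (tS a κ l)) B := by
  have ht : ∀ l, GeL φ (tS a κ l) (φ (a 0)) := by
    intro l
    refine geL_sum _ _ fun j _ => geL_mono (geL_single (a j) (κ j)) ?_
    exact ha.monotone (Nat.zero_le j)
  induction q using Polynomial.induction_on' with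
  | add p q hp hq =>
    obtain ⟨B, hB⟩ := hp
    obtain ⟨C, hC⟩ := hq
    refine ⟨min B C, fun l => ?_⟩
    rw [eval_add]
    exact geL_add (geL_mono (hB l) (min_le_left _ _)) (geL_mono (hC l) (min_le_right _ _))
  | monomial n c =>
    by_cases hc : c = 0
    · refine ⟨0, fun l => ?_⟩
      rw [hc, map_zero, eval_zero]
      exact geL_zero _
    · obtain ⟨A, _, hA⟩ := NJVal.lean_min φ hc
      refine ⟨φ A + n * φ (a 0), fun l => ?_⟩
      rw [eval_monomial]
      exact geL_mul hA (geL_pow (ht l) n)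

theorem NJVal.lean_taylor (U : Multiplicative (Fin r → ℤ) →* K) (x : K) (h : (LA k r)[X])
    (t : LA k r) :
    ev2 (algebraMap k K) U x h = ev (algebraMap k K) U (h.eval t) +
      ∑ i ∈ Finset.range h.natDegree, ev (algebraMap k K) U ((hasseDeriv (i + 1) h).eval t) *
        (x - ev (algebraMap k K) U t) ^ (i + 1) := by
  have h1 : ev2 (algebraMap k K) U x h =
      ∑ i ∈ Finset.range (h.natDegree + 1), ev (algebraMap k K) U ((hasseDeriv i h).eval t) *
        (x - ev (algebraMap k K) U t) ^ i := by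
    conv_lhs => rw [← sum_taylor_eq h t]
    rw [sum_over_range' _ _ (h.natDegree + 1) (by rw [natDegree_taylor]; exact Nat.lt_succ_self _),
      map_sum]
    · refine Finset.sum_congr rfl fun i _ => ?_
      rw [map_mul, map_pow, map_sub, taylor_coeff]
      simp [ev2]
    · intro i
      simp
  rw [h1, Finset.sum_range_succ', add_comm]
  congr 1
  simp

/-- Values of polynomials in an element `x` with an infinite expansion `x = ∑ κ_l u^(a_l)`.
Taylor: `h(x) = ∑_i (hasseDeriv i h)(t_l)(U) (x - t_l(U))^i`. Bounded case: `splus` (second part):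
all terms `i ≥ 1` have value `> w`, and the term `i = 0` has value exactly `w`, a value of `φ`.
Unbounded case: the coefficients are bounded below, so for large `l` all terms `i ≥ 1` have larger
value than `h(x)`, hence `v(h(x)) = v(h(t_l)(U))`, a value of `φ`. -/
theorem val_expansion (p : ℕ) [Fact p.Prime] [CharP k p] (φ : (Fin r → ℤ) →+ ℝ)
    (hφ : Function.Injective φ) (U : Multiplicative (Fin r → ℤ) →* K) (hU : Mon V φ U) (x : K)
    (a : ℕ → Fin r → ℤ) (κ : ℕ → k) (hκ : ∀ l, κ l ≠ 0) (ha : StrictMono fun l => φ (a l))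
    (hx : ∀ l, x - ev (algebraMap k K) U (tS a κ l) ≠ 0 ∧
      V.v (x - ev (algebraMap k K) U (tS a κ l)) = φ (a l))
    (h : (LA k r)[X]) (hh : ev2 (algebraMap k K) U x h ≠ 0) :
    ∃ A, V.v (ev2 (algebraMap k K) U x h) = φ A := by
  have hh0 : h ≠ 0 := by
    rintro rfl
    exact hh (map_zero _)
  by_cases hb : ∃ C : ℝ, ∀ l, φ (a l) ≤ C
  · obtain ⟨w, l0, hw⟩ := splus p φ hφ a κ hκ ha hb h hh0
    obtain ⟨⟨hw1, A, hA, rfl⟩, hw2⟩ := hw l0 le_rfl
    obtain ⟨h1, h2⟩ := NJVal.lean_val hφ hU hA hw1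
    refine ⟨A, ?_⟩
    rw [NJVal.lean_taylor U x h (tS a κ l0), v_add h1, h2]
    rw [h2]
    refine gt_sum _ _ fun i _ => ?_
    have h3 := NJVal.lean_gt hU (hw2 (i + 1) (Nat.succ_le_succ (Nat.zero_le i)))
    have h4 : V.Ge ((x - ev (algebraMap k K) U (tS a κ l0)) ^ (i + 1))
        (((i + 1 : ℕ) : ℝ) * φ (a l0)) := by
      right
      rw [v_pow (hx l0).1, (hx l0).2]
    have h5 := gt_mul h3 h4
    rwa [sub_add_cancel] at h5
  · push Not at hb
    -- uniform bounds for the coefficients
    have hB := fun i : ℕ => NJVal.lean_bdd φ a κ ha (hasseDeriv (i + 1) h)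
    choose B hB using hB
    set W := V.v (ev2 (algebraMap k K) U x h) with hW
    obtain ⟨M, hM⟩ : ∃ M : ℝ, ∀ i ∈ Finset.range h.natDegree, W - B i ≤ M := by
      obtain ⟨M, hM⟩ := ((Finset.range h.natDegree).image fun i => W - B i).bddAbove
      exact ⟨M, fun i hi => hM (Finset.mem_coe.2 (Finset.mem_image_of_mem _ hi))⟩
    obtain ⟨l, hl⟩ := hb (max M 0)
    have hl1 : M < φ (a l) := lt_of_le_of_lt (le_max_left _ _) hl
    have hl0 : 0 < φ (a l) := lt_of_le_of_lt (le_max_right _ _) hl
    have hT := NJVal.lean_taylor U x h (tS a κ l)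
    have hS : V.Gt (∑ i ∈ Finset.range h.natDegree,
        ev (algebraMap k K) U ((hasseDeriv (i + 1) h).eval (tS a κ l)) *
        (x - ev (algebraMap k K) U (tS a κ l)) ^ (i + 1)) W := by
      refine gt_sum _ _ fun i hi => ?_
      have h3 := NJVal.lean_ge hU (hB i l)
      have h4 : V.Ge ((x - ev (algebraMap k K) U (tS a κ l)) ^ (i + 1))
          (((i + 1 : ℕ) : ℝ) * φ (a l)) := by
        right
        rw [v_pow (hx l).1, (hx l).2]
      refine gt_of_ge (ge_mul h3 h4) ?_
      have h5 := hM i hi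
      have h6 : φ (a l) ≤ ((i + 1 : ℕ) : ℝ) * φ (a l) := by
        push_cast
        nlinarith [Nat.cast_nonneg (α := ℝ) i]
      linarith
    have h7 : ev (algebraMap k K) U (h.eval (tS a κ l)) = ev2 (algebraMap k K) U x h +
        -(∑ i ∈ Finset.range h.natDegree,
        ev (algebraMap k K) U ((hasseDeriv (i + 1) h).eval (tS a κ l)) *
        (x - ev (algebraMap k K) U (tS a κ l)) ^ (i + 1)) := by
      rw [hT]; ring
    have h8 := gt_neg hS
    have h9 : ev (algebraMap k K) U (h.eval (tS a κ l)) ≠ 0 := by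
      rw [h7]
      exact add_ne hh h8
    have h10 : V.v (ev (algebraMap k K) U (h.eval (tS a κ l))) = W := by
      rw [h7]
      exact v_add hh h8
    have h11 : h.eval (tS a κ l) ≠ 0 := by
      intro h0
      rw [h0, map_zero] at h9
      exact h9 rfl
    obtain ⟨A, hA, hge⟩ := NJVal.lean_min φ h11
    exact ⟨A, by rw [← h10]; exact (NJVal.lean_val hφ hU hA hge).2⟩

end LX
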