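import Pool.Agent.helper90.LX.FrNu
import Pool.Agent.helper90.LX.Torsion
import Pool.Agent.helper90.LX.NJVal
import Pool.Agent.helper90.LX.Lat

namespace LX

open Polynomial LaurentPolynomial

variable {k K : Type*} [Field k] [Field K] [Algebra k K] {V : RV k K} {r : ℕ}

theorem FrMon_sum {R : Type*} [CommRing R] (s : LA R r) :
    s = ∑ a ∈ s.coeff.support, AddMonoidAlgebra.single a (s.coeff a) :=
  (AddMonoidAlgebra.sum_coeff_single s).symm

theorem FrMon_gt_ev {φ : (Fin r → ℤ) →+ ℝ} {U : Multiplicative (Fin r → ℤ) →* K} (hU : Mon V φ U)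
    {s : LA k r} {t : ℝ} (hs : GtL φ s t) : V.Gt (ev (algebraMap k K) U s) t := by
  rw [FrMon_sum s, map_sum]
  refine gt_sum _ _ fun a ha => ?_
  rw [ev_single]
  have h0 : s.coeff a ≠ 0 := Finsupp.mem_support_iff.1 ha
  have h1 : V.Gt (U (Multiplicative.ofAdd a)) t := Or.inr (by rw [hU.val a]; exact hs a h0)
  have h2 := gt_mul h1 (ge_algebraMap (V := V) (s.coeff a))
  rw [add_zero] at h2
  rwa [mul_comm] at h2

/-- `x` is not a combination of monomials -/
theorem FrMon_ne (S : Fr V r) (htr : S.tr) (s : LA k r) :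
    S.x - ev (algebraMap k K) S.U s ≠ 0 := by
  intro h
  rw [sub_eq_zero] at h
  have hmem : ev (algebraMap k K) S.U s ∈ IntermediateField.adjoin k
      (Set.range (fun a => S.U (Multiplicative.ofAdd a))) := by
    rw [FrMon_sum s, map_sum]
    refine sum_mem fun a _ => ?_
    rw [ev_single]
    exact mul_mem (IntermediateField.algebraMap_mem _ _)
      (IntermediateField.subset_adjoin _ _ ⟨a, rfl⟩)
  apply htr
  rw [h]
  exact isAlgebraic_algebraMap (⟨_, hmem⟩ : IntermediateField.adjoin k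
      (Set.range (fun a => S.U (Multiplicative.ofAdd a))))

/-- One step of the expansion. -/
theorem FrMon_step (S : Fr V r) (htr : S.tr)
    (hno : ∀ s : LA k r, GtL S.φ s 0 →
      ∃ A, V.v (S.x - ev (algebraMap k K) S.U s) = S.φ A)
    (s : {s : LA k r // GtL S.φ s 0}) :
    ∃ (A : Fin r → ℤ) (c : k), c ≠ 0 ∧ 0 < S.φ A ∧
      S.x - ev (algebraMap k K) S.U s.1 ≠ 0 ∧
      V.v (S.x - ev (algebraMap k K) S.U s.1) = S.φ A ∧
      GtL S.φ (s.1 + AddMonoidAlgebra.single A c) 0 ∧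
      V.Gt (S.x - ev (algebraMap k K) S.U (s.1 + AddMonoidAlgebra.single A c))
        (S.φ A) := by
  classical
  obtain ⟨s, hs⟩ := s
  have hU := S.mon
  have hne : S.x - ev (algebraMap k K) S.U s ≠ 0 := FrMon_ne S htr s
  obtain ⟨A, hA⟩ := hno s hs
  set y := S.x - ev (algebraMap k K) S.U s with hy
  have hpos : 0 < S.φ A := by
    rw [← hA]
    exact lt_of_gt hne (gt_sub (Or.inr S.x_pos) (FrMon_gt_ev hU hs))
  set w := S.U (Multiplicative.ofAdd A) with hw
  have hw0 : w ≠ 0 := hU.ne A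
  have hwv : V.v w = S.φ A := hU.val A
  have hq0 : y / w ≠ 0 := div_ne_zero hne hw0
  have hqv : V.v (y / w) = 0 := by rw [v_div hne hw0, hA, hwv, sub_self]
  obtain ⟨c, hc0, hc⟩ := exists_res_ne hq0 hqv
  refine ⟨A, c, hc0, hpos, hne, hA, ?_, ?_⟩
  · refine gtL_add hs ?_
    intro a ha
    have : A = a := by
      by_contra h
      exact ha (by simp [AddMonoidAlgebra.coeff_single, h])
    rw [← this]
    exact hpos
  · have h1 : S.x - ev (algebraMap k K) S.U (s + AddMonoidAlgebra.single A c) =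
        (y / w - algebraMap k K c) * w := by
      rw [map_add, ev_single, sub_mul, div_mul_cancel₀ _ hw0, hy]
      ring
    rw [h1]
    have h2 := gt_mul hc (ge_self (V := V) w)
    rwa [zero_add, hwv] at h2

/-- If all `x - s(u)` have values in `φ(ℤ^r)`, there is an infinite expansion. -/
theorem FrMon_expansion (S : Fr V r) (htr : S.tr)
    (hno : ∀ s : LA k r, GtL S.φ s 0 →
      ∃ A, V.v (S.x - ev (algebraMap k K) S.U s) = S.φ A) :
    ∃ (a : ℕ → Fin r → ℤ) (κ : ℕ → k), (∀ l, κ l ≠ 0) ∧ (StrictMono fun l => S.φ (a l)) ∧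
      (∀ l, 0 < S.φ (a l)) ∧
      ∀ l, S.x - ev (algebraMap k K) S.U (tS a κ l) ≠ 0 ∧
        V.v (S.x - ev (algebraMap k K) S.U (tS a κ l)) = S.φ (a l) := by
  choose A c hc0 hpos hne hval hgt hnext using FrMon_step S htr hno
  set nx : {s : LA k r // GtL S.φ s 0} → {s : LA k r // GtL S.φ s 0} :=
    fun s => ⟨s.1 + AddMonoidAlgebra.single (A s) (c s), hgt s⟩ with hnx
  set σ : ℕ → {s : LA k r // GtL S.φ s 0} := fun l => nx^[l] ⟨0, gtL_zero 0⟩ with hσ
  have hσs : ∀ l, σ (l + 1) = nx (σ l) := fun l => Function.iterate_succ_apply' nx l _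
  have hts : ∀ l, tS (fun l => A (σ l)) (fun l => c (σ l)) l = (σ l).1 := by
    intro l
    induction l with
    | zero => simp [tS, hσ]
    | succ l ih => rw [tS_succ, ih, hσs]
  refine ⟨fun l => A (σ l), fun l => c (σ l), fun l => hc0 _, ?_, fun l => hpos _, ?_⟩
  · refine strictMono_nat_of_lt_succ fun l => ?_
    have h1 := hnext (σ l)
    have h2 : (σ l).1 + AddMonoidAlgebra.single (A (σ l)) (c (σ l)) = (σ (l + 1)).1 := by
      rw [hσs]
    rw [h2] at h1
    have h3 := lt_of_gt (hne (σ (l + 1))) h1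
    rwa [hval (σ (l + 1))] at h3
  · intro l
    rw [hts l]
    exact ⟨hne _, hval _⟩

/-- Jumps exist for frames (the proof of `exists_nj`, for a frame with `K` algebraic over its
field). -/
theorem fr_nj (p : ℕ) [Fact p.Prime] [CharP k p] [Algebra.EssFiniteType k K]
    (hstd : Std V r) (S : Fr V r) (halg : Algebra.IsAlgebraic S.fld K) (htr : S.tr) :
    ∃ s : LA k r, GtL S.φ s 0 ∧ Nonempty (JD S.φ (V.v (S.x - ev (algebraMap k K) S.U s))) := by
  by_contra hcon
  push Not at hcon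
  have hU := S.mon
  have hno : ∀ s : LA k r, GtL S.φ s 0 →
      ∃ A, V.v (S.x - ev (algebraMap k K) S.U s) = S.φ A := by
    intro s hs
    by_contra hA
    push Not at hA
    obtain ⟨n, a, hn, ha⟩ := torsion hstd S.φ S.inj S.U hU _ (FrMon_ne S htr s)
    obtain ⟨J⟩ := exists_jd S.φ S.inj _ (fun a h => hA a h.symm) n hn a ha
    have := hcon s hs
    exact this.false J
  obtain ⟨a, κ, hκ, ha, -, hx⟩ := FrMon_expansion S htr hno
  have hval := val_expansion p S.φ S.inj S.U hU S.x a κ hκ ha hx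
  set Γ : AddSubgroup ℝ := S.φ.range with hΓ
  have hΓfg : Γ.FG := by
    rw [hΓ, ← AddGroup.fg_iff_addSubgroup_fg]
    exact AddGroup.fg_range _
  -- the subalgebra of polynomial expressions
  set A0 : Subalgebra k K :=
    { (ev2 (algebraMap k K) S.U S.x).range with
      algebraMap_mem' := by
        intro c
        refine ⟨Polynomial.C (AddMonoidAlgebra.single 0 c), ?_⟩
        change ev2 (algebraMap k K) S.U S.x _ = _
        rw [ev2, Polynomial.coe_eval₂RingHom, Polynomial.eval₂_C, ev_single]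
        have : (Multiplicative.ofAdd (0 : Fin r → ℤ)) = 1 := rfl
        rw [this, map_one, mul_one] } with hA0
  have hmem : ∀ z, z ∈ A0 ↔ ∃ h, ev2 (algebraMap k K) S.U S.x h = z := fun z => Iff.rfl
  have hvA : ∀ z ∈ A0, z ≠ 0 → V.v z ∈ Γ := by
    intro z hz hz0
    obtain ⟨h, rfl⟩ := (hmem z).1 hz
    obtain ⟨A, hA⟩ := hval h hz0
    rw [hA]
    exact ⟨A, rfl⟩
  have hvE := val_adjoin V A0 Γ hvA
  have hEle : S.fld ≤ IntermediateField.adjoin k (A0 : Set K) := by
    rw [Fr.fld, IntermediateField.adjoin_le_iff]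
    rintro z (⟨b, rfl⟩ | hz)
    · refine IntermediateField.subset_adjoin k _ ((hmem _).2
        ⟨Polynomial.C (AddMonoidAlgebra.single b 1), ?_⟩)
      rw [ev2, Polynomial.coe_eval₂RingHom, Polynomial.eval₂_C, ev_single, map_one, one_mul]
    · rw [Set.mem_singleton_iff] at hz
      rw [hz]
      refine IntermediateField.subset_adjoin k _ ((hmem _).2 ⟨Polynomial.X, ?_⟩)
      rw [ev2, Polynomial.coe_eval₂RingHom, Polynomial.eval₂_X]
  have hess : Algebra.EssFiniteType S.fld K := Algebra.EssFiniteType.of_comp k S.fld K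
  have hfin : FiniteDimensional S.fld K := Algebra.finite_of_essFiniteType_of_isAlgebraic
  exact hstd.nfg (fg_of_finite V S.fld Γ hΓfg fun z hz hz0 => hvE z (hEle hz) hz0)

/-- the constant coefficient is multiplicative on elements of level `≥ 0` -/
theorem FrMon_coeff_mul {R : Type*} [CommRing R] {φ : (Fin r → ℤ) →+ ℝ}
    (hφ : Function.Injective φ) {g h : LA R r} (hg : GeL φ g 0) (hh : GeL φ h 0) :
    (g * h).coeff 0 = g.coeff 0 * h.coeff 0 := by
  classical
  have key : ∀ q : LA R r, GeL φ q 0 → GtL φ (q - AddMonoidAlgebra.single 0 (q.coeff 0)) 0 := by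
    intro q hq a ha
    by_cases h0 : a = 0
    · subst h0
      exfalso
      apply ha
      rw [AddMonoidAlgebra.coeff_sub, Finsupp.sub_apply, AddMonoidAlgebra.coeff_single,
        Finsupp.single_eq_same, sub_self]
    · have h1 : q.coeff a ≠ 0 := by
        intro h2
        apply ha
        rw [AddMonoidAlgebra.coeff_sub, Finsupp.sub_apply, AddMonoidAlgebra.coeff_single,
          Finsupp.single_eq_of_ne h0, h2, sub_self]
      refine lt_of_le_of_ne (hq a h1) ?_
      intro h2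
      exact h0 (hφ (by rw [← h2, map_zero]))
  set g' := g - AddMonoidAlgebra.single 0 (g.coeff 0) with hg'
  set h' := h - AddMonoidAlgebra.single 0 (h.coeff 0) with hh'
  have e1 : g * h = AddMonoidAlgebra.single 0 (g.coeff 0 * h.coeff 0) +
      (AddMonoidAlgebra.single 0 (g.coeff 0) * h' + g' * h) := by
    have e0 : (AddMonoidAlgebra.single 0 (g.coeff 0 * h.coeff 0) : LA R r) =
        AddMonoidAlgebra.single 0 (g.coeff 0) * AddMonoidAlgebra.single 0 (h.coeff 0) := by
      rw [AddMonoidAlgebra.single_mul_single, add_zero]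
    rw [e0, hg', hh']
    ring
  have h1 : GtL φ (AddMonoidAlgebra.single 0 (g.coeff 0) * h' + g' * h) 0 := by
    refine gtL_add ?_ ?_
    · have := gtL_mul (key h hh) (geL_const (φ := φ) (g.coeff 0))
      rw [add_zero] at this
      rwa [mul_comm] at this
    · have := gtL_mul (key g hg) hh
      rwa [add_zero] at this
  rw [e1, AddMonoidAlgebra.coeff_add, Finsupp.add_apply, AddMonoidAlgebra.coeff_single,
    Finsupp.single_eq_same, gtL_coeff_zero h1 (by rw [map_zero]), add_zero]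

theorem FrMon_mul (S : Fr V r) {e f : K} (he : MU S e) (hf : MU S f) : MU S (e * f) := by
  obtain ⟨a, h1, h2, h1p, h1z, h2p, h2z, h⟩ := he
  obtain ⟨b, g1, g2, g1p, g1z, g2p, g2z, g⟩ := hf
  refine ⟨a + b, h1 * g1, h2 * g2, ?_, ?_, ?_, ?_, ?_⟩
  · have := geL_mul h1p g1p
    rwa [add_zero] at this
  · rw [FrMon_coeff_mul S.inj h1p g1p, Polynomial.mul_coeff_zero]
    exact mul_ne_zero h1z g1z
  · have := geL_mul h2p g2p
    rwa [add_zero] at this
  · rw [FrMon_coeff_mul S.inj h2p g2p, Polynomial.mul_coeff_zero]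
    exact mul_ne_zero h2z g2z
  · rw [map_mul, map_mul, ofAdd_add, map_mul]
    calc e * f * (evP S.U S.x h2 * evP S.U S.x g2)
        = (e * evP S.U S.x h2) * (f * evP S.U S.x g2) := by ring
      _ = _ := by rw [h, g]; ring

theorem FrMon_inv (S : Fr V r) {e : K} (he0 : e ≠ 0) (he : MU S e) : MU S e⁻¹ := by
  obtain ⟨a, h1, h2, h1p, h1z, h2p, h2z, h⟩ := he
  refine ⟨-a, h2, h1, h2p, h2z, h1p, h1z, ?_⟩
  have hU : S.U (Multiplicative.ofAdd (-a)) * S.U (Multiplicative.ofAdd a) = 1 := by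
    rw [← map_mul, ← ofAdd_add, neg_add_cancel]
    exact map_one S.U
  calc e⁻¹ * evP S.U S.x h1
      = e⁻¹ * ((S.U (Multiplicative.ofAdd (-a)) * S.U (Multiplicative.ofAdd a)) *
          evP S.U S.x h1) := by rw [hU, one_mul]
    _ = e⁻¹ * (S.U (Multiplicative.ofAdd (-a)) * (e * evP S.U S.x h2)) := by rw [h]; ring
    _ = S.U (Multiplicative.ofAdd (-a)) * evP S.U S.x h2 := by field_simp

theorem FrMon_one (S : Fr V r) : MU S 1 := by
  have h1 : ((1 : LA k[X] r).coeff 0).coeff 0 ≠ 0 := by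
    rw [AddMonoidAlgebra.one_def, AddMonoidAlgebra.coeff_single, Finsupp.single_eq_same]
    simp
  refine ⟨0, 1, 1, geL_one, h1, geL_one, h1, ?_⟩
  rw [map_one, one_mul, mul_one]
  exact (map_one S.U).symm

theorem FrMon_zpow (S : Fr V r) {e : K} (he0 : e ≠ 0) (he : MU S e) (n : ℤ) : MU S (e ^ n) := by
  have hnat : ∀ n : ℕ, MU S (e ^ n) := by
    intro n
    induction n with
    | zero => rw [pow_zero]; exact FrMon_one S
    | succ n ih => rw [pow_succ]; exact FrMon_mul S ih he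
  obtain ⟨m, rfl | rfl⟩ := n.eq_nat_or_neg
  · rw [zpow_natCast]; exact hnat m
  · rw [zpow_neg, zpow_natCast]
    exact FrMon_inv S (pow_ne_zero _ he0) (hnat m)

/-- `x + c` is a unit -/
theorem FrMon_unit (S : Fr V r) {c : k} (hc : c ≠ 0) : MU S (S.x + algebraMap k K c) := by
  have h1 : ((1 : LA k[X] r).coeff 0).coeff 0 ≠ 0 := by
    rw [AddMonoidAlgebra.one_def, AddMonoidAlgebra.coeff_single, Finsupp.single_eq_same]
    simp
  refine ⟨0, AddMonoidAlgebra.single 0 (Polynomial.X + Polynomial.C c), 1, geL_const _, ?_,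
    geL_one, h1, ?_⟩
  · rw [AddMonoidAlgebra.coeff_single, Finsupp.single_eq_same]
    simpa using hc
  · rw [map_one, mul_one, evP, ev_single]
    have h0 : S.U (Multiplicative.ofAdd 0) = 1 := map_one S.U
    rw [h0, mul_one, one_mul]
    simp

theorem FrMon_unit_ne (S : Fr V r) {c : k} (hc : c ≠ 0) : S.x + algebraMap k K c ≠ 0 := by
  have h1 : algebraMap k K c ≠ 0 := by
    rw [Ne, map_eq_zero]
    exact hc
  rw [add_comm]
  refine add_ne (V := V) h1 ?_
  rw [V.map_const c hc]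
  exact Or.inr S.x_pos

/-- the induction on `ν` -/
theorem FrMon_ind (p : ℕ) [Fact p.Prime] [CharP k p] [Algebra.EssFiniteType k K]
    (hstd : Std V r) (n : ℕ) : ∀ (S : Fr V r), Algebra.IsAlgebraic S.fld K → S.tr →
    ∀ h : LA k[X] r, NuLe S.φ h n →
    ∃ S' : Fr V r, S'.tr ∧ S'.fld = S.fld ∧ (∀ e', MU S e' → MU S' e') ∧
      MU S' (evP S.U S.x h) ∧
      ∀ g : LA k[X] r, evP S.U S.x g ≠ 0 → ∃ (g' : LA k[X] r) (u : K), MU S' u ∧ u ≠ 0 ∧
        evP S'.U S'.x g' = u * evP S.U S.x g := by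
  induction n using Nat.strong_induction_on with
  | _ n ih =>
    intro S halg htr h hn
    rcases Nat.eq_zero_or_pos n with rfl | hpos
    · exact ⟨S, htr, rfl, fun e he => he, mu_of_nu S h hn, fun g _ =>
        ⟨g, 1, FrMon_one S, one_ne_zero, (one_mul _).symm⟩⟩
    obtain ⟨s, hs, ⟨J⟩⟩ := fr_nj p hstd S halg htr
    obtain ⟨S1, htr1, hφ1, hU1, hx1, hf1, hM1, hev1⟩ := fr_vt S htr s hs
    have hn1 : NuLe S1.φ (vtr s h) n := by
      rw [hφ1]
      exact nu_vt s hs h n hn
    have J1 : JD S1.φ (V.v S1.x) := by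
      rw [hφ1, hx1]
      exact J
    obtain ⟨S2, c, hc, htr2, hφ2, hf2, hM2, hev2⟩ := fr_jump S1 htr1 J1
    obtain ⟨N, h', hh', hn2⟩ := nu_jump S1.inj S1.x_pos J1 c hc (vtr s h) n hn1
    have hn2' : NuLe S2.φ h' (n / 2) := by
      rw [hφ2]
      exact hn2
    have hf : S2.fld = S.fld := hf2.trans hf1
    have halg2 : Algebra.IsAlgebraic S2.fld K := by
      rw [hf]
      exact halg
    obtain ⟨S3, htr3, hf3, hM3, hMU, hG3⟩ := ih (n / 2) (Nat.div_lt_self hpos one_lt_two) S2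
      halg2 htr2 h' hn2'
    have hu0 := FrMon_unit_ne S2 hc
    have hu : MU S3 (S2.x + algebraMap k K c) := hM3 _ (FrMon_unit S2 hc)
    refine ⟨S3, htr3, hf3.trans hf, fun e he => hM3 e (hM2 e (hM1 e he)), ?_, ?_⟩
    · rw [hev2 _ _ _ hh', hev1] at hMU
      have h1 := FrMon_mul S3 (FrMon_inv S3 (zpow_ne_zero N hu0) (FrMon_zpow S3 hu0 hu N)) hMU
      rwa [inv_mul_cancel_left₀ (zpow_ne_zero N hu0)] at h1
    · intro g hg
      have hg1 : evP S1.U S1.x (vtr s g) ≠ 0 := by
        rw [hev1]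
        exact hg
      have hg0 : vtr s g ≠ 0 := by
        intro h0
        rw [h0, map_zero] at hg1
        exact hg1 rfl
      obtain ⟨n', hn'⟩ := exists_nu S1.φ (vtr s g) hg0
      obtain ⟨N', g', hg', -⟩ := nu_jump S1.inj S1.x_pos J1 c hc (vtr s g) n' hn'
      have he2 := hev2 _ _ _ hg'
      have hg2 : evP S2.U S2.x g' ≠ 0 := by
        rw [he2]
        exact mul_ne_zero (zpow_ne_zero N' hu0) hg1
      obtain ⟨g'', u, hMu, hu', hev3⟩ := hG3 g' hg2
      refine ⟨g'', u * (S2.x + algebraMap k K c) ^ N', FrMon_mul S3 hMu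
        (FrMon_zpow S3 hu0 hu N'), mul_ne_zero hu' (zpow_ne_zero N' hu0), ?_⟩
      rw [hev3, he2, hev1, mul_assoc]

/-- elements of the field are quotients -/
theorem FrMon_frac (S : Fr V r) (e : K) (he : e ∈ S.fld) :
    ∃ h1 h2 : LA k[X] r, e = evP S.U S.x h1 / evP S.U S.x h2 := by
  rw [Fr.fld, IntermediateField.mem_adjoin_iff_div] at he
  obtain ⟨a, ha, b, hb, rfl⟩ := he
  set A0 : Subalgebra k K :=
    { (evP S.U S.x : LA k[X] r →+* K).range with
      algebraMap_mem' := by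
        intro c
        refine ⟨AddMonoidAlgebra.single 0 (Polynomial.C c), ?_⟩
        change evP S.U S.x _ = _
        rw [evP, ev_single]
        have : (Multiplicative.ofAdd (0 : Fin r → ℤ)) = 1 := rfl
        rw [this, map_one, mul_one]
        simp } with hA0
  have hle : Algebra.adjoin k (Set.range (fun a => S.U (Multiplicative.ofAdd a)) ∪ {S.x}) ≤ A0 := by
    rw [Algebra.adjoin_le_iff]
    rintro z (⟨b, rfl⟩ | hz)
    · refine ⟨AddMonoidAlgebra.single b 1, ?_⟩
      change evP S.U S.x _ = _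
      rw [evP, ev_single, map_one, one_mul]
    · rw [Set.mem_singleton_iff] at hz
      rw [hz]
      refine ⟨AddMonoidAlgebra.single 0 Polynomial.X, ?_⟩
      change evP S.U S.x _ = _
      rw [evP, ev_single]
      have : (Multiplicative.ofAdd (0 : Fin r → ℤ)) = 1 := rfl
      rw [this, map_one, mul_one]
      simp
  obtain ⟨h1, rfl⟩ := hle ha
  obtain ⟨h2, rfl⟩ := hle hb
  exact ⟨h1, h2, rfl⟩

/-- One more element `e` of the field of the frame becomes a monomial times a unit: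
`e = evP h1 / evP h2`, treat `h1` and `h2` (induction on `ν`: `fr_nj`, `fr_vt`, `fr_jump`, `nu_vt`,
`nu_jump`, `mu_of_nu`). `MU` is multiplicative. -/
theorem fr_mu (p : ℕ) [Fact p.Prime] [CharP k p] [Algebra.EssFiniteType k K]
    (hstd : Std V r) (S : Fr V r) (halg : Algebra.IsAlgebraic S.fld K) (htr : S.tr)
    (e : K) (he : e ∈ S.fld) (he0 : e ≠ 0) :
    ∃ S' : Fr V r, S'.tr ∧ S'.fld = S.fld ∧ (∀ e', MU S e' → MU S' e') ∧ MU S' e := by
  have hpoly : ∀ (S : Fr V r), Algebra.IsAlgebraic S.fld K → S.tr → ∀ h : LA k[X] r,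
      evP S.U S.x h ≠ 0 → ∃ S' : Fr V r, S'.tr ∧ S'.fld = S.fld ∧
        (∀ e', MU S e' → MU S' e') ∧ MU S' (evP S.U S.x h) ∧
        ∀ g : LA k[X] r, evP S.U S.x g ≠ 0 → ∃ (g' : LA k[X] r) (u : K), MU S' u ∧ u ≠ 0 ∧
          evP S'.U S'.x g' = u * evP S.U S.x g := by
    intro S halg htr h hh
    have h0 : h ≠ 0 := by
      rintro rfl
      exact hh (map_zero _)
    obtain ⟨n, hn⟩ := exists_nu S.φ h h0
    exact FrMon_ind p hstd n S halg htr h hn
  obtain ⟨h1, h2, heq⟩ := FrMon_frac S e he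
  have hne : evP S.U S.x h1 ≠ 0 ∧ evP S.U S.x h2 ≠ 0 := by
    rw [heq] at he0
    exact div_ne_zero_iff.1 he0
  obtain ⟨S1, htr1, hf1, hM1, hMU1, hG1⟩ := hpoly S halg htr h1 hne.1
  obtain ⟨g', u, hMu, hu0, hev⟩ := hG1 h2 hne.2
  have halg1 : Algebra.IsAlgebraic S1.fld K := by
    rw [hf1]
    exact halg
  obtain ⟨S2, htr2, hf2, hM2, hMU2, -⟩ := hpoly S1 halg1 htr1 g' (by
    rw [hev]
    exact mul_ne_zero hu0 hne.2)
  refine ⟨S2, htr2, hf2.trans hf1, fun e' he' => hM2 e' (hM1 e' he'), ?_⟩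
  rw [hev] at hMU2
  have h3 := FrMon_mul S2 (FrMon_inv S2 hu0 (hM2 u hMu)) hMU2
  rw [inv_mul_cancel_left₀ hu0] at h3
  rw [heq, div_eq_mul_inv]
  exact FrMon_mul S2 (hM2 _ hMU1) (FrMon_inv S2 hne.2 h3)

/-- finitely many elements -/
theorem fr_mu_all (p : ℕ) [Fact p.Prime] [CharP k p] [Algebra.EssFiniteType k K]
    (hstd : Std V r) (S : Fr V r) (halg : Algebra.IsAlgebraic S.fld K) (htr : S.tr)
    (Z : Finset K) (hZ : ∀ z ∈ Z, z ∈ S.fld ∧ z ≠ 0) :
    ∃ S' : Fr V r, S'.tr ∧ S'.fld = S.fld ∧ ∀ z ∈ Z, MU S' z := by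
  classical
  induction Z using Finset.induction_on with
  | empty => exact ⟨S, htr, rfl, fun z hz => absurd hz (Finset.notMem_empty z)⟩
  | insert z Z hz ih =>
    obtain ⟨S1, htr1, hf1, hM1⟩ := ih fun w hw => hZ w (Finset.mem_insert_of_mem hw)
    have h1 := hZ z (Finset.mem_insert_self z Z)
    obtain ⟨S2, htr2, hf2, hM2, hMU⟩ := fr_mu p hstd S1 (by rw [hf1]; exact halg) htr1 z
      (by rw [hf1]; exact h1.1) h1.2
    refine ⟨S2, htr2, hf2.trans hf1, fun w hw => ?_⟩
    rcases Finset.mem_insert.1 hw with rfl | hw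
    · exact hMU
    · exact hM2 w (hM1 w hw)

end LX
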