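import Pool.Agent.helper90.LX.FrDefs
import Pool.Agent.helper90.LX.GrpFin

namespace LX

open Polynomial LaurentPolynomial

variable {k K : Type*} [Field k] [Field K] [Algebra k K] {V : RV k K} {r : ℕ}

/-! ### monomials -/

/-- monomials with distinct values are linearly independent over `k` -/
private theorem FrMove_li {φ : (Fin r → ℤ) →+ ℝ} (hφ : Function.Injective φ)
    {U : Multiplicative (Fin r → ℤ) →* K} (hU : Mon V φ U) :
    LinearIndependent k fun a : Fin r → ℤ => U (Multiplicative.ofAdd a) := by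
  classical
  rw [linearIndependent_iff']
  intro s g hg
  by_contra hcon
  push Not at hcon
  obtain ⟨a0, ha0, hga0⟩ := hcon
  have h1 : ∑ a ∈ s with g a ≠ 0, algebraMap k K (g a) * U (Multiplicative.ofAdd a) = 0 := by
    rw [← hg, Finset.sum_filter]
    refine Finset.sum_congr rfl fun a _ => ?_
    split_ifs with h
    · rw [Algebra.smul_def]
    · push Not at h
      rw [h, zero_smul]
  have hne : ∀ a ∈ s.filter (fun a => g a ≠ 0), algebraMap k K (g a) ≠ 0 := by
    intro a ha
    rw [Ne, map_eq_zero]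
    exact (Finset.mem_filter.1 ha).2
  have hval : ∀ a ∈ s.filter (fun a => g a ≠ 0),
      V.v (algebraMap k K (g a) * U (Multiplicative.ofAdd a)) = φ a := by
    intro a ha
    rw [V.map_mul _ _ (hne a ha) (hU.ne a), V.map_const _ (Finset.mem_filter.1 ha).2, hU.val,
      zero_add]
  refine (val_sum V (s.filter (fun a => g a ≠ 0)) ⟨a0, Finset.mem_filter.2 ⟨ha0, hga0⟩⟩ _
    (fun a ha => mul_ne_zero (hne a ha) (hU.ne a)) ?_).1 h1
  intro a ha b hb hab
  rw [hval a ha, hval b hb] at hab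
  exact hφ hab

/-- integral powers of a transcendental element are linearly independent -/
private theorem FrMove_zpow {L : Type*} [Field L] [Algebra L K] {x : K} (hx0 : x ≠ 0)
    (hx : Transcendental L x) : LinearIndependent L fun b : ℤ => x ^ b := by
  classical
  rw [linearIndependent_iff']
  intro s g hg i0 hi0
  set N : ℤ := ∑ i ∈ s, |i| with hN
  have hNi : ∀ i ∈ s, 0 ≤ i + N := by
    intro i hi
    have h1 : |i| ≤ N := Finset.single_le_sum (f := fun i : ℤ => |i|) (fun j _ => abs_nonneg j) hi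
    have h2 := neg_abs_le i
    linarith
  set P : L[X] := ∑ i ∈ s, monomial (i + N).toNat (g i) with hP
  have h1 : aeval x P = 0 := by
    have h2 : aeval x P = x ^ N * ∑ i ∈ s, g i • x ^ i := by
      rw [hP, map_sum, Finset.mul_sum]
      refine Finset.sum_congr rfl fun i hi => ?_
      rw [aeval_monomial, Algebra.smul_def]
      have h3 : x ^ (i + N).toNat = x ^ N * x ^ i := by
        rw [← zpow_natCast, Int.toNat_of_nonneg (hNi i hi), zpow_add₀ hx0, mul_comm]
      rw [h3]
      ring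
    rw [h2, hg, mul_zero]
  have h2 : P = 0 := (transcendental_iff.1 hx) P h1
  have h3 := congrArg (fun Q => Polynomial.coeff Q (i0 + N).toNat) h2
  simp only [hP, Polynomial.finsetSum_coeff, Polynomial.coeff_monomial, Polynomial.coeff_zero]
    at h3
  rw [Finset.sum_eq_single i0] at h3
  · rwa [if_pos rfl] at h3
  · intro i hi hii
    rw [if_neg]
    intro h4
    apply hii
    have h5 := hNi i hi
    have h6 := hNi i0 hi0
    have h7 : ((i + N).toNat : ℤ) = ((i0 + N).toNat : ℤ) := by rw [h4]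
    rw [Int.toNat_of_nonneg h5, Int.toNat_of_nonneg h6] at h7
    linarith
  · intro h; exact absurd hi0 h

/-- the monomials `u^a x^b` -/
private theorem FrMove_tower {φ : (Fin r → ℤ) →+ ℝ} (hφ : Function.Injective φ)
    {U : Multiplicative (Fin r → ℤ) →* K} (hU : Mon V φ U) {x : K} (hx0 : x ≠ 0)
    (hx : Transcendental (IntermediateField.adjoin k
      (Set.range (fun a : Fin r → ℤ => U (Multiplicative.ofAdd a)))) x) :
    LinearIndependent k fun p : (Fin r → ℤ) × ℤ => U (Multiplicative.ofAdd p.1) * x ^ p.2 := by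
  set L := IntermediateField.adjoin k
      (Set.range (fun a : Fin r → ℤ => U (Multiplicative.ofAdd a))) with hL
  have h1 : LinearIndependent k fun a : Fin r → ℤ =>
      (⟨U (Multiplicative.ofAdd a), IntermediateField.subset_adjoin _ _ ⟨a, rfl⟩⟩ : L) := by
    apply LinearIndependent.of_comp L.val.toLinearMap
    exact FrMove_li hφ hU
  exact linearIndependent_smul h1 (FrMove_zpow hx0 hx)

/-- elements of `k[u^±]` -/
private theorem FrMove_span (U : Multiplicative (Fin r → ℤ) →* K) {z : K}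
    (hz : z ∈ Algebra.adjoin k (Set.range (fun a : Fin r → ℤ => U (Multiplicative.ofAdd a)))) :
    ∃ s : LA k r, ev (algebraMap k K) U s = z := by
  induction hz using Algebra.adjoin_induction with
  | mem y hy =>
    obtain ⟨a, rfl⟩ := hy
    exact ⟨AddMonoidAlgebra.single a 1, by rw [ev_single, map_one, one_mul]⟩
  | algebraMap c =>
    exact ⟨AddMonoidAlgebra.single 0 c, by rw [ev_single, ofAdd_zero, map_one, mul_one]⟩
  | add x y _ _ hx hy =>
    obtain ⟨s, rfl⟩ := hx
    obtain ⟨t, rfl⟩ := hy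
    exact ⟨s + t, map_add _ _ _⟩
  | mul x y _ _ hx hy =>
    obtain ⟨s, rfl⟩ := hx
    obtain ⟨t, rfl⟩ := hy
    exact ⟨s * t, map_mul _ _ _⟩

private theorem FrMove_ev (U : Multiplicative (Fin r → ℤ) →* K) (s : LA k r)
    (T : Finset (Fin r → ℤ)) (hT : s.coeff.support ⊆ T) :
    ev (algebraMap k K) U s = ∑ a ∈ T, s.coeff a • U (Multiplicative.ofAdd a) := by
  conv_lhs => rw [← AddMonoidAlgebra.sum_coeff_single s]
  rw [Finsupp.sum, map_sum]
  rw [← Finset.sum_subset hT]
  · refine Finset.sum_congr rfl fun a _ => ?_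
    rw [ev_single, Algebra.smul_def]
  · intro a _ ha
    rw [Finsupp.notMem_support_iff.1 ha, zero_smul]

/-- linear independence of the monomials `u^a x^b`, `b ≥ 0`, gives transcendence -/
private theorem FrMove_transc (U : Multiplicative (Fin r → ℤ) →* K) {x : K}
    (hx : LinearIndependent k fun p : (Fin r → ℤ) × ℤ =>
      U (Multiplicative.ofAdd p.1) * x ^ p.2) :
    Transcendental (IntermediateField.adjoin k
      (Set.range (fun a : Fin r → ℤ => U (Multiplicative.ofAdd a)))) x := by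
  classical
  rw [IntermediateField.transcendental_adjoin_iff, transcendental_iff]
  intro P hP
  choose s hs using fun B : ℕ => FrMove_span (k := k) U (P.coeff B).2
  set T : Finset (Fin r → ℤ) := (Finset.range (P.natDegree + 1)).biUnion
    (fun B => (s B).coeff.support) with hT
  have h1 : ∑ p ∈ Finset.range (P.natDegree + 1) ×ˢ T,
      (s p.1).coeff p.2 • (U (Multiplicative.ofAdd p.2) * x ^ ((p.1 : ℕ) : ℤ)) = 0 := by
    rw [Finset.sum_product, ← hP, aeval_eq_sum_range]
    refine Finset.sum_congr rfl fun B hB => ?_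
    have h2 : P.coeff B • x ^ B = ((P.coeff B : K)) * x ^ B := rfl
    rw [h2, ← hs B, FrMove_ev U (s B) T (Finset.subset_biUnion_of_mem
      (fun B => (s B).coeff.support) hB), Finset.sum_mul]
    refine Finset.sum_congr rfl fun a _ => ?_
    rw [zpow_natCast, smul_mul_assoc]
  have h2 : LinearIndependent k fun p : ℕ × (Fin r → ℤ) =>
      U (Multiplicative.ofAdd p.2) * x ^ ((p.1 : ℕ) : ℤ) :=
    hx.comp (fun p : ℕ × (Fin r → ℤ) => (p.2, (p.1 : ℤ))) (by
      rintro ⟨a, b⟩ ⟨c, d⟩ h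
      simp only [Prod.mk.injEq, Nat.cast_inj] at h
      rw [h.1, h.2])
  have h3 := (linearIndependent_iff'.1 h2) _ (fun p => (s p.1).coeff p.2) h1
  apply Polynomial.ext
  intro B
  rw [Polynomial.coeff_zero]
  by_cases hB : B < P.natDegree + 1
  · apply Subtype.ext
    change ((P.coeff B : _) : K) = 0
    rw [← hs B, FrMove_ev U (s B) T (Finset.subset_biUnion_of_mem
      (fun B => (s B).coeff.support) (Finset.mem_range.2 hB))]
    refine Finset.sum_eq_zero fun a ha => ?_
    rw [h3 (B, a) (Finset.mem_product.2 ⟨Finset.mem_range.2 hB, ha⟩), zero_smul]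
  · exact Polynomial.coeff_eq_zero_of_natDegree_lt (by omega)

/-- the monomials `u^a x^b` in the dual numbers, `x` a unit -/
private noncomputable def FrMove_E {D : Type*} [CommRing D] (U : Multiplicative (Fin r → ℤ) →* D)
    (u : Dˣ) : Multiplicative ((Fin r → ℤ) × ℤ) →* D where
  toFun w := U (Multiplicative.ofAdd (Multiplicative.toAdd w).1) *
    ((u ^ (Multiplicative.toAdd w).2 : Dˣ) : D)
  map_one' := by simp
  map_mul' v w := by
    rw [toAdd_mul, Prod.fst_add, Prod.snd_add, ofAdd_add, map_mul, zpow_add, Units.val_mul]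
    ring

private lemma FrMove_E_apply {D : Type*} [CommRing D] (U : Multiplicative (Fin r → ℤ) →* D)
    (u : Dˣ) (w : (Fin r → ℤ) × ℤ) :
    FrMove_E U u (Multiplicative.ofAdd w) = U (Multiplicative.ofAdd w.1) * ((u ^ w.2 : Dˣ) : D) :=
  rfl

/-- the monomials of the new coordinates -/
private noncomputable def FrMove_U {D : Type*} [CommRing D] (U : Multiplicative (Fin r → ℤ) →* D)
    (u : Dˣ) (Θ : ((Fin r → ℤ) × ℤ) ≃+ ((Fin r → ℤ) × ℤ)) :
    Multiplicative (Fin r → ℤ) →* D :=
  (FrMove_E U u).comp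
    (AddMonoidHom.toMultiplicative (Θ.symm.toAddMonoidHom.comp (AddMonoidHom.inl _ _)))

private lemma FrMove_U_apply {D : Type*} [CommRing D] (U : Multiplicative (Fin r → ℤ) →* D)
    (u : Dˣ) (Θ : ((Fin r → ℤ) × ℤ) ≃+ ((Fin r → ℤ) × ℤ)) (A : Fin r → ℤ) :
    FrMove_U U u Θ (Multiplicative.ofAdd A) =
      FrMove_E U u (Multiplicative.ofAdd (Θ.symm (A, 0))) := rfl

private lemma FrMove_E_zero_int {D : Type*} [CommRing D] (U : Multiplicative (Fin r → ℤ) →* D)
    (u : Dˣ) (Θ : ((Fin r → ℤ) × ℤ) ≃+ ((Fin r → ℤ) × ℤ)) (τ : Dˣ)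
    (hτ : (τ : D) = FrMove_E U u (Multiplicative.ofAdd (Θ.symm (0, 1)))) (B : ℤ) :
    ((τ ^ B : Dˣ) : D) = FrMove_E U u (Multiplicative.ofAdd (Θ.symm (0, B))) := by
  have hnat : ∀ n : ℕ, ((τ ^ n : Dˣ) : D) =
      FrMove_E U u (Multiplicative.ofAdd (Θ.symm (0, (n : ℤ)))) := by
    intro n
    have e : ((0 : Fin r → ℤ), (n : ℤ)) = n • ((0 : Fin r → ℤ), (1 : ℤ)) := by
      simp
    rw [e, map_nsmul, ofAdd_nsmul, map_pow, Units.val_pow_eq_pow_val, hτ]
  rcases Int.eq_nat_or_neg B with ⟨n, rfl | rfl⟩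
  · rw [zpow_natCast]
    exact hnat n
  · have h1 : ((τ ^ n : Dˣ) : D) *
        FrMove_E U u (Multiplicative.ofAdd (Θ.symm (0, -(n : ℤ)))) = 1 := by
      rw [hnat n, ← map_mul, ← ofAdd_add, ← map_add]
      have e : ((0 : Fin r → ℤ), (n : ℤ)) + ((0 : Fin r → ℤ), -(n : ℤ)) = 0 := by
        simp
      rw [e, map_zero, ofAdd_zero, map_one]
    rw [zpow_neg, zpow_natCast]
    exact (Units.eq_inv_of_mul_eq_one_left h1).symm

private lemma FrMove_E_split {D : Type*} [CommRing D] (U : Multiplicative (Fin r → ℤ) →* D)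
    (u : Dˣ) (Θ : ((Fin r → ℤ) × ℤ) ≃+ ((Fin r → ℤ) × ℤ)) (τ : Dˣ)
    (hτ : (τ : D) = FrMove_E U u (Multiplicative.ofAdd (Θ.symm (0, 1))))
    (w : (Fin r → ℤ) × ℤ) :
    FrMove_E U u (Multiplicative.ofAdd (Θ.symm w)) =
      FrMove_U U u Θ (Multiplicative.ofAdd w.1) * ((τ ^ w.2 : Dˣ) : D) := by
  rw [FrMove_E_zero_int U u Θ τ hτ, FrMove_U_apply, ← map_mul, ← ofAdd_add, ← map_add]
  congr 3
  ext <;> simp

/-- evaluation of `k[T,1/T]` at a unit -/
private noncomputable def FrMove_rho {D : Type*} [CommRing D] [Algebra k D] (τ : Dˣ) : k[T;T⁻¹] →+* D :=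
  LaurentPolynomial.eval₂ (algebraMap k D) τ

private lemma FrMove_rho_iota {D : Type*} [CommRing D] [Algebra k D] (τ : Dˣ) (c : k) (p : k[X]) :
    FrMove_rho τ (iota c p) = Polynomial.aeval ((τ : D) - algebraMap k D c) p := by
  have e : (FrMove_rho (k := k) τ).comp (iota c) =
      ((Polynomial.aeval ((τ : D) - algebraMap k D c) : k[X] →ₐ[k] D) : k[X] →+* D) := by
    apply Polynomial.ringHom_ext
    · intro a
      simp only [RingHom.comp_apply, iota, RingHom.coe_coe, Polynomial.aeval_C, FrMove_rho]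
      rw [LaurentPolynomial.algebraMap_apply, LaurentPolynomial.eval₂_C]
      rfl
    · simp only [RingHom.comp_apply, iota, RingHom.coe_coe, Polynomial.aeval_X, FrMove_rho,
        map_sub, LaurentPolynomial.eval₂_T, LaurentPolynomial.eval₂_C, zpow_one]
  exact congrArg (fun h => h p) e

private lemma FrMove_ev_monT {D : Type*} [CommRing D] [Algebra k D]
    (U : Multiplicative (Fin r → ℤ) →* D)
    (u : Dˣ) (Θ : ((Fin r → ℤ) × ℤ) ≃+ ((Fin r → ℤ) × ℤ)) (τ : Dˣ)
    (hτ : (τ : D) = FrMove_E U u (Multiplicative.ofAdd (Θ.symm (0, 1))))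
    (w : (Fin r → ℤ) × ℤ) :
    ev (FrMove_rho (k := k) τ) (FrMove_U U u Θ) (monT w) =
      FrMove_E U u (Multiplicative.ofAdd (Θ.symm w)) := by
  rw [FrMove_E_split U u Θ τ hτ, monT, ev_single, FrMove_rho, LaurentPolynomial.eval₂_T]
  ring

private lemma FrMove_ev_psi {D : Type*} [CommRing D] [Algebra k D]
    (U : Multiplicative (Fin r → ℤ) →* D)
    (u : Dˣ) (Θ : ((Fin r → ℤ) × ℤ) ≃+ ((Fin r → ℤ) × ℤ)) (τ : Dˣ)
    (hτ : (τ : D) = FrMove_E U u (Multiplicative.ofAdd (Θ.symm (0, 1)))) :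
    (ev (FrMove_rho (k := k) τ) (FrMove_U U u Θ)).comp (psi Θ) = evP U (u : D) := by
  apply AddMonoidAlgebra.ringHom_ext
  · intro p
    have h1 : psi Θ (AddMonoidAlgebra.single 0 p) =
        Polynomial.aeval (monT (k := k) (Θ (0, 1))) p := by
      rw [psi, ev_single]
      rw [ofAdd_zero, map_one, mul_one]
      rfl
    rw [RingHom.comp_apply, h1, evP, ev_single, ofAdd_zero, map_one, mul_one]
    have h2 : ((ev (FrMove_rho (k := k) τ) (FrMove_U U u Θ)).comp
        ((Polynomial.aeval (monT (k := k) (Θ (0, 1))) : k[X] →ₐ[k] LA k[T;T⁻¹] r) :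
          k[X] →+* LA k[T;T⁻¹] r)) =
        ((Polynomial.aeval (u : D) : k[X] →ₐ[k] D) : k[X] →+* D) := by
      apply Polynomial.ringHom_ext
      · intro a
        simp only [RingHom.comp_apply, RingHom.coe_coe, Polynomial.aeval_C]
        have h3 : algebraMap k (LA k[T;T⁻¹] r) a =
            AddMonoidAlgebra.single 0 (LaurentPolynomial.C a) := rfl
        rw [h3, ev_single, ofAdd_zero, map_one, mul_one, FrMove_rho, LaurentPolynomial.eval₂_C]
      · simp only [RingHom.comp_apply, RingHom.coe_coe, Polynomial.aeval_X]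
        rw [FrMove_ev_monT U u Θ τ hτ, AddEquiv.symm_apply_apply, FrMove_E_apply]
        simp
    exact congrArg (fun h => h p) h2
  · intro a
    have h1 : psi Θ (AddMonoidAlgebra.single a (1 : k[X])) = monT (k := k) (Θ (a, 0)) := by
      rw [psi, ev_single, map_one, one_mul]
      rfl
    rw [RingHom.comp_apply, h1, FrMove_ev_monT U u Θ τ hτ, AddEquiv.symm_apply_apply,
      FrMove_E_apply, evP, ev_single, map_one, one_mul]
    simp

private lemma FrMove_ev_iota {D : Type*} [CommRing D] [Algebra k D]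
    (U' : Multiplicative (Fin r → ℤ) →* D) (τ : Dˣ) (c : k) :
    (ev (FrMove_rho (k := k) τ) U').comp (iotaL c) = evP U' ((τ : D) - algebraMap k D c) := by
  apply AddMonoidAlgebra.ringHom_ext
  · intro p
    have h1 : iotaL (r := r) c (AddMonoidAlgebra.single 0 p) = AddMonoidAlgebra.single 0 (iota c p) := by
      simp [iotaL]
    rw [RingHom.comp_apply, h1, evP, ev_single, ev_single, FrMove_rho_iota]
    rfl
  · intro a
    have h1 : iotaL (r := r) c (AddMonoidAlgebra.single a 1) = AddMonoidAlgebra.single a 1 := by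
      simp [iotaL]
    rw [RingHom.comp_apply, h1, evP, ev_single, ev_single, map_one, map_one]


/-- multiplication with a polynomial in `X` -/
private theorem FrMove_cmul (q : k[X]) (h : LA k[X] r) (A : Fin r → ℤ) :
    ((AddMonoidAlgebra.single (0 : Fin r → ℤ) q : LA k[X] r) * h).coeff A = q * h.coeff A := by
  rw [AddMonoidAlgebra.coeff_single_zero_mul]

private theorem FrMove_evP_cmul (U : Multiplicative (Fin r → ℤ) →* K) (x : K) (q : k[X])
    (h : LA k[X] r) :
    evP U x ((AddMonoidAlgebra.single (0 : Fin r → ℤ) q : LA k[X] r) * h) =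
      aeval x q * evP U x h := by
  rw [map_mul, evP, ev_single, ofAdd_zero, map_one, mul_one]
  rfl

/-- Translation `x ↦ x - s(u)`, `s > 0`, of a frame: same field; `MU` is kept (`evP_vtr`,
`vtr_geL`). -/
theorem fr_vt (S : Fr V r) (htr : S.tr) (s : LA k r) (hs : GtL S.φ s 0) :
    ∃ S' : Fr V r, S'.tr ∧ S'.φ = S.φ ∧ S'.U = S.U ∧ S'.x = S.x - ev (algebraMap k K) S.U s ∧
      S'.fld = S.fld ∧ (∀ e, MU S e → MU S' e) ∧
      ∀ h : LA k[X] r, evP S'.U S'.x (vtr s h) = evP S.U S.x h := by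
  have hin : ∀ F : IntermediateField k K, (∀ a, S.U (Multiplicative.ofAdd a) ∈ F) →
      ev (algebraMap k K) S.U s ∈ F := by
    intro F hF
    rw [FrMove_ev S.U s _ (Finset.Subset.refl _)]
    exact sum_mem fun a _ => by
      rw [Algebra.smul_def]
      exact mul_mem (F.algebraMap_mem _) (hF a)
  have hgt : V.Gt (ev (algebraMap k K) S.U s) 0 := by
    rw [FrMove_ev S.U s _ (Finset.Subset.refl _)]
    refine gt_sum _ _ fun a ha => ?_
    rw [Algebra.smul_def]
    have h1 := hs a (Finsupp.mem_support_iff.1 ha)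
    have h2 := ge_mul (ge_algebraMap (V := V) (s.coeff a))
      (Or.inr (S.mon.val a).ge : V.Ge (S.U (Multiplicative.ofAdd a)) (S.φ a))
    rw [zero_add] at h2
    exact gt_of_ge h2 h1
  have halg : ∀ y : K, y ∈ IntermediateField.adjoin k
      (Set.range (fun a => S.U (Multiplicative.ofAdd a))) → IsAlgebraic
      (IntermediateField.adjoin k (Set.range (fun a => S.U (Multiplicative.ofAdd a)))) y :=
    fun y hy => isAlgebraic_algebraMap (⟨y, hy⟩ : IntermediateField.adjoin k
      (Set.range (fun a => S.U (Multiplicative.ofAdd a))))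
  have hL : ∀ a, S.U (Multiplicative.ofAdd a) ∈ IntermediateField.adjoin k
      (Set.range (fun a => S.U (Multiplicative.ofAdd a))) := fun a =>
    IntermediateField.subset_adjoin _ _ ⟨a, rfl⟩
  have htr' : Transcendental (IntermediateField.adjoin k
      (Set.range (fun a => S.U (Multiplicative.ofAdd a))))
      (S.x - ev (algebraMap k K) S.U s) := by
    intro h
    apply htr
    have h1 := h.add (halg _ (hin _ hL))
    rwa [sub_add_cancel] at h1
  have hx0 : S.x - ev (algebraMap k K) S.U s ≠ 0 := by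
    intro h
    apply htr'
    rw [h]
    exact isAlgebraic_zero
  refine ⟨
    { φ := S.φ
      U := S.U
      x := S.x - ev (algebraMap k K) S.U s
      inj := S.inj
      mon := S.mon
      x_ne := hx0
      x_pos := lt_of_gt hx0 (gt_sub (Or.inr S.x_pos) hgt) }, htr', rfl, rfl, rfl, ?_, ?_, ?_⟩
  · apply le_antisymm
    · rw [Fr.fld, IntermediateField.adjoin_le_iff]
      rintro z (⟨a, rfl⟩ | rfl)
      · exact IntermediateField.subset_adjoin _ _ (Or.inl ⟨a, rfl⟩)
      · exact sub_mem (IntermediateField.subset_adjoin _ _ (Or.inr rfl))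
          (hin _ fun a => IntermediateField.subset_adjoin _ _ (Or.inl ⟨a, rfl⟩))
    · rw [Fr.fld, IntermediateField.adjoin_le_iff]
      rintro z (⟨a, rfl⟩ | rfl)
      · exact IntermediateField.subset_adjoin _ _ (Or.inl ⟨a, rfl⟩)
      · have h1 : S.x - ev (algebraMap k K) S.U s ∈ IntermediateField.adjoin k
            (Set.range (fun a => S.U (Multiplicative.ofAdd a)) ∪
              {S.x - ev (algebraMap k K) S.U s}) :=
          IntermediateField.subset_adjoin _ _ (Or.inr rfl)
        have h2 := add_mem h1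
          (hin _ fun a => IntermediateField.subset_adjoin _ _ (Or.inl ⟨a, rfl⟩))
        rwa [sub_add_cancel] at h2
  · rintro e ⟨a, h1, h2, p1, q1, p2, q2, he⟩
    refine ⟨a, vtr s h1, vtr s h2, (vtr_geL s hs h1 0 p1).1, ?_, (vtr_geL s hs h2 0 p2).1, ?_, ?_⟩
    · rw [(vtr_geL s hs h1 0 p1).2 0 (map_zero _)]
      exact q1
    · rw [(vtr_geL s hs h2 0 p2).2 0 (map_zero _)]
      exact q2
    · rw [evP_vtr, evP_vtr, sub_add_cancel]
      exact he
  · intro h
    rw [evP_vtr, sub_add_cancel]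

/-- Jump of a frame (compare `pre_jump`): `U' A = U(a_(A,0)) x^(b_(A,0))`,
`τ = U(a_(0,1)) x^(b_(0,1)) = x' + c`; same field; `MU` is kept; evaluations correspond. -/
theorem fr_jump (S : Fr V r) (htr : S.tr) (J : JD S.φ (V.v S.x)) :
    ∃ (S' : Fr V r) (c : k), c ≠ 0 ∧ S'.tr ∧ S'.φ = J.φ' ∧ S'.fld = S.fld ∧
      (∀ e, MU S e → MU S' e) ∧
      ∀ (h h' : LA k[X] r) (N : ℤ), iotaL c h' = TN N * psi J.Θ h →
        evP S'.U S'.x h' = (S'.x + algebraMap k K c) ^ N * evP S.U S.x h := by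
  classical
  set u : Kˣ := Units.mk0 S.x S.x_ne with hu
  have hE1 : ∀ w : (Fin r → ℤ) × ℤ, FrMove_E S.U u (Multiplicative.ofAdd w) =
      S.U (Multiplicative.ofAdd w.1) * S.x ^ w.2 := by
    intro w
    rw [FrMove_E_apply, Units.val_zpow_eq_zpow_val]
    rfl
  have hE0 : ∀ w : (Fin r → ℤ) × ℤ, FrMove_E S.U u (Multiplicative.ofAdd w) ≠ 0 := by
    intro w
    rw [hE1]
    exact mul_ne_zero (S.mon.ne _) (zpow_ne_zero _ S.x_ne)
  have hEv : ∀ w : (Fin r → ℤ) × ℤ, V.v (FrMove_E S.U u (Multiplicative.ofAdd (J.Θ.symm w))) =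
      J.φ' w.1 := by
    intro w
    rw [hE1, V.map_mul _ _ (S.mon.ne _) (zpow_ne_zero _ S.x_ne), S.mon.val, v_zpow S.x_ne]
    have h1 := J.val (J.Θ.symm w).1 (J.Θ.symm w).2
    rw [Prod.mk.eta, AddEquiv.apply_symm_apply] at h1
    exact h1.symm
  set τ : Kˣ := Units.mk0 (FrMove_E S.U u (Multiplicative.ofAdd (J.Θ.symm (0, 1)))) (hE0 _) with hτd
  have hτ : (τ : K) = FrMove_E S.U u (Multiplicative.ofAdd (J.Θ.symm (0, 1))) := rfl
  have hτv : V.v (τ : K) = 0 := by
    rw [hτ, hEv]
    exact map_zero J.φ'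
  obtain ⟨c, hc⟩ := V.res _ τ.ne_zero hτv
  have hcne : c ≠ 0 := by
    rintro rfl
    rw [map_zero, sub_zero] at hc
    rcases hc with h | h
    · exact τ.ne_zero h
    · rw [hτv] at h
      exact lt_irrefl _ h
  have hsplit : ∀ w : (Fin r → ℤ) × ℤ,
      S.U (Multiplicative.ofAdd (J.Θ.symm w).1) * S.x ^ (J.Θ.symm w).2 =
      FrMove_U S.U u J.Θ (Multiplicative.ofAdd w.1) * (τ : K) ^ w.2 := by
    intro w
    rw [← hE1, FrMove_E_split S.U u J.Θ τ hτ, Units.val_zpow_eq_zpow_val]
  have hli : LinearIndependent k fun p : (Fin r → ℤ) × ℤ =>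
      FrMove_U S.U u J.Θ (Multiplicative.ofAdd p.1) * (τ : K) ^ p.2 := by
    have h1 := (FrMove_tower S.inj S.mon S.x_ne htr).comp J.Θ.symm J.Θ.symm.injective
    have h2 : (fun p : (Fin r → ℤ) × ℤ =>
        FrMove_U S.U u J.Θ (Multiplicative.ofAdd p.1) * (τ : K) ^ p.2) =
        (fun p : (Fin r → ℤ) × ℤ => S.U (Multiplicative.ofAdd p.1) * S.x ^ p.2) ∘ J.Θ.symm := by
      funext w
      exact (hsplit w).symm
    rw [h2]
    exact h1
  have htrτ := FrMove_transc _ hli
  have htr' : Transcendental (IntermediateField.adjoin k (Set.range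
      (fun a => FrMove_U S.U u J.Θ (Multiplicative.ofAdd a)))) ((τ : K) - algebraMap k K c) := by
    intro h
    apply htrτ
    have h1 := h.add (isAlgebraic_algebraMap (algebraMap k (IntermediateField.adjoin k (Set.range
      (fun a => FrMove_U S.U u J.Θ (Multiplicative.ofAdd a)))) c))
    have h2 : algebraMap (IntermediateField.adjoin k (Set.range
      (fun a => FrMove_U S.U u J.Θ (Multiplicative.ofAdd a)))) K (algebraMap k _ c) =
        algebraMap k K c := rfl
    rwa [h2, sub_add_cancel] at h1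
  have hx0 : (τ : K) - algebraMap k K c ≠ 0 := by
    intro h
    apply htr'
    rw [h]
    exact isAlgebraic_zero
  have hpos : 0 < V.v ((τ : K) - algebraMap k K c) := hc.resolve_left hx0
  let S' : Fr V r :=
    { φ := J.φ'
      U := FrMove_U S.U u J.Θ
      x := (τ : K) - algebraMap k K c
      inj := J.inj
      mon := ⟨fun a => hE0 _, fun a => hEv _⟩
      x_ne := hx0
      x_pos := hpos }
  have hev : ∀ (h h' : LA k[X] r) (N : ℤ), iotaL c h' = TN N * psi J.Θ h →
      evP S'.U S'.x h' = (τ : K) ^ N * evP S.U S.x h := by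
    intro h h' N hh
    have h1 : evP S'.U S'.x h' =
        (ev (FrMove_rho (k := k) τ) (FrMove_U S.U u J.Θ)) (iotaL c h') := by
      change evP (FrMove_U S.U u J.Θ) ((τ : K) - algebraMap k K c) h' = _
      rw [← FrMove_ev_iota]
      rfl
    have h2 : (ev (FrMove_rho (k := k) τ) (FrMove_U S.U u J.Θ)) (psi J.Θ h) = evP S.U S.x h := by
      have := congrArg (fun g : LA k[X] r →+* K => g h) (FrMove_ev_psi (k := k) S.U u J.Θ τ hτ)
      exact this
    rw [h1, hh, map_mul, h2]
    congr 1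
    rw [TN, ev_single, ofAdd_zero, map_one, mul_one, FrMove_rho, LaurentPolynomial.eval₂_T,
      Units.val_zpow_eq_zpow_val]
  have hxc : S'.x + algebraMap k K c = τ := sub_add_cancel _ _
  -- transport of units
  have hunit : ∀ h : LA k[X] r, GeL S.φ h 0 → (h.coeff 0).coeff 0 ≠ 0 → ∃ (N : ℤ) (h' : LA k[X] r),
      GeL J.φ' h' 0 ∧ (h'.coeff 0).coeff 0 ≠ 0 ∧
      evP S'.U S'.x h' = (τ : K) ^ N * evP S.U S.x h := by
    intro h hh h0
    obtain ⟨N, g', hg'⟩ := exists_clear c (Polynomial.C (psi J.Θ h))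
    have h1 : iotaL c (g'.coeff 0) = TN (N : ℤ) * psi J.Θ h := by
      have h2 := congrArg (fun g => Polynomial.coeff g 0) hg'
      simpa [Polynomial.coeff_map] using h2
    have h2 : ∀ A, iota c ((g'.coeff 0).coeff A) = T (N : ℤ) * (psi J.Θ h).coeff A := by
      intro A
      rw [← iotaL_coeff, h1, TN_mul_coeff]
    refine ⟨N, g'.coeff 0, ?_, ?_, hev _ _ _ h1⟩
    · intro A hA
      apply psi_geL S.inj S.x_pos J hh A
      intro h3
      apply hA
      have h4 := h2 A
      rw [h3, mul_zero] at h4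
      exact (map_eq_zero_iff _ (iota_injective c)).1 h4
    · have h4 := h2 0
      rw [psi_coeff_zero S.inj S.x_pos J hh] at h4
      rw [iota_const c hcne _ _ _ h4]
      exact mul_ne_zero (zpow_ne_zero _ hcne) h0
  refine ⟨S', c, hcne, htr', rfl, ?_, ?_, ?_⟩
  · have hmemU : ∀ F : IntermediateField k K, (∀ a, S.U (Multiplicative.ofAdd a) ∈ F) → S.x ∈ F →
        ∀ w, FrMove_E S.U u (Multiplicative.ofAdd w) ∈ F := by
      intro F h1 h2 w
      rw [hE1]
      exact mul_mem (h1 _) (zpow_mem h2 _)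
    have hmemE : ∀ F : IntermediateField k K,
        (∀ a, FrMove_U S.U u J.Θ (Multiplicative.ofAdd a) ∈ F) → (τ : K) ∈ F →
        ∀ w, FrMove_E S.U u (Multiplicative.ofAdd w) ∈ F := by
      intro F h1 h2 w
      have h3 := hsplit (J.Θ w)
      rw [AddEquiv.symm_apply_apply, ← hE1] at h3
      rw [h3]
      exact mul_mem (h1 _) (zpow_mem h2 _)
    apply le_antisymm
    · rw [Fr.fld, IntermediateField.adjoin_le_iff]
      have h1 : ∀ w, FrMove_E S.U u (Multiplicative.ofAdd w) ∈ S.fld :=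
        hmemU S.fld (fun a => IntermediateField.subset_adjoin _ _ (Or.inl ⟨a, rfl⟩))
          (IntermediateField.subset_adjoin _ _ (Or.inr rfl))
      rintro z (⟨a, rfl⟩ | rfl)
      · exact h1 _
      · exact sub_mem (h1 _) (S.fld.algebraMap_mem c)
    · rw [Fr.fld, IntermediateField.adjoin_le_iff]
      have h0 : (τ : K) ∈ S'.fld := by
        have h2 : S'.x ∈ S'.fld := IntermediateField.subset_adjoin _ _ (Or.inr rfl)
        have h3 := add_mem h2 (S'.fld.algebraMap_mem c)
        rwa [hxc] at h3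
      have h1 : ∀ w, FrMove_E S.U u (Multiplicative.ofAdd w) ∈ S'.fld :=
        hmemE S'.fld (fun a => IntermediateField.subset_adjoin _ _ (Or.inl ⟨a, rfl⟩)) h0
      rintro z (⟨a, rfl⟩ | hz)
      · have h2 := h1 (a, 0)
        rw [hE1] at h2
        simpa using h2
      · rw [Set.mem_singleton_iff] at hz
        rw [hz]
        have h2 := h1 (0, 1)
        rw [hE1] at h2
        simpa using h2
  · rintro e ⟨a, h1, h2, p1, q1, p2, q2, he⟩
    obtain ⟨N1, g1, a1, b1, c1⟩ := hunit h1 p1 q1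
    obtain ⟨N2, g2, a2, b2, c2⟩ := hunit h2 p2 q2
    have hUa : S.U (Multiplicative.ofAdd a) =
        FrMove_U S.U u J.Θ (Multiplicative.ofAdd (J.Θ (a, 0)).1) * (τ : K) ^ (J.Θ (a, 0)).2 := by
      rw [← hsplit, AddEquiv.symm_apply_apply]
      simp
    set M : ℤ := (J.Θ (a, 0)).2 - N1 + N2 with hM
    set q : k[X] := X + Polynomial.C c with hq
    have hqx : aeval S'.x q = (τ : K) := by
      rw [hq, map_add, aeval_X, aeval_C, hxc]
    have hq0 : ∀ n : ℕ, (q ^ n).coeff 0 ≠ 0 := by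
      intro n
      rw [Polynomial.coeff_zero_eq_eval_zero]
      simp [hq, hcne]
    have hmul : ∀ (n : ℕ) (g : LA k[X] r), GeL J.φ' g 0 → (g.coeff 0).coeff 0 ≠ 0 →
        GeL J.φ' ((AddMonoidAlgebra.single (0 : Fin r → ℤ) (q ^ n) : LA k[X] r) * g) 0 ∧
        ((((AddMonoidAlgebra.single (0 : Fin r → ℤ) (q ^ n) : LA k[X] r) * g).coeff 0).coeff 0
          ≠ 0) := by
      intro n g hg1 hg2
      refine ⟨?_, ?_⟩
      · intro A hA
        rw [FrMove_cmul] at hA
        exact hg1 A (right_ne_zero_of_mul hA)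
      · rw [FrMove_cmul, Polynomial.mul_coeff_zero]
        exact mul_ne_zero (hq0 n) hg2
    refine ⟨(J.Θ (a, 0)).1, _, _, (hmul M.toNat g1 a1 b1).1, (hmul M.toNat g1 a1 b1).2,
      (hmul (-M).toNat g2 a2 b2).1, (hmul (-M).toNat g2 a2 b2).2, ?_⟩
    rw [FrMove_evP_cmul, FrMove_evP_cmul, map_pow, map_pow, hqx, c1, c2]
    have hτ0 : (τ : K) ≠ 0 := τ.ne_zero
    have hpow : (τ : K) ^ (-M).toNat * (τ : K) ^ N2 * (τ : K) ^ (J.Θ (a, 0)).2 =
        (τ : K) ^ M.toNat * (τ : K) ^ N1 := by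
      rw [← zpow_natCast, ← zpow_natCast, ← zpow_add₀ hτ0, ← zpow_add₀ hτ0, ← zpow_add₀ hτ0]
      congr 1
      have h3 : ((-M).toNat : ℤ) = M.toNat - M := by omega
      rw [h3, hM]
      ring
    have hU' : S'.U = FrMove_U S.U u J.Θ := rfl
    calc e * ((τ : K) ^ (-M).toNat * ((τ : K) ^ N2 * evP S.U S.x h2))
        = (τ : K) ^ (-M).toNat * (τ : K) ^ N2 * (e * evP S.U S.x h2) := by ring
      _ = (τ : K) ^ (-M).toNat * (τ : K) ^ N2 *
          (S.U (Multiplicative.ofAdd a) * evP S.U S.x h1) := by rw [he]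
      _ = FrMove_U S.U u J.Θ (Multiplicative.ofAdd (J.Θ (a, 0)).1) *
          (((τ : K) ^ (-M).toNat * (τ : K) ^ N2 * (τ : K) ^ (J.Θ (a, 0)).2) *
            evP S.U S.x h1) := by
          rw [hUa]
          ring
      _ = _ := by
          rw [hpow, hU']
          ring
  · intro h h' N hh
    rw [hxc]
    exact hev h h' N hh

end LX
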