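import Pool.Agent.helper90.LX.FrMove
import Pool.Agent.helper90.LX.Window

namespace LX

open Polynomial LaurentPolynomial

variable {k K : Type*} [Field k] [Field K] [Algebra k K] {V : RV k K} {r : ℕ}

/-- `ν(h) ≤ n`: at the lowest exponent `a` of `h` the polynomial `h(a)` has a nonzero coefficient at
some `X^b`, `b ≤ n`. -/
def NuLe (φ : (Fin r → ℤ) →+ ℝ) (h : LA k[X] r) (n : ℕ) : Prop :=
  ∃ a, GeL φ h (φ a) ∧ ∃ b : ℕ, b ≤ n ∧ (h.coeff a).coeff b ≠ 0

theorem FrNu.coeff_shift (a b : Fin r → ℤ) (h : LA k[X] r) :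
    ((AddMonoidAlgebra.single (-a) 1 : LA k[X] r) * h).coeff b = h.coeff (a + b) := by
  rw [AddMonoidAlgebra.coeff_single_mul_apply, one_mul, neg_neg]

/-- `ν = 0`: the element is a monomial times a unit. -/
theorem mu_of_nu (S : Fr V r) (h : LA k[X] r) (h0 : NuLe S.φ h 0) : MU S (evP S.U S.x h) := by
  obtain ⟨a, hG, b, hb, hne⟩ := h0
  have hb0 : b = 0 := Nat.le_zero.1 hb
  subst hb0
  refine ⟨a, AddMonoidAlgebra.single (-a) 1 * h, 1, ?_, ?_, geL_one, ?_, ?_⟩
  · intro b hb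
    rw [FrNu.coeff_shift] at hb
    have h1 := hG _ hb
    rw [map_add] at h1
    linarith
  · rw [FrNu.coeff_shift, add_zero]
    exact hne
  · have h1 : (1 : LA k[X] r) = AddMonoidAlgebra.single 0 1 := rfl
    rw [h1, AddMonoidAlgebra.coeff_single, Finsupp.single_eq_same, Polynomial.coeff_one_zero]
    exact one_ne_zero
  · rw [map_one, mul_one, map_mul]
    have h1 : evP S.U S.x (AddMonoidAlgebra.single (-a) 1 : LA k[X] r) =
        S.U (Multiplicative.ofAdd (-a)) := by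
      rw [evP, ev_single, map_one, one_mul]
    rw [h1, ← mul_assoc, ← map_mul, ← ofAdd_add, add_neg_cancel, ofAdd_zero, map_one, one_mul]

/-- VTRANS keeps `ν` -/
theorem nu_vt {φ : (Fin r → ℤ) →+ ℝ} (s : LA k r) (hs : GtL φ s 0) (h : LA k[X] r) (n : ℕ)
    (hn : NuLe φ h n) : NuLe φ (vtr s h) n := by
  obtain ⟨a, hG, b, hb, hne⟩ := hn
  obtain ⟨h1, h2⟩ := vtr_geL s hs h (φ a) hG
  refine ⟨a, h1, b, hb, ?_⟩
  rw [h2 a rfl]
  exact hne

/-- exponents of `T` in terms of exponents of `X` -/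
theorem FrNu.symm_snd {φ : (Fin r → ℤ) →+ ℝ} {γ : ℝ} (J : JD φ γ) (A : Fin r → ℤ) (B : ℤ) :
    (J.Θ.symm (A, B)).2 = (J.Θ.symm (A, 0)).2 + B * (J.d : ℤ) := by
  have h1 : ((A, B) : (Fin r → ℤ) × ℤ) = (A, 0) + B • ((0 : Fin r → ℤ), (1 : ℤ)) := by
    ext <;> simp
  rw [h1, map_add, map_zsmul, Prod.snd_add, Prod.smul_snd, J.hd, smul_eq_mul]

/-- a nonzero element has a lowest exponent -/
theorem FrNu.exists_low {R : Type*} [CommRing R] (φ : (Fin r → ℤ) →+ ℝ) (g : LA R r)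
    (hg : g ≠ 0) : ∃ A, g.coeff A ≠ 0 ∧ GeL φ g (φ A) := by
  have h1 : g.coeff.support.Nonempty := by
    rw [Finsupp.support_nonempty_iff]
    intro h2
    exact hg (AddMonoidAlgebra.coeff_injective h2)
  obtain ⟨A, hA, hmin⟩ := Finset.exists_min_image g.coeff.support (fun a => φ a) h1
  exact ⟨A, Finsupp.mem_support_iff.1 hA, fun a ha => hmin a (Finsupp.mem_support_iff.2 ha)⟩

/-- A jump halves `ν`: the new lowest level is at most `φ a + b γ`, `b ≤ n`; on it the exponents of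
`X` lie in `[0, n]` (all `φ`-levels are `≥ φ a`), so the exponents of `T` lie in a window of length
`n/d ≤ n/2` (`window_ord`); `exists_clear` for the single element `h`. -/
theorem nu_jump {φ : (Fin r → ℤ) →+ ℝ} (hφ : Function.Injective φ) {γ : ℝ} (hγ : 0 < γ)
    (J : JD φ γ) (c : k) (hc : c ≠ 0) (h : LA k[X] r) (n : ℕ) (hn : NuLe φ h n) :
    ∃ (N : ℤ) (h' : LA k[X] r), iotaL c h' = TN N * psi J.Θ h ∧ NuLe J.φ' h' (n / 2) := by
  obtain ⟨a, hG, b, hb, hne⟩ := hn
  obtain ⟨N, g', hg'⟩ := exists_clear c (Polynomial.C (psi J.Θ h))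
  have hh' : iotaL c (g'.coeff 0) = TN (N : ℤ) * psi J.Θ h := by
    have h1 := congrArg (fun q => q.coeff 0) hg'
    simp only [Polynomial.coeff_map, ← Polynomial.C_mul, Polynomial.coeff_C_zero] at h1
    exact h1
  refine ⟨(N : ℤ), g'.coeff 0, hh', ?_⟩
  set h' := g'.coeff 0 with hh'def
  have hmon : ((psi J.Θ h).coeff (J.Θ (a, b)).1).coeff (J.Θ (a, b)).2 ≠ 0 := by
    rw [psi_coeff_of]
    exact hne
  have hA1 : (psi J.Θ h).coeff (J.Θ (a, b)).1 ≠ 0 := by
    intro h1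
    rw [h1] at hmon
    exact hmon rfl
  have hg0 : psi J.Θ h ≠ 0 := by
    intro h1
    rw [h1] at hA1
    exact hA1 rfl
  obtain ⟨A0, hA0, hlow⟩ := FrNu.exists_low J.φ' (psi J.Θ h) hg0
  have hcoef : ∀ A, iota c (h'.coeff A) = T (N : ℤ) * (psi J.Θ h).coeff A := by
    intro A
    rw [← iotaL_coeff, hh', TN_mul_coeff]
  have hL : J.φ' A0 ≤ φ a + b * γ := by
    have h1 := hlow _ hA1
    have h2 := J.val a (b : ℤ)
    rw [h2] at h1
    push_cast at h1
    exact h1
  refine ⟨A0, ?_, ?_⟩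
  · intro A hA
    refine hlow A fun h1 => hA ?_
    apply iota_injective c
    rw [hcoef A, h1, mul_zero, map_zero]
  · by_contra hcon
    push Not at hcon
    have hdvd : (Polynomial.X : k[X]) ^ (n / 2 + 1) ∣ h'.coeff A0 := by
      rw [Polynomial.X_pow_dvd_iff]
      intro e he
      exact hcon e (by omega)
    rw [iota_dvd c hc (h'.coeff A0) ((psi J.Θ h).coeff A0) (N : ℤ) (hcoef A0)] at hdvd
    have hd : (0 : ℝ) < J.d := by
      have := J.two
      have : 0 < J.d := by omega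
      exact_mod_cast this
    have hd2 : (2 : ℝ) ≤ J.d := by exact_mod_cast J.two
    have hwin := window_ord c hc ((psi J.Θ h).coeff A0) hA0
      (-((J.Θ.symm (A0, 0)).2 : ℝ) / J.d) (((n : ℝ) - (J.Θ.symm (A0, 0)).2) / J.d) (by
        intro B hB
        obtain ⟨a', b', hab, hne'⟩ := exists_of_psi J.Θ h A0 B hB
        have h1 : φ a ≤ φ a' := hG a' (by
          intro h2
          rw [h2] at hne'
          exact hne' rfl)
        have h2 := J.val a' (b' : ℤ)
        rw [hab] at h2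
        have h3 : (b' : ℝ) * γ ≤ b * γ := by
          push_cast at h2
          linarith
        have h4 : (b' : ℝ) ≤ b := le_of_mul_le_mul_right h3 hγ
        have h5 : (b : ℝ) ≤ n := by exact_mod_cast hb
        have h6 : (b' : ℤ) = (J.Θ.symm (A0, 0)).2 + B * (J.d : ℤ) := by
          rw [← FrNu.symm_snd, ← hab, AddEquiv.symm_apply_apply]
        have h7 : (b' : ℝ) = ((J.Θ.symm (A0, 0)).2 : ℝ) + B * (J.d : ℝ) := by
          exact_mod_cast h6
        have h8 : (0 : ℝ) ≤ b' := Nat.cast_nonneg b'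
        constructor
        · rw [div_le_iff₀ hd]
          linarith
        · rw [le_div_iff₀ hd]
          linarith) (n / 2 + 1) hdvd
    have h1 : ((n : ℝ) - (J.Θ.symm (A0, 0)).2) / J.d - (-((J.Θ.symm (A0, 0)).2 : ℝ) / J.d) =
        n / J.d := by
      ring
    rw [h1] at hwin
    have h2 : (n : ℝ) / J.d ≤ n / 2 := div_le_div_of_nonneg_left (Nat.cast_nonneg n)
      (by norm_num) hd2
    have h3 : (n : ℝ) < 2 * (((n / 2 : ℕ) : ℝ) + 1) := by
      have : n < 2 * (n / 2 + 1) := by omega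
      exact_mod_cast this
    push_cast at hwin
    linarith

/-- every nonzero `h` has some `ν` -/
theorem exists_nu (φ : (Fin r → ℤ) →+ ℝ) (h : LA k[X] r) (hh : h ≠ 0) : ∃ n, NuLe φ h n := by
  obtain ⟨a, ha, hG⟩ := FrNu.exists_low φ h hh
  have h1 : ∃ b, (h.coeff a).coeff b ≠ 0 := by
    by_contra hcon
    push Not at hcon
    refine ha (Polynomial.ext fun b => ?_)
    rw [hcon b, Polynomial.coeff_zero]
  obtain ⟨b, hb⟩ := h1
  exact ⟨b, a, hG, b, le_rfl, hb⟩

end LX
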