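import Pool.Agent.helper90.LX.EvLem
import Pool.Agent.helper90.LX.LevTay
import Pool.Agent.helper90.LX.Binom

namespace LX

open Polynomial LaurentPolynomial

variable {k : Type*} [Field k] {r : ℕ}

theorem FrobStep.eq_sum (l : k[T;T⁻¹]) :
    l = ∑ B ∈ l.coeff.support, (AddMonoidAlgebra.single B (l.coeff B) : k[T;T⁻¹]) := by
  refine LaurentPolynomial.ext fun B => ?_
  rw [AddMonoidAlgebra.coeff_sum, Finsupp.finsetSum_apply]
  by_cases h : B ∈ l.coeff.support
  · rw [Finset.sum_eq_single B]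
    · rw [AddMonoidAlgebra.coeff_single, Finsupp.single_eq_same]
    · intro C _ hC
      rw [AddMonoidAlgebra.coeff_single, Finsupp.single_apply, if_neg hC]
    · intro h'
      exact absurd h h'
  · rw [Finsupp.notMem_support_iff.1 h]
    symm
    refine Finset.sum_eq_zero fun C hC => ?_
    have : C ≠ B := fun e => h (e ▸ hC)
    rw [AddMonoidAlgebra.coeff_single, Finsupp.single_apply, if_neg this]

theorem FrobStep.frob (p : ℕ) [Fact p.Prime] [CharP k p] (l : k[T;T⁻¹]) (e : ℕ) (B : ℤ) :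
    (l ^ p ^ e).coeff ((p ^ e : ℕ) * B) = (l.coeff B) ^ p ^ e := by
  haveI : CharP k[T;T⁻¹] p :=
    charP_of_injective_ringHom (f := (LaurentPolynomial.C : k →+* k[T;T⁻¹]))
      (RingHom.injective _) p
  have hq : (p ^ e : ℕ) ≠ 0 := pow_ne_zero _ (Fact.out : p.Prime).ne_zero
  conv_lhs => rw [FrobStep.eq_sum l, sum_pow_char_pow]
  rw [AddMonoidAlgebra.coeff_sum, Finsupp.finsetSum_apply]
  have h1 : ∀ C : ℤ, ((AddMonoidAlgebra.single C (l.coeff C) : k[T;T⁻¹]) ^ p ^ e).coeff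
      ((p ^ e : ℕ) * B) = if C = B then (l.coeff C) ^ p ^ e else 0 := by
    intro C
    rw [AddMonoidAlgebra.single_pow, AddMonoidAlgebra.coeff_single, Finsupp.single_apply]
    have h2 : ((p ^ e : ℕ) • C = ((p ^ e : ℕ) : ℤ) * B) ↔ C = B := by
      rw [nsmul_eq_mul]
      constructor
      · intro h
        exact mul_left_cancel₀ (by exact_mod_cast hq) h
      · rintro rfl
        rfl
    simp only [h2]
  rw [Finset.sum_congr rfl fun C _ => h1 C, Finset.sum_ite_eq']
  split_ifs with h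
  · rfl
  · rw [Finsupp.notMem_support_iff.1 h, zero_pow hq]

/-- A pure power face comes from an allowed translation. With `m = p^e m'`, `p ∤ C(m,p^e)`, the
coefficient of index `m - p^e` of the face is `C(m,p^e) cm (-lam)^(p^e)`; the exponents of
`lam^(p^e)` are `p^e` times those of `lam` (characteristic `p`), hence `p^e (A,B)` comes from a
monomial `(a',b')` of `g_(m-p^e)`: `(a',b') = p^e (a,b)` with `(a,b) = Θ.symm (A,B)`, so `b ≥ 0` and
`φ a ≥ α`. -/
theorem frob_step (p : ℕ) [Fact p.Prime] [CharP k p] {φ : (Fin r → ℤ) →+ ℝ} {γ : ℝ}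
    (J : JD φ γ) (g : (LA k[X] r)[X]) (m : ℕ) (hm : 0 < m) (α : ℝ)
    (hg : ∀ i, i < m → GeL φ (g.coeff i) (((m : ℝ) - i) * α)) (cm : k) (hcm : cm ≠ 0)
    (A : Fin r → ℤ) (lam : k[T;T⁻¹])
    (hface : face (Polynomial.map (psi J.Θ) g) m A =
      Polynomial.C (LaurentPolynomial.C cm) * (Polynomial.X - Polynomial.C lam) ^ m) :
    ∃ t1 : LA k[X] r, psi J.Θ t1 = AddMonoidAlgebra.single A lam ∧ GeL φ t1 α := by
  obtain ⟨e, h1, h2, h3⟩ := exists_q p hm
  have hq : 0 < p ^ e := pow_pos (Fact.out : p.Prime).pos e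
  have hqR : (0 : ℝ) < ((p ^ e : ℕ) : ℝ) := by exact_mod_cast hq
  have hi : m - p ^ e < m := by omega
  have hmi : m - (m - p ^ e) = p ^ e := by omega
  -- the coefficient of index `m - p^e`
  have key : (psi J.Θ (g.coeff (m - p ^ e))).coeff ((p ^ e : ℕ) • A) =
      LaurentPolynomial.C cm * ((-lam) ^ p ^ e * ((m.choose (p ^ e) : ℕ) : k[T;T⁻¹])) := by
    have h4 := congrArg (fun P : (k[T;T⁻¹])[X] => P.coeff (m - p ^ e)) hface
    rw [face_coeff _ _ _ _ hi.le, Polynomial.coeff_map, hmi, Polynomial.coeff_C_mul,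
      sub_eq_add_neg, ← Polynomial.C_neg, Polynomial.coeff_X_add_C_pow, hmi,
      Nat.choose_symm h2] at h4
    exact h4
  have hch : ((m.choose (p ^ e) : ℕ) : k) ≠ 0 := by
    intro h
    exact h3 ((CharP.cast_eq_zero_iff k p _).1 h)
  -- exponents of `lam`
  have hB : ∀ B : ℤ, lam.coeff B ≠ 0 → 0 ≤ (J.Θ.symm (A, B)).2 ∧ α ≤ φ (J.Θ.symm (A, B)).1 := by
    intro B hB
    have h5 : ((psi J.Θ (g.coeff (m - p ^ e))).coeff ((p ^ e : ℕ) • A)).coeff
        (((p ^ e : ℕ) : ℤ) * B) ≠ 0 := by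
      rw [key]
      have h6 : LaurentPolynomial.C cm * ((-lam) ^ p ^ e * ((m.choose (p ^ e) : ℕ) : k[T;T⁻¹])) =
          LaurentPolynomial.C (cm * ((m.choose (p ^ e) : ℕ) : k)) * (-lam) ^ p ^ e := by
        rw [map_mul, map_natCast]
        ring
      rw [h6, ← LaurentPolynomial.smul_eq_C_mul, AddMonoidAlgebra.coeff_smul, Finsupp.smul_apply,
        smul_eq_mul, FrobStep.frob]
      refine mul_ne_zero (mul_ne_zero hcm hch) (pow_ne_zero _ ?_)
      simpa using hB
    obtain ⟨a', b', h7, h8⟩ := exists_of_psi J.Θ _ _ _ h5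
    have h9 := hg _ hi a' (fun h => h8 (by rw [h]; rfl))
    have h10 : J.Θ.symm ((p ^ e : ℕ) • A, ((p ^ e : ℕ) : ℤ) * B) =
        (p ^ e : ℕ) • J.Θ.symm (A, B) := by
      rw [← map_nsmul]
      congr 1
    have h11 : (a', (b' : ℤ)) = (p ^ e : ℕ) • J.Θ.symm (A, B) := by
      rw [← h10, ← h7, AddEquiv.symm_apply_apply]
    have h12 : a' = (p ^ e : ℕ) • (J.Θ.symm (A, B)).1 := congrArg Prod.fst h11
    have h13 : (b' : ℤ) = (p ^ e : ℕ) • (J.Θ.symm (A, B)).2 := congrArg Prod.snd h11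
    constructor
    · rw [nsmul_eq_mul] at h13
      have h14 : (0 : ℤ) ≤ ((p ^ e : ℕ) : ℤ) * (J.Θ.symm (A, B)).2 := by
        rw [← h13]
        positivity
      exact nonneg_of_mul_nonneg_right h14 (by exact_mod_cast hq)
    · rw [h12, map_nsmul, nsmul_eq_mul] at h9
      have h15 : ((m : ℝ) - ((m - p ^ e : ℕ) : ℝ)) = ((p ^ e : ℕ) : ℝ) := by
        rw [Nat.cast_sub h2]
        ring
      rw [h15] at h9
      exact le_of_mul_le_mul_left h9 hqR
  -- the translation
  refine ⟨∑ B ∈ lam.coeff.support, AddMonoidAlgebra.single (J.Θ.symm (A, B)).1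
    (Polynomial.monomial (J.Θ.symm (A, B)).2.toNat (lam.coeff B)), ?_, ?_⟩
  · rw [map_sum]
    have h16 : ∀ B ∈ lam.coeff.support, psi J.Θ (AddMonoidAlgebra.single (J.Θ.symm (A, B)).1
        (Polynomial.monomial (J.Θ.symm (A, B)).2.toNat (lam.coeff B))) =
        AddMonoidAlgebra.single A (AddMonoidAlgebra.single B (lam.coeff B)) := by
      intro B hB'
      have h17 := (hB B (Finsupp.mem_support_iff.1 hB')).1
      rw [psi_single, Int.toNat_of_nonneg h17]
      have h18 : J.Θ ((J.Θ.symm (A, B)).1, (J.Θ.symm (A, B)).2) = (A, B) := by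
        rw [Prod.mk.eta, AddEquiv.apply_symm_apply]
      rw [h18]
    rw [Finset.sum_congr rfl h16]
    conv_rhs => rw [FrobStep.eq_sum lam]
    rw [← AddMonoidAlgebra.singleAddHom_apply, map_sum]
    rfl
  · refine geL_sum _ _ fun B hB' => geL_mono (geL_single _ _) ?_
    exact (hB B (Finsupp.mem_support_iff.1 hB')).2

end LX
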