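import Pool.Agent.helper90.LX.Defs

namespace LX

variable {R : Type*} [CommRing R] {r : ℕ} {φ : (Fin r → ℤ) →+ ℝ} {g h : LA R r} {s t : ℝ}

theorem exists_of_mul {a : Fin r → ℤ} (ha : (g * h).coeff a ≠ 0) :
    ∃ b c, b + c = a ∧ g.coeff b ≠ 0 ∧ h.coeff c ≠ 0 := by
  classical
  have h1 : a ∈ (g * h).coeff.support := Finsupp.mem_support_iff.2 ha
  have h2 := AddMonoidAlgebra.support_coeff_mul_subset g h h1
  obtain ⟨b, hb, c, hc, rfl⟩ := Finset.mem_add.1 h2
  exact ⟨b, c, rfl, Finsupp.mem_support_iff.1 hb, Finsupp.mem_support_iff.1 hc⟩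

theorem geL_zero (s : ℝ) : GeL φ (0 : LA R r) s := fun a ha => absurd rfl ha
theorem gtL_zero (s : ℝ) : GtL φ (0 : LA R r) s := fun a ha => absurd rfl ha

theorem geL_mono (hg : GeL φ g s) (h' : t ≤ s) : GeL φ g t := fun a ha => le_trans h' (hg a ha)
theorem gtL_mono (hg : GtL φ g s) (h' : t ≤ s) : GtL φ g t :=
  fun a ha => lt_of_le_of_lt h' (hg a ha)
theorem gtL_of_geL (hg : GeL φ g s) (h' : t < s) : GtL φ g t :=
  fun a ha => lt_of_lt_of_le h' (hg a ha)
theorem geL_of_gtL (hg : GtL φ g s) : GeL φ g s := fun a ha => (hg a ha).le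

theorem geL_add (hg : GeL φ g s) (hh : GeL φ h s) : GeL φ (g + h) s := by
  intro a ha
  by_cases h1 : g.coeff a = 0
  · refine hh a fun h2 => ha ?_
    simp [h1, h2]
  · exact hg a h1

theorem gtL_add (hg : GtL φ g s) (hh : GtL φ h s) : GtL φ (g + h) s := by
  intro a ha
  by_cases h1 : g.coeff a = 0
  · refine hh a fun h2 => ha ?_
    simp [h1, h2]
  · exact hg a h1

theorem geL_sum {ι : Type*} (u : Finset ι) (q : ι → LA R r) (hq : ∀ i ∈ u, GeL φ (q i) s) :
    GeL φ (∑ i ∈ u, q i) s := by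
  classical
  induction u using Finset.induction_on with
  | empty => simpa using geL_zero s
  | insert a u ha ih =>
    rw [Finset.sum_insert ha]
    exact geL_add (hq a (Finset.mem_insert_self a u))
      (ih fun i hi => hq i (Finset.mem_insert_of_mem hi))

theorem gtL_sum {ι : Type*} (u : Finset ι) (q : ι → LA R r) (hq : ∀ i ∈ u, GtL φ (q i) s) :
    GtL φ (∑ i ∈ u, q i) s := by
  classical
  induction u using Finset.induction_on with
  | empty => simpa using gtL_zero s
  | insert a u ha ih =>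
    rw [Finset.sum_insert ha]
    exact gtL_add (hq a (Finset.mem_insert_self a u))
      (ih fun i hi => hq i (Finset.mem_insert_of_mem hi))

theorem geL_mul (hg : GeL φ g s) (hh : GeL φ h t) : GeL φ (g * h) (s + t) := by
  intro a ha
  obtain ⟨b, c, rfl, hb, hc⟩ := exists_of_mul ha
  rw [map_add]
  exact add_le_add (hg b hb) (hh c hc)

theorem gtL_mul (hg : GtL φ g s) (hh : GeL φ h t) : GtL φ (g * h) (s + t) := by
  intro a ha
  obtain ⟨b, c, rfl, hb, hc⟩ := exists_of_mul ha
  rw [map_add]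
  exact add_lt_add_of_lt_of_le (hg b hb) (hh c hc)

theorem geL_single (a : Fin r → ℤ) (c : R) : GeL φ (AddMonoidAlgebra.single a c) (φ a) := by
  intro b hb
  by_cases h1 : a = b
  · rw [h1]
  · exact absurd (by simp [h1]) hb

theorem geL_const (c : R) : GeL φ (AddMonoidAlgebra.single 0 c) 0 := by
  have := geL_single (φ := φ) 0 c
  rwa [map_zero] at this

theorem geL_one : GeL φ (1 : LA R r) 0 := geL_const 1

theorem geL_natCast (n : ℕ) : GeL φ (n : LA R r) 0 := by
  induction n with
  | zero => simpa using geL_zero 0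
  | succ n ih => push_cast; exact geL_add ih geL_one

theorem geL_neg (hg : GeL φ g s) : GeL φ (-g) s := by
  intro a ha
  exact hg a (by simpa using ha)

theorem gtL_neg (hg : GtL φ g s) : GtL φ (-g) s := by
  intro a ha
  exact hg a (by simpa using ha)

theorem geL_sub (hg : GeL φ g s) (hh : GeL φ h s) : GeL φ (g - h) s := by
  rw [sub_eq_add_neg]; exact geL_add hg (geL_neg hh)

theorem gtL_sub (hg : GtL φ g s) (hh : GtL φ h s) : GtL φ (g - h) s := by
  rw [sub_eq_add_neg]; exact gtL_add hg (gtL_neg hh)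

theorem geL_pow (hg : GeL φ g s) (n : ℕ) : GeL φ (g ^ n) (n * s) := by
  induction n with
  | zero => simpa using geL_one
  | succ n ih =>
    rw [pow_succ]
    refine geL_mono (geL_mul ih hg) ?_
    push_cast
    linarith

theorem gtL_pow (hg : GtL φ g s) (n : ℕ) (hn : n ≠ 0) : GtL φ (g ^ n) (n * s) := by
  obtain ⟨m, rfl⟩ := Nat.exists_eq_succ_of_ne_zero hn
  rw [pow_succ, mul_comm]
  refine gtL_mono (gtL_mul hg (geL_pow (geL_of_gtL hg) m)) ?_
  push_cast
  linarith

/-- `C(j,i) g t^(j-i)` -/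
theorem geL_term (hg : GeL φ g s) (hh : GeL φ h t) (n e : ℕ) :
    GeL φ ((n : LA R r) * g * h ^ e) (s + e * t) := by
  have := geL_mul (geL_mul (geL_natCast (φ := φ) (R := R) n) hg) (geL_pow hh e)
  rwa [zero_add] at this

theorem gtL_coeff_zero (hg : GtL φ g s) {a : Fin r → ℤ} (ha : φ a ≤ s) : g.coeff a = 0 := by
  by_contra h1
  exact absurd (hg a h1) (not_lt.2 ha)

theorem geL_coeff_zero (hg : GeL φ g s) {a : Fin r → ℤ} (ha : φ a < s) : g.coeff a = 0 := by
  by_contra h1
  exact absurd (hg a h1) (not_le.2 ha)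

/-- coefficients of a Taylor shift -/
theorem taylor_coeff_eq (q : Polynomial R) (t : R) (i N : ℕ) (hN : q.natDegree ≤ N) :
    (Polynomial.taylor t q).coeff i =
      ∑ j ∈ Finset.range (N + 1), ((j.choose i : ℕ) : R) * q.coeff j * t ^ (j - i) := by
  rw [Polynomial.taylor_coeff, Polynomial.hasseDeriv_apply, Polynomial.sum_def,
    Polynomial.eval_finsetSum]
  have h1 : ∀ j ∈ q.support, j ∈ Finset.range (N + 1) := by
    intro j hj
    rw [Finset.mem_range]
    have := Polynomial.le_natDegree_of_mem_supp j hj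
    omega
  rw [← Finset.sum_subset (s₁ := q.support) h1]
  · refine Finset.sum_congr rfl fun j _ => ?_
    simp
  · intro j _ hj
    rw [Polynomial.notMem_support_iff.1 hj]
    simp

end LX
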