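import Pool.Agent.helper90.LX.Bound
import Pool.Agent.helper90.LX.FrobStep
import Pool.Agent.helper90.LX.SPlus

namespace LX

open Polynomial LaurentPolynomial

variable {k K : Type*} [Field k] [Field K] [Algebra k K] {V : RV k K} {r m : ℕ}

/-- the polygon of `f^t` after the jump, at level `L`, with a vertex and not a pure power -/
def IsOpt (S : State V r m) (J : JD S.φ (V.v S.x.fst)) (t : LA k[X] r) (L : ℝ) : Prop :=
  0 < L ∧ Lev J.φ' (Polynomial.map (psi J.Θ) (taylor t S.f)) m L ∧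
  (∃ i, i < m ∧ ∃ A, J.φ' A = ((m : ℝ) - i) * L ∧
    ((Polynomial.map (psi J.Θ) (taylor t S.f)).coeff i).coeff A ≠ 0) ∧
  ∀ A, J.φ' A = L → ∀ lam : k[T;T⁻¹],
    face (Polynomial.map (psi J.Θ) (taylor t S.f)) m A ≠
      Polynomial.C (LaurentPolynomial.C (((S.f.coeff m).coeff 0).coeff 0)) *
        (Polynomial.X - Polynomial.C lam) ^ m

/-! ### auxiliary facts -/

theorem Opt.gamma_pos (S : State V r m) : 0 < V.v S.x.fst := lt_of_gt S.x_ne S.x_pos

theorem Opt.mapcoeff (Θ : ((Fin r → ℤ) × ℤ) ≃+ ((Fin r → ℤ) × ℤ)) (g : (LA k[X] r)[X]) (i : ℕ) :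
    (Polynomial.map (psi Θ) g).coeff i = psi Θ (g.coeff i) := Polynomial.coeff_map _ _

/-- the coefficients of index `i` at level zero -/
theorem Opt.coeff_zero (S : State V r m) (J : JD S.φ (V.v S.x.fst))
    (t : LA k[X] r) (ht : GeL S.φ t 0) (ht0 : (t.coeff 0).coeff 0 = 0) (i : ℕ) :
    ((Polynomial.map (psi J.Θ) (taylor t S.f)).coeff i).coeff 0 =
      LaurentPolynomial.C (((S.f.coeff i).coeff 0).coeff 0) := by
  rw [map_taylor, coeff_taylor_zero (φ := J.φ') (fun j => ?_) (psi_gtL S.inj (Opt.gamma_pos S) J ht ht0) i,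
    Opt.mapcoeff, psi_coeff_zero S.inj (Opt.gamma_pos S) J (S.pos i)]
  rw [Opt.mapcoeff]
  exact psi_geL S.inj (Opt.gamma_pos S) J (S.pos j)

theorem Opt.geL_all (S : State V r m) (J : JD S.φ (V.v S.x.fst))
    (t : LA k[X] r) (ht : GeL S.φ t 0) (i : ℕ) :
    GeL J.φ' ((Polynomial.map (psi J.Θ) (taylor t S.f)).coeff i) 0 := by
  have h1 : Lev S.φ S.f m 0 := ⟨fun i _ => by simpa using S.pos i, S.pos⟩
  have h2 := lev_taylor le_rfl h1 ht
  rw [Opt.mapcoeff]
  exact psi_geL S.inj (Opt.gamma_pos S) J (h2.2 i)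

theorem Opt.gtL_low (S : State V r m) (J : JD S.φ (V.v S.x.fst))
    (t : LA k[X] r) (ht : GeL S.φ t 0) (ht0 : (t.coeff 0).coeff 0 = 0) (i : ℕ) (hi : i < m) :
    GtL J.φ' ((Polynomial.map (psi J.Θ) (taylor t S.f)).coeff i) 0 := by
  intro A hA
  refine lt_of_le_of_ne (Opt.geL_all S J t ht i A hA) fun h => hA ?_
  have hA0 : A = 0 := J.inj (by rw [← h, map_zero])
  rw [hA0, Opt.coeff_zero S J t ht ht0 i, S.low i hi, map_zero]

theorem Opt.sub_pos {i m : ℕ} (hi : i < m) : (0 : ℝ) < (m : ℝ) - i := by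
  have : (i : ℝ) < m := by exact_mod_cast hi
  linarith

theorem Opt.eq_nsmul {φ : (Fin r → ℤ) →+ ℝ} (hφ : Function.Injective φ) {A a : Fin r → ℤ} {L : ℝ}
    (hA : φ A = L) {i m : ℕ} (hi : i ≤ m) (ha : φ a = ((m : ℝ) - i) * L) : a = (m - i : ℕ) • A := by
  apply hφ
  rw [map_nsmul, ha, hA, nsmul_eq_mul, Nat.cast_sub hi]

theorem Opt.f_ne (S : State V r m) : S.f ≠ 0 := by
  intro h
  apply S.top
  rw [h]
  simp

theorem Opt.charP (p : ℕ) [CharP k p] : CharP k[T;T⁻¹] p :=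
  charP_of_injective_algebraMap (FaithfulSMul.algebraMap_injective k k[T;T⁻¹]) p

/-- levels exist: for every translation `t` there is a level `L > 0` with equality -/
theorem exists_level (S : State V r m) (hm : 2 ≤ m) (J : JD S.φ (V.v S.x.fst))
    (t : LA k[X] r) (ht : GeL S.φ t 0) (ht0 : (t.coeff 0).coeff 0 = 0) :
    ∃ L : ℝ, 0 < L ∧ Lev J.φ' (Polynomial.map (psi J.Θ) (taylor t S.f)) m L ∧
      ∃ i, i < m ∧ ∃ A, J.φ' A = ((m : ℝ) - i) * L ∧
        ((Polynomial.map (psi J.Θ) (taylor t S.f)).coeff i).coeff A ≠ 0 := by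
  classical
  set g := Polynomial.map (psi J.Θ) (taylor t S.f) with hg
  have hall : ∀ i, GeL J.φ' (g.coeff i) 0 := fun i => Opt.geL_all S J t ht i
  have hlow : ∀ i, i < m → GtL J.φ' (g.coeff i) 0 := fun i hi => Opt.gtL_low S J t ht ht0 i hi
  -- the finite set of points of the polygon
  let P : Finset (Σ _ : ℕ, Fin r → ℤ) := (Finset.range m).sigma fun i => (g.coeff i).coeff.support
  have hP : ∀ i A, (⟨i, A⟩ : Σ _ : ℕ, Fin r → ℤ) ∈ P ↔ i < m ∧ (g.coeff i).coeff A ≠ 0 := by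
    intro i A
    simp only [P, Finset.mem_sigma, Finset.mem_range, Finsupp.mem_support_iff]
  have hne : P.Nonempty := by
    by_contra hemp
    rw [Finset.not_nonempty_iff_eq_empty] at hemp
    have hz : ∀ i, i < m → ∀ A, (g.coeff i).coeff A = 0 := by
      intro i hi A
      by_contra h
      have := (hP i A).2 ⟨hi, h⟩
      rw [hemp] at this
      exact absurd this (Finset.notMem_empty _)
    obtain ⟨C, hC⟩ := level_bound S hm J
    have h1 := hC t ht ht0 (max C 0 + 1) (by positivity)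
      ⟨fun i hi A hA => absurd (hz i hi A) hA, hall⟩
    have h2 := le_max_left C 0
    linarith
  obtain ⟨⟨i0, A0⟩, h0, hmin⟩ := Finset.exists_min_image P
    (fun q => J.φ' q.2 / ((m : ℝ) - q.1)) hne
  obtain ⟨hi0, hA0⟩ := (hP i0 A0).1 h0
  have hpos := Opt.sub_pos hi0
  refine ⟨J.φ' A0 / ((m : ℝ) - i0), div_pos (hlow i0 hi0 A0 hA0) hpos, ⟨?_, hall⟩,
    i0, hi0, A0, ?_, hA0⟩
  · intro i hi A hA
    have h1 := hmin ⟨i, A⟩ ((hP i A).2 ⟨hi, hA⟩)
    simp only at h1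
    have h2 := Opt.sub_pos hi
    rw [le_div_iff₀ h2] at h1
    rw [mul_comm]
    exact h1
  · rw [mul_div_cancel₀ _ hpos.ne']

/-- one improvement: if `(t, L)` is not optimal then there are `A`, `lam ≠ 0`, `φ' A = L`, and `t1` with
`psi t1 = lam u^A`, `t1 ≥ α`, such that the level of `t + t1` is larger than `L`; moreover the
lowest monomial of `psi (f^t)_0` is `cm (-lam)^m` at `m A`. -/
theorem improve (p : ℕ) [Fact p.Prime] [CharP k p] (S : State V r m) (hm : 2 ≤ m)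
    (J : JD S.φ (V.v S.x.fst)) (α : ℝ) (h1 : C1 S.φ S.f m α) (t : LA k[X] r)
    (ht : GeL S.φ t α) (ht0 : (t.coeff 0).coeff 0 = 0) (L : ℝ) (hL : 0 < L)
    (hLev : Lev J.φ' (Polynomial.map (psi J.Θ) (taylor t S.f)) m L)
    (heq : ∃ i, i < m ∧ ∃ A, J.φ' A = ((m : ℝ) - i) * L ∧
      ((Polynomial.map (psi J.Θ) (taylor t S.f)).coeff i).coeff A ≠ 0)
    (hno : ¬ IsOpt S J t L) :
    ∃ (A : Fin r → ℤ) (lam : k[T;T⁻¹]) (t1 : LA k[X] r), J.φ' A = L ∧ lam ≠ 0 ∧
      psi J.Θ t1 = AddMonoidAlgebra.single A lam ∧ GeL S.φ t1 α ∧ (t1.coeff 0).coeff 0 = 0 ∧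
      (∀ i, i < m → GtL J.φ' ((Polynomial.map (psi J.Θ) (taylor (t + t1) S.f)).coeff i)
        (((m : ℝ) - i) * L)) ∧
      ((Polynomial.map (psi J.Θ) (taylor t S.f)).coeff 0).coeff (m • A) ≠ 0 := by
  have hm0 : 0 < m := by omega
  set g := Polynomial.map (psi J.Θ) (taylor t S.f) with hg
  set cm : k := ((S.f.coeff m).coeff 0).coeff 0 with hcm
  have hcm0 : cm ≠ 0 := S.top
  have hex : ∃ A, J.φ' A = L ∧ ∃ lam : k[T;T⁻¹], face g m A =
      Polynomial.C (LaurentPolynomial.C cm) * (Polynomial.X - Polynomial.C lam) ^ m := by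
    by_contra hcon
    push Not at hcon
    exact hno ⟨hL, hLev, heq, hcon⟩
  obtain ⟨A, hA, lam, hface⟩ := hex
  have hlam : lam ≠ 0 := by
    rintro rfl
    obtain ⟨i, hi, a, ha, hne⟩ := heq
    rw [Opt.eq_nsmul J.inj hA hi.le ha, ← face_coeff g m A i hi.le, hface] at hne
    apply hne
    rw [map_zero, sub_zero, Polynomial.coeff_C_mul, Polynomial.coeff_X_pow, if_neg hi.ne, mul_zero]
  have h2 : Lev S.φ (taylor t S.f) m α := lev_taylor h1.1 ⟨h1.2, S.pos⟩ ht
  obtain ⟨t1, ht1, ht1α⟩ := frob_step p J (taylor t S.f) m hm0 α h2.1 cm hcm0 A lam hface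
  have hA0 : A ≠ 0 := by
    rintro rfl
    rw [map_zero] at hA
    exact hL.ne hA
  refine ⟨A, lam, t1, hA, hlam, ht1, ht1α, ?_, ?_, ?_⟩
  · have h3 := psi_coeff_of J.Θ t1 0 0
    have h4 : J.Θ ((0 : Fin r → ℤ), ((0 : ℕ) : ℤ)) = 0 := by
      rw [Nat.cast_zero]
      exact map_zero J.Θ
    rw [h4, ht1] at h3
    rw [← h3, Prod.fst_zero, Prod.snd_zero, AddMonoidAlgebra.coeff_single,
      Finsupp.single_eq_of_ne (Ne.symm hA0)]
    rfl
  · intro i hi a ha
    rw [add_comm, ← taylor_taylor, map_taylor, ← hg, ht1] at ha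
    have hge : GeL J.φ' (AddMonoidAlgebra.single A lam : LA k[T;T⁻¹] r) L := by
      have := geL_single (φ := J.φ') A lam
      rwa [hA] at this
    have h5 := lev_taylor hL.le hLev hge
    refine lt_of_le_of_ne (h5.1 i hi a ha) fun h => ha ?_
    rw [Opt.eq_nsmul J.inj hA hi.le h.symm, ← face_coeff _ m A i hi.le,
      face_taylor J.inj hL hLev hge A hA, hface]
    have h6 : ((AddMonoidAlgebra.single A lam : LA k[T;T⁻¹] r).coeff A) = lam := by simp
    rw [h6, taylor_mul, taylor_C, taylor_pow, map_sub, taylor_X, taylor_C, add_sub_cancel_right,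
      Polynomial.coeff_C_mul, Polynomial.coeff_X_pow, if_neg hi.ne, mul_zero]
  · have h7 := face_coeff g m A 0 (Nat.zero_le m)
    rw [Nat.sub_zero, hface, Polynomial.coeff_C_mul, Polynomial.coeff_zero_eq_eval_zero,
      Polynomial.eval_pow, Polynomial.eval_sub, Polynomial.eval_X, Polynomial.eval_C, zero_sub] at h7
    rw [← h7]
    refine mul_ne_zero ?_ (pow_ne_zero _ (neg_ne_zero.2 hlam))
    intro h8
    apply hcm0
    exact (FaithfulSMul.algebraMap_injective k k[T;T⁻¹]) (h8.trans (map_zero _).symm)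

/-- Optimal translation. If there is none, `improve` gives a sequence `t_l` with
`psi t_l = tS A lam l`, levels `L_l = φ' (A_l)` strictly increasing, bounded by `level_bound`; the
polynomial `h = map (psi) f` has `h(psi t_l) = psi ((taylor t_l f)_0)` of minimal level `m L_l`,
contradicting `splus` (constant minimal level). -/
theorem exists_opt (p : ℕ) [Fact p.Prime] [CharP k p] (S : State V r m) (hm : 2 ≤ m)
    (J : JD S.φ (V.v S.x.fst)) (α : ℝ) (h1 : C1 S.φ S.f m α) :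
    ∃ (t : LA k[X] r) (L : ℝ), GeL S.φ t α ∧ (t.coeff 0).coeff 0 = 0 ∧ IsOpt S J t L := by
  by_contra hno
  push Not at hno
  have hm0 : (0 : ℝ) < m := by
    have : 0 < m := by omega
    exact_mod_cast this
  have hα0 : ∀ {t : LA k[X] r}, GeL S.φ t α → GeL S.φ t 0 := fun h => geL_mono h h1.1
  -- the states of the iteration
  let Q : (LA k[X] r × ℝ) → Prop := fun q =>
    GeL S.φ q.1 α ∧ (q.1.coeff 0).coeff 0 = 0 ∧ 0 < q.2 ∧
      Lev J.φ' (Polynomial.map (psi J.Θ) (taylor q.1 S.f)) m q.2 ∧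
      ∃ i, i < m ∧ ∃ A, J.φ' A = ((m : ℝ) - i) * q.2 ∧
        ((Polynomial.map (psi J.Θ) (taylor q.1 S.f)).coeff i).coeff A ≠ 0
  have step : ∀ q : {q // Q q}, ∃ (q' : {q // Q q}) (A : Fin r → ℤ) (lam : k[T;T⁻¹]),
      J.φ' A = q.1.2 ∧ lam ≠ 0 ∧
      psi J.Θ q'.1.1 = psi J.Θ q.1.1 + AddMonoidAlgebra.single A lam ∧ q.1.2 < q'.1.2 ∧
      ((Polynomial.map (psi J.Θ) (taylor q.1.1 S.f)).coeff 0).coeff (m • A) ≠ 0 := by
    rintro ⟨⟨t, L⟩, ht, ht0, hL, hLev, heq⟩
    obtain ⟨A, lam, t1, hA, hlam, ht1, ht1α, ht10, hgt, hne⟩ :=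
      improve p S hm J α h1 t ht ht0 L hL hLev heq (hno t L ht ht0)
    have hs : GeL S.φ (t + t1) α := geL_add ht ht1α
    have hs0 : ((t + t1).coeff 0).coeff 0 = 0 := by
      have : ((t + t1).coeff 0).coeff 0 = (t.coeff 0).coeff 0 + (t1.coeff 0).coeff 0 := by simp
      rw [this]
      simp only at ht0
      rw [ht0, ht10, add_zero]
    obtain ⟨L', hL', hLev', i, hi, a, ha, hane⟩ := exists_level S hm J (t + t1) (hα0 hs) hs0
    refine ⟨⟨(t + t1, L'), hs, hs0, hL', hLev', i, hi, a, ha, hane⟩, A, lam, hA, hlam, ?_, ?_, hne⟩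
    · simp only
      rw [map_add, ht1]
    · have h3 := hgt i hi a hane
      rw [ha] at h3
      exact lt_of_mul_lt_mul_left h3 (Opt.sub_pos hi).le
  choose nxt aa ll h1' h2' h3' h4' h5' using step
  have hz : GeL S.φ (0 : LA k[X] r) α := geL_zero α
  obtain ⟨L0, hL0, hLev0, heq0⟩ := exists_level S hm J 0 (hα0 hz) (by simp)
  let q0 : {q // Q q} := ⟨(0, L0), hz, by simp, hL0, hLev0, heq0⟩
  let sq : ℕ → {q // Q q} := fun n => Nat.rec q0 (fun _ q => nxt q) n
  have sq_succ : ∀ n, sq (n + 1) = nxt (sq n) := fun n => rfl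
  let a : ℕ → Fin r → ℤ := fun l => aa (sq l)
  let κ : ℕ → k[T;T⁻¹] := fun l => ll (sq l)
  have hpsi : ∀ l, psi J.Θ (sq l).1.1 = tS a κ l := by
    intro l
    induction l with
    | zero =>
      have : (sq 0).1.1 = 0 := rfl
      rw [this, map_zero]
      simp [tS]
    | succ l ih => rw [sq_succ, h3', ih, tS_succ]
  have ha : StrictMono fun l => J.φ' (a l) := by
    refine strictMono_nat_of_lt_succ fun l => ?_
    simp only [a]
    rw [h1', h1', sq_succ]
    exact h4' _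
  obtain ⟨C, hC⟩ := level_bound S hm J
  have hb : ∃ C : ℝ, ∀ l, J.φ' (a l) ≤ C := by
    refine ⟨C, fun l => ?_⟩
    simp only [a]
    rw [h1']
    obtain ⟨h6, h7, h8, h9, -⟩ := (sq l).2
    exact hC _ (hα0 h6) h7 _ h8.le h9
  have hh : Polynomial.map (psi J.Θ) S.f ≠ 0 := by
    rw [Ne, Polynomial.map_eq_zero_iff (psi_injective J.Θ)]
    exact Opt.f_ne S
  have : CharP k[T;T⁻¹] p := Opt.charP p
  obtain ⟨w, l0, hw⟩ := splus p J.φ' J.inj a κ (fun l => h2' _) ha hb _ hh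
  have key : ∀ l, l0 ≤ l → w = m * J.φ' (a l) := by
    intro l hl
    have h10 : (Polynomial.map (psi J.Θ) S.f).eval (tS a κ l) =
        (Polynomial.map (psi J.Θ) (taylor (sq l).1.1 S.f)).coeff 0 := by
      rw [map_taylor, taylor_coeff_zero, hpsi]
    obtain ⟨⟨hge, A', hA', hw'⟩, -⟩ := hw l hl
    rw [h10] at hge hA'
    apply le_antisymm
    · have h11 := hge _ (h5' (sq l))
      rw [map_nsmul, nsmul_eq_mul] at h11
      exact h11
    · rw [← hw']
      obtain ⟨-, -, -, h9, -⟩ := (sq l).2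
      have h12 := h9.1 0 (by omega) A' hA'
      rw [Nat.cast_zero, sub_zero] at h12
      simp only [a]
      rw [h1']
      exact h12
  have h13 := key l0 le_rfl
  have h14 := key (l0 + 1) (Nat.le_succ l0)
  have h15 : J.φ' (a l0) < J.φ' (a (l0 + 1)) := ha (Nat.lt_succ_self l0)
  have h16 := mul_lt_mul_of_pos_left h15 hm0
  linarith

end LX
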