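import Pool.Agent.helper90.LX.StateJump
import Pool.Agent.helper90.LX.Opt
import Pool.Agent.helper90.LX.C2In
import Pool.Agent.helper90.LX.DLe

namespace LX

open Polynomial LaurentPolynomial

variable {k K : Type*} [Field k] [Field K] [Algebra k K] {V : RV k K} {r m : ℕ}

theorem JumpC_coeff_mul {R : Type*} [CommRing R] {φ : (Fin r → ℤ) →+ ℝ}
    (hφ : Function.Injective φ) {g h : LA R r} (hg : GeL φ g 0) (hh : GeL φ h 0) :
    (g * h).coeff 0 = g.coeff 0 * h.coeff 0 := by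
  set g' : LA R r := g - AddMonoidAlgebra.single 0 (g.coeff 0) with hg'
  have h1 : GtL φ g' 0 := by
    intro a ha
    have ha0 : a ≠ 0 := by
      rintro rfl
      exact ha (by simp [hg'])
    have h2 : g.coeff a ≠ 0 := by
      intro h3
      exact ha (by simp [hg', h3, ha0.symm])
    refine lt_of_le_of_ne (hg a h2) fun h4 => ha0 (hφ ?_)
    rw [map_zero, ← h4]
  have h2 : (g' * h).coeff 0 = 0 :=
    gtL_coeff_zero (gtL_mul h1 hh) (by rw [map_zero, add_zero])
  have e : g * h = g' * h + AddMonoidAlgebra.single 0 (g.coeff 0) * h := by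
    rw [hg']
    ring
  rw [e]
  have e2 : (g' * h + AddMonoidAlgebra.single 0 (g.coeff 0) * h).coeff 0 =
      (g' * h).coeff 0 + (AddMonoidAlgebra.single 0 (g.coeff 0) * h).coeff 0 := by simp
  rw [e2, h2, zero_add, AddMonoidAlgebra.coeff_single_zero_mul]

theorem JumpC_coeff_pow {R : Type*} [CommRing R] {φ : (Fin r → ℤ) →+ ℝ}
    (hφ : Function.Injective φ) {h : LA R r} (hh : GeL φ h 0) (n : ℕ) :
    (h ^ n).coeff 0 = h.coeff 0 ^ n := by
  induction n with
  | zero => simp [AddMonoidAlgebra.one_def]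
  | succ n ih =>
    rw [pow_succ, JumpC_coeff_mul hφ _ hh, ih, pow_succ]
    have := geL_pow hh n
    rwa [mul_zero] at this

theorem JumpC_top {φ : (Fin r → ℤ) →+ ℝ} (hφ : Function.Injective φ) {f : (LA k[X] r)[X]}
    (hf : ∀ i, GeL φ (f.coeff i) 0) {t : LA k[X] r} (ht : GeL φ t 0)
    (ht0 : (t.coeff 0).coeff 0 = 0) :
    (((taylor t f).coeff m).coeff 0).coeff 0 = ((f.coeff m).coeff 0).coeff 0 := by
  classical
  set N := max f.natDegree m with hN
  rw [taylor_coeff_eq f t m N (le_max_left _ _)]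
  have e1 : ∀ (s : Finset ℕ) (F : ℕ → LA k[X] r), (∑ j ∈ s, F j).coeff 0 =
      ∑ j ∈ s, (F j).coeff 0 := by
    intro s F
    induction s using Finset.induction_on with
    | empty => simp
    | insert a s ha ih => rw [Finset.sum_insert ha, Finset.sum_insert ha, ← ih]; simp
  rw [e1, Polynomial.finsetSum_coeff, Finset.sum_eq_single m]
  · simp
  · intro j _ hj
    rcases lt_or_gt_of_ne hj with h1 | h1
    · rw [Nat.choose_eq_zero_of_lt h1]
      simp
    · obtain ⟨n, hn⟩ := Nat.exists_eq_add_of_lt h1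
      have hn' : j - m = n + 1 := by omega
      have h2 : GeL φ (((j.choose m : ℕ) : LA k[X] r) * f.coeff j) 0 := by
        have := geL_mul (geL_natCast (φ := φ) (R := k[X]) (j.choose m)) (hf j)
        rwa [add_zero] at this
      have h3 : GeL φ (t ^ (n + 1)) 0 := by
        have := geL_pow ht (n + 1)
        rwa [mul_zero] at this
      rw [hn', JumpC_coeff_mul hφ h2 h3, JumpC_coeff_pow hφ ht, pow_succ, ← mul_assoc,
        Polynomial.mul_coeff_zero, ht0, mul_zero]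
  · intro h1
    exact absurd (Finset.mem_range.2 (by omega)) h1

/-- The polygon step. Assembly of `exists_opt`, `state_jump`, `geL_of_jump`, `c2_in`, `c2_out`,
`d_le`, `le_level`; `D = (L-α)/γ`. -/
theorem jump_c (p : ℕ) [Fact p.Prime] [CharP k p] (hstd : Std V r) (S : State V r m)
    (hm : 2 ≤ m) (J : JD S.φ (V.v S.x.fst)) (α : ℝ) (h1 : C1 S.φ S.f m α) :
    ∃ (S' : State V r m) (L D : ℝ), 0 ≤ D ∧ C1 S'.φ S'.f m L ∧
      (∀ B, C2 S.φ S.f m α B → D ≤ B) ∧
      (((∃ A, S'.φ A = L) ∧ (D ≤ 1 → ∃ B' : ℝ, B' < 1 ∧ C2 S'.φ S'.f m L B') ∧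
          (1 ≤ D → C2 S'.φ S'.f m L (1 + (D - 1) / 2))) ∨
        ((∀ A, S'.φ A ≠ L) ∧ C2 S'.φ S'.f m L (D / 2))) := by
  obtain ⟨t, L, ht, ht0, hopt⟩ := exists_opt p S hm J α h1
  obtain ⟨hL, hLev, hex, hnp⟩ := hopt
  have hγ : 0 < V.v S.x.fst := by
    rcases S.x_pos with h | h
    · exact absurd h S.x_ne
    · exact h
  have ht' : GeL S.φ t 0 := geL_mono ht h1.1
  obtain ⟨S', c, N, hc, hφ', -, hmap⟩ := state_jump hstd S J t ht' ht0
  obtain ⟨hg1, hg0⟩ := c1_taylor S.pos h1 ht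
  have hg := hg1.2
  have hαL : α ≤ L := le_level hγ J (taylor t S.f) m α L hg hex
  have hD : 0 ≤ (L - α) / V.v S.x.fst := div_nonneg (sub_nonneg.2 hαL) hγ.le
  have htop : (((taylor t S.f).coeff m).coeff 0).coeff 0 = ((S.f.coeff m).coeff 0).coeff 0 :=
    JumpC_top S.inj S.pos ht' ht0
  refine ⟨S', L, (L - α) / V.v S.x.fst, hD, ⟨hL.le, fun i hi => ?_⟩, fun B hB => ?_, ?_⟩
  · exact (geL_of_jump c N S'.f _ hmap i _).1.2 (hφ' ▸ hLev.1 i hi)
  · exact d_le hγ J S.f m α B L hB t ht hLev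
  · by_cases hA : ∃ A, J.φ' A = L
    · left
      obtain ⟨A, hA⟩ := hA
      have h2 := c2_in S.inj hγ J (taylor t S.f) m α L hg hg0 _ S.top htop hL hD hLev A hA
        (hnp A hA) c hc N S'.f hmap
      rw [← hφ'] at h2 hA
      exact ⟨⟨A, hA⟩, h2.1, h2.2⟩
    · right
      push Not at hA
      have h2 := c2_out S.inj hγ J (taylor t S.f) m α L hg hL hLev hA hex c hc N S'.f hmap
      rw [← hφ'] at h2 hA
      exact ⟨hA, h2⟩

end LX
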