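import Pool.Agent.helper90.LX.EvLem
import Pool.Agent.helper90.LX.IotaLem
import Pool.Agent.helper90.LX.PreOps

namespace LX

open Polynomial LaurentPolynomial

variable {k K : Type*} [Field k] [Field K] [Algebra k K] {V : RV k K} {r : ℕ}

/-- the monomials `u^a x^b` in the dual numbers, `x` a unit -/
noncomputable def JumpPre_E {D : Type*} [CommRing D] (U : Multiplicative (Fin r → ℤ) →* D)
    (u : Dˣ) : Multiplicative ((Fin r → ℤ) × ℤ) →* D where
  toFun w := U (Multiplicative.ofAdd (Multiplicative.toAdd w).1) *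
    ((u ^ (Multiplicative.toAdd w).2 : Dˣ) : D)
  map_one' := by simp
  map_mul' v w := by
    rw [toAdd_mul, Prod.fst_add, Prod.snd_add, ofAdd_add, map_mul, zpow_add, Units.val_mul]
    ring

lemma JumpPre_E_apply {D : Type*} [CommRing D] (U : Multiplicative (Fin r → ℤ) →* D)
    (u : Dˣ) (w : (Fin r → ℤ) × ℤ) :
    JumpPre_E U u (Multiplicative.ofAdd w) = U (Multiplicative.ofAdd w.1) * ((u ^ w.2 : Dˣ) : D) :=
  rfl

/-- the monomials of the new coordinates -/
noncomputable def JumpPre_U {D : Type*} [CommRing D] (U : Multiplicative (Fin r → ℤ) →* D)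
    (u : Dˣ) (Θ : ((Fin r → ℤ) × ℤ) ≃+ ((Fin r → ℤ) × ℤ)) :
    Multiplicative (Fin r → ℤ) →* D :=
  (JumpPre_E U u).comp
    (AddMonoidHom.toMultiplicative (Θ.symm.toAddMonoidHom.comp (AddMonoidHom.inl _ _)))

lemma JumpPre_U_apply {D : Type*} [CommRing D] (U : Multiplicative (Fin r → ℤ) →* D)
    (u : Dˣ) (Θ : ((Fin r → ℤ) × ℤ) ≃+ ((Fin r → ℤ) × ℤ)) (A : Fin r → ℤ) :
    JumpPre_U U u Θ (Multiplicative.ofAdd A) =
      JumpPre_E U u (Multiplicative.ofAdd (Θ.symm (A, 0))) := rfl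

lemma JumpPre_E_zero_int {D : Type*} [CommRing D] (U : Multiplicative (Fin r → ℤ) →* D)
    (u : Dˣ) (Θ : ((Fin r → ℤ) × ℤ) ≃+ ((Fin r → ℤ) × ℤ)) (τ : Dˣ)
    (hτ : (τ : D) = JumpPre_E U u (Multiplicative.ofAdd (Θ.symm (0, 1)))) (B : ℤ) :
    ((τ ^ B : Dˣ) : D) = JumpPre_E U u (Multiplicative.ofAdd (Θ.symm (0, B))) := by
  have hnat : ∀ n : ℕ, ((τ ^ n : Dˣ) : D) =
      JumpPre_E U u (Multiplicative.ofAdd (Θ.symm (0, (n : ℤ)))) := by
    intro n
    have e : ((0 : Fin r → ℤ), (n : ℤ)) = n • ((0 : Fin r → ℤ), (1 : ℤ)) := by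
      simp
    rw [e, map_nsmul, ofAdd_nsmul, map_pow, Units.val_pow_eq_pow_val, hτ]
  rcases Int.eq_nat_or_neg B with ⟨n, rfl | rfl⟩
  · rw [zpow_natCast]
    exact hnat n
  · have h1 : ((τ ^ n : Dˣ) : D) *
        JumpPre_E U u (Multiplicative.ofAdd (Θ.symm (0, -(n : ℤ)))) = 1 := by
      rw [hnat n, ← map_mul, ← ofAdd_add, ← map_add]
      have e : ((0 : Fin r → ℤ), (n : ℤ)) + ((0 : Fin r → ℤ), -(n : ℤ)) = 0 := by
        simp
      rw [e, map_zero, ofAdd_zero, map_one]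
    rw [zpow_neg, zpow_natCast]
    exact (Units.eq_inv_of_mul_eq_one_left h1).symm

lemma JumpPre_E_split {D : Type*} [CommRing D] (U : Multiplicative (Fin r → ℤ) →* D)
    (u : Dˣ) (Θ : ((Fin r → ℤ) × ℤ) ≃+ ((Fin r → ℤ) × ℤ)) (τ : Dˣ)
    (hτ : (τ : D) = JumpPre_E U u (Multiplicative.ofAdd (Θ.symm (0, 1))))
    (w : (Fin r → ℤ) × ℤ) :
    JumpPre_E U u (Multiplicative.ofAdd (Θ.symm w)) =
      JumpPre_U U u Θ (Multiplicative.ofAdd w.1) * ((τ ^ w.2 : Dˣ) : D) := by
  rw [JumpPre_E_zero_int U u Θ τ hτ, JumpPre_U_apply, ← map_mul, ← ofAdd_add, ← map_add]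
  congr 3
  ext <;> simp

/-- evaluation of `k[T,1/T]` at a unit -/
noncomputable def JumpPre_rho {D : Type*} [CommRing D] [Algebra k D] (τ : Dˣ) : k[T;T⁻¹] →+* D :=
  LaurentPolynomial.eval₂ (algebraMap k D) τ

lemma JumpPre_rho_iota {D : Type*} [CommRing D] [Algebra k D] (τ : Dˣ) (c : k) (p : k[X]) :
    JumpPre_rho τ (iota c p) = Polynomial.aeval ((τ : D) - algebraMap k D c) p := by
  have e : (JumpPre_rho (k := k) τ).comp (iota c) =
      ((Polynomial.aeval ((τ : D) - algebraMap k D c) : k[X] →ₐ[k] D) : k[X] →+* D) := by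
    apply Polynomial.ringHom_ext
    · intro a
      simp only [RingHom.comp_apply, iota, RingHom.coe_coe, Polynomial.aeval_C, JumpPre_rho]
      rw [LaurentPolynomial.algebraMap_apply, LaurentPolynomial.eval₂_C]
      rfl
    · simp only [RingHom.comp_apply, iota, RingHom.coe_coe, Polynomial.aeval_X, JumpPre_rho,
        map_sub, LaurentPolynomial.eval₂_T, LaurentPolynomial.eval₂_C, zpow_one]
  exact congrArg (fun h => h p) e

lemma JumpPre_ev_monT {D : Type*} [CommRing D] [Algebra k D]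
    (U : Multiplicative (Fin r → ℤ) →* D)
    (u : Dˣ) (Θ : ((Fin r → ℤ) × ℤ) ≃+ ((Fin r → ℤ) × ℤ)) (τ : Dˣ)
    (hτ : (τ : D) = JumpPre_E U u (Multiplicative.ofAdd (Θ.symm (0, 1))))
    (w : (Fin r → ℤ) × ℤ) :
    ev (JumpPre_rho (k := k) τ) (JumpPre_U U u Θ) (monT w) =
      JumpPre_E U u (Multiplicative.ofAdd (Θ.symm w)) := by
  rw [JumpPre_E_split U u Θ τ hτ, monT, ev_single, JumpPre_rho, LaurentPolynomial.eval₂_T]
  ring

lemma JumpPre_ev_psi {D : Type*} [CommRing D] [Algebra k D]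
    (U : Multiplicative (Fin r → ℤ) →* D)
    (u : Dˣ) (Θ : ((Fin r → ℤ) × ℤ) ≃+ ((Fin r → ℤ) × ℤ)) (τ : Dˣ)
    (hτ : (τ : D) = JumpPre_E U u (Multiplicative.ofAdd (Θ.symm (0, 1)))) :
    (ev (JumpPre_rho (k := k) τ) (JumpPre_U U u Θ)).comp (psi Θ) = evP U (u : D) := by
  apply AddMonoidAlgebra.ringHom_ext
  · intro p
    have h1 : psi Θ (AddMonoidAlgebra.single 0 p) =
        Polynomial.aeval (monT (k := k) (Θ (0, 1))) p := by
      rw [psi, ev_single]
      rw [ofAdd_zero, map_one, mul_one]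
      rfl
    rw [RingHom.comp_apply, h1, evP, ev_single, ofAdd_zero, map_one, mul_one]
    have h2 : ((ev (JumpPre_rho (k := k) τ) (JumpPre_U U u Θ)).comp
        ((Polynomial.aeval (monT (k := k) (Θ (0, 1))) : k[X] →ₐ[k] LA k[T;T⁻¹] r) :
          k[X] →+* LA k[T;T⁻¹] r)) =
        ((Polynomial.aeval (u : D) : k[X] →ₐ[k] D) : k[X] →+* D) := by
      apply Polynomial.ringHom_ext
      · intro a
        simp only [RingHom.comp_apply, RingHom.coe_coe, Polynomial.aeval_C]
        have h3 : algebraMap k (LA k[T;T⁻¹] r) a =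
            AddMonoidAlgebra.single 0 (LaurentPolynomial.C a) := rfl
        rw [h3, ev_single, ofAdd_zero, map_one, mul_one, JumpPre_rho, LaurentPolynomial.eval₂_C]
      · simp only [RingHom.comp_apply, RingHom.coe_coe, Polynomial.aeval_X]
        rw [JumpPre_ev_monT U u Θ τ hτ, AddEquiv.symm_apply_apply, JumpPre_E_apply]
        simp
    exact congrArg (fun h => h p) h2
  · intro a
    have h1 : psi Θ (AddMonoidAlgebra.single a (1 : k[X])) = monT (k := k) (Θ (a, 0)) := by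
      rw [psi, ev_single, map_one, one_mul]
      rfl
    rw [RingHom.comp_apply, h1, JumpPre_ev_monT U u Θ τ hτ, AddEquiv.symm_apply_apply,
      JumpPre_E_apply, evP, ev_single, map_one, one_mul]
    simp

lemma JumpPre_ev_iota {D : Type*} [CommRing D] [Algebra k D]
    (U' : Multiplicative (Fin r → ℤ) →* D) (τ : Dˣ) (c : k) :
    (ev (JumpPre_rho (k := k) τ) U').comp (iotaL c) = evP U' ((τ : D) - algebraMap k D c) := by
  apply AddMonoidAlgebra.ringHom_ext
  · intro p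
    have h1 : iotaL (r := r) c (AddMonoidAlgebra.single 0 p) = AddMonoidAlgebra.single 0 (iota c p) := by
      simp [iotaL]
    rw [RingHom.comp_apply, h1, evP, ev_single, ev_single, JumpPre_rho_iota]
    rfl
  · intro a
    have h1 : iotaL (r := r) c (AddMonoidAlgebra.single a 1) = AddMonoidAlgebra.single a 1 := by
      simp [iotaL]
    rw [RingHom.comp_apply, h1, evP, ev_single, ev_single, map_one, map_one]

lemma JumpPre_fst_zpow (u : (DualNumber K)ˣ) (b : ℤ) :
    ((u ^ b : (DualNumber K)ˣ) : DualNumber K).fst = (u : DualNumber K).fst ^ b := by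
  let f : DualNumber K →* K :=
    { toFun := TrivSqZeroExt.fst
      map_one' := rfl
      map_mul' := fun x y => TrivSqZeroExt.fst_mul x y }
  have h1 : ((Units.map f (u ^ b) : Kˣ) : K) = ((Units.map f u : Kˣ) : K) ^ b := by
    rw [map_zpow, Units.val_zpow_eq_zpow_val]
  exact h1

/-- The coordinate change of a jump on presentations. With `(a_w, b_w) = Θ.symm w`:
`U' A = U(a_(A,0)) x^(b_(A,0))` (units of the dual numbers), `τ = U(a_(0,1)) x^(b_(0,1))`; the value of
`fst τ` is `0`, `c ≠ 0` its residue, `x' = τ - c` (possibly with `fst x' = 0`).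
`exists_clear` gives `f'`. The evaluation `k[T,1/T][u^G] → K[ε]` at `(U', τ)` composed with `psi` is the
evaluation at `(U, x)`, composed with `iotaL c` it is the evaluation at `(U', x')`. -/
theorem pre_jump (S : Pre V r) (hx : S.x.fst ≠ 0) (J : JD S.φ (V.v S.x.fst)) :
    ∃ (S' : Pre V r) (c : k) (N : ℕ), c ≠ 0 ∧ S'.φ = J.φ' ∧ S'.y = S.y ∧
      S'.x.fst = (S.U (Multiplicative.ofAdd (J.Θ.symm (0, 1)).1)).fst * S.x.fst ^ J.d -
        algebraMap k K c ∧
      Polynomial.map (iotaL c) S'.f =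
        Polynomial.C (TN N) * Polynomial.map (psi J.Θ) S.f := by
  classical
  obtain ⟨u, hu⟩ : IsUnit S.x := TrivSqZeroExt.isUnit_iff_isUnit_fst.2 (isUnit_iff_ne_zero.2 hx)
  have hE1 : ∀ w : (Fin r → ℤ) × ℤ, (JumpPre_E S.U u (Multiplicative.ofAdd w)).fst =
      (S.U (Multiplicative.ofAdd w.1)).fst * S.x.fst ^ w.2 := by
    intro w
    rw [JumpPre_E_apply, TrivSqZeroExt.fst_mul, JumpPre_fst_zpow, hu]
  have hE0 : ∀ w : (Fin r → ℤ) × ℤ, (JumpPre_E S.U u (Multiplicative.ofAdd w)).fst ≠ 0 := by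
    intro w
    rw [hE1]
    exact mul_ne_zero (S.U_ne _) (zpow_ne_zero _ hx)
  have hEv : ∀ w : (Fin r → ℤ) × ℤ, V.v (JumpPre_E S.U u (Multiplicative.ofAdd (J.Θ.symm w))).fst =
      J.φ' w.1 := by
    intro w
    rw [hE1, V.map_mul _ _ (S.U_ne _) (zpow_ne_zero _ hx), S.U_val, v_zpow hx]
    have h1 := J.val (J.Θ.symm w).1 (J.Θ.symm w).2
    rw [Prod.mk.eta, AddEquiv.apply_symm_apply] at h1
    exact h1.symm
  obtain ⟨τ, hτ⟩ : IsUnit (JumpPre_E S.U u (Multiplicative.ofAdd (J.Θ.symm (0, 1)))) :=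
    TrivSqZeroExt.isUnit_iff_isUnit_fst.2 (isUnit_iff_ne_zero.2 (hE0 _))
  have hτ0 : (τ : DualNumber K).fst ≠ 0 := by
    rw [hτ]
    exact hE0 _
  have hτv : V.v (τ : DualNumber K).fst = 0 := by
    rw [hτ, hEv]
    exact map_zero J.φ'
  obtain ⟨c, hc⟩ := V.res _ hτ0 hτv
  have hcne : c ≠ 0 := by
    rintro rfl
    rw [map_zero, sub_zero] at hc
    rcases hc with h | h
    · exact hτ0 h
    · rw [hτv] at h
      exact lt_irrefl _ h
  obtain ⟨N, f', hf'⟩ := exists_clear c (Polynomial.map (psi J.Θ) S.f)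
  have hxf : ((τ : DualNumber K) - algebraMap k (DualNumber K) c).fst =
      (τ : DualNumber K).fst - algebraMap k K c := by
    rw [TrivSqZeroExt.fst_sub, TrivSqZeroExt.algebraMap_eq_inl', TrivSqZeroExt.fst_inl]
  have hroot : evPZ (JumpPre_U S.U u J.Θ) ((τ : DualNumber K) - algebraMap k (DualNumber K) c)
      S.y f' = ((τ ^ (N : ℤ) : (DualNumber K)ˣ) : DualNumber K) * evPZ S.U S.x S.y S.f := by
    rw [evPZ_eq_eval, ← JumpPre_ev_iota, ← Polynomial.map_map, hf', Polynomial.map_mul,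
      Polynomial.eval_mul, Polynomial.map_C, Polynomial.eval_C, Polynomial.map_map,
      JumpPre_ev_psi S.U u J.Θ τ hτ, hu, ← evPZ_eq_eval]
    congr 1
    rw [TN, ev_single, ofAdd_zero, map_one, mul_one, JumpPre_rho, LaurentPolynomial.eval₂_T]
  have hgenU : ∀ F : IntermediateField k K,
      (∀ A : Fin r → ℤ, (JumpPre_U S.U u J.Θ (Multiplicative.ofAdd A)).fst ∈ F) →
      (τ : DualNumber K).fst ∈ F →
      ∀ w : (Fin r → ℤ) × ℤ, (JumpPre_E S.U u (Multiplicative.ofAdd w)).fst ∈ F := by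
    intro F h1 h2 w
    have h3 := JumpPre_E_split S.U u J.Θ τ hτ (J.Θ w)
    rw [AddEquiv.symm_apply_apply] at h3
    rw [h3, TrivSqZeroExt.fst_mul, JumpPre_fst_zpow]
    exact mul_mem (h1 _) (zpow_mem h2 _)
  refine ⟨
    { φ := J.φ'
      U := JumpPre_U S.U u J.Θ
      x := (τ : DualNumber K) - algebraMap k (DualNumber K) c
      y := S.y
      f := f'
      inj := J.inj
      U_ne := fun a => hE0 _
      U_val := fun a => hEv _
      x_pos := by
        rw [hxf]
        exact hc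
      y_pos := S.y_pos
      gen := ?_
      root := ?_
      ns := ?_ }, c, N, hcne, rfl, rfl, ?_, hf'⟩
  · set F := IntermediateField.adjoin k
      (Set.range (fun a => (JumpPre_U S.U u J.Θ (Multiplicative.ofAdd a)).fst) ∪
        {((τ : DualNumber K) - algebraMap k (DualNumber K) c).fst, S.y.fst}) with hF
    have hsub := IntermediateField.subset_adjoin k
      (Set.range (fun a => (JumpPre_U S.U u J.Θ (Multiplicative.ofAdd a)).fst) ∪
        {((τ : DualNumber K) - algebraMap k (DualNumber K) c).fst, S.y.fst})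
    have h1 : ∀ A : Fin r → ℤ, (JumpPre_U S.U u J.Θ (Multiplicative.ofAdd A)).fst ∈ F :=
      fun A => hsub (Or.inl ⟨A, rfl⟩)
    have h2 : (τ : DualNumber K).fst ∈ F := by
      have h3 : ((τ : DualNumber K) - algebraMap k (DualNumber K) c).fst ∈ F :=
        hsub (Or.inr (Or.inl rfl))
      rw [hxf] at h3
      have h4 := add_mem h3 (F.algebraMap_mem c)
      rwa [sub_add_cancel] at h4
    have h3 := hgenU F h1 h2
    rw [eq_top_iff, ← S.gen, IntermediateField.adjoin_le_iff]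
    rintro z (⟨a, rfl⟩ | rfl | rfl)
    · have h4 := h3 (a, 0)
      rw [hE1] at h4
      simpa using h4
    · have h4 := h3 (0, 1)
      rw [hE1] at h4
      simpa using h4
    · exact hsub (Or.inr (Or.inr rfl))
  · rw [hroot, TrivSqZeroExt.fst_mul, S.root, mul_zero]
  · rw [hroot]
    intro h0
    apply S.ns
    exact (Units.mul_right_eq_zero _).1 h0
  · show ((τ : DualNumber K) - algebraMap k (DualNumber K) c).fst = _
    rw [hxf, hτ, hE1, J.hd, zpow_natCast]

end LX
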