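import Pool.Agent.helper90.LX.PresDefs
import Pool.Agent.helper90.LX.PreOps

namespace LX

open Polynomial

universe u

variable {k K : Type u} [Field k] [Field K] [Algebra k K]

/-- elements integral over a subring of the valuation ring have nonnegative value -/
theorem PresF_ge_of_integral (V : RV k K) (A : Subalgebra k K) (hA : ∀ a : A, V.Ge (a : K) 0)
    {z : K} (hz : IsIntegral A z) : V.Ge z 0 := by
  by_cases h0 : z = 0
  · exact Or.inl h0
  by_contra hcon
  have hneg : V.v z < 0 := by
    by_contra h
    exact hcon (Or.inr (not_lt.1 h))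
  obtain ⟨p, hp, hpz⟩ := hz
  have hn : p.natDegree ≠ 0 := by
    intro h
    have h1 : p = 1 := by
      rw [Polynomial.eq_one_of_monic_natDegree_zero hp h]
    rw [h1] at hpz
    simp at hpz
  obtain ⟨n, hn'⟩ := Nat.exists_eq_succ_of_ne_zero hn
  have h1 : z ^ p.natDegree = - ∑ i ∈ Finset.range p.natDegree, (p.coeff i : K) * z ^ i := by
    rw [Polynomial.eval₂_eq_sum_range, Finset.sum_range_succ] at hpz
    rw [hp.coeff_natDegree, map_one, one_mul] at hpz
    rw [eq_neg_iff_add_eq_zero, add_comm]
    exact hpz
  have h2 : V.Ge (∑ i ∈ Finset.range p.natDegree, (p.coeff i : K) * z ^ i) ((n : ℝ) * V.v z) := by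
    refine ge_sum _ _ fun i hi => ?_
    have hi' : i ≤ n := by
      have := Finset.mem_range.1 hi
      omega
    refine ge_mono (ge_mul (hA (p.coeff i)) (ge_self (z ^ i))) ?_
    rw [v_pow h0, zero_add]
    have : (i : ℝ) ≤ n := by exact_mod_cast hi'
    nlinarith
  have h3 : V.Ge (z ^ p.natDegree) ((n : ℝ) * V.v z) := by
    rw [h1]
    exact ge_neg h2
  have h4 := le_of_ge (pow_ne_zero _ h0) h3
  rw [v_pow h0, hn'] at h4
  push_cast at h4
  linarith

/-- the coordinate functionals -/
noncomputable def PresF_co (r : ℕ) (j : Fin r) : (Fin r → ℤ) →+ ℝ where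
  toFun a := (a j : ℝ)
  map_zero' := by simp
  map_add' a b := by simp

/-- the parametrised family -/
def PresF_fam {r : ℕ} (x : K) (u : Fin r → K) : Option (Fin r) → K := fun o => o.elim x u

omit [Field K] in
theorem PresF_range {r : ℕ} (x : K) (u : Fin r → K) :
    Set.range (PresF_fam x u) = insert x (Set.range u) := by
  ext y
  simp only [Set.mem_range, Set.mem_insert_iff, Option.exists, PresF_fam, Option.elim]
  constructor
  · rintro (h | h)
    · exact Or.inl h.symm
    · exact Or.inr h
  · rintro (h | h)
    · exact Or.inl h.symm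
    · exact Or.inr h

/-- from polynomials to Laurent polynomials -/
noncomputable def PresF_th (k : Type u) [Field k] (r : ℕ) :
    MvPolynomial (Option (Fin r)) k →+* LA k[X] r :=
  MvPolynomial.eval₂Hom
    ((AddMonoidAlgebra.singleZeroRingHom : k[X] →+* LA k[X] r).comp (Polynomial.C : k →+* k[X]))
    (fun o => o.elim (AddMonoidAlgebra.single 0 X)
      (fun i => AddMonoidAlgebra.single (Pi.single i 1) 1))

theorem PresF_th_ev {r : ℕ} (u : Fin r → K) (hu : ∀ i, u i ≠ 0) (x : K)
    (q : MvPolynomial (Option (Fin r)) k) :
    evP (monU u hu) x (PresF_th k r q) = MvPolynomial.aeval (PresF_fam x u) q := by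
  have : (evP (monU u hu) x).comp (PresF_th k r) =
      ((MvPolynomial.aeval (PresF_fam x u) : MvPolynomial (Option (Fin r)) k →ₐ[k] K) :
        MvPolynomial (Option (Fin r)) k →+* K) := by
    refine MvPolynomial.ringHom_ext (fun c => ?_) (fun o => ?_)
    · simp [PresF_th, evP, AddMonoidAlgebra.singleZeroRingHom]
    · cases o with
      | none => simp [PresF_th, evP, PresF_fam]
      | some i =>
        simp only [PresF_th, evP, PresF_fam, RingHom.coe_comp, Function.comp_apply,
          MvPolynomial.coe_eval₂Hom, MvPolynomial.eval₂_X, Option.elim, RingHom.coe_coe,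
          MvPolynomial.aeval_X, ev_single, map_one, one_mul, monU, MonoidHom.coe_mk, OneHom.coe_mk,
          toAdd_ofAdd]
        rw [Finset.prod_eq_single i]
        · simp
        · intro j _ hj
          rw [Pi.single_eq_of_ne hj]
          simp
        · intro h
          exact absurd (Finset.mem_univ i) h
  exact RingHom.congr_fun this q

theorem PresF_th_ge {r : ℕ} (q : MvPolynomial (Option (Fin r)) k) (j : Fin r) :
    GeL (PresF_co r j) (PresF_th k r q) 0 := by
  induction q using MvPolynomial.induction_on with
  | C c =>
    have : PresF_th k r (MvPolynomial.C c) = AddMonoidAlgebra.single 0 (C c) := by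
      simp [PresF_th, AddMonoidAlgebra.singleZeroRingHom]
    rw [this]
    exact geL_const _
  | add p q hp hq =>
    rw [map_add]
    exact geL_add hp hq
  | mul_X p o hp =>
    rw [map_mul]
    have h1 : GeL (PresF_co r j) (PresF_th k r (MvPolynomial.X o)) 0 := by
      cases o with
      | none =>
        have : PresF_th k r (MvPolynomial.X none) = AddMonoidAlgebra.single 0 X := by
          simp [PresF_th]
        rw [this]
        exact geL_const _
      | some i =>
        have : PresF_th k r (MvPolynomial.X (some i)) =
            AddMonoidAlgebra.single (Pi.single i 1) 1 := by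
          simp [PresF_th]
        rw [this]
        refine geL_mono (geL_single _ _) ?_
        change (0 : ℝ) ≤ ((Pi.single i (1 : ℤ) : Fin r → ℤ) j : ℝ)
        by_cases hij : j = i
        · subst hij; simp
        · rw [Pi.single_eq_of_ne hij]; simp
    have := geL_mul hp h1
    rwa [add_zero] at this

open scoped IntermediateField.algebraAdjoinAdjoin in
/-- A primitive element, integral over `k[u,x]`, shifted into the maximal ideal.
`E = k(u,x)`; `K/E` is finite separable; primitive element `z0`; a multiple `z = δ z0`, `0 ≠ δ ∈ k[u,x]`,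
is integral over `k[u,x]` (which is a polynomial ring, integrally closed in `E`: the minimal polynomial
of `z` over `E` has coefficients in it), hence `V(z) ≥ 0`; subtract the residue. `f` = minimal
polynomial, coefficients written as polynomials in `u, X`. -/
theorem exists_yf [Algebra.EssFiniteType k K] (V : RV k K) (r : ℕ)
    (hn : Algebra.trdeg k K = (r + 1 : ℕ)) (u : Fin r → K) (hu : ∀ i, u i ≠ 0)
    (hu' : ∀ i, 0 < V.v (u i)) (x : K) (hx : x ≠ 0) (hx' : 0 < V.v x)
    (hsep : Algebra.IsSeparable (IntermediateField.adjoin k (insert x (Set.range u))) K) :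
    ∃ (y : K) (f : (LA k[X] r)[X]), V.Gt y 0 ∧
      IntermediateField.adjoin k (Set.range u ∪ {x, y}) = ⊤ ∧ f.Monic ∧
      (∀ i a, (f.coeff i).coeff a ≠ 0 → ∀ j, 0 ≤ a j) ∧
      evPZ (monU u hu) x y f = 0 ∧ evPZ (monU u hu) x y (derivative f) ≠ 0 := by
  classical
  have hrange : Set.range (PresF_fam x u) = insert x (Set.range u) := PresF_range x u
  have : Algebra.IsSeparable (IntermediateField.adjoin k (insert x (Set.range u))) K := hsep
  have : Algebra.IsAlgebraic (IntermediateField.adjoin k (insert x (Set.range u))) K :=
    inferInstance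
  have halgA : Algebra.IsAlgebraic (Algebra.adjoin k (insert x (Set.range u))) K :=
    Algebra.IsAlgebraic.trans (Algebra.adjoin k (insert x (Set.range u)))
      (IntermediateField.adjoin k (insert x (Set.range u))) K
  have : Algebra.IsAlgebraic (Algebra.adjoin k (Set.range (PresF_fam x u))) K := by
    rw [hrange]; exact halgA
  have htb : IsTranscendenceBasis k (PresF_fam x u) :=
    Algebra.IsAlgebraic.isTranscendenceBasis_of_lift_le_trdeg_of_finite k (PresF_fam x u)
      (by rw [hn]; simp)
  have hai : AlgebraicIndependent k (PresF_fam x u) := htb.1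
  let eA : MvPolynomial (Option (Fin r)) k ≃ₐ[k] Algebra.adjoin k (insert x (Set.range u)) :=
    hai.aevalEquiv.trans (Subalgebra.equivOfEq _ _ (by rw [hrange]))
  have heA : ∀ q, ((eA q : Algebra.adjoin k (insert x (Set.range u))) : K) =
      MvPolynomial.aeval (PresF_fam x u) q := fun q => rfl
  have : IsIntegrallyClosed (Algebra.adjoin k (insert x (Set.range u))) :=
    IsIntegrallyClosed.of_equiv eA.toRingEquiv
  have : Algebra.EssFiniteType (IntermediateField.adjoin k (insert x (Set.range u))) K :=
    Algebra.EssFiniteType.of_comp k _ K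
  have : Module.Finite (IntermediateField.adjoin k (insert x (Set.range u))) K :=
    Algebra.finite_of_essFiniteType_of_isAlgebraic
  obtain ⟨z0, hz0⟩ :=
    Field.exists_primitive_element (IntermediateField.adjoin k (insert x (Set.range u))) K
  obtain ⟨δ, hδ, hint⟩ := (Algebra.IsAlgebraic.isAlgebraic
    (R := Algebra.adjoin k (insert x (Set.range u))) z0).exists_integral_multiple
  have hδ' : (δ : K) ≠ 0 := by
    intro h
    exact hδ (Subtype.ext h)
  have hge : ∀ a : Algebra.adjoin k (insert x (Set.range u)), V.Ge (a : K) 0 := by
    rintro ⟨a, ha⟩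
    induction ha using Algebra.adjoin_induction with
    | mem a ha =>
      rcases ha with rfl | ⟨i, rfl⟩
      · exact Or.inr hx'.le
      · exact Or.inr (hu' i).le
    | algebraMap c => exact ge_algebraMap c
    | add a b _ _ h1 h2 => exact ge_add h1 h2
    | mul a b _ _ h1 h2 => simpa using ge_mul h1 h2
  have hzge : V.Ge (δ • z0) 0 := PresF_ge_of_integral V _ hge hint
  obtain ⟨c, hc⟩ : ∃ c : k, V.Gt (δ • z0 - algebraMap k K c) 0 := by
    by_cases h0 : δ • z0 = 0
    · exact ⟨0, Or.inl (by rw [h0, map_zero, sub_zero])⟩
    · rcases hzge with h | h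
      · exact absurd h h0
      · rcases h.lt_or_eq with h1 | h1
        · exact ⟨0, Or.inr (by rw [map_zero, sub_zero]; exact h1)⟩
        · obtain ⟨c, hc⟩ := V.res _ h0 h1.symm
          exact ⟨c, hc⟩
  set y : K := δ • z0 - algebraMap k K c with hy
  have hyint : IsIntegral (Algebra.adjoin k (insert x (Set.range u))) y := by
    refine hint.sub ?_
    have : algebraMap k K c = algebraMap (Algebra.adjoin k (insert x (Set.range u))) K
      (algebraMap k _ c) := rfl
    rw [this]
    exact isIntegral_algebraMap
  -- the evaluation
  let ψ : Algebra.adjoin k (insert x (Set.range u)) →+* LA k[X] r :=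
    (PresF_th k r).comp (eA.symm.toRingEquiv.toRingHom)
  have hψ : (evP (monU u hu) x).comp ψ =
      algebraMap (Algebra.adjoin k (insert x (Set.range u))) K := by
    refine RingHom.ext fun a => ?_
    change evP (monU u hu) x (PresF_th k r (eA.symm a)) = (a : K)
    rw [PresF_th_ev, ← heA, AlgEquiv.apply_symm_apply]
  have hev : ∀ p : (Algebra.adjoin k (insert x (Set.range u)))[X],
      evPZ (monU u hu) x y (p.map ψ) = aeval y p := by
    intro p
    change Polynomial.eval₂ (evP (monU u hu) x) y (p.map ψ) = _
    rw [Polynomial.eval₂_map, hψ]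
    rfl
  refine ⟨y, (minpoly (Algebra.adjoin k (insert x (Set.range u))) y).map ψ, hc, ?_,
    (minpoly.monic hyint).map ψ, ?_, ?_, ?_⟩
  · -- generation
    have h1 : IntermediateField.adjoin (IntermediateField.adjoin k (insert x (Set.range u)))
        {y} = ⊤ := by
      rw [eq_top_iff, ← hz0, IntermediateField.adjoin_simple_le_iff]
      have hy1 : y ∈ IntermediateField.adjoin
          (IntermediateField.adjoin k (insert x (Set.range u))) {y} :=
        IntermediateField.mem_adjoin_simple_self _ _
      have hc1 : algebraMap k K c ∈ IntermediateField.adjoin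
          (IntermediateField.adjoin k (insert x (Set.range u))) {y} := by
        have : algebraMap k K c = algebraMap
          (IntermediateField.adjoin k (insert x (Set.range u))) K (algebraMap k _ c) := rfl
        rw [this]
        exact IntermediateField.algebraMap_mem _ _
      have hd1 : (δ : K) ∈ IntermediateField.adjoin
          (IntermediateField.adjoin k (insert x (Set.range u))) {y} := by
        have : (δ : K) = algebraMap
          (IntermediateField.adjoin k (insert x (Set.range u))) K
          (algebraMap (Algebra.adjoin k (insert x (Set.range u))) _ δ) := rfl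
        rw [this]
        exact IntermediateField.algebraMap_mem _ _
      have : z0 = (δ : K)⁻¹ * (y + algebraMap k K c) := by
        rw [hy, sub_add_cancel]
        change z0 = (δ : K)⁻¹ * ((δ : K) * z0)
        rw [inv_mul_cancel_left₀ hδ']
      rw [this]
      exact mul_mem (inv_mem hd1) (add_mem hy1 hc1)
    have h2 : (IntermediateField.adjoin (IntermediateField.adjoin k (insert x (Set.range u)))
        {y}).restrictScalars k = ⊤ := by
      rw [h1]; rfl
    rw [IntermediateField.adjoin_adjoin_left] at h2
    rw [← h2]
    congr 1
    ext a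
    simp only [Set.mem_union, Set.mem_insert_iff, Set.mem_singleton_iff]
    tauto
  · intro i a ha j
    rw [Polynomial.coeff_map] at ha
    have := PresF_th_ge (eA.symm ((minpoly (Algebra.adjoin k (insert x (Set.range u))) y).coeff i))
      j a ha
    have h2 : (0 : ℝ) ≤ (a j : ℝ) := this
    exact_mod_cast h2
  · rw [hev]
    exact minpoly.aeval _ _
  · rw [Polynomial.derivative_map, hev]
    have h1 : minpoly (IntermediateField.adjoin k (insert x (Set.range u))) y =
        (minpoly (Algebra.adjoin k (insert x (Set.range u))) y).map (algebraMap _ _) :=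
      minpoly.isIntegrallyClosed_eq_field_fractions' _ hyint
    have h2 := (Algebra.IsSeparable.isSeparable
      (IntermediateField.adjoin k (insert x (Set.range u))) y).aeval_derivative_ne_zero
      (minpoly.aeval _ y)
    rw [h1, Polynomial.derivative_map, Polynomial.aeval_map_algebraMap] at h2
    exact h2

end LX
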