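import Pool.Agent.helper90.LX.PresU
import Pool.Agent.helper90.LX.PresF

namespace LX

open Polynomial

universe u

variable {k K : Type u} [Field k] [Field K] [Algebra k K]

theorem Pres_evP_inl {r : ℕ} (u : Fin r → K) (hu : ∀ i, u i ≠ 0) (x : K) (g : LA k[X] r) :
    evP ((TrivSqZeroExt.inlHom K K : K →+* DualNumber K).toMonoidHom.comp (monU u hu))
      (TrivSqZeroExt.inl x) g = TrivSqZeroExt.inl (evP (monU u hu) x g) := by
  have h : (evP ((TrivSqZeroExt.inlHom K K : K →+* DualNumber K).toMonoidHom.comp (monU u hu))
      (TrivSqZeroExt.inl x) : LA k[X] r →+* DualNumber K) =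
      (TrivSqZeroExt.inlHom K K).comp (evP (monU u hu) x) := by
    apply AddMonoidAlgebra.ringHom_ext
    · intro c
      simp only [evP, ev_single, RingHom.comp_apply]
      rw [map_mul]
      congr 1
      change (Polynomial.aeval (TrivSqZeroExt.inl x : DualNumber K)) c =
        TrivSqZeroExt.inl ((Polynomial.aeval x) c)
      induction c using Polynomial.induction_on' with
      | add p q hp hq => rw [map_add, hp, hq, map_add, TrivSqZeroExt.inl_add]
      | monomial n a =>
        rw [Polynomial.aeval_monomial, Polynomial.aeval_monomial, TrivSqZeroExt.inl_mul,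
          TrivSqZeroExt.inl_pow]
        rfl
    · intro a
      simp only [evP, ev_single, RingHom.comp_apply]
      rw [map_mul]
      simp
  exact congrArg (fun q => q g) h

/-- evaluation at a dual number: first order expansion in `Z` -/
theorem evPZ_dual {r : ℕ} (u : Fin r → K) (hu : ∀ i, u i ≠ 0) (x y : K) (f : (LA k[X] r)[X]) :
    evPZ ((TrivSqZeroExt.inlHom K K : K →+* DualNumber K).toMonoidHom.comp (monU u hu))
      (TrivSqZeroExt.inl x) (TrivSqZeroExt.inl y + TrivSqZeroExt.inr 1) f =
      TrivSqZeroExt.inl (evPZ (monU u hu) x y f) +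
        TrivSqZeroExt.inr (evPZ (monU u hu) x y (derivative f)) := by
  set U' := (TrivSqZeroExt.inlHom K K : K →+* DualNumber K).toMonoidHom.comp (monU u hu) with hU'
  have h1 : ∀ (g : (LA k[X] r)[X]) (z : DualNumber K), evPZ U' (TrivSqZeroExt.inl x) z g =
      (g.map (evP U' (TrivSqZeroExt.inl x : DualNumber K) : LA k[X] r →+* DualNumber K)).eval z := by
    intro g z
    rw [Polynomial.eval_map]
    rfl
  have h2 : (evP U' (TrivSqZeroExt.inl x : DualNumber K) : LA k[X] r →+* DualNumber K) =
      (TrivSqZeroExt.inlHom K K).comp (evP (monU u hu) x) := by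
    refine RingHom.ext fun g => ?_
    exact Pres_evP_inl u hu x g
  have h3 : ∀ (g : (LA k[X] r)[X]), evPZ U' (TrivSqZeroExt.inl x) (TrivSqZeroExt.inl y) g =
      TrivSqZeroExt.inl (evPZ (monU u hu) x y g) := by
    intro g
    rw [h1, h2, ← Polynomial.map_map, Polynomial.eval_map,
      show (TrivSqZeroExt.inl y : DualNumber K) = TrivSqZeroExt.inlHom K K y from rfl,
      Polynomial.eval₂_hom, Polynomial.eval_map]
    rfl
  rw [h1, Polynomial.eval_add_of_sq_eq_zero _ _ _ (by
    rw [sq, TrivSqZeroExt.inr_mul_inr]), ← h1, h3, Polynomial.derivative_map, ← h1, h3]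
  congr 1
  rw [TrivSqZeroExt.inl_mul_inr]
  simp

/-- The initial state: `exists_ux`, `exists_yf`, `φ a = ∑ a_i v(u_i)`, `m` = least index with
`((f.coeff m).coeff 0).coeff 0 ≠ 0` (exists since `f` is monic). -/
theorem exists_state [Algebra.EssFiniteType k K] (p : ℕ) [Fact p.Prime]
    [CharP k p] (V : RV k K) (r : ℕ) (hn : Algebra.trdeg k K = (r + 1 : ℕ)) (y : Fin r → K)
    (hy : ∀ i, y i ≠ 0) (hind : ∀ a : Fin r → ℤ, ∑ i, (a i : ℝ) * V.v (y i) = 0 → a = 0) :
    ∃ m, Nonempty (State V r m) := by
  classical
  obtain ⟨u, x, hu, hui, hx, hx', hsep⟩ := exists_ux p V r hn y hy hind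
  obtain ⟨z, f, hz, hgen, hf, hpos, hroot, hns⟩ :=
    exists_yf V r hn u (fun i => (hu i).1) (fun i => (hu i).2) x hx hx' hsep
  have hex : ∃ m, ((f.coeff m).coeff 0).coeff 0 ≠ 0 := by
    refine ⟨f.natDegree, ?_⟩
    rw [Polynomial.coeff_natDegree, hf.leadingCoeff]
    simp
  have hval : ∀ (s : Finset (Fin r)) (a : Fin r → ℤ),
      V.v (∏ i ∈ s, u i ^ a i) = ∑ i ∈ s, (a i : ℝ) * V.v (u i) := by
    intro s a
    induction s using Finset.induction_on with
    | empty => simp [v_one]
    | insert i s hi ih =>
      rw [Finset.prod_insert hi, Finset.sum_insert hi,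
        V.map_mul _ _ (zpow_ne_zero _ (hu i).1)
          (Finset.prod_ne_zero_iff.2 fun j _ => zpow_ne_zero _ (hu j).1), ih, v_zpow (hu i).1]
  let φ : (Fin r → ℤ) →+ ℝ :=
    { toFun := fun a => ∑ i, (a i : ℝ) * V.v (u i)
      map_zero' := by simp
      map_add' := fun a b => by
        simp only [Pi.add_apply, Int.cast_add, add_mul, Finset.sum_add_distrib] }
  have hφ : ∀ a, φ a = ∑ i, (a i : ℝ) * V.v (u i) := fun a => rfl
  have hfst : evPZ ((TrivSqZeroExt.inlHom K K : K →+* DualNumber K).toMonoidHom.comp
      (monU u fun i => (hu i).1)) (TrivSqZeroExt.inl x)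
      (TrivSqZeroExt.inl z + TrivSqZeroExt.inr 1) f =
      TrivSqZeroExt.inr (evPZ (monU u fun i => (hu i).1) x z (derivative f)) := by
    rw [evPZ_dual, hroot]
    simp
  refine ⟨Nat.find hex, ⟨{ φ := φ
                           U := (TrivSqZeroExt.inlHom K K : K →+* DualNumber K).toMonoidHom.comp
                             (monU u fun i => (hu i).1)
                           x := TrivSqZeroExt.inl x
                           y := TrivSqZeroExt.inl z + TrivSqZeroExt.inr 1
                           f := f
                           inj := ?_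
                           U_ne := ?_
                           U_val := ?_
                           x_pos := ?_
                           y_pos := ?_
                           gen := ?_
                           root := ?_
                           ns := ?_
                           x_ne := ?_
                           pos := ?_
                           low := ?_
                           top := ?_ }⟩⟩
  · rw [injective_iff_map_eq_zero]
    intro a ha
    exact hui a ha
  · intro a
    change (∏ i, u i ^ a i) ≠ 0
    exact Finset.prod_ne_zero_iff.2 fun j _ => zpow_ne_zero _ (hu j).1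
  · intro a
    exact hval Finset.univ a
  · exact Or.inr hx'
  · simpa using hz
  · rw [eq_top_iff, ← hgen]
    apply IntermediateField.adjoin.mono
    rintro w (⟨i, rfl⟩ | hw)
    · left
      refine ⟨Pi.single i 1, ?_⟩
      change (∏ j, u j ^ (Pi.single i 1 : Fin r → ℤ) j) = u i
      rw [Finset.prod_eq_single i]
      · simp
      · intro j _ hj
        simp [hj]
      · intro h
        exact absurd (Finset.mem_univ i) h
    · right
      simpa using hw
  · rw [hfst]
    simp
  · rw [hfst]
    intro h
    apply hns
    have := congrArg TrivSqZeroExt.snd h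
    simpa using this
  · exact hx
  · intro i a ha
    rw [hφ]
    refine Finset.sum_nonneg fun j _ => mul_nonneg ?_ (hu j).2.le
    exact_mod_cast hpos i a ha j
  · intro i hi
    have := Nat.find_min hex hi
    push Not at this
    exact this
  · exact Nat.find_spec hex

end LX
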