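import Pool.Agent.helper90.LX.RVLem

namespace LX

universe u

variable {k K : Type u} [Field k] [Field K] [Algebra k K]

/-- the class of a nonzero element in the value group, written additively -/
noncomputable def RVOf_cls (W : ValuationSubring K) (x : K) (hx : x ≠ 0) :
    Additive (W.ValueGroup)ˣ :=
  Additive.ofMul (Units.mk0 (W.valuation x) ((Valuation.ne_zero_iff _).2 hx))

theorem RVOf_surj (W : ValuationSubring K) (g : Additive (W.ValueGroup)ˣ) :
    ∃ x : K, ∃ hx : x ≠ 0, RVOf_cls W x hx = g := by
  obtain ⟨x, hx⟩ := W.valuation_surjective (g.toMul : W.ValueGroup)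
  have h0 : x ≠ 0 := by
    rintro rfl
    rw [map_zero] at hx
    exact (g.toMul).ne_zero hx.symm
  refine ⟨x, h0, ?_⟩
  apply Additive.toMul.injective
  ext
  exact hx

/-- The real valuation of a rank one valuation ring with residue field `k`.
Hint: `Archimedean.exists_orderAddMonoidHom_real_injective` for
`Additive (W.ValueGroup)ˣ` (Archimedean because `W.ValueGroup` is `MulArchimedean`), with a sign. -/
theorem exists_rv (W : ValuationSubring K) (hW : ∀ c : k, algebraMap k K c ∈ W)
    (harch : MulArchimedean W.ValueGroup)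
    (hres : ∀ x ∈ W, ∃ c : k, W.valuation (x - algebraMap k K c) < 1) :
    ∃ V : RV k K, (∀ x : K, x ≠ 0 → (x ∈ W ↔ 0 ≤ V.v x)) ∧
      (V.grp.FG → Group.FG (W.ValueGroup)ˣ) ∧
      ∀ r : ℕ, 0 < r → Module.finrank ℤ (Additive (W.ValueGroup)ˣ) = r →
        ∃ y : Fin r → K, (∀ i, y i ≠ 0) ∧
          ∀ a : Fin r → ℤ, ∑ i, (a i : ℝ) * V.v (y i) = 0 → a = 0 := by
  classical
  obtain ⟨f, hf⟩ := Archimedean.exists_orderAddMonoidHom_real_injective
    (Additive (W.ValueGroup)ˣ)
  have hmono : StrictMono f := f.monotone'.strictMono_of_injective hf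
  set v : K → ℝ := fun x => if hx : x = 0 then 0 else - f (RVOf_cls W x hx) with hv
  have hvx : ∀ (x : K) (hx : x ≠ 0), v x = - f (RVOf_cls W x hx) := fun x hx => by
    simp only [hv, dif_neg hx]
  have hle : ∀ (x y : K) (hx : x ≠ 0) (hy : y ≠ 0),
      v x ≤ v y ↔ W.valuation y ≤ W.valuation x := by
    intro x y hx hy
    rw [hvx x hx, hvx y hy, neg_le_neg_iff, hmono.le_iff_le]
    rfl
  have hone : v 1 = 0 := by
    rw [hvx 1 one_ne_zero]
    have : RVOf_cls W (1 : K) one_ne_zero = 0 := by
      apply Additive.toMul.injective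
      ext
      exact map_one _
    rw [this, map_zero, neg_zero]
  have hmem : ∀ x : K, x ≠ 0 → (x ∈ W ↔ 0 ≤ v x) := by
    intro x hx
    rw [← hone, hle 1 x one_ne_zero hx, map_one, W.valuation_le_one_iff]
  have hlt : ∀ x : K, x ≠ 0 → (0 < v x ↔ W.valuation x < 1) := by
    intro x hx
    rw [← hone, ← not_le, hle x 1 hx one_ne_zero, map_one, not_le]
  have hc : ∀ c : k, c ≠ 0 → v (algebraMap k K c) = 0 := by
    intro c hc
    have h0 : algebraMap k K c ≠ 0 := by simpa using hc
    have h0' : algebraMap k K c⁻¹ ≠ 0 := by simpa using hc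
    have h1 : 0 ≤ v (algebraMap k K c) := (hmem _ h0).1 (hW c)
    have h2 : W.valuation (algebraMap k K c⁻¹) ≤ 1 := (W.valuation_le_one_iff _).2 (hW _)
    refine le_antisymm ?_ h1
    rw [← hone, hle _ _ h0 one_ne_zero, map_one]
    rw [map_inv₀, map_inv₀] at h2
    exact (inv_le_one₀ ((Valuation.pos_iff _).2 h0)).1 h2
  let V : RV k K :=
    { v := v
      map_mul := by
        intro x y hx hy
        rw [hvx x hx, hvx y hy, hvx (x * y) (mul_ne_zero hx hy)]
        have : RVOf_cls W (x * y) (mul_ne_zero hx hy) = RVOf_cls W x hx + RVOf_cls W y hy := by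
          apply Additive.toMul.injective
          ext
          exact map_mul _ _ _
        rw [this, map_add]
        ring
      map_add := by
        intro x y hx hy hxy
        rcases le_total (W.valuation x) (W.valuation y) with h | h
        · refine le_trans (min_le_right _ _) ((hle y (x + y) hy hxy).2 ?_)
          exact le_trans (W.valuation.map_add x y) (by rw [max_eq_right h])
        · refine le_trans (min_le_left _ _) ((hle x (x + y) hx hxy).2 ?_)
          exact le_trans (W.valuation.map_add x y) (by rw [max_eq_left h])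
      map_const := hc
      res := by
        intro x hx h0
        obtain ⟨c, hc⟩ := hres x ((hmem x hx).2 h0.ge)
        refine ⟨c, ?_⟩
        by_cases h : x - algebraMap k K c = 0
        · exact Or.inl h
        · exact Or.inr ((hlt _ h).2 hc) }
  have hVv : V.v = v := rfl
  refine ⟨V, hmem, ?_, ?_⟩
  · intro hfg
    have hgrp : V.grp = (f : Additive (W.ValueGroup)ˣ →+ ℝ).range := by
      apply le_antisymm
      · unfold RV.grp
        rw [AddSubgroup.closure_le]
        rintro s ⟨x, hx, rfl⟩
        rw [hVv, hvx x hx]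
        exact ⟨- RVOf_cls W x hx, by simp⟩
      · rintro _ ⟨g, rfl⟩
        obtain ⟨x, hx, hxg⟩ := RVOf_surj W (-g)
        have : V.v x = (f : Additive (W.ValueGroup)ˣ →+ ℝ) g := by
          rw [hVv, hvx x hx, hxg]
          simp
        rw [← this]
        exact mem_grp hx
    have h1 : AddGroup.FG (f : Additive (W.ValueGroup)ˣ →+ ℝ).range := by
      rw [← hgrp]
      exact (AddGroup.fg_iff_addSubgroup_fg _).2 hfg
    have e : Additive (W.ValueGroup)ˣ ≃+ (f : Additive (W.ValueGroup)ˣ →+ ℝ).range :=
      AddMonoidHom.ofInjective hf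
    have h2 : AddGroup.FG (Additive (W.ValueGroup)ˣ) :=
      AddGroup.fg_of_surjective (f := e.symm.toAddMonoidHom) e.symm.surjective
    exact GroupFG.iff_add_fg.2 h2
  · intro r hr hrank
    obtain ⟨g, hg⟩ := exists_linearIndependent_of_le_finrank (R := ℤ)
      (M := Additive (W.ValueGroup)ˣ) (n := r) hrank.ge
    choose y hy hyg using fun i => RVOf_surj W (g i)
    refine ⟨y, hy, ?_⟩
    intro a ha
    have h1 : ∑ i, a i • g i = 0 := by
      apply hf
      rw [map_zero, map_sum]
      have h2 : ∑ i, (a i : ℝ) * V.v (y i) = - ∑ i, f (a i • g i) := by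
        rw [← Finset.sum_neg_distrib]
        refine Finset.sum_congr rfl fun i _ => ?_
        rw [hVv, hvx (y i) (hy i), hyg i, map_zsmul, zsmul_eq_mul]
        ring
      rw [h2] at ha
      linarith
    ext i
    exact Fintype.linearIndependent_iff.1 hg a h1 i

end LX
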