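import Pool.Agent.helper90.LX.SwapOrd
import Pool.Agent.helper90.LX.DLe
import Pool.Agent.helper90.LX.RootVal
import Pool.Agent.helper90.LX.PreOps

namespace LX

open Polynomial LaurentPolynomial

variable {k K : Type*} [Field k] [Field K] [Algebra k K] {V : RV k K} {r m : ℕ}

/-- The root lies above the polygon: `V(z) ≥ α`. (`root_val` for `map (evP ..) f`, `ge_evP`,
`val_evP`.) -/
theorem ge_of_c1 (S : State V r m) (α : ℝ) (h1 : C1 S.φ S.f m α) : V.Ge S.y.fst α := by
  have hmon := S.toPre.mon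
  have hx0 : V.Ge S.x.fst 0 := ge_of_gt S.x_pos
  have hval := val_evP S.inj hmon S.x_pos (S.pos m) S.top
  refine root_val V (Polynomial.map (evP (fstU S.U) S.x.fst) S.f) m α S.y.fst ?_ ?_ ?_ ?_ ?_
    S.y_pos h1.1
  · rw [← evPZ_eq_eval, ← fst_evPZ]
    exact S.root
  · intro i hi
    rw [Polynomial.coeff_map]
    exact ge_evP hmon hx0 (h1.2 i hi)
  · intro i
    rw [Polynomial.coeff_map]
    exact ge_evP hmon hx0 (S.pos i)
  · rw [Polynomial.coeff_map]
    exact hval.1
  · rw [Polynomial.coeff_map]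
    exact hval.2

theorem SwapD_evP_single {S : Type*} [CommRing S] [Algebra k S]
    (U : Multiplicative (Fin r → ℤ) →* S) (x : S) (a : Fin r → ℤ) (c : k[X]) :
    evP U x (AddMonoidAlgebra.single a c) = aeval x c * U (Multiplicative.ofAdd a) := by
  rw [evP, ev_single]
  rfl

/-- the constant of the translation -/
theorem SwapD_const (S : State V r m) (α : ℝ) (h1 : C1 S.φ S.f m α) (A : Fin r → ℤ)
    (hA : S.φ A = α) : ∃ c0 : k,
      V.Gt (S.y.fst - algebraMap k K c0 * (S.U (Multiplicative.ofAdd A)).fst) α ∧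
      V.Gt (algebraMap k K c0 * (S.U (Multiplicative.ofAdd A)).fst) 0 := by
  have hu := S.U_ne A
  have huv := S.U_val A
  rcases h1.1.eq_or_lt with h0 | h0
  · refine ⟨0, ?_, ?_⟩
    · rw [map_zero, zero_mul, sub_zero, ← h0]
      exact S.y_pos
    · rw [map_zero, zero_mul]
      exact gt_zero 0
  · have hge := ge_of_c1 S α h1
    have hw : V.Ge (S.y.fst / (S.U (Multiplicative.ofAdd A)).fst) 0 := by
      have := ge_div hge hu
      rw [huv, hA, sub_self] at this
      exact this
    obtain ⟨c, hc⟩ := exists_res hw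
    have e1 : (S.y.fst / (S.U (Multiplicative.ofAdd A)).fst - algebraMap k K c) *
        (S.U (Multiplicative.ofAdd A)).fst =
        S.y.fst - algebraMap k K c * (S.U (Multiplicative.ofAdd A)).fst := by
      rw [sub_mul, div_mul_cancel₀ _ hu]
    have hue : V.Ge (S.U (Multiplicative.ofAdd A)).fst α := by
      have := ge_self (V := V) (S.U (Multiplicative.ofAdd A)).fst
      rw [huv, hA] at this
      exact this
    refine ⟨c, ?_, ?_⟩
    · have := gt_mul hc hue
      rw [e1, zero_add] at this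
      exact this
    · have := ge_mul (ge_algebraMap (V := V) c) hue
      rw [zero_add] at this
      exact gt_of_ge this h0

/-- SWAP: `α` is a value and `B < 1`: the multiplicity drops.
`z = u^A z°`, `c0` the residue of `z°` (`exists_res`; if `α = 0` take `c0 = 0`: `y_pos`), `t = c0 u^A`;
`Pre.tr` by `t`, `Pre.scale` with `A`, `C = m • A`; `C2` for `t` gives a monomial `X^b Z^i` with
`b + i < m` at exponent `0` (`scl_coeff`); `swap_order`; choose `τ` outside the finite set with
`z1 - τ v ≠ 0` (`k` infinite); `Pre.tr` by `τ X`, `Pre.swp`. -/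
theorem step_d [Infinite k] (S : State V r m) (α B : ℝ) (h1 : C1 S.φ S.f m α)
    (h2 : C2 S.φ S.f m α B) (A : Fin r → ℤ) (hA : S.φ A = α) (hB : B < 1) :
    ∃ m', m' < m ∧ Nonempty (State V r m') := by
  obtain ⟨c0, hc1, hc2⟩ := SwapD_const S α h1 A hA
  have efst : ∀ (a : Fin r → ℤ) (c : k[X]),
      (evP S.U S.x (AddMonoidAlgebra.single a c)).fst =
        aeval S.x.fst c * (S.U (Multiplicative.ofAdd a)).fst := by
    intro a c
    rw [fst_evP, SwapD_evP_single]
    rfl
  -- the translation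
  have ht1 : V.Gt (evP S.U S.x (AddMonoidAlgebra.single A (Polynomial.C c0))).fst 0 := by
    rw [efst, aeval_C]
    exact hc2
  let S1 : Pre V r := S.toPre.tr (AddMonoidAlgebra.single A (Polynomial.C c0)) ht1
  have hS1f : S1.f = taylor (AddMonoidAlgebra.single A (Polynomial.C c0)) S.f := rfl
  have hS1y : V.Gt S1.y.fst (S1.φ A) := by
    have e : S1.y.fst = S.y.fst -
        (evP S.U S.x (AddMonoidAlgebra.single A (Polynomial.C c0))).fst := rfl
    rw [e, efst, aeval_C]
    have e' : S1.φ A = α := hA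
    rw [e']
    exact hc1
  let S2 : Pre V r := S1.scale A (m • A) hS1y
  have hS2f : S2.f = scl A (m • A) S1.f := rfl
  have htge : GeL S.φ (AddMonoidAlgebra.single A (Polynomial.C c0) : LA k[X] r) α := by
    have := geL_single (φ := S.φ) A (Polynomial.C c0)
    rw [hA] at this
    exact this
  obtain ⟨hc1', hpos1⟩ := c1_taylor S.pos h1 htge
  have hφe : ∀ (a : Fin r → ℤ) (i : ℕ), S.φ (a + m • A - i • A) = S.φ a + ((m : ℝ) - i) * α := by
    intro a i
    rw [map_sub, map_add, map_nsmul, map_nsmul, hA, nsmul_eq_mul, nsmul_eq_mul]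
    ring
  have hpos2 : ∀ i, GeL S.φ (S2.f.coeff i) 0 := by
    intro i a ha
    rw [hS2f, scl_coeff] at ha
    have e := hφe a i
    by_cases hi : i < m
    · have h3 := hc1'.2 i hi _ ha
      rw [e] at h3
      linarith
    · have h3 := hpos1 i _ ha
      rw [e] at h3
      have h4 : (m : ℝ) ≤ i := by exact_mod_cast not_lt.1 hi
      have h5 : ((m : ℝ) - i) * α ≤ 0 := mul_nonpos_of_nonpos_of_nonneg (by linarith) h1.1
      linarith
  obtain ⟨i, hi, a, ha, b, hb, hne⟩ := h2 _ htge
  have hae : a = 0 + m • A - i • A := by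
    apply S.inj
    rw [hφe, ha, map_zero, zero_add]
  have hne2 : ((S2.f.coeff i).coeff 0).coeff b ≠ 0 := by
    rw [hS2f, scl_coeff, ← hae]
    exact hne
  obtain ⟨m', hm', Z, hZ⟩ := swap_order S.inj S2.f hpos2 i b hne2
  have hbi : b + i < m := by
    have h3 : (i : ℝ) < m := by exact_mod_cast hi
    have h4 : ((m : ℝ) - i) * B < (m : ℝ) - i := by nlinarith
    have h5 : ((b + i : ℕ) : ℝ) < m := by push_cast; linarith
    exact_mod_cast h5
  -- generic tau
  have hτ : ∃ τ : k, τ ∉ Z ∧ S2.y.fst - algebraMap k K τ * S2.x.fst ≠ 0 := by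
    classical
    by_cases hex : ∃ τ0 : k, S2.y.fst - algebraMap k K τ0 * S2.x.fst = 0
    · obtain ⟨τ0, hτ0⟩ := hex
      obtain ⟨τ, hτ⟩ := Infinite.exists_notMem_finset (insert τ0 Z)
      rw [Finset.mem_insert, not_or] at hτ
      refine ⟨τ, hτ.2, fun h => hτ.1 ?_⟩
      have e : algebraMap k K τ * S2.x.fst = algebraMap k K τ0 * S2.x.fst := by
        rw [sub_eq_zero] at h hτ0
        rw [← h, ← hτ0]
      exact (algebraMap k K).injective (mul_right_cancel₀ S.x_ne e)
    · obtain ⟨τ, hτ⟩ := Infinite.exists_notMem_finset Z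
      exact ⟨τ, hτ, fun h => hex ⟨τ, h⟩⟩
  obtain ⟨τ, hτZ, hτne⟩ := hτ
  obtain ⟨hlow, htop, hpos3⟩ := hZ τ hτZ
  have efst2 : (evP S2.U S2.x (AddMonoidAlgebra.single 0 (Polynomial.C τ * Polynomial.X))).fst =
      algebraMap k K τ * S2.x.fst := by
    have := efst 0 (Polynomial.C τ * Polynomial.X)
    have e2 : (S.U (Multiplicative.ofAdd 0)).fst = 1 := by
      rw [ofAdd_zero, map_one]
      rfl
    rw [e2, mul_one, map_mul, aeval_C, aeval_X] at this
    exact this
  have ht3 : V.Gt (evP S2.U S2.x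
      (AddMonoidAlgebra.single 0 (Polynomial.C τ * Polynomial.X))).fst 0 := by
    rw [efst2]
    have h3 : V.Gt S.x.fst 0 := S.x_pos
    have := gt_mul h3 (ge_algebraMap (V := V) τ)
    rw [mul_comm, add_zero] at this
    exact this
  let S3 : Pre V r := S2.tr (AddMonoidAlgebra.single 0 (Polynomial.C τ * Polynomial.X)) ht3
  refine ⟨m', lt_of_le_of_lt hm' hbi, ⟨⟨S3.swp, ?_, ?_, ?_, ?_⟩⟩⟩
  · have e : S3.swp.x.fst = S2.y.fst -
        (evP S2.U S2.x (AddMonoidAlgebra.single 0 (Polynomial.C τ * Polynomial.X))).fst := rfl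
    rw [e, efst2]
    exact hτne
  · exact hpos3
  · exact hlow
  · exact htop

end LX
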