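import Pool.Agent.helper90.LX.JumpC
import Pool.Agent.helper90.LX.StateVt
import Pool.Agent.helper90.LX.NJ
import Pool.Agent.helper90.LX.Lat
import Pool.Agent.helper90.LX.SwapD
import Pool.Agent.helper90.LX.E1
import Pool.Agent.helper90.LX.E2One
import Pool.Agent.helper90.LX.Fin1
import Pool.Agent.helper90.LX.RVOf
import Pool.Agent.helper90.LX.Pres

namespace LX

open Polynomial

universe u

variable {k K : Type u} [Field k] [Field K] [Algebra k K] {V : RV k K} {r m : ℕ}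

/-- jump data for an element whose value is not a value of the monomials -/
theorem exists_jd_of [Algebra.EssFiniteType k K] (hstd : Std V r) (S : Pre V r) (z : K)
    (hz : z ≠ 0) (hne : ∀ A, S.φ A ≠ V.v z) : Nonempty (JD S.φ (V.v z)) := by
  obtain ⟨n, a, hn, ha⟩ := torsion hstd S.φ S.inj (fstU S.U) S.mon z hz
  exact exists_jd S.φ S.inj (V.v z) hne n hn a ha

/-- VTRANS up to a jump -/
theorem exists_vt (p : ℕ) [Fact p.Prime] [CharP k p] [Algebra.EssFiniteType k K]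
    (hstd : Std V r) (S : State V r m) :
    ∃ S1 : State V r m, S1.φ = S.φ ∧ S1.y = S.y ∧ Nonempty (JD S1.φ (V.v S1.x.fst)) ∧
      (∀ α, C1 S.φ S.f m α → C1 S1.φ S1.f m α) ∧
      ∀ α B, C1 S.φ S.f m α → C2 S.φ S.f m α B → C2 S1.φ S1.f m α B := by
  obtain ⟨s, hs, -, hsv⟩ := exists_nj p hstd S
  obtain ⟨S1, hφ, -, hy, hx, hf⟩ := state_vt hstd S s hs
  refine ⟨S1, hφ, hy, ?_, ?_, ?_⟩
  · refine exists_jd_of hstd S1.toPre S1.x.fst S1.x_ne fun A => ?_
    rw [hx, hφ]
    exact (hsv A).symm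
  · intro α h1
    rw [hφ, hf]
    exact c1_vt s hs h1
  · intro α B h1 h2
    rw [hφ, hf]
    exact c2_vt s hs S.pos h1 h2

/-- one polygon step -/
theorem poly_step (p : ℕ) [Fact p.Prime] [CharP k p] [Algebra.EssFiniteType k K]
    (hstd : Std V r) (S : State V r m) (hm : 2 ≤ m) (α : ℝ) (h1 : C1 S.φ S.f m α) :
    ∃ (S' : State V r m) (L D : ℝ), 0 ≤ D ∧ C1 S'.φ S'.f m L ∧
      (∀ B, C2 S.φ S.f m α B → D ≤ B) ∧
      (((∃ A, S'.φ A = L) ∧ (D ≤ 1 → ∃ B' : ℝ, B' < 1 ∧ C2 S'.φ S'.f m L B') ∧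
          (1 ≤ D → C2 S'.φ S'.f m L (1 + (D - 1) / 2))) ∨
        ((∀ A, S'.φ A ≠ L) ∧ C2 S'.φ S'.f m L (D / 2))) := by
  obtain ⟨S1, -, -, ⟨J⟩, hc1, hc2⟩ := exists_vt p hstd S
  obtain ⟨S', L, D, h0, hL, hD, h⟩ := jump_c p hstd S1 hm J α (hc1 α h1)
  exact ⟨S', L, D, h0, hL, fun B hB => hD B (hc2 α B h1 hB), h⟩

/-- `α` not a value and `m B < 1` -/
theorem drop_out (p : ℕ) [Fact p.Prime] [CharP k p] [Algebra.EssFiniteType k K] (hr : 0 < r)
    (hstd : Std V r) (S : State V r m) (hm : 2 ≤ m) (α B : ℝ) (h1 : C1 S.φ S.f m α)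
    (h2 : C2 S.φ S.f m α B) (hα : ∀ A, S.φ A ≠ α) (hB : m * B < 1) :
    ∃ m', m' < m ∧ Nonempty (State V r m') := by
  rcases gt_or_eq _ (ge_of_c1 S α h1) with hy | ⟨hy, hv⟩
  · obtain ⟨S1, hφ, hy1, ⟨J⟩, hc1, hc2⟩ := exists_vt p hstd S
    exact step_e2' p hr hstd S1 J α B (hc1 α h1) (hc2 α B h1 h2) hB (by rw [hy1]; exact hy)
  · obtain ⟨J⟩ := exists_jd_of hstd S.toPre S.y.fst hy (by rw [hv]; exact hα)
    exact step_e1 S (by omega) α h1 hα hy hv J

/-- `B ≤ 1` -/
theorem drop_one (p : ℕ) [Fact p.Prime] [CharP k p] [Algebra.EssFiniteType k K] [Infinite k]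
    (hr : 0 < r) (hstd : Std V r) (hm : 2 ≤ m) (n : ℕ) :
    ∀ (S : State V r m) (α B : ℝ), C1 S.φ S.f m α → C2 S.φ S.f m α B → B ≤ 1 →
      m * B < 2 ^ n → ∃ m', m' < m ∧ Nonempty (State V r m') := by
  have hm' : (2 : ℝ) ≤ m := by exact_mod_cast hm
  induction n with
  | zero =>
    intro S α B h1 h2 _ hB
    rw [pow_zero] at hB
    by_cases hα : ∃ A, S.φ A = α
    · obtain ⟨A, hA⟩ := hα
      refine step_d S α B h1 h2 A hA ?_
      by_contra hcon
      push Not at hcon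
      nlinarith
    · push Not at hα
      exact drop_out p hr hstd S hm α B h1 h2 hα hB
  | succ n ih =>
    intro S α B h1 h2 hB1 hB
    obtain ⟨S', L, D, h0, hL, hD, h⟩ := poly_step p hstd S hm α h1
    have hDB := hD B h2
    rcases h with ⟨⟨A, hA⟩, h3, -⟩ | ⟨-, h3⟩
    · obtain ⟨B', hB', h4⟩ := h3 (hDB.trans hB1)
      exact step_d S' L B' hL h4 A hA hB'
    · refine ih S' L (D / 2) hL h3 (by linarith) ?_
      rw [pow_succ] at hB
      have : (m : ℝ) * D ≤ m * B := mul_le_mul_of_nonneg_left hDB (by linarith)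
      linarith

/-- any `B` -/
theorem drop_B (p : ℕ) [Fact p.Prime] [CharP k p] [Algebra.EssFiniteType k K] [Infinite k]
    (hr : 0 < r) (hstd : Std V r) (hm : 2 ≤ m) (n : ℕ) :
    ∀ (S : State V r m) (α B : ℝ), C1 S.φ S.f m α → C2 S.φ S.f m α B →
      m * (B - 1) < 2 ^ n → ∃ m', m' < m ∧ Nonempty (State V r m') := by
  have hm' : (2 : ℝ) ≤ m := by exact_mod_cast hm
  induction n with
  | zero =>
    intro S α B h1 h2 hB
    rw [pow_zero] at hB
    have h3 : B < 1 + 1 / m := by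
      have : B - 1 < 1 / m := by
        rw [lt_div_iff₀ (by linarith)]
        linarith
      linarith
    obtain ⟨n, hn⟩ := pow_unbounded_of_one_lt (m : ℝ) (one_lt_two)
    exact drop_one p hr hstd hm n S α 1 h1 (c2_round (by omega) h2 h3) le_rfl (by linarith)
  | succ n ih =>
    intro S α B h1 h2 hB
    obtain ⟨S', L, D, h0, hL, hD, h⟩ := poly_step p hstd S hm α h1
    have hDB := hD B h2
    rw [pow_succ] at hB
    have h5 : (m : ℝ) * D ≤ m * B := mul_le_mul_of_nonneg_left hDB (by linarith)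
    rcases h with ⟨⟨A, hA⟩, h3, h4⟩ | ⟨-, h3⟩
    · rcases le_total D 1 with h6 | h6
      · obtain ⟨B', hB', h7⟩ := h3 h6
        exact step_d S' L B' hL h7 A hA hB'
      · refine ih S' L _ hL (h4 h6) ?_
        nlinarith
    · refine ih S' L _ hL h3 ?_
      nlinarith

/-- the multiplicity drops -/
theorem drop (p : ℕ) [Fact p.Prime] [CharP k p] [Algebra.EssFiniteType k K] [Infinite k]
    (hr : 0 < r) (hstd : Std V r) (hm : 2 ≤ m) (S : State V r m) :
    ∃ m', m' < m ∧ Nonempty (State V r m') := by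
  have h1 : C1 S.φ S.f m 0 := ⟨le_rfl, fun i _ => by rw [mul_zero]; exact S.pos i⟩
  obtain ⟨S', L, D, h0, hL, hD, h⟩ := poly_step p hstd S hm 0 h1
  have key : ∀ B, C2 S'.φ S'.f m L B → ∃ m', m' < m ∧ Nonempty (State V r m') := by
    intro B hB
    obtain ⟨n, hn⟩ := pow_unbounded_of_one_lt ((m : ℝ) * (B - 1)) (one_lt_two)
    exact drop_B p hr hstd hm n S' L B hL hB hn
  rcases h with ⟨-, h3, h4⟩ | ⟨-, h3⟩
  · rcases le_total D 1 with h6 | h6
    · obtain ⟨B', -, h7⟩ := h3 h6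
      exact key B' h7
    · exact key _ (h4 h6)
  · exact key _ h3

/-- all states lead to a state of multiplicity one -/
theorem exists_state_one (p : ℕ) [Fact p.Prime] [CharP k p] [Algebra.EssFiniteType k K]
    [Infinite k] (hr : 0 < r) (hstd : Std V r) (m : ℕ) :
    Nonempty (State V r m) → Nonempty (State V r 1) := by
  induction m using Nat.strong_induction_on with
  | _ m ih =>
    rintro ⟨S⟩
    rcases Nat.lt_or_ge m 2 with hm | hm
    · interval_cases m
      · exact (state_zero S).elim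
      · exact ⟨S⟩
    · obtain ⟨m', hm', h⟩ := drop p hr hstd hm S
      exact ih m' hm' h

/-- Local uniformization: rank one, value group of rational rank `n - 1`, not finitely
generated. -/
theorem lux_main [Infinite k] [Algebra.EssFiniteType k K] (p : ℕ) [Fact p.Prime] [CharP k p]
    (W : ValuationSubring K) (hW : ∀ c : k, algebraMap k K c ∈ W)
    (harch : MulArchimedean W.ValueGroup)
    (hres : ∀ x ∈ W, ∃ c : k, W.valuation (x - algebraMap k K c) < 1)
    (hnfg : ¬ Group.FG (W.ValueGroup)ˣ)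
    (hr : Algebra.trdeg k K = (Module.finrank ℤ (Additive (W.ValueGroup)ˣ) + 1 : ℕ))
    (hr0 : 0 < Module.finrank ℤ (Additive (W.ValueGroup)ˣ)) :
    LU.Uniformizable k W := by
  obtain ⟨V, hVW, hfg, hrk⟩ := exists_rv W hW harch hres
  obtain ⟨y, hy, hind⟩ := hrk _ (by omega) rfl
  have hstd : Std V (Module.finrank ℤ (Additive (W.ValueGroup)ˣ)) :=
    ⟨by rw [hr]; push_cast; rfl, fun h => hnfg (hfg h)⟩
  obtain ⟨m, hS⟩ := exists_state p V _ hr y hy hind
  obtain ⟨S⟩ := exists_state_one p hr0 hstd m hS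
  exact fin_one W hW hVW (by rw [hstd.tr]; push_cast; rfl) S

end LX
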