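import Pool.Agent.helper90.LX.RVLem
import Pool.Agent.helper90.LX.GeLem

namespace LX

open Polynomial LaurentPolynomial

section maps

variable {k : Type*} [Field k] {r : ℕ}

/-- exchanging `X` and `Z` -/
noncomputable def sw : (LA k[X] r)[X] →+* (LA k[X] r)[X] :=
  ev2 ((Polynomial.aeval (Polynomial.X : (LA k[X] r)[X]) : k[X] →ₐ[k] (LA k[X] r)[X]) :
      k[X] →+* (LA k[X] r)[X])
    ((Polynomial.C : LA k[X] r →+* (LA k[X] r)[X]).toMonoidHom.comp
      (AddMonoidAlgebra.of k[X] (Fin r → ℤ)))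
    (Polynomial.C (AddMonoidAlgebra.single 0 Polynomial.X))

/-- constants in `X` -/
noncomputable def cst : LA k r →+* LA k[X] r :=
  AddMonoidAlgebra.mapRingHom (Fin r → ℤ) (Polynomial.C : k →+* k[X])

/-- `X ↦ X + s` -/
noncomputable def vtr (s : LA k r) : LA k[X] r →+* LA k[X] r :=
  ev ((Polynomial.aeval (AddMonoidAlgebra.single 0 Polynomial.X + cst s) :
      k[X] →ₐ[k] LA k[X] r) : k[X] →+* LA k[X] r)
    (AddMonoidAlgebra.of k[X] (Fin r → ℤ))

/-- `Z ↦ u^A Z`, multiplied by `u^(-C)` -/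
noncomputable def scl (A C : Fin r → ℤ) (f : (LA k[X] r)[X]) : (LA k[X] r)[X] :=
  Polynomial.C (AddMonoidAlgebra.single (-C) 1) *
    f.comp (Polynomial.C (AddMonoidAlgebra.single A 1) * Polynomial.X)

end maps

end LX
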