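import Pool.Agent.helper90.LX.EvDefs

namespace LX

variable {K : Type*} [Field K] {r : ℕ}

/-- Laurent monomials in nonzero elements -/
noncomputable def monU (u : Fin r → K) (hu : ∀ i, u i ≠ 0) :
    Multiplicative (Fin r → ℤ) →* K where
  toFun a := ∏ i, u i ^ (Multiplicative.toAdd a i)
  map_one' := by simp
  map_mul' a b := by
    rw [← Finset.prod_mul_distrib]
    refine Finset.prod_congr rfl fun i _ => ?_
    rw [toAdd_mul, Pi.add_apply, zpow_add₀ (hu i)]

end LX
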