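import Pool.Agent.helper90.LX.SepGen
import Pool.Agent.LUV.SepDer

namespace LX

universe u

variable {k K : Type u} [Field k] [Field K] [Algebra k K]

/-- a coordinate of positive value -/
private theorem exists_w (V : RV k K) (z : K) (ht : Transcendental k z) :
    ∃ w : K, w ≠ 0 ∧ 0 < V.v w ∧ ∀ D : Derivation k K K, D w = 0 → D z = 0 := by
  have hz : z ≠ 0 := by
    rintro rfl
    exact ht isAlgebraic_zero
  by_cases h : V.v z < 0
  · refine ⟨z⁻¹, inv_ne_zero hz, by rw [v_inv hz]; linarith, fun D hD => ?_⟩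
    have h1 : D (z * z⁻¹) = z • D z⁻¹ + z⁻¹ • D z := D.leibniz z z⁻¹
    rw [mul_inv_cancel₀ hz, hD, smul_zero, zero_add, Derivation.map_one_eq_zero] at h1
    have h2 : z⁻¹ * D z = 0 := h1.symm
    exact (mul_eq_zero.1 h2).resolve_left (inv_ne_zero hz)
  · obtain ⟨c, hc⟩ := exists_res (V := V) (x := z) (Or.inr (not_lt.1 h))
    have hne : z - algebraMap k K c ≠ 0 := by
      intro h0
      apply ht
      rw [sub_eq_zero.1 h0]
      exact isAlgebraic_algebraMap c
    refine ⟨z - algebraMap k K c, hne, lt_of_gt hne hc, fun D hD => ?_⟩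
    rw [map_sub, Derivation.map_algebraMap, sub_zero] at hD
    exact hD

/-- Choice of the coordinates. Let `z_1..z_(r+1)` be given by `sep_gen` (every derivation killing all
`z_j` is `0`, `z_j` transcendental). Replace `z_j` by elements of positive value: `z - c` or `1/z`
(the property is kept, the elements are nonzero). Let `y_i` be nonzero of positive value (replace by
the inverse; `v(y_i) ≠ 0` by independence). `u_i = y_i^p (1 + z_i)` has value `p v(y_i)`,
`x = z_(r+1)`. A derivation `D` killing `u_i` and `x` kills `z_i` because `D(y_i^p) = 0`. Then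
`LUV.sep_of_der`. -/
theorem exists_ux [Algebra.EssFiniteType k K] (p : ℕ) [Fact p.Prime] [CharP k p]
    (V : RV k K) (r : ℕ) (hn : Algebra.trdeg k K = (r + 1 : ℕ)) (y : Fin r → K)
    (hy : ∀ i, y i ≠ 0) (hind : ∀ a : Fin r → ℤ, ∑ i, (a i : ℝ) * V.v (y i) = 0 → a = 0) :
    ∃ (u : Fin r → K) (x : K), (∀ i, u i ≠ 0 ∧ 0 < V.v (u i)) ∧
      (∀ a : Fin r → ℤ, ∑ i, (a i : ℝ) * V.v (u i) = 0 → a = 0) ∧ x ≠ 0 ∧ 0 < V.v x ∧
      Algebra.IsSeparable (IntermediateField.adjoin k (insert x (Set.range u))) K := by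
  classical
  have hp : p.Prime := Fact.out
  have hpK : CharP K p := charP_of_injective_algebraMap (algebraMap k K).injective p
  have hp0 : (0 : ℝ) < p := by exact_mod_cast hp.pos
  obtain ⟨z, ht, hD⟩ := sep_gen p V (r + 1) hn
  have hw : ∀ j, ∃ w : K, w ≠ 0 ∧ 0 < V.v w ∧ ∀ D : Derivation k K K, D w = 0 → D (z j) = 0 :=
    fun j => exists_w V (z j) (ht j)
  choose w hw0 hwpos hwD using hw
  -- signs
  have hyne : ∀ i, V.v (y i) ≠ 0 := by
    intro i h0
    have h1 := hind (Pi.single i 1) (by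
      rw [Finset.sum_eq_single i]
      · simp [h0]
      · intro j _ hj
        simp [Pi.single_eq_of_ne hj]
      · intro h; exact absurd (Finset.mem_univ i) h)
    have h2 := congrFun h1 i
    simp at h2
  have hy' : ∀ i, ∃ (y' : K) (e : ℤ), y' ≠ 0 ∧ 0 < V.v y' ∧ e ≠ 0 ∧ V.v y' = e * V.v (y i) := by
    intro i
    rcases lt_or_gt_of_ne (hyne i) with h | h
    · exact ⟨(y i)⁻¹, -1, inv_ne_zero (hy i), by rw [v_inv (hy i)]; linarith, by norm_num,
        by rw [v_inv (hy i)]; push_cast; ring⟩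
    · exact ⟨y i, 1, hy i, h, one_ne_zero, by push_cast; ring⟩
  choose y' e hy0 hypos he hye using hy'
  have h1w : ∀ i : Fin r, (1 : K) + w i.castSucc ≠ 0 := fun i =>
    add_ne (V := V) one_ne_zero (by rw [v_one]; exact Or.inr (hwpos _))
  have hv1w : ∀ i : Fin r, V.v ((1 : K) + w i.castSucc) = 0 := fun i => by
    rw [v_add (V := V) one_ne_zero (by rw [v_one]; exact Or.inr (hwpos _)), v_one]
  have hvu : ∀ i : Fin r, V.v (y' i ^ p * (1 + w i.castSucc)) = p * V.v (y' i) := fun i => by
    rw [V.map_mul _ _ (pow_ne_zero _ (hy0 i)) (h1w i), hv1w, v_pow (hy0 i), add_zero]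
  refine ⟨fun i => y' i ^ p * (1 + w i.castSucc), w (Fin.last r), fun i =>
    ⟨mul_ne_zero (pow_ne_zero _ (hy0 i)) (h1w i), ?_⟩, ?_, hw0 _, hwpos _, ?_⟩
  · rw [hvu]
    exact mul_pos hp0 (hypos i)
  · intro a ha
    simp only [hvu] at ha
    have h2 : (p : ℝ) * ∑ i, ((a i * e i : ℤ) : ℝ) * V.v (y i) = 0 := by
      rw [← ha, Finset.mul_sum]
      refine Finset.sum_congr rfl fun i _ => ?_
      rw [hye i]
      push_cast
      ring
    have h3 := hind (fun i => a i * e i) ((mul_eq_zero.1 h2).resolve_left hp0.ne')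
    funext i
    have h4 := congrFun h3 i
    simp only [Pi.zero_apply] at h4
    exact (mul_eq_zero.1 h4).resolve_right (he i)
  · refine LUV.sep_of_der _ fun D hDE => ?_
    have hx : D (w (Fin.last r)) = 0 :=
      hDE _ (IntermediateField.subset_adjoin k _ (Set.mem_insert _ _))
    have hu : ∀ i : Fin r, D (w i.castSucc) = 0 := by
      intro i
      have h1 : D (y' i ^ p * (1 + w i.castSucc)) = 0 :=
        hDE _ (IntermediateField.subset_adjoin k _ (Set.mem_insert_of_mem _ ⟨i, rfl⟩))
      have h2 : D (y' i ^ p) = 0 := by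
        rw [Derivation.leibniz_pow]
        simp [CharP.cast_eq_zero]
      rw [Derivation.leibniz, h2, smul_zero, add_zero, map_add, Derivation.map_one_eq_zero,
        zero_add, smul_eq_mul] at h1
      exact (mul_eq_zero.1 h1).resolve_left (pow_ne_zero _ (hy0 i))
    refine hD D fun j => hwD j D ?_
    induction j using Fin.lastCases with
    | last => exact hx
    | cast i => exact hu i

end LX
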