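import Pool.Agent.helper90.LX.Defs

namespace LX

variable {k K : Type*} [Field k] [Field K] [Algebra k K] {V : RV k K} {x y : K} {s t : ℝ}

theorem ge_zero (s : ℝ) : V.Ge 0 s := Or.inl rfl
theorem gt_zero (s : ℝ) : V.Gt 0 s := Or.inl rfl

theorem ge_mono (h : V.Ge x s) (h' : t ≤ s) : V.Ge x t := h.imp id (le_trans h')
theorem gt_mono (h : V.Gt x s) (h' : t ≤ s) : V.Gt x t := h.imp id (lt_of_le_of_lt h')
theorem gt_of_ge (h : V.Ge x s) (h' : t < s) : V.Gt x t := h.imp id (lt_of_lt_of_le h')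
theorem ge_of_gt (h : V.Gt x s) : V.Ge x s := h.imp id le_of_lt
theorem ge_self (x : K) : V.Ge x (V.v x) := Or.inr le_rfl
theorem not_gt_self (hx : x ≠ 0) : ¬ V.Gt x (V.v x) := by
  rintro (h | h)
  · exact hx h
  · exact lt_irrefl _ h
theorem le_of_ge (hx : x ≠ 0) (h : V.Ge x s) : s ≤ V.v x := h.resolve_left hx
theorem lt_of_gt (hx : x ≠ 0) (h : V.Gt x s) : s < V.v x := h.resolve_left hx
theorem gt_or_eq (x : K) (h : V.Ge x s) : V.Gt x s ∨ (x ≠ 0 ∧ V.v x = s) := by
  by_cases hx : x = 0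
  · exact Or.inl (Or.inl hx)
  · rcases (le_of_ge hx h).lt_or_eq with h1 | h1
    · exact Or.inl (Or.inr h1)
    · exact Or.inr ⟨hx, h1.symm⟩

theorem ge_mul (hx : V.Ge x s) (hy : V.Ge y t) : V.Ge (x * y) (s + t) := by
  by_cases h1 : x = 0
  · left; simp [h1]
  by_cases h2 : y = 0
  · left; simp [h2]
  right
  rw [V.map_mul x y h1 h2]
  exact add_le_add (le_of_ge h1 hx) (le_of_ge h2 hy)

theorem gt_mul (hx : V.Gt x s) (hy : V.Ge y t) : V.Gt (x * y) (s + t) := by
  by_cases h1 : x = 0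
  · left; simp [h1]
  by_cases h2 : y = 0
  · left; simp [h2]
  right
  rw [V.map_mul x y h1 h2]
  exact add_lt_add_of_lt_of_le (lt_of_gt h1 hx) (le_of_ge h2 hy)

theorem v_one : V.v (1 : K) = 0 := by
  have := V.map_mul 1 1 one_ne_zero one_ne_zero
  rw [mul_one] at this
  linarith

theorem ge_one : V.Ge (1 : K) 0 := Or.inr v_one.ge

theorem v_neg (hx : x ≠ 0) : V.v (-x) = V.v x := by
  have h1 : V.v (-1 : K) = 0 := by
    have := V.map_mul (-1) (-1) (neg_ne_zero.2 one_ne_zero) (neg_ne_zero.2 one_ne_zero)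
    rw [neg_mul_neg, one_mul, v_one] at this
    linarith
  have := V.map_mul (-1) x (neg_ne_zero.2 one_ne_zero) hx
  rw [neg_one_mul, h1, zero_add] at this
  exact this

theorem ge_neg (h : V.Ge x s) : V.Ge (-x) s := by
  by_cases h1 : x = 0
  · left; simp [h1]
  · right
    rw [v_neg h1]
    exact le_of_ge h1 h

theorem gt_neg (h : V.Gt x s) : V.Gt (-x) s := by
  by_cases h1 : x = 0
  · left; simp [h1]
  · right
    rw [v_neg h1]
    exact lt_of_gt h1 h

theorem ge_add (hx : V.Ge x s) (hy : V.Ge y s) : V.Ge (x + y) s := by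
  by_cases h1 : x = 0
  · simpa [h1] using hy
  by_cases h2 : y = 0
  · simpa [h2] using hx
  by_cases h3 : x + y = 0
  · exact Or.inl h3
  · exact Or.inr (le_trans (le_min (le_of_ge h1 hx) (le_of_ge h2 hy)) (V.map_add x y h1 h2 h3))

theorem gt_add (hx : V.Gt x s) (hy : V.Gt y s) : V.Gt (x + y) s := by
  by_cases h1 : x = 0
  · simpa [h1] using hy
  by_cases h2 : y = 0
  · simpa [h2] using hx
  by_cases h3 : x + y = 0
  · exact Or.inl h3
  · exact Or.inr (lt_of_lt_of_le (lt_min (lt_of_gt h1 hx) (lt_of_gt h2 hy))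
      (V.map_add x y h1 h2 h3))

theorem ge_sub (hx : V.Ge x s) (hy : V.Ge y s) : V.Ge (x - y) s := by
  rw [sub_eq_add_neg]; exact ge_add hx (ge_neg hy)

theorem gt_sub (hx : V.Gt x s) (hy : V.Gt y s) : V.Gt (x - y) s := by
  rw [sub_eq_add_neg]; exact gt_add hx (gt_neg hy)

theorem ge_pow (hx : V.Ge x s) (n : ℕ) : V.Ge (x ^ n) (n * s) := by
  induction n with
  | zero => simpa using ge_one
  | succ n ih =>
    rw [pow_succ]
    refine ge_mono (ge_mul ih hx) ?_
    push_cast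
    linarith

theorem gt_pow (hx : V.Gt x s) (n : ℕ) (hn : n ≠ 0) : V.Gt (x ^ n) (n * s) := by
  obtain ⟨m, rfl⟩ := Nat.exists_eq_succ_of_ne_zero hn
  rw [pow_succ, mul_comm]
  refine gt_mono (gt_mul hx (ge_pow (ge_of_gt hx) m)) ?_
  push_cast
  linarith

theorem ge_sum {ι : Type*} (u : Finset ι) (g : ι → K) (h : ∀ i ∈ u, V.Ge (g i) s) :
    V.Ge (∑ i ∈ u, g i) s := by
  classical
  induction u using Finset.induction_on with
  | empty => exact Or.inl (by simp)
  | insert a u ha ih =>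
    rw [Finset.sum_insert ha]
    exact ge_add (h a (Finset.mem_insert_self a u))
      (ih fun i hi => h i (Finset.mem_insert_of_mem hi))

theorem gt_sum {ι : Type*} (u : Finset ι) (g : ι → K) (h : ∀ i ∈ u, V.Gt (g i) s) :
    V.Gt (∑ i ∈ u, g i) s := by
  classical
  induction u using Finset.induction_on with
  | empty => exact Or.inl (by simp)
  | insert a u ha ih =>
    rw [Finset.sum_insert ha]
    exact gt_add (h a (Finset.mem_insert_self a u))
      (ih fun i hi => h i (Finset.mem_insert_of_mem hi))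

theorem ge_algebraMap (c : k) : V.Ge (algebraMap k K c) 0 := by
  by_cases hc : c = 0
  · left; simp [hc]
  · right; rw [V.map_const c hc]

theorem v_pow (hx : x ≠ 0) (n : ℕ) : V.v (x ^ n) = n * V.v x := by
  induction n with
  | zero => simp [v_one]
  | succ n ih =>
    rw [pow_succ, V.map_mul _ _ (pow_ne_zero _ hx) hx, ih]
    push_cast
    ring

theorem v_inv (hx : x ≠ 0) : V.v x⁻¹ = - V.v x := by
  have := V.map_mul x x⁻¹ hx (inv_ne_zero hx)
  rw [mul_inv_cancel₀ hx, v_one] at this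
  linarith

theorem v_div (hx : x ≠ 0) (hy : y ≠ 0) : V.v (x / y) = V.v x - V.v y := by
  rw [div_eq_mul_inv, V.map_mul _ _ hx (inv_ne_zero hy), v_inv hy, sub_eq_add_neg]

theorem v_zpow (hx : x ≠ 0) (n : ℤ) : V.v (x ^ n) = n * V.v x := by
  obtain ⟨m, rfl | rfl⟩ := Int.eq_nat_or_neg n
  · rw [zpow_natCast, v_pow hx]; push_cast; ring
  · rw [zpow_neg, zpow_natCast, v_inv (pow_ne_zero _ hx), v_pow hx]; push_cast; ring

theorem gt_div (hx : V.Gt x s) (hy : y ≠ 0) : V.Gt (x / y) (s - V.v y) := by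
  by_cases h1 : x = 0
  · left; simp [h1]
  · right
    rw [v_div h1 hy]
    linarith [lt_of_gt h1 hx]

theorem ge_div (hx : V.Ge x s) (hy : y ≠ 0) : V.Ge (x / y) (s - V.v y) := by
  by_cases h1 : x = 0
  · left; simp [h1]
  · right
    rw [v_div h1 hy]
    linarith [le_of_ge h1 hx]

theorem add_ne (hx : x ≠ 0) (hy : V.Gt y (V.v x)) : x + y ≠ 0 := by
  intro h
  have h1 : x = -y := eq_neg_of_add_eq_zero_left h
  have h2 := gt_neg hy
  rw [← h1] at h2
  exact not_gt_self hx h2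

theorem v_add (hx : x ≠ 0) (hy : V.Gt y (V.v x)) : V.v (x + y) = V.v x := by
  have h0 := add_ne hx hy
  have h1 : V.v x ≤ V.v (x + y) := le_of_ge h0 (ge_add (ge_self x) (ge_of_gt hy))
  refine le_antisymm ?_ h1
  by_contra h
  push Not at h
  have h2 : V.Gt (x + y - y) (V.v x) := gt_sub (Or.inr h) hy
  rw [add_sub_cancel_right] at h2
  exact not_gt_self hx h2

theorem mem_grp (hx : x ≠ 0) : V.v x ∈ V.grp := AddSubgroup.subset_closure ⟨x, hx, rfl⟩

theorem exists_of_mem_grp (h : s ∈ V.grp) : ∃ x : K, x ≠ 0 ∧ V.v x = s := by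
  induction h using AddSubgroup.closure_induction with
  | mem x hx => exact hx
  | zero => exact ⟨1, one_ne_zero, v_one⟩
  | add a b _ _ ha hb =>
    obtain ⟨x, hx, rfl⟩ := ha
    obtain ⟨y, hy, rfl⟩ := hb
    exact ⟨x * y, mul_ne_zero hx hy, V.map_mul x y hx hy⟩
  | neg a _ ha =>
    obtain ⟨x, hx, rfl⟩ := ha
    exact ⟨x⁻¹, inv_ne_zero hx, v_inv hx⟩

/-- residues: `x` of value at least `0` is a constant plus something positive -/
theorem exists_res (h : V.Ge x 0) : ∃ c : k, V.Gt (x - algebraMap k K c) 0 := by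
  rcases gt_or_eq x h with h | ⟨h1, h2⟩
  · exact ⟨0, by simpa using h⟩
  · obtain ⟨c, hc⟩ := V.res x h1 h2
    exact ⟨c, hc⟩

/-- residue of a unit is nonzero -/
theorem exists_res_ne (hx : x ≠ 0) (h : V.v x = 0) :
    ∃ c : k, c ≠ 0 ∧ V.Gt (x - algebraMap k K c) 0 := by
  obtain ⟨c, hc⟩ := V.res x hx h
  refine ⟨c, ?_, hc⟩
  rintro rfl
  simp only [map_zero, sub_zero] at hc
  rcases hc with hc | hc
  · exact hx hc
  · exact absurd hc (by simp [h])

end LX
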