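import Pool.Agent.helper90.LX.Main
import Pool.Agent.helper90.LX.FrEnd

namespace LX

universe u

variable {k K : Type u} [Field k] [Field K] [Algebra k K]

/-- Strong local uniformization: rank one, value group of rational rank `n - 1`, not finitely
generated. -/
theorem lux_strong [Infinite k] [Algebra.EssFiniteType k K] (p : ℕ) [Fact p.Prime] [CharP k p]
    (W : ValuationSubring K) (hW : ∀ c : k, algebraMap k K c ∈ W)
    (harch : MulArchimedean W.ValueGroup)
    (hres : ∀ x ∈ W, ∃ c : k, W.valuation (x - algebraMap k K c) < 1)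
    (hnfg : ¬ Group.FG (W.ValueGroup)ˣ)
    (hr : Algebra.trdeg k K = (Module.finrank ℤ (Additive (W.ValueGroup)ˣ) + 1 : ℕ))
    (hr0 : 0 < Module.finrank ℤ (Additive (W.ValueGroup)ˣ)) :
    StrongUnif k W := by
  obtain ⟨V, hVW, hfg, hrk⟩ := exists_rv W hW harch hres
  obtain ⟨y, hy, hind⟩ := hrk _ (by omega) rfl
  have hstd : Std V (Module.finrank ℤ (Additive (W.ValueGroup)ˣ)) :=
    ⟨by rw [hr]; push_cast; rfl, fun h => hnfg (hfg h)⟩
  obtain ⟨m, hS⟩ := exists_state p V _ hr y hy hind
  obtain ⟨S⟩ := exists_state_one p hr0 hstd m hS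
  exact strong_one p hstd hr0 W hW harch hVW S

end LX
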