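import Pool.Agent.helper90.LU.Crit

/-!
# Local uniformization over a larger ground field
-/

open IsLocalRing IntermediateField

namespace LX

universe u

variable {k K : Type u} [Field k] [Field K] [Algebra k K]

/-- denominators in `k(t)` -/
private theorem den_field {t s : Set K} {x : K} (hx : x ∈ adjoin k t) :
    ∃ b ∈ Algebra.adjoin k (t ∪ s), b ∈ adjoin k t ∧ b ≠ 0 ∧
      b * x ∈ Algebra.adjoin k (t ∪ s) := by
  rw [mem_adjoin_iff_div] at hx
  obtain ⟨r, hr, q, hq, rfl⟩ := hx
  have hle : Algebra.adjoin k t ≤ Algebra.adjoin k (t ∪ s) :=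
    Algebra.adjoin_mono Set.subset_union_left
  by_cases h0 : q = 0
  · refine ⟨1, one_mem _, one_mem _, one_ne_zero, ?_⟩
    rw [h0, div_zero, mul_zero]
    exact zero_mem _
  · refine ⟨q, hle hq, algebra_adjoin_le_adjoin k t hq, h0, ?_⟩
    rw [mul_div_cancel₀ _ h0]
    exact hle hr

/-- If `V` is uniformizable over a field `k(t)` contained in `V`, `t` finite, then it is
uniformizable over `k`. -/
theorem uniformizable_of_adjoin (t : Set K) (ht : t.Finite) (V : ValuationSubring K)
    (htV : ∀ e ∈ adjoin k t, e ∈ V) (h : LU.Uniformizable (adjoin k t) V) :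
    LU.Uniformizable k V := by
  classical
  set E := adjoin k t with hE
  obtain ⟨A', hA', ⟨s, hs⟩, hfr, hreg⟩ := h
  set A : Subalgebra k K := Algebra.adjoin k (t ∪ s) with hA
  have hle : ∀ x ∈ A, x ∈ A' := by
    intro x hx
    have h1 : A ≤ A'.restrictScalars k := by
      rw [hA, Algebra.adjoin_le_iff]
      rintro y (hy | hy)
      · exact A'.algebraMap_mem (⟨y, subset_adjoin k t hy⟩ : E)
      · change y ∈ A'
        rw [← hs]
        exact Algebra.subset_adjoin hy
    exact h1 hx
  have hAV : ∀ a ∈ A, a ∈ V := fun a ha => hA' a (hle a ha)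
  have hden : ∀ x ∈ A', ∃ b ∈ A, b ∈ E ∧ b ≠ 0 ∧ b * x ∈ A := by
    intro x hx
    rw [← hs] at hx
    induction hx using Algebra.adjoin_induction with
    | mem y hy =>
      exact ⟨1, one_mem _, one_mem _, one_ne_zero, by
        rw [one_mul]; exact Algebra.subset_adjoin (Or.inr hy)⟩
    | algebraMap e => exact den_field e.2
    | add x y _ _ hx hy =>
      obtain ⟨b, hb1, hb2, hb3, hb4⟩ := hx
      obtain ⟨c, hc1, hc2, hc3, hc4⟩ := hy
      refine ⟨b * c, mul_mem hb1 hc1, mul_mem hb2 hc2, mul_ne_zero hb3 hc3, ?_⟩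
      rw [show b * c * (x + y) = c * (b * x) + b * (c * y) by ring]
      exact add_mem (mul_mem hc1 hb4) (mul_mem hb1 hc4)
    | mul x y _ _ hx hy =>
      obtain ⟨b, hb1, hb2, hb3, hb4⟩ := hx
      obtain ⟨c, hc1, hc2, hc3, hc4⟩ := hy
      refine ⟨b * c, mul_mem hb1 hc1, mul_mem hb2 hc2, mul_ne_zero hb3 hc3, ?_⟩
      rw [show b * c * (x * y) = (b * x) * (c * y) by ring]
      exact mul_mem hb4 hc4
  let ι : A →+* A' := (A.val : A →+* K).codRestrict A'.toSubring (fun a => hle a a.2)
  have hι : ∀ a : A, ((ι a : A') : K) = a := fun a => rfl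
  let _ : Algebra A A' := ι.toAlgebra
  have hmap : ∀ a : A, ((algebraMap A A' a : A') : K) = a := hι
  let M : Submonoid A :=
    { carrier := {b | (b : K) ∈ E ∧ (b : K) ≠ 0}
      mul_mem' := fun {a b} ha hb => ⟨by
        rw [show ((a * b : A) : K) = a * b from rfl]; exact mul_mem ha.1 hb.1, by
        rw [show ((a * b : A) : K) = a * b from rfl]; exact mul_ne_zero ha.2 hb.2⟩
      one_mem' := ⟨one_mem _, one_ne_zero⟩ }
  have hloc : IsLocalization M A' := by
    refine ⟨?_, ?_, ?_⟩
    · rintro ⟨b, hb1, hb2⟩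
      rw [isUnit_iff_exists_inv]
      refine ⟨⟨(b : K)⁻¹, A'.algebraMap_mem (⟨(b : K)⁻¹, inv_mem hb1⟩ : E)⟩, ?_⟩
      apply Subtype.ext
      change ((algebraMap A A' b : A') : K) * (b : K)⁻¹ = 1
      rw [hmap, mul_inv_cancel₀ hb2]
    · intro x
      obtain ⟨b, hb1, hb2, hb3, hb4⟩ := hden x x.2
      refine ⟨(⟨b * x, hb4⟩, ⟨⟨b, hb1⟩, hb2, hb3⟩), ?_⟩
      apply Subtype.ext
      change (x : K) * b = b * x
      exact mul_comm _ _
    · intro x y hxy
      refine ⟨1, ?_⟩
      have h1 : x = y := by
        apply Subtype.ext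
        have := congrArg (fun z : A' => (z : K)) hxy
        simpa [hmap] using this
      rw [h1]
  refine ⟨A, hAV, ?_, ?_, ?_⟩
  · obtain ⟨t', rfl⟩ := ht.exists_finset_coe
    rw [hA, ← Finset.coe_union]
    exact Subalgebra.fg_adjoin_finset _
  · have : FaithfulSMul A K := inferInstance
    refine IsFractionRing.of_field A K fun z => ?_
    obtain ⟨a, b, hb, hab⟩ := IsFractionRing.div_surjective (A := A') z
    obtain ⟨c, hc1, hc2, hc3, hc4⟩ := hden a a.2
    obtain ⟨e, he1, he2, he3, he4⟩ := hden b b.2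
    refine ⟨⟨e * (c * a), mul_mem he1 hc4⟩, ⟨c * (e * b), mul_mem hc1 he4⟩, ?_⟩
    change z = e * (c * a) / (c * (e * b))
    rw [← hab]
    change (a : K) / b = _
    by_cases hb0 : (b : K) = 0
    · rw [hb0]
      simp
    · field_simp
  · let P' := LU.center V A' hA'
    have : IsScalarTower A A' (Localization.AtPrime P') := inferInstance
    have hc : P'.comap (algebraMap A A') = LU.center V A hAV := by
      ext a
      rfl
    have h1 : IsLocalization.AtPrime (Localization.AtPrime P') (P'.comap (algebraMap A A')) :=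
      IsLocalization.isLocalization_isLocalization_atPrime_isLocalization M _ P'
    have h2 : IsLocalization.AtPrime (Localization.AtPrime P') (LU.center V A hAV) := by
      convert h1
      exact hc.symm
    have hreg' : IsRegularLocalRing (Localization.AtPrime P') := hreg
    exact IsRegularLocalRing.of_ringEquiv (R := Localization.AtPrime P')
      (IsLocalization.algEquiv (LU.center V A hAV).primeCompl (Localization.AtPrime P')
        (Localization.AtPrime (LU.center V A hAV))).toRingEquiv

end LX
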