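import Pool.Agent.helper90.LX.SUCrit
import Pool.Agent.helper90.LX.Sub

namespace LX

open IsLocalRing IntermediateField

universe u

variable {k K : Type u} [Field k] [Field K] [Algebra k K]

/-- denominators in `k(t)` -/
private theorem SubStr_den {t s : Set K} {x : K} (hx : x ∈ adjoin k t) :
    ∃ b ∈ Algebra.adjoin k (t ∪ s), b ∈ adjoin k t ∧ b ≠ 0 ∧
      b * x ∈ Algebra.adjoin k (t ∪ s) := by
  rw [mem_adjoin_iff_div] at hx
  obtain ⟨r, hr, q, hq, rfl⟩ := hx
  have hle : Algebra.adjoin k t ≤ Algebra.adjoin k (t ∪ s) :=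
    Algebra.adjoin_mono Set.subset_union_left
  by_cases h0 : q = 0
  · refine ⟨1, one_mem _, one_mem _, one_ne_zero, ?_⟩
    rw [h0, div_zero, mul_zero]
    exact zero_mem _
  · refine ⟨q, hle hq, algebra_adjoin_le_adjoin k t hq, h0, ?_⟩
    rw [mul_div_cancel₀ _ h0]
    exact hle hr

/-- the chart over `k`, containing finitely many prescribed elements of the chart over `k(t)` -/
private theorem SubStr_chart (t : Set K) (ht : t.Finite) (V : ValuationSubring K)
    (A' : Subalgebra (adjoin k t) K) (hA' : ∀ a ∈ A', a ∈ V) (hfg : A'.FG)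
    (hfr : IsFractionRing A' K) (T : Finset K) (hT : ∀ x ∈ T, x ∈ A') :
    ∃ (A : Subalgebra k K) (hle : ∀ a ∈ A, a ∈ A') (hAV : ∀ a ∈ A, a ∈ V), A.FG ∧
      IsFractionRing A K ∧ (∀ x ∈ T, x ∈ A) ∧
      ∃ e : Localization.AtPrime (LU.center V A hAV) ≃+* Localization.AtPrime (LU.center V A' hA'),
        ∀ a : A, e (algebraMap A _ a) = algebraMap A' _ ⟨a, hle a a.2⟩ := by
  classical
  obtain ⟨s0, hs0⟩ := hfg
  set s : Finset K := s0 ∪ T with hsT
  have hs : Algebra.adjoin (adjoin k t) (s : Set K) = A' := by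
    apply le_antisymm
    · rw [Algebra.adjoin_le_iff]
      intro y hy
      rw [hsT, Finset.coe_union] at hy
      rcases hy with hy | hy
      · rw [← hs0]
        exact Algebra.subset_adjoin hy
      · exact hT y hy
    · rw [← hs0]
      refine Algebra.adjoin_mono ?_
      rw [hsT, Finset.coe_union]
      exact Set.subset_union_left
  set A : Subalgebra k K := Algebra.adjoin k (t ∪ s) with hA
  have hle : ∀ x ∈ A, x ∈ A' := by
    intro x hx
    have h1 : A ≤ A'.restrictScalars k := by
      rw [hA, Algebra.adjoin_le_iff]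
      rintro y (hy | hy)
      · exact A'.algebraMap_mem (⟨y, subset_adjoin k t hy⟩ : adjoin k t)
      · change y ∈ A'
        rw [← hs]
        exact Algebra.subset_adjoin hy
    exact h1 hx
  have hAV : ∀ a ∈ A, a ∈ V := fun a ha => hA' a (hle a ha)
  have hden : ∀ x ∈ A', ∃ b ∈ A, b ∈ adjoin k t ∧ b ≠ 0 ∧ b * x ∈ A := by
    intro x hx
    rw [← hs] at hx
    induction hx using Algebra.adjoin_induction with
    | mem y hy =>
      exact ⟨1, one_mem _, one_mem _, one_ne_zero, by
        rw [one_mul]; exact Algebra.subset_adjoin (Or.inr hy)⟩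
    | algebraMap e => exact SubStr_den e.2
    | add x y _ _ hx hy =>
      obtain ⟨b, hb1, hb2, hb3, hb4⟩ := hx
      obtain ⟨c, hc1, hc2, hc3, hc4⟩ := hy
      refine ⟨b * c, mul_mem hb1 hc1, mul_mem hb2 hc2, mul_ne_zero hb3 hc3, ?_⟩
      rw [show b * c * (x + y) = c * (b * x) + b * (c * y) by ring]
      exact add_mem (mul_mem hc1 hb4) (mul_mem hb1 hc4)
    | mul x y _ _ hx hy =>
      obtain ⟨b, hb1, hb2, hb3, hb4⟩ := hx
      obtain ⟨c, hc1, hc2, hc3, hc4⟩ := hy
      refine ⟨b * c, mul_mem hb1 hc1, mul_mem hb2 hc2, mul_ne_zero hb3 hc3, ?_⟩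
      rw [show b * c * (x * y) = (b * x) * (c * y) by ring]
      exact mul_mem hb4 hc4
  let ι : A →+* A' := (A.val : A →+* K).codRestrict A'.toSubring (fun a => hle a a.2)
  have hι : ∀ a : A, ((ι a : A') : K) = a := fun a => rfl
  let _ : Algebra A A' := ι.toAlgebra
  have hmap : ∀ a : A, ((algebraMap A A' a : A') : K) = a := hι
  let M : Submonoid A :=
    { carrier := {b | (b : K) ∈ adjoin k t ∧ (b : K) ≠ 0}
      mul_mem' := fun {a b} ha hb => ⟨by
        rw [show ((a * b : A) : K) = a * b from rfl]; exact mul_mem ha.1 hb.1, by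
        rw [show ((a * b : A) : K) = a * b from rfl]; exact mul_ne_zero ha.2 hb.2⟩
      one_mem' := ⟨one_mem _, one_ne_zero⟩ }
  have hloc : IsLocalization M A' := by
    refine ⟨?_, ?_, ?_⟩
    · rintro ⟨b, hb1, hb2⟩
      rw [isUnit_iff_exists_inv]
      refine ⟨⟨(b : K)⁻¹, A'.algebraMap_mem (⟨(b : K)⁻¹, inv_mem hb1⟩ : adjoin k t)⟩, ?_⟩
      apply Subtype.ext
      change ((algebraMap A A' b : A') : K) * (b : K)⁻¹ = 1
      rw [hmap, mul_inv_cancel₀ hb2]
    · intro x
      obtain ⟨b, hb1, hb2, hb3, hb4⟩ := hden x x.2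
      refine ⟨(⟨b * x, hb4⟩, ⟨⟨b, hb1⟩, hb2, hb3⟩), ?_⟩
      apply Subtype.ext
      change (x : K) * b = b * x
      exact mul_comm _ _
    · intro x y hxy
      refine ⟨1, ?_⟩
      have h1 : x = y := by
        apply Subtype.ext
        have := congrArg (fun z : A' => (z : K)) hxy
        simpa [hmap] using this
      rw [h1]
  refine ⟨A, hle, hAV, ?_, ?_, ?_, ?_⟩
  · obtain ⟨t', rfl⟩ := ht.exists_finset_coe
    rw [hA, ← Finset.coe_union]
    exact Subalgebra.fg_adjoin_finset _
  · have : FaithfulSMul A K := inferInstance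
    refine IsFractionRing.of_field A K fun z => ?_
    obtain ⟨a, b, hb, hab⟩ := IsFractionRing.div_surjective (A := A') z
    obtain ⟨c, hc1, hc2, hc3, hc4⟩ := hden a a.2
    obtain ⟨e, he1, he2, he3, he4⟩ := hden b b.2
    refine ⟨⟨e * (c * a), mul_mem he1 hc4⟩, ⟨c * (e * b), mul_mem hc1 he4⟩, ?_⟩
    change z = e * (c * a) / (c * (e * b))
    rw [← hab]
    change (a : K) / b = _
    by_cases hb0 : (b : K) = 0
    · rw [hb0]
      simp
    · field_simp
  · intro x hx
    exact Algebra.subset_adjoin (Or.inr (by rw [hsT, Finset.coe_union]; exact Or.inr hx))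
  · let P' := LU.center V A' hA'
    have : IsScalarTower A A' (Localization.AtPrime P') := inferInstance
    have hc : P'.comap (algebraMap A A') = LU.center V A hAV := by
      ext a
      rfl
    have h1 : IsLocalization.AtPrime (Localization.AtPrime P') (P'.comap (algebraMap A A')) :=
      IsLocalization.isLocalization_isLocalization_atPrime_isLocalization M _ P'
    have h2 : IsLocalization.AtPrime (Localization.AtPrime P') (LU.center V A hAV) := by
      convert h1
      exact hc.symm
    let e := IsLocalization.algEquiv (LU.center V A hAV).primeCompl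
      (Localization.AtPrime (LU.center V A hAV)) (Localization.AtPrime P')
    refine ⟨e.toRingEquiv, fun a => ?_⟩
    have h3 : e (algebraMap A _ a) = algebraMap A (Localization.AtPrime P') a := e.commutes a
    exact h3.trans (IsScalarTower.algebraMap_apply A A' (Localization.AtPrime P') a)

/-- Strong local uniformization over the field `k(t)` contained in the valuation ring gives strong
local uniformization over `k` (as `uniformizable_of_adjoin`; put numerators and denominators of the
parameters and of the finite set into the model, `su_enlarge`). -/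
theorem strong_of_adjoin (t : Set K) (ht : t.Finite) (W : ValuationSubring K)
    (htV : ∀ e ∈ IntermediateField.adjoin k t, e ∈ W)
    (h : StrongUnif (IntermediateField.adjoin k t) W) : StrongUnif k W := by
  classical
  intro F hF
  obtain ⟨A', hA', n, s', hfg, hfr, hreg, hdim, hspan, hFA, hmon⟩ := h F hF
  choose! a N D hN hD hx using hmon
  set T : Finset K := ((Finset.univ.image fun i => ((s' i : A') : K)) ∪ F.filter (fun x => x ∈ W)) ∪
    (F.image (fun x => ((N x : A') : K)) ∪ F.image (fun x => ((D x : A') : K))) with hTd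
  have hT : ∀ x ∈ T, x ∈ A' := by
    intro x hxT
    simp only [hTd, Finset.mem_union, Finset.mem_image, Finset.mem_filter, Finset.mem_univ,
      true_and] at hxT
    rcases hxT with (⟨i, rfl⟩ | ⟨h1, h2⟩) | (⟨y, _, rfl⟩ | ⟨y, _, rfl⟩)
    · exact (s' i).2
    · exact hFA x h1 h2
    · exact (N y).2
    · exact (D y).2
  obtain ⟨A, hle, hAV, hAfg, hAfr, hTA, e, he⟩ := SubStr_chart t ht W A' hA' hfg hfr T hT
  have hs : ∀ i, ((s' i : A') : K) ∈ A := fun i => hTA _ (by
    simp only [hTd, Finset.mem_union, Finset.mem_image, Finset.mem_univ, true_and]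
    exact Or.inl (Or.inl ⟨i, rfl⟩))
  have hNA : ∀ x ∈ F, ((N x : A') : K) ∈ A := fun x hxF => hTA _ (by
    simp only [hTd, Finset.mem_union, Finset.mem_image]
    exact Or.inr (Or.inl ⟨x, hxF, rfl⟩))
  have hDA : ∀ x ∈ F, ((D x : A') : K) ∈ A := fun x hxF => hTA _ (by
    simp only [hTd, Finset.mem_union, Finset.mem_image]
    exact Or.inr (Or.inr ⟨x, hxF, rfl⟩))
  have hes : ∀ i, e (algebraMap A _ ⟨(s' i : K), hs i⟩) = algebraMap A' _ (s' i) := fun i => he _
  refine ⟨A, hAV, n, fun i => ⟨s' i, hs i⟩, hAfg, hAfr, ?_, ?_, ?_, ?_, ?_⟩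
  · have hreg' : IsRegularLocalRing (Localization.AtPrime (LU.center W A' hA')) := hreg
    exact IsRegularLocalRing.of_ringEquiv (R := Localization.AtPrime (LU.center W A' hA')) e.symm
  · rw [← hdim]
    exact ringKrullDim_eq_of_ringEquiv e
  · have h1 : Ideal.map e (Ideal.span (Set.range fun i =>
        algebraMap A (Localization.AtPrime (LU.center W A hAV)) ⟨(s' i : K), hs i⟩)) =
        maximalIdeal (Localization.AtPrime (LU.center W A' hA')) := by
      rw [Ideal.map_span, ← Set.range_comp, ← hspan]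
      congr 2
      funext i
      exact hes i
    ext z
    have h2 : z ∈ Ideal.span (Set.range fun i =>
        algebraMap A (Localization.AtPrime (LU.center W A hAV)) ⟨(s' i : K), hs i⟩) ↔
        e z ∈ maximalIdeal (Localization.AtPrime (LU.center W A' hA')) := by
      rw [← h1]
      constructor
      · exact fun hz => Ideal.mem_map_of_mem e hz
      · intro hz
        obtain ⟨y, hy, hyz⟩ := (Ideal.mem_map_of_equiv e _).1 hz
        rwa [← e.injective hyz]
    rw [h2, mem_maximalIdeal, mem_maximalIdeal, mem_nonunits_iff, mem_nonunits_iff,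
      MulEquiv.isUnit_map]
  · intro x hxF hxW
    exact hTA x (by
      simp only [hTd, Finset.mem_union, Finset.mem_filter]
      exact Or.inl (Or.inr ⟨hxF, hxW⟩))
  · intro x hxF
    exact ⟨a x, ⟨N x, hNA x hxF⟩, ⟨D x, hDA x hxF⟩, hN x hxF, hD x hxF, hx x hxF⟩

end LX
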