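import Pool.Agent.helper90.LX.ResW
import Pool.Agent.helper90.LX.StrMain
import Pool.Agent.helper90.LX.SubStr
import Pool.Agent.LUW.MainS

namespace LX

universe u

variable {k K : Type u} [Field k] [Field K] [Algebra k K]

/-- The two cases (value group finitely generated or not) together, strong form, over a base field
which is the residue field. -/
theorem union_strong_base [Algebra.EssFiniteType k K] (p : ℕ) [Fact p.Prime] [CharP k p]
    (W : ValuationSubring K) (hW : ∀ c : k, algebraMap k K c ∈ W)
    (harch : MulArchimedean W.ValueGroup)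
    (hres : ∀ x ∈ W, ∃ c : k, W.valuation (x - algebraMap k K c) < 1)
    (hr : Algebra.trdeg k K = Module.rank ℤ (Additive (W.ValueGroup)ˣ) + 1)
    (hk : Group.FG (W.ValueGroup)ˣ ∨ Infinite k) :
    StrongUnif k W := by
  obtain ⟨hr', h0⟩ := rank_aux W hr
  by_cases hfg : Group.FG (W.ValueGroup)ˣ
  · refine LUW.luw_strong p W hW harch hres hfg hr' (LUVf.pos_rank W hres hfg ?_)
    rw [hr']
    simp
  · have hinf : Infinite k := hk.resolve_left hfg
    exact lux_strong p W hW harch hres hfg hr' (h0 hfg)

/-- The union theorem over a field of representatives `L` of the residue field, strong form. -/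
theorem union_strong [Algebra.EssFiniteType k K] (p : ℕ) [Fact p.Prime] [CharP k p]
    (W : ValuationSubring K) (harch : MulArchimedean W.ValueGroup)
    (L : IntermediateField k K) (hL : ∀ x ∈ L, x ∈ W)
    (hres : ∀ x ∈ W, ∃ c ∈ L, W.valuation (x - c) < 1)
    (hr : Algebra.trdeg L K = Module.rank ℤ (Additive (W.ValueGroup)ˣ) + 1)
    (hk : Group.FG (W.ValueGroup)ˣ ∨ Infinite L) :
    StrongUnif k W := by
  obtain ⟨t, ht, rfl⟩ := fg_sub L
  have : CharP (IntermediateField.adjoin k t) p :=
    charP_of_injective_algebraMap (algebraMap k (IntermediateField.adjoin k t)).injective p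
  have : Algebra.EssFiniteType (IntermediateField.adjoin k t) K :=
    Algebra.EssFiniteType.of_comp k _ K
  refine strong_of_adjoin t ht W hL
    (union_strong_base p W (fun c => hL c c.2) harch ?_ hr hk)
  intro x hx
  obtain ⟨c, hc, h⟩ := hres x hx
  exact ⟨⟨c, hc⟩, h⟩

end LX
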