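import Pool.Agent.helper90.LX.Union
import Pool.Agent.helper90.LX.FgSub

namespace LX

universe u

variable {k K : Type u} [Field k] [Field K] [Algebra k K]

/-- The union theorem over a field of representatives `L` of the residue field. -/
theorem union_main [Algebra.EssFiniteType k K] (p : ℕ) [Fact p.Prime] [CharP k p]
    (W : ValuationSubring K) (harch : MulArchimedean W.ValueGroup)
    (L : IntermediateField k K) (hL : ∀ x ∈ L, x ∈ W)
    (hres : ∀ x ∈ W, ∃ c ∈ L, W.valuation (x - c) < 1)
    (hr : Algebra.trdeg L K = Module.rank ℤ (Additive (W.ValueGroup)ˣ) + 1)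
    (hk : IsAlgClosed L ∨ (Infinite L ∧ ¬ Group.FG (W.ValueGroup)ˣ)) :
    LU.Uniformizable k W := by
  obtain ⟨t, ht, rfl⟩ := fg_sub L
  have : CharP (IntermediateField.adjoin k t) p :=
    charP_of_injective_algebraMap (algebraMap k (IntermediateField.adjoin k t)).injective p
  have : Algebra.EssFiniteType (IntermediateField.adjoin k t) K :=
    Algebra.EssFiniteType.of_comp k _ K
  refine uniformizable_of_adjoin t ht W hL (union_base p W (fun c => hL c c.2) harch ?_ hr hk)
  intro x hx
  obtain ⟨c, hc, h⟩ := hres x hx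
  exact ⟨⟨c, hc⟩, h⟩

end LX
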