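import Pool.Agent.helper90.LX.GeLem

namespace LX

open Polynomial

variable {R : Type*} [CommRing R] {r : ℕ}

/-- the finite sums `∑_{j<l} κ_j u^(a_j)` -/
noncomputable def tS (a : ℕ → Fin r → ℤ) (κ : ℕ → R) (l : ℕ) : LA R r :=
  ∑ j ∈ Finset.range l, AddMonoidAlgebra.single (a j) (κ j)

lemma tS_succ (a : ℕ → Fin r → ℤ) (κ : ℕ → R) (l : ℕ) :
    tS a κ (l + 1) = tS a κ l + AddMonoidAlgebra.single (a l) (κ l) := by
  rw [tS, Finset.sum_range_succ, tS]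

/-- stability of the polynomial `h` along `tS`: the minimal level `w` of `h(t_l)` is constant for
large `l` and dominates all Taylor terms. -/
def SP (φ : (Fin r → ℤ) →+ ℝ) (a : ℕ → Fin r → ℤ) (κ : ℕ → R) (h : (LA R r)[X]) : Prop :=
  ∃ (w : ℝ) (l0 : ℕ), ∀ l, l0 ≤ l →
    (GeL φ (h.eval (tS a κ l)) w ∧ ∃ A, (h.eval (tS a κ l)).coeff A ≠ 0 ∧ φ A = w) ∧
    ∀ i, 1 ≤ i → GtL φ ((hasseDeriv i h).eval (tS a κ l)) (w - i * φ (a l))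

/-- stable lowest monomial `b u^n` with gap `g` -/
def Lead (φ : (Fin r → ℤ) →+ ℝ) (a : ℕ → Fin r → ℤ) (κ : ℕ → R) (q : (LA R r)[X])
    (n : Fin r → ℤ) (b : R) (g : ℝ) (l1 : ℕ) : Prop :=
  b ≠ 0 ∧ 0 < g ∧ ∀ l, l1 ≤ l → (q.eval (tS a κ l)).coeff n = b ∧
    ∀ A, (q.eval (tS a κ l)).coeff A ≠ 0 → A ≠ n → φ n + g ≤ φ A

end LX
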