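import Pool.Agent.helper90.LX.SLead

namespace LX

open Polynomial

variable {R : Type*} [CommRing R] [IsDomain R] {r : ℕ}

/-- Description of the step `h(t_(l+1)) - h(t_l)` below the limit level `μ`.
`J` = indices `i ≥ 1` with nonzero Hasse derivative, with stable lowest monomials `b_i u^(n_i)`;
`η = lim φ(a_l)`, `μ = min (φ n_i + i η)`, `I` = indices where the minimum is attained, `i0 = max I`.
Proof: for `i` outside `I` the level `φ n_i + i φ(a_l)` exceeds `μ` for large `l`; for `i` in `I` the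
non-lowest monomials have level at least `φ n_i + g + i φ(a_l) > μ` for large `l`. -/
theorem exists_desc (φ : (Fin r → ℤ) →+ ℝ) (hφ : Function.Injective φ) (a : ℕ → Fin r → ℤ)
    (κ : ℕ → R) (ha : StrictMono fun l => φ (a l)) (η : ℝ)
    (hη : Filter.Tendsto (fun l => φ (a l)) Filter.atTop (nhds η)) (h : (LA R r)[X])
    (J : Finset ℕ) (hJ : J.Nonempty) (hJ1 : ∀ i ∈ J, 1 ≤ i)
    (hJ2 : ∀ i, 1 ≤ i → i ∉ J → hasseDeriv i h = 0)
    (n : ℕ → Fin r → ℤ) (b : ℕ → R) (g : ℝ) (l1 : ℕ)
    (hL : ∀ i ∈ J, Lead φ a κ (hasseDeriv i h) (n i) (b i) g l1) :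
    ∃ (I : Finset ℕ) (μ : ℝ) (i0 l2 : ℕ), I ⊆ J ∧ i0 ∈ I ∧ (∀ i ∈ I, i ≤ i0) ∧
      (∀ i ∈ I, φ (n i) + i * η = μ) ∧ (∀ i ∈ J, i ∉ I → μ < φ (n i) + i * η) ∧
      (∀ l, l2 ≤ l → ∀ A, φ A < μ → (h.eval (tS a κ (l + 1))).coeff A =
        (h.eval (tS a κ l)).coeff A + ∑ i ∈ I, if A = n i + i • a l then b i * κ l ^ i else 0) ∧
      (∀ l, l2 ≤ l → ∀ i, 1 ≤ i → GeL φ ((hasseDeriv i h).eval (tS a κ l))
        (φ (n i0) + i0 * φ (a l) - i * φ (a l))) := by
  classical
  have hbd : ∀ l, φ (a l) ≤ η := fun l => ha.monotone.ge_of_tendsto hη l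
  obtain ⟨im, him, hmin⟩ := J.exists_min_image (fun i => φ (n i) + i * η) hJ
  set μ : ℝ := φ (n im) + im * η with hμ
  set I : Finset ℕ := J.filter (fun i => φ (n i) + i * η = μ) with hIdef
  have hIJ : I ⊆ J := Finset.filter_subset _ _
  have hIne : I.Nonempty := ⟨im, Finset.mem_filter.2 ⟨him, rfl⟩⟩
  set i0 : ℕ := I.max' hIne with hi0def
  have hi0 : i0 ∈ I := I.max'_mem hIne
  have hle : ∀ i ∈ I, i ≤ i0 := fun i hi => I.le_max' i hi
  have hI : ∀ i ∈ I, φ (n i) + i * η = μ := fun i hi => (Finset.mem_filter.1 hi).2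
  have hnI : ∀ i ∈ J, i ∉ I → μ < φ (n i) + i * η := by
    intro i hi hni
    exact lt_of_le_of_ne (hmin i hi) fun h => hni (Finset.mem_filter.2 ⟨hi, h.symm⟩)
  have hten : ∀ (c : ℝ) (i : ℕ), Filter.Tendsto (fun l => c + i * φ (a l)) Filter.atTop
      (nhds (c + i * η)) := fun c i => tendsto_const_nhds.add (hη.const_mul _)
  have e1 : ∀ᶠ l in Filter.atTop, ∀ i ∈ J, i ∉ I → μ < φ (n i) + i * φ (a l) := by
    rw [Filter.eventually_all_finset]
    intro i hi
    by_cases hiI : i ∈ I
    · exact Filter.Eventually.of_forall fun l h => absurd hiI h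
    · filter_upwards [(hten (φ (n i)) i).eventually (lt_mem_nhds (hnI i hi hiI))] with l hl _ using hl
  have hg : 0 < g := (hL im him).2.1
  have e2 : ∀ᶠ l in Filter.atTop, ∀ i ∈ I, μ < φ (n i) + g + i * φ (a l) := by
    rw [Filter.eventually_all_finset]
    intro i hi
    refine (hten (φ (n i) + g) i).eventually (lt_mem_nhds ?_)
    have := hI i hi
    linarith
  obtain ⟨l2, hl2⟩ := Filter.eventually_atTop.1 ((e1.and e2).and (Filter.eventually_ge_atTop l1))
  refine ⟨I, μ, i0, l2, hIJ, hi0, hle, hI, hnI, fun l hl A hA => ?_, fun l hl i hi => ?_⟩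
  · obtain ⟨⟨f1, f2⟩, f3⟩ := hl2 l hl
    set N : ℕ := max h.natDegree (J.sup id) with hN
    rw [eval_tS_succ a κ h N (le_max_left _ _) l, AddMonoidAlgebra.coeff_add, Finsupp.add_apply,
      AddMonoidAlgebra.coeff_sum, Finsupp.finsetSum_apply]
    congr 1
    have hsub : I ⊆ Finset.Icc 1 N := by
      intro i hi
      refine Finset.mem_Icc.2 ⟨hJ1 i (hIJ hi), ?_⟩
      exact (Finset.le_sup (f := id) (hIJ hi)).trans (le_max_right _ _)
    have hval : ∀ i ∈ Finset.Icc 1 N, ((hasseDeriv i h).eval (tS a κ l) *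
        AddMonoidAlgebra.single (i • a l) (κ l ^ i)).coeff A =
        if i ∈ I then (if A = n i + i • a l then b i * κ l ^ i else 0) else 0 := by
      intro i hi
      rw [AddMonoidAlgebra.coeff_mul_single_apply]
      have hlev : φ (A + -(i • a l)) = φ A - i * φ (a l) := by
        rw [map_add, map_neg, map_nsmul, nsmul_eq_mul]
        ring
      by_cases hiJ : i ∈ J
      · obtain ⟨hb, -, hl'⟩ := hL i hiJ
        obtain ⟨hc, hcA⟩ := hl' l f3
        by_cases hiI : i ∈ I
        · rw [if_pos hiI]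
          by_cases hAn : A = n i + i • a l
          · rw [if_pos hAn, hAn, add_neg_cancel_right, hc]
          · rw [if_neg hAn]
            by_contra hne
            have hne' : ((hasseDeriv i h).eval (tS a κ l)).coeff (A + -(i • a l)) ≠ 0 :=
              fun h0 => hne (by rw [h0, zero_mul])
            have h3 := hcA _ hne' (fun h4 => hAn (by rw [← h4, neg_add_cancel_right]))
            rw [hlev] at h3
            have h5 := f2 i hiI
            linarith
        · rw [if_neg hiI]
          by_contra hne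
          have hne' : ((hasseDeriv i h).eval (tS a κ l)).coeff (A + -(i • a l)) ≠ 0 :=
            fun h0 => hne (by rw [h0, zero_mul])
          have h5 := f1 i hiJ hiI
          by_cases h6 : A + -(i • a l) = n i
          · rw [h6] at hlev
            linarith
          · have h3 := hcA _ hne' h6
            rw [hlev] at h3
            linarith
      · rw [hJ2 i (Finset.mem_Icc.1 hi).1 hiJ, if_neg fun h' => hiJ (hIJ h')]
        simp
    rw [Finset.sum_congr rfl hval, ← Finset.sum_filter]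
    congr 1
    ext i
    simp only [Finset.mem_filter]
    exact ⟨fun h' => h'.2, fun h' => ⟨hsub h', h'⟩⟩
  · obtain ⟨⟨f1, f2⟩, f3⟩ := hl2 l hl
    by_cases hiJ : i ∈ J
    · obtain ⟨hb, -, hl'⟩ := hL i hiJ
      obtain ⟨hc, hcA⟩ := hl' l f3
      have hge : GeL φ ((hasseDeriv i h).eval (tS a κ l)) (φ (n i)) := by
        intro B hB
        by_cases hBn : B = n i
        · rw [hBn]
        · have := hcA B hB hBn
          linarith
      refine geL_mono hge ?_
      have h0 := hI i0 hi0
      have hη' := hbd l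
      by_cases hiI : i ∈ I
      · have h1 := hI i hiI
        have h2 : (i : ℝ) ≤ i0 := by exact_mod_cast hle i hiI
        nlinarith
      · have h1 := f1 i hiJ hiI
        have h2 : (0 : ℝ) ≤ i0 := Nat.cast_nonneg _
        nlinarith
    · rw [hJ2 i hi hiJ]
      simpa using geL_zero _

end LX
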