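import Pool.Agent.helper90.LX.SDefs

namespace LX

open Polynomial

variable {R : Type*} [CommRing R] [IsDomain R] {r : ℕ}

/-- One Taylor step. -/
theorem eval_tS_succ (a : ℕ → Fin r → ℤ) (κ : ℕ → R) (h : (LA R r)[X]) (N : ℕ)
    (hN : h.natDegree ≤ N) (l : ℕ) :
    h.eval (tS a κ (l + 1)) = h.eval (tS a κ l) + ∑ i ∈ Finset.Icc 1 N,
      (hasseDeriv i h).eval (tS a κ l) * AddMonoidAlgebra.single (i • a l) (κ l ^ i) := by
  have h1 : h.eval (tS a κ (l + 1)) = (taylor (tS a κ l) h).eval
      (AddMonoidAlgebra.single (a l) (κ l)) := by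
    rw [taylor_eval, tS_succ, add_comm]
  have h2 : (taylor (tS a κ l) h).natDegree < N + 1 := by
    rw [natDegree_taylor]
    omega
  rw [h1, eval_eq_sum_range' h2, Finset.sum_range_succ']
  have h3 : (taylor (tS a κ l) h).coeff 0 * AddMonoidAlgebra.single (a l) (κ l) ^ 0 =
      h.eval (tS a κ l) := by
    rw [taylor_coeff_zero, pow_zero, mul_one]
  rw [h3, add_comm]
  congr 1
  rw [Finset.range_eq_Ico, Finset.sum_Ico_add' (fun i => (taylor (tS a κ l) h).coeff i *
    AddMonoidAlgebra.single (a l) (κ l) ^ i) 0 N 1]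
  have h4 : Finset.Ico (0 + 1) (N + 1) = Finset.Icc 1 N := by
    ext i
    simp only [Finset.mem_Ico, Finset.mem_Icc]
    omega
  rw [h4]
  refine Finset.sum_congr rfl fun i _ => ?_
  rw [taylor_coeff, AddMonoidAlgebra.single_pow]

theorem SLead_pos {ι : Type*} (s : Finset ι) (f : ι → ℝ) (hf : ∀ i ∈ s, 0 < f i) :
    ∃ g : ℝ, 0 < g ∧ ∀ i ∈ s, g ≤ f i := by
  classical
  induction s using Finset.induction_on with
  | empty => exact ⟨1, one_pos, fun i hi => absurd hi (Finset.notMem_empty i)⟩
  | insert j s hj ih =>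
    obtain ⟨g, hg, hg'⟩ := ih fun i hi => hf i (Finset.mem_insert_of_mem hi)
    refine ⟨min g (f j), lt_min hg (hf j (Finset.mem_insert_self j s)), ?_⟩
    intro i hi
    rcases Finset.mem_insert.1 hi with rfl | hi
    · exact min_le_right _ _
    · exact (min_le_left _ _).trans (hg' i hi)

/-- If `q` and all its Hasse derivatives are stable, the lowest monomial of `q(t_l)` is stable, with a
uniform gap. Proof: the differences `q(t_(l+1)) - q(t_l)` have levels `≥ β_i + i φ(a_l)`, where
`β_i` is the stable level of the `i`-th Hasse derivative, and `β_i + i φ(a_(l1)) > w` by the second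
part of `SP q`; finitely many `i`. The gap: minimum of these and of the gap of `q(t_(l1))`. -/
theorem exists_lead (φ : (Fin r → ℤ) →+ ℝ) (hφ : Function.Injective φ) (a : ℕ → Fin r → ℤ)
    (κ : ℕ → R) (ha : StrictMono fun l => φ (a l)) (q : (LA R r)[X]) (hq : q ≠ 0)
    (hq' : ∀ i, hasseDeriv i q = 0 ∨ SP φ a κ (hasseDeriv i q)) :
    ∃ (n : Fin r → ℤ) (b : R) (g : ℝ) (l1 : ℕ), Lead φ a κ q n b g l1 := by
  classical
  have hq0 : SP φ a κ q := by
    rcases hq' 0 with h | h
    · exact absurd (by simpa using h) hq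
    · simpa using h
  obtain ⟨w, l0, hw⟩ := hq0
  -- stable levels of the Hasse derivatives
  have key : ∀ i : ℕ, ∃ (β : ℝ) (li : ℕ), hasseDeriv i q ≠ 0 → ∀ l, li ≤ l →
      GeL φ ((hasseDeriv i q).eval (tS a κ l)) β ∧
        ∃ A, ((hasseDeriv i q).eval (tS a κ l)).coeff A ≠ 0 ∧ φ A = β := by
    intro i
    rcases hq' i with h | h
    · exact ⟨0, 0, fun h' => absurd h h'⟩
    · obtain ⟨β, li, h1⟩ := h
      exact ⟨β, li, fun _ l hl => (h1 l hl).1⟩
  choose β li hβ using key
  let N := q.natDegree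
  let l1 : ℕ := max l0 ((Finset.range (N + 1)).sup li)
  have hl0 : l0 ≤ l1 := le_max_left _ _
  have hli : ∀ i ∈ Finset.Icc 1 N, li i ≤ l1 := by
    intro i hi
    have h1 : i ∈ Finset.range (N + 1) := by
      rw [Finset.mem_range]
      have := (Finset.mem_Icc.1 hi).2
      omega
    exact (Finset.le_sup (f := li) h1).trans (le_max_right _ _)
  -- the gap of the differences
  let s : Finset ℕ := (Finset.Icc 1 N).filter fun i => hasseDeriv i q ≠ 0
  have hs : ∀ i ∈ s, 0 < β i + i * φ (a l1) - w := by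
    intro i hi
    obtain ⟨h1, h2⟩ := Finset.mem_filter.1 hi
    obtain ⟨A, hA, hA'⟩ := (hβ i h2 l1 (hli i h1)).2
    have h3 := (hw l1 hl0).2 i (Finset.mem_Icc.1 h1).1 A hA
    rw [hA'] at h3
    linarith
  obtain ⟨g1, hg1, hg1'⟩ := SLead_pos s _ hs
  -- the lowest monomial at `l1`
  obtain ⟨h4, n, hn, hnw⟩ := (hw l1 hl0).1
  let b := (q.eval (tS a κ l1)).coeff n
  let u : Finset (Fin r → ℤ) := ((q.eval (tS a κ l1)).coeff.support).filter fun A => A ≠ n
  have hu : ∀ A ∈ u, 0 < φ A - w := by
    intro A hA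
    obtain ⟨h5, h6⟩ := Finset.mem_filter.1 hA
    have h7 := h4 A (Finsupp.mem_support_iff.1 h5)
    rcases h7.lt_or_eq with h8 | h8
    · linarith
    · exact absurd (hφ (h8.symm.trans hnw.symm)) h6
  obtain ⟨g2, hg2, hg2'⟩ := SLead_pos u _ hu
  let g := min g1 g2
  have hg : 0 < g := lt_min hg1 hg2
  have main : ∀ l, l1 ≤ l →
      GeL φ (q.eval (tS a κ l) - AddMonoidAlgebra.single n b) (w + g) := by
    intro l hl
    induction l, hl using Nat.le_induction with
    | base =>
      intro A hA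
      by_cases h5 : A = n
      · exfalso
        apply hA
        subst h5
        simp [b]
      · have h6 : (q.eval (tS a κ l1)).coeff A ≠ 0 := by
          intro h7
          apply hA
          simp [h7, Ne.symm h5]
        have h7 : A ∈ u := Finset.mem_filter.2 ⟨Finsupp.mem_support_iff.2 h6, h5⟩
        have h8 := hg2' A h7
        have h9 : g ≤ g2 := min_le_right _ _
        linarith
    | succ l hl ih =>
      rw [eval_tS_succ a κ q N le_rfl l, add_sub_right_comm]
      refine geL_add ih (geL_sum _ _ fun i hi => ?_)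
      by_cases h5 : hasseDeriv i q = 0
      · rw [h5, eval_zero, zero_mul]
        exact geL_zero _
      · have h6 := (hβ i h5 l ((hli i hi).trans hl)).1
        have h7 := geL_mul h6 (geL_single (φ := φ) (i • a l) (κ l ^ i))
        refine geL_mono h7 ?_
        have h8 := hg1' i (Finset.mem_filter.2 ⟨hi, h5⟩)
        have h9 : g ≤ g1 := min_le_left _ _
        have h10 : φ (a l1) ≤ φ (a l) := ha.monotone hl
        have h11 : φ (i • a l) = i * φ (a l) := by rw [map_nsmul, nsmul_eq_mul]
        rw [h11]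
        have h12 : (i : ℝ) * φ (a l1) ≤ i * φ (a l) :=
          mul_le_mul_of_nonneg_left h10 (Nat.cast_nonneg i)
        linarith
  refine ⟨n, b, g, l1, hn, hg, ?_⟩
  intro l hl
  have h5 := main l hl
  have h6 : ∀ A, (q.eval (tS a κ l) - AddMonoidAlgebra.single n b).coeff A =
      (q.eval (tS a κ l)).coeff A - if A = n then b else 0 := by
    intro A
    by_cases h : A = n
    · subst h
      simp
    · simp [h, Ne.symm h]
  refine ⟨?_, ?_⟩
  · have h7 : (q.eval (tS a κ l) - AddMonoidAlgebra.single n b).coeff n = 0 :=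
      geL_coeff_zero h5 (by rw [hnw]; linarith)
    rw [h6, if_pos rfl] at h7
    exact sub_eq_zero.1 h7
  · intro A hA hAn
    rw [hnw]
    apply h5
    rw [h6, if_neg hAn, sub_zero]
    exact hA

end LX
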