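import Pool.Agent.helper90.LU.Crit

namespace LX

open IsLocalRing

universe u

variable {k K : Type u} [Field k] [Field K] [Algebra k K]

variable (k) in
/-- Strong local uniformization (with monomialization): every finite set `F` of nonzero elements of
`K` admits an affine model `A` of `K/k` in `W` with regular centre and elements `s_i` of `A` which
form a regular system of parameters of the local ring of the centre, such that `F ∩ W ⊆ A` and every
element of `F` is a monomial in the `s_i` (integral exponents) times a unit of this local ring. -/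
def StrongUnif (W : ValuationSubring K) : Prop :=
  ∀ F : Finset K, (∀ x ∈ F, x ≠ 0) →
    ∃ (A : Subalgebra k K) (h : ∀ a ∈ A, a ∈ W) (n : ℕ) (s : Fin n → A),
      A.FG ∧ IsFractionRing A K ∧
      IsRegularLocalRing (Localization.AtPrime (LU.center W A h)) ∧
      ringKrullDim (Localization.AtPrime (LU.center W A h)) = n ∧
      Ideal.span (Set.range fun i => algebraMap A (Localization.AtPrime (LU.center W A h)) (s i)) =
        maximalIdeal (Localization.AtPrime (LU.center W A h)) ∧
      (∀ x ∈ F, x ∈ W → x ∈ A) ∧
      ∀ x ∈ F, ∃ (a : Fin n → ℤ) (N D : A), N ∉ LU.center W A h ∧ D ∉ LU.center W A h ∧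
        x * (D : K) = (∏ i, ((s i : A) : K) ^ a i) * (N : K)

/-- Monomialization in `E` by `n` parameters. -/
def MonF (W : ValuationSubring K) (E : IntermediateField k K) (n : ℕ) : Prop :=
  ∀ Z : Finset K, (∀ z ∈ Z, z ∈ E ∧ z ≠ 0) →
    ∃ s : Fin n → K, (∀ i, s i ≠ 0 ∧ W.valuation (s i) < 1) ∧
      IntermediateField.adjoin k (Set.range s) = E ∧
      ∀ z ∈ Z, ∃ (a : Fin n → ℤ) (N D : MvPolynomial (Fin n) k),
        MvPolynomial.constantCoeff N ≠ 0 ∧ MvPolynomial.constantCoeff D ≠ 0 ∧
        z * MvPolynomial.aeval s D = (∏ i, s i ^ a i) * MvPolynomial.aeval s N ∧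
        (W.valuation z ≤ 1 → ∀ i, 0 ≤ a i)

/-- density of `E` in `K` for the valuation topology -/
def DenseF (W : ValuationSubring K) (E : IntermediateField k K) : Prop :=
  ∀ z c : K, c ≠ 0 → ∃ t ∈ E, W.valuation (z - t) < W.valuation c

end LX
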