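import Pool.Agent.helper90.LX.RVLem

namespace LX

universe u

variable {k K : Type u} [Field k] [Field K] [Algebra k K]

/-- nonzero elements with distinct values are independent -/
theorem SepGen.indep (V : RV k K) {ι : Type*} (y : ι → K) (h0 : ∀ j, y j ≠ 0)
    (hinj : Function.Injective fun j => V.v (y j)) : LinearIndependent k y := by
  classical
  rw [linearIndependent_iff']
  intro s g hg
  by_contra hcon
  push Not at hcon
  obtain ⟨i₁, hi₁, hgi₁⟩ := hcon
  set s' := s.filter fun i => g i ≠ 0 with hs'
  have hne : s'.Nonempty := ⟨i₁, Finset.mem_filter.2 ⟨hi₁, hgi₁⟩⟩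
  obtain ⟨i₀, hi₀, hmin⟩ := s'.exists_min_image (fun j => V.v (y j)) hne
  have hgi₀ : g i₀ ≠ 0 := (Finset.mem_filter.1 hi₀).2
  have hval : ∀ i, g i ≠ 0 → V.v (g i • y i) = V.v (y i) := by
    intro i hi
    rw [Algebra.smul_def, V.map_mul _ _ ((map_ne_zero _).2 hi) (h0 i), V.map_const _ hi, zero_add]
  have hsum : ∑ i ∈ s', g i • y i = 0 := by
    rw [← hg]
    refine Finset.sum_filter_of_ne ?_
    intro i _ hi h
    exact hi (by rw [h, zero_smul])
  rw [← Finset.add_sum_erase _ _ hi₀] at hsum
  have hgt : V.Gt (∑ i ∈ s'.erase i₀, g i • y i) (V.v (g i₀ • y i₀)) := by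
    refine gt_sum _ _ fun i hi => ?_
    have hi' := Finset.mem_erase.1 hi
    have hgi : g i ≠ 0 := (Finset.mem_filter.1 hi'.2).2
    right
    rw [hval i hgi, hval i₀ hgi₀]
    exact lt_of_le_of_ne (hmin i hi'.2) fun h => hi'.1 (hinj h).symm
  exact add_ne (smul_ne_zero hgi₀ (h0 i₀)) hgt hsum

/-- a finite dimensional space has a basis with distinct values -/
theorem SepGen.basis (V : RV k K) (n : ℕ) : ∀ x : Fin n → K, LinearIndependent k x →
    ∃ y : Fin n → K, (∀ j, y j ≠ 0) ∧ (Function.Injective fun j => V.v (y j)) ∧
      Submodule.span k (Set.range y) = Submodule.span k (Set.range x) := by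
  induction n with
  | zero =>
    intro x _
    exact ⟨x, fun j => j.elim0, fun j => j.elim0, rfl⟩
  | succ n ih =>
    intro x hx
    obtain ⟨x', a, rfl⟩ : ∃ (x' : Fin n → K) (a : K), x = Fin.snoc x' a :=
      ⟨Fin.init x, x (Fin.last n), (Fin.snoc_init_self x).symm⟩
    rw [linearIndependent_finSnoc] at hx
    obtain ⟨y, hy0, hyi, hys⟩ := ih x' hx.1
    have ha : a ∉ Submodule.span k (Set.range y) := by rw [hys]; exact hx.2
    set W := Submodule.span k (Set.range y) with hW
    have hz0 : ∀ w ∈ W, a + w ≠ 0 := by
      intro w hw h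
      apply ha
      have : a = -w := eq_neg_of_add_eq_zero_left h
      rw [this]
      exact W.neg_mem hw
    obtain ⟨w, hw, hwv⟩ : ∃ w ∈ W, ∀ j, V.v (a + w) ≠ V.v (y j) := by
      by_contra hcon
      push Not at hcon
      set Z : Set ℝ := {r | ∃ w ∈ W, V.v (a + w) = r} with hZ
      have hfin : Z.Finite := by
        refine Set.Finite.subset (Set.finite_range fun j => V.v (y j)) ?_
        rintro r ⟨w, hw, rfl⟩
        obtain ⟨j, hj⟩ := hcon w hw
        exact ⟨j, hj.symm⟩
      have hne : Z.Nonempty := ⟨_, 0, W.zero_mem, rfl⟩
      obtain ⟨r, ⟨w, hw, rfl⟩, hmax⟩ := Set.exists_max_image Z id hfin hne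
      obtain ⟨j, hj⟩ := hcon w hw
      have h1 : V.v ((a + w) / y j) = 0 := by
        rw [v_div (hz0 w hw) (hy0 j), hj, sub_self]
      obtain ⟨c, hc⟩ := V.res _ (div_ne_zero (hz0 w hw) (hy0 j)) h1
      have hyW : c • y j ∈ W := W.smul_mem _ (Submodule.subset_span ⟨j, rfl⟩)
      have hw' : w - c • y j ∈ W := W.sub_mem hw hyW
      have e : a + (w - c • y j) = ((a + w) / y j - algebraMap k K c) * y j := by
        rw [sub_mul, div_mul_cancel₀ _ (hy0 j), Algebra.smul_def]
        ring
      have hne' : (a + w) / y j - algebraMap k K c ≠ 0 := by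
        intro h
        rw [h, zero_mul] at e
        exact hz0 _ hw' e
      have hpos : 0 < V.v ((a + w) / y j - algebraMap k K c) := hc.resolve_left hne'
      have h2 := hmax _ ⟨_, hw', rfl⟩
      simp only [id] at h2
      rw [e, V.map_mul _ _ hne' (hy0 j), ← hj] at h2
      linarith
    refine ⟨Fin.snoc y (a + w), ?_, ?_, ?_⟩
    · intro j
      refine Fin.lastCases ?_ (fun j => ?_) j
      · rw [Fin.snoc_last]; exact hz0 w hw
      · rw [Fin.snoc_castSucc]; exact hy0 j
    · intro i j
      refine Fin.lastCases ?_ (fun i => ?_) i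
      · refine Fin.lastCases ?_ (fun j => ?_) j
        · intro _; rfl
        · intro h
          simp only [Fin.snoc_last, Fin.snoc_castSucc] at h
          exact absurd h (hwv j)
      · refine Fin.lastCases ?_ (fun j => ?_) j
        · intro h
          simp only [Fin.snoc_last, Fin.snoc_castSucc] at h
          exact absurd h.symm (hwv i)
        · intro h
          simp only [Fin.snoc_castSucc] at h
          rw [hyi h]
    · have hr : ∀ (f : Fin n → K) (b : K), Submodule.span k (Set.range (Fin.snoc f b : Fin (n + 1) → K)) =
          Submodule.span k (Set.range f) ⊔ Submodule.span k {b} := by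
        intro f b
        rw [Fin.range_snoc, ← Set.union_singleton, Submodule.span_union, sup_comm]
      rw [hr, hr, ← hys]
      apply le_antisymm
      · refine sup_le le_sup_left ?_
        rw [Submodule.span_singleton_le_iff_mem]
        refine Submodule.add_mem _ ?_ ?_
        · exact Submodule.mem_sup_right (Submodule.mem_span_singleton_self a)
        · exact Submodule.mem_sup_left hw
      · refine sup_le le_sup_left ?_
        rw [Submodule.span_singleton_le_iff_mem]
        have h1 : a + w ∈ W ⊔ Submodule.span k {a + w} :=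
          Submodule.mem_sup_right (Submodule.mem_span_singleton_self _)
        have h2 : w ∈ W ⊔ Submodule.span k {a + w} := Submodule.mem_sup_left hw
        have h3 := Submodule.sub_mem _ h1 h2
        rwa [add_sub_cancel_right] at h3

theorem SepGen.indep_fin (p : ℕ) [Fact p.Prime] [CharP k p] (V : RV k K) (n : ℕ) (x : Fin n → K)
    (hx : LinearIndependent k x) : LinearIndependent k fun i => x i ^ p := by
  classical
  have hpp : p.Prime := Fact.out
  have hKp : CharP K p := charP_of_injective_algebraMap (algebraMap k K).injective p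
  obtain ⟨y, hy0, hyi, hys⟩ := SepGen.basis V n x hx
  have hmem : ∀ i, ∃ c : Fin n → k, ∑ j, c j • y j = x i := by
    intro i
    have : x i ∈ Submodule.span k (Set.range y) := by
      rw [hys]; exact Submodule.subset_span ⟨i, rfl⟩
    exact (Submodule.mem_span_range_iff_exists_fun k).1 this
  choose A hA using hmem
  have hyp : LinearIndependent k fun j => y j ^ p := by
    refine SepGen.indep V _ (fun j => pow_ne_zero _ (hy0 j)) ?_
    intro i j h
    simp only [v_pow (hy0 _)] at h
    have hp0 : (p : ℝ) ≠ 0 := Nat.cast_ne_zero.2 hpp.ne_zero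
    exact hyi (mul_left_cancel₀ hp0 h)
  -- the matrix
  have hrows : LinearIndependent k (fun i => A i : Fin n → Fin n → k) := by
    rw [Fintype.linearIndependent_iff] at hx ⊢
    intro g hg
    refine hx g ?_
    have : ∀ j, ∑ i, g i * A i j = 0 := by
      intro j
      have := congrFun hg j
      simpa [Finset.sum_apply, Pi.smul_apply, smul_eq_mul] using this
    calc ∑ i, g i • x i = ∑ i, g i • ∑ j, A i j • y j := by simp_rw [hA]
      _ = ∑ j, (∑ i, g i * A i j) • y j := by
        simp_rw [Finset.smul_sum, smul_smul]
        rw [Finset.sum_comm]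
        refine Finset.sum_congr rfl fun j _ => ?_
        rw [Finset.sum_smul]
      _ = 0 := by simp [this]
  have hdet : IsUnit (Matrix.of A) := Matrix.linearIndependent_rows_iff_isUnit.1 hrows
  have hdet' : IsUnit ((Matrix.of A).map (frobenius k p)) := by
    have := hdet.map (frobenius k p).mapMatrix
    exact this
  have hrows' : LinearIndependent k (fun i j => A i j ^ p : Fin n → Fin n → k) := by
    have := Matrix.linearIndependent_rows_iff_isUnit.2 hdet'
    exact this
  have hxp : ∀ i, x i ^ p = ∑ j, A i j ^ p • y j ^ p := by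
    intro i
    rw [← hA i, sum_pow_char]
    refine Finset.sum_congr rfl fun j _ => ?_
    rw [smul_pow]
  rw [Fintype.linearIndependent_iff] at hyp hrows' ⊢
  intro g hg
  refine hrows' g ?_
  funext j
  have h1 : ∑ j, (∑ i, g i * A i j ^ p) • y j ^ p = 0 := by
    rw [← hg]
    simp_rw [hxp, Finset.smul_sum, smul_smul]
    rw [Finset.sum_comm]
    refine Finset.sum_congr rfl fun j _ => ?_
    rw [Finset.sum_smul]
  have h2 := hyp _ h1 j
  simpa [Finset.sum_apply, Pi.smul_apply, smul_eq_mul] using h2

/-- If the `x i` are linearly independent over `k`, so are their `p`-th powers (`V` has residue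
field `k`). Proof: the span of finitely many elements has a basis `y_j` with pairwise distinct
values (Gauss elimination: if two elements have the same value, subtract a constant multiple to
increase one of them; the number of values on an `n`-dimensional space is at most `n`), then
`x_i = ∑ a_ij y_j`, `x_i^p = ∑ a_ij^p y_j^p`, `det (a_ij^p) = det(a_ij)^p ≠ 0`, and the `y_j^p` have
distinct values, so they are independent. -/
theorem linIndep_pow (p : ℕ) [Fact p.Prime] [CharP k p] (V : RV k K) {ι : Type*} (x : ι → K)
    (hx : LinearIndependent k x) : LinearIndependent k fun i => x i ^ p := by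
  rw [linearIndependent_iff_finset_linearIndependent]
  intro s
  have h1 : LinearIndependent k (x ∘ (Subtype.val : s → ι)) := hx.comp _ Subtype.val_injective
  have e := s.equivFin
  have h2 : LinearIndependent k ((x ∘ (Subtype.val : s → ι)) ∘ e.symm) :=
    h1.comp _ e.symm.injective
  have h3 := SepGen.indep_fin p V _ _ h2
  have h4 := h3.comp _ e.injective
  have h5 : ((fun i => ((x ∘ (Subtype.val : s → ι)) ∘ e.symm) i ^ p) ∘ e) =
      (fun i => x i ^ p) ∘ (Subtype.val : s → ι) := by
    funext i
    simp
  rwa [h5] at h4

/-- `K/k` is separably generated: Mathlib, `FieldTheory/SeparablyGenerated`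
(`exists_isTranscendenceBasis_and_isSeparable_of_linearIndepOn_pow_of_essFiniteType`), from
`linIndep_pow`; a derivation of `K/k` which kills a separating transcendence basis is zero. -/
theorem sep_gen (p : ℕ) [Fact p.Prime] [CharP k p] [Algebra.EssFiniteType k K] (V : RV k K)
    (n : ℕ) (hn : Algebra.trdeg k K = n) :
    ∃ z : Fin n → K, (∀ j, Transcendental k (z j)) ∧
      ∀ D : Derivation k K K, (∀ j, D (z j) = 0) → D = 0 := by
  have hpp : p.Prime := Fact.out
  obtain ⟨s, hs, hsep⟩ :=
    exists_isTranscendenceBasis_and_isSeparable_of_linearIndepOn_pow_of_essFiniteType (k := k)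
      (K := K) p hpp (fun s hs => linIndep_pow p V _ hs)
  have hcard : Fintype.card s = n := by
    have h1 := hs.cardinalMk_eq_trdeg
    rw [hn, Cardinal.mk_fintype] at h1
    exact_mod_cast h1
  have e : Fin n ≃ s := (Fintype.equivFinOfCardEq hcard).symm
  refine ⟨fun j => (e j : K), fun j => hs.1.transcendental (e j), fun D hD => ?_⟩
  have hDs : ∀ x ∈ (s : Set K), D x = 0 := by
    intro x hx
    have := hD (e.symm ⟨x, hx⟩)
    simpa using this
  have hDF : ∀ x ∈ IntermediateField.adjoin k (s : Set K), D x = 0 := by
    intro x hx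
    induction hx using IntermediateField.adjoin_induction with
    | mem x hx => exact hDs x hx
    | algebraMap x => exact D.map_algebraMap x
    | add x y _ _ hx hy => rw [map_add, hx, hy, add_zero]
    | inv x _ hx => rw [Derivation.leibniz_inv, hx, smul_zero]
    | mul x y _ _ hx hy => rw [D.leibniz, hx, hy, smul_zero, smul_zero, add_zero]
  let F := IntermediateField.adjoin k (s : Set K)
  have hsep' : Algebra.IsSeparable F K := hsep
  let D' : Derivation F K K :=
    Derivation.mk'
      { toFun := D
        map_add' := map_add D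
        map_smul' := fun c x => by
          have : c • x = (c : K) * x := rfl
          rw [this, D.leibniz, hDF c c.2, smul_zero, add_zero]
          rfl }
      (fun a b => D.leibniz a b)
  have hD' : D' = 0 := by
    have hun : Algebra.FormallyUnramified F K := Algebra.FormallyUnramified.of_isSeparable F K
    have hsub : Subsingleton (Derivation F K K) := by
      refine ⟨fun d d' => ?_⟩
      have h1 : d.liftKaehlerDifferential = d'.liftKaehlerDifferential := by
        refine LinearMap.ext fun x => ?_
        rw [Subsingleton.elim x 0, map_zero, map_zero]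
      rw [← d.liftKaehlerDifferential_comp, ← d'.liftKaehlerDifferential_comp, h1]
    exact Subsingleton.elim _ _
  ext x
  have := congrArg (fun d : Derivation F K K => d x) hD'
  exact this

end LX
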