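import Pool.Agent.helper90.LX.Transc
import Pool.Agent.helper90.LX.JumpPre
import Pool.Agent.helper90.LX.LevTay

namespace LX

open Polynomial LaurentPolynomial

variable {k K : Type*} [Field k] [Field K] [Algebra k K] {V : RV k K} {r m : ℕ}

theorem StateJump.coeff_iota {c : k} {N : ℤ} {g' : (LA k[X] r)[X]}
    {g : (LA k[T;T⁻¹] r)[X]}
    (hg' : Polynomial.map (iotaL c) g' = Polynomial.C (TN N) * g) (i : ℕ) (A : Fin r → ℤ) :
    iota c ((g'.coeff i).coeff A) = T N * (g.coeff i).coeff A := by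
  have h1 := congrArg (fun q => Polynomial.coeff q i) hg'
  simp only [Polynomial.coeff_map, Polynomial.coeff_C_mul] at h1
  have h2 : (iotaL c (g'.coeff i)).coeff A = (TN N * g.coeff i).coeff A := by rw [h1]
  rw [iotaL_coeff, TN_mul_coeff] at h2
  exact h2

theorem StateJump.coeff_eq_zero_iff {c : k} {N : ℤ} {g' : (LA k[X] r)[X]}
    {g : (LA k[T;T⁻¹] r)[X]}
    (hg' : Polynomial.map (iotaL c) g' = Polynomial.C (TN N) * g) (i : ℕ) (A : Fin r → ℤ) :
    (g'.coeff i).coeff A = 0 ↔ (g.coeff i).coeff A = 0 := by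
  have h1 := StateJump.coeff_iota hg' i A
  constructor
  · intro h
    rw [h, map_zero] at h1
    have h2 : (T (-N) : k[T;T⁻¹]) * (T N * (g.coeff i).coeff A) = 0 := by
      rw [← h1, mul_zero]
    rw [← mul_assoc, ← T_add, neg_add_cancel, T_zero, one_mul] at h2
    exact h2
  · intro h
    rw [h, mul_zero] at h1
    exact (map_eq_zero_iff _ (iota_injective c)).1 h1

/-- levels of `f'` and of `psi f^t` are the same -/
theorem geL_of_jump {φ' : (Fin r → ℤ) →+ ℝ} (c : k) (N : ℤ) (g' : (LA k[X] r)[X])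
    (g : (LA k[T;T⁻¹] r)[X])
    (hg' : Polynomial.map (iotaL c) g' = Polynomial.C (TN N) * g) (i : ℕ) (s : ℝ) :
    (GeL φ' (g'.coeff i) s ↔ GeL φ' (g.coeff i) s) ∧
      (GtL φ' (g'.coeff i) s ↔ GtL φ' (g.coeff i) s) := by
  refine ⟨forall_congr' fun A => ?_, forall_congr' fun A => ?_⟩ <;>
  · rw [Ne, Ne, StateJump.coeff_eq_zero_iff hg' i A]

/-- Jump of a state after a translation `t` (`Pre.tr`, then `pre_jump`, `ne_of_transc`). The new
conditions: exponents `≥ 0` by `psi_geL`; the coefficients at exponent `0` are `T^N` times the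
constants `(f_i 0).coeff 0` (`coeff_taylor_zero` on the `psi` side, `psi_coeff_zero`, `iota_const`). -/
theorem state_jump (hstd : Std V r) (S : State V r m) (J : JD S.φ (V.v S.x.fst))
    (t : LA k[X] r) (ht : GeL S.φ t 0) (ht0 : (t.coeff 0).coeff 0 = 0) :
    ∃ (S' : State V r m) (c : k) (N : ℕ), c ≠ 0 ∧ S'.φ = J.φ' ∧
      S'.y = S.y - evP S.U S.x t ∧
      Polynomial.map (iotaL c) S'.f =
        Polynomial.C (TN N) * Polynomial.map (psi J.Θ) (taylor t S.f) := by
  have hgt : V.Gt (evP S.U S.x t).fst 0 := by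
    rw [fst_evP]
    exact gt_evP_zero S.inj S.toPre.mon S.x_pos ht ht0
  obtain ⟨S', c, N, hc, hφ', hy', hx', hf'⟩ :=
    pre_jump (Pre.tr S.toPre t hgt) S.x_ne J
  have hγ : 0 < V.v S.x.fst := lt_of_gt S.x_ne S.x_pos
  have hpos : ∀ i, GeL S'.φ (S'.f.coeff i) 0 := by
    intro i
    rw [hφ']
    refine ((geL_of_jump c N _ _ hf' i 0).1).2 ?_
    rw [Polynomial.coeff_map]
    refine psi_geL S.inj hγ J ?_
    have hlev : Lev S.φ S.f m 0 := ⟨fun i _ => by
      rw [mul_zero]
      exact S.pos i, S.pos⟩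
    exact (lev_taylor le_rfl hlev ht).2 i
  have hco : ∀ i, ((S'.f.coeff i).coeff 0).coeff 0 = c ^ (N : ℤ) * ((S.f.coeff i).coeff 0).coeff 0 := by
    intro i
    refine iota_const c hc _ _ N ?_
    rw [StateJump.coeff_iota hf' i 0]
    congr 1
    have h1 : Polynomial.map (psi J.Θ) (taylor t S.f) =
        taylor (psi J.Θ t) (Polynomial.map (psi J.Θ) S.f) := by
      rw [Polynomial.map_taylor]
    have h2 : ((Polynomial.map (psi J.Θ) (taylor t S.f)).coeff i).coeff 0 =
        ((Polynomial.map (psi J.Θ) S.f).coeff i).coeff 0 := by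
      rw [h1]
      refine coeff_taylor_zero (φ := J.φ') (fun j => ?_) (psi_gtL S.inj hγ J ht ht0) i
      rw [Polynomial.coeff_map]
      exact psi_geL S.inj hγ J (S.pos j)
    have h3 := psi_coeff_zero S.inj hγ J (S.pos i)
    refine h2.trans ?_
    rw [Polynomial.coeff_map, h3]
  refine ⟨{ S' with
    x_ne := ?_
    pos := hpos
    low := ?_
    top := ?_ }, c, N, hc, hφ', hy', hf'⟩
  · rw [hx']
    exact (ne_of_transc hstd S).2 _ J.d c (by have := J.two; omega)
  · intro i hi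
    rw [hco i, S.low i hi, mul_zero]
  · rw [hco m]
    exact mul_ne_zero (zpow_ne_zero _ hc) S.top

end LX
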