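import Pool.Agent.helper90.LX.SwLem
import Pool.Agent.helper90.LX.LevTay

namespace LX

open Polynomial

variable {k : Type*} [Field k] {r : ℕ}

/-- The coefficient of `X^j` at exponent `0` of `f(τ X)`. -/
theorem SwapOrd_coeff (f : (LA k[X] r)[X]) (τ : k) (j : ℕ) :
    (((taylor (AddMonoidAlgebra.single 0 (C τ * X)) f).coeff 0).coeff 0).coeff j =
      ∑ i ∈ Finset.range (f.natDegree + 1),
        if i ≤ j then ((f.coeff i).coeff 0).coeff (j - i) * τ ^ i else 0 := by
  have h0 : ∀ (s : Finset ℕ) (g : ℕ → LA k[X] r) (a : Fin r → ℤ),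
      (∑ i ∈ s, g i).coeff a = ∑ i ∈ s, (g i).coeff a := by
    classical
    intro s g a
    induction s using Finset.induction_on with
    | empty => simp
    | insert b s hb ih => rw [Finset.sum_insert hb, Finset.sum_insert hb, ← ih]; simp
  rw [taylor_coeff_zero, eval_eq_sum_range, h0, finsetSum_coeff]
  refine Finset.sum_congr rfl fun i _ => ?_
  rw [AddMonoidAlgebra.single_pow, smul_zero, AddMonoidAlgebra.coeff_mul_single_zero, mul_pow,
    ← C_pow, ← mul_assoc, coeff_mul_X_pow', coeff_mul_C]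

theorem SwapOrd_geL {φ : (Fin r → ℤ) →+ ℝ} {f : (LA k[X] r)[X]} (hf : ∀ i, GeL φ (f.coeff i) 0)
    (j : ℕ) : GeL φ ((sw f).coeff j) 0 := by
  intro a ha
  have h1 : ∃ b, (((sw f).coeff j).coeff a).coeff b ≠ 0 := by
    by_contra h
    push Not at h
    exact ha (Polynomial.ext fun b => by rw [h b, coeff_zero])
  obtain ⟨b, hb⟩ := h1
  rw [sw_coeff] at hb
  refine hf b a fun h2 => hb ?_
  rw [h2, coeff_zero]

/-- Generic linear substitution: if `f` has exponents of level `≥ 0` and a monomial `X^b Z^i` at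
exponent `0`, then with `m' =` smallest total degree `b + i` of such monomials, for all `τ` outside
a finite set `f(Z, X + τ Z)` (written `sw (taylor (τ X) f)`) has order exactly `m'` in `Z` at
exponent `0`, `X = 0`. (The coefficient of `Z^j`, `j ≤ m'`, is `∑_{b+i=j} f_(0,b,i) τ^i`.) -/
theorem swap_order {φ : (Fin r → ℤ) →+ ℝ} (hφ : Function.Injective φ) (f : (LA k[X] r)[X])
    (hf : ∀ i, GeL φ (f.coeff i) 0) (i b : ℕ) (hib : ((f.coeff i).coeff 0).coeff b ≠ 0) :
    ∃ m' : ℕ, m' ≤ b + i ∧ ∃ Z : Finset k, ∀ τ : k, τ ∉ Z →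
      (∀ j, j < m' → (((sw (taylor (AddMonoidAlgebra.single 0 (C τ * X)) f)).coeff j).coeff
        0).coeff 0 = 0) ∧
      (((sw (taylor (AddMonoidAlgebra.single 0 (C τ * X)) f)).coeff m').coeff 0).coeff 0 ≠ 0 ∧
      ∀ j, GeL φ ((sw (taylor (AddMonoidAlgebra.single 0 (C τ * X)) f)).coeff j) 0 := by
  classical
  have hex : ∃ m, ∃ i b, b + i = m ∧ ((f.coeff i).coeff 0).coeff b ≠ 0 := ⟨b + i, i, b, rfl, hib⟩
  set m' := Nat.find hex with hm'
  obtain ⟨i0, b0, h0, h1⟩ := Nat.find_spec hex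
  rw [← hm'] at h0
  have hmin : ∀ i b, b + i < m' → ((f.coeff i).coeff 0).coeff b = 0 := by
    intro i b hb
    by_contra h
    exact Nat.find_min hex hb ⟨i, b, rfl, h⟩
  have hi0 : i0 ∈ Finset.range (f.natDegree + 1) := by
    rw [Finset.mem_range, Nat.lt_succ_iff]
    apply le_natDegree_of_ne_zero
    intro h
    apply h1
    rw [h]
    rfl
  set p : k[X] := ∑ i ∈ Finset.range (f.natDegree + 1),
    if i ≤ m' then monomial i (((f.coeff i).coeff 0).coeff (m' - i)) else 0 with hp
  have hpe : ∀ τ : k, p.eval τ = ∑ i ∈ Finset.range (f.natDegree + 1),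
        if i ≤ m' then ((f.coeff i).coeff 0).coeff (m' - i) * τ ^ i else 0 := by
    intro τ
    rw [hp, eval_finsetSum]
    refine Finset.sum_congr rfl fun i _ => ?_
    split_ifs
    · rw [eval_monomial]
    · rw [eval_zero]
  have hp0 : p ≠ 0 := by
    intro h
    have h2 : p.coeff i0 = ((f.coeff i0).coeff 0).coeff b0 := by
      rw [hp, finsetSum_coeff, Finset.sum_eq_single i0]
      · rw [if_pos (by omega), coeff_monomial, if_pos rfl, show m' - i0 = b0 by omega]
      · intro i _ hi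
        split_ifs
        · rw [coeff_monomial, if_neg hi]
        · rw [coeff_zero]
      · intro h3
        exact absurd hi0 h3
    rw [h, coeff_zero] at h2
    exact h1 h2.symm
  refine ⟨m', Nat.find_min' hex ⟨i, b, rfl, hib⟩, p.roots.toFinset, fun τ hτ => ⟨?_, ?_, ?_⟩⟩
  · intro j hj
    rw [sw_coeff, SwapOrd_coeff]
    refine Finset.sum_eq_zero fun i _ => ?_
    split_ifs with hij
    · rw [hmin i (j - i) (by omega), zero_mul]
    · rfl
  · rw [sw_coeff, SwapOrd_coeff, ← hpe]
    intro h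
    exact hτ (Multiset.mem_toFinset.2 ((mem_roots hp0).2 h))
  · exact SwapOrd_geL (lev_taylor (m := 0) le_rfl ⟨fun i hi => absurd hi (Nat.not_lt_zero i), hf⟩
      (geL_const _)).2

end LX
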