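import Pool.Agent.helper90.LX.TLPoly

namespace LX

open Polynomial LaurentPolynomial

theorem TLInt_T_inv {k : Type*} [Field k] (n : ℤ) : (T n * T (-n) : k[T;T⁻¹]) = 1 := by
  rw [← T_add, add_neg_cancel, T_zero]

theorem TLInt_toL {k : Type*} [Field k] (c : k) (N : ℕ) :
    toLaurent ((Polynomial.X - Polynomial.C c) ^ N) = (T 1 - LaurentPolynomial.C c) ^ N := by
  rw [map_pow, map_sub, Polynomial.toLaurent_X, Polynomial.toLaurent_C]

theorem TLInt_coprime {k : Type*} [Field k] {c : k} (hc : c ≠ 0) (n N : ℕ) :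
    IsCoprime ((Polynomial.X : k[X]) ^ n) ((Polynomial.X - Polynomial.C c) ^ N) := by
  refine IsCoprime.pow ?_
  refine ⟨Polynomial.C c⁻¹, -Polynomial.C c⁻¹, ?_⟩
  have h : Polynomial.C c⁻¹ * Polynomial.C c = (1 : k[X]) := by
    rw [← map_mul, inv_mul_cancel₀ hc, map_one]
  linear_combination h

/-- Laurent polynomials modulo `(T-c)^N` are polynomials. -/
theorem laurent_trunc {k : Type*} [Field k] (c : k) (hc : c ≠ 0) (N : ℕ) (h : k[T;T⁻¹]) :
    ∃ g : k[X], (T 1 - LaurentPolynomial.C c) ^ N ∣ h - toLaurent g := by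
  obtain ⟨n, f, hf⟩ := h.exists_T_pow
  obtain ⟨a, b, hab⟩ := TLInt_coprime hc n N
  refine ⟨a * f, toLaurent b * h, ?_⟩
  have h1 := congrArg toLaurent hab
  rw [map_add, map_mul, map_mul, TLInt_toL, Polynomial.toLaurent_X_pow, map_one] at h1
  rw [map_mul, hf]
  linear_combination (-h) * h1

/-- divisibility by powers of `T-c` does not change under `k[T] ⊂ k[T,1/T]`, `c ≠ 0` -/
theorem toLaurent_dvd {k : Type*} [Field k] (c : k) (hc : c ≠ 0) (N : ℕ) (g : k[X]) :
    (T 1 - LaurentPolynomial.C c) ^ N ∣ toLaurent g ↔ (Polynomial.X - Polynomial.C c) ^ N ∣ g := by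
  constructor
  · rintro ⟨q, hq⟩
    obtain ⟨n, f, hf⟩ := q.exists_T_pow
    have h1 : toLaurent (g * Polynomial.X ^ n) =
        toLaurent ((Polynomial.X - Polynomial.C c) ^ N * f) := by
      rw [map_mul, map_mul, TLInt_toL, Polynomial.toLaurent_X_pow, hf, hq]
      ring
    have h2 := Polynomial.toLaurent_injective h1
    exact (TLInt_coprime hc n N).symm.dvd_of_dvd_mul_right ⟨f, h2⟩
  · intro h
    rw [← TLInt_toL]
    exact map_dvd toLaurent h

theorem TLInt_coeff_nat {k : Type*} [Field k] (g : k[X]) (i : ℕ) :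
    (toLaurent g).coeff (i : ℤ) = g.coeff i := by
  rw [LaurentPolynomial.coeff_toLaurent]
  exact Finsupp.mapDomain_apply (f := (Nat.castEmbedding : ℕ ↪ ℤ)) Nat.castEmbedding.injective _ i

theorem TLInt_coeff_mul_T {k : Type*} [Field k] (h : k[T;T⁻¹]) (n B : ℤ) :
    (h * T n).coeff B = h.coeff (B - n) := by
  unfold T
  rw [AddMonoidAlgebra.coeff_mul_single_eq_coeff_mul (m₂ := B - n), mul_one]
  intro m' _
  constructor <;> intro h <;> linarith

/-- a Laurent polynomial with exponents in `[0, D]` is a polynomial of degree `≤ D` -/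
theorem TLInt_exists {k : Type*} [Field k] (h : k[T;T⁻¹]) (D : ℝ) (hD : 0 ≤ D)
    (h0 : ∀ B : ℤ, h.coeff B ≠ 0 → 0 ≤ B ∧ (B : ℝ) ≤ D) :
    ∃ g : k[X], toLaurent g = h ∧ ((g.natDegree : ℕ) : ℝ) ≤ D := by
  obtain ⟨n, f, hf⟩ := h.exists_T_pow
  have h1 : (Polynomial.X : k[X]) ^ n ∣ f := by
    rw [Polynomial.X_pow_dvd_iff]
    intro d hd
    rw [← TLInt_coeff_nat, hf, TLInt_coeff_mul_T]
    by_contra hne
    have h2 := (h0 _ hne).1
    omega
  obtain ⟨g, rfl⟩ := h1
  have h2 : toLaurent g = h := by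
    rw [map_mul, Polynomial.toLaurent_X_pow] at hf
    have h3 : toLaurent g * (T n * T (-n)) = h * (T n * T (-n)) := by
      rw [← mul_assoc, ← mul_assoc, ← hf, mul_comm (toLaurent g)]
    rwa [TLInt_T_inv, mul_one, mul_one] at h3
  refine ⟨g, h2, ?_⟩
  by_cases hg : g = 0
  · rw [hg, Polynomial.natDegree_zero, Nat.cast_zero]
    exact hD
  · have h4 : g.coeff g.natDegree ≠ 0 := by
      rw [Polynomial.coeff_natDegree]
      exact Polynomial.leadingCoeff_ne_zero.2 hg
    rw [← TLInt_coeff_nat, h2] at h4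
    have h5 := (h0 _ h4).2
    exact_mod_cast h5

theorem TLInt_scale {k : Type*} [Field k] (m : ℕ) (n : ℤ) (F : (k[T;T⁻¹])[X]) (i : ℕ) :
    (Polynomial.C (T (m * n)) * F.comp (Polynomial.C (T (-n)) * Polynomial.X)).coeff i =
      F.coeff i * T (((m : ℤ) - i) * n) := by
  rw [Polynomial.coeff_C_mul, Polynomial.comp_C_mul_X_coeff, T_pow, LaurentPolynomial.T_mul,
    mul_T_assoc]
  congr 2
  ring

theorem TLInt_taylor {k : Type*} [Field k] (m : ℕ) (n : ℤ) (F : (k[T;T⁻¹])[X]) (lam : k[T;T⁻¹]) :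
    taylor (T n * lam) (Polynomial.C (T (m * n)) * F.comp (Polynomial.C (T (-n)) * Polynomial.X)) =
      Polynomial.C (T (m * n)) * (taylor lam F).comp (Polynomial.C (T (-n)) * Polynomial.X) := by
  rw [Polynomial.taylor_mul, Polynomial.taylor_C]
  congr 1
  rw [Polynomial.taylor_apply, Polynomial.taylor_apply, Polynomial.comp_assoc,
    Polynomial.comp_assoc]
  congr 1
  rw [Polynomial.mul_comp, Polynomial.C_comp, Polynomial.X_comp, Polynomial.add_comp,
    Polynomial.C_comp, Polynomial.X_comp, mul_add, ← Polynomial.C_mul, ← mul_assoc,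
    mul_comm (T (-n)) (T n), TLInt_T_inv, one_mul]

theorem TLInt_dvd_sub {R : Type*} [CommRing R] (P : R[X]) (a b : R) (i : ℕ) :
    a - b ∣ (taylor a P).coeff i - (taylor b P).coeff i := by
  rw [Polynomial.taylor_coeff, Polynomial.taylor_coeff]
  exact Polynomial.sub_dvd_eval_sub a b _

/-- Window lemma over `k[T,1/T]`, exponents of `F_i` in `[-(m-i) n, (m-i) y]` with `n` an integer.
Proof: `G_i = T^((m-i)n) F_i`, i.e. `Z ↦ T^(-n) Z`, then `tl_poly` with `D = n + y`. -/
theorem tl_int {k : Type*} [Field k] (m : ℕ) (n : ℤ) (y : ℝ) (hD : 0 ≤ n + y) (c cm : k)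
    (hc : c ≠ 0) (hcm : cm ≠ 0) (F : (k[T;T⁻¹])[X]) (hdeg : F.natDegree ≤ m)
    (htop : F.coeff m = LaurentPolynomial.C cm)
    (hF : ∀ i, i < m → ∀ B : ℤ, (F.coeff i).coeff B ≠ 0 →
      -(((m : ℝ) - i) * n) ≤ B ∧ (B : ℝ) ≤ ((m : ℝ) - i) * y) (lam : k[T;T⁻¹])
    (hlam : ∀ i, i < m → (T 1 - LaurentPolynomial.C c) ^ (⌊((m : ℝ) - i) * (n + y)⌋₊ + 1) ∣
      (taylor lam F).coeff i) :
    ∃ lam' : k[T;T⁻¹], F = Polynomial.C (LaurentPolynomial.C cm) *
      (Polynomial.X - Polynomial.C lam') ^ m := by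
  set G' : (k[T;T⁻¹])[X] :=
    Polynomial.C (T (m * n)) * F.comp (Polynomial.C (T (-n)) * Polynomial.X) with hG'
  have hG'c : ∀ i, G'.coeff i = F.coeff i * T (((m : ℤ) - i) * n) := TLInt_scale m n F
  -- the coefficients are polynomials
  have hex : ∀ i, i < m → ∃ g : k[X], toLaurent g = G'.coeff i ∧
      ((g.natDegree : ℕ) : ℝ) ≤ ((m : ℝ) - i) * (n + y) := by
    intro i hi
    have hmi : (0 : ℝ) ≤ (m : ℝ) - i := by
      have : (i : ℝ) ≤ m := by exact_mod_cast hi.le
      linarith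
    refine TLInt_exists _ _ (mul_nonneg hmi hD) fun B hB => ?_
    rw [hG'c, TLInt_coeff_mul_T] at hB
    obtain ⟨h1, h2⟩ := hF i hi _ hB
    push_cast at h1 h2
    constructor
    · have h3 : (0 : ℝ) ≤ (B : ℝ) := by linarith
      exact_mod_cast h3
    · linarith
  choose! g hg1 hg2 using hex
  set G : k[X][X] := Polynomial.C (Polynomial.C cm) * Polynomial.X ^ m +
    ∑ i ∈ Finset.range m, Polynomial.monomial i (g i) with hG
  have hGc : ∀ i, i < m → G.coeff i = g i := by
    intro i hi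
    rw [hG, Polynomial.coeff_add, Polynomial.coeff_C_mul, Polynomial.coeff_X_pow,
      if_neg (by omega), mul_zero, zero_add, Polynomial.finset_sum_coeff]
    simp only [Polynomial.coeff_monomial]
    rw [Finset.sum_ite_eq' (Finset.range m) i, if_pos (Finset.mem_range.2 hi)]
  have hGm : G.coeff m = Polynomial.C cm := by
    rw [hG, Polynomial.coeff_add, Polynomial.coeff_C_mul, Polynomial.coeff_X_pow, if_pos rfl,
      mul_one, Polynomial.finset_sum_coeff]
    simp only [Polynomial.coeff_monomial]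
    rw [Finset.sum_ite_eq' (Finset.range m) m, if_neg (by simp), add_zero]
  have hGd : G.natDegree ≤ m := by
    rw [hG]
    refine (Polynomial.natDegree_add_le _ _).trans (max_le ?_ ?_)
    · exact Polynomial.natDegree_C_mul_X_pow_le _ _
    · refine Polynomial.natDegree_sum_le_of_forall_le _ _ fun i hi => ?_
      exact (Polynomial.natDegree_monomial_le _).trans (Finset.mem_range.1 hi).le
  have hG'd : G'.natDegree ≤ m := by
    rw [Polynomial.natDegree_le_iff_coeff_eq_zero]
    intro j hj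
    rw [hG'c, Polynomial.coeff_eq_zero_of_natDegree_lt (by omega), zero_mul]
  have hmap : G.map toLaurent = G' := by
    ext1 i
    rw [Polynomial.coeff_map]
    rcases lt_trichotomy i m with hi | hi | hi
    · rw [hGc i hi, hg1 i hi]
    · rw [hi, hGm, hG'c, htop, Polynomial.toLaurent_C, sub_self, zero_mul, T_zero, mul_one]
    · rw [Polynomial.coeff_eq_zero_of_natDegree_lt (by omega : G.natDegree < i),
        Polynomial.coeff_eq_zero_of_natDegree_lt (by omega : G'.natDegree < i), map_zero]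
  -- truncation of the translation
  obtain ⟨lam0, hlam0⟩ := laurent_trunc c hc (⌊(m : ℝ) * (n + y)⌋₊ + 1) (T n * lam)
  obtain ⟨lam', hl1, hl2⟩ := tl_poly m (n + y) hD c cm hcm G hGd hGm
    (fun i hi => by rw [hGc i hi]; exact hg2 i hi) lam0 (by
      intro i hi
      rw [← toLaurent_dvd c hc, ← Polynomial.coeff_map, Polynomial.map_taylor, hmap]
      have h1 := TLInt_dvd_sub G' (T n * lam) (toLaurent lam0) i
      have h2 : (T 1 - LaurentPolynomial.C c) ^ (⌊((m : ℝ) - i) * (n + y)⌋₊ + 1) ∣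
          (taylor (T n * lam) G').coeff i := by
        rw [hG', TLInt_taylor, TLInt_scale]
        exact (hlam i hi).mul_right _
      have h3 : (T 1 - LaurentPolynomial.C c : k[T;T⁻¹]) ^ (⌊((m : ℝ) - i) * (n + y)⌋₊ + 1) ∣
          (T 1 - LaurentPolynomial.C c) ^ (⌊(m : ℝ) * (n + y)⌋₊ + 1) := by
        refine pow_dvd_pow _ (Nat.add_le_add_right (Nat.floor_mono ?_) 1)
        have : (0 : ℝ) ≤ (i : ℝ) * (n + y) := mul_nonneg (Nat.cast_nonneg i) hD
        linarith
      have h4 := (h3.trans hlam0).trans h1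
      have h5 := dvd_sub h2 h4
      rwa [sub_sub_cancel] at h5)
  refine ⟨T (-n) * toLaurent lam', ?_⟩
  have h6 : G' = Polynomial.C (LaurentPolynomial.C cm) *
      (Polynomial.X - Polynomial.C (toLaurent lam')) ^ m := by
    rw [← hmap, hl2]
    simp only [Polynomial.map_mul, Polynomial.map_pow, Polynomial.map_sub, Polynomial.map_C,
      Polynomial.map_X, Polynomial.toLaurent_C]
  -- back to F
  have h7 : F = Polynomial.C (T (-(m * n))) *
      G'.comp (Polynomial.C (T n) * Polynomial.X) := by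
    rw [hG', Polynomial.mul_comp, Polynomial.C_comp, Polynomial.comp_assoc, ← mul_assoc,
      ← Polynomial.C_mul, mul_comm (T (-(m * n))) (T (m * n)), TLInt_T_inv, Polynomial.C_1,
      one_mul, Polynomial.mul_comp, Polynomial.C_comp, Polynomial.X_comp, ← mul_assoc,
      ← Polynomial.C_mul, mul_comm (T (-n)) (T n), TLInt_T_inv, Polynomial.C_1, one_mul,
      Polynomial.comp_X]
  rw [h7, h6, Polynomial.mul_comp, Polynomial.C_comp, Polynomial.pow_comp, Polynomial.sub_comp,
    Polynomial.X_comp, Polynomial.C_comp]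
  have h8 : (Polynomial.C (T n) * Polynomial.X - Polynomial.C (toLaurent lam') : (k[T;T⁻¹])[X]) =
      Polynomial.C (T n) * (Polynomial.X - Polynomial.C (T (-n) * toLaurent lam')) := by
    rw [mul_sub, ← Polynomial.C_mul, ← mul_assoc, TLInt_T_inv, one_mul]
  rw [h8, mul_pow, ← Polynomial.C_pow, T_pow]
  have h9 : (Polynomial.C (T (-(m * n))) * Polynomial.C (T (m * n)) : (k[T;T⁻¹])[X]) = 1 := by
    rw [← Polynomial.C_mul, mul_comm, TLInt_T_inv, Polynomial.C_1]
  linear_combination (Polynomial.C (LaurentPolynomial.C cm) *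
    (Polynomial.X - Polynomial.C (T (-n) * toLaurent lam')) ^ m) * h9

end LX
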