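import Mathlib

namespace LX

open Polynomial

theorem TLPoly.coeff_taylor {R : Type*} [CommRing R] (m : ℕ) (P : R[X]) (hP : P.natDegree ≤ m)
    (a : R) (i : ℕ) : (taylor a P).coeff i =
      ∑ j ∈ Finset.range (m + 1), ((j.choose i : ℕ) : R) * P.coeff j * a ^ (j - i) := by
  rw [taylor_coeff, hasseDeriv_apply, sum_over_range' P (fun n => by simp) (m + 1) (by omega),
    eval_finsetSum]
  refine Finset.sum_congr rfl fun j _ => ?_
  rw [eval_monomial]

/-- Window lemma over `k[T]`. If `G = cm Z^m + ∑_{i<m} G_i Z^i`, `deg G_i ≤ (m-i) D`, and after a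
translation `Z ↦ Z + lam` all coefficients `i < m` are divisible by `(T-c)^(e_i)`,
`e_i > (m-i) D`, then `G = cm (Z - lam')^m`.
Proof: `lam = lam0 + (T-c)^(⌊D⌋+1) lam1` with `deg lam0 ≤ ⌊D⌋`; the coefficients `i<m` of `G(Z+lam0)`
are still divisible by `(T-c)^(⌊(m-i)D⌋+1)` (translate `G(Z+lam)` back by `-(T-c)^(⌊D⌋+1) lam1`;
note `⌊(m-j)D⌋+1 + (j-i)(⌊D⌋+1) > (m-i)D`), but their degree is `≤ (m-i) D`: they vanish. -/
theorem tl_poly {k : Type*} [Field k] (m : ℕ) (D : ℝ) (hD : 0 ≤ D) (c cm : k) (hcm : cm ≠ 0)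
    (G : k[X][X]) (hdeg : G.natDegree ≤ m) (htop : G.coeff m = C cm)
    (hG : ∀ i, i < m → (((G.coeff i).natDegree : ℕ) : ℝ) ≤ ((m : ℝ) - i) * D) (lam : k[X])
    (hlam : ∀ i, i < m → (X - C c) ^ (⌊((m : ℝ) - i) * D⌋₊ + 1) ∣ (taylor lam G).coeff i) :
    ∃ lam' : k[X], lam'.natDegree ≤ ⌊D⌋₊ ∧ G = C (C cm) * (X - C lam') ^ m := by
  obtain ⟨r, hr⟩ : ∃ r : k[X], r = X - C c := ⟨_, rfl⟩
  rw [← hr] at hlam
  have hrm : r.Monic := by rw [hr]; exact monic_X_sub_C c
  have hrd : r.natDegree = 1 := by rw [hr]; exact natDegree_X_sub_C c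
  obtain ⟨n0, hn0⟩ : ∃ n0, n0 = ⌊D⌋₊ + 1 := ⟨_, rfl⟩
  have hn0D : D < n0 := by
    rw [hn0]
    push_cast
    exact Nat.lt_floor_add_one D
  have hpm : (r ^ n0).Monic := hrm.pow n0
  have hpd : (r ^ n0).natDegree = n0 := by rw [hrm.natDegree_pow, hrd, mul_one]
  obtain ⟨l0, hl0⟩ : ∃ l0, l0 = lam %ₘ (r ^ n0) := ⟨_, rfl⟩
  obtain ⟨l1, hl1⟩ : ∃ l1, l1 = lam /ₘ (r ^ n0) := ⟨_, rfl⟩
  have hlam1 : l0 + r ^ n0 * l1 = lam := by
    rw [hl0, hl1]
    exact modByMonic_add_div lam (r ^ n0)
  have hl0d : l0.natDegree ≤ ⌊D⌋₊ := by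
    have h1 : l0.degree < (r ^ n0).degree := by
      rw [hl0]
      exact degree_modByMonic_lt lam hpm
    have h2 : (r ^ n0).degree = (n0 : WithBot ℕ) := by
      rw [degree_eq_natDegree hpm.ne_zero, hpd]
    rw [h2] at h1
    have h3 : l0.natDegree < n0 := by
      by_cases h0 : l0 = 0
      · rw [h0, natDegree_zero, hn0]; omega
      · exact (natDegree_lt_iff_degree_lt h0).2 h1
    omega
  have hl0D : (l0.natDegree : ℝ) ≤ D := by
    have h1 : (l0.natDegree : ℝ) ≤ (⌊D⌋₊ : ℝ) := by exact_mod_cast hl0d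
    exact h1.trans (Nat.floor_le hD)
  obtain ⟨H, hH⟩ : ∃ H, H = taylor l0 G := ⟨_, rfl⟩
  have hHd : H.natDegree ≤ m := by rw [hH, natDegree_taylor]; exact hdeg
  have hH2 : H = taylor (-(r ^ n0 * l1)) (taylor lam G) := by
    have e1 : -(r ^ n0 * l1) + lam = l0 := by rw [← hlam1]; ring
    rw [hH, taylor_taylor, e1]
  have hHm : H.coeff m = C cm := by
    rw [hH, TLPoly.coeff_taylor m G hdeg l0 m, Finset.sum_range_succ]
    rw [Finset.sum_eq_zero (fun j hj => ?_)]
    · simp [htop]
    · rw [Nat.choose_eq_zero_of_lt (Finset.mem_range.1 hj)]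
      simp
  have hzero : ∀ i, i < m → H.coeff i = 0 := by
    intro i hi
    obtain ⟨e, he⟩ : ∃ e, e = ⌊((m : ℝ) - i) * D⌋₊ + 1 := ⟨_, rfl⟩
    have him : (i : ℝ) < m := by exact_mod_cast hi
    have hnn : 0 ≤ ((m : ℝ) - i) * D := mul_nonneg (by linarith) hD
    have heD : ((m : ℝ) - i) * D < e := by
      rw [he]
      push_cast
      exact Nat.lt_floor_add_one _
    -- divisibility
    have hdiv : r ^ e ∣ H.coeff i := by
      have hP : (taylor lam G).natDegree ≤ m := by rw [natDegree_taylor]; exact hdeg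
      rw [hH2, TLPoly.coeff_taylor m _ hP]
      refine Finset.dvd_sum fun j hj => ?_
      have hjm : j ≤ m := by
        have := Finset.mem_range.1 hj
        omega
      rcases lt_or_ge j i with hji | hij
      · rw [Nat.choose_eq_zero_of_lt hji]
        simp
      have ha : r ^ (n0 * (j - i)) ∣ (-(r ^ n0 * l1)) ^ (j - i) := by
        rw [← neg_mul, neg_mul_comm, mul_pow, ← pow_mul]
        exact Dvd.intro _ rfl
      rcases lt_or_ge j m with hj' | hj'
      · obtain ⟨ej, hej⟩ : ∃ e, e = ⌊((m : ℝ) - j) * D⌋₊ + 1 := ⟨_, rfl⟩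
        have h1 := hlam j hj'
        rw [← hej] at h1
        have h2 : ((m : ℝ) - j) * D < ej := by
          rw [hej]
          push_cast
          exact Nat.lt_floor_add_one _
        have h3 : e ≤ ej + n0 * (j - i) := by
          have h4 : ((m : ℝ) - i) * D < ((ej + n0 * (j - i) : ℕ) : ℝ) := by
            have h5 : ((j - i : ℕ) : ℝ) = (j : ℝ) - i := by push_cast [Nat.cast_sub hij]; ring
            have h6 : (0 : ℝ) ≤ (j : ℝ) - i := by
              have : (i : ℝ) ≤ j := by exact_mod_cast hij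
              linarith
            push_cast
            rw [h5]
            have h7 : D * ((j : ℝ) - i) ≤ n0 * ((j : ℝ) - i) := mul_le_mul_of_nonneg_right hn0D.le h6
            nlinarith
          rw [he]
          have h8 := (Nat.floor_lt hnn).2 h4
          omega
        refine (pow_dvd_pow r h3).trans ?_
        rw [pow_add]
        exact mul_dvd_mul (h1.mul_left _) ha
      · have hjm' : j = m := le_antisymm hjm hj'
        subst hjm'
        have h3 : e ≤ n0 * (j - i) := by
          have h4 : ((j : ℝ) - i) * D < ((n0 * (j - i) : ℕ) : ℝ) := by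
            have h5 : ((j - i : ℕ) : ℝ) = (j : ℝ) - i := by push_cast [Nat.cast_sub hij]; ring
            push_cast
            rw [h5, mul_comm]
            exact mul_lt_mul_of_pos_right hn0D (by linarith)
          rw [he]
          have h8 := (Nat.floor_lt hnn).2 h4
          omega
        exact ((pow_dvd_pow r h3).trans ha).mul_left _
    -- degree
    have hdg : ((H.coeff i).natDegree : ℝ) ≤ ((m : ℝ) - i) * D := by
      have h1 : (H.coeff i).natDegree ≤ ⌊((m : ℝ) - i) * D⌋₊ := by
        rw [hH, TLPoly.coeff_taylor m _ hdeg]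
        refine natDegree_sum_le_of_forall_le _ _ fun j hj => ?_
        have hjm : j ≤ m := by
          have := Finset.mem_range.1 hj
          omega
        rcases lt_or_ge j i with hji | hij
        · rw [Nat.choose_eq_zero_of_lt hji]
          simp
        have h2 : ((((j.choose i : ℕ) : k[X]) * G.coeff j * l0 ^ (j - i)).natDegree) ≤
            (G.coeff j).natDegree + (j - i) * l0.natDegree := by
          refine (natDegree_mul_le).trans (add_le_add ?_ natDegree_pow_le)
          refine (natDegree_mul_le).trans ?_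
          rw [natDegree_natCast, zero_add]
        refine h2.trans ?_
        rw [Nat.le_floor_iff hnn]
        push_cast [Nat.cast_sub hij]
        have h6 : (0 : ℝ) ≤ (j : ℝ) - i := by
          have : (i : ℝ) ≤ j := by exact_mod_cast hij
          linarith
        have h7 : ((j : ℝ) - i) * l0.natDegree ≤ ((j : ℝ) - i) * D := mul_le_mul_of_nonneg_left hl0D h6
        have h8 : ((G.coeff j).natDegree : ℝ) ≤ ((m : ℝ) - j) * D := by
          rcases lt_or_ge j m with hj' | hj'
          · exact hG j hj'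
          · have hjm' : j = m := le_antisymm hjm hj'
            subst hjm'
            rw [htop, natDegree_C]
            simp
        linarith
      have h2 : ((H.coeff i).natDegree : ℝ) ≤ (⌊((m : ℝ) - i) * D⌋₊ : ℝ) := by exact_mod_cast h1
      exact h2.trans (Nat.floor_le hnn)
    by_contra hne
    have h1 := natDegree_le_of_dvd hdiv hne
    rw [hrm.natDegree_pow, hrd, mul_one] at h1
    have h2 : (e : ℝ) ≤ ((H.coeff i).natDegree : ℝ) := by exact_mod_cast h1
    linarith
  have hHeq : H = C (C cm) * X ^ m := by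
    ext1 i
    rw [coeff_C_mul, coeff_X_pow]
    rcases lt_trichotomy i m with h | h | h
    · rw [hzero i h, if_neg h.ne, mul_zero]
    · rw [h, hHm, if_pos rfl, mul_one]
    · rw [coeff_eq_zero_of_natDegree_lt (lt_of_le_of_lt hHd h), if_neg h.ne', mul_zero]
  refine ⟨l0, hl0d, ?_⟩
  have hGH : G = taylor (-l0) H := by
    rw [hH, taylor_taylor]
    simp
  rw [hGH, hHeq, taylor_apply, mul_comp, C_comp, pow_comp, X_comp, C_neg, ← sub_eq_add_neg]

end LX
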