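import Pool.Agent.helper90.LX.Main
import Pool.Agent.helper90.LX.Sub
import Pool.Agent.LUV.Main
import Pool.Agent.helper75.LUVf.Fin

namespace LX

universe u

variable {k K : Type u} [Field k] [Field K] [Algebra k K]

/-- conversion between the rank and the finrank of the value group -/
theorem rank_aux [Algebra.EssFiniteType k K] (W : ValuationSubring K)
    (hr : Algebra.trdeg k K = Module.rank ℤ (Additive (W.ValueGroup)ˣ) + 1) :
    Algebra.trdeg k K = (Module.finrank ℤ (Additive (W.ValueGroup)ˣ) + 1 : ℕ) ∧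
      (¬ Group.FG (W.ValueGroup)ˣ → 0 < Module.finrank ℤ (Additive (W.ValueGroup)ˣ)) := by
  have hfin : Algebra.trdeg k K < Cardinal.aleph0 := _root_.trdeg_lt_aleph0 k K
  have hrank : Module.rank ℤ (Additive (W.ValueGroup)ˣ) < Cardinal.aleph0 :=
    lt_of_le_of_lt (by rw [hr]; exact self_le_add_right _ _) hfin
  have hr' : Algebra.trdeg k K = (Module.finrank ℤ (Additive (W.ValueGroup)ˣ) + 1 : ℕ) := by
    rw [hr, Module.finrank]
    push_cast
    rw [Cardinal.cast_toNat_of_lt_aleph0 hrank]
  refine ⟨hr', fun hfg => ?_⟩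
  rw [Nat.pos_iff_ne_zero]
  intro h0
  apply hfg
  have h1 : Module.rank ℤ (Additive (W.ValueGroup)ˣ) = 0 := by
    rw [Module.finrank, Cardinal.toNat_eq_zero] at h0
    rcases h0 with h0 | h0
    · exact h0
    · exact absurd hrank (not_lt.2 h0)
  have h2 := rank_eq_zero_iff.1 h1
  have h3 : Module.IsTorsionFree ℤ (Additive (W.ValueGroup)ˣ) := inferInstance
  have h4 : Subsingleton (Additive (W.ValueGroup)ˣ) := by
    refine ⟨fun a b => ?_⟩
    have h5 : ∀ c : Additive (W.ValueGroup)ˣ, c = 0 := fun c => by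
      obtain ⟨n, hn, hc⟩ := h2 c
      exact (smul_eq_zero.1 hc).resolve_left hn
    rw [h5 a, h5 b]
  have h6 : Finite (W.ValueGroup)ˣ := by
    have : Finite (Additive (W.ValueGroup)ˣ) := inferInstance
    exact Additive.toMul.finite_iff.1 this
  infer_instance

/-- The two cases (value group finitely generated or not) together, over a base field which is the
residue field. -/
theorem union_base [Algebra.EssFiniteType k K] (p : ℕ) [Fact p.Prime] [CharP k p]
    (W : ValuationSubring K) (hW : ∀ c : k, algebraMap k K c ∈ W)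
    (harch : MulArchimedean W.ValueGroup)
    (hres : ∀ x ∈ W, ∃ c : k, W.valuation (x - algebraMap k K c) < 1)
    (hr : Algebra.trdeg k K = Module.rank ℤ (Additive (W.ValueGroup)ˣ) + 1)
    (hk : IsAlgClosed k ∨ (Infinite k ∧ ¬ Group.FG (W.ValueGroup)ˣ)) :
    LU.Uniformizable k W := by
  obtain ⟨hr', h0⟩ := rank_aux W hr
  by_cases hfg : Group.FG (W.ValueGroup)ˣ
  · rcases hk with hk | ⟨-, hk⟩
    · refine LUV.luv_main p W hW harch hres hfg hr' (LUVf.pos_rank W hres hfg ?_)
      rw [hr']
      simp
    · exact absurd hfg hk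
  · have hinf : Infinite k := by
      rcases hk with hk | ⟨hk, -⟩
      · exact IsAlgClosed.instInfinite
      · exact hk
    exact lux_main p W hW harch hres hfg hr' (h0 hfg)

end LX
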