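import Mathlib

set_option autoImplicit false

namespace Pool.Agent.LX

open Polynomial

noncomputable section

variable {G : Type*} [AddCommGroup G] {R : Type*} [CommRing R]

/-- Partial sums of a Laurent expansion. -/
def tt (a : ℕ → G) (kap : ℕ → R) (l : ℕ) : AddMonoidAlgebra R G :=
  ∑ l' ∈ Finset.range l, AddMonoidAlgebra.single (a l') (kap l')

theorem tt_succ (a : ℕ → G) (kap : ℕ → R) (l : ℕ) :
    tt a kap (l + 1) = tt a kap l + AddMonoidAlgebra.single (a l) (kap l) := by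
  simp [tt, Finset.sum_range_succ]

/-- Evaluation of the `i`-th Hasse derivative at the `l`-th partial sum. -/
def ev (a : ℕ → G) (kap : ℕ → R) (h : (AddMonoidAlgebra R G)[X]) (i l : ℕ) : AddMonoidAlgebra R G :=
  (hasseDeriv i h).eval (tt a kap l)

theorem ev_zero (a : ℕ → G) (kap : ℕ → R) (h : (AddMonoidAlgebra R G)[X]) (l : ℕ) :
    ev a kap h 0 l = h.eval (tt a kap l) := by
  simp [ev]

theorem coeff_step (a : ℕ → G) (kap : ℕ → R) (h : (AddMonoidAlgebra R G)[X]) (l : ℕ) (A : G) :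
    (ev a kap h 0 (l + 1)).coeff A = (ev a kap h 0 l).coeff A +
      ∑ i ∈ Finset.range h.natDegree, (ev a kap h (i + 1) l).coeff (A - (i + 1) • a l) * kap l ^ (i + 1) := by
  have h1 : h.eval (tt a kap (l + 1)) =
      ∑ i ∈ Finset.range (h.natDegree + 1), ev a kap h i l * (AddMonoidAlgebra.single (a l) (kap l)) ^ i := by
    rw [tt_succ, add_comm, ← taylor_eval, eval_eq_sum_range' (n := h.natDegree + 1)]
    · refine Finset.sum_congr rfl fun i _ => ?_
      rw [taylor_coeff, ev]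
    · rw [natDegree_taylor]; omega
  rw [ev_zero, h1, Finset.sum_range_succ', AddMonoidAlgebra.coeff_add, AddMonoidAlgebra.coeff_sum]
  simp only [Finsupp.add_apply, Finsupp.finsetSum_apply, pow_zero, mul_one]
  rw [add_comm]
  congr 1
  refine Finset.sum_congr rfl fun i _ => ?_
  rw [AddMonoidAlgebra.single_pow, AddMonoidAlgebra.coeff_mul_single_apply, sub_eq_add_neg]

theorem ev_hasse (a : ℕ → G) (kap : ℕ → R) (h : (AddMonoidAlgebra R G)[X]) (i j l : ℕ) :
    ev a kap (hasseDeriv j h) i l = (i + j).choose i • ev a kap h (i + j) l := by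
  have h1 : hasseDeriv i (hasseDeriv j h) = (i + j).choose i • hasseDeriv (i + j) h := by
    have h2 := congrArg (fun f => f h) (hasseDeriv_comp (R := AddMonoidAlgebra R G) i j)
    simpa using h2
  rw [ev, h1, ev, eval_smul]

theorem ev_hasse_zero (a : ℕ → G) (kap : ℕ → R) (h : (AddMonoidAlgebra R G)[X]) (j l : ℕ) :
    ev a kap (hasseDeriv j h) 0 l = ev a kap h j l := by
  rw [ev_hasse]; simp

theorem ev_eq_zero (a : ℕ → G) (kap : ℕ → R) (h : (AddMonoidAlgebra R G)[X]) (i l : ℕ)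
    (hi : hasseDeriv i h = 0) : ev a kap h i l = 0 := by
  simp [ev, hi]

/-- Stability with a uniform gap. -/
def Stab (φ : G →+ ℝ) (a : ℕ → G) (kap : ℕ → R) (h : (AddMonoidAlgebra R G)[X]) : Prop :=
  ∃ (A0 : G) (b : R) (g : ℝ) (l0 : ℕ), b ≠ 0 ∧ 0 < g ∧ ∀ l, l0 ≤ l →
    (ev a kap h 0 l).coeff A0 = b ∧
    (∀ A, (ev a kap h 0 l).coeff A ≠ 0 → A ≠ A0 → φ A0 + g ≤ φ A) ∧
    ∀ i, 1 ≤ i → ∀ A, (ev a kap h i l).coeff A ≠ 0 → φ A0 < φ A + i * φ (a l)

/-- Stability, weak form. -/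
def WStab (φ : G →+ ℝ) (a : ℕ → G) (kap : ℕ → R) (h : (AddMonoidAlgebra R G)[X]) : Prop :=
  ∃ (w : ℝ) (l0 : ℕ), ∀ l, l0 ≤ l →
    (∃ A0, (ev a kap h 0 l).coeff A0 ≠ 0 ∧ φ A0 = w) ∧
    (∀ A, (ev a kap h 0 l).coeff A ≠ 0 → w ≤ φ A) ∧
    ∀ i, 1 ≤ i → ∀ A, (ev a kap h i l).coeff A ≠ 0 → w < φ A + i * φ (a l)

theorem exists_pos_le {α : Type*} (s : Finset α) (f : α → ℝ) (hf : ∀ x ∈ s, 0 < f x) :
    ∃ g : ℝ, 0 < g ∧ ∀ x ∈ s, g ≤ f x := by
  rcases s.eq_empty_or_nonempty with rfl | hs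
  · exact ⟨1, one_pos, by simp⟩
  · obtain ⟨x, hx, h⟩ := s.exists_min_image f hs
    exact ⟨f x, hf x hx, h⟩

theorem exists_nat_ge {α : Type*} (s : Finset α) (f : α → ℕ) (l0 : ℕ) :
    ∃ L : ℕ, l0 ≤ L ∧ ∀ x ∈ s, f x ≤ L :=
  ⟨l0 + s.sup f, by omega, fun x hx => (Finset.le_sup hx).trans (by omega)⟩

theorem gap {φ : G →+ ℝ} (hφ : Function.Injective φ) {a : ℕ → G} (hmono : StrictMono fun l => φ (a l))
    {kap : ℕ → R} {h : (AddMonoidAlgebra R G)[X]} (hW : WStab φ a kap h)
    (hS : ∀ i, 1 ≤ i → hasseDeriv i h ≠ 0 → Stab φ a kap (hasseDeriv i h)) : Stab φ a kap h := by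
  classical
  obtain ⟨w, l0, hw⟩ := hW
  have key : ∀ i : ℕ, ∃ (N : G) (L : ℕ), 1 ≤ i → hasseDeriv i h ≠ 0 →
      ∀ l, L ≤ l → (ev a kap h i l).coeff N ≠ 0 ∧ ∀ A, (ev a kap h i l).coeff A ≠ 0 → φ N ≤ φ A := by
    intro i
    by_cases h1 : 1 ≤ i ∧ hasseDeriv i h ≠ 0
    · obtain ⟨N, b, g, L, hb, hg, H⟩ := hS i h1.1 h1.2
      refine ⟨N, L, fun _ _ l hl => ?_⟩
      obtain ⟨H1, H2, -⟩ := H l hl
      rw [ev_hasse_zero] at H1 H2
      refine ⟨by rw [H1]; exact hb, fun A hA => ?_⟩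
      by_cases hAN : A = N
      · rw [hAN]
      · linarith [H2 A hA hAN]
    · exact ⟨0, 0, fun h2 h3 => absurd ⟨h2, h3⟩ h1⟩
  choose N L hNL using key
  obtain ⟨M, hM0, hM⟩ := exists_nat_ge (Finset.range (h.natDegree + 1)) L l0
  -- uniform gap for the added terms
  obtain ⟨γ, hγ, hγ'⟩ := exists_pos_le
    ((Finset.range (h.natDegree + 1)).filter fun i => 1 ≤ i ∧ hasseDeriv i h ≠ 0)
    (fun i => φ (N i) + i * φ (a M) - w) (by
      intro i hi
      rw [Finset.mem_filter, Finset.mem_range] at hi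
      obtain ⟨h1, -⟩ := hNL i hi.2.1 hi.2.2 M (hM i (Finset.mem_range.2 hi.1))
      have := (hw M hM0).2.2 i hi.2.1 _ h1
      linarith)
  have hadd : ∀ l, M ≤ l → ∀ i, 1 ≤ i → i ≤ h.natDegree → ∀ A, (ev a kap h i l).coeff A ≠ 0 →
      w + γ ≤ φ A + i * φ (a l) := by
    intro l hl i hi hi2 A hA
    have hne : hasseDeriv i h ≠ 0 := fun h0 => hA (by rw [ev_eq_zero _ _ _ _ _ h0]; simp)
    have h1 := hγ' i (Finset.mem_filter.2 ⟨Finset.mem_range.2 (by omega), hi, hne⟩)
    have h2 := (hNL i hi hne l ((hM i (Finset.mem_range.2 (by omega))).trans hl)).2 A hA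
    have h3 : φ (a M) ≤ φ (a l) := hmono.monotone hl
    have h4 : (i : ℝ) * φ (a M) ≤ i * φ (a l) := mul_le_mul_of_nonneg_left h3 (Nat.cast_nonneg i)
    linarith
  obtain ⟨A0, hA0, hA0w⟩ := (hw M hM0).1
  obtain ⟨g0, hg0, hg0'⟩ := exists_pos_le
    (((ev a kap h 0 M).coeff.support).erase A0) (fun A => φ A - w) (by
      intro A hA
      rw [Finset.mem_erase, Finsupp.mem_support_iff] at hA
      have h1 := (hw M hM0).2.1 A hA.2
      have h2 : φ A ≠ w := fun h3 => hA.1 (hφ (h3.trans hA0w.symm))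
      have := lt_of_le_of_ne h1 (Ne.symm h2)
      linarith)
  have main : ∀ k : ℕ, (ev a kap h 0 (M + k)).coeff A0 = (ev a kap h 0 M).coeff A0 ∧
      ∀ A, (ev a kap h 0 (M + k)).coeff A ≠ 0 → A ≠ A0 → φ A0 + min g0 γ ≤ φ A := by
    intro k
    induction k with
    | zero =>
      refine ⟨rfl, fun A hA hne => ?_⟩
      have := hg0' A (Finset.mem_erase.2 ⟨hne, Finsupp.mem_support_iff.2 hA⟩)
      have h2 := min_le_left g0 γ
      linarith
    | succ k ih =>
      have hstep : ∀ A, φ A < w + γ →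
          (ev a kap h 0 (M + (k + 1))).coeff A = (ev a kap h 0 (M + k)).coeff A := by
        intro A hA
        rw [← add_assoc, coeff_step]
        rw [Finset.sum_eq_zero, add_zero]
        intro i hi
        rw [Finset.mem_range] at hi
        by_contra h0
        have h1 := hadd (M + k) (by omega) (i + 1) (by omega) (by omega) _ (left_ne_zero_of_mul h0)
        rw [map_sub, map_nsmul, nsmul_eq_mul] at h1
        linarith
      refine ⟨?_, fun A hA hne => ?_⟩
      · rw [hstep A0 (by linarith), ih.1]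
      · by_cases hlt : φ A < w + γ
        · rw [hstep A hlt] at hA
          exact ih.2 A hA hne
        · have h2 := min_le_right g0 γ
          push Not at hlt
          linarith
  refine ⟨A0, (ev a kap h 0 M).coeff A0, min g0 γ, M, hA0, lt_min hg0 hγ, fun l hl => ?_⟩
  obtain ⟨k, rfl⟩ := Nat.exists_eq_add_of_le hl
  refine ⟨(main k).1, (main k).2, fun i hi A hA => ?_⟩
  rw [hA0w]
  exact (hw (M + k) (by omega)).2.2 i hi A hA

theorem choose_mul_mod {p : ℕ} (hp : p.Prime) (m : ℕ) : ∀ s : ℕ, (p ^ s * m).choose (p ^ s) ≡ m [MOD p]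
  | 0 => by simpa using Nat.ModEq.refl m
  | s + 1 => by
    have := Fact.mk hp
    have h1 := Choose.choose_modEq_choose_mod_mul_choose_div_nat (p := p) (n := p ^ (s + 1) * m)
      (k := p ^ (s + 1))
    have e1 : p ^ (s + 1) * m % p = 0 := by
      rw [pow_succ', mul_assoc]; exact Nat.mul_mod_right _ _
    have e2 : p ^ (s + 1) % p = 0 := by rw [pow_succ']; exact Nat.mul_mod_right _ _
    have e3 : p ^ (s + 1) * m / p = p ^ s * m := by
      rw [pow_succ', mul_assoc]; exact Nat.mul_div_cancel_left _ hp.pos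
    have e4 : p ^ (s + 1) / p = p ^ s := by rw [pow_succ']; exact Nat.mul_div_cancel_left _ hp.pos
    rw [e1, e2, e3, e4, Nat.choose_self, one_mul] at h1
    exact h1.trans (choose_mul_mod hp m s)

theorem pow_of_choose {p : ℕ} (hp : p.Prime) {i : ℕ} (hi : 1 ≤ i)
    (H : ∀ j, 0 < j → j < i → p ∣ i.choose j) : ∃ s, i = p ^ s := by
  obtain ⟨s, m, hm, rfl⟩ := Nat.exists_eq_pow_mul_and_not_dvd (by omega : i ≠ 0) p hp.ne_one
  refine ⟨s, ?_⟩
  by_contra hne
  have hps : 0 < p ^ s := pow_pos hp.pos s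
  have hm0 : m ≠ 0 := by rintro rfl; simp at hi
  have hm1 : m ≠ 1 := by rintro rfl; exact hne (mul_one _)
  have h1 := H (p ^ s) hps (by
    have : p ^ s * 1 < p ^ s * m := Nat.mul_lt_mul_of_pos_left (by omega) hps
    simpa using this)
  exact hm ((Nat.modEq_zero_iff_dvd.1 ((choose_mul_mod hp m s).symm.trans (Nat.modEq_zero_iff_dvd.2 h1))))

theorem wstab_step [IsDomain R] {p : ℕ} (hp : p.Prime) [CharP R p] {φ : G →+ ℝ} (hφ : Function.Injective φ)
    (ord : G → ℕ) (hord : ∀ E : G, E ≠ 0 → ∀ s : ℕ, ord (p ^ s • E) = s + ord E)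
    {a : ℕ → G} (hmono : StrictMono fun l => φ (a l)) (hbd : BddAbove (Set.range fun l => φ (a l)))
    {kap : ℕ → R} (hkap : ∀ l, kap l ≠ 0) (h : (AddMonoidAlgebra R G)[X]) (hn : 1 ≤ h.natDegree)
    (hS : ∀ i, 1 ≤ i → hasseDeriv i h ≠ 0 → Stab φ a kap (hasseDeriv i h)) : WStab φ a kap h := by
  classical
  set n := h.natDegree with hndef
  set η : ℝ := ⨆ l, φ (a l) with hη
  have hlt : ∀ l, φ (a l) < η := fun l => (hmono (Nat.lt_succ_self l)).trans_le (le_ciSup hbd (l + 1))
  have hlim : ∀ c : ℝ, 0 < c → ∀ i : ℕ, ∃ L : ℕ, ∀ l, L ≤ l → (i : ℝ) * (η - φ (a l)) ≤ c := by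
    intro c hc i
    have h1 : η - c / (i + 1) < ⨆ l, φ (a l) := by
      rw [← hη]; have : 0 < c / ((i : ℝ) + 1) := by positivity
      linarith
    obtain ⟨L, hL⟩ := exists_lt_of_lt_ciSup h1
    refine ⟨L, fun l hl => ?_⟩
    have h2 : φ (a L) ≤ φ (a l) := hmono.monotone hl
    have h3 : η - φ (a l) ≤ c / (i + 1) := by linarith
    have h4 : (i : ℝ) * (η - φ (a l)) ≤ i * (c / (i + 1)) := mul_le_mul_of_nonneg_left h3 (Nat.cast_nonneg i)
    have h5 : (i : ℝ) * (c / (i + 1)) ≤ c := by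
      rw [mul_div_assoc', div_le_iff₀ (by positivity)]
      nlinarith
    exact h4.trans h5
  have data : ∀ i : ℕ, ∃ (N : G) (b : R) (g : ℝ) (L : ℕ), 1 ≤ i → hasseDeriv i h ≠ 0 →
      b ≠ 0 ∧ 0 < g ∧ ∀ l, L ≤ l → (ev a kap h i l).coeff N = b ∧
        (∀ A, (ev a kap h i l).coeff A ≠ 0 → A ≠ N → φ N + g ≤ φ A) ∧
        ∀ j, 1 ≤ j → ∀ A, (ev a kap (hasseDeriv i h) j l).coeff A ≠ 0 → φ N < φ A + j * φ (a l) := by
    intro i
    by_cases h1 : 1 ≤ i ∧ hasseDeriv i h ≠ 0
    · obtain ⟨N, b, g, L, hb, hg, H⟩ := hS i h1.1 h1.2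
      refine ⟨N, b, g, L, fun _ _ => ⟨hb, hg, fun l hl => ?_⟩⟩
      obtain ⟨H1, H2, H3⟩ := H l hl
      rw [ev_hasse_zero] at H1 H2
      exact ⟨H1, H2, H3⟩
    · exact ⟨0, 0, 0, 0, fun h2 h3 => absurd ⟨h2, h3⟩ h1⟩
  choose N b g L hdata using data
  set J : Finset ℕ := (Finset.Ico 1 (n + 1)).filter fun i => hasseDeriv i h ≠ 0 with hJ
  have hJmem : ∀ i, i ∈ J ↔ (1 ≤ i ∧ i ≤ n) ∧ hasseDeriv i h ≠ 0 := by
    intro i; rw [hJ, Finset.mem_filter, Finset.mem_Ico, Nat.lt_succ_iff]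
  have hnJ : n ∈ J := by
    rw [hJmem]
    refine ⟨⟨hn, le_rfl⟩, fun h0 => ?_⟩
    have h1 : (hasseDeriv n h).coeff 0 = h.coeff n := by
      rw [hasseDeriv_coeff]; simp
    rw [h0, coeff_zero] at h1
    have h2 : h ≠ 0 := by rintro rfl; simp [hndef] at hn
    exact h2 (leadingCoeff_eq_zero.1 h1.symm)
  obtain ⟨im, him, hmin⟩ := J.exists_min_image (fun i => φ (N i) + i * η) ⟨n, hnJ⟩
  set mu : ℝ := φ (N im) + im * η with hmu
  set I : Finset ℕ := J.filter fun i => φ (N i) + i * η = mu with hI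
  have hImem : ∀ i, i ∈ I ↔ i ∈ J ∧ φ (N i) + i * η = mu := fun i => by rw [hI, Finset.mem_filter]
  have hIne : I.Nonempty := ⟨im, (hImem im).2 ⟨him, rfl⟩⟩
  set i0 : ℕ := I.max' hIne with hi0
  have hi0I : i0 ∈ I := I.max'_mem hIne
  have hle0 : ∀ i ∈ I, i ≤ i0 := fun i hi => I.le_max' i hi
  have hI1 : ∀ i ∈ I, 1 ≤ i := fun i hi => ((hJmem i).1 ((hImem i).1 hi).1).1.1
  have hID : ∀ i ∈ I, hasseDeriv i h ≠ 0 := fun i hi => ((hJmem i).1 ((hImem i).1 hi).1).2
  -- thresholds
  have thr : ∀ i : ℕ, ∃ L' : ℕ, i ∈ J → ∀ l, L' ≤ l →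
      (i ∈ I → mu ≤ φ (N i) + g i + i * φ (a l)) ∧ (i ∉ I → mu ≤ φ (N i) + i * φ (a l)) := by
    intro i
    by_cases hiJ : i ∈ J
    · by_cases hiI : i ∈ I
      · obtain ⟨L', hL'⟩ := hlim (g i) (hdata i (hI1 i hiI) (hID i hiI)).2.1 i
        refine ⟨L', fun _ l hl => ⟨fun _ => ?_, fun h1 => absurd hiI h1⟩⟩
        have h1 := hL' l hl
        have h2 := ((hImem i).1 hiI).2
        linarith
      · have h1 : mu < φ (N i) + i * η := by
          refine lt_of_le_of_ne (hmin i hiJ) fun h2 => hiI ((hImem i).2 ⟨hiJ, h2.symm⟩)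
        obtain ⟨L', hL'⟩ := hlim (φ (N i) + i * η - mu) (by linarith) i
        refine ⟨L', fun _ l hl => ⟨fun h2 => absurd h2 hiI, fun _ => ?_⟩⟩
        have h2 := hL' l hl
        linarith
    · exact ⟨0, fun h1 => absurd h1 hiJ⟩
  choose L' hL' using thr
  obtain ⟨M, -, hM⟩ := exists_nat_ge J (fun i => L i + L' i) 0
  have hML : ∀ i ∈ J, L i ≤ M := fun i hi => by have := hM i hi; omega
  have hML' : ∀ i ∈ J, L' i ≤ M := fun i hi => by have := hM i hi; omega
  set x : ℕ → ℕ → G := fun i l => N i + i • a l with hx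
  have hxlev : ∀ i ∈ I, ∀ l, φ (x i l) = mu - i * (η - φ (a l)) := by
    intro i hi l
    rw [hx]; simp only [map_add, map_nsmul, nsmul_eq_mul]
    have := ((hImem i).1 hi).2
    linarith
  have hxlt : ∀ i ∈ I, ∀ l, φ (x i l) < mu := by
    intro i hi l
    rw [hxlev i hi]
    have h1 : (0 : ℝ) < i := by exact_mod_cast hI1 i hi
    have h2 := hlt l
    nlinarith [mul_pos h1 (sub_pos.2 h2)]
  have hxle : ∀ i ∈ I, ∀ l, φ (x i0 l) ≤ φ (x i l) := by
    intro i hi l
    rw [hxlev i hi, hxlev i0 hi0I]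
    have h1 : (i : ℝ) ≤ i0 := by exact_mod_cast hle0 i hi
    have h2 := hlt l
    nlinarith [mul_nonneg (sub_nonneg.2 h1) (sub_pos.2 h2).le]
  have hxinj : ∀ l, ∀ i ∈ I, ∀ j ∈ I, x i l = x j l → i = j := by
    intro l i hi j hj hij
    have h1 : φ (x i l) = φ (x j l) := by rw [hij]
    rw [hxlev i hi, hxlev j hj] at h1
    have h2 := hlt l
    have h3 : ((i : ℝ) - j) * (η - φ (a l)) = 0 := by linarith
    rcases mul_eq_zero.1 h3 with h4 | h4
    · exact_mod_cast sub_eq_zero.1 h4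
    · linarith
  have hxmono : ∀ l l', l ≤ l' → φ (x i0 l) ≤ φ (x i0 l') := by
    intro l l' hl
    rw [hxlev i0 hi0I, hxlev i0 hi0I]
    have h1 : φ (a l) ≤ φ (a l') := hmono.monotone hl
    have h2 : (0 : ℝ) ≤ i0 := Nat.cast_nonneg _
    nlinarith [mul_nonneg h2 (sub_nonneg.2 h1)]
  have hxsmono : ∀ l, φ (x i0 l) < φ (x i0 (l + 1)) := by
    intro l
    rw [hxlev i0 hi0I, hxlev i0 hi0I]
    have h1 : φ (a l) < φ (a (l + 1)) := hmono (Nat.lt_succ_self l)
    have h2 : (0 : ℝ) < i0 := by exact_mod_cast hI1 i0 hi0I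
    nlinarith [mul_pos h2 (sub_pos.2 h1)]
  -- the jump formula
  have jump : ∀ l, M ≤ l → ∀ A, φ A < mu → (ev a kap h 0 (l + 1)).coeff A =
      (ev a kap h 0 l).coeff A + ∑ i ∈ I, if A = x i l then b i * kap l ^ i else 0 := by
    intro l hl A hA
    rw [coeff_step]
    congr 1
    have e1 : ∑ i ∈ Finset.range h.natDegree,
        (ev a kap h (i + 1) l).coeff (A - (i + 1) • a l) * kap l ^ (i + 1) =
        ∑ i ∈ Finset.Ico 1 (n + 1), (ev a kap h i l).coeff (A - i • a l) * kap l ^ i := by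
      rw [Finset.sum_Ico_eq_sum_range, ← hndef]
      refine Finset.sum_congr (by simp) fun i _ => ?_
      rw [add_comm 1 i]
    rw [e1]
    have hsub : I ⊆ Finset.Ico 1 (n + 1) := (Finset.filter_subset _ _).trans (Finset.filter_subset _ _)
    rw [← Finset.sum_subset hsub]
    · refine Finset.sum_congr rfl fun i hi => ?_
      have hiJ := ((hImem i).1 hi).1
      obtain ⟨-, -, H⟩ := hdata i (hI1 i hi) (hID i hi)
      obtain ⟨H1, H2, -⟩ := H l ((hML i hiJ).trans hl)
      split_ifs with h1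
      · rw [h1]
        have : x i l - i • a l = N i := by rw [hx]; simp
        rw [this, H1]
      · by_contra h0
        have h2 := H2 _ (left_ne_zero_of_mul h0) (fun h3 => h1 (by rw [hx]; simp only; rw [← h3]; abel))
        have h3 := (hL' i hiJ l ((hML' i hiJ).trans hl)).1 hi
        rw [map_sub, map_nsmul, nsmul_eq_mul] at h2
        linarith
    · intro i hi hiI
      by_contra h0
      have h1 : hasseDeriv i h ≠ 0 := fun h2 => h0 (by rw [ev_eq_zero _ _ _ _ _ h2]; simp)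
      rw [Finset.mem_Ico] at hi
      have hiJ : i ∈ J := (hJmem i).2 ⟨⟨hi.1, by omega⟩, h1⟩
      obtain ⟨-, hg, H⟩ := hdata i hi.1 h1
      obtain ⟨H1, H2, -⟩ := H l ((hML i hiJ).trans hl)
      have h3 := (hL' i hiJ l ((hML' i hiJ).trans hl)).2 hiI
      have h4 : φ (N i) ≤ φ (A - i • a l) := by
        by_cases h5 : A - i • a l = N i
        · rw [h5]
        · have := H2 _ (left_ne_zero_of_mul h0) h5
          linarith
      rw [map_sub, map_nsmul, nsmul_eq_mul] at h4
      linarith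
  -- elements of I are powers of p
  have hpow : ∀ i ∈ I, ∃ s, i = p ^ s := by
    intro i hi
    refine pow_of_choose hp (hI1 i hi) fun j hj hji => ?_
    by_contra hnd
    have hc : ((i.choose j : ℕ) : R) ≠ 0 := fun h0 => hnd ((CharP.cast_eq_zero_iff R p _).1 h0)
    have hiJ := ((hImem i).1 hi).1
    obtain ⟨hb, hg, H⟩ := hdata i (hI1 i hi) (hID i hi)
    obtain ⟨H1, -, -⟩ := H (M + L (i - j)) ((hML i hiJ).trans (by omega))
    have e1 : j + (i - j) = i := by omega
    have h1 : (ev a kap (hasseDeriv (i - j) h) j (M + L (i - j))).coeff (N i) ≠ 0 := by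
      rw [ev_hasse, e1, AddMonoidAlgebra.coeff_smul, Finsupp.smul_apply, H1, nsmul_eq_mul]
      exact mul_ne_zero hc hb
    have h2 : hasseDeriv (i - j) h ≠ 0 := fun h0 => h1 (by simp [ev, h0])
    have h3 := ((hdata (i - j) (by omega) h2).2.2 (M + L (i - j)) (by omega)).2.2 j hj _ h1
    have h4 : i - j ∈ J := (hJmem _).2 ⟨⟨by omega, by have := ((hJmem i).1 hiJ).1.2; omega⟩, h2⟩
    have h5 := hmin _ h4
    have h6 := ((hImem i).1 hi).2
    have h7 := hlt (M + L (i - j))
    have h8 : (0 : ℝ) < j := by exact_mod_cast hj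
    have h9 : ((i - j : ℕ) : ℝ) = i - j := by rw [Nat.cast_sub hji.le]
    rw [h9] at h5
    nlinarith [mul_pos h8 (sub_pos.2 h7)]
  -- the order function
  have hθ : ∃ θ : G → ℕ, ∀ l, ∀ i ∈ I, i ≠ i0 → θ (x i l) < θ (x i0 l) := by
    by_cases hex : ∃ i1 ∈ I, i1 ≠ i0
    · obtain ⟨i1, hi1, hne⟩ := hex
      have hlt1 : i1 < i0 := lt_of_le_of_ne (hle0 i1 hi1) hne
      set D : ℕ := i0 - i1 with hD
      have hDr : (D : ℝ) = i0 - i1 := by rw [hD, Nat.cast_sub hlt1.le]
      set M0 : G := D • N i0 + i0 • (N i1 - N i0) with hM0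
      have hE : ∀ l, ∀ i ∈ I, M0 - D • x i l = i • ((N i1 - N i0) - D • a l) := by
        intro l i hi
        apply hφ
        have e0 := ((hImem i0).1 hi0I).2
        have e1 := ((hImem i1).1 hi1).2
        have e2 := hxlev i hi l
        have e3 : φ (N i1) - φ (N i0) = D * η := by rw [hDr]; linarith
        have e4 : φ (N i0) = mu - i0 * η := by linarith
        simp only [hM0, map_sub, map_add, map_nsmul, nsmul_eq_mul, e2]
        rw [e3, e4]
        ring
      have hE0 : ∀ l, (N i1 - N i0) - D • a l ≠ 0 := by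
        intro l h0
        have h1 : φ ((N i1 - N i0) - D • a l) = 0 := by rw [h0, map_zero]
        have e0 := ((hImem i0).1 hi0I).2
        have e1 := ((hImem i1).1 hi1).2
        simp only [map_sub, map_nsmul, nsmul_eq_mul] at h1
        have h2 : (0 : ℝ) < D := by exact_mod_cast (by omega : 0 < D)
        have h3 := hlt l
        have h4 : (D : ℝ) * (η - φ (a l)) = 0 := by
          have : φ (N i1) - φ (N i0) = D * η := by rw [hDr]; linarith
          linarith
        nlinarith [mul_pos h2 (sub_pos.2 h3)]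
      refine ⟨fun y => ord (M0 - D • y), fun l i hi hine => ?_⟩
      simp only
      rw [hE l i hi, hE l i0 hi0I]
      obtain ⟨s, hs⟩ := hpow i hi
      obtain ⟨s0, hs0⟩ := hpow i0 hi0I
      have hlt2 : i < i0 := lt_of_le_of_ne (hle0 i hi) hine
      have hss : s < s0 := by
        rw [hs, hs0] at hlt2
        exact (Nat.pow_lt_pow_iff_right hp.one_lt).1 hlt2
      have e := hord _ (hE0 l) s
      have e0 := hord _ (hE0 l) s0
      rw [← hs] at e
      rw [← hs0] at e0
      rw [e, e0]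
      omega
    · push Not at hex
      exact ⟨fun _ => 0, fun l i hi hine => absurd (hex i hi) hine⟩
  obtain ⟨θ, hθ⟩ := hθ
  by_cases hcase : ∃ l1, M ≤ l1 ∧ ∃ A, (ev a kap h 0 l1).coeff A ≠ 0 ∧ φ A < φ (x i0 l1)
  · obtain ⟨l1, hl1, A1, hA1, hA1lt⟩ := hcase
    obtain ⟨As, hAs, hAsmin⟩ := ((ev a kap h 0 l1).coeff.support).exists_min_image (fun A => φ A)
      ⟨A1, Finsupp.mem_support_iff.2 hA1⟩
    rw [Finsupp.mem_support_iff] at hAs
    have hw : φ As < φ (x i0 l1) := (hAsmin A1 (Finsupp.mem_support_iff.2 hA1)).trans_lt hA1lt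
    have main : ∀ k : ℕ, (ev a kap h 0 (l1 + k)).coeff As ≠ 0 ∧
        ∀ A, (ev a kap h 0 (l1 + k)).coeff A ≠ 0 → φ As ≤ φ A := by
      intro k
      induction k with
      | zero => exact ⟨hAs, fun A hA => hAsmin A (Finsupp.mem_support_iff.2 hA)⟩
      | succ k ih =>
        have hst : ∀ A, φ A ≤ φ As → (ev a kap h 0 (l1 + (k + 1))).coeff A = (ev a kap h 0 (l1 + k)).coeff A := by
          intro A hA
          have h1 : φ A < φ (x i0 (l1 + k)) := (hA.trans_lt hw).trans_le (hxmono _ _ (by omega))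
          rw [← add_assoc, jump (l1 + k) (by omega) A (h1.trans (hxlt i0 hi0I _)), Finset.sum_eq_zero, add_zero]
          intro i hi
          rw [if_neg]
          rintro rfl
          exact absurd (hxle i hi (l1 + k)) (not_le.2 h1)
        refine ⟨by rw [hst As le_rfl]; exact ih.1, fun A hA => ?_⟩
        by_contra hlt1
        push Not at hlt1
        rw [hst A hlt1.le] at hA
        exact absurd (ih.2 A hA) (not_le.2 hlt1)
    refine ⟨φ As, l1, fun l hl => ?_⟩
    obtain ⟨k, rfl⟩ := Nat.exists_eq_add_of_le hl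
    refine ⟨⟨As, (main k).1, rfl⟩, (main k).2, fun i hi A hA => ?_⟩
    have h1 : hasseDeriv i h ≠ 0 := fun h2 => hA (by rw [ev_eq_zero _ _ _ _ _ h2]; simp)
    have hin : i ≤ n := by
      by_contra h2
      exact h1 (hasseDeriv_eq_zero_of_lt_natDegree _ _ (by omega))
    have hiJ : i ∈ J := (hJmem i).2 ⟨⟨hi, hin⟩, h1⟩
    obtain ⟨-, hg, H⟩ := hdata i hi h1
    obtain ⟨H1, H2, -⟩ := H (l1 + k) ((hML i hiJ).trans (by omega))
    have h4 : φ (N i) ≤ φ A := by
      by_cases h5 : A = N i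
      · rw [h5]
      · have := H2 _ hA h5
        linarith
    have h5 : φ (x i0 l1) ≤ φ (x i0 (l1 + k)) := hxmono _ _ (by omega)
    by_cases hiI : i ∈ I
    · have h6 := hxle i hiI (l1 + k)
      have h7 : φ (x i (l1 + k)) = φ (N i) + i * φ (a (l1 + k)) := by
        rw [hx]; simp only [map_add, map_nsmul, nsmul_eq_mul]
      linarith
    · have h6 := (hL' i hiJ (l1 + k) ((hML' i hiJ).trans (by omega))).2 hiI
      have h7 := hxlt i0 hi0I (l1 + k)
      linarith
  · push Not at hcase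
    exfalso
    set c : ℕ := I.card + 1 with hc
    set f : ℕ → ℕ := fun l => ∑ y ∈ (ev a kap h 0 l).coeff.support.filter (fun A => φ A < mu), c ^ θ y with hf
    have hdec : ∀ l, M ≤ l → f (l + 1) < f l := by
      intro l hl
      set S := (ev a kap h 0 l).coeff.support.filter (fun A => φ A < mu) with hSdef
      set S' := (ev a kap h 0 (l + 1)).coeff.support.filter (fun A => φ A < mu) with hS'def
      have hz : (ev a kap h 0 (l + 1)).coeff (x i0 l) = 0 := by
        by_contra h0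
        exact absurd (hcase (l + 1) (by omega) _ h0) (not_le.2 (hxsmono l))
      have hsum : ∑ i ∈ I, (if x i0 l = x i l then b i * kap l ^ i else 0) = b i0 * kap l ^ i0 := by
        rw [Finset.sum_eq_single i0]
        · rw [if_pos rfl]
        · intro i hi hne
          rw [if_neg fun h1 => hne (hxinj l i0 hi0I i hi h1).symm]
        · intro h1; exact absurd hi0I h1
      have hmem : x i0 l ∈ S := by
        rw [hSdef, Finset.mem_filter, Finsupp.mem_support_iff]
        refine ⟨fun h0 => ?_, hxlt i0 hi0I l⟩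
        have h1 := jump l hl (x i0 l) (hxlt i0 hi0I l)
        rw [hz, h0, hsum, zero_add] at h1
        exact mul_ne_zero (hdata i0 (hI1 i0 hi0I) (hID i0 hi0I)).1 (pow_ne_zero _ (hkap l)) h1.symm
      have hsub : S' ⊆ S.erase (x i0 l) ∪ (I.erase i0).image (fun i => x i l) := by
        intro A hA
        rw [hS'def, Finset.mem_filter, Finsupp.mem_support_iff] at hA
        rw [Finset.mem_union, Finset.mem_erase, Finset.mem_image]
        have hne : A ≠ x i0 l := fun h1 => hA.1 (by rw [h1]; exact hz)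
        by_cases h2 : ∃ i ∈ I.erase i0, x i l = A
        · exact Or.inr h2
        · left
          refine ⟨hne, ?_⟩
          rw [hSdef, Finset.mem_filter, Finsupp.mem_support_iff]
          refine ⟨?_, hA.2⟩
          have h3 := jump l hl A hA.2
          rw [Finset.sum_eq_zero, add_zero] at h3
          · rw [← h3]; exact hA.1
          · intro i hi
            rw [if_neg]
            intro h4
            by_cases h5 : i = i0
            · exact hne (by rw [h4, h5])
            · exact h2 ⟨i, Finset.mem_erase.2 ⟨h5, hi⟩, h4.symm⟩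
      have h1 : f (l + 1) ≤ ∑ y ∈ S.erase (x i0 l), c ^ θ y + ∑ i ∈ I.erase i0, c ^ θ (x i l) := by
        calc f (l + 1) = ∑ y ∈ S', c ^ θ y := rfl
          _ ≤ ∑ y ∈ S.erase (x i0 l) ∪ (I.erase i0).image (fun i => x i l), c ^ θ y :=
              Finset.sum_le_sum_of_subset hsub
          _ ≤ ∑ y ∈ S.erase (x i0 l), c ^ θ y + ∑ y ∈ (I.erase i0).image (fun i => x i l), c ^ θ y := by
              rw [← Finset.sum_union_inter]; exact Nat.le_add_right _ _
          _ = _ := by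
              congr 1
              rw [Finset.sum_image]
              intro i hi j hj hij
              exact hxinj l i (Finset.mem_of_mem_erase hi) j (Finset.mem_of_mem_erase hj) hij
      have h2 : f l = ∑ y ∈ S.erase (x i0 l), c ^ θ y + c ^ θ (x i0 l) := by
        rw [hf]; exact (Finset.sum_erase_add S _ hmem).symm
      have h3 : ∑ i ∈ I.erase i0, c ^ θ (x i l) < c ^ θ (x i0 l) := by
        rcases (I.erase i0).eq_empty_or_nonempty with h4 | h4
        · rw [h4, Finset.sum_empty]; exact pow_pos (by omega) _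
        · obtain ⟨j, hj⟩ := h4
          have h5 := hθ l j (Finset.mem_of_mem_erase hj) (Finset.ne_of_mem_erase hj)
          calc ∑ i ∈ I.erase i0, c ^ θ (x i l) ≤ ∑ _i ∈ I.erase i0, c ^ (θ (x i0 l) - 1) := by
                refine Finset.sum_le_sum fun i hi => Nat.pow_le_pow_right (by omega) ?_
                have := hθ l i (Finset.mem_of_mem_erase hi) (Finset.ne_of_mem_erase hi)
                omega
            _ = (I.erase i0).card * c ^ (θ (x i0 l) - 1) := by rw [Finset.sum_const, smul_eq_mul]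
            _ < c * c ^ (θ (x i0 l) - 1) := by
                refine Nat.mul_lt_mul_of_pos_right ?_ (pow_pos (by omega) _)
                have := Finset.card_le_card (Finset.erase_subset i0 I)
                omega
            _ = c ^ θ (x i0 l) := by
                rw [← pow_succ']; congr 1; omega
      omega
    have hdesc : ∀ k, f (M + k) + k ≤ f M := by
      intro k
      induction k with
      | zero => simp
      | succ k ih =>
        have := hdec (M + k) (by omega)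
        have e : M + (k + 1) = M + k + 1 := by omega
        rw [e]
        omega
    have := hdesc (f M + 1)
    omega

end

end Pool.Agent.LX
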