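import Mathlib

/-! The window lemma (TL) of the paper on local uniformization in rank one. -/

open Polynomial
open scoped LaurentPolynomial

namespace Pool.Agent.helper10.LXT

variable {k : Type*} [Field k]

/-- All exponents of `g` lie in `[lo, hi]`. -/
def Win (lo hi : ℝ) (g : k[T;T⁻¹]) : Prop :=
  ∀ B : ℤ, g.coeff B ≠ 0 → lo ≤ (B : ℝ) ∧ (B : ℝ) ≤ hi

theorem win_zero (lo hi : ℝ) : Win lo hi (0 : k[T;T⁻¹]) := by
  intro B h; simp at h

theorem win_one : Win 0 0 (1 : k[T;T⁻¹]) := by
  intro B h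
  have : (1 : k[T;T⁻¹]) = LaurentPolynomial.C 1 := by simp
  rw [this, LaurentPolynomial.C_apply] at h
  split_ifs at h with h0
  · subst h0; simp
  · exact absurd rfl h

theorem win_C (a : k) : Win 0 0 (LaurentPolynomial.C a : k[T;T⁻¹]) := by
  intro B h
  rw [LaurentPolynomial.C_apply] at h
  split_ifs at h with h0
  · subst h0; simp
  · exact absurd rfl h

theorem Win.mono {lo hi lo' hi' : ℝ} {g : k[T;T⁻¹]} (h : Win lo hi g) (h1 : lo' ≤ lo)
    (h2 : hi ≤ hi') : Win lo' hi' g := fun B hB => ⟨h1.trans (h B hB).1, (h B hB).2.trans h2⟩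

theorem Win.add {lo hi : ℝ} {f g : k[T;T⁻¹]} (hf : Win lo hi f) (hg : Win lo hi g) :
    Win lo hi (f + g) := by
  intro B h
  by_cases h0 : f.coeff B = 0
  · apply hg B
    intro h1
    apply h
    simp [h0, h1]
  · exact hf B h0

theorem Win.sum {ι : Type*} {lo hi : ℝ} {f : ι → k[T;T⁻¹]} (s : Finset ι)
    (hf : ∀ i ∈ s, Win lo hi (f i)) : Win lo hi (∑ i ∈ s, f i) := by
  classical
  induction s using Finset.induction_on with
  | empty => simpa using win_zero lo hi
  | insert a s ha ih =>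
    rw [Finset.sum_insert ha]
    exact (hf a (by simp)).add (ih fun i hi => hf i (by simp [hi]))

theorem Win.mul {lo hi lo' hi' : ℝ} {f g : k[T;T⁻¹]} (hf : Win lo hi f) (hg : Win lo' hi' g) :
    Win (lo + lo') (hi + hi') (f * g) := by
  classical
  intro B h
  by_contra hcon
  apply h
  rw [AddMonoidAlgebra.coeff_mul]
  refine Finset.sum_eq_zero fun a ha => Finset.sum_eq_zero fun b hb => if_neg fun hab => hcon ?_
  have h1 := hf a (Finsupp.mem_support_iff.1 ha)
  have h2 := hg b (Finsupp.mem_support_iff.1 hb)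
  rw [← hab]
  push_cast
  exact ⟨by linarith [h1.1, h2.1], by linarith [h1.2, h2.2]⟩

theorem Win.pow {lo hi : ℝ} {f : k[T;T⁻¹]} (hf : Win lo hi f) (n : ℕ) :
    Win (n * lo) (n * hi) (f ^ n) := by
  induction n with
  | zero => simpa using win_one (k := k)
  | succ n ih =>
    rw [pow_succ]
    exact (ih.mul hf).mono (by push_cast; linarith) (by push_cast; linarith)

theorem Win.nat_mul {lo hi : ℝ} {f : k[T;T⁻¹]} (hf : Win lo hi f) (n : ℕ) :
    Win lo hi ((n : k[T;T⁻¹]) * f) := by
  have h : Win 0 0 ((n : k[T;T⁻¹])) := by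
    have := win_C (n : k)
    rwa [map_natCast] at this
  simpa using h.mul hf

/-- The element `T - c`. -/
noncomputable def pT (c : k) : k[T;T⁻¹] := LaurentPolynomial.T 1 - LaurentPolynomial.C c

theorem pT_eq (c : k) : pT c = toLaurent (X - C c : k[X]) := by
  rw [map_sub, toLaurent_X, toLaurent_C]; rfl

theorem coprime_X {c : k} (hc : c ≠ 0) (n M : ℕ) : IsCoprime ((X : k[X]) ^ n) ((X - C c) ^ M) := by
  apply IsCoprime.pow
  refine ⟨C c⁻¹, - C c⁻¹, ?_⟩
  have : (C c⁻¹ : k[X]) * C c = 1 := by rw [← C_mul, inv_mul_cancel₀ hc, C_1]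
  linear_combination this

/-- Divisibility by a power of `T - c` comes down to `k[X]`. -/
theorem dvd_of_dvd {c : k} (hc : c ≠ 0) {e : ℕ} {q : k[X]} (h : pT c ^ e ∣ toLaurent q) :
    (X - C c) ^ e ∣ q := by
  obtain ⟨g, hg⟩ := h
  obtain ⟨n, g', hg'⟩ := g.exists_T_pow
  have h1 : toLaurent (q * X ^ n) = toLaurent ((X - C c) ^ e * g') := by
    rw [map_mul, toLaurent_X_pow, hg, map_mul, hg', map_pow, ← pT_eq, mul_assoc]
  have h2 : q * X ^ n = (X - C c) ^ e * g' := Polynomial.toLaurent_injective h1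
  exact (coprime_X hc n e).symm.dvd_of_dvd_mul_right ⟨g', h2⟩

/-- A Laurent polynomial divisible by more factors `T - c` than the length of its window is zero. -/
theorem win_eq_zero {c : k} (hc : c ≠ 0) {e : ℕ} {lo hi : ℝ} {g : k[T;T⁻¹]} (hg : Win lo hi g)
    (h : pT c ^ e ∣ g) (he : hi - lo < e) : g = 0 := by
  by_contra hne
  obtain ⟨n, q, hq⟩ := g.exists_T_pow
  have hq0 : q ≠ 0 := by
    rintro rfl
    rw [map_zero] at hq
    have : g = 0 := by
      have h2 : g * LaurentPolynomial.T n * LaurentPolynomial.T (-n) = g := by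
        rw [LaurentPolynomial.mul_T_assoc]; simp
      rw [← h2, ← hq, zero_mul]
    exact hne this
  have hwin : ∀ i : ℕ, q.coeff i ≠ 0 → lo + n ≤ (i : ℝ) ∧ (i : ℝ) ≤ hi + n := by
    have hT : Win (n : ℝ) n (LaurentPolynomial.T (n : ℤ) : k[T;T⁻¹]) := by
      intro B hB
      rw [LaurentPolynomial.T_apply] at hB
      split_ifs at hB with h0
      · rw [← h0]; simp
      · exact absurd rfl hB
    have h3 := hg.mul hT
    rw [← hq] at h3
    intro i hi0
    have := h3 (i : ℤ) (by
      rw [← Finsupp.mem_support_iff, LaurentPolynomial.support_coeff_toLaurent]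
      exact Finset.mem_map.2 ⟨i, Polynomial.mem_support_iff.2 hi0, rfl⟩)
    simpa using this
  have hd : (X - C c) ^ e ∣ q := dvd_of_dvd hc (hq ▸ Dvd.dvd.mul_right h _)
  obtain ⟨q', hq'⟩ : (X : k[X]) ^ q.natTrailingDegree ∣ q :=
    X_pow_dvd_iff.2 fun d hd => coeff_eq_zero_of_lt_natTrailingDegree hd
  have hd' : (X - C c) ^ e ∣ q' := by
    apply (coprime_X hc q.natTrailingDegree e).symm.dvd_of_dvd_mul_left
    rw [← hq']; exact hd
  have hq'0 : q' ≠ 0 := by rintro rfl; exact hq0 (by rw [hq', mul_zero])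
  have h4 : e ≤ q'.natDegree := by
    have := natDegree_le_of_dvd hd' hq'0
    rwa [natDegree_pow, natDegree_X_sub_C, mul_one] at this
  have h5 : q.natDegree = q.natTrailingDegree + q'.natDegree := by
    conv_lhs => rw [hq']
    rw [natDegree_mul (pow_ne_zero _ X_ne_zero) hq'0, natDegree_X_pow]
  have h6 := (hwin q.natDegree (by simpa using hq0)).2
  have h7 := (hwin q.natTrailingDegree (by
    have := trailingCoeff_nonzero_iff_nonzero.2 hq0
    exact this)).1
  rw [h5] at h6
  push_cast at h6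
  have : (e : ℝ) ≤ q'.natDegree := by exact_mod_cast h4
  linarith

/-- Every Laurent polynomial is congruent modulo `(T - c)^M` to one with exponents in
`[p, p + M)`. -/
theorem exists_trunc {c : k} (hc : c ≠ 0) (p : ℤ) (M : ℕ) (g : k[T;T⁻¹]) :
    ∃ μ : k[T;T⁻¹], (∀ B : ℤ, μ.coeff B ≠ 0 → p ≤ B ∧ B < p + M) ∧ pT c ^ M ∣ μ - g := by
  obtain ⟨n, g', hg'⟩ := (g * LaurentPolynomial.T (-p)).exists_T_pow
  obtain ⟨a, b, hab⟩ := coprime_X hc n M
  have hmon : ((X - C c : k[X]) ^ M).Monic := (monic_X_sub_C c).pow M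
  set q : k[X] := (a * g') %ₘ ((X - C c) ^ M) with hq
  have hqd : ∀ i : ℕ, q.coeff i ≠ 0 → i < M := by
    intro i hi
    by_contra hcon
    apply hi
    apply coeff_eq_zero_of_degree_lt
    refine lt_of_lt_of_le (degree_modByMonic_lt _ hmon) ?_
    rw [degree_pow, degree_X_sub_C, nsmul_one]
    exact_mod_cast not_lt.1 hcon
  refine ⟨toLaurent q * LaurentPolynomial.T p, ?_, ?_⟩
  · intro B hB
    have hT : Win (p : ℝ) p (LaurentPolynomial.T p : k[T;T⁻¹]) := by
      intro B hB
      rw [LaurentPolynomial.T_apply] at hB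
      split_ifs at hB with h0
      · rw [← h0]; simp
      · exact absurd rfl hB
    have hqw : Win 0 ((M : ℝ) - 1) (toLaurent q) := by
      intro B hB
      rw [← Finsupp.mem_support_iff, LaurentPolynomial.support_coeff_toLaurent] at hB
      obtain ⟨i, hi, rfl⟩ := Finset.mem_map.1 hB
      have := hqd i (Polynomial.mem_support_iff.1 hi)
      have h2 : ((i : ℝ)) + 1 ≤ M := by exact_mod_cast this
      simp only [Nat.castEmbedding_apply, Int.cast_natCast, Nat.cast_nonneg, true_and]
      linarith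
    have h3 := hqw.mul hT B hB
    have h4 : (p : ℝ) ≤ B := by linarith [h3.1]
    have h5 : (B : ℝ) + 1 ≤ p + M := by linarith [h3.2]
    refine ⟨by exact_mod_cast h4, ?_⟩
    have : B + 1 ≤ p + M := by exact_mod_cast h5
    omega
  · have h1 : (X - C c) ^ M ∣ X ^ n * q - g' := by
      have h2 : q = a * g' - (X - C c) ^ M * ((a * g') /ₘ ((X - C c) ^ M)) := by
        rw [hq, eq_sub_iff_add_eq]; exact modByMonic_add_div _ _
      refine ⟨- b * g' - X ^ n * ((a * g') /ₘ ((X - C c) ^ M)), ?_⟩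
      rw [h2]
      linear_combination g' * hab
    have h2 : pT c ^ M ∣ toLaurent (X ^ n * q - g') := by
      rw [pT_eq, ← map_pow]; exact map_dvd _ h1
    have h3 : toLaurent q * LaurentPolynomial.T p - g
        = toLaurent (X ^ n * q - g') * LaurentPolynomial.T (p - n) := by
      rw [map_sub, map_mul, hg', toLaurent_X_pow, sub_mul]
      have e1 : (LaurentPolynomial.T (n : ℤ) : k[T;T⁻¹]) * toLaurent q * LaurentPolynomial.T (p - n)
          = toLaurent q * LaurentPolynomial.T p := by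
        rw [mul_comm (LaurentPolynomial.T (n : ℤ)) (toLaurent q), LaurentPolynomial.mul_T_assoc]
        congr 2; ring
      have e2 : g * LaurentPolynomial.T (-p) * LaurentPolynomial.T (n : ℤ)
          * LaurentPolynomial.T (p - n) = g := by
        rw [LaurentPolynomial.mul_T_assoc, LaurentPolynomial.mul_T_assoc]
        have : (-p + ((n : ℤ) + (p - n))) = 0 := by ring
        rw [this]; simp
      rw [e1, e2]
    rw [h3]
    exact h2.mul_right _

theorem taylor_coeff_sum {R : Type*} [CommRing R] {m : ℕ} (f : R[X]) (hf : f.natDegree ≤ m) (r : R)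
    (i : ℕ) (hi : i ≤ m) : (taylor r f).coeff i
      = ∑ j ∈ Finset.range (m - i + 1), ((j + i).choose i : R) * (f.coeff (j + i) * r ^ j) := by
  rw [taylor_coeff, eval_eq_sum_range' (n := m - i + 1)]
  · exact Finset.sum_congr rfl fun j _ => by rw [hasseDeriv_coeff]; ring
  · have := natDegree_hasseDeriv_le f i
    omega

theorem eq_of_coeff {R : Type*} [CommRing R] {m : ℕ} (H : R[X]) (c : R)
    (h1 : ∀ i < m, H.coeff i = 0) (h2 : H.coeff m = c) (h3 : H.natDegree ≤ m) :
    H = C c * X ^ m := by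
  ext i
  rw [coeff_C_mul_X_pow]
  rcases lt_trichotomy i m with h | h | h
  · rw [h1 i h, if_neg h.ne]
  · rw [h, h2, if_pos rfl]
  · rw [coeff_eq_zero_of_natDegree_lt (lt_of_le_of_lt h3 h), if_neg h.ne']

/-- THE WINDOW LEMMA. -/
theorem window {c cm : k} (hc : c ≠ 0) (m : ℕ) (F : Polynomial (k[T;T⁻¹]))
    (hdeg : F.natDegree ≤ m) (hm : F.coeff m = LaurentPolynomial.C cm) (x y : ℝ)
    (hxy : (∃ n : ℤ, x = n) ∨ (∃ n : ℤ, y = n))
    (hw : ∀ i < m, Win (-(((m : ℝ) - i) * x)) (((m : ℝ) - i) * y) (F.coeff i))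
    (lam : k[T;T⁻¹])
    (hdiv : ∀ i < m, ∃ e : ℕ, ((m : ℝ) - i) * (x + y) < e ∧ pT c ^ e ∣ (taylor lam F).coeff i) :
    ∃ lam' : k[T;T⁻¹], F = C (LaurentPolynomial.C cm) * (X - C lam') ^ m := by
  by_cases hneg : x + y < 0
  · refine ⟨0, ?_⟩
    rw [C_0, sub_zero]
    refine eq_of_coeff F _ (fun i hi => ?_) hm hdeg
    by_contra h0
    have h1 : ∃ B : ℤ, (F.coeff i).coeff B ≠ 0 := by
      by_contra hcon
      push Not at hcon
      exact h0 (LaurentPolynomial.ext fun B => by simpa using hcon B)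
    obtain ⟨B, hB⟩ := h1
    have h2 := hw i hi B hB
    have h3 : (0 : ℝ) < (m : ℝ) - i := by
      have : (i : ℝ) < m := by exact_mod_cast hi
      linarith
    nlinarith [h2.1, h2.2]
  push Not at hneg
  set M : ℕ := ⌊x + y⌋₊ + 1 with hM
  have hMlt : x + y < M := by rw [hM]; push_cast; exact Nat.lt_floor_add_one _
  have hMle : (M : ℝ) - 1 ≤ x + y := by rw [hM]; push_cast; linarith [Nat.floor_le hneg]
  obtain ⟨p, hp1, hp2⟩ : ∃ p : ℤ, -x ≤ p ∧ (p : ℝ) + M - 1 ≤ y := by
    rcases hxy with ⟨n, hn⟩ | ⟨n, hn⟩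
    · exact ⟨-n, by rw [hn]; push_cast; rfl, by push_cast; linarith⟩
    · refine ⟨n - (M - 1 : ℕ), ?_, ?_⟩
      · rw [hM]; push_cast; simp; linarith [Nat.floor_le hneg]
      · rw [hM]; push_cast; simp; linarith
  obtain ⟨μ, hμ1, hμ2⟩ := exists_trunc hc p M lam
  have hμw : Win (-x) y μ := by
    intro B hB
    have := hμ1 B hB
    have h1 : (p : ℝ) ≤ B := by exact_mod_cast this.1
    have h2 : (B : ℝ) + 1 ≤ p + M := by exact_mod_cast this.2
    exact ⟨by linarith, by linarith⟩
  have hw' : ∀ i ≤ m, Win (-(((m : ℝ) - i) * x)) (((m : ℝ) - i) * y) (F.coeff i) := by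
    intro i hi
    rcases hi.lt_or_eq with h | h
    · exact hw i h
    · rw [h, hm]; simpa using win_C cm
  have hH : taylor μ F = taylor (μ - lam) (taylor lam F) := by
    rw [taylor_taylor, sub_add_cancel]
  have hGd : (taylor lam F).natDegree ≤ m := by rw [natDegree_taylor]; exact hdeg
  have hzero : ∀ i < m, (taylor μ F).coeff i = 0 := by
    intro i hi
    have hpos : (0 : ℝ) < (m : ℝ) - i := by
      have : (i : ℝ) < m := by exact_mod_cast hi
      linarith
    refine win_eq_zero (e := ⌊((m : ℝ) - i) * (x + y)⌋₊ + 1) hc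
      (lo := -(((m : ℝ) - i) * x)) (hi := ((m : ℝ) - i) * y) ?_ ?_ ?_
    · rw [taylor_coeff_sum F hdeg μ i hi.le]
      refine Win.sum _ fun j hj => ?_
      have hj' : j + i ≤ m := by
        have := Finset.mem_range.1 hj
        omega
      have := ((hw' (j + i) hj').mul (hμw.pow j)).nat_mul ((j + i).choose i)
      refine this.mono ?_ ?_
      · push_cast; linarith
      · push_cast; linarith
    · rw [hH, taylor_coeff_sum _ hGd _ i hi.le]
      refine Finset.dvd_sum fun j hj => Dvd.dvd.mul_left ?_ _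
      have hj' : j + i ≤ m := by
        have := Finset.mem_range.1 hj
        omega
      have hρ : pT c ^ (M * j) ∣ (μ - lam) ^ j := by
        rw [pow_mul]; exact pow_dvd_pow_of_dvd hμ2 j
      rcases hj'.lt_or_eq with h | h
      · obtain ⟨e, he1, he2⟩ := hdiv (j + i) h
        have h1 : pT c ^ (e + M * j) ∣ (taylor lam F).coeff (j + i) * (μ - lam) ^ j := by
          rw [pow_add]; exact mul_dvd_mul he2 hρ
        refine (pow_dvd_pow _ ?_).trans h1
        have h2 : ((m : ℝ) - i) * (x + y) < ((e + M * j : ℕ) : ℝ) := by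
          push_cast at he1 ⊢
          have h3 : (x + y) * j ≤ M * j := mul_le_mul_of_nonneg_right hMlt.le (Nat.cast_nonneg j)
          linarith
        exact (Nat.floor_lt (mul_nonneg hpos.le hneg)).2 h2
      · refine (pow_dvd_pow _ ?_).trans (hρ.mul_left _)
        have h2 : ((m : ℝ) - i) * (x + y) < ((M * j : ℕ) : ℝ) := by
          have h3 : (m : ℝ) - i = j := by rw [← h]; push_cast; ring
          rw [h3] at hpos ⊢
          push_cast
          rw [mul_comm (M : ℝ)]
          exact mul_lt_mul_of_pos_left hMlt hpos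
        exact (Nat.floor_lt (mul_nonneg hpos.le hneg)).2 h2
    · push_cast
      have := Nat.lt_floor_add_one (((m : ℝ) - i) * (x + y))
      linarith
  have htop : (taylor μ F).coeff m = LaurentPolynomial.C cm := by
    rw [taylor_coeff_sum F hdeg μ m le_rfl]
    simp [hm]
  have hfin := eq_of_coeff (taylor μ F) _ hzero htop (by rw [natDegree_taylor]; exact hdeg)
  refine ⟨μ, ?_⟩
  have h1 : taylor (-μ) (taylor μ F) = F := by
    rw [taylor_taylor, neg_add_cancel, taylor_zero]
  rw [← h1, hfin, taylor_mul, taylor_C, taylor_pow, taylor_X, C_neg, sub_eq_add_neg]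

end Pool.Agent.helper10.LXT
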